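import Mathlib

/-! Cyclic numbers: every group of order `m` is cyclic iff `m` is coprime to `φ m`. -/

namespace Pool.Agent.Lib.MP_4f0ec0_al

open Nat

lemma cyc_squarefree {m : ℕ} (h : Nat.Coprime m (φ m)) : Squarefree m := by
  rw [Nat.squarefree_iff_prime_squarefree]
  intro p hp hpp
  have h1 : p ∣ φ m := by
    have h2 : φ (p * p) ∣ φ m := Nat.totient_dvd_of_dvd hpp
    have h3 : p ∣ φ (p * p) := by
      rw [← pow_two, Nat.totient_prime_pow hp (by norm_num)]
      simp
    exact h3.trans h2
  have h2 : p ∣ m := (dvd_mul_right p p).trans hpp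
  have := Nat.dvd_gcd h2 h1
  rw [h] at this
  exact hp.one_lt.ne' (Nat.dvd_one.mp this)

lemma cyc_of_dvd {m k : ℕ} (h : Nat.Coprime m (φ m)) (hk : k ∣ m) : Nat.Coprime k (φ k) :=
  Nat.Coprime.coprime_dvd_left hk (Nat.Coprime.coprime_dvd_right (Nat.totient_dvd_of_dvd hk) h)

universe u

theorem isCyclic_of_cyc {G : Type u} [Group G] {m : ℕ} (hm : m ≠ 0) (h : Nat.Coprime m (φ m))
    (hG : Nat.card G = m) : IsCyclic G := by
  have hfin : Finite G := Nat.finite_of_card_ne_zero (by rw [hG]; exact hm)
  have hsq : Squarefree (Nat.card G) := by rw [hG]; exact cyc_squarefree h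
  have hz : IsZGroup G := IsZGroup.of_squarefree hsq
  have hc : IsCyclic (commutator G) := IsZGroup.isCyclic_commutator G
  -- the action on the commutator subgroup is trivial
  have hcen : commutator G ≤ Subgroup.center G := by
    let f : G →* MulAut (commutator G) := MulAut.conjNormal
    have hcard : Nat.card (MulAut (commutator G)) = φ (Nat.card (commutator G)) :=
      IsCyclic.card_mulAut _
    have h1 : Nat.card f.range ∣ Nat.card G := Subgroup.card_range_dvd f
    have h2 : Nat.card f.range ∣ φ m := by
      refine (Subgroup.card_subgroup_dvd_card f.range).trans ?_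
      rw [hcard]
      exact Nat.totient_dvd_of_dvd (by rw [← hG]; exact Subgroup.card_subgroup_dvd_card _)
    have h3 : Nat.card f.range = 1 := by
      have := Nat.dvd_gcd (hG ▸ h1) h2
      rw [h] at this
      exact Nat.dvd_one.mp this
    have h4 : f.range = ⊥ := Subgroup.card_eq_one.mp h3
    intro x hx
    rw [Subgroup.mem_center_iff]
    intro g
    have h5 : f g = 1 := by
      have : f g ∈ f.range := ⟨g, rfl⟩
      rw [h4] at this
      exact Subgroup.mem_bot.mp this
    have h6 := congrArg (fun (a : MulAut (commutator G)) => ((a ⟨x, hx⟩ : commutator G) : G)) h5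
    simp only [f, MulAut.conjNormal_apply, MulAut.one_apply] at h6
    calc g * x = g * x * g⁻¹ * g := by group
      _ = x * g := by rw [h6]
  have hab : IsCyclic (Abelianization G) := inferInstance
  have hcomm : ∀ a b : G, a * b = b * a := by
    have := MonoidHom.isMulCommutative_of_isCyclic_of_ker_le_center
      (Abelianization.of (G := G)) (by rw [Abelianization.ker_of]; exact hcen)
    exact fun a b => this.is_comm.comm a b
  have hbot : commutator G = ⊥ := by
    rw [commutator_eq_bot_iff_center_eq_top, Subgroup.eq_top_iff']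
    intro x
    rw [Subgroup.mem_center_iff]
    intro g
    exact hcomm g x
  have hinj : Function.Injective (Abelianization.of (G := G)) := by
    rw [← MonoidHom.ker_eq_bot_iff, Abelianization.ker_of, hbot]
  exact isCyclic_of_injective _ hinj

/-- The semidirect product of `N` with the cyclic group generated by an automorphism. -/
abbrev SD (N : Type u) [Group N] (α : MulAut N) : Type u :=
  N ⋊[(Subgroup.zpowers α).subtype] (Subgroup.zpowers α)

lemma card_SD (N : Type u) [Group N] (α : MulAut N) :
    Nat.card (SD N α) = Nat.card N * orderOf α := by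
  rw [SemidirectProduct.card, Nat.card_zpowers]

lemma SD_not_comm (N : Type u) [Group N] (α : MulAut N) (hα : α ≠ 1) :
    ∃ x y : SD N α, x * y ≠ y * x := by
  obtain ⟨n, hn⟩ : ∃ n, α n ≠ n := by
    by_contra hcon
    push Not at hcon
    exact hα (MulEquiv.ext hcon)
  refine ⟨SemidirectProduct.inr ⟨α, Subgroup.mem_zpowers α⟩, SemidirectProduct.inl n, ?_⟩
  intro h
  have h1 := congrArg SemidirectProduct.left h
  simp only [SemidirectProduct.mul_left, SemidirectProduct.left_inr, SemidirectProduct.right_inr,
    SemidirectProduct.left_inl, SemidirectProduct.right_inl, one_mul, map_one, mul_one,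
    Subgroup.coe_subtype] at h1
  exact hn h1

/-- If `m` is not a cyclic number there is a non-cyclic group of order `m`. -/
theorem exists_not_cyclic {m : ℕ} (hm : m ≠ 0) (h : ¬ Nat.Coprime m (φ m)) :
    ∃ (G : Type) (_ : Group G), Nat.card G = m ∧ ¬ IsCyclic G := by
  obtain ⟨q, hq, hqm, hqφ⟩ := Nat.Prime.not_coprime_iff_dvd.mp h
  have : Fact q.Prime := ⟨hq⟩
  by_cases hsq : q * q ∣ m
  · obtain ⟨t, rfl⟩ := hsq
    have ht : t ≠ 0 := by
      rintro rfl
      exact hm (by simp)
    have : NeZero t := ⟨ht⟩
    refine ⟨(Multiplicative (ZMod q) × Multiplicative (ZMod q)) × Multiplicative (ZMod t),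
      inferInstance, ?_, ?_⟩
    · simp [Nat.card_eq_fintype_card, ZMod.card]
    · intro hc
      have h1 : IsCyclic (Multiplicative (ZMod q) × Multiplicative (ZMod q)) :=
        isCyclic_of_surjective (MonoidHom.fst _ (Multiplicative (ZMod t))) Prod.fst_surjective
      obtain ⟨g, hg⟩ := h1.exists_generator
      have h2 : orderOf g = q * q := by
        rw [orderOf_eq_card_of_forall_mem_zpowers hg]
        simp [Nat.card_eq_fintype_card, ZMod.card]
      have h3 : g ^ q = 1 := by
        have : ∀ x : Multiplicative (ZMod q), x ^ q = 1 := by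
          intro x
          have := pow_card_eq_one' (x := x)
          rwa [Nat.card_eq_fintype_card, Fintype.card_multiplicative, ZMod.card] at this
        exact Prod.ext (this _) (this _)
      have h4 := orderOf_dvd_of_pow_eq_one h3
      rw [h2] at h4
      have h5 := Nat.le_of_dvd hq.pos h4
      have := hq.two_le
      nlinarith
  · -- a prime `r` with `q ∣ r - 1`
    obtain ⟨r, hr, hrm, hqr⟩ : ∃ r, r.Prime ∧ r ∣ m ∧ q ∣ r - 1 := by
      rw [Nat.totient_eq_prod_factorization hm, Finsupp.prod,
        Prime.dvd_finsetProd_iff hq.prime] at hqφ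
      obtain ⟨r, hr, hqr⟩ := hqφ
      have hrp : r.Prime := Nat.prime_of_mem_primeFactors (by simpa using hr)
      have hrm : r ∣ m := Nat.dvd_of_mem_primeFactors (by simpa using hr)
      rcases (Nat.Prime.dvd_mul hq).mp hqr with h1 | h1
      · exfalso
        have h2 : q = r := (Nat.prime_dvd_prime_iff_eq hq hrp).mp (hq.dvd_of_dvd_pow h1)
        subst h2
        apply hsq
        have h3 : m.factorization q - 1 ≠ 0 := by
          intro h0
          rw [h0, pow_zero] at h1
          exact hq.one_lt.ne' (Nat.dvd_one.mp h1)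
        have h4 : q ^ 2 ∣ m := (hq.pow_dvd_iff_le_factorization hm).mpr (by omega)
        rwa [pow_two] at h4
      · exact ⟨r, hrp, hrm, h1⟩
    have hqr_ne : q ≠ r := by
      rintro rfl
      have h2 := hq.two_le
      have := Nat.le_of_dvd (by omega) hqr
      omega
    have hqrm : r * q ∣ m :=
      Nat.Coprime.mul_dvd_of_dvd_of_dvd ((Nat.coprime_primes hr hq).mpr hqr_ne.symm) hrm hqm
    obtain ⟨t, rfl⟩ := hqrm
    have ht : t ≠ 0 := by
      rintro rfl
      exact hm (by simp)
    have : NeZero t := ⟨ht⟩
    have : Fact r.Prime := ⟨hr⟩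
    have hcardr : Nat.card (Multiplicative (ZMod r)) = r := by
      simp [Nat.card_eq_fintype_card, ZMod.card]
    have hdvd : q ∣ Nat.card (MulAut (Multiplicative (ZMod r))) := by
      rw [IsCyclic.card_mulAut, hcardr, Nat.totient_prime hr]
      exact hqr
    obtain ⟨α, hα⟩ := exists_prime_orderOf_dvd_card' q hdvd
    refine ⟨SD (Multiplicative (ZMod r)) α × Multiplicative (ZMod t), inferInstance, ?_, ?_⟩
    · rw [Nat.card_prod, card_SD, hcardr, hα]
      simp [Nat.card_eq_fintype_card, ZMod.card]
    · intro hc
      have h1 : IsCyclic (SD (Multiplicative (ZMod r)) α) :=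
        isCyclic_of_surjective (MonoidHom.fst _ (Multiplicative (ZMod t))) Prod.fst_surjective
      obtain ⟨x, y, hxy⟩ := SD_not_comm (Multiplicative (ZMod r)) α (by
        rintro rfl
        rw [orderOf_one] at hα
        exact hq.one_lt.ne hα)
      exact hxy (IsCyclic.commGroup.mul_comm x y)

end Pool.Agent.Lib.MP_4f0ec0_al
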