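import Mathlib
import Pool.Agent.Lib.MP_4f0ec0_al.Cyclic

/-! Perfect cores, simple quotients and product decompositions. -/

namespace Pool.Agent.Lib.MP_4f0ec0_al

open Nat

universe u v w

/-- `S` is a finite non-abelian simple group. -/
def NonabSimple (S : Type u) [Group S] : Prop :=
  Finite S ∧ IsSimpleGroup S ∧ ∃ a b : S, a * b ≠ b * a

lemma exists_perfect_core (G : Type u) [Group G] [Finite G] (h : ¬ Group.IsSolvable G) :
    ∃ D : Subgroup G, D.Normal ∧ Group.IsPerfect D ∧ D ≠ ⊥ := by
  obtain ⟨N, hN⟩ : ∃ N, ∀ k, Nat.card (derivedSeries G N) ≤ Nat.card (derivedSeries G k) := by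
    have hwf := WellFounded.has_min (measure (fun n => Nat.card (derivedSeries G n))).wf
      Set.univ ⟨0, trivial⟩
    obtain ⟨N, -, hN⟩ := hwf
    exact ⟨N, fun k => not_lt.mp (hN k trivial)⟩
  refine ⟨derivedSeries G N, derivedSeries_normal G N, ?_, ?_⟩
  · rw [Subgroup.isPerfect_iff, ← derivedSeries_succ]
    exact Subgroup.eq_of_le_of_card_ge (derivedSeries_antitone G (Nat.le_succ N)) (hN (N + 1))
  · intro h0
    exact h ⟨⟨N, h0⟩⟩

lemma exists_simple_quotient (D : Type u) [Group D] [Finite D] [Nontrivial D] :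
    ∃ M : Subgroup D, ∃ _ : M.Normal, IsSimpleGroup (D ⧸ M) := by
  classical
  have hfin : Finite (Subgroup D) := inferInstance
  obtain ⟨M, ⟨hM1, hM2⟩, hmax⟩ := Set.Finite.exists_maximalFor (fun M : Subgroup D => Nat.card M)
    {M : Subgroup D | M.Normal ∧ M ≠ ⊤} (Set.toFinite _)
    ⟨⊥, Subgroup.normal_bot, bot_ne_top⟩
  refine ⟨M, hM1, ?_⟩
  have hnt : Nontrivial (D ⧸ M) := by
    rw [← not_subsingleton_iff_nontrivial]
    exact fun h => hM2 (QuotientGroup.subgroup_eq_top_of_subsingleton M h)
  refine { hnt with eq_bot_or_eq_top_of_normal := ?_ }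
  intro H hH
  by_cases htop : H.comap (QuotientGroup.mk' M) = ⊤
  · right
    rw [← Subgroup.map_comap_eq_self_of_surjective (QuotientGroup.mk'_surjective M) H, htop,
      Subgroup.map_top_of_surjective _ (QuotientGroup.mk'_surjective M)]
  · left
    have hle : M ≤ H.comap (QuotientGroup.mk' M) := by
      conv_lhs => rw [← QuotientGroup.ker_mk' M]
      exact Subgroup.ker_le_comap _ _
    have h1 : Nat.card (H.comap (QuotientGroup.mk' M)) ≤ Nat.card M :=
      hmax ⟨hH.comap _, htop⟩ (Subgroup.card_le_of_le hle)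
    have h2 : M = H.comap (QuotientGroup.mk' M) := Subgroup.eq_of_le_of_card_ge hle h1
    rw [← Subgroup.map_comap_eq_self_of_surjective (QuotientGroup.mk'_surjective M) H, ← h2]
    have := QuotientGroup.map_mk'_self M
    exact this

lemma not_comm_of_perfect (Q : Type u) [Group Q] [Nontrivial Q] [Group.IsPerfect Q] :
    ∃ a b : Q, a * b ≠ b * a := by
  by_contra hcon
  push Not at hcon
  exact Group.IsPerfect.not_isSolvable Q (Group.isSolvable_of_comm hcon)

lemma center_eq_bot {S : Type u} [Group S] (hS : NonabSimple S) : Subgroup.center S = ⊥ := by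
  obtain ⟨-, hs, a, b, hab⟩ := hS
  rcases hs.eq_bot_or_eq_top_of_normal (Subgroup.center S) inferInstance with h | h
  · exact h
  · exfalso
    apply hab
    have : b ∈ Subgroup.center S := by rw [h]; trivial
    exact Subgroup.mem_center_iff.mp this a

lemma NonabSimple.not_solvable {S : Type u} [Group S] (hS : NonabSimple S) :
    ¬ Group.IsSolvable S := by
  intro h
  obtain ⟨-, hs, a, b, hab⟩ := hS
  exact hab (IsSimpleGroup.comm_iff_isSolvable.mpr h a b)

/-- A hom from a nonabelian simple group to a commutative group is trivial. -/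
lemma NonabSimple.hom_trivial {S : Type u} [Group S] (hS : NonabSimple S) {C : Type v} [Group C]
    (hC : ∀ a b : C, a * b = b * a) (f : S →* C) (x : S) : f x = 1 := by
  obtain ⟨-, hs, a, b, hab⟩ := hS
  rcases hs.eq_bot_or_eq_top_of_normal f.ker inferInstance with h | h
  · exfalso
    apply hab
    have hinj := (MonoidHom.ker_eq_bot_iff f).mp h
    apply hinj
    rw [map_mul, map_mul, hC]
  · have : x ∈ f.ker := by rw [h]; trivial
    exact this

/-- Counting solutions of `x ^ k = 1` in a product. -/
lemma card_pow_prod (A : Type u) (B : Type v) [Group A] [Group B] (k : ℕ) :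
    Nat.card {x : A × B // x ^ k = 1} = Nat.card {x : A // x ^ k = 1} *
      Nat.card {x : B // x ^ k = 1} := by
  rw [← Nat.card_prod]
  refine Nat.card_congr ?_
  refine ⟨fun x => (⟨x.1.1, by have := x.2; exact congrArg Prod.fst this⟩,
    ⟨x.1.2, by have := x.2; exact congrArg Prod.snd this⟩),
    fun y => ⟨(y.1.1, y.2.1), Prod.ext y.1.2 y.2.2⟩, fun x => rfl, fun y => rfl⟩

lemma card_pow_congr {A : Type u} {B : Type v} [Group A] [Group B] (e : A ≃* B) (k : ℕ) :
    Nat.card {x : A // x ^ k = 1} = Nat.card {x : B // x ^ k = 1} := by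
  refine Nat.card_congr ⟨fun x => ⟨e x.1, by rw [← map_pow, x.2, map_one]⟩,
    fun y => ⟨e.symm y.1, by rw [← map_pow, y.2, map_one]⟩, fun x => by simp, fun y => by simp⟩

/-- Cancelling a finite factor against a cyclic group: if `A × B ≅ A × C` with `C` cyclic then
`B` is cyclic. -/
lemma isCyclic_of_prod_equiv {A : Type u} {B : Type v} {C : Type w} [Group A] [Group B] [Group C]
    [Finite A] [Finite B] [Finite C] [IsCyclic C] (e : A × B ≃* A × C) : IsCyclic B := by
  classical
  have : Fintype B := Fintype.ofFinite B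
  have : Fintype C := Fintype.ofFinite C
  refine isCyclic_of_card_pow_eq_one_le (α := B) fun k hk => ?_
  have h1 := card_pow_congr e k
  rw [card_pow_prod, card_pow_prod] at h1
  have h2 : 0 < Nat.card {x : A // x ^ k = 1} := by
    have : Nonempty {x : A // x ^ k = 1} := ⟨⟨1, one_pow k⟩⟩
    exact Nat.card_pos
  have h3 : Nat.card {x : B // x ^ k = 1} = Nat.card {x : C // x ^ k = 1} :=
    Nat.eq_of_mul_eq_mul_left h2 h1
  have h4 : Nat.card {x : C // x ^ k = 1} ≤ k := by
    have := IsCyclic.card_pow_eq_one_le (α := C) hk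
    rw [Nat.card_eq_fintype_card, Fintype.card_subtype]
    convert this
  have h5 : Nat.card {x : B // x ^ k = 1} = (Finset.univ.filter fun a : B => a ^ k = 1).card := by
    rw [Nat.card_eq_fintype_card, Fintype.card_subtype]
  rw [← h5, h3]
  exact h4

lemma finite_mulAut' (S : Type u) [Group S] [Finite S] : Finite (MulAut S) := by
  have : Finite (S ≃ S) := inferInstance
  exact Finite.of_injective (fun a : MulAut S => a.toEquiv) (fun a b hab => by
    ext x
    exact congrArg (fun e : S ≃ S => e x) hab)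

end Pool.Agent.Lib.MP_4f0ec0_al
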