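import Mathlib
import Pool.Agent.Lib.MP_4f0ec0_al.Core

/-! Supersolvable groups. -/

namespace Pool.Agent.Lib.MP_4f0ec0_al

open Nat

/-- A group `G` is supersolvable: there is a chain `1 = H 0 ≤ ... ≤ H k = G` of normal subgroups
of `G` such that each `H (i+1)` is generated by `H i` and one element, that is, each quotient
`H (i+1) / H i` is cyclic. -/
def Supersolvable (G : Type) [Group G] : Prop :=
  ∃ (k : ℕ) (H : ℕ → Subgroup G), H 0 = ⊥ ∧ H k = ⊤ ∧ (∀ i ≤ k, (H i).Normal) ∧
    ∀ i < k, ∃ x : G, H (i + 1) = H i ⊔ Subgroup.zpowers x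

/-- Working version: a chain of normal subgroups of prime order built from the bottom. -/
def SSn : ℕ → (G : Type) → [Group G] → Prop
  | 0, G, _ => Subsingleton G
  | k + 1, G, _ => Subsingleton G ∨ ∃ (N : Subgroup G) (_ : N.Normal), (Nat.card N).Prime ∧
      SSn k (G ⧸ N)

/-- Working version of supersolvability for finite groups. -/
def SS (G : Type) [Group G] : Prop := ∃ k, SSn k G

lemma SSn_succ : ∀ (k : ℕ) (G : Type) [Group G], SSn k G → SSn (k + 1) G
  | 0, G, _, h => Or.inl h
  | k + 1, G, _, h => by
    rcases h with h | ⟨N, hN, hp, h⟩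
    · exact Or.inl h
    · exact Or.inr ⟨N, hN, hp, SSn_succ k _ h⟩

lemma SSn_of_surjective : ∀ (k : ℕ) {G G' : Type} [Group G] [Group G'] (f : G →* G'),
    Function.Surjective f → SSn k G → SSn k G'
  | 0, G, G', _, _, f, hf, h => by
    have : Subsingleton G := h
    exact hf.subsingleton
  | k + 1, G, G', _, _, f, hf, h => by
    rcases h with h | ⟨N, hN, hp, h⟩
    · exact Or.inl hf.subsingleton
    · have hfin : Finite N := Nat.finite_of_card_ne_zero hp.ne_zero
      by_cases hle : N ≤ f.ker
      · -- factors through the quotient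
        refine SSn_succ k _ (SSn_of_surjective k (QuotientGroup.lift N f hle) ?_ h)
        exact QuotientGroup.lift_surjective_of_surjective N f hf hle
      · have hNm : (N.map f).Normal := hN.map f hf
        have hcard : (Nat.card (N.map f)).Prime := by
          have h1 : Nat.card (N.map f) ∣ Nat.card N := Subgroup.card_map_dvd N f
          rcases (Nat.dvd_prime hp).mp h1 with h2 | h2
          · exfalso
            apply hle
            rw [Subgroup.card_eq_one, Subgroup.map_eq_bot_iff] at h2
            exact h2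
          · rw [h2]; exact hp
        refine Or.inr ⟨N.map f, hNm, hcard, ?_⟩
        refine SSn_of_surjective k (QuotientGroup.map N (N.map f) f (Subgroup.le_comap_map f N)) ?_ h
        intro y
        obtain ⟨x, rfl⟩ := QuotientGroup.mk'_surjective (N.map f) y
        obtain ⟨g, rfl⟩ := hf x
        exact ⟨QuotientGroup.mk' N g, rfl⟩

lemma SSn_of_injective : ∀ (k : ℕ) {G G' : Type} [Group G] [Group G'] (f : G' →* G),
    Function.Injective f → SSn k G → SSn k G'
  | 0, G, G', _, _, f, hf, h => by
    have : Subsingleton G := h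
    exact hf.subsingleton
  | k + 1, G, G', _, _, f, hf, h => by
    rcases h with h | ⟨N, hN, hp, h⟩
    · exact Or.inl hf.subsingleton
    · have hfin : Finite N := Nat.finite_of_card_ne_zero hp.ne_zero
      have hNc : (N.comap f).Normal := hN.comap f
      have hcinj : Function.Injective (QuotientGroup.map (N.comap f) N f le_rfl) := by
        rw [injective_iff_map_eq_one]
        intro y hy
        obtain ⟨x, rfl⟩ := QuotientGroup.mk'_surjective (N.comap f) y
        have h1 : QuotientGroup.mk' N (f x) = 1 := hy
        rw [← MonoidHom.mem_ker, QuotientGroup.ker_mk'] at h1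
        have h2 : x ∈ N.comap f := h1
        rw [← MonoidHom.mem_ker, QuotientGroup.ker_mk']
        exact h2
      have h1 : Nat.card (N.comap f) ∣ Nat.card N := by
        let g : N.comap f →* N := (f.comp (N.comap f).subtype).codRestrict N (fun x => x.2)
        have hg : Function.Injective g := by
          intro a b hab
          apply Subtype.ext
          apply hf
          exact congrArg (fun z : N => (z : G)) hab
        exact Subgroup.card_dvd_of_injective g hg
      rcases (Nat.dvd_prime hp).mp h1 with h2 | h2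
      · have h3 : N.comap f = ⊥ := Subgroup.card_eq_one.mp h2
        refine SSn_succ k _ (SSn_of_injective k ((QuotientGroup.mk' N).comp f) ?_ h)
        rw [← MonoidHom.ker_eq_bot_iff, eq_bot_iff, ← h3]
        intro x hx
        have h4 : QuotientGroup.mk' N (f x) = 1 := hx
        rw [← MonoidHom.mem_ker, QuotientGroup.ker_mk'] at h4
        exact h4
      · exact Or.inr ⟨N.comap f, hNc, by rw [h2]; exact hp, SSn_of_injective k _ hcinj h⟩

lemma SS.of_surjective {G G' : Type} [Group G] [Group G'] (f : G →* G')
    (hf : Function.Surjective f) (h : SS G) : SS G' := by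
  obtain ⟨k, hk⟩ := h
  exact ⟨k, SSn_of_surjective k f hf hk⟩

lemma SS.of_injective {G G' : Type} [Group G] [Group G'] (f : G' →* G)
    (hf : Function.Injective f) (h : SS G) : SS G' := by
  obtain ⟨k, hk⟩ := h
  exact ⟨k, SSn_of_injective k f hf hk⟩

lemma SS.congr {G G' : Type} [Group G] [Group G'] (e : G ≃* G') (h : SS G) : SS G' :=
  h.of_surjective e.toMonoidHom e.surjective

lemma SS.quotient {G : Type} [Group G] (N : Subgroup G) [N.Normal] (h : SS G) : SS (G ⧸ N) :=
  h.of_surjective (QuotientGroup.mk' N) (QuotientGroup.mk'_surjective N)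

lemma SS.subgroup {G : Type} [Group G] (H : Subgroup G) (h : SS G) : SS H :=
  h.of_injective H.subtype H.subtype_injective

lemma SS.of_subsingleton {G : Type} [Group G] [h : Subsingleton G] : SS G := ⟨0, h⟩

lemma SS.extend {G : Type} [Group G] (N : Subgroup G) [hN : N.Normal] (hp : (Nat.card N).Prime)
    (h : SS (G ⧸ N)) : SS G := by
  obtain ⟨k, hk⟩ := h
  exact ⟨k + 1, Or.inr ⟨N, hN, hp, hk⟩⟩

/-- Induction principle from above: in a supersolvable group every nontrivial normal subgroup
contains a normal subgroup of prime order. -/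
lemma SSn_exists_prime : ∀ (k : ℕ) {G : Type} [Group G], SSn k G → ∀ (N : Subgroup G) [N.Normal],
    N ≠ ⊥ → ∃ L : Subgroup G, L.Normal ∧ L ≤ N ∧ (Nat.card L).Prime
  | 0, G, _, h, N, _, hN => by
    have : Subsingleton G := h
    exact absurd (Subsingleton.elim _ _) hN
  | k + 1, G, _, h, N, hNn, hN => by
    rcases h with h | ⟨M, hM, hp, h⟩
    · exact absurd (Subsingleton.elim _ _) hN
    · by_cases hle : M ≤ N
      · exact ⟨M, hM, hle, hp⟩
      · have hfin : Finite M := Nat.finite_of_card_ne_zero hp.ne_zero
        have hinf : M ⊓ N = ⊥ := by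
          have h1 : Nat.card (M ⊓ N : Subgroup G) ∣ Nat.card M := Subgroup.card_dvd_of_le inf_le_left
          rcases (Nat.dvd_prime hp).mp h1 with h2 | h2
          · exact Subgroup.card_eq_one.mp h2
          · exfalso
            apply hle
            have h3 : M ⊓ N = M := Subgroup.eq_of_le_of_card_ge inf_le_left h2.ge
            exact inf_eq_left.mp h3
        let π := QuotientGroup.mk' M
        have hπ : Function.Surjective π := QuotientGroup.mk'_surjective M
        have hNm : (N.map π).Normal := hNn.map π hπ
        have hne : N.map π ≠ ⊥ := by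
          intro h0
          rw [Subgroup.map_eq_bot_iff, QuotientGroup.ker_mk'] at h0
          apply hN
          rw [eq_bot_iff, ← hinf]
          exact le_inf h0 le_rfl
        obtain ⟨L, hL1, hL2, hL3⟩ := SSn_exists_prime k h (N.map π) hne
        have hLc : (L.comap π).Normal := hL1.comap π
        refine ⟨N ⊓ L.comap π, inferInstance, inf_le_left, ?_⟩
        -- the map to `L` is bijective
        let g : (N ⊓ L.comap π : Subgroup G) →* L :=
          (π.comp (N ⊓ L.comap π).subtype).codRestrict L (fun x => x.2.2)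
        have hg1 : Function.Injective g := by
          rw [injective_iff_map_eq_one]
          intro x hx
          have h1 : π (x : G) = 1 := congrArg (fun z : L => (z : G ⧸ M)) hx
          rw [← MonoidHom.mem_ker, QuotientGroup.ker_mk'] at h1
          have h2 : (x : G) ∈ M ⊓ N := ⟨h1, x.2.1⟩
          rw [hinf, Subgroup.mem_bot] at h2
          exact Subtype.ext h2
        have hg2 : Function.Surjective g := by
          rintro ⟨y, hy⟩
          obtain ⟨x, hx, rfl⟩ := hL2 hy
          exact ⟨⟨x, hx, hy⟩, rfl⟩
        rw [Nat.card_congr (Equiv.ofBijective g ⟨hg1, hg2⟩)]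
        exact hL3

lemma SS.exists_prime {G : Type} [Group G] (h : SS G) (N : Subgroup G) [N.Normal] (hN : N ≠ ⊥) :
    ∃ L : Subgroup G, L.Normal ∧ L ≤ N ∧ (Nat.card L).Prime := by
  obtain ⟨k, hk⟩ := h
  exact SSn_exists_prime k hk N hN

lemma comap_sup_zpowers {G G' : Type} [Group G] [Group G'] (π : G →* G')
    (hπ : Function.Surjective π) (H : Subgroup G') (x : G) :
    (H ⊔ Subgroup.zpowers (π x)).comap π = H.comap π ⊔ Subgroup.zpowers x := by
  have h1 : (H.comap π ⊔ Subgroup.zpowers x).map π = H ⊔ Subgroup.zpowers (π x) := by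
    rw [Subgroup.map_sup, Subgroup.map_comap_eq_self_of_surjective hπ, MonoidHom.map_zpowers]
  rw [← h1, Subgroup.comap_map_eq_self]
  exact (Subgroup.ker_le_comap π H).trans le_sup_left

theorem SS.supersolvable {G : Type} [Group G] (h : SS G) : Supersolvable G := by
  obtain ⟨k, hk⟩ := h
  induction k generalizing G with
  | zero =>
    have : Subsingleton G := hk
    exact ⟨0, fun _ => ⊥, rfl, Subsingleton.elim _ _, fun i _ => Subgroup.normal_bot,
      fun i hi => absurd hi (Nat.not_lt_zero i)⟩
  | succ k ih =>
    rcases hk with h | ⟨N, hN, hp, hk⟩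
    · exact ⟨0, fun _ => ⊥, rfl, Subsingleton.elim _ _, fun i _ => Subgroup.normal_bot,
        fun i hi => absurd hi (Nat.not_lt_zero i)⟩
    · obtain ⟨l, H, h0, hl, hn, hs⟩ := ih hk
      have : Fact (Nat.card N).Prime := ⟨hp⟩
      have hcyc : IsCyclic N := isCyclic_of_prime_card (p := Nat.card N) rfl
      have hπ := QuotientGroup.mk'_surjective N
      refine ⟨l + 1, fun i => Nat.casesOn i ⊥ (fun j => (H j).comap (QuotientGroup.mk' N)), rfl,
        ?_, ?_, ?_⟩
      · show (H l).comap (QuotientGroup.mk' N) = ⊤
        rw [hl, Subgroup.comap_top]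
      · intro i hi
        rcases i with _ | i
        · exact Subgroup.normal_bot
        · exact (hn i (by omega)).comap _
      · intro i hi
        rcases i with _ | i
        · obtain ⟨g, hg⟩ := hcyc.exists_generator
          refine ⟨(g : G), ?_⟩
          show (H 0).comap (QuotientGroup.mk' N) = ⊥ ⊔ Subgroup.zpowers (g : G)
          rw [h0, MonoidHom.comap_bot, QuotientGroup.ker_mk', bot_sup_eq]
          ext y
          constructor
          · intro hy
            obtain ⟨m, hm⟩ := Subgroup.mem_zpowers_iff.mp (hg ⟨y, hy⟩)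
            exact Subgroup.mem_zpowers_iff.mpr ⟨m, congrArg (fun z : N => (z : G)) hm⟩
          · intro hy
            obtain ⟨m, hm⟩ := Subgroup.mem_zpowers_iff.mp hy
            rw [← hm]
            exact N.zpow_mem g.2 m
        · obtain ⟨x', hx'⟩ := hs i (by omega)
          obtain ⟨x, rfl⟩ := hπ x'
          refine ⟨x, ?_⟩
          show (H (i + 1)).comap (QuotientGroup.mk' N) =
            (H i).comap (QuotientGroup.mk' N) ⊔ Subgroup.zpowers x
          rw [hx']
          exact comap_sup_zpowers _ hπ _ _

lemma Supersolvable.quotient {G : Type} [Group G] (N : Subgroup G) [N.Normal]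
    (h : Supersolvable G) : Supersolvable (G ⧸ N) := by
  obtain ⟨l, H, h0, hl, hn, hs⟩ := h
  have hπ := QuotientGroup.mk'_surjective N
  refine ⟨l, fun i => (H i).map (QuotientGroup.mk' N), ?_, ?_, fun i hi => (hn i hi).map _ hπ, ?_⟩
  · show (H 0).map _ = ⊥
    rw [h0, Subgroup.map_bot]
  · show (H l).map _ = ⊤
    rw [hl, Subgroup.map_top_of_surjective _ hπ]
  · intro i hi
    obtain ⟨x, hx⟩ := hs i hi
    refine ⟨QuotientGroup.mk' N x, ?_⟩
    show (H (i + 1)).map _ = (H i).map _ ⊔ _
    rw [hx, Subgroup.map_sup, MonoidHom.map_zpowers]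

/-- A finite group with a nontrivial cyclic normal subgroup has a normal subgroup of prime
order. -/
lemma exists_normal_prime_of_zpowers {G : Type} [Group G] [Finite G] {x : G} (hx : x ≠ 1)
    (hn : (Subgroup.zpowers x).Normal) :
    ∃ N : Subgroup G, N.Normal ∧ (Nat.card N).Prime ∧ N ≤ Subgroup.zpowers x := by
  have hne : orderOf x ≠ 1 := fun h => hx (orderOf_eq_one_iff.mp h)
  obtain ⟨p, hp, c, hc⟩ := Nat.exists_prime_and_dvd hne
  have hpos : 0 < orderOf x := orderOf_pos x
  have hc0 : 0 < c := by
    rcases Nat.eq_zero_or_pos c with h | h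
    · rw [h, mul_zero] at hc
      omega
    · exact h
  refine ⟨Subgroup.zpowers (x ^ c), ⟨?_⟩, ?_, ?_⟩
  · intro y hy g
    obtain ⟨m, hm⟩ := Subgroup.mem_zpowers_iff.mp hy
    obtain ⟨j, hj⟩ := Subgroup.mem_zpowers_iff.mp (hn.conj_mem x (Subgroup.mem_zpowers x) g)
    refine Subgroup.mem_zpowers_iff.mpr ⟨j * m, ?_⟩
    rw [← hm]
    calc (x ^ c) ^ (j * m) = ((x ^ j) ^ c) ^ m := by
          rw [← zpow_natCast, ← zpow_natCast, ← zpow_mul, ← zpow_mul, ← zpow_mul]
          ring_nf
      _ = ((g * x * g⁻¹) ^ c) ^ m := by rw [hj]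
      _ = g * (x ^ c) ^ m * g⁻¹ := by rw [conj_pow, conj_zpow]
  · rw [Nat.card_zpowers, orderOf_pow, hc, Nat.gcd_eq_right (dvd_mul_left c p),
      Nat.mul_div_cancel p hc0]
    exact hp
  · rw [Subgroup.zpowers_le]
    exact Subgroup.pow_mem _ (Subgroup.mem_zpowers x) c

theorem Supersolvable.ss {G : Type} [Group G] [Finite G] (h : Supersolvable G) : SS G := by
  obtain ⟨n, hn⟩ : ∃ n, Nat.card G = n := ⟨_, rfl⟩
  induction n using Nat.strong_induction_on generalizing G with
  | _ n ih =>
    rcases subsingleton_or_nontrivial G with hs | hnt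
    · exact SS.of_subsingleton
    · have hN : ∃ N : Subgroup G, N.Normal ∧ (Nat.card N).Prime := by
        obtain ⟨l, H, h0, hl, hnm, hs⟩ := h
        have hex : ∃ i, H i ≠ ⊥ := ⟨l, by rw [hl]; exact top_ne_bot⟩
        classical
        have hi := Nat.find_spec hex
        have hmin : ∀ j < Nat.find hex, H j = ⊥ := fun j hj => by
          have := Nat.find_min hex hj
          push Not at this
          exact this
        have hile : Nat.find hex ≤ l := Nat.find_min' hex (by rw [hl]; exact top_ne_bot)
        obtain ⟨j, hj⟩ : ∃ j, Nat.find hex = j + 1 := by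
          rcases hf : Nat.find hex with _ | j
          · rw [hf] at hi
            exact absurd h0 hi
          · exact ⟨j, rfl⟩
        obtain ⟨x, hx⟩ := hs j (by omega)
        rw [hmin j (by omega), bot_sup_eq, ← hj] at hx
        have hx1 : x ≠ 1 := by
          rintro rfl
          rw [Subgroup.zpowers_one_eq_bot] at hx
          exact hi hx
        obtain ⟨N, hN1, hN2, -⟩ := exists_normal_prime_of_zpowers hx1 (by
          rw [← hx]
          exact hnm _ hile)
        exact ⟨N, hN1, hN2⟩
      obtain ⟨N, hN1, hN2⟩ := hN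
      refine SS.extend N hN2 (ih (Nat.card (G ⧸ N)) ?_ (h.quotient N) rfl)
      rw [← hn, Subgroup.card_eq_card_quotient_mul_card_subgroup N]
      have h1 := hN2.one_lt
      have h2 : 0 < Nat.card (G ⧸ N) := Nat.card_pos
      nlinarith

theorem supersolvable_iff {G : Type} [Group G] [Finite G] : Supersolvable G ↔ SS G :=
  ⟨fun h => h.ss, fun h => h.supersolvable⟩

end Pool.Agent.Lib.MP_4f0ec0_al
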