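import Mathlib
import Pool.Agent.Lib.MP_4f0ec0_al.SS

/-! Tools: normal Sylow subgroup for the largest prime, minimal normal subgroups, counting fixed
points. -/

namespace Pool.Agent.Lib.MP_4f0ec0_al

open Nat
open scoped commutatorElement

/-- In a supersolvable group the Sylow subgroup for a prime at least all prime divisors is
normal. -/
lemma SSn_sylow : ∀ (k : ℕ) {G : Type} [Group G] [Finite G], SSn k G → ∀ (p : ℕ), p.Prime →
    (∀ s, s.Prime → s ∣ Nat.card G → s ≤ p) →
    ∃ S : Subgroup G, S.Normal ∧ (∃ j, Nat.card S = p ^ j) ∧ ¬ p ∣ S.index := by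
  intro k
  induction k with
  | zero =>
    intro G _ _ h p hp _
    have : Subsingleton G := h
    refine ⟨⊥, Subgroup.normal_bot, ⟨0, by simp⟩, ?_⟩
    rw [Subgroup.index_bot, Nat.card_of_subsingleton (1 : G)]
    exact hp.one_lt.ne' ∘ Nat.dvd_one.mp
  | succ k ih =>
    intro G _ _ h p hp hmax
    have hfp : Fact p.Prime := ⟨hp⟩
    rcases h with h | ⟨N, hN, hs, h⟩
    · refine ⟨⊥, Subgroup.normal_bot, ⟨0, by simp⟩, ?_⟩
      rw [Subgroup.index_bot, Nat.card_of_subsingleton (1 : G)]
      exact hp.one_lt.ne' ∘ Nat.dvd_one.mp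
    · set s := Nat.card N with hsdef
      have hsG : s ∣ Nat.card G := Subgroup.card_subgroup_dvd_card N
      have hsp : s ≤ p := hmax s hs hsG
      obtain ⟨S', hS'n, ⟨j, hj⟩, hidx⟩ := ih h p hp (fun t ht htd =>
        hmax t ht (htd.trans (Subgroup.card_quotient_dvd_card N)))
      set L : Subgroup G := S'.comap (QuotientGroup.mk' N) with hL
      have hLn : L.Normal := hS'n.comap _
      have hLidx : L.index = S'.index :=
        Subgroup.index_comap_of_surjective _ (QuotientGroup.mk'_surjective N)
      have hNL : N ≤ L := by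
        conv_lhs => rw [← QuotientGroup.ker_mk' N]
        exact Subgroup.ker_le_comap _ _
      have hLcard : Nat.card L = s * p ^ j := by
        have h1 := Subgroup.card_mul_index L
        have h2 := Subgroup.card_mul_index S'
        have h3 := Subgroup.card_eq_card_quotient_mul_card_subgroup N
        rw [← hj]
        have h4 : 0 < S'.index := Nat.pos_of_ne_zero Subgroup.FiniteIndex.index_ne_zero
        apply Nat.eq_of_mul_eq_mul_right h4
        rw [← hLidx, h1, h3, ← h2, hLidx]
        ring
      rcases hsp.eq_or_lt with heq | hlt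
      · refine ⟨L, hLn, ⟨j + 1, ?_⟩, by rw [hLidx]; exact hidx⟩
        rw [hLcard, heq, pow_succ, mul_comm]
      · -- `s < p`
        have P : Sylow p L := default
        have hcop : Nat.Coprime p s := (Nat.coprime_primes hp hs).mpr hlt.ne'
        have hPcard : Nat.card P = p ^ j := by
          rw [Sylow.card_eq_multiplicity, hLcard, Nat.factorization_mul hs.ne_zero
            (pow_ne_zero j hp.ne_zero), Finsupp.add_apply, Nat.Prime.factorization_pow hp,
            Nat.factorization_eq_zero_of_not_dvd]
          · simp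
          · intro hd
            exact hlt.ne' ((Nat.prime_dvd_prime_iff_eq hp hs).mp hd)
        -- `P` centralizes `N`
        have hcent : ∀ x ∈ P, ∀ n ∈ N, (x : G) * n = n * x := by
          intro x hx n hn
          let f : G →* MulAut N := MulAut.conjNormal
          have hcyc : IsCyclic N := by
            have : Fact (Nat.card N).Prime := ⟨hs⟩
            exact isCyclic_of_prime_card (p := Nat.card N) rfl
          have hAutfin : Finite (MulAut N) := finite_mulAut' N
          have h1 : orderOf (f x) ∣ s - 1 := by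
            have h2 := orderOf_dvd_natCard (f (x : G))
            rwa [IsCyclic.card_mulAut, Nat.totient_prime hs] at h2
          have h2 : orderOf (f x) ∣ p ^ j := by
            refine (orderOf_map_dvd f (x : G)).trans ?_
            rw [Subgroup.orderOf_coe]
            have h3 : orderOf (⟨x, hx⟩ : P) ∣ Nat.card P := orderOf_dvd_natCard _
            rw [hPcard] at h3
            rwa [← Subgroup.orderOf_coe] at h3
          have h3 : f x = 1 := by
            rw [← orderOf_eq_one_iff]
            by_contra hne
            obtain ⟨i, hi, hi2⟩ := (Nat.dvd_prime_pow hp).mp h2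
            have hi0 : i ≠ 0 := by
              rintro rfl
              exact hne (by rw [hi2, pow_zero])
            have h4 : p ∣ s - 1 := (dvd_pow_self p hi0).trans (by rw [← hi2]; exact h1)
            have := Nat.le_of_dvd (by have := hs.two_le; omega) h4
            omega
          have h4 := congrArg (fun (a : MulAut N) => ((a ⟨n, hn⟩ : N) : G)) h3
          simp only [f, MulAut.conjNormal_apply, MulAut.one_apply] at h4
          calc (x : G) * n = x * n * (x : G)⁻¹ * x := by group
            _ = n * x := by rw [h4]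
        -- `P` is normal in `L`
        have hPn : (P : Subgroup L).Normal := by
          have h1 : N.subgroupOf L ≤ Subgroup.normalizer ((P : Subgroup L) : Set L) := by
            intro n hn
            rw [Subgroup.mem_normalizer_iff]
            have hc : ∀ x ∈ P, n * x * n⁻¹ = x := by
              intro x hx
              apply Subtype.ext
              have := hcent x hx n hn
              show (n : G) * (x : G) * (n : G)⁻¹ = x
              rw [← this]
              group
            intro x
            constructor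
            · intro hx
              rw [hc x hx]
              exact hx
            · intro hx
              have h2 := hc _ hx
              have h3 : n * x * n⁻¹ = x := by
                have h4 : n * (n * x * n⁻¹) * n⁻¹ = n * x * n⁻¹ := h2
                have h5 : n * x * n⁻¹ = x := by
                  have h6 := congrArg (fun z => n⁻¹ * z * n) h4
                  simpa [mul_assoc] using h6
                exact h5
              rw [h3] at hx
              exact hx
          have h2 : (P : Subgroup L) ≤ Subgroup.normalizer ((P : Subgroup L) : Set L) := Subgroup.le_normalizer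
          have h3 : Nat.card (Subgroup.normalizer ((P : Subgroup L) : Set L)) = Nat.card L := by
            apply Nat.dvd_antisymm (Subgroup.card_subgroup_dvd_card _)
            rw [hLcard]
            refine Nat.Coprime.mul_dvd_of_dvd_of_dvd ?_ ?_ ?_
            · exact (Nat.Coprime.pow_left j hcop).symm
            · have h4 : Nat.card (N.subgroupOf L) = s :=
                Nat.card_congr (Subgroup.subgroupOfEquivOfLe hNL).toEquiv
              rw [← h4]
              exact Subgroup.card_dvd_of_le h1
            · rw [← hPcard]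
              exact Subgroup.card_dvd_of_le h2
          have h4 : Subgroup.normalizer ((P : Subgroup L) : Set L) = ⊤ := Subgroup.eq_top_of_card_eq _ h3
          exact Subgroup.normalizer_eq_top_iff.mp h4
        have hPc : (P : Subgroup L).Characteristic := Sylow.characteristic_of_normal P hPn
        refine ⟨(P : Subgroup L).map L.subtype, ConjAct.normal_of_characteristic_of_normal,
          ⟨j, ?_⟩, ?_⟩
        · rw [← hPcard]
          exact Subgroup.card_map_of_injective L.subtype_injective
        · rw [Subgroup.index_map_subtype, Nat.Prime.dvd_mul hp]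
          push Not
          refine ⟨?_, by rw [hLidx]; exact hidx⟩
          have h5 := Subgroup.card_mul_index (P : Subgroup L)
          have h6 : Nat.card (P : Subgroup L) = p ^ j := hPcard
          rw [h6, hLcard, mul_comm s] at h5
          have h7 : (P : Subgroup L).index = s :=
            Nat.eq_of_mul_eq_mul_left (pow_pos hp.pos j) h5
          rw [h7]
          intro hd
          exact hlt.ne' ((Nat.prime_dvd_prime_iff_eq hp hs).mp hd)

lemma SS.sylow {G : Type} [Group G] [Finite G] (h : SS G) (p : ℕ) (hp : p.Prime)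
    (hmax : ∀ s, s.Prime → s ∣ Nat.card G → s ≤ p) :
    ∃ S : Subgroup G, S.Normal ∧ (∃ j, Nat.card S = p ^ j) ∧ ¬ p ∣ S.index := by
  obtain ⟨k, hk⟩ := h
  exact SSn_sylow k hk p hp hmax

/-- `N` is a minimal normal subgroup of `G`. -/
def MinNormal {G : Type} [Group G] (N : Subgroup G) : Prop :=
  N.Normal ∧ N ≠ ⊥ ∧ ∀ L : Subgroup G, L.Normal → L ≤ N → L = ⊥ ∨ L = N

lemma exists_minNormal_le {G : Type} [Group G] [Finite G] (A : Subgroup G) (hA : A.Normal)
    (hne : A ≠ ⊥) : ∃ N : Subgroup G, MinNormal N ∧ N ≤ A := by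
  obtain ⟨N, ⟨hN1, hN2, hN3⟩, hmin⟩ := Set.Finite.exists_minimalFor
    (fun M : Subgroup G => Nat.card M)
    {M : Subgroup G | M.Normal ∧ M ≠ ⊥ ∧ M ≤ A} (Set.toFinite _) ⟨A, hA, hne, le_rfl⟩
  refine ⟨N, ⟨hN1, hN2, fun L hL hle => ?_⟩, hN3⟩
  by_cases h0 : L = ⊥
  · exact Or.inl h0
  · right
    exact Subgroup.eq_of_le_of_card_ge hle (hmin ⟨hL, h0, hle.trans hN3⟩ (Subgroup.card_le_of_le hle))

lemma MinNormal.comm {G : Type} [Group G] [Finite G] (hsol : Group.IsSolvable G) {N : Subgroup G}
    (hN : MinNormal N) : ∀ x ∈ N, ∀ y ∈ N, x * y = y * x := by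
  obtain ⟨h1, h2, h3⟩ := hN
  have hlt : ⁅N, N⁆ < N := Group.IsSolvable.commutator_lt_of_ne_bot h2
  have hn : (⁅N, N⁆ : Subgroup G).Normal := Subgroup.commutator_normal N N
  have hb : ⁅N, N⁆ = ⊥ := by
    rcases h3 _ hn hlt.le with h | h
    · exact h
    · exact absurd h hlt.ne
  intro x hx y hy
  have h4 : ⁅x, y⁆ ∈ ⁅N, N⁆ := Subgroup.commutator_mem_commutator hx hy
  rw [hb, Subgroup.mem_bot, commutatorElement_eq_one_iff_mul_comm] at h4
  exact h4

lemma MinNormal.exponent {G : Type} [Group G] [Finite G] (hsol : Group.IsSolvable G)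
    {N : Subgroup G} (hN : MinNormal N) :
    ∃ p, p.Prime ∧ (∀ x ∈ N, x ^ p = 1) ∧ ∃ k, 0 < k ∧ Nat.card N = p ^ k := by
  have hc := hN.comm hsol
  obtain ⟨h1, h2, h3⟩ := hN
  have hne : Nat.card N ≠ 1 := fun h => h2 (Subgroup.card_eq_one.mp h)
  obtain ⟨p, hp, hpd⟩ := Nat.exists_prime_and_dvd hne
  have : Fact p.Prime := ⟨hp⟩
  let L : Subgroup G :=
    { carrier := {x | x ∈ N ∧ x ^ p = 1}
      mul_mem' := by
        rintro a b ⟨ha, ha'⟩ ⟨hb, hb'⟩
        refine ⟨N.mul_mem ha hb, ?_⟩
        have hcomm : Commute a b := hc a ha b hb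
        rw [hcomm.mul_pow, ha', hb', one_mul]
      one_mem' := ⟨N.one_mem, one_pow p⟩
      inv_mem' := by
        rintro a ⟨ha, ha'⟩
        exact ⟨N.inv_mem ha, by rw [inv_pow, ha', inv_one]⟩ }
  have hLn : L.Normal := by
    refine ⟨?_⟩
    rintro x ⟨hx, hx'⟩ g
    exact ⟨h1.conj_mem x hx g, by rw [conj_pow, hx', mul_one, mul_inv_cancel]⟩
  have hLN : L = N := by
    rcases h3 L hLn (fun x hx => hx.1) with h | h
    · exfalso
      obtain ⟨x, hx⟩ := exists_prime_orderOf_dvd_card' p hpd
      have hxL : (x : G) ∈ L := ⟨x.2, by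
        have h4 : x ^ p = 1 := by rw [← hx, pow_orderOf_eq_one]
        exact congrArg (fun z : N => (z : G)) h4⟩
      rw [h, Subgroup.mem_bot] at hxL
      have h5 : x = 1 := Subtype.ext hxL
      rw [h5, orderOf_one] at hx
      exact hp.one_lt.ne hx
    · exact h
  have hexp : ∀ x ∈ N, x ^ p = 1 := by
    intro x hx
    rw [← hLN] at hx
    exact hx.2
  refine ⟨p, hp, hexp, ?_⟩
  have hpg : IsPGroup p N := by
    intro x
    exact ⟨1, by rw [pow_one]; exact Subtype.ext (hexp x x.2)⟩
  obtain ⟨k, hk⟩ := IsPGroup.iff_card.mp hpg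
  refine ⟨k, ?_, hk⟩
  rcases Nat.eq_zero_or_pos k with h | h
  · rw [h, pow_zero] at hk
    exact absurd hk hne
  · exact h

/-- Counting fixed points: an automorphism of prime order `q ≠ p` of a group of order `p ^ j`
forces `q ∣ p ^ l - 1` for some `1 ≤ l ≤ j`. -/
lemma exists_dvd_of_aut {U : Type} [Group U] [Finite U] {p j q : ℕ} (hp : p.Prime) (hq : q.Prime)
    (hpq : p ≠ q) (hU : Nat.card U = p ^ j) (α : MulAut U) (hα : orderOf α = q) :
    ∃ l, 0 < l ∧ l ≤ j ∧ q ∣ p ^ l - 1 := by
  have hfq : Fact q.Prime := ⟨hq⟩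
  let Fx : Subgroup U :=
    { carrier := {x | α x = x}
      mul_mem' := fun {a b} ha hb => by
        show α (a * b) = a * b
        rw [map_mul, show α a = a from ha, show α b = b from hb]
      one_mem' := map_one α
      inv_mem' := fun {a} ha => by
        show α a⁻¹ = a⁻¹
        rw [map_inv, show α a = a from ha] }
  have h1 : Nat.card Fx ∣ p ^ j := by
    rw [← hU]
    exact Subgroup.card_subgroup_dvd_card Fx
  obtain ⟨i, hij, hi⟩ := (Nat.dvd_prime_pow hp).mp h1
  have hlt : i < j := by
    rcases hij.lt_or_eq with h | h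
    · exact h
    · exfalso
      have h2 : Fx = ⊤ := Subgroup.eq_top_of_card_eq _ (by rw [hi, hU, h])
      have h3 : α = 1 := by
        ext x
        have : x ∈ Fx := by rw [h2]; trivial
        exact this
      rw [h3, orderOf_one] at hα
      exact hq.one_lt.ne hα
  have hz : IsPGroup q (Subgroup.zpowers α) := by
    apply IsPGroup.of_card (n := 1)
    rw [Nat.card_zpowers, hα, pow_one]
  have h4 := hz.card_modEq_card_fixedPoints U
  have h5 : Nat.card (MulAction.fixedPoints (Subgroup.zpowers α) U) = Nat.card Fx := by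
    refine Nat.card_congr (Equiv.subtypeEquivRight fun x => ?_)
    constructor
    · intro h
      exact h ⟨α, Subgroup.mem_zpowers α⟩
    · rintro h ⟨β, hβ⟩
      obtain ⟨n, rfl⟩ := Subgroup.mem_zpowers_iff.mp hβ
      show (α ^ n) x = x
      have h6 : α ∈ MulAction.stabilizer (MulAut U) x := h
      exact Subgroup.zpow_mem _ h6 n
  rw [h5, hU, hi] at h4
  have h6 : q ∣ p ^ j - p ^ i := (Nat.modEq_iff_dvd' (Nat.pow_le_pow_right hp.pos hlt.le)).mp h4.symm
  have h7 : p ^ j - p ^ i = p ^ i * (p ^ (j - i) - 1) := by
    rw [Nat.mul_sub, mul_one, ← pow_add]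
    congr 2
    omega
  rw [h7] at h6
  refine ⟨j - i, by omega, by omega, ?_⟩
  rcases (Nat.Prime.dvd_mul hq).mp h6 with h8 | h8
  · exfalso
    exact hpq ((Nat.prime_dvd_prime_iff_eq hq hp).mp (hq.dvd_of_dvd_pow h8)).symm
  · exact h8

end Pool.Agent.Lib.MP_4f0ec0_al
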