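import Mathlib
import Pool.Agent.Lib.MP_4f0ec0_al.Tools

/-! Affine groups over finite fields. -/

namespace Pool.Agent.Lib.MP_4f0ec0_al

/-- Multiplication by units as automorphisms of the additive group of a field. -/
def unitAut (E : Type) [Field E] : Eˣ →* MulAut (Multiplicative E) where
  toFun u :=
    { toFun := fun x => Multiplicative.ofAdd ((u : E) * Multiplicative.toAdd x)
      invFun := fun x => Multiplicative.ofAdd (((u⁻¹ : Eˣ) : E) * Multiplicative.toAdd x)
      left_inv := fun x => by simp
      right_inv := fun x => by simp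
      map_mul' := fun x y => by
        rw [← ofAdd_add]
        congr 1
        rw [toAdd_mul, mul_add] }
  map_one' := by
    ext x
    simp
  map_mul' u v := by
    ext x
    simp [mul_assoc]

@[simp] lemma unitAut_apply (E : Type) [Field E] (u : Eˣ) (x : Multiplicative E) :
    unitAut E u x = Multiplicative.ofAdd ((u : E) * Multiplicative.toAdd x) := rfl

/-- The affine group `E ⋊ U`. -/
abbrev Aff (E : Type) [Field E] (U : Subgroup Eˣ) : Type :=
  (Multiplicative E) ⋊[(unitAut E).comp U.subtype] U

lemma card_Aff (E : Type) [Field E] (U : Subgroup Eˣ) :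
    Nat.card (Aff E U) = Nat.card E * Nat.card U := by
  rw [SemidirectProduct.card]
  rfl

/-- The normal subgroup of a semidirect product, with a criterion for not being
supersolvable. -/
lemma semidirect_not_SS {N K : Type} [Group N] [Group K] (φ : K →* MulAut N)
    (hN : Nontrivial N) (hp : ¬ (Nat.card N).Prime)
    (hirr : ∀ L : Subgroup N, (∀ (g : K), ∀ x ∈ L, φ g x ∈ L) → L.Normal → L = ⊥ ∨ L = ⊤) :
    ¬ SS (N ⋊[φ] K) := by
  intro h
  set A : Subgroup (N ⋊[φ] K) := (SemidirectProduct.inl : N →* N ⋊[φ] K).range with hA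
  have hAn : A.Normal := by
    rw [hA, SemidirectProduct.range_inl_eq_ker_rightHom]
    infer_instance
  have hAne : A ≠ ⊥ := by
    intro h0
    obtain ⟨x, hx⟩ := exists_ne (1 : N)
    apply hx
    have h1 : (SemidirectProduct.inl x : N ⋊[φ] K) ∈ A := ⟨x, rfl⟩
    rw [h0, Subgroup.mem_bot] at h1
    exact SemidirectProduct.inl_injective (h1.trans (map_one _).symm)
  obtain ⟨L, hL1, hL2, hL3⟩ := h.exists_prime A hAne
  have hinv : ∀ (g : K), ∀ x ∈ L.comap (SemidirectProduct.inl : N →* N ⋊[φ] K),
      φ g x ∈ L.comap (SemidirectProduct.inl : N →* N ⋊[φ] K) := by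
    intro g x hx
    rw [Subgroup.mem_comap, SemidirectProduct.inl_aut]
    have := hL1.conj_mem _ hx (SemidirectProduct.inr g)
    rwa [← map_inv] at this
  have hcomap : (L.comap (SemidirectProduct.inl : N →* N ⋊[φ] K)).Normal := hL1.comap _
  have hmap : (L.comap (SemidirectProduct.inl : N →* N ⋊[φ] K)).map SemidirectProduct.inl = L :=
    Subgroup.map_comap_eq_self hL2
  have hcard : Nat.card (L.comap (SemidirectProduct.inl : N →* N ⋊[φ] K)) = Nat.card L := by
    rw [← hmap]
    rw [hmap]
    conv_rhs => rw [← hmap]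
    exact (Subgroup.card_map_of_injective SemidirectProduct.inl_injective).symm
  rcases hirr _ hinv hcomap with h1 | h1
  · rw [h1, Subgroup.card_bot] at hcard
    rw [← hcard] at hL3
    exact Nat.not_prime_one hL3
  · rw [h1] at hcard
    apply hp
    have h2 : Nat.card (⊤ : Subgroup N) = Nat.card N := Subgroup.card_top
    rw [← h2, hcard]
    exact hL3

/-- Irreducibility of multiplication by an element of large order. -/
lemma field_irred {p k : ℕ} [hp : Fact p.Prime] {E : Type} [Field E] [Finite E]
    [Algebra (ZMod p) E] (hE : Nat.card E = p ^ k) (θ : Eˣ)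
    (hθ : ∀ l, l ∣ k → l < k → ¬ orderOf θ ∣ p ^ l - 1) (W : AddSubgroup E)
    (hW : ∀ x ∈ W, (θ : E) * x ∈ W) : W = ⊥ ∨ W = ⊤ := by
  by_cases hbot : W = ⊥
  · exact Or.inl hbot
  right
  have hfd : FiniteDimensional (ZMod p) E := Module.Finite.of_finite
  have hk : Module.finrank (ZMod p) E = k := by
    have h1 := Module.natCard_eq_pow_finrank (K := ZMod p) (V := E)
    rw [hE, Nat.card_zmod] at h1
    exact (Nat.pow_right_injective hp.out.two_le h1).symm
  -- the field generated by `θ`
  have htop : IntermediateField.adjoin (ZMod p) {(θ : E)} = ⊤ := by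
    set K := IntermediateField.adjoin (ZMod p) {(θ : E)} with hK
    by_contra hne
    have hl1 : Module.finrank (ZMod p) K ∣ k := by
      rw [← hk, ← Module.finrank_mul_finrank (ZMod p) K E]
      exact dvd_mul_right _ _
    have hk0 : 0 < k := by rw [← hk]; exact Module.finrank_pos
    have hl2 : Module.finrank (ZMod p) K < k := by
      rcases (Nat.le_of_dvd hk0 hl1).lt_or_eq with h | h
      · exact h
      · exfalso
        apply hne
        rw [← hk] at h
        exact IntermediateField.eq_of_le_of_finrank_eq le_top (by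
          rw [IntermediateField.finrank_top', h])
    apply hθ _ hl1 hl2
    have hθK : (θ : E) ∈ K := IntermediateField.mem_adjoin_simple_self (ZMod p) (θ : E)
    have hθinv : ((θ⁻¹ : Eˣ) : E) ∈ K := by
      rw [Units.val_inv_eq_inv_val]
      exact inv_mem hθK
    let θ' : Kˣ := ⟨⟨θ, hθK⟩, ⟨_, hθinv⟩, Subtype.ext (by simp), Subtype.ext (by simp)⟩
    have h1 : orderOf θ' = orderOf θ := by
      have hinj : Function.Injective (Units.map (algebraMap K E).toMonoidHom) :=
        Units.map_injective (algebraMap K E).injective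
      rw [← orderOf_injective _ hinj θ']
      congr 1
    rw [← h1]
    have h2 : Nat.card Kˣ = p ^ Module.finrank (ZMod p) K - 1 := by
      rw [Nat.card_units, Module.natCard_eq_pow_finrank (K := ZMod p) (V := K), Nat.card_zmod]
    rw [← h2]
    exact orderOf_dvd_natCard θ'
  -- the stabilizer of `W`
  let S : Subalgebra (ZMod p) E :=
    { carrier := {c | ∀ x ∈ W, c * x ∈ W}
      mul_mem' := fun {a b} ha hb x hx => by
        rw [mul_assoc]
        exact ha _ (hb x hx)
      add_mem' := fun {a b} ha hb x hx => by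
        rw [add_mul]
        exact W.add_mem (ha x hx) (hb x hx)
      algebraMap_mem' := fun r x hx => by
        obtain ⟨n, rfl⟩ : ∃ n : ℕ, (n : ZMod p) = r := ⟨r.val, ZMod.natCast_zmod_val r⟩
        rw [map_natCast, ← nsmul_eq_mul]
        exact W.nsmul_mem hx n }
  have hS : S = ⊤ := by
    rw [eq_top_iff]
    have h1 : Algebra.adjoin (ZMod p) {(θ : E)} ≤ S := by
      rw [Algebra.adjoin_le_iff, Set.singleton_subset_iff]
      exact hW
    have h2 : (IntermediateField.adjoin (ZMod p) {(θ : E)}).toSubalgebra =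
        Algebra.adjoin (ZMod p) {(θ : E)} :=
      IntermediateField.adjoin_simple_toSubalgebra_of_isAlgebraic
        (Algebra.IsAlgebraic.isAlgebraic (θ : E))
    rw [← h2, htop] at h1
    simpa using h1
  obtain ⟨w, hw, hw0⟩ : ∃ w ∈ W, w ≠ 0 := by
    by_contra hcon
    push Not at hcon
    exact hbot (by rw [eq_bot_iff]; exact fun x hx => hcon x hx)
  rw [eq_top_iff]
  intro x _
  have h3 : x * w⁻¹ ∈ S := by rw [hS]; trivial
  have h4 := h3 w hw
  rwa [mul_assoc, inv_mul_cancel₀ hw0, mul_one] at h4

lemma exists_unit_order {E : Type} [Field E] [Finite E] {e : ℕ} (he : e ∣ Nat.card E - 1) :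
    ∃ θ : Eˣ, orderOf θ = e := by
  obtain ⟨g, hg⟩ := (inferInstance : IsCyclic Eˣ).exists_generator
  have h1 : orderOf g = Nat.card E - 1 := by
    rw [orderOf_eq_card_of_forall_mem_zpowers hg, Nat.card_units]
  obtain ⟨c, hc⟩ := he
  have hpos : 0 < orderOf g := orderOf_pos g
  have hc0 : 0 < c := by
    rcases Nat.eq_zero_or_pos c with h | h
    · rw [h, mul_zero] at hc
      omega
    · exact h
  refine ⟨g ^ c, ?_⟩
  rw [orderOf_pow, h1, hc, Nat.gcd_eq_right (dvd_mul_left c e), Nat.mul_div_cancel e hc0]

/-- The groups `F_{p^k} ⋊ C_e` with irreducible action. -/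
theorem exists_aff {p k e : ℕ} (hp : p.Prime) (hk : 2 ≤ k) (he : e ∣ p ^ k - 1)
    (hl : ∀ l, l ∣ k → l < k → ¬ e ∣ p ^ l - 1) :
    ∃ (E : Type) (_ : Field E) (_ : Finite E) (θ : Eˣ), Nat.card E = p ^ k ∧ orderOf θ = e ∧
      Nat.card (Aff E (Subgroup.zpowers θ)) = p ^ k * e ∧ ¬ SS (Aff E (Subgroup.zpowers θ)) := by
  have hfp : Fact p.Prime := ⟨hp⟩
  have hcard : Nat.card (GaloisField p k) = p ^ k := GaloisField.card p k (by omega)
  obtain ⟨θ, hθ⟩ := exists_unit_order (E := GaloisField p k) (e := e) (by rw [hcard]; exact he)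
  refine ⟨GaloisField p k, inferInstance, inferInstance, θ, hcard, hθ, ?_, ?_⟩
  · rw [card_Aff, hcard, Nat.card_zpowers, hθ]
  · apply semidirect_not_SS
    · exact (inferInstance : Nontrivial (GaloisField p k))
    · have h1 : Nat.card (Multiplicative (GaloisField p k)) = p ^ k := hcard
      rw [h1]
      exact Nat.Prime.not_prime_pow hk
    · intro L hL _
      have h2 := field_irred (p := p) (k := k) (E := GaloisField p k) hcard θ
        (fun l hl1 hl2 => by rw [hθ]; exact hl l hl1 hl2) (Subgroup.toAddSubgroup' L) (by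
          intro x hx
          exact hL ⟨θ, Subgroup.mem_zpowers θ⟩ (Multiplicative.ofAdd x) hx)
      rcases h2 with h2 | h2
      · left
        ext x
        have h3 : Multiplicative.toAdd x ∈ Subgroup.toAddSubgroup' L ↔
          Multiplicative.toAdd x ∈ (⊥ : AddSubgroup (GaloisField p k)) := by rw [h2]
        exact h3
      · right
        ext x
        have h3 : Multiplicative.toAdd x ∈ Subgroup.toAddSubgroup' L ↔
          Multiplicative.toAdd x ∈ (⊤ : AddSubgroup (GaloisField p k)) := by rw [h2]
        exact h3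

end Pool.Agent.Lib.MP_4f0ec0_al
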