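import Mathlib
import Pool.Agent.Lib.MP_4f0ec0_al.Field

/-! Irreducible cyclic actions are multiplications in finite fields. -/

namespace Pool.Agent.Lib.MP_4f0ec0_al

open Polynomial in
theorem field_model_add {V : Type} [AddCommGroup V] [Finite V] [Nontrivial V] {p : ℕ}
    [hp : Fact p.Prime] (hexp : ∀ x : V, p • x = 0) (α : V ≃+ V)
    (hirr : ∀ L : AddSubgroup V, (∀ x ∈ L, α x ∈ L) → L = ⊥ ∨ L = ⊤) :
    ∃ (E : Type) (_ : Field E) (_ : Finite E) (θ : Eˣ) (ι : V ≃+ E),
      ∀ x, ι (α x) = (θ : E) * ι x := by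
  let : Module (ZMod p) V := AddCommGroup.zmodModule (n := p) hexp
  let T : V →ₗ[ZMod p] V := AddMonoidHom.toZModLinearMap p α.toAddMonoidHom
  have hT : ∀ x : V, T x = α x := fun x => rfl
  have hsimple : IsSimpleModule (ZMod p)[X] (Module.AEval' T) := by
    have hnt : Nontrivial (Module.AEval' T) := (Module.AEval'.of T).symm.toEquiv.nontrivial
    refine { (inferInstance : Nontrivial (Submodule (ZMod p)[X] (Module.AEval' T))) with
      eq_bot_or_eq_top := ?_ }
    intro W
    let L : AddSubgroup V :=
      { carrier := {x | Module.AEval'.of T x ∈ W}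
        add_mem' := fun {a b} ha hb => by
          show Module.AEval'.of T (a + b) ∈ W
          rw [map_add]
          exact W.add_mem ha hb
        zero_mem' := by
          show Module.AEval'.of T 0 ∈ W
          rw [map_zero]
          exact W.zero_mem
        neg_mem' := fun {a} ha => by
          show Module.AEval'.of T (-a) ∈ W
          rw [map_neg]
          exact W.neg_mem ha }
    have hL : ∀ x ∈ L, α x ∈ L := by
      intro x hx
      show Module.AEval'.of T (α x) ∈ W
      rw [← hT, ← Module.AEval'.X_smul_of]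
      exact W.smul_mem X hx
    rcases hirr L hL with h | h
    · left
      rw [eq_bot_iff]
      intro w hw
      obtain ⟨x, rfl⟩ := (Module.AEval'.of T).surjective w
      have h1 : x ∈ L := hw
      rw [h, AddSubgroup.mem_bot] at h1
      rw [h1, map_zero]
      exact Submodule.zero_mem _
    · right
      rw [eq_top_iff]
      intro w _
      obtain ⟨x, rfl⟩ := (Module.AEval'.of T).surjective w
      have h1 : x ∈ L := by rw [h]; trivial
      exact h1
  obtain ⟨I, hI, ⟨e⟩⟩ := isSimpleModule_iff_quot_maximal.mp hsimple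
  let : Field ((ZMod p)[X] ⧸ I) := Ideal.Quotient.field I
  let ι0 : V ≃+ (ZMod p)[X] ⧸ I :=
    (Module.AEval'.of T).toAddEquiv.trans e.toAddEquiv
  have hι0 : ∀ x : V, ι0 (α x) = Ideal.Quotient.mk I X * ι0 x := by
    intro x
    show e (Module.AEval'.of T (α x)) = Ideal.Quotient.mk I X * e (Module.AEval'.of T x)
    rw [← hT, ← Module.AEval'.X_smul_of, map_smul]
    rfl
  have hfin : Finite ((ZMod p)[X] ⧸ I) :=
    Finite.of_equiv V ι0.toEquiv
  have hθ : Ideal.Quotient.mk I X ≠ 0 := by
    intro h0
    obtain ⟨x, hx⟩ := exists_ne (0 : V)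
    apply hx
    apply α.injective
    rw [map_zero]
    have h1 := hι0 x
    rw [h0, zero_mul] at h1
    apply ι0.injective
    rw [h1, map_zero]
  exact ⟨(ZMod p)[X] ⧸ I, inferInstance, hfin, Units.mk0 _ hθ, ι0, hι0⟩

theorem field_model {N : Type} [CommGroup N] [Finite N] [Nontrivial N] {p : ℕ}
    [hp : Fact p.Prime] (hexp : ∀ x : N, x ^ p = 1) (α : MulAut N)
    (hirr : ∀ L : Subgroup N, (∀ x ∈ L, α x ∈ L) → L = ⊥ ∨ L = ⊤) :
    ∃ (E : Type) (_ : Field E) (_ : Finite E) (θ : Eˣ) (ι : N ≃* Multiplicative E),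
      ∀ x, ι (α x) = unitAut E θ (ι x) := by
  obtain ⟨E, hE, hfin, θ, ι, hι⟩ := field_model_add (V := Additive N) (p := p)
    (fun x => congrArg Additive.ofMul (hexp (Additive.toMul x))) (MulEquiv.toAdditive α) (by
      intro L hL
      rcases hirr (AddSubgroup.toSubgroup' L) (fun x hx => hL (Additive.ofMul x) hx) with h | h
      · left
        ext x
        have h3 : Additive.toMul x ∈ AddSubgroup.toSubgroup' L ↔
          Additive.toMul x ∈ (⊥ : Subgroup N) := by rw [h]
        exact h3
      · right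
        ext x
        have h3 : Additive.toMul x ∈ AddSubgroup.toSubgroup' L ↔
          Additive.toMul x ∈ (⊤ : Subgroup N) := by rw [h]
        exact h3)
  refine ⟨E, hE, hfin, θ, MulEquiv.toAdditive.symm (ι.trans (AddEquiv.additiveMultiplicative E).symm), ?_⟩
  intro x
  rw [unitAut_apply]
  exact congrArg Multiplicative.ofAdd (hι (Additive.ofMul x))

end Pool.Agent.Lib.MP_4f0ec0_al
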