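import Mathlib
import Pool.Agent.Lib.MP_4f0ec0_al.Model

/-! Recognising semidirect products. -/

namespace Pool.Agent.Lib.MP_4f0ec0_al

open Function

theorem glue {A B G : Type} [Group A] [Group B] [Group G] [Finite G] (ρ : B →* MulAut A)
    (f : A →* G) (g : B →* G) (hg : Injective g)
    (h : ∀ b a, g b * f a * (g b)⁻¹ = f (ρ b a)) (hd : ∀ a b, f a = g b → a = 1)
    (hc : Nat.card G = Nat.card A * Nat.card B) : Nonempty (A ⋊[ρ] B ≃* G) := by
  let F : A ⋊[ρ] B →* G := SemidirectProduct.lift f g (by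
    intro b
    ext a
    simp [← h b a, MulAut.conj_apply])
  have hF : ∀ x, F x = f x.left * g x.right := fun x => rfl
  have hinj : Injective F := by
    rw [injective_iff_map_eq_one]
    rintro ⟨a, b⟩ hab
    rw [hF] at hab
    have h1 : f a = g b⁻¹ := by rw [map_inv]; exact eq_inv_of_mul_eq_one_left hab
    have h2 := hd a b⁻¹ h1
    subst h2
    rw [map_one] at h1
    have h3 : b⁻¹ = 1 := hg (by rw [map_one]; exact h1.symm)
    have h4 : b = 1 := inv_eq_one.mp h3
    subst h4
    rfl
  have hfin : Finite (A ⋊[ρ] B) := Finite.of_injective F hinj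
  exact ⟨MulEquiv.ofBijective F ((Nat.bijective_iff_injective_and_card _).mpr
    ⟨hinj, by rw [SemidirectProduct.card, hc]⟩)⟩

lemma zpowers_eq_of_order {C : Type} [Group C] [IsCyclic C] [Finite C] {a b : C}
    (h : orderOf a = orderOf b) : Subgroup.zpowers a = Subgroup.zpowers b := by
  obtain ⟨g, hg⟩ := (inferInstance : IsCyclic C).exists_generator
  have key : ∀ a : C, Subgroup.zpowers a = Subgroup.zpowers (g ^ (orderOf g / orderOf a)) := by
    intro a
    have hpos : 0 < orderOf g := orderOf_pos g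
    obtain ⟨k, hk⟩ := Subgroup.mem_zpowers_iff.mp (hg a)
    obtain ⟨c, hc⟩ : orderOf a ∣ orderOf g := by
      rw [orderOf_eq_card_of_forall_mem_zpowers hg]
      exact orderOf_dvd_natCard a
    have ha : 0 < orderOf a := orderOf_pos a
    have hc0 : 0 < c := by
      rcases Nat.eq_zero_or_pos c with h | h
      · rw [h, mul_zero] at hc
        omega
      · exact h
    rw [hc, Nat.mul_div_cancel_left c ha]
    apply Subgroup.eq_of_le_of_card_ge
    · rw [Subgroup.zpowers_le]
      have h1 : (g ^ k) ^ orderOf a = 1 := by rw [hk, pow_orderOf_eq_one]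
      rw [← zpow_natCast, ← zpow_mul, ← orderOf_dvd_iff_zpow_eq_one, hc] at h1
      have h2 : (c : ℤ) ∣ k := by
        push_cast at h1
        rw [mul_comm k] at h1
        exact Int.dvd_of_mul_dvd_mul_left (by exact_mod_cast ha.ne') h1
      obtain ⟨j, hj⟩ := h2
      rw [← hk, hj, zpow_mul, zpow_natCast]
      exact Subgroup.zpow_mem _ (Subgroup.mem_zpowers _) j
    · rw [Nat.card_zpowers, Nat.card_zpowers, orderOf_pow, hc,
        Nat.gcd_eq_right (dvd_mul_left c _), Nat.mul_div_cancel _ hc0]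
  rw [key a, key b, h]

lemma finite_Aff (E : Type) [Field E] [Finite E] (U : Subgroup Eˣ) : Finite (Aff E U) := by
  have : Finite (Multiplicative E) := inferInstanceAs (Finite E)
  exact Finite.of_equiv _ SemidirectProduct.equivProd.symm

lemma exists_zequiv {C D : Type} [Group C] [Group D] (a : C) (b : D) (h : orderOf a = orderOf b) :
    ∃ e : Subgroup.zpowers a ≃* Subgroup.zpowers b, ∀ (x : Subgroup.zpowers a) (i : ℤ),
      (x : C) = a ^ i → ((e x : Subgroup.zpowers b) : D) = b ^ i := by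
  have hg : ∀ x, x ∈ Subgroup.zpowers (⟨a, Subgroup.mem_zpowers a⟩ : Subgroup.zpowers a) := by
    rintro ⟨x, hx⟩
    obtain ⟨i, rfl⟩ := Subgroup.mem_zpowers_iff.mp hx
    exact Subgroup.mem_zpowers_iff.mpr ⟨i, Subtype.ext rfl⟩
  have hg' : ∀ x, x ∈ Subgroup.zpowers (⟨b, Subgroup.mem_zpowers b⟩ : Subgroup.zpowers b) := by
    rintro ⟨x, hx⟩
    obtain ⟨i, rfl⟩ := Subgroup.mem_zpowers_iff.mp hx
    exact Subgroup.mem_zpowers_iff.mpr ⟨i, Subtype.ext rfl⟩
  have ho : orderOf (⟨a, Subgroup.mem_zpowers a⟩ : Subgroup.zpowers a) =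
      orderOf (⟨b, Subgroup.mem_zpowers b⟩ : Subgroup.zpowers b) := by
    rw [Subgroup.orderOf_mk, Subgroup.orderOf_mk, h]
  refine ⟨mulEquivOfOrderOfEq hg hg' ho, fun x i hx => ?_⟩
  have h1 : x = (⟨a, Subgroup.mem_zpowers a⟩ : Subgroup.zpowers a) ^ i := Subtype.ext hx
  rw [h1, map_zpow, mulEquivOfOrderOfEq_apply_gen]
  rfl

theorem aff_congr {E E' : Type} [Field E] [Field E'] [Finite E] [Finite E'] (θ : Eˣ) (θ' : E'ˣ)
    (hE : Nat.card E = Nat.card E') (ho : orderOf θ = orderOf θ') :
    Nonempty (Aff E (Subgroup.zpowers θ) ≃* Aff E' (Subgroup.zpowers θ')) := by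
  have : Fintype E := Fintype.ofFinite E
  have : Fintype E' := Fintype.ofFinite E'
  have σ : E ≃+* E' := FiniteField.ringEquivOfCardEq (by
    rw [← Nat.card_eq_fintype_card, ← Nat.card_eq_fintype_card, hE])
  let s : Eˣ →* E'ˣ := Units.map σ.toRingHom.toMonoidHom
  have hs : Injective s := Units.map_injective σ.injective
  have h1 : Subgroup.zpowers (s θ) = Subgroup.zpowers θ' := by
    apply zpowers_eq_of_order
    rw [orderOf_injective s hs, ho]
  let g0 : Subgroup.zpowers θ →* Subgroup.zpowers θ' :=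
    (s.comp (Subgroup.zpowers θ).subtype).codRestrict _ (by
      rintro ⟨x, hx⟩
      obtain ⟨k, rfl⟩ := Subgroup.mem_zpowers_iff.mp hx
      show s (θ ^ k) ∈ _
      rw [map_zpow, ← h1]
      exact Subgroup.zpow_mem _ (Subgroup.mem_zpowers _) k)
  have hg0 : ∀ x, ((g0 x : E'ˣ) : E') = σ ((x : Eˣ) : E) := fun x => rfl
  let f0 : Multiplicative E →* Multiplicative E' := AddMonoidHom.toMultiplicative σ.toRingHom.toAddMonoidHom
  have hf0 : ∀ x, f0 x = Multiplicative.ofAdd (σ (Multiplicative.toAdd x)) := fun x => rfl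
  have hfin := finite_Aff E' (Subgroup.zpowers θ')
  apply glue _ ((SemidirectProduct.inl).comp f0) ((SemidirectProduct.inr).comp g0)
  · intro a b hab
    have h2 := SemidirectProduct.inr_injective hab
    apply Subtype.ext
    apply hs
    exact congrArg (fun z : Subgroup.zpowers θ' => (z : E'ˣ)) h2
  · intro b a
    rw [MonoidHom.comp_apply, MonoidHom.comp_apply, MonoidHom.comp_apply, ← map_inv,
      ← SemidirectProduct.inl_aut]
    congr 1
    rw [hf0, hf0]
    show unitAut E' (g0 b : E'ˣ) _ = Multiplicative.ofAdd (σ (Multiplicative.toAdd (unitAut E (b : Eˣ) a)))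
    rw [unitAut_apply, unitAut_apply, hg0, toAdd_ofAdd, toAdd_ofAdd]
    exact congrArg Multiplicative.ofAdd (map_mul σ _ _).symm
  · intro a b hab
    have h2 := congrArg SemidirectProduct.left hab
    simp only [MonoidHom.comp_apply, SemidirectProduct.left_inl, SemidirectProduct.left_inr] at h2
    rw [hf0] at h2
    have h3 : σ (Multiplicative.toAdd a) = 0 := h2
    have h4 : Multiplicative.toAdd a = 0 := by
      apply σ.injective
      rw [h3, map_zero]
    exact h4
  · rw [card_Aff, ← hE, Nat.card_zpowers, ← ho]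
    rw [Nat.card_zpowers]
    rfl

/-- Complements. -/
lemma exists_complement {X : Type} [Group X] [Finite X] (N : Subgroup X) [N.Normal]
    (h : Nat.Coprime (Nat.card N) N.index) :
    ∃ B : Subgroup X, Nat.card B = N.index ∧ N ⊓ B = ⊥ ∧ ∃ e : B ≃* X ⧸ N,
      ∀ b : B, e b = QuotientGroup.mk' N b := by
  obtain ⟨B, hB⟩ := Subgroup.exists_right_complement'_of_coprime h
  have hcard : Nat.card B = N.index := by
    have h1 := hB.card_mul_card
    have h2 := Subgroup.card_mul_index N
    rw [← h1] at h2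
    exact (Nat.eq_of_mul_eq_mul_left Nat.card_pos h2).symm
  have hinf : N ⊓ B = ⊥ := hB.disjoint.eq_bot
  refine ⟨B, hcard, hinf, ?_⟩
  let f : B →* X ⧸ N := (QuotientGroup.mk' N).comp B.subtype
  have hf : Injective f := by
    rw [injective_iff_map_eq_one]
    intro b hb
    have h3 : (b : X) ∈ N := by
      have h4 : QuotientGroup.mk' N (b : X) = 1 := hb
      rwa [← MonoidHom.mem_ker, QuotientGroup.ker_mk'] at h4
    have h4 : (b : X) ∈ N ⊓ B := ⟨h3, b.2⟩
    rw [hinf, Subgroup.mem_bot] at h4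
    exact Subtype.ext h4
  exact ⟨MulEquiv.ofBijective f ((Nat.bijective_iff_injective_and_card _).mpr
    ⟨hf, by rw [hcard]; rfl⟩), fun b => rfl⟩

/-- A group with an irreducible self-centralizing normal subgroup and cyclic quotient of coprime
order is an affine group over a finite field. -/
theorem aff_model {X : Type} [Group X] [Finite X] (N : Subgroup X) [N.Normal] {p : ℕ}
    [Fact p.Prime] (hexp : ∀ x ∈ N, x ^ p = 1) (hcomm : ∀ x ∈ N, ∀ y ∈ N, x * y = y * x)
    (hne : N ≠ ⊥) (hcop : Nat.Coprime p N.index) (hcyc : IsCyclic (X ⧸ N))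
    (hirr : ∀ L : Subgroup X, L.Normal → L ≤ N → L = ⊥ ∨ L = N)
    (hcen : ∀ g : X, (∀ x ∈ N, g * x = x * g) → g ∈ N) :
    ∃ (E : Type) (_ : Field E) (_ : Finite E) (θ : Eˣ), Nat.card E = Nat.card N ∧
      orderOf θ = N.index ∧ Nonempty (Aff E (Subgroup.zpowers θ) ≃* X) := by
  have hpg : IsPGroup p N := fun x => ⟨1, by rw [pow_one]; exact Subtype.ext (hexp x x.2)⟩
  obtain ⟨k, hk⟩ := IsPGroup.iff_card.mp hpg
  obtain ⟨B, hBc, hNB, e, he⟩ := exists_complement N (by rw [hk]; exact Nat.Coprime.pow_left k hcop)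
  have hBcyc : IsCyclic B := isCyclic_of_injective e.toMonoidHom e.injective
  obtain ⟨b, hb⟩ := hBcyc.exists_generator
  have hbo : orderOf b = N.index := by rw [orderOf_eq_card_of_forall_mem_zpowers hb, hBc]
  let : CommGroup N := { (inferInstance : Group N) with
    mul_comm := fun x y => Subtype.ext (hcomm x x.2 y y.2) }
  have hnt : Nontrivial N := (Subgroup.nontrivial_iff_ne_bot N).mpr hne
  -- irreducibility
  have hgen : ∀ g : X, ∃ n ∈ N, ∃ i : ℤ, g = n * (b : X) ^ i := by
    intro g
    obtain ⟨b', hb'⟩ := e.surjective (QuotientGroup.mk' N g)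
    rw [he] at hb'
    obtain ⟨i, hi⟩ := Subgroup.mem_zpowers_iff.mp (hb b')
    refine ⟨g * ((b' : X))⁻¹, ?_, i, ?_⟩
    · rw [← QuotientGroup.ker_mk' N, MonoidHom.mem_ker, map_mul, map_inv, hb', mul_inv_cancel]
    · rw [← Subgroup.coe_zpow, hi, inv_mul_cancel_right]
  obtain ⟨E, hE, hEfin, θ, ι, hι⟩ := field_model (N := N) (p := p)
    (fun x => Subtype.ext (hexp x x.2)) (MulAut.conjNormal (b : X)) (by
      intro L hL
      have hLn : (L.map N.subtype).Normal := by
        refine ⟨?_⟩
        rintro _ ⟨x, hx, rfl⟩ g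
        classical
        obtain ⟨n, hn, i, rfl⟩ := hgen g
        have h1 : ∀ j : ℕ, ∀ x ∈ L, (MulAut.conjNormal ((b : X) ^ j) : MulAut N) x ∈ L := by
          intro j
          induction j with
          | zero => intro x hx; simpa using hx
          | succ j ih =>
            intro x hx
            rw [pow_succ', map_mul, MulAut.mul_apply]
            exact hL _ (ih x hx)
        have h2 : ∃ j : ℕ, (b : X) ^ i = (b : X) ^ j := by
          have h3 := (isOfFinOrder_of_finite (b : X)).mem_zpowers_iff_mem_range_orderOf.mp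
            (Subgroup.mem_zpowers_iff.mpr ⟨i, rfl⟩)
          obtain ⟨j, -, hj⟩ := Finset.mem_image.mp h3
          exact ⟨j, hj.symm⟩
        obtain ⟨j, hj⟩ := h2
        rw [hj]
        refine ⟨(MulAut.conjNormal ((b : X) ^ j) : MulAut N) x, h1 j x hx, ?_⟩
        show (((MulAut.conjNormal ((b : X) ^ j) : MulAut N) x : N) : X) = _
        rw [MulAut.conjNormal_apply]
        have h4 : (b : X) ^ j * (x : X) * ((b : X) ^ j)⁻¹ ∈ N :=
          (inferInstance : N.Normal).conj_mem x x.2 _
        have h5 := hcomm n hn _ h4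
        show _ = n * (b : X) ^ j * (x : X) * (n * (b : X) ^ j)⁻¹
        calc (b : X) ^ j * (x : X) * ((b : X) ^ j)⁻¹
            = (b : X) ^ j * (x : X) * ((b : X) ^ j)⁻¹ * n * n⁻¹ := by group
          _ = n * (b : X) ^ j * (x : X) * (n * (b : X) ^ j)⁻¹ := by rw [← h5]; group
      rcases hirr _ hLn (Subgroup.map_subtype_le L) with h | h
      · left
        rw [eq_bot_iff]
        intro x hx
        have h6 : (x : X) ∈ L.map N.subtype := ⟨x, hx, rfl⟩
        rw [h, Subgroup.mem_bot] at h6
        exact Subtype.ext h6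
      · right
        rw [eq_top_iff]
        intro x _
        have h6 : (x : X) ∈ L.map N.subtype := by rw [h]; exact x.2
        obtain ⟨y, hy, hxy⟩ := h6
        have : y = x := Subtype.ext hxy
        rw [← this]
        exact hy)
  have hιsymm : ∀ y, ((ι.symm (unitAut E θ y) : N) : X) = (b : X) * (ι.symm y : N) * (b : X)⁻¹ := by
    intro y
    rw [← MulAut.conjNormal_apply]
    congr 1
    apply ι.injective
    rw [hι, ι.apply_symm_apply, ι.apply_symm_apply]
  have hpow : ∀ (j : ℕ) (y : Multiplicative E), ((ι.symm (unitAut E (θ ^ j) y) : N) : X) =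
      (b : X) ^ j * (ι.symm y : N) * ((b : X) ^ j)⁻¹ := by
    intro j
    induction j with
    | zero => intro y; simp
    | succ j ih =>
      intro y
      rw [pow_succ', map_mul, MulAut.mul_apply, hιsymm, ih, pow_succ']
      group
  have hθo : orderOf θ = orderOf (b : X) := by
    apply Nat.dvd_antisymm
    · rw [orderOf_dvd_iff_pow_eq_one]
      have h1 := hpow (orderOf (b : X)) (Multiplicative.ofAdd 1)
      rw [pow_orderOf_eq_one, one_mul, inv_one, mul_one] at h1
      have h2 := ι.symm.injective (Subtype.ext h1)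
      rw [unitAut_apply, toAdd_ofAdd, mul_one] at h2
      exact Units.ext (Multiplicative.ofAdd.injective h2)
    · rw [orderOf_dvd_iff_pow_eq_one]
      have h1 : (b : X) ^ orderOf θ ∈ N := by
        apply hcen
        intro x hx
        have h2 := hpow (orderOf θ) (ι ⟨x, hx⟩)
        rw [pow_orderOf_eq_one, map_one, MulAut.one_apply, ι.symm_apply_apply] at h2
        have h3 : x = (b : X) ^ orderOf θ * x * ((b : X) ^ orderOf θ)⁻¹ := h2
        conv_rhs => rw [h3]
        group
      have h2 : (b : X) ^ orderOf θ ∈ N ⊓ B := ⟨h1, B.pow_mem b.2 _⟩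
      rwa [hNB, Subgroup.mem_bot] at h2
  refine ⟨E, hE, hEfin, θ, (Nat.card_congr ι.toEquiv).symm, ?_, ?_⟩
  · rw [hθo, Subgroup.orderOf_coe, hbo]
  · obtain ⟨g0, hg0⟩ := exists_zequiv θ (b : X) hθo
    have hθfin : IsOfFinOrder θ := isOfFinOrder_of_finite θ
    apply glue _ (N.subtype.comp ι.symm.toMonoidHom)
      ((Subgroup.zpowers (b : X)).subtype.comp g0.toMonoidHom)
    · exact (Subgroup.subtype_injective _).comp g0.injective
    · rintro ⟨z, hz⟩ y
      classical
      obtain ⟨j, -, hj⟩ := Finset.mem_image.mp (hθfin.mem_zpowers_iff_mem_range_orderOf.mp hz)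
      have h1 : ((g0 ⟨z, hz⟩ : Subgroup.zpowers (b : X)) : X) = (b : X) ^ j := by
        rw [hg0 ⟨z, hz⟩ j (by rw [zpow_natCast]; exact hj.symm), zpow_natCast]
      show ((g0 ⟨z, hz⟩ : Subgroup.zpowers (b : X)) : X) * (ι.symm y : N) *
        ((g0 ⟨z, hz⟩ : Subgroup.zpowers (b : X)) : X)⁻¹ = ((ι.symm (unitAut E z y) : N) : X)
      rw [h1, ← hj, hpow]
    · intro y z hyz
      have h1 : ((ι.symm y : N) : X) = ((g0 z : Subgroup.zpowers (b : X)) : X) := hyz
      have h2 : ((ι.symm y : N) : X) ∈ N ⊓ B := by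
        refine ⟨(ι.symm y).2, ?_⟩
        rw [h1]
        have h3 : Subgroup.zpowers (b : X) ≤ B := by
          rw [Subgroup.zpowers_le]
          exact b.2
        exact h3 (g0 z).2
      rw [hNB, Subgroup.mem_bot] at h2
      have h3 : ι.symm y = 1 := Subtype.ext h2
      have h4 := congrArg ι h3
      rwa [ι.apply_symm_apply, map_one] at h4
    · rw [Nat.card_zpowers, hθo, Subgroup.orderOf_coe, hbo, ← Nat.card_congr ι.toEquiv]
      exact (Subgroup.card_mul_index N).symm

end Pool.Agent.Lib.MP_4f0ec0_al
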