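import Mathlib
import Pool.Agent.Lib.MP_4f0ec0_al.Glue

/-! Irreducible groups of automorphisms. -/

namespace Pool.Agent.Lib.MP_4f0ec0_al

open Function

lemma eig_claim {p : ℕ} [hp : Fact p.Prime] {V : Type} [AddCommGroup V] [Module (ZMod p) V]
    (T : Module.End (ZMod p) V) (hT : T ^ (p - 1) = 1) (W : Submodule (ZMod p) V)
    (hW : ∀ x ∈ W, T x ∈ W) {w : V} (hw : w ∈ W) (hw0 : w ≠ 0) :
    ∃ c : (ZMod p)ˣ, ∃ x ∈ W, x ≠ 0 ∧ T x = (c : ZMod p) • x := by
  classical
  have hpow : ∀ i : ℕ, (T ^ i) w ∈ W := by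
    intro i
    induction i with
    | zero => simpa using hw
    | succ i ih =>
      rw [pow_succ', Module.End.mul_apply]
      exact hW _ ih
  let e : (ZMod p)ˣ → V := fun c => ∑ i ∈ Finset.range (p - 1), ((c : ZMod p) ^ i) • (T ^ i) w
  have heW : ∀ c, e c ∈ W := fun c => W.sum_mem fun i _ => W.smul_mem _ (hpow i)
  have hp2 := hp.out.two_le
  have heT : ∀ c : (ZMod p)ˣ, T (e c) = ((c⁻¹ : (ZMod p)ˣ) : ZMod p) • e c := by
    intro c
    have h1 : (c : ZMod p) • T (e c) = e c := by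
      show (c : ZMod p) • T (∑ i ∈ Finset.range (p - 1), ((c : ZMod p) ^ i) • (T ^ i) w) =
        ∑ i ∈ Finset.range (p - 1), ((c : ZMod p) ^ i) • (T ^ i) w
      rw [map_sum, Finset.smul_sum]
      have h2 : ∀ i ∈ Finset.range (p - 1), (c : ZMod p) • T (((c : ZMod p) ^ i) • (T ^ i) w) =
          ((c : ZMod p) ^ (i + 1)) • (T ^ (i + 1)) w := by
        intro i _
        rw [map_smul, smul_smul, pow_succ' T, Module.End.mul_apply, ← pow_succ']
      rw [Finset.sum_congr rfl h2]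
      have h3 := Finset.sum_range_succ' (fun i => ((c : ZMod p) ^ i) • (T ^ i) w) (p - 1)
      have h4 := Finset.sum_range_succ (fun i => ((c : ZMod p) ^ i) • (T ^ i) w) (p - 1)
      rw [h4, hT, ZMod.pow_card_sub_one_eq_one (Units.ne_zero c)] at h3
      simp only [pow_zero] at h3
      exact (add_right_cancel h3).symm
    rw [← h1, smul_smul, h1, Units.inv_mul, one_smul]
  by_contra hcon
  push Not at hcon
  have he0 : ∀ c, e c = 0 := by
    intro c
    by_contra hne
    exact hcon c⁻¹ (e c) (heW c) hne (heT c)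
  have hsum : ∑ c : (ZMod p)ˣ, e c = -w := by
    show ∑ c : (ZMod p)ˣ, ∑ i ∈ Finset.range (p - 1), ((c : ZMod p) ^ i) • (T ^ i) w = -w
    rw [Finset.sum_comm]
    have h2 : ∀ i ∈ Finset.range (p - 1), ∑ c : (ZMod p)ˣ, ((c : ZMod p) ^ i) • (T ^ i) w =
        if i = 0 then -w else 0 := by
      intro i hi
      rw [← Finset.sum_smul, FiniteField.sum_pow_units, ZMod.card]
      rw [Finset.mem_range] at hi
      by_cases h0 : i = 0
      · simp [h0]
      · rw [if_neg, if_neg h0, zero_smul]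
        intro hd
        exact absurd (Nat.le_of_dvd (Nat.pos_of_ne_zero h0) hd) (by omega)
    rw [Finset.sum_congr rfl h2, Finset.sum_ite_eq' (Finset.range (p - 1)) 0 (fun _ => -w),
      if_pos (Finset.mem_range.mpr (by omega))]
  rw [Finset.sum_congr rfl (fun c _ => he0 c), Finset.sum_const_zero] at hsum
  exact hw0 (neg_eq_zero.mp hsum.symm)

section

variable {N : Type} [CommGroup N] [Finite N] {p : ℕ} [hp : Fact p.Prime]

omit [Finite N] in
/-- The endomorphism of the `ZMod p`-module `Additive N` given by an automorphism. -/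
lemma exists_lin (hexp : ∀ x : N, x ^ p = 1) :
    ∃ (_ : Module (ZMod p) (Additive N)),
      (∀ (c : ZMod p) (x : Additive N), c • x = Additive.ofMul ((Additive.toMul x) ^ c.val)) ∧
      ∃ F : MulAut N →* Module.End (ZMod p) (Additive N), ∀ α x,
        F α x = Additive.ofMul (α (Additive.toMul x)) := by
  let M : Module (ZMod p) (Additive N) := AddCommGroup.zmodModule (n := p)
    (fun x => congrArg Additive.ofMul (hexp (Additive.toMul x)))
  refine ⟨M, ?_, ?_⟩
  · intro c x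
    have h1 : ((c.val : ℕ) : ZMod p) • x = c.val • x := Nat.cast_smul_eq_nsmul (ZMod p) c.val x
    rw [ZMod.natCast_zmod_val] at h1
    rw [h1]
    rfl
  · refine ⟨{ toFun := fun α => AddMonoidHom.toZModLinearMap p (MulEquiv.toAdditive α).toAddMonoidHom
              map_one' := ?_
              map_mul' := ?_ }, fun α x => rfl⟩
    · ext x
      rfl
    · intro α β
      ext x
      rfl

/-- Irreducibility of a group of automorphisms. -/
def Irr (K : Subgroup (MulAut N)) : Prop :=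
  ∀ L : Subgroup N, (∀ α ∈ K, ∀ x ∈ L, α x ∈ L) → L = ⊥ ∨ L = ⊤

lemma exists_eigen (hexp : ∀ x : N, x ^ p = 1) (K : Subgroup (MulAut N))
    (hcomm : ∀ α ∈ K, ∀ β ∈ K, α * β = β * α) (hpow : ∀ α ∈ K, α ^ (p - 1) = 1) (M : Subgroup N)
    (hM : M ≠ ⊥) (hinv : ∀ α ∈ K, ∀ x ∈ M, α x ∈ M) :
    ∃ x ∈ M, x ≠ 1 ∧ ∀ α ∈ K, ∃ j : ℕ, α x = x ^ j := by
  obtain ⟨W, ⟨hW1, hW2, hW3⟩, hmin⟩ := Set.Finite.exists_minimalFor
    (fun W : Subgroup N => Nat.card W)
    {W : Subgroup N | W ≠ ⊥ ∧ W ≤ M ∧ ∀ α ∈ K, ∀ x ∈ W, α x ∈ W} (Set.toFinite _)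
    ⟨M, hM, le_rfl, hinv⟩
  obtain ⟨w, hw, hw1⟩ : ∃ w ∈ W, w ≠ 1 := by
    by_contra hcon
    push Not at hcon
    exact hW1 ((Subgroup.eq_bot_iff_forall W).mpr hcon)
  refine ⟨w, hW2 hw, hw1, fun α hα => ?_⟩
  obtain ⟨Mod, hsmul, F, hF⟩ := exists_lin (p := p) hexp
  let W' : Submodule (ZMod p) (Additive N) :=
    { carrier := {x | Additive.toMul x ∈ W}
      add_mem' := fun {a b} ha hb => W.mul_mem ha hb
      zero_mem' := W.one_mem
      smul_mem' := fun c x hx => by
        show Additive.toMul (c • x) ∈ W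
        rw [hsmul]
        exact W.pow_mem hx _ }
  obtain ⟨c, x, hx, hx0, hx1⟩ := eig_claim (F α) (by rw [← map_pow, hpow α hα, map_one]) W'
    (fun x hx => by rw [hF]; exact hW3 α hα _ hx) (w := Additive.ofMul w) hw hw1
  rw [hF, hsmul] at hx1
  have hx2 : α (Additive.toMul x) = (Additive.toMul x) ^ (c : ZMod p).val := hx1
  let L : Subgroup N :=
    { carrier := {y | y ∈ W ∧ α y = y ^ (c : ZMod p).val}
      mul_mem' := by
        rintro a b ⟨ha, ha'⟩ ⟨hb, hb'⟩
        exact ⟨W.mul_mem ha hb, by rw [map_mul, ha', hb', mul_pow]⟩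
      one_mem' := ⟨W.one_mem, by rw [map_one, one_pow]⟩
      inv_mem' := by
        rintro a ⟨ha, ha'⟩
        exact ⟨W.inv_mem ha, by rw [map_inv, ha', inv_pow]⟩ }
  have hL : L = W := by
    have hLW : L ≤ W := fun y hy => hy.1
    apply Subgroup.eq_of_le_of_card_ge hLW
    apply hmin ⟨?_, hLW.trans hW2, ?_⟩ (Subgroup.card_le_of_le hLW)
    · intro h0
      have h1 : Additive.toMul x ∈ L := ⟨hx, hx2⟩
      rw [h0, Subgroup.mem_bot] at h1
      exact hx0 h1
    · rintro β hβ y ⟨hy, hy'⟩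
      refine ⟨hW3 β hβ y hy, ?_⟩
      rw [← MulAut.mul_apply, hcomm α hα β hβ, MulAut.mul_apply, hy', map_pow]
  rw [← hL] at hw
  exact ⟨_, hw.2⟩

lemma abelian_exp (hexp : ∀ x : N, x ^ p = 1) [Nontrivial N] (K : Subgroup (MulAut N)) (hK : Irr K)
    (hcomm : ∀ α ∈ K, ∀ β ∈ K, α * β = β * α) (hpow : ∀ α ∈ K, α ^ (p - 1) = 1) :
    Nat.card N = p := by
  obtain ⟨x, -, hx, hj⟩ := exists_eigen hexp K hcomm hpow ⊤ top_ne_bot (fun _ _ _ _ => trivial)
  have h1 : ∀ α ∈ K, ∀ y ∈ Subgroup.zpowers x, α y ∈ Subgroup.zpowers x := by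
    intro α hα y hy
    obtain ⟨i, rfl⟩ := Subgroup.mem_zpowers_iff.mp hy
    obtain ⟨j, hj⟩ := hj α hα
    rw [map_zpow, hj]
    exact Subgroup.zpow_mem _ (Subgroup.pow_mem _ (Subgroup.mem_zpowers x) j) i
  rcases hK _ h1 with h | h
  · exact absurd (Subgroup.zpowers_eq_bot.mp h) hx
  · rw [← Subgroup.card_top (G := N), ← h, Nat.card_zpowers]
    exact orderOf_eq_prime (hexp x) hx

lemma fix_lemma (hexp : ∀ x : N, x ^ p = 1) [Nontrivial N] (K : Subgroup (MulAut N)) (hK : Irr K)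
    (S : Subgroup (MulAut N)) (hnorm : ∀ α ∈ K, ∀ σ ∈ S, α⁻¹ * σ * α ∈ S) (hS : IsPGroup p S) :
    S = ⊥ := by
  have hNp : IsPGroup p N := fun x => ⟨1, by rw [pow_one]; exact hexp x⟩
  let L : Subgroup N :=
    { carrier := {x | ∀ σ ∈ S, σ x = x}
      mul_mem' := fun {a b} ha hb σ hσ => by rw [map_mul, ha σ hσ, hb σ hσ]
      one_mem' := fun σ _ => map_one σ
      inv_mem' := fun {a} ha σ hσ => by rw [map_inv, ha σ hσ] }
  have h1 := hS.card_modEq_card_fixedPoints N
  have h2 : Nat.card (MulAction.fixedPoints S N) = Nat.card L := by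
    refine Nat.card_congr (Equiv.subtypeEquivRight fun x => ?_)
    constructor
    · intro h σ hσ
      exact h ⟨σ, hσ⟩
    · rintro h ⟨σ, hσ⟩
      exact h σ hσ
  have h3 : p ∣ Nat.card N := by
    obtain ⟨k, hk⟩ := IsPGroup.iff_card.mp hNp
    rw [hk]
    apply dvd_pow_self
    rintro rfl
    rw [pow_zero] at hk
    have := Finite.one_lt_card (α := N)
    omega
  have h4 : p ∣ Nat.card L := by
    rw [← h2]
    exact (Nat.ModEq.dvd_iff h1 dvd_rfl).mp h3
  have h5 : L = ⊤ := by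
    rcases hK L (by
      intro α hα x hx σ hσ
      have h6 := hx _ (hnorm α hα σ hσ)
      rw [MulAut.mul_apply, MulAut.mul_apply] at h6
      calc σ (α x) = α (α⁻¹ (σ (α x))) := by simp
        _ = α x := by rw [h6]) with h | h
    · exfalso
      rw [h, Subgroup.card_bot] at h4
      exact hp.out.one_lt.ne' (Nat.dvd_one.mp h4)
    · exact h
  rw [Subgroup.eq_bot_iff_forall]
  intro σ hσ
  ext x
  have h6 : x ∈ L := by rw [h5]; trivial
  exact h6 σ hσ

end

/-- Counting orbits: an automorphism of order `q ^ (b + 1)`. -/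
lemma exists_dvd_of_aut_pow {U : Type} [Group U] [Finite U] {p j q b : ℕ} (hp : p.Prime)
    (hq : q.Prime) (hpq : p ≠ q) (hU : Nat.card U = p ^ j) (α : MulAut U)
    (hα : orderOf α = q ^ (b + 1)) :
    ∃ l, 0 < l ∧ l ≤ j ∧ q ^ (b + 1) ∣ p ^ l - 1 ∧
      (({x | (α ^ q ^ b) x = x} : Set U) ⊆ {1} → l = j) := by
  classical
  set β := α ^ q ^ b with hβ
  let Fx : Subgroup U :=
    { carrier := {x | β x = x}
      mul_mem' := fun {a b} ha hb => by
        show β (a * b) = a * b
        rw [map_mul, show β a = a from ha, show β b = b from hb]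
      one_mem' := map_one β
      inv_mem' := fun {a} ha => by
        show β a⁻¹ = a⁻¹
        rw [map_inv, show β a = a from ha] }
  have h1 : Nat.card Fx ∣ p ^ j := by
    rw [← hU]
    exact Subgroup.card_subgroup_dvd_card Fx
  obtain ⟨i, hij, hi⟩ := (Nat.dvd_prime_pow hp).mp h1
  have hβ1 : β ≠ 1 := by
    intro h
    rw [hβ, ← orderOf_dvd_iff_pow_eq_one, hα] at h
    have := Nat.le_of_dvd (pow_pos hq.pos b) h
    have h2 : q ^ b < q ^ (b + 1) := Nat.pow_lt_pow_right hq.one_lt (Nat.lt_succ_self b)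
    omega
  have hlt : i < j := by
    rcases hij.lt_or_eq with h | h
    · exact h
    · exfalso
      have h2 : Fx = ⊤ := Subgroup.eq_top_of_card_eq _ (by rw [hi, hU, h])
      apply hβ1
      ext x
      have : x ∈ Fx := by rw [h2]; trivial
      exact this
  -- the action of `⟨α⟩` on the complement of the fixed points
  have hcomm : ∀ γ ∈ Subgroup.zpowers α, β * γ = γ * β := by
    intro γ hγ
    obtain ⟨k, rfl⟩ := Subgroup.mem_zpowers_iff.mp hγ
    rw [hβ]
    exact ((Commute.refl α).pow_left _).zpow_right _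
  let Y : SubMulAction (Subgroup.zpowers α) U :=
    { carrier := {x | β x ≠ x}
      smul_mem' := by
        rintro ⟨γ, hγ⟩ x hx h
        apply hx
        have h2 : β (γ x) = γ x := h
        rw [← MulAut.mul_apply, hcomm γ hγ, MulAut.mul_apply] at h2
        exact γ.injective h2 }
  have hfq : Fact q.Prime := ⟨hq⟩
  have hfree : ∀ y : Y, MulAction.stabilizer (Subgroup.zpowers α) y = ⊥ := by
    rintro ⟨x, hx⟩
    rw [eq_bot_iff]
    rintro ⟨γ, hγ⟩ hst
    rw [Subgroup.mem_bot]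
    obtain ⟨k, rfl⟩ := Subgroup.mem_zpowers_iff.mp hγ
    have h2 : (α ^ k : MulAut U) • x = x := congrArg (fun z : Y => (z : U)) hst
    rw [MulAction.zpow_smul_eq_iff_minimalPeriod_dvd] at h2
    have h3 : Function.minimalPeriod (fun z => α • z) x = q ^ (b + 1) := by
      apply Function.minimalPeriod_eq_prime_pow
      · intro h4
        apply hx
        have h5 : (fun z => α • z)^[q ^ b] x = x := h4
        rw [smul_iterate] at h5
        exact h5
      · show (fun z => α • z)^[q ^ (b + 1)] x = x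
        rw [smul_iterate, ← hα, pow_orderOf_eq_one]
        rfl
    rw [h3, ← hα] at h2
    exact Subtype.ext (orderOf_dvd_iff_zpow_eq_one.mp h2)
  have h2 : Nat.card Y = Nat.card (Quotient (MulAction.orbitRel (Subgroup.zpowers α) Y)) *
      q ^ (b + 1) := by
    rw [Nat.card_congr (MulAction.selfEquivOrbitsQuotientProd hfree), Nat.card_prod,
      Nat.card_zpowers, hα]
  have h3 : Nat.card Fx + Nat.card Y = p ^ j := by
    rw [← hU, ← Nat.card_sum]
    exact Nat.card_congr (Equiv.sumCompl (fun x : U => β x = x))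
  have h4 : q ^ (b + 1) ∣ p ^ j - p ^ i := ⟨_, by
    rw [mul_comm, ← h2]
    rw [hi] at h3
    omega⟩
  have h7 : p ^ j - p ^ i = p ^ i * (p ^ (j - i) - 1) := by
    rw [Nat.mul_sub, mul_one, ← pow_add]
    congr 2
    omega
  rw [h7] at h4
  refine ⟨j - i, by omega, by omega, ?_, ?_⟩
  · apply Nat.Coprime.dvd_of_dvd_mul_left _ h4
    exact Nat.Coprime.pow _ _ ((Nat.coprime_primes hq hp).mpr hpq.symm)
  · intro hsub
    have h5 : Fx = ⊥ := by
      rw [Subgroup.eq_bot_iff_forall]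
      intro x hx
      exact hsub hx
    rw [h5, Subgroup.card_bot] at hi
    have h6 : i = 0 := by
      rcases Nat.eq_zero_or_pos i with h | h
      · exact h
      · have := Nat.one_lt_pow h.ne' hp.one_lt
        omega
    omega

end Pool.Agent.Lib.MP_4f0ec0_al
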