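import Mathlib
import Pool.Agent.Lib.MP_4f0ec0_al.Irr

/-! Groups without normal subgroups of prime order. -/

namespace Pool.Agent.Lib.MP_4f0ec0_al

open Function

/-- `X` has no normal subgroup of prime order. -/
def NoPrime (X : Type) [Group X] : Prop := ∀ R : Subgroup X, R.Normal → ¬ (Nat.card R).Prime

lemma comm_of_quot {L : Type} [Group L] (A : Subgroup L) [A.Normal] (hA : ∀ x ∈ A, ∀ y, x * y = y * x)
    (hc : IsCyclic (L ⧸ A)) : ∀ x y : L, x * y = y * x := by
  have := MonoidHom.isMulCommutative_of_isCyclic_of_ker_le_center (QuotientGroup.mk' A) (by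
    rw [QuotientGroup.ker_mk']
    intro x hx
    rw [Subgroup.mem_center_iff]
    intro g
    exact (hA x hx g).symm)
  exact fun a b => this.is_comm.comm a b

lemma self_cent {X : Type} [Group X] [Finite X] (hno : NoPrime X) (N : Subgroup X) [hNn : N.Normal]
    {p : ℕ} (hp : p.Prime) (hexp : ∀ x ∈ N, x ^ p = 1) (hcomm : ∀ x ∈ N, ∀ y ∈ N, x * y = y * x)
    (hss : SS (X ⧸ N)) (hg : ∃ g ∉ N, ∀ x ∈ N, g * x = x * g) :
    ∃ L : Subgroup X, L.Normal ∧ N ≤ L ∧ Nat.card L = p * Nat.card N ∧
      (∀ x ∈ L, ∀ y ∈ L, x * y = y * x) ∧ ∀ x ∈ L, x ^ p = 1 := by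
  set C := Subgroup.centralizer (N : Set X) with hC
  have hCn : C.Normal := Subgroup.normal_centralizer
  have hmC : ∀ x, x ∈ C ↔ ∀ y ∈ N, y * x = x * y := fun x => Subgroup.mem_centralizer_iff
  have hNC : N ≤ C := fun x hx => (hmC x).mpr fun y hy => hcomm y hy x hx
  set π := QuotientGroup.mk' N with hπ
  have hπs : Surjective π := QuotientGroup.mk'_surjective N
  have hker : ∀ x, π x = 1 ↔ x ∈ N := fun x => by
    rw [← MonoidHom.mem_ker, hπ, QuotientGroup.ker_mk']
  have hCm : (C.map π).Normal := hCn.map π hπs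
  obtain ⟨g, hgN, hgC⟩ := hg
  have hne : C.map π ≠ ⊥ := by
    intro h0
    apply hgN
    rw [← hker, ← Subgroup.mem_bot, ← h0]
    exact ⟨g, (hmC g).mpr fun y hy => (hgC y hy).symm, rfl⟩
  obtain ⟨L', hL'n, hL'C, hs⟩ := hss.exists_prime _ hne
  set s := Nat.card L' with hsdef
  set L := L'.comap π with hL
  have hLn : L.Normal := hL'n.comap π
  have hNL : N ≤ L := by
    intro x hx
    show π x ∈ L'
    rw [(hker x).mpr hx]
    exact L'.one_mem
  have hLC : L ≤ C := by
    intro x hx
    obtain ⟨c, hc, hcx⟩ := hL'C hx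
    have h1 : c⁻¹ * x ∈ N := by rw [← hker, map_mul, map_inv, hcx, inv_mul_cancel]
    have h2 := C.mul_mem hc (hNC h1)
    rwa [mul_inv_cancel_left] at h2
  have hLcard : Nat.card L = s * Nat.card N := by
    have h1 : L.index = L'.index := Subgroup.index_comap_of_surjective _ hπs
    have h2 := Subgroup.card_mul_index L
    have h3 := Subgroup.card_mul_index L'
    have h4 := Subgroup.card_eq_card_quotient_mul_card_subgroup N
    rw [← h3, ← h2, ← h1] at h4
    have h5 : 0 < L.index := Nat.pos_of_ne_zero Subgroup.FiniteIndex.index_ne_zero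
    apply Nat.eq_of_mul_eq_mul_right h5
    rw [h4]
    ring
  -- `L` is abelian
  have hLcomm : ∀ x ∈ L, ∀ y ∈ L, x * y = y * x := by
    have hq : IsCyclic (L ⧸ (N.subgroupOf L)) := by
      have h1 : Nat.card (L ⧸ (N.subgroupOf L)) = s := by
        have h2 := Subgroup.card_eq_card_quotient_mul_card_subgroup (N.subgroupOf L)
        rw [Nat.card_congr (Subgroup.subgroupOfEquivOfLe hNL).toEquiv, hLcard] at h2
        exact (Nat.eq_of_mul_eq_mul_right Nat.card_pos h2).symm
      have : Fact s.Prime := ⟨hs⟩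
      exact isCyclic_of_prime_card h1
    have h2 := comm_of_quot (N.subgroupOf L) (by
      intro x hx y
      exact Subtype.ext (((hmC y).mp (hLC y.2)) x hx)) hq
    intro x hx y hy
    exact congrArg (fun z : L => (z : X)) (h2 ⟨x, hx⟩ ⟨y, hy⟩)
  by_cases hsp : s = p
  · refine ⟨L, hLn, hNL, by rw [hLcard, hsp], hLcomm, ?_⟩
    -- the image of the power map
    let f : L →* X :=
      { toFun := fun x => (x : X) ^ p
        map_one' := by simp
        map_mul' := fun x y => by
          show ((x : X) * y) ^ p = _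
          exact (show Commute (x : X) y from hLcomm x x.2 y y.2).mul_pow p }
    have hfn : f.range.Normal := by
      refine ⟨?_⟩
      rintro _ ⟨x, rfl⟩ g
      refine ⟨⟨g * x * g⁻¹, hLn.conj_mem x x.2 g⟩, ?_⟩
      show (g * x * g⁻¹) ^ p = g * (x : X) ^ p * g⁻¹
      rw [conj_pow]
    have h1 : Nat.card f.range ∣ p := by
      have h2 : N.subgroupOf L ≤ f.ker := by
        intro x hx
        exact hexp x hx
      have h3 : Nat.card f.ker * Nat.card f.range = Nat.card L := by
        rw [← Subgroup.card_mul_index f.ker, Subgroup.index_ker]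
      have h4 : Nat.card N ∣ Nat.card f.ker := by
        rw [← Nat.card_congr (Subgroup.subgroupOfEquivOfLe hNL).toEquiv]
        exact Subgroup.card_dvd_of_le h2
      obtain ⟨c, hc⟩ := h4
      rw [hc, hLcard, hsp] at h3
      have h5 : 0 < Nat.card N := Nat.card_pos
      have h6 : c * Nat.card f.range = p := by
        apply Nat.eq_of_mul_eq_mul_left h5
        rw [← mul_assoc, h3]
        ring
      exact ⟨c, by rw [mul_comm, h6]⟩
    rcases (Nat.dvd_prime hp).mp h1 with h2 | h2
    · intro x hx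
      have h3 : f ⟨x, hx⟩ ∈ f.range := ⟨_, rfl⟩
      rw [Subgroup.card_eq_one.mp h2, Subgroup.mem_bot] at h3
      exact h3
    · exact absurd (by rw [h2]; exact hp) (hno _ hfn)
  · exfalso
    -- the elements of order `s`
    let R : Subgroup X :=
      { carrier := {x | x ∈ L ∧ x ^ s = 1}
        mul_mem' := by
          rintro a b ⟨ha, ha'⟩ ⟨hb, hb'⟩
          refine ⟨L.mul_mem ha hb, ?_⟩
          rw [(show Commute a b from hLcomm a ha b hb).mul_pow, ha', hb', one_mul]
        one_mem' := ⟨L.one_mem, one_pow _⟩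
        inv_mem' := by
          rintro a ⟨ha, ha'⟩
          exact ⟨L.inv_mem ha, by rw [inv_pow, ha', inv_one]⟩ }
    have hRn : R.Normal := by
      refine ⟨?_⟩
      rintro x ⟨hx, hx'⟩ g
      exact ⟨hLn.conj_mem x hx g, by rw [conj_pow, hx', mul_one, mul_inv_cancel]⟩
    apply hno R hRn
    have hRL : Nat.card R ∣ s := by
      let g : R →* L' := (π.comp R.subtype).codRestrict L' (fun x => x.2.1)
      have hg1 : Injective g := by
        rw [injective_iff_map_eq_one]
        intro x hx
        have h1 : π (x : X) = 1 := congrArg (fun z : L' => (z : X ⧸ N)) hx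
        rw [hker] at h1
        have h2 := hexp _ h1
        have h3 := x.2.2
        have h4 : orderOf (x : X) ∣ Nat.gcd p s :=
          Nat.dvd_gcd (orderOf_dvd_of_pow_eq_one h2) (orderOf_dvd_of_pow_eq_one h3)
        rw [(Nat.coprime_primes hp hs).mpr (Ne.symm hsp), Nat.dvd_one, orderOf_eq_one_iff] at h4
        exact Subtype.ext h4
      exact Subgroup.card_dvd_of_injective g hg1
    rcases (Nat.dvd_prime hs).mp hRL with h2 | h2
    · exfalso
      have : Fact s.Prime := ⟨hs⟩
      obtain ⟨x, hx⟩ := exists_prime_orderOf_dvd_card' (G := L) s (by rw [hLcard]; exact dvd_mul_right _ _)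
      have h3 : (x : X) ∈ R := ⟨x.2, by
        rw [← Subgroup.coe_pow, ← hx, pow_orderOf_eq_one]
        rfl⟩
      rw [Subgroup.card_eq_one.mp h2, Subgroup.mem_bot] at h3
      have h4 : x = 1 := Subtype.ext h3
      rw [h4, orderOf_one] at hx
      exact hs.one_lt.ne hx
    · rw [h2]
      exact hs

lemma zpowers_normal_of_central {X : Type} [Group X] {v : X} (hv : ∀ g, g * v = v * g) :
    (Subgroup.zpowers v).Normal := by
  refine ⟨?_⟩
  intro x hx g
  obtain ⟨i, rfl⟩ := Subgroup.mem_zpowers_iff.mp hx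
  have h1 : g * v ^ i = v ^ i * g := (show Commute g v from hv g).zpow_right i
  rw [h1, mul_inv_cancel_right]
  exact hx

lemma norm_trick {X : Type} [Group X] [Finite X] (hno : NoPrime X) (N L : Subgroup X)
    [hLn : L.Normal] {p : ℕ} (hp : p.Prime) (hexp : ∀ x ∈ L, x ^ p = 1)
    (hcomm : ∀ x ∈ L, ∀ y ∈ L, x * y = y * x) (hlt : ∃ x ∈ L, x ∉ N)
    (htriv : ∀ g : X, ∀ x ∈ L, g * x * g⁻¹ * x⁻¹ ∈ N) (hidx : ¬ p ∣ L.index) : False := by
  classical
  let : CommGroup L := { (inferInstance : Group L) with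
    mul_comm := fun x y => Subtype.ext (hcomm x x.2 y y.2) }
  let f : X →* MulAut L := MulAut.conjNormal
  have hAfin : Finite (MulAut L) := finite_mulAut' L
  have : Fintype f.range := Fintype.ofFinite _
  have hcard : ¬ p ∣ Nat.card f.range := by
    intro h
    apply hidx
    refine h.trans ?_
    rw [← Subgroup.index_ker]
    apply Subgroup.index_dvd_of_le
    intro x hx
    rw [MonoidHom.mem_ker]
    ext y
    rw [MulAut.conjNormal_apply, MulAut.one_apply, hcomm x hx y y.2, mul_inv_cancel_right]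
  obtain ⟨x, hx, hxN⟩ := hlt
  set v : L := ∏ α : f.range, (α : MulAut L) ⟨x, hx⟩ with hv
  have hfix : ∀ g : X, f g v = v := by
    intro g
    rw [hv, map_prod]
    exact Fintype.prod_equiv (Equiv.mulLeft (⟨f g, ⟨g, rfl⟩⟩ : f.range)) _ _ (fun α => rfl)
  have hvN : (v : X) * (x ^ Nat.card f.range)⁻¹ ∈ N := by
    have h1 : v * ((⟨x, hx⟩ : L) ^ Nat.card f.range)⁻¹ =
        ∏ α : f.range, ((α : MulAut L) ⟨x, hx⟩ * (⟨x, hx⟩ : L)⁻¹) := by
      rw [Finset.prod_mul_distrib, Finset.prod_const, Finset.card_univ, inv_pow,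
        Nat.card_eq_fintype_card]
    have h2 : v * ((⟨x, hx⟩ : L) ^ Nat.card f.range)⁻¹ ∈ N.subgroupOf L := by
      rw [h1]
      apply Subgroup.prod_mem
      rintro ⟨_, g, rfl⟩ _
      show ((MulAut.conjNormal g (⟨x, hx⟩ : L) * (⟨x, hx⟩ : L)⁻¹ : L) : X) ∈ N
      rw [Subgroup.coe_mul, MulAut.conjNormal_apply]
      exact htriv g x hx
    exact h2
  have hv1 : (v : X) ≠ 1 := by
    intro h
    rw [h, one_mul] at hvN
    have h1 := N.inv_mem hvN
    rw [inv_inv] at h1
    apply hxN
    have h2 : Nat.Coprime p (Nat.card f.range) := (Nat.Prime.coprime_iff_not_dvd hp).mpr hcard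
    have h3 := Nat.gcd_eq_gcd_ab p (Nat.card f.range)
    rw [h2] at h3
    have h4 : x = (x ^ p) ^ (Nat.gcdA p (Nat.card f.range)) *
        (x ^ Nat.card f.range) ^ (Nat.gcdB p (Nat.card f.range)) := by
      rw [← zpow_natCast, ← zpow_natCast, ← zpow_mul, ← zpow_mul, ← zpow_add, ← h3]
      simp
    rw [h4, hexp x hx, one_zpow, one_mul]
    exact N.zpow_mem h1 _
  have hcentral : ∀ g : X, g * (v : X) = v * g := by
    intro g
    have h1 : ((f g v : L) : X) = v := by rw [hfix]
    rw [MulAut.conjNormal_apply] at h1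
    calc g * (v : X) = g * v * g⁻¹ * g := by group
      _ = v * g := by rw [h1]
  refine hno _ (zpowers_normal_of_central hcentral) ?_
  have : Fact p.Prime := ⟨hp⟩
  rw [Nat.card_zpowers, orderOf_eq_prime (hexp _ v.2) hv1]
  exact hp

lemma comm_of_coprime {Y : Type} [Group Y] [Finite Y] (R : Subgroup Y) [R.Normal] {s : ℕ}
    (hs : s.Prime) (hR : Nat.card R = s) (hcop : Nat.Coprime (Nat.card Y) (s - 1)) :
    ∀ g : Y, ∀ x ∈ R, g * x = x * g := by
  let f : Y →* MulAut R := MulAut.conjNormal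
  have : Fact s.Prime := ⟨hs⟩
  have hcyc : IsCyclic R := isCyclic_of_prime_card hR
  have h1 : Nat.card f.range ∣ s - 1 := by
    have h2 := Subgroup.card_subgroup_dvd_card f.range
    rwa [IsCyclic.card_mulAut, hR, Nat.totient_prime hs] at h2
  have h2 : Nat.card f.range ∣ Nat.card Y := Subgroup.card_range_dvd f
  have h3 : f.range = ⊥ := by
    apply Subgroup.card_eq_one.mp
    have := Nat.dvd_gcd h2 h1
    rw [hcop] at this
    exact Nat.dvd_one.mp this
  intro g x hx
  have h4 : f g ∈ f.range := ⟨g, rfl⟩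
  rw [h3, Subgroup.mem_bot] at h4
  have h5 := congrArg (fun (a : MulAut R) => ((a ⟨x, hx⟩ : R) : Y)) h4
  simp only [f, MulAut.conjNormal_apply, MulAut.one_apply] at h5
  calc g * x = g * x * g⁻¹ * g := by group
    _ = x * g := by rw [h5]

end Pool.Agent.Lib.MP_4f0ec0_al
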