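import Mathlib
import Pool.Agent.Lib.MP_4f0ec0_al.SelfCent

/-! Minimal normal subgroups and the induced automorphism group. -/

namespace Pool.Agent.Lib.MP_4f0ec0_al

open Function

/-- The commutative group structure on an abelian subgroup. -/
@[reducible] def cg {X : Type} [Group X] (N : Subgroup X) (h : ∀ x ∈ N, ∀ y ∈ N, x * y = y * x) :
    CommGroup N :=
  { (inferInstance : Group N) with mul_comm := fun x y => Subtype.ext (h x x.2 y y.2) }

/-- A minimal normal elementary abelian subgroup of order `p ^ k`. -/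
structure MinData (X : Type) [Group X] (N : Subgroup X) (p k : ℕ) : Prop where
  normal : N.Normal
  prime : p.Prime
  pos : 0 < k
  card : Nat.card N = p ^ k
  exp : ∀ x ∈ N, x ^ p = 1
  comm : ∀ x ∈ N, ∀ y ∈ N, x * y = y * x
  irr : ∀ L : Subgroup X, L.Normal → L ≤ N → L = ⊥ ∨ L = N

/-- The conjugation action. -/
abbrev cj {X : Type} [Group X] (N : Subgroup X) [N.Normal] : X →* MulAut N := MulAut.conjNormal

lemma cj_apply {X : Type} [Group X] (N : Subgroup X) [N.Normal] (g : X) (x : N) :
    ((cj N g x : N) : X) = g * x * g⁻¹ := MulAut.conjNormal_apply g x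

lemma cj_eq_one {X : Type} [Group X] (N : Subgroup X) [N.Normal] (g : X) :
    cj N g = 1 ↔ ∀ x ∈ N, g * x = x * g := by
  constructor
  · intro h x hx
    have h5 := congrArg (fun (a : MulAut N) => ((a ⟨x, hx⟩ : N) : X)) h
    simp only [MulAut.one_apply] at h5
    rw [cj_apply] at h5
    calc g * x = g * x * g⁻¹ * g := by group
      _ = x * g := by rw [h5]
  · intro h
    ext x
    rw [cj_apply, h x x.2, mul_inv_cancel_right, MulAut.one_apply]

lemma exists_minData {X : Type} [Group X] [Finite X] [Nontrivial X] (hsol : Group.IsSolvable X) :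
    ∃ N : Subgroup X, ∃ p k : ℕ, MinData X N p k := by
  obtain ⟨N, hN, -⟩ := exists_minNormal_le (⊤ : Subgroup X) inferInstance top_ne_bot
  obtain ⟨p, hp, hexp, k, hk, hc⟩ := hN.exponent hsol
  exact ⟨N, p, k, hN.1, hp, hk, hc, hexp, hN.comm hsol, hN.2.2⟩

namespace MinData

variable {X : Type} [Group X] [Finite X] {N : Subgroup X} {p k : ℕ}

omit [Finite X] in
lemma nontrivial (h : MinData X N p k) : Nontrivial N := by
  rw [← not_subsingleton_iff_nontrivial]
  intro hs
  have h1 := h.card
  rw [Nat.card_of_subsingleton (1 : N)] at h1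
  have := Nat.one_lt_pow h.pos.ne' h.prime.one_lt
  omega

omit [Finite X] in
lemma irr_range (h : MinData X N p k) [N.Normal] : @Irr N (cg N h.comm) (cj N).range := by
  intro L hL
  have hLn : (L.map N.subtype).Normal := by
    refine ⟨?_⟩
    rintro _ ⟨x, hx, rfl⟩ g
    exact ⟨cj N g x, hL _ ⟨g, rfl⟩ x hx, cj_apply N g x⟩
  rcases h.irr _ hLn (Subgroup.map_subtype_le L) with h | h
  · left
    rw [eq_bot_iff]
    intro x hx
    have h6 : (x : X) ∈ L.map N.subtype := ⟨x, hx, rfl⟩
    rw [h, Subgroup.mem_bot] at h6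
    exact Subtype.ext h6
  · right
    rw [eq_top_iff]
    intro x _
    have h6 : (x : X) ∈ L.map N.subtype := by rw [h]; exact x.2
    obtain ⟨y, hy, hxy⟩ := h6
    have : y = x := Subtype.ext hxy
    rw [← this]
    exact hy

lemma card_range (h : MinData X N p k) [N.Normal] :
    Nat.card N * Nat.card (cj N).range ∣ Nat.card X := by
  rw [← Subgroup.card_mul_index N, ← Subgroup.index_ker]
  apply Nat.mul_dvd_mul_left
  apply Subgroup.index_dvd_of_le
  intro x hx
  rw [MonoidHom.mem_ker, cj_eq_one]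
  exact fun y hy => h.comm x hx y hy

lemma dvd_of_prime (h : MinData X N p k) [N.Normal] {t : ℕ} (ht : t.Prime) (htp : t ≠ p)
    (hd : t ∣ Nat.card (cj N).range) : ∃ l, 0 < l ∧ l ≤ k ∧ t ∣ p ^ l - 1 := by
  have hf : Fact t.Prime := ⟨ht⟩
  have hAfin : Finite (MulAut N) := finite_mulAut' N
  obtain ⟨α, hα⟩ := exists_prime_orderOf_dvd_card' t hd
  exact exists_dvd_of_aut h.prime ht htp.symm h.card (α : MulAut N) (by
    rw [Subgroup.orderOf_coe, hα])

/-- Normal `p`-subgroups act trivially. -/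
lemma fix (h : MinData X N p k) [N.Normal] (S : Subgroup (MulAut N))
    (hnorm : ∀ α ∈ (cj N).range, ∀ σ ∈ S, α⁻¹ * σ * α ∈ S) (hS : IsPGroup p S) : S = ⊥ := by
  have : Fact p.Prime := ⟨h.prime⟩
  have := h.nontrivial
  exact @fix_lemma N (cg N h.comm) _ p _ (fun x => Subtype.ext (h.exp x x.2)) _ _ h.irr_range S
    hnorm hS

lemma card_of_abelian (h : MinData X N p k) [N.Normal]
    (hcomm : ∀ α ∈ (cj N).range, ∀ β ∈ (cj N).range, α * β = β * α)
    (hpow : ∀ α ∈ (cj N).range, α ^ (p - 1) = 1) : Nat.card N = p := by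
  have : Fact p.Prime := ⟨h.prime⟩
  have := h.nontrivial
  exact @abelian_exp N (cg N h.comm) _ p _ (fun x => Subtype.ext (h.exp x x.2)) _ _ h.irr_range
    hcomm hpow

lemma two_le (h : MinData X N p k) (hno : NoPrime X) : 2 ≤ k := by
  have h1 := h.pos
  by_contra hcon
  have h2 : k = 1 := by omega
  have h3 := h.card
  rw [h2, pow_one] at h3
  exact hno N h.normal (by rw [h3]; exact h.prime)

/-- The action is not that of a `p`-group. -/
lemma not_pgroup (h : MinData X N p k) (hno : NoPrime X) [N.Normal] :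
    ¬ IsPGroup p (cj N).range := by
  intro hpg
  have h1 := h.fix (cj N).range (fun α hα σ hσ => by
    exact Subgroup.mul_mem _ (Subgroup.mul_mem _ (Subgroup.inv_mem _ hα) hσ) hα) hpg
  have hnt := h.nontrivial
  obtain ⟨x, hx⟩ := exists_ne (1 : N)
  have h2 : ∀ g : X, g * (x : X) = x * g := by
    intro g
    have h3 : cj N g ∈ (cj N).range := ⟨g, rfl⟩
    rw [h1, Subgroup.mem_bot, cj_eq_one] at h3
    exact h3 x x.2
  have : Fact p.Prime := ⟨h.prime⟩
  refine hno _ (zpowers_normal_of_central h2) ?_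
  rw [Nat.card_zpowers, orderOf_eq_prime (h.exp _ x.2) (fun h0 => hx (Subtype.ext h0))]
  exact h.prime

lemma coprime_of_ss (h : MinData X N p k) [N.Normal] (hss : SS (cj N).range)
    (hle : ∀ t, t.Prime → t ∣ Nat.card (cj N).range → t ≤ p) : ¬ p ∣ Nat.card (cj N).range := by
  have hAfin : Finite (MulAut N) := finite_mulAut' N
  obtain ⟨S, hSn, ⟨j, hj⟩, hidx⟩ := hss.sylow p h.prime hle
  have h1 := h.fix (S.map (cj N).range.subtype) (by
    rintro α hα _ ⟨σ, hσ, rfl⟩
    have h2 := hSn.conj_mem σ hσ (⟨α, hα⟩⁻¹ : (cj N).range)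
    refine ⟨_, h2, ?_⟩
    simp) (by
    apply IsPGroup.of_card (n := j)
    rw [← hj]
    exact Subgroup.card_map_of_injective (Subgroup.subtype_injective _))
  rw [Subgroup.map_eq_bot_iff, Subgroup.ker_subtype] at h1
  have h2 : S = ⊥ := le_bot_iff.mp h1
  rw [h2, Subgroup.index_bot] at hidx
  exact hidx

lemma ss_range [N.Normal] (hss : SS (X ⧸ N)) (h : MinData X N p k) : SS (cj N).range := by
  refine SS.of_surjective (QuotientGroup.lift N ((cj N).rangeRestrict) ?_) ?_ hss
  · intro x hx
    apply Subtype.ext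
    show cj N x = 1
    rw [cj_eq_one]
    exact fun y hy => h.comm x hx y hy
  · exact QuotientGroup.lift_surjective_of_surjective N _ (MonoidHom.rangeRestrict_surjective _) _

/-- If `N` is self-centralizing then `X ⧸ N` is the group of induced automorphisms. -/
lemma quot_equiv [N.Normal] (h : MinData X N p k)
    (hsc : ∀ g : X, (∀ x ∈ N, g * x = x * g) → g ∈ N) :
    Nonempty (X ⧸ N ≃* (cj N).range) := by
  have hker : (cj N).ker = N := by
    ext g
    rw [MonoidHom.mem_ker, cj_eq_one]
    exact ⟨hsc g, fun hg y hy => h.comm g hg y hy⟩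
  exact ⟨(QuotientGroup.quotientMulEquivOfEq hker.symm).trans
    (QuotientGroup.quotientKerEquivRange (cj N))⟩

end MinData

end Pool.Agent.Lib.MP_4f0ec0_al
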