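import Mathlib
import Pool.Agent.Lib.MP_4f0ec0_al.MinData

/-! The groups without normal subgroups of prime order whose order divides `p ^ q * q ^ 2 * m`. -/

namespace Pool.Agent.Lib.MP_4f0ec0_al

open Function

lemma prime_pow_dvd_of {s t k A B : ℕ} (hs : s.Prime) (ht : t.Prime) (hne : s ≠ t)
    (h : s ^ k ∣ t ^ A * B) : s ^ k ∣ B :=
  Nat.Coprime.dvd_of_dvd_mul_left
    (Nat.Coprime.pow _ _ ((Nat.coprime_primes hs ht).mpr hne)) h

lemma le_of_pow_dvd {p k A B : ℕ} (hp : p.Prime) (hB : ¬ p ∣ B) (h : p ^ k ∣ p ^ A * B) : k ≤ A := by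
  have h1 : p ^ k ∣ p ^ A := by
    apply Nat.Coprime.dvd_of_dvd_mul_right _ h
    exact Nat.Coprime.pow_left _ ((Nat.Prime.coprime_iff_not_dvd hp).mpr hB)
  exact (Nat.pow_dvd_pow_iff_le_right hp.one_lt).mp h1

lemma sq_not_dvd {s m : ℕ} (hs : s.Prime) (hm : Squarefree m) : ¬ s ^ 2 ∣ m := by
  rw [pow_two]
  exact Nat.squarefree_iff_prime_squarefree.mp hm s hs

lemma isPGroup_of_primes {K : Type} [Group K] [Finite K] {p : ℕ}
    (h : ∀ t, t.Prime → t ∣ Nat.card K → t = p) : ∃ j, Nat.card K = p ^ j :=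
  ⟨_, Nat.eq_prime_pow_of_unique_prime_dvd Nat.card_pos.ne' (fun {d} hd1 hd2 => h d hd1 hd2)⟩

lemma finish_cyclic {X : Type} [Group X] [Finite X] {N : Subgroup X} {p k e : ℕ}
    (h : MinData X N p k) [N.Normal] (hsc : ∀ g : X, (∀ x ∈ N, g * x = x * g) → g ∈ N)
    (hcyc : IsCyclic (cj N).range) (hcard : Nat.card (cj N).range = e) (hcop : Nat.Coprime p e) :
    ∃ (E : Type) (_ : Field E) (_ : Finite E) (θ : Eˣ), Nat.card E = p ^ k ∧ orderOf θ = e ∧
      Nonempty (Aff E (Subgroup.zpowers θ) ≃* X) := by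
  obtain ⟨e1⟩ := h.quot_equiv hsc
  have hidx : N.index = e := by
    rw [← hcard, ← Nat.card_congr e1.toEquiv]
    rfl
  have : Fact p.Prime := ⟨h.prime⟩
  obtain ⟨E, hE, hfin, θ, h1, h2, h3⟩ := aff_model N (p := p) h.exp h.comm
    ((Subgroup.nontrivial_iff_ne_bot N).mp h.nontrivial) (by rw [hidx]; exact hcop)
    (isCyclic_of_injective e1.toMonoidHom e1.injective) h.irr hsc
  exact ⟨E, hE, hfin, θ, by rw [h1, h.card], by rw [h2, hidx], h3⟩

lemma dvd_exp {p q l : ℕ} (hp : p.Prime) (hq : q.Prime) (h1 : q ∣ p - 1) (h2 : ¬ q ^ 2 ∣ p - 1)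
    (h3 : q ^ 2 ∣ p ^ l - 1) : q ∣ l := by
  have hg : (p - 1) * ∑ i ∈ Finset.range l, p ^ i = p ^ l - 1 := by
    rw [Nat.geomSum_eq hp.two_le]
    exact Nat.mul_div_cancel' (Nat.sub_one_dvd_pow_sub_one p l)
  obtain ⟨c, hc⟩ := h1
  have hqc : ¬ q ∣ c := by
    rintro ⟨d, rfl⟩
    exact h2 ⟨d, by rw [hc]; ring⟩
  rw [← hg, hc, pow_two, mul_assoc] at h3
  have h4 := Nat.dvd_of_mul_dvd_mul_left hq.pos h3
  have h5 : q ∣ ∑ i ∈ Finset.range l, p ^ i := by
    rcases (Nat.Prime.dvd_mul hq).mp h4 with h | h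
    · exact absurd h hqc
    · exact h
  have h6 : (∑ i ∈ Finset.range l, p ^ i) ≡ l [MOD q] := by
    have h7 : p ≡ 1 [MOD q] := ((Nat.modEq_iff_dvd' hp.one_lt.le).mpr ⟨c, hc⟩).symm
    have h8 : ∀ s : Finset ℕ, (∑ i ∈ s, p ^ i) ≡ ∑ i ∈ s, 1 [MOD q] := by
      intro s
      classical
      induction s using Finset.induction_on with
      | empty => rfl
      | insert a s ha ih =>
        rw [Finset.sum_insert ha, Finset.sum_insert ha]
        refine Nat.ModEq.add ?_ ih
        have := h7.pow a
        rwa [one_pow] at this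
    have := h8 (Finset.range l)
    rwa [Finset.sum_const, Finset.card_range, smul_eq_mul, mul_one] at this
  exact (Nat.ModEq.dvd_iff h6 dvd_rfl).mp h5

theorem caseB {p q m : ℕ} (hp : p.Prime) (hq : q.Prime) (hqp : q ∣ p - 1) (hqp2 : ¬ q ^ 2 ∣ p - 1)
    (h32 : ¬ (p = 3 ∧ q = 2)) (hm : Squarefree m) (hpm : ¬ p ∣ m) (hqm : ¬ q ∣ m)
    (ht : ∀ t, t.Prime → t ∣ m → ∀ l, 0 < l → l ≤ q → ¬ t ∣ p ^ l - 1)
    {X : Type} [Group X] [Finite X] (hX : Nat.card X ∣ p ^ q * (q ^ 2 * m))
    (hsol : Group.IsSolvable X) (hnss : ¬ SS X) (hno : NoPrime X)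
    (IH : ∀ (Y : Type) (_ : Group Y), Nat.card Y ∣ Nat.card X → Nat.card Y < Nat.card X →
      ¬ p ^ q ∣ Nat.card Y → SS Y) :
    ∃ (E : Type) (_ : Field E) (_ : Finite E) (θ : Eˣ), Nat.card E = p ^ q ∧ orderOf θ = q ^ 2 ∧
      Nonempty (Aff E (Subgroup.zpowers θ) ≃* X) := by
  have hqlt : q < p := by
    have := Nat.le_of_dvd (by have := hp.two_le; omega) hqp
    have := hp.two_le
    omega
  have hpq : p ≠ q := hqlt.ne'
  have hpq2 : ¬ p ∣ q ^ 2 * m := by
    rw [hp.dvd_mul]
    rintro (h | h)
    · exact hpq ((Nat.prime_dvd_prime_iff_eq hp hq).mp (hp.dvd_of_dvd_pow h))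
    · exact hpm h
  have hnt : Nontrivial X := by
    rw [← not_subsingleton_iff_nontrivial]
    intro h
    exact hnss SS.of_subsingleton
  obtain ⟨N, s, k, h⟩ := exists_minData hsol
  have hNn := h.normal
  have hk2 := h.two_le hno
  have hcr := h.card_range
  have hsk : s ^ k ∣ p ^ q * (q ^ 2 * m) := by
    rw [← h.card]
    exact ((Subgroup.card_subgroup_dvd_card N).trans hX)
  have hKd : Nat.card (cj N).range ∣ p ^ q * (q ^ 2 * m) :=
    (dvd_mul_left _ _).trans (hcr.trans hX)
  have hAfin : Finite (MulAut N) := finite_mulAut' N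
  -- prime divisors of the order
  have hprimes : ∀ t, t.Prime → t ∣ p ^ q * (q ^ 2 * m) → t = p ∨ t = q ∨ t ∣ m := by
    intro t ht1 ht2
    rcases (Nat.Prime.dvd_mul ht1).mp ht2 with h1 | h1
    · left
      exact (Nat.prime_dvd_prime_iff_eq ht1 hp).mp (ht1.dvd_of_dvd_pow h1)
    · right
      rcases (Nat.Prime.dvd_mul ht1).mp h1 with h1 | h1
      · left
        exact (Nat.prime_dvd_prime_iff_eq ht1 hq).mp (ht1.dvd_of_dvd_pow h1)
      · right
        exact h1
  by_cases hsp : s = p
  · subst hsp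
    have hkq : k ≤ q := le_of_pow_dvd hp hpq2 hsk
    have hKprimes : ∀ t, t.Prime → t ∣ Nat.card (cj N).range → t ≠ s → t = q := by
      intro t ht1 ht2 ht3
      obtain ⟨l, hl1, hl2, hl3⟩ := h.dvd_of_prime ht1 ht3 ht2
      rcases hprimes t ht1 (ht2.trans hKd) with h1 | h1 | h1
      · exact absurd h1 ht3
      · exact h1
      · exact absurd hl3 (ht t ht1 h1 l hl1 (hl2.trans hkq))
    have hssq : SS (X ⧸ N) := by
      apply IH
      · exact Subgroup.card_quotient_dvd_card N
      · rw [Subgroup.card_eq_card_quotient_mul_card_subgroup N, h.card]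
        have h1 : 1 < s ^ k := Nat.one_lt_pow (by omega) hp.one_lt
        have h2 : 0 < Nat.card (X ⧸ N) := Nat.card_pos
        nlinarith
      · intro hd
        have h1 : s ^ (q + k) ∣ Nat.card X := by
          rw [Subgroup.card_eq_card_quotient_mul_card_subgroup N, h.card, pow_add]
          exact Nat.mul_dvd_mul_right hd _
        have := le_of_pow_dvd hp hpq2 (h1.trans hX)
        omega
    have hssK : SS (cj N).range := MinData.ss_range hssq h
    have hpK : ¬ s ∣ Nat.card (cj N).range := h.coprime_of_ss hssK (by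
      intro t ht1 ht2
      by_cases hts : t = s
      · exact hts.le
      · rw [hKprimes t ht1 ht2 hts]
        exact hqlt.le)
    obtain ⟨j, hj⟩ := isPGroup_of_primes (K := (cj N).range) (p := q) (by
      intro t ht1 ht2
      apply hKprimes t ht1 ht2
      rintro rfl
      exact hpK ht2)
    have hj2 : j ≤ 2 := by
      rw [hj] at hKd
      exact le_of_pow_dvd hq hqm (prime_pow_dvd_of hq hp hpq.symm hKd)
    have hNcard : Nat.card N ≠ s := by
      rw [h.card]
      intro h1
      have h2 : s ^ k = s ^ 1 := by rw [h1, pow_one]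
      have := Nat.pow_right_injective hp.two_le h2
      omega
    -- an element whose `q`-th power is not trivial
    have hex : ∃ α ∈ (cj N).range, α ^ q ≠ 1 := by
      by_contra hcon
      push Not at hcon
      apply hNcard
      apply h.card_of_abelian
      · have hcomm : ∀ a b : (cj N).range, a * b = b * a := by
          have hfq : Fact q.Prime := ⟨hq⟩
          interval_cases j
          · have : Subsingleton (cj N).range := (Nat.card_eq_one_iff_unique.mp (by
              rw [hj, pow_zero])).1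
            exact fun a b => Subsingleton.elim _ _
          · have hc : IsCyclic (cj N).range := isCyclic_of_prime_card (p := q) (by rw [hj, pow_one])
            intro a b
            exact IsCyclic.commGroup.mul_comm a b
          · have := IsPGroup.isMulCommutative_of_card_eq_prime_sq hj
            exact fun a b => this.is_comm.comm a b
        intro α hα β hβ
        exact congrArg (fun z : (cj N).range => (z : MulAut N)) (hcomm ⟨α, hα⟩ ⟨β, hβ⟩)
      · intro α hα
        obtain ⟨c, hc⟩ := hqp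
        rw [hc, pow_mul, hcon α hα, one_pow]
    obtain ⟨α, hα, hαq⟩ := hex
    have hαo : orderOf α = q ^ 2 := by
      have h1 : orderOf α ∣ q ^ j := by
        rw [← hj]
        have := orderOf_dvd_natCard (⟨α, hα⟩ : (cj N).range)
        rwa [← Subgroup.orderOf_coe] at this
      obtain ⟨i, hi, hi2⟩ := (Nat.dvd_prime_pow hq).mp h1
      have h2 : ¬ i ≤ 1 := by
        intro hi1
        apply hαq
        rw [← orderOf_dvd_iff_pow_eq_one, hi2]
        calc q ^ i ∣ q ^ 1 := Nat.pow_dvd_pow q hi1
          _ = q := pow_one q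
      have h3 : i = 2 := by omega
      rw [hi2, h3]
    have hj2' : j = 2 := by
      have h1 : orderOf α ∣ q ^ j := by
        rw [← hj]
        have := orderOf_dvd_natCard (⟨α, hα⟩ : (cj N).range)
        rwa [← Subgroup.orderOf_coe] at this
      rw [hαo, Nat.pow_dvd_pow_iff_le_right hq.one_lt] at h1
      omega
    have hcyc : IsCyclic (cj N).range := isCyclic_of_orderOf_eq_card (⟨α, hα⟩ : (cj N).range) (by
      rw [← Subgroup.orderOf_coe, hj, hj2']
      exact hαo)
    have hkq' : k = q := by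
      obtain ⟨l, hl1, hl2, hl3, -⟩ := exists_dvd_of_aut_pow (b := 1) hp hq hpq h.card α hαo
      have h1 := Nat.le_of_dvd hl1 (dvd_exp hp hq hqp hqp2 hl3)
      omega
    subst hkq'
    apply finish_cyclic h _ hcyc (by rw [hj, hj2'])
    · exact Nat.Coprime.pow_right _ ((Nat.coprime_primes hp hq).mpr hpq)
    · intro g hg
      by_contra hgN
      obtain ⟨L, hL1, hL2, hL3, -⟩ := self_cent hno N hp h.exp h.comm hssq ⟨g, hgN, hg⟩
      have h1 : s ^ (k + 1) ∣ Nat.card X := by
        rw [pow_succ', ← h.card, ← hL3]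
        exact Subgroup.card_subgroup_dvd_card L
      have := le_of_pow_dvd hp hpq2 (h1.trans hX)
      omega
  · exfalso
    -- `s = q`
    have hs2 : s ^ 2 ∣ q ^ 2 * m :=
      prime_pow_dvd_of h.prime hp hsp ((Nat.pow_dvd_pow s hk2).trans hsk)
    have hsq : s = q := by
      by_contra hne
      exact sq_not_dvd h.prime hm (prime_pow_dvd_of h.prime hq hne hs2)
    subst hsq
    have hk : k ≤ 2 := le_of_pow_dvd hq hqm (prime_pow_dvd_of hq hp hsp hsk)
    apply h.not_pgroup hno
    obtain ⟨j, hj⟩ := isPGroup_of_primes (K := (cj N).range) (p := s) (by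
      intro t ht1 ht2
      by_contra hts
      obtain ⟨l, hl1, hl2, hl3⟩ := h.dvd_of_prime ht1 hts ht2
      have h2 := hq.two_le
      have h3 : t ≤ s + 1 := by
        have h4 : t ∣ (s - 1) * (s + 1) := by
          have h5 : (s - 1) * (s + 1) = s ^ 2 - 1 := by
            have := Nat.sq_sub_sq s 1
            rw [one_pow] at this
            rw [this, mul_comm]
          have h6 : l = 1 ∨ l = 2 := by omega
          rcases h6 with rfl | rfl
          · rw [pow_one] at hl3
            exact hl3.mul_right _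
          · rw [h5]
            exact hl3
        rcases (Nat.Prime.dvd_mul ht1).mp h4 with h5 | h5
        · have := Nat.le_of_dvd (by omega) h5
          omega
        · exact Nat.le_of_dvd (by omega) h5
      rcases hprimes t ht1 (ht2.trans hKd) with h1 | h1 | h1
      · -- `t = p = s + 1`
        subst h1
        have h4 : t = s + 1 := by omega
        have h5 : s = 2 := by
          rcases hq.eq_two_or_odd' with h6 | h6
          · exact h6
          · exfalso
            rcases ht1.eq_two_or_odd' with h7 | h7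
            · omega
            · rw [h4] at h7
              exact (Nat.not_odd_iff_even.mpr h6.add_one) h7
        exact h32 ⟨by omega, h5⟩
      · exact hts h1
      · have htp : t ≠ p := by
          rintro rfl
          exact hpm h1
        have h4 : t ∣ p ^ (t - 1) - 1 := by
          have hft : Fact t.Prime := ⟨ht1⟩
          have h5 : (p : ZMod t) ≠ 0 := by
            rw [Ne, ZMod.natCast_eq_zero_iff]
            intro h6
            exact htp ((Nat.prime_dvd_prime_iff_eq ht1 hp).mp h6)
          have h6 := ZMod.pow_card_sub_one_eq_one h5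
          have h7 : ((p ^ (t - 1) : ℕ) : ZMod t) = ((1 : ℕ) : ZMod t) := by
            push_cast
            exact h6
          rw [ZMod.natCast_eq_natCast_iff] at h7
          exact (Nat.modEq_iff_dvd' (Nat.one_le_pow _ _ hp.pos)).mp h7.symm
        have := ht1.two_le
        exact ht t ht1 h1 (t - 1) (by omega) (by omega) h4)
    exact IsPGroup.of_card hj

end Pool.Agent.Lib.MP_4f0ec0_al
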