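import Mathlib
import Pool.Agent.Lib.MP_4f0ec0_al.CaseB

/-! An automorphism normalizing an irreducible cyclic group centralizes it. -/

namespace Pool.Agent.Lib.MP_4f0ec0_al

open Function

lemma isConj_pow {p a : ℕ} [hp : Fact p.Prime] {E : Type} [Field E] [Finite E]
    [Algebra (ZMod p) E] (hE : Nat.card E = p ^ a) (θ : Eˣ) (hpa : ¬ p ∣ a)
    (hirr : ∀ L : AddSubgroup E, (∀ x ∈ L, (θ : E) * x ∈ L) → L = ⊥ ∨ L = ⊤)
    (C : E →+ E) (hC0 : ∃ x, C x ≠ 0) (j : ℕ) (hC : ∀ x, C ((θ : E) * x) = (θ : E) ^ j * C x)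
    (hj : (θ : E) ^ (j ^ p) = θ) : (θ : E) ^ j = θ := by
  have hfd : FiniteDimensional (ZMod p) E := Module.Finite.of_finite
  have hfr : Module.finrank (ZMod p) E = a := by
    have h1 := Module.natCard_eq_pow_finrank (K := ZMod p) (V := E)
    rw [hE, Nat.card_zmod] at h1
    exact (Nat.pow_right_injective hp.out.two_le h1).symm
  have hpoly : ∀ (f : Polynomial (ZMod p)) (x : E),
      C (Polynomial.aeval (θ : E) f * x) = Polynomial.aeval ((θ : E) ^ j) f * C x := by
    have hscal : ∀ (c : ZMod p) (x : E), C (algebraMap (ZMod p) E c * x) =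
        algebraMap (ZMod p) E c * C x := by
      intro c x
      obtain ⟨n, rfl⟩ : ∃ n : ℕ, (n : ZMod p) = c := ⟨c.val, ZMod.natCast_zmod_val c⟩
      rw [map_natCast, ← nsmul_eq_mul, map_nsmul, nsmul_eq_mul]
    have hpow : ∀ (n : ℕ) (x : E), C ((θ : E) ^ n * x) = ((θ : E) ^ j) ^ n * C x := by
      intro n
      induction n with
      | zero => intro x; simp
      | succ n ih =>
        intro x
        rw [pow_succ, mul_assoc, ih, hC, pow_succ, mul_assoc]
    intro f
    induction f using Polynomial.induction_on' with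
    | add f g hf hg =>
      intro x
      rw [map_add, map_add, add_mul, map_add, hf, hg, add_mul]
    | monomial n c =>
      intro x
      rw [Polynomial.aeval_monomial, Polynomial.aeval_monomial, mul_assoc, hscal, hpow, mul_assoc]
  obtain ⟨x, hx⟩ := hC0
  have hroot : Polynomial.aeval ((θ : E) ^ j) (minpoly (ZMod p) (θ : E)) = 0 := by
    have h1 := hpoly (minpoly (ZMod p) (θ : E)) x
    rw [minpoly.aeval, zero_mul, map_zero] at h1
    rcases mul_eq_zero.mp h1.symm with h2 | h2
    · exact h2
    · exact absurd h2 hx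
  have hint : IsIntegral (ZMod p) (θ : E) := Algebra.IsIntegral.isIntegral _
  have hconj : IsConjRoot (ZMod p) (θ : E) ((θ : E) ^ j) :=
    (isConjRoot_iff_aeval_eq_zero hint).mpr hroot
  obtain ⟨σ, hσ⟩ := isConjRoot_iff_exists_algEquiv.mp hconj.symm
  -- `σ ^ p` fixes `θ`
  have hσn : ∀ n : ℕ, (σ ^ n) (θ : E) = (θ : E) ^ (j ^ n) := by
    intro n
    induction n with
    | zero => simp
    | succ n ih =>
      rw [pow_succ', AlgEquiv.mul_apply, ih, map_pow, hσ, ← pow_mul, pow_succ']
  have hσp : σ ^ p = 1 := by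
    let L : AddSubgroup E :=
      { carrier := {x | (σ ^ p) x = x}
        add_mem' := fun {a b} ha hb => by
          show (σ ^ p) (a + b) = a + b
          rw [map_add, show (σ ^ p) a = a from ha, show (σ ^ p) b = b from hb]
        zero_mem' := map_zero _
        neg_mem' := fun {a} ha => by
          show (σ ^ p) (-a) = -a
          rw [map_neg, show (σ ^ p) a = a from ha] }
    have hL : L = ⊤ := by
      rcases hirr L (fun x hx => by
        show (σ ^ p) ((θ : E) * x) = θ * x
        rw [map_mul, hσn, hj, show (σ ^ p) x = x from hx]) with h | h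
      · exfalso
        have h1 : (1 : E) ∈ L := map_one _
        rw [h, AddSubgroup.mem_bot] at h1
        exact one_ne_zero h1
      · exact h
    ext x
    have h1 : x ∈ L := by rw [hL]; trivial
    exact h1
  have h1 : orderOf σ ∣ p := orderOf_dvd_of_pow_eq_one hσp
  have h2 : orderOf σ ∣ a := by
    rw [← hfr, ← IsGalois.card_aut_eq_finrank (ZMod p) E]
    exact orderOf_dvd_natCard σ
  have h3 : orderOf σ = 1 := by
    rcases (Nat.dvd_prime hp.out).mp h1 with h | h
    · exact h
    · rw [h] at h2
      exact absurd h2 hpa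
  rw [orderOf_eq_one_iff] at h3
  rw [← hσ, h3]
  rfl

theorem frob_comm {N : Type} [CommGroup N] [Finite N] {p q a : ℕ} [hp : Fact p.Prime]
    (hq : q.Prime) (hexp : ∀ x : N, x ^ p = 1) (hN : Nat.card N = p ^ a) (ha : 0 < a)
    (hord : ∀ l, 0 < l → l < a → ¬ q ∣ p ^ l - 1) (hpa : ¬ p ∣ a) (y c : MulAut N)
    (hy : orderOf y = q) (hfix : ∀ x, y x = x → x = 1) (j : ℕ) (hj : c * y * c⁻¹ = y ^ j)
    (hc : c ^ p = 1) : c * y = y * c := by
  have hnt : Nontrivial N := by
    rw [← not_subsingleton_iff_nontrivial]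
    intro hs
    rw [Nat.card_of_subsingleton (1 : N)] at hN
    have := Nat.one_lt_pow ha.ne' hp.out.one_lt
    omega
  have hfq : Fact q.Prime := ⟨hq⟩
  -- irreducibility
  have hirr : ∀ L : Subgroup N, (∀ x ∈ L, y x ∈ L) → L = ⊥ ∨ L = ⊤ := by
    intro L hL
    have hLn : ∀ n : ℕ, ∀ x ∈ L, (y ^ n) x ∈ L := by
      intro n
      induction n with
      | zero => intro x hx; simpa using hx
      | succ n ih =>
        intro x hx
        rw [pow_succ', MulAut.mul_apply]
        exact hL _ (ih x hx)
    have hz : IsPGroup q (Subgroup.zpowers y) := by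
      apply IsPGroup.of_card (n := 1)
      rw [Nat.card_zpowers, hy, pow_one]
    have hyfin : IsOfFinOrder y := orderOf_pos_iff.mp (by rw [hy]; exact hq.pos)
    let Y : SubMulAction (Subgroup.zpowers y) N :=
      { carrier := L
        smul_mem' := by
          rintro ⟨γ, hγ⟩ x hx
          classical
          obtain ⟨n, -, rfl⟩ := Finset.mem_image.mp
            (hyfin.mem_zpowers_iff_mem_range_orderOf.mp hγ)
          exact hLn n x hx }
    have hYfin : Finite Y := inferInstanceAs (Finite L)
    have h1 := hz.card_modEq_card_fixedPoints Y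
    have h2 : Nat.card (MulAction.fixedPoints (Subgroup.zpowers y) Y) = 1 := by
      rw [Nat.card_eq_one_iff_unique]
      refine ⟨⟨?_⟩, ⟨⟨⟨1, L.one_mem⟩, ?_⟩⟩⟩
      · rintro ⟨⟨x, hx⟩, hx'⟩ ⟨⟨z, hz⟩, hz'⟩
        have e1 : x = 1 := hfix x (congrArg (fun w : Y => (w : N)) (hx' ⟨y, Subgroup.mem_zpowers y⟩))
        have e2 : z = 1 := hfix z (congrArg (fun w : Y => (w : N)) (hz' ⟨y, Subgroup.mem_zpowers y⟩))
        subst e1
        subst e2
        rfl
      · rintro ⟨γ, hγ⟩
        apply Subtype.ext
        show γ 1 = 1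
        exact map_one γ
    rw [h2] at h1
    have h3 : Nat.card Y = Nat.card L := rfl
    have hLd : Nat.card L ∣ p ^ a := by
      rw [← hN]
      exact Subgroup.card_subgroup_dvd_card L
    obtain ⟨l, hl, hlc⟩ := (Nat.dvd_prime_pow hp.out).mp hLd
    rw [h3, hlc] at h1
    have h4 : q ∣ p ^ l - 1 := (Nat.modEq_iff_dvd' (Nat.one_le_pow _ _ hp.out.pos)).mp h1.symm
    rcases Nat.eq_zero_or_pos l with h5 | h5
    · left
      rw [h5, pow_zero] at hlc
      exact Subgroup.card_eq_one.mp hlc
    · right
      have h6 : l = a := by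
        by_contra hne
        exact hord l h5 (by omega) h4
      exact Subgroup.eq_top_of_card_eq _ (by rw [hlc, h6, hN])
  obtain ⟨E, hE, hfin, θ, ι, hι⟩ := field_model hexp y hirr
  have hEcard : Nat.card E = p ^ a := by
    rw [← hN]
    exact (Nat.card_congr ι.toEquiv).symm
  have hchar : CharP E p := by
    have h1 : (p : E) = 0 := by
      have h2 := hexp (ι.symm (Multiplicative.ofAdd 1))
      have h3 := congrArg ι h2
      rw [map_pow, ι.apply_symm_apply, map_one ι] at h3
      have h4 : p • (1 : E) = 0 := congrArg Multiplicative.toAdd h3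
      rwa [nsmul_eq_mul, mul_one] at h4
    have h2 : ringChar E = p := by
      rcases (Nat.dvd_prime hp.out).mp (ringChar.dvd h1) with h | h
      · exact absurd h (CharP.ringChar_ne_one)
      · exact h
    exact (ringChar.eq_iff).mp h2
  let : Algebra (ZMod p) E := ZMod.algebra E p
  have hιn : ∀ (n : ℕ) (x : N), ι ((y ^ n) x) = unitAut E (θ ^ n) (ι x) := by
    intro n
    induction n with
    | zero => intro x; simp
    | succ n ih =>
      intro x
      rw [pow_succ', MulAut.mul_apply, hι, ih, pow_succ', map_mul, MulAut.mul_apply]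
  have hpow_eq : ∀ n m : ℕ, y ^ n = y ^ m ↔ (θ : E) ^ n = (θ : E) ^ m := by
    intro n m
    constructor
    · intro h
      have h1 := hιn n (ι.symm (Multiplicative.ofAdd 1))
      rw [h, hιn m, ι.apply_symm_apply, unitAut_apply, unitAut_apply, toAdd_ofAdd, mul_one,
        mul_one, Units.val_pow_eq_pow_val, Units.val_pow_eq_pow_val] at h1
      exact (Multiplicative.ofAdd.injective h1).symm
    · intro h
      ext x
      apply ι.injective
      rw [hιn, hιn]
      congr 2
      exact Units.ext (by rw [Units.val_pow_eq_pow_val, Units.val_pow_eq_pow_val, h])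
  let C : E →+ E :=
    { toFun := fun x => Multiplicative.toAdd (ι (c (ι.symm (Multiplicative.ofAdd x))))
      map_zero' := by
        rw [ofAdd_zero, map_one, map_one, map_one]
        rfl
      map_add' := fun x z => by
        rw [ofAdd_add, map_mul, map_mul, map_mul]
        rfl }
  have hcy : ∀ x, c (y x) = (y ^ j) (c x) := by
    intro x
    rw [← hj]
    simp
  have hfinal := isConj_pow (p := p) (E := E) hEcard θ hpa (by
    intro L hL
    let L' : Subgroup N := (AddSubgroup.toSubgroup L).comap ι.toMonoidHom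
    have hL' : ∀ x, x ∈ L' ↔ Multiplicative.toAdd (ι x) ∈ L := fun x => Iff.rfl
    rcases hirr L' (fun x hx => by
      rw [hL'] at hx ⊢
      rw [hι, unitAut_apply, toAdd_ofAdd]
      exact hL _ hx) with h | h
    · left
      rw [eq_bot_iff]
      intro x hx
      have h1 : ι.symm (Multiplicative.ofAdd x) ∈ L' := by
        rw [hL', ι.apply_symm_apply]
        exact hx
      rw [h, Subgroup.mem_bot] at h1
      have h2 := congrArg ι h1
      rw [ι.apply_symm_apply, map_one] at h2
      exact h2
    · right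
      rw [eq_top_iff]
      intro x _
      have h1 : ι.symm (Multiplicative.ofAdd x) ∈ L' := by rw [h]; trivial
      rw [hL', ι.apply_symm_apply] at h1
      exact h1) C (by
    refine ⟨Multiplicative.toAdd (ι (c⁻¹ (ι.symm (Multiplicative.ofAdd 1)))), ?_⟩
    show Multiplicative.toAdd (ι (c (ι.symm (Multiplicative.ofAdd (Multiplicative.toAdd (ι (c⁻¹ (ι.symm (Multiplicative.ofAdd 1))))))))) ≠ 0
    rw [ofAdd_toAdd, ι.symm_apply_apply, ← MulAut.mul_apply, mul_inv_cancel, MulAut.one_apply,
      ι.apply_symm_apply]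
    exact one_ne_zero) j (by
    intro x
    show Multiplicative.toAdd (ι (c (ι.symm (Multiplicative.ofAdd ((θ : E) * x))))) = _
    have h1 : ι.symm (Multiplicative.ofAdd ((θ : E) * x)) = y (ι.symm (Multiplicative.ofAdd x)) := by
      apply ι.injective
      rw [hι, ι.apply_symm_apply, ι.apply_symm_apply, unitAut_apply, toAdd_ofAdd]
    rw [h1, hcy, hιn, unitAut_apply, toAdd_ofAdd, Units.val_pow_eq_pow_val]
    rfl) (by
    have h1 : ∀ n : ℕ, c ^ n * y * (c ^ n)⁻¹ = y ^ (j ^ n) := by
      intro n
      induction n with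
      | zero => simp
      | succ n ih =>
        calc c ^ (n + 1) * y * (c ^ (n + 1))⁻¹ = c * (c ^ n * y * (c ^ n)⁻¹) * c⁻¹ := by
              rw [pow_succ']; group
          _ = c * y ^ (j ^ n) * c⁻¹ := by rw [ih]
          _ = (c * y * c⁻¹) ^ (j ^ n) := by rw [conj_pow]
          _ = y ^ (j ^ (n + 1)) := by rw [hj, ← pow_mul, pow_succ']
    have h2 := h1 p
    rw [hc, one_mul, inv_one, mul_one] at h2
    have h3 : y ^ 1 = y ^ (j ^ p) := by rw [pow_one]; exact h2
    rw [hpow_eq, pow_one] at h3
    exact h3.symm)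
  have h4 : y ^ j = y := by
    have h5 : y ^ j = y ^ 1 := by
      rw [hpow_eq, pow_one]
      exact hfinal
    rw [h5, pow_one]
  rw [h4] at hj
  calc c * y = c * y * c⁻¹ * c := by group
    _ = y * c := by rw [hj]

end Pool.Agent.Lib.MP_4f0ec0_al
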