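import Mathlib
import Pool.Agent.Lib.MP_4f0ec0_al.FrobComm

/-! The groups without normal subgroups of prime order whose order divides `p ^ a * q * m`. -/

namespace Pool.Agent.Lib.MP_4f0ec0_al

open Function

lemma no_pq {X : Type} [Group X] [Finite X] (hsol : Group.IsSolvable X) {N : Subgroup X}
    {p q a : ℕ} (h : MinData X N p a) [N.Normal] (hq : q.Prime) (hpq : p ≠ q)
    (hord : ∀ l, 0 < l → l < a → ¬ q ∣ p ^ l - 1) (hpa : ¬ p ∣ a)
    (hpd : p ∣ Nat.card (cj N).range)
    (hprimes : ∀ t, t.Prime → t ∣ Nat.card (cj N).range → t = p ∨ t = q)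
    (hp2 : ¬ p ^ 2 ∣ Nat.card (cj N).range) (hq2 : ¬ q ^ 2 ∣ Nat.card (cj N).range) : False := by
  have hAfin : Finite (MulAut N) := finite_mulAut' N
  have hfp : Fact p.Prime := ⟨h.prime⟩
  set K := (cj N).range with hK
  have hKsol : Group.IsSolvable K :=
    Group.isSolvable_of_surjective (f := (cj N).rangeRestrict) (MonoidHom.rangeRestrict_surjective _)
  have hKnt : Nontrivial K := by
    rw [← Finite.one_lt_card_iff_nontrivial]
    have := Nat.le_of_dvd Nat.card_pos hpd
    have := h.prime.two_le
    omega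
  obtain ⟨M, hM, -⟩ := exists_minNormal_le (⊤ : Subgroup K) inferInstance top_ne_bot
  obtain ⟨t, ht, htexp, i, hi, hMc⟩ := hM.exponent hKsol
  have hMn : M.Normal := hM.1
  have hMd : Nat.card M ∣ Nat.card K := Subgroup.card_subgroup_dvd_card M
  have htd : t ∣ Nat.card K := by
    rw [hMc] at hMd
    exact (dvd_pow_self t hi.ne').trans hMd
  have htq : t = q := by
    rcases hprimes t ht htd with h1 | h1
    · exfalso
      subst h1
      have h2 := h.fix (M.map K.subtype) (by
        rintro α hα _ ⟨σ, hσ, rfl⟩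
        have h2 := hMn.conj_mem σ hσ (⟨α, hα⟩⁻¹ : K)
        refine ⟨_, h2, ?_⟩
        simp) (by
        apply IsPGroup.of_card (n := i)
        rw [← hMc]
        exact Subgroup.card_map_of_injective (Subgroup.subtype_injective _))
      rw [Subgroup.map_eq_bot_iff, Subgroup.ker_subtype] at h2
      exact hM.2.1 (le_bot_iff.mp h2)
    · exact h1
  subst htq
  have hi1 : i = 1 := by
    by_contra hne
    apply hq2
    rw [hMc] at hMd
    exact (Nat.pow_dvd_pow t (by omega)).trans hMd
  rw [hi1, pow_one] at hMc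
  have hft : Fact t.Prime := ⟨ht⟩
  have hMcyc : IsCyclic M := isCyclic_of_prime_card hMc
  obtain ⟨y, hy⟩ := hMcyc.exists_generator
  have hyo : orderOf y = t := by rw [orderOf_eq_card_of_forall_mem_zpowers hy, hMc]
  obtain ⟨c, hc⟩ := exists_prime_orderOf_dvd_card' p hpd
  -- the conjugate of `y`
  obtain ⟨j, hj⟩ : ∃ j : ℕ, c * (y : K) * c⁻¹ = (y : K) ^ j := by
    have h1 := hMn.conj_mem y y.2 c
    classical
    obtain ⟨n, -, hn⟩ := Finset.mem_image.mp ((isOfFinOrder_of_finite y).mem_zpowers_iff_mem_range_orderOf.mp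
      (hy ⟨_, h1⟩))
    exact ⟨n, (congrArg (fun z : M => (z : K)) hn).symm⟩
  have hirrN := h.irr_range
  have hy1 : ((y : K) : MulAut N) ≠ 1 := by
    intro h1
    have h2 : y = 1 := Subtype.ext (Subtype.ext h1)
    rw [h2, orderOf_one] at hyo
    exact ht.one_lt.ne hyo
  have hyz : ∀ m ∈ M, ∃ n : ℕ, m = (y : K) ^ n := by
    intro m hm
    classical
    obtain ⟨n, -, hn⟩ := Finset.mem_image.mp ((isOfFinOrder_of_finite y).mem_zpowers_iff_mem_range_orderOf.mp
      (hy ⟨m, hm⟩))
    exact ⟨n, (congrArg (fun z : M => (z : K)) hn).symm⟩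
  have hfix : ∀ x : N, ((y : K) : MulAut N) x = x → x = 1 := by
    let L : Subgroup N :=
      { carrier := {x | ((y : K) : MulAut N) x = x}
        mul_mem' := fun {a b} ha hb => by
          show ((y : K) : MulAut N) (a * b) = a * b
          rw [map_mul, show ((y : K) : MulAut N) a = a from ha,
            show ((y : K) : MulAut N) b = b from hb]
        one_mem' := map_one _
        inv_mem' := fun {a} ha => by
          show ((y : K) : MulAut N) a⁻¹ = a⁻¹
          rw [map_inv, show ((y : K) : MulAut N) a = a from ha] }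
    have hLn : ∀ x ∈ L, ∀ n : ℕ, (((y : K) : MulAut N) ^ n) x = x := by
      intro x hx n
      induction n with
      | zero => simp
      | succ n ih =>
        rw [pow_succ, MulAut.mul_apply, show ((y : K) : MulAut N) x = x from hx]
        exact ih
    rcases hirrN L (by
      intro α hα x hx
      obtain ⟨n, hn⟩ := hyz _ (hMn.conj_mem y y.2 (⟨α, hα⟩⁻¹ : K))
      have h1 : α⁻¹ * ((y : K) : MulAut N) * α = ((y : K) : MulAut N) ^ n := by
        have h2 := congrArg (fun z : K => (z : MulAut N)) hn
        simpa using h2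
      show ((y : K) : MulAut N) (α x) = α x
      have h3 : ((y : K) : MulAut N) (α x) = α ((α⁻¹ * ((y : K) : MulAut N) * α) x) := by simp
      rw [h3, h1, hLn x hx n]) with h1 | h1
    · intro x hx
      have h2 : x ∈ L := hx
      rw [h1, Subgroup.mem_bot] at h2
      exact h2
    · exfalso
      apply hy1
      ext x
      have h2 : x ∈ L := by rw [h1]; trivial
      exact congrArg _ h2
  have hcomm := @frob_comm N (cg N h.comm) _ p t a hfp ht (fun x => Subtype.ext (h.exp x x.2))
    h.card h.pos hord hpa ((y : K) : MulAut N) (c : MulAut N)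
    (by rw [Subgroup.orderOf_coe, Subgroup.orderOf_coe, hyo]) hfix j
    (by
      have := congrArg (fun z : K => (z : MulAut N)) hj
      simpa using this)
    (by
      have h1 : c ^ p = 1 := by rw [← hc, pow_orderOf_eq_one]
      exact congrArg (fun z : K => (z : MulAut N)) h1)
  have hcommK : c * (y : K) = y * c := Subtype.ext hcomm
  -- `y` is central
  have hcard : Nat.card K ∣ p * t := by
    have h1 : ∀ s, s.Prime → ∀ i, s ^ i ∣ Nat.card K → s ^ i ∣ p * t := by
      intro s hs i hsi
      rcases Nat.eq_zero_or_pos i with h0 | h0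
      · rw [h0, pow_zero]
        exact one_dvd _
      have hsd : s ∣ Nat.card K := (dvd_pow_self s h0.ne').trans hsi
      have hi1 : i = 1 := by
        by_contra hne
        have h3 : s ^ 2 ∣ Nat.card K := (Nat.pow_dvd_pow s (by omega)).trans hsi
        rcases hprimes s hs hsd with h2 | h2
        · rw [h2] at h3
          exact hp2 h3
        · rw [h2] at h3
          exact hq2 h3
      rw [hi1, pow_one]
      rcases hprimes s hs hsd with h2 | h2
      · rw [h2]
        exact dvd_mul_right _ _
      · rw [h2]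
        exact dvd_mul_left _ _
    exact (Nat.dvd_iff_prime_pow_dvd_dvd _ _).mpr (fun s i hs hsi => h1 s hs i hsi)
  have hZ : Subgroup.centralizer ({(y : K)} : Set K) = ⊤ := by
    apply Subgroup.eq_top_of_card_eq
    apply Nat.dvd_antisymm (Subgroup.card_subgroup_dvd_card _)
    refine hcard.trans ?_
    refine Nat.Coprime.mul_dvd_of_dvd_of_dvd ((Nat.coprime_primes h.prime ht).mpr hpq) ?_ ?_
    · have h1 : c ∈ Subgroup.centralizer ({(y : K)} : Set K) := by
        rw [Subgroup.mem_centralizer_singleton_iff]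
        exact hcommK
      have h2 := orderOf_dvd_natCard (⟨c, h1⟩ : Subgroup.centralizer ({(y : K)} : Set K))
      rwa [← Subgroup.orderOf_coe, hc] at h2
    · have h1 : (y : K) ∈ Subgroup.centralizer ({(y : K)} : Set K) := by
        rw [Subgroup.mem_centralizer_singleton_iff]
      have h2 := orderOf_dvd_natCard (⟨y, h1⟩ : Subgroup.centralizer ({(y : K)} : Set K))
      rwa [Subgroup.orderOf_mk, Subgroup.orderOf_coe, hyo] at h2
  have hMcen : ∀ x ∈ M, ∀ z, x * z = z * x := by
    intro x hx z
    obtain ⟨n, rfl⟩ := hyz x hx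
    have h1 : z ∈ Subgroup.centralizer ({(y : K)} : Set K) := by rw [hZ]; trivial
    rw [Subgroup.mem_centralizer_singleton_iff] at h1
    exact ((show Commute z (y : K) from h1).pow_right n).eq.symm
  have hKcomm : ∀ x z : K, x * z = z * x := by
    apply comm_of_quot M hMcen
    have h1 : Nat.card (K ⧸ M) = p := by
      have h2 := Subgroup.card_eq_card_quotient_mul_card_subgroup M
      rw [hMc] at h2
      rw [h2] at hcard hpd
      have h3 : Nat.card (K ⧸ M) ∣ p := Nat.dvd_of_mul_dvd_mul_right ht.pos hcard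
      rcases (Nat.dvd_prime h.prime).mp h3 with h4 | h4
      · rw [h4, one_mul] at hpd
        exact absurd ((Nat.prime_dvd_prime_iff_eq h.prime ht).mp hpd) hpq
      · exact h4
    exact isCyclic_of_prime_card h1
  have h2 := h.fix (Subgroup.zpowers (c : MulAut N)) (by
    intro α hα σ hσ
    have h3 : ∀ σ' ∈ Subgroup.zpowers (c : MulAut N), α⁻¹ * σ' * α = σ' := by
      intro σ' hσ'
      obtain ⟨n, rfl⟩ := Subgroup.mem_zpowers_iff.mp hσ'
      have h4 : Commute (c : MulAut N) α := congrArg (fun z : K => (z : MulAut N)) (hKcomm c ⟨α, hα⟩)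
      rw [mul_assoc, (h4.zpow_left n).eq, inv_mul_cancel_left]
    rw [h3 σ hσ]
    exact hσ) (by
    apply IsPGroup.of_card (n := 1)
    rw [Nat.card_zpowers, Subgroup.orderOf_coe, hc, pow_one])
  rw [Subgroup.zpowers_eq_bot] at h2
  have h3 : c = 1 := Subtype.ext h2
  rw [h3, orderOf_one] at hc
  exact h.prime.one_lt.ne hc

theorem caseA {p q a m w : ℕ} (hp : p.Prime) (hq : q.Prime) (hpq : p ≠ q) (ha : 2 ≤ a)
    (hord1 : q ∣ p ^ a - 1) (hord2 : ∀ l, 0 < l → l < a → ¬ q ∣ p ^ l - 1)
    (hm : Squarefree m) (hqm : ¬ q ∣ m) (hw : a ≤ w) (hwa : w ≤ a + 1)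
    (hpw : ¬ p ^ (w + 1) ∣ p ^ a * (q * m)) (hwm : a < w → ¬ p ∣ a)
    (ht : ∀ t, t.Prime → t ∣ m → t ≠ p → ∀ l, 0 < l → l ≤ w → ¬ t ∣ p ^ l - 1)
    {X : Type} [Group X] [Finite X] (hX : Nat.card X ∣ p ^ a * (q * m))
    (hsol : Group.IsSolvable X) (hnss : ¬ SS X) (hno : NoPrime X)
    (IH : ∀ (Y : Type) (_ : Group Y), Nat.card Y ∣ Nat.card X → Nat.card Y < Nat.card X →
      ¬ p ^ a ∣ Nat.card Y → SS Y) :
    ∃ (E : Type) (_ : Field E) (_ : Finite E) (θ : Eˣ), Nat.card E = p ^ a ∧ orderOf θ = q ∧
      Nonempty (Aff E (Subgroup.zpowers θ) ≃* X) := by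
  have hqm2 : Squarefree (q * m) := by
    rw [Nat.squarefree_mul_iff]
    exact ⟨(Nat.Prime.coprime_iff_not_dvd hq).mpr hqm, hq.squarefree, hm⟩
  have hplow : ∀ k B, p ^ k ∣ B → B ∣ p ^ a * (q * m) → k ≤ w := by
    intro k B h1 h2
    by_contra hcon
    exact hpw ((Nat.pow_dvd_pow p (by omega)).trans (h1.trans h2))
  have hnt : Nontrivial X := by
    rw [← not_subsingleton_iff_nontrivial]
    intro h
    exact hnss SS.of_subsingleton
  obtain ⟨N, s, k, h⟩ := exists_minData hsol
  have hNn := h.normal
  have hk2 := h.two_le hno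
  have hcr := h.card_range
  have hAfin : Finite (MulAut N) := finite_mulAut' N
  have hsk : s ^ k ∣ p ^ a * (q * m) := by
    rw [← h.card]
    exact ((Subgroup.card_subgroup_dvd_card N).trans hX)
  have hsp : s = p := by
    by_contra hne
    exact sq_not_dvd h.prime hqm2 (prime_pow_dvd_of h.prime hp hne
      ((Nat.pow_dvd_pow s hk2).trans hsk))
  subst hsp
  have hkw : k ≤ w := hplow k _ hsk dvd_rfl
  have hKd : Nat.card (cj N).range ∣ s ^ a * (q * m) := (dvd_mul_left _ _).trans (hcr.trans hX)
  have hprimes : ∀ t, t.Prime → t ∣ s ^ a * (q * m) → t = s ∨ t = q ∨ t ∣ m := by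
    intro t ht1 ht2
    rcases (Nat.Prime.dvd_mul ht1).mp ht2 with h1 | h1
    · left
      exact (Nat.prime_dvd_prime_iff_eq ht1 hp).mp (ht1.dvd_of_dvd_pow h1)
    · right
      rcases (Nat.Prime.dvd_mul ht1).mp h1 with h1 | h1
      · left
        exact (Nat.prime_dvd_prime_iff_eq ht1 hq).mp h1
      · right
        exact h1
  have hKprimes : ∀ t, t.Prime → t ∣ Nat.card (cj N).range → t = s ∨ t = q := by
    intro t ht1 ht2
    by_cases hts : t = s
    · exact Or.inl hts
    right
    obtain ⟨l, hl1, hl2, hl3⟩ := h.dvd_of_prime ht1 hts ht2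
    rcases hprimes t ht1 (ht2.trans hKd) with h1 | h1 | h1
    · exact absurd h1 hts
    · exact h1
    · exact absurd hl3 (ht t ht1 h1 hts l hl1 (hl2.trans hkw))
  have hq2 : ¬ q ^ 2 ∣ Nat.card (cj N).range := by
    intro h1
    exact sq_not_dvd hq hqm2 (prime_pow_dvd_of hq hp hpq.symm (h1.trans hKd))
  have hqK : q ∣ Nat.card (cj N).range := by
    by_contra hcon
    apply h.not_pgroup hno
    obtain ⟨j, hj⟩ := isPGroup_of_primes (K := (cj N).range) (p := s) (by
      intro t ht1 ht2
      rcases hKprimes t ht1 ht2 with h1 | h1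
      · exact h1
      · rw [h1] at ht2
        exact absurd ht2 hcon)
    exact IsPGroup.of_card hj
  have hak : a ≤ k := by
    obtain ⟨l, hl1, hl2, hl3⟩ := h.dvd_of_prime hq hpq.symm hqK
    by_contra hcon
    exact hord2 l hl1 (by omega) hl3
  have hpK : ¬ s ∣ Nat.card (cj N).range := by
    intro hpd
    have h1 : s ^ (k + 1) ∣ s ^ a * (q * m) := by
      rw [pow_succ, ← h.card]
      exact (Nat.mul_dvd_mul_left _ hpd).trans (hcr.trans hX)
    have h2 := hplow _ _ h1 dvd_rfl
    have hka : k = a := by omega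
    subst hka
    apply no_pq hsol h hq hpq hord2 (hwm (by omega)) hpd hKprimes _ hq2
    intro h3
    have h4 : s ^ (k + 2) ∣ s ^ k * (q * m) := by
      rw [pow_add, ← h.card]
      exact (Nat.mul_dvd_mul_left _ h3).trans (by rw [h.card]; rw [h.card] at hcr; exact hcr.trans hX)
    have := hplow _ _ h4 dvd_rfl
    omega
  obtain ⟨j, hj⟩ := isPGroup_of_primes (K := (cj N).range) (p := q) (by
    intro t ht1 ht2
    rcases hKprimes t ht1 ht2 with h1 | h1
    · rw [h1] at ht2
      exact absurd ht2 hpK
    · exact h1)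
  have hj1 : j = 1 := by
    have h1 : ¬ 2 ≤ j := by
      intro h2
      apply hq2
      rw [hj]
      exact Nat.pow_dvd_pow q h2
    have h2 : j ≠ 0 := by
      rintro rfl
      rw [hj, pow_zero] at hqK
      exact hq.one_lt.ne' (Nat.dvd_one.mp hqK)
    omega
  rw [hj1, pow_one] at hj
  have hfq : Fact q.Prime := ⟨hq⟩
  have hcyc : IsCyclic (cj N).range := isCyclic_of_prime_card hj
  -- `k = a`
  have hka : k = a := by
    obtain ⟨α, hα⟩ := hcyc.exists_generator
    have hαo : orderOf α = q := by rw [orderOf_eq_card_of_forall_mem_zpowers hα, hj]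
    obtain ⟨l, hl1, hl2, hl3, hl4⟩ := exists_dvd_of_aut_pow (b := 0) hp hq hpq h.card
      (α : MulAut N) (by rw [Subgroup.orderOf_coe, hαo, zero_add, pow_one])
    have hlk : l = k := by
      apply hl4
      let L : Subgroup N :=
        { carrier := {x | (α : MulAut N) x = x}
          mul_mem' := fun {a b} ha hb => by
            show (α : MulAut N) (a * b) = a * b
            rw [map_mul, show (α : MulAut N) a = a from ha, show (α : MulAut N) b = b from hb]
          one_mem' := map_one _
          inv_mem' := fun {a} ha => by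
            show (α : MulAut N) a⁻¹ = a⁻¹
            rw [map_inv, show (α : MulAut N) a = a from ha] }
      rcases h.irr_range L (by
        intro β hβ x hx
        obtain ⟨n, hn⟩ := Subgroup.mem_zpowers_iff.mp (hα ⟨β, hβ⟩)
        have h1 : Commute (α : MulAut N) β := by
          have h2 : β = (α : MulAut N) ^ n := (congrArg (fun z : (cj N).range => (z : MulAut N)) hn).symm
          rw [h2]
          exact (Commute.refl _).zpow_right n
        show (α : MulAut N) (β x) = β x
        rw [← MulAut.mul_apply, h1.eq, MulAut.mul_apply, show (α : MulAut N) x = x from hx]) with h1 | h1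
      · intro x hx
        have h2 : x ∈ L := by
          show (α : MulAut N) x = x
          have h3 : ((α : MulAut N) ^ q ^ 0) x = x := hx
          rwa [pow_zero, pow_one] at h3
        rw [h1] at h2
        exact h2
      · exfalso
        have h2 : α = 1 := by
          apply Subtype.ext
          ext x
          have h3 : x ∈ L := by rw [h1]; trivial
          exact congrArg _ h3
        rw [h2, orderOf_one] at hαo
        exact hq.one_lt.ne hαo
    rw [zero_add, pow_one, hlk] at hl3
    by_contra hne
    have hk1 : k = a + 1 := by omega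
    rw [hk1] at hl3
    apply hord2 1 one_pos (by omega)
    rw [pow_one]
    have h1 : s ^ (a + 1) - 1 = s * (s ^ a - 1) + (s - 1) := by
      have h2 : 1 ≤ s ^ a := Nat.one_le_pow _ _ hp.pos
      have h3 : 1 ≤ s := hp.one_lt.le
      rw [pow_succ']
      zify [h2, h3, Nat.mul_le_mul h3 h2, show 1 ≤ s * s ^ a from Nat.mul_le_mul h3 h2]
      ring
    rw [h1] at hl3
    exact (Nat.dvd_add_right (hord1.mul_left s)).mp hl3
  subst hka
  have hssq : SS (X ⧸ N) := by
    apply IH
    · exact Subgroup.card_quotient_dvd_card N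
    · rw [Subgroup.card_eq_card_quotient_mul_card_subgroup N, h.card]
      have h1 : 1 < s ^ k := Nat.one_lt_pow (by omega) hp.one_lt
      have h2 : 0 < Nat.card (X ⧸ N) := Nat.card_pos
      nlinarith
    · intro hd
      have h1 : s ^ (k + k) ∣ Nat.card X := by
        rw [Subgroup.card_eq_card_quotient_mul_card_subgroup N, h.card, pow_add]
        exact Nat.mul_dvd_mul_right hd _
      have := hplow _ _ h1 hX
      omega
  apply finish_cyclic h _ hcyc hj ((Nat.coprime_primes hp hq).mpr hpq)
  intro g hg
  by_contra hgN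
  obtain ⟨L, hL1, hL2, hL3, hL4, hL5⟩ := self_cent hno N hp h.exp h.comm hssq ⟨g, hgN, hg⟩
  have hLc : Nat.card L = s ^ (k + 1) := by rw [hL3, h.card, pow_succ']
  apply norm_trick hno N L hp hL5 hL4
  · by_contra hcon
    push Not at hcon
    have h1 := Subgroup.card_le_of_le hcon
    rw [hLc, h.card] at h1
    have := Nat.pow_lt_pow_right hp.one_lt (by omega : k < k + 1)
    omega
  · -- the action on `L ⧸ N` is trivial
    set π := QuotientGroup.mk' N with hπ
    have hπs : Surjective π := QuotientGroup.mk'_surjective N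
    have hRn : (L.map π).Normal := hL1.map π hπs
    have hRc : Nat.card (L.map π) = s := by
      have h1 : (L.map π).index = L.index := by
        rw [Subgroup.index_map, hπ, QuotientGroup.ker_mk', sup_eq_left.mpr hL2,
          (MonoidHom.range_eq_top.mpr hπs), Subgroup.index_top, mul_one]
      have h2 := Subgroup.card_mul_index L
      have h3 := Subgroup.card_mul_index (L.map π)
      have h4 := Subgroup.card_eq_card_quotient_mul_card_subgroup N
      rw [← h2, ← h3, h1, hL3] at h4
      have h5 : 0 < L.index * Nat.card N :=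
        Nat.mul_pos (Nat.pos_of_ne_zero Subgroup.FiniteIndex.index_ne_zero) Nat.card_pos
      have h6 : s * (L.index * Nat.card N) = Nat.card (L.map π) * (L.index * Nat.card N) := by
        calc s * (L.index * Nat.card N) = s * Nat.card N * L.index := by ring
          _ = Nat.card (L.map π) * L.index * Nat.card N := h4
          _ = _ := by ring
      exact (Nat.eq_of_mul_eq_mul_right h5 h6).symm
    have hcop : Nat.Coprime (Nat.card (X ⧸ N)) (s - 1) := by
      apply Nat.Coprime.coprime_dvd_left ((Subgroup.card_quotient_dvd_card N).trans hX)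
      rw [Nat.coprime_iff_gcd_eq_one]
      by_contra hne
      obtain ⟨t, ht1, ht2⟩ := Nat.exists_prime_and_dvd hne
      have h1 : t ∣ s ^ 1 - 1 := by
        rw [pow_one]
        exact ht2.trans (Nat.gcd_dvd_right _ _)
      rcases hprimes t ht1 (ht2.trans (Nat.gcd_dvd_left _ _)) with h2 | h2 | h2
      · subst h2
        rw [pow_one] at h1
        have := Nat.le_of_dvd (by have := hp.two_le; omega) h1
        have := hp.two_le
        omega
      · rw [h2] at h1
        exact hord2 1 one_pos (by omega) h1
      · by_cases hts : t = s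
        · rw [hts, pow_one] at h1
          have := Nat.le_of_dvd (by have := hp.two_le; omega) h1
          have := hp.two_le
          omega
        · exact ht t ht1 h2 hts 1 one_pos (by omega) h1
    intro g x hx
    have h1 := comm_of_coprime (L.map π) hp hRc hcop (π g) (π x) ⟨x, hx, rfl⟩
    rw [← QuotientGroup.ker_mk' N, MonoidHom.mem_ker]
    show π (g * x * g⁻¹ * x⁻¹) = 1
    rw [map_mul, map_mul, map_mul, h1, map_inv, map_inv]
    group
  · intro hd
    have h1 : s ^ (k + 2) ∣ Nat.card X := by
      rw [← Subgroup.card_mul_index L, hLc, pow_succ]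
      exact Nat.mul_dvd_mul_left _ hd
    have := hplow _ _ h1 hX
    omega

end Pool.Agent.Lib.MP_4f0ec0_al
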