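import Mathlib
import Pool.Agent.Lib.MP_4f0ec0_al.Core

/-! Definitions for Q1 and the necessary conditions. -/

namespace Pool.Agent.Lib.MP_4f0ec0_al

open Nat

/-- `n` is almost solvable: up to isomorphism there is exactly one non-solvable group of order
`n`. -/
def AlmostSolvable (n : ℕ) : Prop :=
  (∃ (G : Type) (_ : Group G), Nat.card G = n ∧ ¬ Group.IsSolvable G) ∧
    ∀ (G H : Type) (_ : Group G) (_ : Group H), Nat.card G = n → Nat.card H = n →
      ¬ Group.IsSolvable G → ¬ Group.IsSolvable H → Nonempty (G ≃* H)

/-- The order of the outer automorphism group: the index of the inner automorphisms. -/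
noncomputable def outOrder (S : Type) [Group S] : ℕ :=
  (MulAut.conj : S →* MulAut S).range.index

/-- There is a perfect group of order `r * |S|` that maps onto `S`. For `r` prime this says that
`r` divides the order of the Schur multiplier of the perfect group `S`. -/
def HasPerfectCover (S : Type) [Group S] (r : ℕ) : Prop :=
  ∃ (E : Type) (_ : Group E), Group.IsPerfect E ∧ Nat.card E = r * Nat.card S ∧
    ∃ f : E →* S, Function.Surjective f

instance conj_range_normal (S : Type) [Group S] : (MulAut.conj : S →* MulAut S).range.Normal := by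
  refine ⟨?_⟩
  rintro _ ⟨s, rfl⟩ α
  refine ⟨α s, ?_⟩
  ext x
  simp [MulAut.conj_apply, mul_assoc]

lemma conj_injective {S : Type} [Group S] (h : Subgroup.center S = ⊥) :
    Function.Injective (MulAut.conj : S →* MulAut S) := by
  rw [← MonoidHom.ker_eq_bot_iff, eq_bot_iff]
  intro s hs
  rw [← h, Subgroup.mem_center_iff]
  intro g
  have h1 := congrArg (fun (a : MulAut S) => a g) (MonoidHom.mem_ker.mp hs)
  simp only [MulAut.conj_apply, MulAut.one_apply] at h1
  calc g * s = s * g * s⁻¹ * s := by rw [h1]
    _ = s * g := by group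

lemma card_center_prod (A B : Type) [Group A] [Group B] :
    Nat.card (Subgroup.center (A × B)) =
      Nat.card (Subgroup.center A) * Nat.card (Subgroup.center B) := by
  rw [← Nat.card_prod]
  refine Nat.card_congr ⟨fun x => (⟨x.1.1, ?_⟩, ⟨x.1.2, ?_⟩), fun y => ⟨(y.1.1, y.2.1), ?_⟩,
    fun x => rfl, fun y => rfl⟩
  · rw [Subgroup.mem_center_iff]
    intro g
    have := Subgroup.mem_center_iff.mp x.2 (g, 1)
    exact congrArg Prod.fst this
  · rw [Subgroup.mem_center_iff]
    intro g
    have := Subgroup.mem_center_iff.mp x.2 (1, g)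
    exact congrArg Prod.snd this
  · rw [Subgroup.mem_center_iff]
    intro g
    exact Prod.ext (Subgroup.mem_center_iff.mp y.1.2 g.1) (Subgroup.mem_center_iff.mp y.2.2 g.2)

lemma card_center_congr {A B : Type} [Group A] [Group B] (e : A ≃* B) :
    Nat.card (Subgroup.center A) = Nat.card (Subgroup.center B) := by
  refine Nat.card_congr ⟨fun x => ⟨e x.1, ?_⟩, fun y => ⟨e.symm y.1, ?_⟩, fun x => by simp,
    fun y => by simp⟩
  · rw [Subgroup.mem_center_iff]
    intro g
    have := Subgroup.mem_center_iff.mp x.2 (e.symm g)
    apply e.symm.injective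
    simpa using this
  · rw [Subgroup.mem_center_iff]
    intro g
    have := Subgroup.mem_center_iff.mp y.2 (e g)
    apply e.injective
    simpa using this

lemma card_center_comm (C : Type) [CommGroup C] : Nat.card (Subgroup.center C) = Nat.card C := by
  rw [CommGroup.center_eq_top]
  exact Nat.card_congr (Subgroup.topEquiv (G := C)).toEquiv

/-- The cyclic group of order `m`, multiplicatively. -/
abbrev Cyc (m : ℕ) : Type := Multiplicative (ZMod m)

lemma card_Cyc {m : ℕ} : Nat.card (Cyc m) = m :=
  (Nat.card_congr Multiplicative.toAdd).trans (Nat.card_zmod m)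

lemma simple_equiv_of_prod {S T C C' : Type} [Group S] [Group T] [CommGroup C] [CommGroup C']
    (hS : NonabSimple S) (hT : NonabSimple T) (e : T × C' ≃* S × C) : Nonempty (T ≃* S) := by
  have hfS : Finite S := hS.1
  have hfT : Finite T := hT.1
  have key : ∀ {S T C C' : Type} [Group S] [Group T] [CommGroup C] [CommGroup C'],
      NonabSimple T → (T × C' ≃* S × C) → ∃ f : T →* S, Function.Injective f := by
    intro S T C C' _ _ _ _ hT e
    refine ⟨(MonoidHom.fst S C).comp (e.toMonoidHom.comp (MonoidHom.inl T C')), ?_⟩
    rw [injective_iff_map_eq_one]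
    intro t ht
    have h2 : ((MonoidHom.snd S C).comp (e.toMonoidHom.comp (MonoidHom.inl T C'))) t = 1 :=
      hT.hom_trivial (fun a b => mul_comm a b) _ t
    have h3 : e (t, 1) = 1 := Prod.ext ht h2
    have h4 : ((t, 1) : T × C') = 1 := by
      apply e.injective
      rw [h3, map_one]
    exact congrArg Prod.fst h4
  obtain ⟨f, hf⟩ := key hT e
  obtain ⟨g, hg⟩ := key hS e.symm
  have h1 := Nat.card_le_card_of_injective f hf
  have h2 := Nat.card_le_card_of_injective g hg
  have hbij : Function.Bijective f := (Nat.bijective_iff_injective_and_card f).mpr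
    ⟨hf, le_antisymm h1 h2⟩
  exact ⟨MulEquiv.ofBijective f hbij⟩

/-- Every nonsolvable finite group has a nonabelian simple section of order dividing its order. -/
lemma exists_simple_dvd (G : Type) [Group G] [Finite G] (h : ¬ Group.IsSolvable G) :
    ∃ (S : Type) (_ : Group S), NonabSimple S ∧ Nat.card S ∣ Nat.card G := by
  obtain ⟨D, hD1, hD2, hD3⟩ := exists_perfect_core G h
  have hnt : Nontrivial D := (Subgroup.nontrivial_iff_ne_bot D).mpr hD3
  obtain ⟨M, hM1, hM2⟩ := exists_simple_quotient D
  have hnt' : Nontrivial (D ⧸ M) := hM2.toNontrivial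
  refine ⟨D ⧸ M, inferInstance, ⟨inferInstance, hM2, not_comm_of_perfect _⟩, ?_⟩
  exact (Subgroup.card_quotient_dvd_card M).trans (Subgroup.card_subgroup_dvd_card D)

lemma prod_not_solvable {S : Type} [Group S] (hS : NonabSimple S) (B : Type) [Group B] :
    ¬ Group.IsSolvable (S × B) := by
  intro h
  apply hS.not_solvable
  exact Group.isSolvable_of_isSolvable_injective (f := MonoidHom.inl S B)
    (fun a b hab => congrArg Prod.fst hab)

/-- Necessary conditions for `n` to be almost solvable. -/
theorem forward {n : ℕ} (hn : 0 < n) (h : AlmostSolvable n) :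
    ∃ (S : Type) (_ : Group S), NonabSimple S ∧ Nat.card S ∣ n ∧
      (∀ (T : Type) (_ : Group T), NonabSimple T → Nat.card T ∣ n → Nonempty (T ≃* S)) ∧
      Nat.Coprime (n / Nat.card S) (φ (n / Nat.card S)) ∧
      Nat.Coprime (n / Nat.card S) (outOrder S) ∧
      ∀ r, r.Prime → r ∣ n / Nat.card S → ¬ HasPerfectCover S r := by
  obtain ⟨⟨G, hG, hGn, hGs⟩, huniq⟩ := h
  have hfin : Finite G := Nat.finite_of_card_ne_zero (by omega)
  obtain ⟨S, hSg, hS, hSd⟩ := exists_simple_dvd G hGs
  rw [hGn] at hSd
  have hSfin : Finite S := hS.1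
  have hSpos : 0 < Nat.card S := Nat.card_pos
  obtain ⟨m, rfl⟩ := hSd
  have hm : m ≠ 0 := by
    rintro rfl
    simp at hn
  have : NeZero m := ⟨hm⟩
  have hdiv : Nat.card S * m / Nat.card S = m := Nat.mul_div_cancel_left m hSpos
  refine ⟨S, hSg, hS, dvd_mul_right _ _, ?_, ?_, ?_, ?_⟩
  · intro T hTg hT hTd
    obtain ⟨t, ht⟩ := hTd
    have hTfin : Finite T := hT.1
    have ht0 : t ≠ 0 := by
      rintro rfl
      simp at ht
      omega
    have : NeZero t := ⟨ht0⟩
    obtain ⟨e⟩ := huniq (T × Cyc t) (S × Cyc m) inferInstance inferInstance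
      (by rw [Nat.card_prod, card_Cyc, ht]) (by rw [Nat.card_prod, card_Cyc])
      (prod_not_solvable hT _) (prod_not_solvable hS _)
    exact simple_equiv_of_prod hS hT e
  · rw [hdiv]
    by_contra hcon
    obtain ⟨B, hBg, hBc, hB⟩ := exists_not_cyclic hm hcon
    have hBfin : Finite B := Nat.finite_of_card_ne_zero (by rw [hBc]; exact hm)
    obtain ⟨e⟩ := huniq (S × B) (S × Cyc m) inferInstance inferInstance
      (by rw [Nat.card_prod, hBc]) (by rw [Nat.card_prod, card_Cyc])
      (prod_not_solvable hS _) (prod_not_solvable hS _)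
    exact hB (isCyclic_of_prod_equiv e)
  · rw [hdiv]
    by_contra hcon
    obtain ⟨r, hr, hrm, hro⟩ := Nat.Prime.not_coprime_iff_dvd.mp hcon
    have : Fact r.Prime := ⟨hr⟩
    set I : Subgroup (MulAut S) := (MulAut.conj : S →* MulAut S).range with hI
    have hIn : I.Normal := conj_range_normal S
    have hIcard : Nat.card I = Nat.card S :=
      (Nat.card_congr (MonoidHom.ofInjective (conj_injective (center_eq_bot hS))).toEquiv).symm
    have hAfin : Finite (MulAut S) := by
      have : Finite (S ≃ S) := inferInstance
      exact Finite.of_injective (fun a : MulAut S => a.toEquiv) (fun a b hab => by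
        ext x
        exact congrArg (fun e : S ≃ S => e x) hab)
    obtain ⟨x, hx⟩ := exists_prime_orderOf_dvd_card' (G := MulAut S ⧸ I) r (by exact hro)
    set R : Subgroup (MulAut S) := (Subgroup.zpowers x).comap (QuotientGroup.mk' I) with hR
    have hIR : I ≤ R := by
      intro a ha
      rw [hR, Subgroup.mem_comap]
      have : (QuotientGroup.mk' I) a = 1 := by
        rw [← MonoidHom.mem_ker, QuotientGroup.ker_mk']
        exact ha
      rw [this]
      exact Subgroup.one_mem _
    have hRcard : Nat.card R = r * Nat.card S := by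
      have h1 : R.index = (Subgroup.zpowers x).index :=
        Subgroup.index_comap_of_surjective _ (QuotientGroup.mk'_surjective I)
      have h2 := Subgroup.card_mul_index R
      have h3 := Subgroup.card_mul_index (Subgroup.zpowers x)
      have h4 := Subgroup.card_mul_index I
      rw [Nat.card_zpowers, hx] at h3
      have h5 : I.index = Nat.card (MulAut S ⧸ I) := rfl
      rw [h5, ← h3, ← h2, h1, hIcard] at h4
      have h6 : 0 < (Subgroup.zpowers x).index := Nat.pos_of_ne_zero Subgroup.FiniteIndex.index_ne_zero
      have h7 : Nat.card R * (Subgroup.zpowers x).index =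
          (r * Nat.card S) * (Subgroup.zpowers x).index := by
        rw [← h4]
        ring
      exact Nat.eq_of_mul_eq_mul_right h6 h7
    have hcenR : Subgroup.center R = ⊥ := by
      rw [eq_bot_iff]
      intro a ha
      rw [Subgroup.mem_bot]
      have h1 : ∀ s : S, (a : MulAut S) s = s := by
        intro s
        have h2 := Subgroup.mem_center_iff.mp ha ⟨MulAut.conj s, hIR ⟨s, rfl⟩⟩
        have h3 := congrArg (fun b : R => (b : MulAut S)) h2
        simp only [Subgroup.coe_mul] at h3
        apply conj_injective (center_eq_bot hS)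
        ext y
        have h4 := congrArg (fun b : MulAut S => b ((a : MulAut S).symm y)) h3
        simp only [MulAut.mul_apply, MulAut.conj_apply, map_mul, map_inv] at h4
        simp only [MulAut.conj_apply]
        rw [MulEquiv.apply_symm_apply] at h4
        exact h4.symm
      ext s
      exact h1 s
    obtain ⟨t, rfl⟩ := hrm
    have ht0 : t ≠ 0 := by
      rintro rfl
      simp at hm
    have : NeZero t := ⟨ht0⟩
    have hRns : ¬ Group.IsSolvable (R × Cyc t) := by
      intro hsol
      apply hS.not_solvable
      let f : S →* R × Cyc t :=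
        (MonoidHom.inl R (Cyc t)).comp (MulAut.conj.codRestrict R (fun s => hIR ⟨s, rfl⟩))
      refine Group.isSolvable_of_isSolvable_injective (f := f) (fun a b hab => ?_)
      apply conj_injective (center_eq_bot hS)
      exact congrArg (fun z : R × Cyc t => (z.1 : MulAut S)) hab
    obtain ⟨e⟩ := huniq (R × Cyc t) (S × Cyc (r * t)) inferInstance inferInstance
      (by rw [Nat.card_prod, card_Cyc, hRcard]; ring) (by rw [Nat.card_prod, card_Cyc])
      hRns (prod_not_solvable hS _)
    have h1 := card_center_congr e
    rw [card_center_prod, card_center_prod, hcenR, center_eq_bot hS, card_center_comm,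
      card_center_comm, card_Cyc, card_Cyc] at h1
    simp only [Subgroup.card_bot, one_mul] at h1
    have := hr.two_le
    have : 0 < t := Nat.pos_of_ne_zero ht0
    nlinarith
  · rw [hdiv]
    rintro r hr hrm ⟨E, hEg, hEp, hEc, f, hf⟩
    obtain ⟨t, rfl⟩ := hrm
    have ht0 : t ≠ 0 := by
      rintro rfl
      simp at hm
    have : NeZero t := ⟨ht0⟩
    have hns : ¬ Group.IsSolvable (E × Cyc t) := by
      intro hsol
      apply hS.not_solvable
      exact Group.isSolvable_of_surjective (f := f.comp (MonoidHom.fst E (Cyc t)))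
        (hf.comp Prod.fst_surjective)
    obtain ⟨e⟩ := huniq (E × Cyc t) (S × Cyc (r * t)) inferInstance inferInstance
      (by rw [Nat.card_prod, card_Cyc, hEc]; ring) (by rw [Nat.card_prod, card_Cyc])
      hns (prod_not_solvable hS _)
    -- project to the cyclic factor
    let g : E × Cyc t →* Cyc (r * t) := (MonoidHom.snd S (Cyc (r * t))).comp e.toMonoidHom
    have hg : Function.Surjective g := Prod.snd_surjective.comp e.surjective
    have hE1 : ∀ x : E, g (x, 1) = 1 := by
      intro x
      have h1 : (g.comp (MonoidHom.inl E (Cyc t))).range = ⊥ := by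
        have h2 : Group.IsPerfect (g.comp (MonoidHom.inl E (Cyc t))).range :=
          Group.IsPerfect.range _
        by_contra hne
        have : Nontrivial (g.comp (MonoidHom.inl E (Cyc t))).range :=
          (Subgroup.nontrivial_iff_ne_bot _).mpr hne
        obtain ⟨a, b, hab⟩ := not_comm_of_perfect (g.comp (MonoidHom.inl E (Cyc t))).range
        exact hab (mul_comm a b)
      have h2 : (g.comp (MonoidHom.inl E (Cyc t))) x ∈ (g.comp (MonoidHom.inl E (Cyc t))).range :=
        ⟨x, rfl⟩
      rw [h1] at h2
      exact Subgroup.mem_bot.mp h2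
    have hsurj : Function.Surjective (g.comp (MonoidHom.inr E (Cyc t))) := by
      intro y
      obtain ⟨⟨x, c⟩, hxc⟩ := hg y
      refine ⟨c, ?_⟩
      have h3 : ((x, c) : E × Cyc t) = (x, 1) * (1, c) := by simp
      rw [h3, map_mul, hE1, one_mul] at hxc
      exact hxc
    have h1 := Nat.card_le_card_of_surjective _ hsurj
    rw [card_Cyc, card_Cyc] at h1
    have := hr.two_le
    have : 0 < t := Nat.pos_of_ne_zero ht0
    nlinarith

end Pool.Agent.Lib.MP_4f0ec0_al
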