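import Mathlib
import Pool.Agent.Lib.MP_4f0ec0_al.Glue

/-! Monomial groups. -/

namespace Pool.Agent.Lib.MP_4f0ec0_al

open Function

section irred

variable {p : ℕ} [hp : Fact p.Prime] {I : Type} [Finite I] [DecidableEq I]

lemma smul_mem_addSubgroup {V : Type} [AddCommGroup V] [Module (ZMod p) V] (L : AddSubgroup V)
    (c : ZMod p) {x : V} (hx : x ∈ L) : c • x ∈ L := by
  obtain ⟨n, rfl⟩ : ∃ n : ℕ, (n : ZMod p) = c := ⟨c.val, ZMod.natCast_zmod_val c⟩
  rw [Nat.cast_smul_eq_nsmul]
  exact L.nsmul_mem hx n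

lemma mono_irred (L : AddSubgroup (I → ZMod p)) (d : I → ZMod p) (hd : Injective d)
    (hL : ∀ v ∈ L, (fun i => d i * v i) ∈ L)
    (htr : ∀ i j, ∃ c : ZMod p, c ≠ 0 ∧ (Pi.single i 1 ∈ L → Pi.single j c ∈ L)) :
    L = ⊥ ∨ L = ⊤ := by
  classical
  by_cases hbot : L = ⊥
  · exact Or.inl hbot
  right
  have : Fintype I := Fintype.ofFinite I
  have hne : ∃ v ∈ L, v ≠ 0 := by
    by_contra hcon
    push Not at hcon
    exact hbot (by rw [eq_bot_iff]; exact fun x hx => hcon x hx)
  obtain ⟨v, ⟨hv, hv0⟩, hmin⟩ := Set.Finite.exists_minimalFor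
    (fun v : I → ZMod p => (Finset.univ.filter (fun i => v i ≠ 0)).card)
    {v : I → ZMod p | v ∈ L ∧ v ≠ 0} (Set.toFinite _) hne
  obtain ⟨i, hi⟩ : ∃ i, v i ≠ 0 := by
    by_contra hcon
    push Not at hcon
    exact hv0 (funext hcon)
  have hsupp : ∀ j, j ≠ i → v j = 0 := by
    intro j hj
    by_contra hvj
    set w : I → ZMod p := (fun i => d i * v i) - d i • v with hw
    have hwL : w ∈ L := L.sub_mem (hL v hv) (smul_mem_addSubgroup L _ hv)
    have hwapp : ∀ k, w k = (d k - d i) * v k := by
      intro k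
      rw [hw]
      simp only [Pi.sub_apply, Pi.smul_apply, smul_eq_mul]
      ring
    have hwj : w j ≠ 0 := by
      rw [hwapp]
      exact mul_ne_zero (sub_ne_zero.mpr (fun h => hj (hd h))) hvj
    have hlt : (Finset.univ.filter (fun i => w i ≠ 0)).card <
        (Finset.univ.filter (fun i => v i ≠ 0)).card := by
      apply Finset.card_lt_card
      rw [Finset.ssubset_iff_of_subset]
      · refine ⟨i, by simp [hi], ?_⟩
        simp [hwapp]
      · intro k hk
        rw [Finset.mem_filter] at hk ⊢
        refine ⟨Finset.mem_univ _, fun h => hk.2 ?_⟩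
        rw [hwapp, h, mul_zero]
    have := hmin ⟨hwL, fun h => hwj (by rw [h]; rfl)⟩ hlt.le
    exact absurd hlt (not_lt.mpr this)
  have hvs : v = Pi.single i (v i) := by
    funext j
    by_cases hj : j = i
    · subst hj
      simp
    · rw [hsupp j hj, Pi.single_eq_of_ne hj]
  have h1 : Pi.single i (1 : ZMod p) ∈ L := by
    have h2 := smul_mem_addSubgroup L (v i)⁻¹ hv
    rw [hvs] at h2
    have h3 : (v i)⁻¹ • (Pi.single i (v i) : I → ZMod p) = Pi.single i 1 := by
      rw [← Pi.single_smul, smul_eq_mul, inv_mul_cancel₀ hi]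
    have h4 : (v i)⁻¹ • (Pi.single i (v i) : I → ZMod p) ∈ L := smul_mem_addSubgroup L _ (hvs ▸ hv)
    rwa [h3] at h4
  have h2 : ∀ j (x : ZMod p), (Pi.single j x : I → ZMod p) ∈ L := by
    intro j x
    obtain ⟨c, hc, h3⟩ := htr i j
    have h4 := smul_mem_addSubgroup L (x * c⁻¹) (h3 h1)
    rwa [← Pi.single_smul, smul_eq_mul, mul_assoc, inv_mul_cancel₀ hc, mul_one] at h4
  rw [eq_top_iff]
  intro x _
  rw [← Finset.univ_sum_single x]
  exact L.sum_mem fun j _ => h2 j (x j)

end irred

/-- Diagonal automorphisms. -/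
def diagAut (p : ℕ) (I : Type) : (I → (ZMod p)ˣ) →* MulAut (Multiplicative (I → ZMod p)) where
  toFun d :=
    { toFun := fun v => Multiplicative.ofAdd (fun i => (d i : ZMod p) * Multiplicative.toAdd v i)
      invFun := fun v => Multiplicative.ofAdd
        (fun i => ((d i)⁻¹ : (ZMod p)ˣ) * Multiplicative.toAdd v i)
      left_inv := fun v => by
        apply Multiplicative.toAdd.injective
        funext i
        simp
      right_inv := fun v => by
        apply Multiplicative.toAdd.injective
        funext i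
        simp
      map_mul' := fun v w => by
        apply Multiplicative.toAdd.injective
        funext i
        simp [mul_add] }
  map_one' := by
    ext v
    simp
  map_mul' d d' := by
    ext v
    simp [mul_assoc]

lemma diagAut_apply (p : ℕ) (I : Type) (d : I → (ZMod p)ˣ) (v : Multiplicative (I → ZMod p))
    (i : I) : Multiplicative.toAdd (diagAut p I d v) i = (d i : ZMod p) * Multiplicative.toAdd v i :=
  rfl

/-- Translations. -/
def shiftAut (p : ℕ) (B : Type) [CommGroup B] : B →* MulAut (Multiplicative (B → ZMod p)) where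
  toFun c :=
    { toFun := fun v => Multiplicative.ofAdd (fun b => Multiplicative.toAdd v (b * c))
      invFun := fun v => Multiplicative.ofAdd (fun b => Multiplicative.toAdd v (b * c⁻¹))
      left_inv := fun v => by
        apply Multiplicative.toAdd.injective
        funext b
        simp
      right_inv := fun v => by
        apply Multiplicative.toAdd.injective
        funext b
        simp
      map_mul' := fun v w => by
        apply Multiplicative.toAdd.injective
        funext b
        simp }
  map_one' := by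
    refine MulEquiv.ext fun v => Multiplicative.toAdd.injective (funext fun b => ?_)
    show Multiplicative.toAdd v (b * 1) = Multiplicative.toAdd v b
    rw [mul_one]
  map_mul' c c' := by
    refine MulEquiv.ext fun v => Multiplicative.toAdd.injective (funext fun b => ?_)
    show Multiplicative.toAdd v (b * (c * c')) = Multiplicative.toAdd v (b * c * c')
    rw [mul_assoc]

lemma shiftAut_apply (p : ℕ) (B : Type) [CommGroup B] (c : B) (v : Multiplicative (B → ZMod p))
    (b : B) : Multiplicative.toAdd (shiftAut p B c v) b = Multiplicative.toAdd v (b * c) := rfl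

/-- The character `x ↦ l ^ x`. -/
def chr {p R : ℕ} [NeZero R] (l : (ZMod p)ˣ) (hl : l ^ R = 1) :
    Multiplicative (ZMod R) →* (ZMod p)ˣ where
  toFun x := l ^ (Multiplicative.toAdd x).val
  map_one' := by simp
  map_mul' x y := by
    rw [toAdd_mul, ZMod.val_add, ← pow_add]
    conv_rhs => rw [← Nat.mod_add_div ((Multiplicative.toAdd x).val + (Multiplicative.toAdd y).val) R,
      pow_add, pow_mul l R, hl, one_pow, mul_one]

/-- Multiplication by units of `ZMod R`. -/
def zunitAut (R : ℕ) : (ZMod R)ˣ →* MulAut (Multiplicative (ZMod R)) where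
  toFun u :=
    { toFun := fun x => Multiplicative.ofAdd ((u : ZMod R) * Multiplicative.toAdd x)
      invFun := fun x => Multiplicative.ofAdd (((u⁻¹ : (ZMod R)ˣ) : ZMod R) * Multiplicative.toAdd x)
      left_inv := fun x => by simp
      right_inv := fun x => by simp
      map_mul' := fun x y => by
        rw [← ofAdd_add]
        congr 1
        rw [toAdd_mul, mul_add] }
  map_one' := by
    ext x
    simp
  map_mul' u v := by
    ext x
    simp [mul_assoc]

/-- The group `C_R ⋊ B` for `B ≤ (ZMod R)ˣ`. -/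
abbrev KD (R : ℕ) (B : Subgroup (ZMod R)ˣ) : Type :=
  Multiplicative (ZMod R) ⋊[(zunitAut R).comp B.subtype] B

/-- The diagonal part of the action. -/
def dgD {p R : ℕ} [NeZero R] (B : Subgroup (ZMod R)ˣ) (l : (ZMod p)ˣ) (hl : l ^ R = 1) :
    Multiplicative (ZMod R) →* (B → (ZMod p)ˣ) where
  toFun x := fun b => chr l hl (zunitAut R (b : (ZMod R)ˣ) x)
  map_one' := by
    funext b
    simp
  map_mul' x y := by
    funext b
    simp

/-- The action of `C_R ⋊ B` on the functions on `B`. -/
def actD {p R : ℕ} [NeZero R] (B : Subgroup (ZMod R)ˣ) (l : (ZMod p)ˣ) (hl : l ^ R = 1) :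
    KD R B →* MulAut (Multiplicative (B → ZMod p)) :=
  SemidirectProduct.lift ((diagAut p B).comp (dgD B l hl)) (shiftAut p B) (by
    intro c
    refine MonoidHom.ext fun x => MulEquiv.ext fun v =>
      Multiplicative.toAdd.injective (funext fun b => ?_)
    simp only [MonoidHom.comp_apply, MulEquiv.coe_toMonoidHom, MulAut.conj_apply,
      MulAut.mul_apply]
    rw [shiftAut_apply, diagAut_apply, diagAut_apply, ← map_inv, shiftAut_apply,
      mul_inv_cancel_right]
    congr 2
    show chr l hl (zunitAut R (b : (ZMod R)ˣ) (zunitAut R (c : (ZMod R)ˣ) x)) =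
      chr l hl (zunitAut R ((b * c : B) : (ZMod R)ˣ) x)
    rw [Subgroup.coe_mul, map_mul]
    rfl)

lemma actD_apply {p R : ℕ} [NeZero R] (B : Subgroup (ZMod R)ˣ) (l : (ZMod p)ˣ) (hl : l ^ R = 1)
    (x : Multiplicative (ZMod R)) (c : B) (v : Multiplicative (B → ZMod p)) (b : B) :
    Multiplicative.toAdd (actD B l hl ⟨x, c⟩ v) b =
      (l ^ (((b : (ZMod R)ˣ) : ZMod R) * Multiplicative.toAdd x).val : (ZMod p)ˣ) *
        Multiplicative.toAdd v (b * c) := rfl

/-- The model group `D`. -/
abbrev DM {p R : ℕ} [NeZero R] (B : Subgroup (ZMod R)ˣ) (l : (ZMod p)ˣ) (hl : l ^ R = 1) : Type :=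
  Multiplicative (B → ZMod p) ⋊[actD B l hl] (KD R B)

lemma card_DM {p R : ℕ} [NeZero R] (B : Subgroup (ZMod R)ˣ) (l : (ZMod p)ˣ)
    (hl : l ^ R = 1) : Nat.card (DM B l hl) = p ^ Nat.card B * (R * Nat.card B) := by
  rw [SemidirectProduct.card, SemidirectProduct.card]
  have h1 : Nat.card (Multiplicative (B → ZMod p)) = p ^ Nat.card B := by
    rw [Nat.card_congr Multiplicative.toAdd, Nat.card_fun, Nat.card_zmod]
  have h2 : Nat.card (Multiplicative (ZMod R)) = R := by
    rw [Nat.card_congr Multiplicative.toAdd, Nat.card_zmod]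
  rw [h1, h2]

end Pool.Agent.Lib.MP_4f0ec0_al
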