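import Mathlib
import Pool.Agent.Lib.MP_4f0ec0_al.Mono
import Pool.Agent.Lib.MP_4f0ec0_al.Forward

/-! Properties of the model groups. -/

namespace Pool.Agent.Lib.MP_4f0ec0_al

open Function

lemma center_trivial {A K : Type} [CommGroup A] [Group K] (ρ : K →* MulAut A) (hρ : Injective ρ)
    (hfix : ∀ a, (∀ g, ρ g a = a) → a = 1) : Subgroup.center (A ⋊[ρ] K) = ⊥ := by
  rw [Subgroup.eq_bot_iff_forall]
  rintro ⟨a, b⟩ hz
  rw [Subgroup.mem_center_iff] at hz
  have hb : b = 1 := by
    apply hρ
    rw [map_one]
    ext x
    have h1 := congrArg SemidirectProduct.left (hz (SemidirectProduct.inl x))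
    simp only [SemidirectProduct.mul_left, SemidirectProduct.left_inl,
      SemidirectProduct.right_inl, map_one, MulAut.one_apply] at h1
    rw [mul_comm] at h1
    exact (mul_left_cancel h1).symm
  subst hb
  have ha : a = 1 := by
    apply hfix
    intro g
    have h1 := congrArg SemidirectProduct.left (hz (SemidirectProduct.inr g))
    simp only [SemidirectProduct.mul_left, SemidirectProduct.left_inr,
      SemidirectProduct.right_inr, map_one, one_mul, mul_one] at h1
    exact h1
  subst ha
  rfl

lemma unitAut_injective (E : Type) [Field E] : Injective (unitAut E) := by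
  intro u v h
  have h1 := congrArg (fun a : MulAut (Multiplicative E) => Multiplicative.toAdd
    (a (Multiplicative.ofAdd 1))) h
  simp only [unitAut_apply, toAdd_ofAdd, mul_one] at h1
  exact Units.ext h1

lemma center_Aff (E : Type) [Field E] (θ : Eˣ) (hθ : θ ≠ 1) :
    Subgroup.center (Aff E (Subgroup.zpowers θ)) = ⊥ := by
  apply center_trivial
  · exact (unitAut_injective E).comp (Subgroup.subtype_injective _)
  · intro a ha
    have h1 := ha ⟨θ, Subgroup.mem_zpowers θ⟩
    have h2 : (θ : E) * Multiplicative.toAdd a = Multiplicative.toAdd a := h1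
    have h3 : ((θ : E) - 1) * Multiplicative.toAdd a = 0 := by
      rw [sub_mul, h2, one_mul, sub_self]
    rcases mul_eq_zero.mp h3 with h4 | h4
    · exact absurd (Units.ext (sub_eq_zero.mp h4)) hθ
    · exact h4

lemma pow_val_injective {p R : ℕ} [NeZero R] (l : (ZMod p)ˣ) (hlo : orderOf l = R)
    {x y : ZMod R} (h : l ^ x.val = l ^ y.val) : x = y := by
  have h1 : x.val = y.val := by
    apply pow_injOn_Iio_orderOf (x := l)
    · rw [Set.mem_Iio, hlo]; exact ZMod.val_lt x
    · rw [Set.mem_Iio, hlo]; exact ZMod.val_lt y
    · exact h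
  exact ZMod.val_injective R h1

section D

variable {p R : ℕ} [NeZero R] [hp : Fact p.Prime] (B : Subgroup (ZMod R)ˣ) (l : (ZMod p)ˣ)
  (hl : l ^ R = 1) (hlo : orderOf l = R)

include hlo

lemma DM_not_SS (hB : 2 ≤ Nat.card B) : ¬ SS (DM B l hl) := by
  classical
  have hBfin : Finite B := Nat.finite_of_card_ne_zero (by omega)
  apply semidirect_not_SS
  · have : Nonempty B := ⟨1⟩
    exact inferInstanceAs (Nontrivial (B → ZMod p))
  · have h1 : Nat.card (Multiplicative (B → ZMod p)) = p ^ Nat.card B := by
      rw [Nat.card_congr Multiplicative.toAdd, Nat.card_fun, Nat.card_zmod]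
    rw [h1]
    exact Nat.Prime.not_prime_pow hB
  · intro L hL _
    have key := mono_irred (p := p) (I := B) (Subgroup.toAddSubgroup' L)
      (fun b => ((l ^ (((b : (ZMod R)ˣ) : ZMod R)).val : (ZMod p)ˣ) : ZMod p)) (by
        intro b b' h
        have h1 := Units.ext h
        have h2 := pow_val_injective l hlo h1
        exact Subtype.ext (Units.ext h2)) (by
        intro v hv
        have h1 := hL ⟨Multiplicative.ofAdd 1, 1⟩ (Multiplicative.ofAdd v) hv
        have h2 : Multiplicative.ofAdd (fun b : B => ((l ^ (((b : (ZMod R)ˣ) : ZMod R)).val :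
            (ZMod p)ˣ) : ZMod p) * v b) =
            actD B l hl ⟨Multiplicative.ofAdd 1, 1⟩ (Multiplicative.ofAdd v) := by
          apply Multiplicative.toAdd.injective
          funext b
          rw [actD_apply]
          simp
        have h3 : Multiplicative.ofAdd (fun b : B => ((l ^ (((b : (ZMod R)ˣ) : ZMod R)).val :
            (ZMod p)ˣ) : ZMod p) * v b) ∈ L := by
          rw [h2]
          exact h1
        exact h3) (by
        intro i j
        refine ⟨1, one_ne_zero, fun hi => ?_⟩
        have h1 := hL ⟨1, j⁻¹ * i⟩ (Multiplicative.ofAdd (Pi.single i 1)) hi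
        have h2 : Multiplicative.ofAdd (Pi.single j (1 : ZMod p) : B → ZMod p) =
            actD B l hl ⟨1, j⁻¹ * i⟩ (Multiplicative.ofAdd (Pi.single i 1)) := by
          apply Multiplicative.toAdd.injective
          funext b
          rw [actD_apply]
          by_cases hb : b = j
          · subst hb
            simp
          · have h3 : b * (j⁻¹ * i) ≠ i := by
              intro h
              apply hb
              have h4 : b * j⁻¹ = 1 := by
                apply mul_right_cancel (b := i)
                rw [one_mul, mul_assoc, h]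
              exact mul_inv_eq_one.mp h4
            simp [hb, h3]
        have h3 : Multiplicative.ofAdd (Pi.single j (1 : ZMod p) : B → ZMod p) ∈ L := by
          rw [h2]
          exact h1
        exact h3)
    rcases key with h2 | h2
    · left
      ext x
      have h3 : Multiplicative.toAdd x ∈ Subgroup.toAddSubgroup' L ↔
        Multiplicative.toAdd x ∈ (⊥ : AddSubgroup (B → ZMod p)) := by rw [h2]
      exact h3
    · right
      ext x
      have h3 : Multiplicative.toAdd x ∈ Subgroup.toAddSubgroup' L ↔
        Multiplicative.toAdd x ∈ (⊤ : AddSubgroup (B → ZMod p)) := by rw [h2]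
      exact h3

lemma center_DM (hR : 1 < R) : Subgroup.center (DM B l hl) = ⊥ := by
  classical
  apply center_trivial
  · rw [injective_iff_map_eq_one]
    rintro ⟨x, c⟩ hxc
    have h1 : ∀ (v : Multiplicative (B → ZMod p)) (b : B),
        ((l ^ (((b : (ZMod R)ˣ) : ZMod R) * Multiplicative.toAdd x).val : (ZMod p)ˣ) : ZMod p) *
          Multiplicative.toAdd v (b * c) = Multiplicative.toAdd v b := by
      intro v b
      rw [← actD_apply B l hl, hxc]
      rfl
    have hc : c = 1 := by
      by_contra hne
      have h2 := h1 (Multiplicative.ofAdd (Pi.single (1 : B) 1)) 1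
      rw [toAdd_ofAdd, one_mul, Pi.single_eq_of_ne hne, mul_zero, Pi.single_eq_same] at h2
      exact zero_ne_one h2
    subst hc
    have h2 := h1 (Multiplicative.ofAdd (fun _ => 1)) 1
    simp only [toAdd_ofAdd, mul_one, OneMemClass.coe_one, Units.val_one, one_mul] at h2
    have h3 : l ^ (Multiplicative.toAdd x).val = l ^ (0 : ZMod R).val := by
      rw [ZMod.val_zero, pow_zero]
      exact Units.ext h2
    have h4 := pow_val_injective l hlo h3
    have h5 : x = 1 := h4
    subst h5
    rfl
  · intro a ha
    apply Multiplicative.toAdd.injective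
    funext b
    have h1 := congrArg (fun v : Multiplicative (B → ZMod p) => Multiplicative.toAdd v b) (ha ⟨Multiplicative.ofAdd 1, 1⟩)
    simp only [actD_apply] at h1
    rw [mul_one, toAdd_ofAdd, mul_one] at h1
    have h2 : (((l ^ ((b : (ZMod R)ˣ) : ZMod R).val : (ZMod p)ˣ) : ZMod p) - 1) *
        Multiplicative.toAdd a b = 0 := by
      rw [sub_mul, h1, one_mul, sub_self]
    rcases mul_eq_zero.mp h2 with h3 | h3
    · exfalso
      have h4 : l ^ ((b : (ZMod R)ˣ) : ZMod R).val = l ^ (0 : ZMod R).val := by
        rw [ZMod.val_zero, pow_zero]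
        exact Units.ext (sub_eq_zero.mp h3)
      have h5 := pow_val_injective l hlo h4
      have : Fact (1 < R) := ⟨hR⟩
      exact (Units.ne_zero (b : (ZMod R)ˣ)) h5
    · exact h3

end D

end Pool.Agent.Lib.MP_4f0ec0_al
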