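import Mathlib
import Pool.Agent.Lib.MP_4f0ec0_al.DModel
import Pool.Agent.Lib.MP_4f0ec0_al.CaseA

/-! Recognition of the model group `D`. -/

namespace Pool.Agent.Lib.MP_4f0ec0_al

open Function

/-- The homomorphism `x ↦ a ^ x`. -/
def chrG {G : Type} [Group G] {R : ℕ} [NeZero R] (a : G) (ha : a ^ R = 1) :
    Multiplicative (ZMod R) →* G where
  toFun x := a ^ (Multiplicative.toAdd x).val
  map_one' := by simp
  map_mul' x y := by
    rw [toAdd_mul, ZMod.val_add, ← pow_add]
    conv_rhs => rw [← Nat.mod_add_div ((Multiplicative.toAdd x).val + (Multiplicative.toAdd y).val) R,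
      pow_add, pow_mul a R, ha, one_pow, mul_one]

lemma pow_val_eq {G : Type} [Group G] {R : ℕ} [NeZero R] (a : G) (ha : a ^ R = 1) {n m : ℕ}
    (h : (n : ZMod R) = (m : ZMod R)) : a ^ n = a ^ m := by
  rw [ZMod.natCast_eq_natCast_iff] at h
  rw [← Nat.mod_add_div n R, ← Nat.mod_add_div m R, pow_add, pow_add, pow_mul, pow_mul, ha,
    one_pow, one_pow, mul_one, mul_one, h]

theorem d_model {X : Type} [Group X] [Finite X] (N : Subgroup X) [N.Normal] {p r q : ℕ}
    [hp : Fact p.Prime] [hr : Fact r.Prime] [NeZero r] (hq : q.Prime) (hqr : q ≠ r)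
    (hexp : ∀ x ∈ N, x ^ p = 1) (hcomm : ∀ x ∈ N, ∀ y ∈ N, x * y = y * x)
    (a y : X) (ha : orderOf a = r) (hy : orderOf y = q) (j : ℕ) (hj : y * a * y⁻¹ = a ^ j)
    (hne : y * a ≠ a * y) (v0 : X) (hv0 : v0 ∈ N) (i : ℕ) (hi : a * v0 * a⁻¹ = v0 ^ i)
    (hai : a * v0 ≠ v0 * a) (B' : Subgroup X) (haB : a ∈ B') (hyB : y ∈ B') (hNB : N ⊓ B' = ⊥)
    (hX : Nat.card X = Nat.card N * (r * q)) (hN : Nat.card N ≤ p ^ q)
    (B : Subgroup (ZMod r)ˣ) (hB : Nat.card B = q) (l : (ZMod p)ˣ) (hl : l ^ r = 1)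
    (hlo : orderOf l = r) : Nonempty (DM B l hl ≃* X) := by
  classical
  let cgN : CommGroup N := cg N hcomm
  have har : a ^ r = 1 := by rw [← ha, pow_orderOf_eq_one]
  have hyq : y ^ q = 1 := by rw [← hy, pow_orderOf_eq_one]
  obtain ⟨Mod, hsmul, F, hF⟩ := exists_lin (N := N) (p := p) (fun x => Subtype.ext (hexp x x.2))
  let w0 : Additive N := Additive.ofMul ⟨v0, hv0⟩
  have hnat : ∀ (n : ℕ) (x : Additive N), ((n : ZMod p)) • x = Additive.ofMul ((Additive.toMul x) ^ n) := by
    intro n x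
    rw [Nat.cast_smul_eq_nsmul]
    rfl
  have hv01 : v0 ≠ 1 := by
    rintro rfl
    exact hai (by simp)
  have hw0 : w0 ≠ 0 := by
    intro h
    exact hv01 (congrArg (fun z : N => (z : X)) h)
  let T : X → Module.End (ZMod p) (Additive N) := fun g => F (cj N g)
  have hTmul : ∀ g h, T (g * h) = T g * T h := fun g h => by
    show F (cj N (g * h)) = _
    rw [map_mul, map_mul]
  have hTone : T 1 = 1 := by
    show F (cj N 1) = 1
    rw [map_one, map_one]
  have hTpow : ∀ g (n : ℕ), T (g ^ n) = T g ^ n := fun g n => by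
    show F (cj N (g ^ n)) = _
    rw [map_pow, map_pow]
  have hTapp : ∀ g (x : N), T g (Additive.ofMul x) = Additive.ofMul (cj N g x) := fun g x => hF _ _
  have hTa : T a w0 = (i : ZMod p) • w0 := by
    rw [hnat]
    show T a (Additive.ofMul _) = _
    rw [hTapp]
    apply congrArg Additive.ofMul
    apply Subtype.ext
    rw [cj_apply]
    exact hi
  have hTan : ∀ n : ℕ, T (a ^ n) w0 = ((i : ZMod p) ^ n) • w0 := by
    intro n
    induction n with
    | zero => simp [hTone]
    | succ n ih => rw [pow_succ', hTmul, Module.End.mul_apply, ih, map_smul, hTa, smul_smul, pow_succ]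
  have hir : (i : ZMod p) ^ r = 1 := by
    have h1 := hTan r
    rw [har, hTone, Module.End.one_apply] at h1
    have h2 : ((i : ZMod p) ^ r - 1) • w0 = 0 := by rw [sub_smul, ← h1, one_smul, sub_self]
    rcases smul_eq_zero.mp h2 with h3 | h3
    · exact sub_eq_zero.mp h3
    · exact absurd h3 hw0
  let kU : (ZMod p)ˣ := Units.ofPowEqOne (i : ZMod p) r hir hr.out.ne_zero
  have hkU : (kU : ZMod p) = i := rfl
  have hkUr : kU ^ r = 1 := Units.ext (by rw [Units.val_pow_eq_pow_val, hkU, hir, Units.val_one])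
  have hkU1 : kU ≠ 1 := by
    intro h
    apply hai
    have h1 : (i : ZMod p) = 1 := by rw [← hkU, h, Units.val_one]
    rw [h1, one_smul] at hTa
    have h2 : cj N a ⟨v0, hv0⟩ = ⟨v0, hv0⟩ := by
      have h3 : T a (Additive.ofMul ⟨v0, hv0⟩) = Additive.ofMul ⟨v0, hv0⟩ := hTa
      rw [hTapp] at h3
      exact Additive.ofMul.injective h3
    have h3 := congrArg (fun z : N => (z : X)) h2
    simp only at h3
    rw [cj_apply] at h3
    have h4 : a * v0 * a⁻¹ = v0 := h3
    calc a * v0 = a * v0 * a⁻¹ * a := by group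
      _ = v0 * a := by rw [h4]
  have hkUo : orderOf kU = r := orderOf_eq_prime hkUr hkU1
  obtain ⟨n, hn⟩ : ∃ n : ℕ, kU ^ n = l := by
    have h1 : Subgroup.zpowers kU = Subgroup.zpowers l := zpowers_eq_of_order (by rw [hkUo, hlo])
    have h2 : l ∈ Subgroup.zpowers kU := by rw [h1]; exact Subgroup.mem_zpowers l
    obtain ⟨n, -, hn⟩ := Finset.mem_image.mp
      ((isOfFinOrder_of_finite kU).mem_zpowers_iff_mem_range_orderOf.mp h2)
    exact ⟨n, hn⟩
  have hl1 : l ≠ 1 := by
    rintro rfl
    rw [orderOf_one] at hlo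
    exact hr.out.one_lt.ne hlo
  obtain ⟨a', ha'⟩ : ∃ a', a' = a ^ n := ⟨_, rfl⟩
  have ha'B : a' ∈ B' := by
    rw [ha']
    exact B'.pow_mem haB n
  have ha'r : a' ^ r = 1 := by rw [ha', ← pow_mul, mul_comm, pow_mul, har, one_pow]
  have hTa' : T a' w0 = (l : ZMod p) • w0 := by
    rw [ha', hTan, ← hkU, ← Units.val_pow_eq_pow_val, hn]
  have ha'1 : a' ≠ 1 := by
    intro h
    rw [h, hTone, Module.End.one_apply] at hTa'
    apply hl1
    have h2 : ((l : ZMod p) - 1) • w0 = 0 := by rw [sub_smul, ← hTa', one_smul, sub_self]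
    rcases smul_eq_zero.mp h2 with h3 | h3
    · exact Units.ext (sub_eq_zero.mp h3)
    · exact absurd h3 hw0
  have ha'o : orderOf a' = r := orderOf_eq_prime ha'r ha'1
  have hj' : y * a' * y⁻¹ = a' ^ j := by
    rw [ha', ← conj_pow, hj, ← pow_mul, ← pow_mul, mul_comm]
  -- the unit given by `j`
  have hjr : Nat.Coprime j r := by
    rw [Nat.coprime_comm, Nat.Prime.coprime_iff_not_dvd hr.out]
    rintro ⟨c, hc⟩
    apply ha'1
    rw [hc, pow_mul, ha'r, one_pow] at hj'
    have : y * a' * y⁻¹ = 1 := hj'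
    rwa [conj_eq_one_iff] at this
  let u : (ZMod r)ˣ := ZMod.unitOfCoprime j hjr
  have hu : (u : ZMod r) = (j : ZMod r) := rfl
  have hyn : ∀ m : ℕ, y ^ m * a' * (y ^ m)⁻¹ = a' ^ (j ^ m) := by
    intro m
    induction m with
    | zero => simp
    | succ m ih =>
      calc y ^ (m + 1) * a' * (y ^ (m + 1))⁻¹ = y * (y ^ m * a' * (y ^ m)⁻¹) * y⁻¹ := by
            rw [pow_succ']; group
        _ = y * a' ^ (j ^ m) * y⁻¹ := by rw [ih]
        _ = (y * a' * y⁻¹) ^ (j ^ m) := by rw [conj_pow]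
        _ = a' ^ (j ^ (m + 1)) := by rw [hj', ← pow_mul, pow_succ']
  have huo : orderOf u = q := by
    have hfq : Fact q.Prime := ⟨hq⟩
    apply orderOf_eq_prime
    · apply Units.ext
      rw [Units.val_pow_eq_pow_val, hu, Units.val_one]
      have h1 := hyn q
      rw [hyq, one_mul, inv_one, mul_one] at h1
      have h2 : a' ^ 1 = a' ^ (j ^ q) := by rw [pow_one]; exact h1
      rw [pow_eq_pow_iff_modEq, ha'o, ← ZMod.natCast_eq_natCast_iff] at h2
      push_cast at h2
      exact h2.symm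
    · intro h
      apply hne
      have h1 : ((j : ℕ) : ZMod r) = ((1 : ℕ) : ZMod r) := by
        rw [← hu, h, Units.val_one, Nat.cast_one]
      have h2 : a ^ j = a ^ 1 := pow_val_eq a har h1
      rw [h2, pow_one] at hj
      calc y * a = y * a * y⁻¹ * y := by group
        _ = a * y := by rw [hj]
  have hBu : B = Subgroup.zpowers u := by
    have hfq : Fact q.Prime := ⟨hq⟩
    have hBc : IsCyclic B := isCyclic_of_prime_card hB
    obtain ⟨g, hg⟩ := hBc.exists_generator
    have hgo : orderOf (g : (ZMod r)ˣ) = q := by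
      rw [Subgroup.orderOf_coe, orderOf_eq_card_of_forall_mem_zpowers hg, hB]
    rw [← zpowers_eq_of_order (hgo.trans huo.symm)]
    apply le_antisymm
    · intro x hx
      obtain ⟨m, hm⟩ := Subgroup.mem_zpowers_iff.mp (hg ⟨x, hx⟩)
      exact Subgroup.mem_zpowers_iff.mpr ⟨m, congrArg (fun z : B => (z : (ZMod r)ˣ)) hm⟩
    · rw [Subgroup.zpowers_le]
      exact g.2
  subst hBu
  obtain ⟨g0, hg0⟩ := exists_zequiv u y (huo.trans hy.symm)
  let B := Subgroup.zpowers u
  let Y : B →* X := (Subgroup.zpowers y).subtype.comp g0.toMonoidHom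
  have hYinj : Injective Y := (Subgroup.subtype_injective _).comp g0.injective
  have hYy : ∀ c : B, ∃ m : ℕ, ((c : (ZMod r)ˣ) : ZMod r) = ((j ^ m : ℕ) : ZMod r) ∧ Y c = y ^ m := by
    rintro ⟨c, hc⟩
    obtain ⟨m, -, hm⟩ := Finset.mem_image.mp
      ((isOfFinOrder_of_finite u).mem_zpowers_iff_mem_range_orderOf.mp hc)
    refine ⟨m, ?_, ?_⟩
    · have hm' : c = u ^ m := hm.symm
      show ((c : (ZMod r)ˣ) : ZMod r) = _
      rw [hm', Units.val_pow_eq_pow_val, hu]
      push_cast
      rfl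
    · have := hg0 ⟨c, hc⟩ m (by rw [zpow_natCast]; exact hm.symm)
      rw [zpow_natCast] at this
      exact this
  have hYa : ∀ c : B, Y c * a' * (Y c)⁻¹ = a' ^ ((c : (ZMod r)ˣ) : ZMod r).val := by
    intro c
    obtain ⟨m, hm1, hm2⟩ := hYy c
    rw [hm2, hyn]
    apply pow_val_eq a' ha'r
    rw [ZMod.natCast_zmod_val, hm1]
  -- the eigenvectors
  let e : B → Additive N := fun b => T (Y b)⁻¹ w0
  have he0 : ∀ b, e b ≠ 0 := by
    intro b h
    apply hw0
    have h1 : T (Y b) (e b) = w0 := by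
      show T (Y b) (T (Y b)⁻¹ w0) = w0
      rw [← Module.End.mul_apply, ← hTmul, mul_inv_cancel, hTone, Module.End.one_apply]
    rw [← h1, h, map_zero]
  have hTa'n : ∀ (m : ℕ), (T a' ^ m) w0 = ((l : ZMod p) ^ m) • w0 := by
    intro m
    induction m with
    | zero => simp
    | succ m ih => rw [pow_succ', Module.End.mul_apply, ih, map_smul, hTa', smul_smul, pow_succ]
  have heig : ∀ b : B, T a' (e b) =
      ((l ^ ((b : (ZMod r)ˣ) : ZMod r).val : (ZMod p)ˣ) : ZMod p) • e b := by
    intro b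
    show T a' (T (Y b)⁻¹ w0) = _ • T (Y b)⁻¹ w0
    rw [← Module.End.mul_apply, ← hTmul]
    have h1 : a' * (Y b)⁻¹ = (Y b)⁻¹ * a' ^ ((b : (ZMod r)ˣ) : ZMod r).val := by
      rw [← hYa b]
      group
    rw [h1, hTmul, Module.End.mul_apply, hTpow, hTa'n, map_smul, Units.val_pow_eq_pow_val]
  have hli : LinearIndependent (ZMod p) e := by
    apply Module.End.eigenvectors_linearIndependent' (T a')
      (fun b : B => ((l ^ ((b : (ZMod r)ˣ) : ZMod r).val : (ZMod p)ˣ) : ZMod p))
    · intro b b' h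
      have h2 := pow_val_injective l hlo (Units.ext h)
      exact Subtype.ext (Units.ext h2)
    · intro b
      rw [Module.End.hasEigenvector_iff]
      exact ⟨Module.End.mem_eigenspace_iff.mpr (heig b), he0 b⟩
  have hBfin : Finite B := Nat.finite_of_card_ne_zero (by rw [hB]; exact hq.ne_zero)
  let ftB : Fintype B := Fintype.ofFinite B
  let f : (B → ZMod p) →ₗ[ZMod p] Additive N := Fintype.linearCombination (ZMod p) e
  have hfapp : ∀ v, f v = ∑ b, v b • e b := fun v => Fintype.linearCombination_apply (ZMod p) e v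
  have hfinj : Injective f := hli.fintypeLinearCombination_injective
  let f' : Multiplicative (B → ZMod p) →* X :=
    N.subtype.comp (AddMonoidHom.toMultiplicativeLeft f.toAddMonoidHom)
  have hf'app : ∀ v, f' v = ((Additive.toMul (f (Multiplicative.toAdd v)) : N) : X) := fun v => rfl
  have hf'inj : ∀ v, f' v = 1 → v = 1 := by
    intro v hv
    rw [hf'app] at hv
    have h1 : f (Multiplicative.toAdd v) = 0 := by
      have h2 : Additive.toMul (f (Multiplicative.toAdd v)) = 1 := Subtype.ext hv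
      exact h2
    have h2 : Multiplicative.toAdd v = 0 := hfinj (by rw [h1, map_zero])
    exact h2
  -- the homomorphism from `C_r ⋊ B`
  let G : KD r B →* X := SemidirectProduct.lift (chrG a' ha'r) Y (by
    intro c
    refine MonoidHom.ext fun x => ?_
    show a' ^ (((c : (ZMod r)ˣ) : ZMod r) * Multiplicative.toAdd x).val =
      Y c * a' ^ (Multiplicative.toAdd x).val * (Y c)⁻¹
    rw [← conj_pow, hYa, ← pow_mul]
    apply pow_val_eq a' ha'r
    push_cast
    rw [ZMod.natCast_zmod_val, ZMod.natCast_zmod_val, ZMod.natCast_zmod_val])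
  have hG : ∀ x c, G ⟨x, c⟩ = a' ^ (Multiplicative.toAdd x).val * Y c := fun x c => rfl
  have hYB : ∀ c, Y c ∈ B' := by
    intro c
    obtain ⟨m, -, hm⟩ := hYy c
    rw [hm]
    exact B'.pow_mem hyB m
  have hGB : ∀ z, G z ∈ B' := by
    rintro ⟨x, c⟩
    rw [hG]
    exact B'.mul_mem (B'.pow_mem ha'B _) (hYB c)
  have hGinj : Injective G := by
    rw [injective_iff_map_eq_one]
    rintro ⟨x, c⟩ hxc
    rw [hG] at hxc
    have h1 : Y c = (a' ^ (Multiplicative.toAdd x).val)⁻¹ := eq_inv_of_mul_eq_one_right hxc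
    have h2 : orderOf (Y c) ∣ q := by
      obtain ⟨m, -, hm⟩ := hYy c
      apply orderOf_dvd_of_pow_eq_one
      rw [hm, ← pow_mul, mul_comm, pow_mul, hyq, one_pow]
    have h3 : orderOf (Y c) ∣ r := by
      apply orderOf_dvd_of_pow_eq_one
      rw [h1, inv_pow, ← pow_mul, mul_comm, pow_mul, ha'r, one_pow, inv_one]
    have h4 : Y c = 1 := by
      have h5 := Nat.dvd_gcd h2 h3
      rw [(Nat.coprime_primes hq hr.out).mpr hqr, Nat.dvd_one, orderOf_eq_one_iff] at h5
      exact h5
    have h5 : c = 1 := hYinj (by rw [h4, map_one])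
    subst h5
    rw [map_one, mul_one] at hxc
    have h6 : x = 1 := by
      have h7 : (Multiplicative.toAdd x).val = 0 := by
        by_contra hne0
        have h8 := orderOf_dvd_of_pow_eq_one hxc
        rw [ha'o] at h8
        have h9 := Nat.le_of_dvd (Nat.pos_of_ne_zero hne0) h8
        have := ZMod.val_lt (Multiplicative.toAdd x)
        omega
      rw [ZMod.val_eq_zero] at h7
      exact h7
    subst h6
    rfl
  apply glue (actD B l hl) f' G hGinj
  · rintro ⟨x, c⟩ v
    -- compatibility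
    have h1 : T (G ⟨x, c⟩) (f (Multiplicative.toAdd v)) =
        f (Multiplicative.toAdd (actD B l hl ⟨x, c⟩ v)) := by
      have h2 : ∀ b, T (Y c) (e b) = e (b * c⁻¹) := by
        intro b
        show T (Y c) (T (Y b)⁻¹ w0) = T (Y (b * c⁻¹))⁻¹ w0
        rw [← Module.End.mul_apply, ← hTmul]
        congr 2
        rw [map_mul, map_inv, mul_inv_rev, inv_inv]
      have h3 : T (Y c) (f (Multiplicative.toAdd v)) =
          f (fun b => Multiplicative.toAdd v (b * c)) := by
        rw [hfapp, hfapp, map_sum]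
        apply Fintype.sum_equiv (Equiv.mulRight c⁻¹)
        intro b
        rw [map_smul, h2]
        simp
      have h4 : ∀ (m : ℕ) (b : B), (T a' ^ m) (e b) =
          ((l ^ (((b : (ZMod r)ˣ) : ZMod r).val * m) : (ZMod p)ˣ) : ZMod p) • e b := by
        intro m b
        induction m with
        | zero => simp
        | succ m ih =>
          rw [pow_succ', Module.End.mul_apply, ih, map_smul, heig, smul_smul, ← Units.val_mul,
            ← pow_add, mul_add, mul_one]
      rw [hG, hTmul, Module.End.mul_apply, h3, hTpow, hfapp, hfapp, map_sum]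
      apply Finset.sum_congr rfl
      intro b _
      rw [map_smul, h4, smul_smul, actD_apply, mul_comm (Multiplicative.toAdd v (b * c))]
      congr 3
      apply pow_val_eq l hl
      push_cast
      rw [ZMod.natCast_zmod_val, ZMod.natCast_zmod_val, ZMod.natCast_zmod_val]
    have h5 : T (G ⟨x, c⟩) (f (Multiplicative.toAdd v)) = Additive.ofMul
        (cj N (G ⟨x, c⟩) (Additive.toMul (f (Multiplicative.toAdd v)))) := hF _ _
    rw [hf'app, hf'app, ← h1, ← cj_apply, h5]
    rfl
  · intro v z hvz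
    apply hf'inj
    have h1 : f' v ∈ N ⊓ B' := by
      refine ⟨?_, ?_⟩
      · rw [hf'app]
        exact Subtype.property _
      · rw [hvz]
        exact hGB z
    rwa [hNB, Subgroup.mem_bot] at h1
  · have h1 : Nat.card (Multiplicative (B → ZMod p)) = p ^ q := by
      rw [Nat.card_congr Multiplicative.toAdd, Nat.card_fun, Nat.card_zmod, hB]
    have h2 : Nat.card (KD r B) = r * q := by
      rw [SemidirectProduct.card, hB, Nat.card_congr Multiplicative.toAdd, Nat.card_zmod]
    have h3 : p ^ q ≤ Nat.card N := by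
      rw [← h1]
      have h4 : Nat.card (Multiplicative (B → ZMod p)) = Nat.card (B → ZMod p) := rfl
      rw [h4]
      exact Nat.card_le_card_of_injective f hfinj
    rw [h1, h2, hX]
    congr 1
    omega

end Pool.Agent.Lib.MP_4f0ec0_al
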