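import Mathlib
import Pool.Agent.Lib.MP_4f0ec0_al.CaseA

/-! Counting eigenspaces of an abelian group of automorphisms permuted by another one. -/

namespace Pool.Agent.Lib.MP_4f0ec0_al

open Function

theorem eig_count {N : Type} [CommGroup N] [Finite N] {p k q : ℕ} [hp : Fact p.Prime]
    (hexp : ∀ x : N, x ^ p = 1) (hN : Nat.card N = p ^ k) (hq : q.Prime)
    (A : Subgroup (MulAut N)) (hcomm : ∀ α ∈ A, ∀ β ∈ A, α * β = β * α)
    (hpow : ∀ α ∈ A, α ^ (p - 1) = 1) (y : MulAut N) (hyA : ∀ α, α ∈ A → y * α * y⁻¹ ∈ A)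
    (hyA' : ∀ α, α ∈ A → y⁻¹ * α * y ∈ A) (hyq : y ^ q ∈ A) (hne : ∃ α ∈ A, y * α ≠ α * y) :
    q ≤ k := by
  classical
  obtain ⟨α0, hα0, hne0⟩ := hne
  set c := y * α0 * y⁻¹ * α0⁻¹ with hc
  have hcA : c ∈ A := A.mul_mem (hyA _ hα0) (A.inv_mem hα0)
  have hc1 : c ≠ 1 := by
    intro h
    apply hne0
    have h1 : y * α0 * y⁻¹ = α0 := mul_inv_eq_one.mp h
    calc y * α0 = y * α0 * y⁻¹ * y := by group
      _ = α0 * y := by rw [h1]
  -- the image of `c - 1`
  let φ : N →* N :=
    { toFun := fun x => c x * x⁻¹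
      map_one' := by simp
      map_mul' := fun x z => by
        rw [map_mul, mul_inv]
        exact mul_mul_mul_comm _ _ _ _ }
  have hM : φ.range ≠ ⊥ := by
    intro h
    apply hc1
    ext x
    have h1 : φ x ∈ φ.range := ⟨x, rfl⟩
    rw [h, Subgroup.mem_bot] at h1
    exact mul_inv_eq_one.mp h1
  obtain ⟨x, ⟨u, hu⟩, hx1, hx⟩ := exists_eigen hexp A hcomm hpow φ.range hM (by
    rintro α hα _ ⟨z, rfl⟩
    refine ⟨α z, ?_⟩
    show c (α z) * (α z)⁻¹ = α (c z * z⁻¹)
    rw [map_mul, map_inv, ← MulAut.mul_apply, hcomm c hcA α hα, MulAut.mul_apply])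
  have hcx : c x ≠ x := by
    intro h
    apply hx1
    have hu' : c u = u * x := by
      rw [← hu]
      show c u = u * (c u * u⁻¹)
      rw [mul_comm, inv_mul_cancel_right]
    have h1 : ∀ n : ℕ, (c ^ n) u = u * x ^ n := by
      intro n
      induction n with
      | zero => simp
      | succ n ih => rw [pow_succ', MulAut.mul_apply, ih, map_mul, hu', map_pow, h, pow_succ',
          mul_assoc]
    have h2 := h1 (p - 1)
    rw [hpow c hcA, MulAut.one_apply] at h2
    have h3 : x ^ (p - 1) = 1 := by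
      have h4 : u * 1 = u * x ^ (p - 1) := by rw [mul_one]; exact h2
      exact (mul_left_cancel h4).symm
    have h4 := hexp x
    have h5 : p = p - 1 + 1 := by have := hp.out.two_le; omega
    rw [h5, pow_succ, h3, one_mul] at h4
    exact h4
  -- powers of `y`
  have hyAn : ∀ n : ℕ, ∀ α ∈ A, (y ^ n)⁻¹ * α * y ^ n ∈ A := by
    intro n
    induction n with
    | zero => intro α hα; simpa using hα
    | succ n ih =>
      intro α hα
      have h1 := hyA' _ (ih α hα)
      have h2 : (y ^ (n + 1))⁻¹ * α * y ^ (n + 1) = y⁻¹ * ((y ^ n)⁻¹ * α * y ^ n) * y := by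
        rw [pow_succ]; group
      rw [h2]
      exact h1
  have hyAn' : ∀ n : ℕ, ∀ α ∈ A, y ^ n * α * (y ^ n)⁻¹ ∈ A := by
    intro n
    induction n with
    | zero => intro α hα; simpa using hα
    | succ n ih =>
      intro α hα
      have h1 := hyA _ (ih α hα)
      have h2 : y ^ (n + 1) * α * (y ^ (n + 1))⁻¹ = y * (y ^ n * α * (y ^ n)⁻¹) * y⁻¹ := by
        rw [pow_succ']; group
      rw [h2]
      exact h1
  let P : ℕ → Prop := fun d => ∀ α ∈ A, ((y ^ d)⁻¹ * α * y ^ d) x = α x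
  have hPadd : ∀ d d', P d → P d' → P (d + d') := by
    intro d d' h h' α hα
    have h2 : (y ^ (d + d'))⁻¹ * α * y ^ (d + d') =
        (y ^ d')⁻¹ * ((y ^ d)⁻¹ * α * y ^ d) * y ^ d' := by
      rw [pow_add]; group
    rw [h2, h' _ (hyAn d α hα), h α hα]
  have hPmul : ∀ d, P d → ∀ n, P (n * d) := by
    intro d hd n
    induction n with
    | zero => intro α hα; simp
    | succ n ih => rw [add_mul, one_mul]; exact hPadd _ _ ih hd
  have hP1 : ¬ P 1 := by
    intro h
    apply hcx
    have h1 := h (y * α0 * y⁻¹) (hyA α0 hα0)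
    have h2 : (y ^ 1)⁻¹ * (y * α0 * y⁻¹) * y ^ 1 = α0 := by rw [pow_one]; group
    rw [h2] at h1
    have h3 : c = α0⁻¹ * (y * α0 * y⁻¹) := by
      rw [hc, hcomm _ (hyA α0 hα0) _ (A.inv_mem hα0)]
    rw [h3, MulAut.mul_apply, ← h1, ← MulAut.mul_apply, inv_mul_cancel, MulAut.one_apply]
  have hPd : ∀ d, 0 < d → d < q → ¬ P d := by
    intro d hd0 hdq hPd
    apply hP1
    -- `n * d = 1 + s * q`
    have hcop : Nat.Coprime d q := Nat.Coprime.symm ((Nat.Prime.coprime_iff_not_dvd hq).mpr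
      (fun h => by have := Nat.le_of_dvd hd0 h; omega))
    obtain ⟨n, hn⟩ := Nat.exists_mul_mod_eq_one_of_coprime hcop hq.one_lt
    have h1 : n * d = 1 + q * (d * n / q) := by
      have := Nat.mod_add_div (d * n) q
      rw [mul_comm n d]
      omega
    have h2 := hPmul d hPd n
    rw [h1] at h2
    intro α hα
    have h3 := h2 α hα
    have h4 : (y ^ (1 + q * (d * n / q)))⁻¹ * α * y ^ (1 + q * (d * n / q)) = (y ^ 1)⁻¹ * α * y ^ 1 := by
      have h5 : (y ^ q) ^ (d * n / q) ∈ A := A.pow_mem hyq _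
      have h6 := hcomm _ h5 _ (hyAn 1 α hα)
      calc (y ^ (1 + q * (d * n / q)))⁻¹ * α * y ^ (1 + q * (d * n / q))
          = ((y ^ q) ^ (d * n / q))⁻¹ * (((y ^ 1)⁻¹ * α * y ^ 1) * (y ^ q) ^ (d * n / q)) := by
            rw [pow_add, pow_mul]; group
        _ = ((y ^ q) ^ (d * n / q))⁻¹ * ((y ^ q) ^ (d * n / q) * ((y ^ 1)⁻¹ * α * y ^ 1)) := by
            rw [h6]
        _ = _ := by rw [inv_mul_cancel_left]
    rw [h4] at h3
    exact h3
  -- linear algebra
  obtain ⟨Mod, hsmul, F, hF⟩ := exists_lin (N := N) (p := p) hexp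
  have hnat : ∀ (n : ℕ) (x : Additive N), ((n : ZMod p)) • x = Additive.ofMul ((Additive.toMul x) ^ n) := by
    intro n x
    rw [Nat.cast_smul_eq_nsmul]
    rfl
  let e : Fin q → Additive N := fun i => Additive.ofMul ((y ^ (i : ℕ)) x)
  have he0 : ∀ i, e i ≠ 0 := by
    intro i h
    apply hx1
    have h1 : (y ^ (i : ℕ)) x = 1 := h
    apply (y ^ (i : ℕ)).injective
    rw [h1, map_one]
  have hχ : ∀ (i : Fin q) (α : A), ∃ z : ZMod p, F (α : MulAut N) (e i) = z • e i := by
    rintro i ⟨α, hα⟩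
    obtain ⟨j, hj⟩ := hx _ (hyAn i α hα)
    refine ⟨(j : ZMod p), ?_⟩
    rw [hF, hnat]
    apply congrArg Additive.ofMul
    show α ((y ^ (i : ℕ)) x) = ((y ^ (i : ℕ)) x) ^ j
    rw [← map_pow, ← hj, ← MulAut.mul_apply, ← MulAut.mul_apply]
    congr 1
    group
  choose χ hχ using hχ
  have hχinj : Injective χ := by
    have key : ∀ i j : Fin q, (i : ℕ) < (j : ℕ) → χ i ≠ χ j := by
      intro i j hij h
      apply hPd ((j : ℕ) - i) (by omega) (by have := j.2; omega)
      intro α hα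
      have hβ := hyAn' i α hα
      -- compare the scalars on `e i` and `e j`
      have h1 := hχ i ⟨_, hβ⟩
      have h2 := hχ j ⟨_, hβ⟩
      rw [← h] at h2
      set z := χ i ⟨_, hβ⟩ with hz
      rw [hF, hsmul] at h1 h2
      have h3 : (y ^ (i : ℕ) * α * (y ^ (i : ℕ))⁻¹) ((y ^ (i : ℕ)) x) = ((y ^ (i : ℕ)) x) ^ z.val := h1
      have h4 : (y ^ (i : ℕ) * α * (y ^ (i : ℕ))⁻¹) ((y ^ (j : ℕ)) x) = ((y ^ (j : ℕ)) x) ^ z.val := h2
      have h5 : α x = x ^ z.val := by
        apply (y ^ (i : ℕ)).injective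
        rw [map_pow, ← h3, ← MulAut.mul_apply, ← MulAut.mul_apply]
        congr 1
        group
      have h6 : ((y ^ ((j : ℕ) - i))⁻¹ * α * y ^ ((j : ℕ) - i)) x = x ^ z.val := by
        apply (y ^ (j : ℕ)).injective
        rw [map_pow, ← h4, ← MulAut.mul_apply, ← MulAut.mul_apply]
        congr 1
        have h7 : (j : ℕ) = i + (j - i) := by omega
        conv_lhs => rw [h7, Nat.add_sub_cancel_left, pow_add]
        conv_rhs => rw [h7, pow_add]
        group
      rw [h6, h5]
    intro i j h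
    rcases lt_trichotomy (i : ℕ) (j : ℕ) with h1 | h1 | h1
    · exact absurd h (key i j h1)
    · exact Fin.ext h1
    · exact absurd h.symm (key j i h1)
  have hind := Module.End.independent_iInf_maxGenEigenspace_of_forall_mapsTo
    (R := ZMod p) (f := fun α : A => F (α : MulAut N)) (by
      intro α β φ
      apply Module.End.mapsTo_maxGenEigenspace_of_comm
      show F (β : MulAut N) * F α = F α * F β
      rw [← map_mul, ← map_mul, hcomm _ β.2 _ α.2])
  have hli : LinearIndependent (ZMod p) e := by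
    apply (hind.comp hχinj).linearIndependent
    · intro i
      show e i ∈ ⨅ α : A, (F (α : MulAut N)).maxGenEigenspace (χ i α)
      rw [Submodule.mem_iInf]
      intro α
      exact Module.End.eigenspace_le_maxGenEigenspace (Module.End.mem_eigenspace_iff.mpr (hχ i α))
    · exact he0
  have hfin : Module.Finite (ZMod p) (Additive N) := Module.Finite.of_finite
  have h1 := hli.fintype_card_le_finrank
  have h2 : Module.finrank (ZMod p) (Additive N) = k := by
    have h1 := Module.natCard_eq_pow_finrank (K := ZMod p) (V := Additive N)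
    have h3 : Nat.card (Additive N) = p ^ k := hN
    rw [h3, Nat.card_zmod] at h1
    exact (Nat.pow_right_injective hp.out.two_le h1).symm
  rwa [Fintype.card_fin, h2] at h1

end Pool.Agent.Lib.MP_4f0ec0_al
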