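import Mathlib
import Pool.Agent.Lib.MP_4f0ec0_al.EigCount
import Pool.Agent.Lib.MP_4f0ec0_al.DUnique

/-! The groups without normal subgroups of prime order whose order divides `p ^ q * r * q * m`. -/

namespace Pool.Agent.Lib.MP_4f0ec0_al

open Function

/-- If the centralizer of every element of order `r` generating a normal subgroup is everything,
the group of order `r * q` is commutative. -/
lemma comm_of_commute {K : Type} [Group K] [Finite K] {r q : ℕ} (hr : r.Prime) (hq : q.Prime)
    (hqr : q ≠ r) (hK : Nat.card K ∣ r * q) (a y : K) (ha : orderOf a = r) (hy : orderOf y = q)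
    (h : y * a = a * y) : ∀ x z : K, x * z = z * x := by
  have hZ : Subgroup.centralizer ({a} : Set K) = ⊤ := by
    apply Subgroup.eq_top_of_card_eq
    apply Nat.dvd_antisymm (Subgroup.card_subgroup_dvd_card _)
    refine hK.trans ?_
    refine Nat.Coprime.mul_dvd_of_dvd_of_dvd ((Nat.coprime_primes hr hq).mpr hqr.symm) ?_ ?_
    · have h1 : a ∈ Subgroup.centralizer ({a} : Set K) := by
        rw [Subgroup.mem_centralizer_singleton_iff]
      have h2 := orderOf_dvd_natCard (⟨a, h1⟩ : Subgroup.centralizer ({a} : Set K))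
      rwa [Subgroup.orderOf_mk, ha] at h2
    · have h1 : y ∈ Subgroup.centralizer ({a} : Set K) := by
        rw [Subgroup.mem_centralizer_singleton_iff]
        exact h
      have h2 := orderOf_dvd_natCard (⟨y, h1⟩ : Subgroup.centralizer ({a} : Set K))
      rwa [Subgroup.orderOf_mk, hy] at h2
  have hcen : ∀ z, a * z = z * a := by
    intro z
    have h1 : z ∈ Subgroup.centralizer ({a} : Set K) := by rw [hZ]; trivial
    rw [Subgroup.mem_centralizer_singleton_iff] at h1
    exact h1.symm
  have hn : (Subgroup.zpowers a).Normal := zpowers_normal_of_central (fun g => (hcen g).symm)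
  apply comm_of_quot (Subgroup.zpowers a)
  · intro x hx z
    obtain ⟨n, rfl⟩ := Subgroup.mem_zpowers_iff.mp hx
    exact ((show Commute a z from hcen z).zpow_left n).eq
  · have h2 := Subgroup.card_eq_card_quotient_mul_card_subgroup (Subgroup.zpowers a)
    rw [Nat.card_zpowers, ha] at h2
    rw [h2, mul_comm r q] at hK
    have h3 : Nat.card (K ⧸ Subgroup.zpowers a) ∣ q := Nat.dvd_of_mul_dvd_mul_right hr.pos hK
    rcases (Nat.dvd_prime hq).mp h3 with h4 | h4
    · have : Subsingleton (K ⧸ Subgroup.zpowers a) := (Nat.card_eq_one_iff_unique.mp h4).1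
      infer_instance
    · have : Fact q.Prime := ⟨hq⟩
      exact isCyclic_of_prime_card h4

theorem caseD {p q r m : ℕ} (hp : p.Prime) (hq : q.Prime) (hr : r.Prime) (hqr : q ∣ r - 1)
    (hrp : r ∣ p - 1) (hqp : q ∣ p - 1) (hm : Squarefree m) (hpm : ¬ p ∣ m) (hqm : ¬ q ∣ m)
    (hrm : ¬ r ∣ m) (ht : ∀ t, t.Prime → t ∣ m → ∀ l, 0 < l → l ≤ q → ¬ t ∣ p ^ l - 1)
    {X : Type} [Group X] [Finite X] (hX : Nat.card X ∣ p ^ q * (r * (q * m)))
    (hsol : Group.IsSolvable X) (hnss : ¬ SS X) (hno : NoPrime X)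
    (IH : ∀ (Y : Type) (_ : Group Y), Nat.card Y ∣ Nat.card X → Nat.card Y < Nat.card X →
      ¬ p ^ q ∣ Nat.card Y → SS Y)
    [NeZero r] (B : Subgroup (ZMod r)ˣ) (hB : Nat.card B = q) (l : (ZMod p)ˣ) (hl : l ^ r = 1)
    (hlo : orderOf l = r) : Nonempty (DM B l hl ≃* X) := by
  have hfp : Fact p.Prime := ⟨hp⟩
  have hfq : Fact q.Prime := ⟨hq⟩
  have hfr : Fact r.Prime := ⟨hr⟩
  have hqlt : q < r := by
    have := Nat.le_of_dvd (by have := hr.two_le; omega) hqr
    have := hr.two_le
    omega
  have hrlt : r < p := by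
    have := Nat.le_of_dvd (by have := hp.two_le; omega) hrp
    have := hp.two_le
    omega
  have hsf : Squarefree (r * (q * m)) := by
    rw [Nat.squarefree_mul_iff, Nat.squarefree_mul_iff]
    refine ⟨?_, hr.squarefree, ?_, hq.squarefree, hm⟩
    · rw [Nat.coprime_mul_iff_right]
      exact ⟨(Nat.coprime_primes hr hq).mpr hqlt.ne', (Nat.Prime.coprime_iff_not_dvd hr).mpr hrm⟩
    · exact (Nat.Prime.coprime_iff_not_dvd hq).mpr hqm
  have hpn : ¬ p ∣ r * (q * m) := by
    rw [hp.dvd_mul, hp.dvd_mul]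
    rintro (h | h | h)
    · exact hrlt.ne' ((Nat.prime_dvd_prime_iff_eq hp hr).mp h)
    · exact (hqlt.trans hrlt).ne' ((Nat.prime_dvd_prime_iff_eq hp hq).mp h)
    · exact hpm h
  have hnt : Nontrivial X := by
    rw [← not_subsingleton_iff_nontrivial]
    intro h
    exact hnss SS.of_subsingleton
  obtain ⟨N, s, k, h⟩ := exists_minData hsol
  have hNn := h.normal
  have hk2 := h.two_le hno
  have hcr := h.card_range
  have hAfin : Finite (MulAut N) := finite_mulAut' N
  have hsk : s ^ k ∣ p ^ q * (r * (q * m)) := by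
    rw [← h.card]
    exact ((Subgroup.card_subgroup_dvd_card N).trans hX)
  have hsp : s = p := by
    by_contra hne
    exact sq_not_dvd h.prime hsf (prime_pow_dvd_of h.prime hp hne
      ((Nat.pow_dvd_pow s hk2).trans hsk))
  subst hsp
  have hkq : k ≤ q := le_of_pow_dvd hp hpn hsk
  have hKd : Nat.card (cj N).range ∣ s ^ q * (r * (q * m)) := (dvd_mul_left _ _).trans (hcr.trans hX)
  have hprimes : ∀ t, t.Prime → t ∣ s ^ q * (r * (q * m)) → t = s ∨ t = r ∨ t = q ∨ t ∣ m := by
    intro t ht1 ht2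
    rcases (Nat.Prime.dvd_mul ht1).mp ht2 with h1 | h1
    · left
      exact (Nat.prime_dvd_prime_iff_eq ht1 hp).mp (ht1.dvd_of_dvd_pow h1)
    · right
      rcases (Nat.Prime.dvd_mul ht1).mp h1 with h1 | h1
      · left
        exact (Nat.prime_dvd_prime_iff_eq ht1 hr).mp h1
      · right
        rcases (Nat.Prime.dvd_mul ht1).mp h1 with h1 | h1
        · left
          exact (Nat.prime_dvd_prime_iff_eq ht1 hq).mp h1
        · right
          exact h1
  have hKprimes : ∀ t, t.Prime → t ∣ Nat.card (cj N).range → t ≠ s → t = r ∨ t = q := by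
    intro t ht1 ht2 hts
    obtain ⟨l, hl1, hl2, hl3⟩ := h.dvd_of_prime ht1 hts ht2
    rcases hprimes t ht1 (ht2.trans hKd) with h1 | h1 | h1 | h1
    · exact absurd h1 hts
    · exact Or.inl h1
    · exact Or.inr h1
    · exact absurd hl3 (ht t ht1 h1 l hl1 (hl2.trans hkq))
  have hssq : SS (X ⧸ N) := by
    apply IH
    · exact Subgroup.card_quotient_dvd_card N
    · rw [Subgroup.card_eq_card_quotient_mul_card_subgroup N, h.card]
      have h1 : 1 < s ^ k := Nat.one_lt_pow (by omega) hp.one_lt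
      have h2 : 0 < Nat.card (X ⧸ N) := Nat.card_pos
      nlinarith
    · intro hd
      have h1 : s ^ (q + k) ∣ Nat.card X := by
        rw [Subgroup.card_eq_card_quotient_mul_card_subgroup N, h.card, pow_add]
        exact Nat.mul_dvd_mul_right hd _
      have := le_of_pow_dvd hp hpn (h1.trans hX)
      omega
  have hssK : SS (cj N).range := MinData.ss_range hssq h
  have hpK : ¬ s ∣ Nat.card (cj N).range := h.coprime_of_ss hssK (by
    intro t ht1 ht2
    by_cases hts : t = s
    · exact hts.le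
    · rcases hKprimes t ht1 ht2 hts with h1 | h1
      · rw [h1]
        exact hrlt.le
      · rw [h1]
        exact (hqlt.trans hrlt).le)
  have hKpr : ∀ t, t.Prime → t ∣ Nat.card (cj N).range → t = r ∨ t = q := by
    intro t ht1 ht2
    apply hKprimes t ht1 ht2
    rintro rfl
    exact hpK ht2
  have hKrq : Nat.card (cj N).range ∣ r * q := by
    have hsq : Squarefree (Nat.card (cj N).range) := by
      apply hsf.squarefree_of_dvd
      apply Nat.Coprime.dvd_of_dvd_mul_left _ hKd
      apply Nat.Coprime.pow_right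
      exact ((Nat.Prime.coprime_iff_not_dvd hp).mpr hpK).symm
    rw [Nat.dvd_iff_prime_pow_dvd_dvd]
    intro t i ht1 hti
    rcases Nat.eq_zero_or_pos i with h0 | h0
    · rw [h0, pow_zero]
      exact one_dvd _
    have hsd : t ∣ Nat.card (cj N).range := (dvd_pow_self t h0.ne').trans hti
    have hi1 : i = 1 := by
      by_contra hne
      exact sq_not_dvd ht1 hsq ((Nat.pow_dvd_pow t (by omega)).trans hti)
    rw [hi1, pow_one]
    rcases hKpr t ht1 hsd with h2 | h2
    · rw [h2]
      exact dvd_mul_right _ _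
    · rw [h2]
      exact dvd_mul_left _ _
  have hrqp : r * q ∣ s - 1 :=
    Nat.Coprime.mul_dvd_of_dvd_of_dvd ((Nat.coprime_primes hr hq).mpr hqlt.ne') hrp hqp
  have hKpow : ∀ α ∈ (cj N).range, α ^ (s - 1) = 1 := by
    intro α hα
    rw [← orderOf_dvd_iff_pow_eq_one]
    have := orderOf_dvd_natCard (⟨α, hα⟩ : (cj N).range)
    rw [Subgroup.orderOf_mk] at this
    exact this.trans (hKrq.trans hrqp)
  have hKnc : ¬ ∀ x z : (cj N).range, x * z = z * x := by
    intro hcomm
    have h1 := h.card_of_abelian (fun α hα β hβ =>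
      congrArg (fun z : (cj N).range => (z : MulAut N)) (hcomm ⟨α, hα⟩ ⟨β, hβ⟩)) hKpow
    rw [h.card] at h1
    have h2 : s ^ k = s ^ 1 := by rw [h1, pow_one]
    have := Nat.pow_right_injective hp.two_le h2
    omega
  have hKcard : Nat.card (cj N).range = r * q := by
    have hcyc : ∀ t, t.Prime → Nat.card (cj N).range = t → False := by
      intro t ht1 ht2
      apply hKnc
      have : Fact t.Prime := ⟨ht1⟩
      have hc : IsCyclic (cj N).range := isCyclic_of_prime_card ht2
      intro a b
      exact IsCyclic.commGroup.mul_comm a b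
    rcases (Nat.dvd_mul).mp hKrq with ⟨x, y, hx, hy, hxy⟩
    rcases (Nat.dvd_prime hr).mp hx with h1 | h1 <;> rcases (Nat.dvd_prime hq).mp hy with h2 | h2
    · exfalso
      apply hKnc
      rw [h1, h2, one_mul] at hxy
      have : Subsingleton (cj N).range := (Nat.card_eq_one_iff_unique.mp hxy.symm).1
      exact fun a b => Subsingleton.elim _ _
    · exfalso
      rw [h1, h2, one_mul] at hxy
      exact hcyc q hq hxy.symm
    · exfalso
      rw [h1, h2, mul_one] at hxy
      exact hcyc r hr hxy.symm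
    · rw [← hxy, h1, h2]
  -- the structure of a group of order `r * q` which is supersolvable
  have hstruct : ∀ (K : Type) (_ : Group K) (_ : Finite K), SS K → Nat.card K = r * q →
      (¬ ∀ x z : K, x * z = z * x) → ∃ a y : K, orderOf a = r ∧ orderOf y = q ∧ y * a ≠ a * y ∧
        (Subgroup.zpowers a).Normal := by
    intro K _ _ hss hcard hnc
    obtain ⟨S, hSn, ⟨i, hi⟩, hidx⟩ := hss.sylow r hr (by
      intro t ht1 ht2
      rw [hcard] at ht2
      rcases (Nat.Prime.dvd_mul ht1).mp ht2 with h1 | h1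
      · exact ((Nat.prime_dvd_prime_iff_eq ht1 hr).mp h1).le
      · rw [(Nat.prime_dvd_prime_iff_eq ht1 hq).mp h1]
        exact hqlt.le)
    have hS : Nat.card S = r := by
      have h1 := Subgroup.card_mul_index S
      rw [hcard] at h1
      have h2 : r ∣ Nat.card S := by
        apply Nat.Coprime.dvd_of_dvd_mul_right ((Nat.Prime.coprime_iff_not_dvd hr).mpr hidx)
        rw [h1]
        exact dvd_mul_right _ _
      have h3 : Nat.card S ∣ r * q := by rw [← h1]; exact dvd_mul_right _ _
      have h4 : Nat.card S ∣ r := by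
        apply Nat.Coprime.dvd_of_dvd_mul_right _ h3
        rw [hi]
        exact Nat.Coprime.pow_left _ ((Nat.coprime_primes hr hq).mpr hqlt.ne')
      exact Nat.dvd_antisymm h4 h2
    have hScyc : IsCyclic S := isCyclic_of_prime_card hS
    obtain ⟨g, hg⟩ := hScyc.exists_generator
    have hgo : orderOf (g : K) = r := by
      rw [Subgroup.orderOf_coe, orderOf_eq_card_of_forall_mem_zpowers hg, hS]
    obtain ⟨y, hy⟩ := exists_prime_orderOf_dvd_card' (G := K) q (by rw [hcard]; exact dvd_mul_left _ _)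
    refine ⟨g, y, hgo, hy, ?_, ?_⟩
    · intro hc
      exact hnc (comm_of_commute hr hq hqlt.ne (by rw [hcard]) (g : K) y hgo hy hc)
    · have h1 : Subgroup.zpowers (g : K) = S := by
        apply le_antisymm
        · rw [Subgroup.zpowers_le]
          exact g.2
        · intro x hx
          obtain ⟨m, hm⟩ := Subgroup.mem_zpowers_iff.mp (hg ⟨x, hx⟩)
          exact Subgroup.mem_zpowers_iff.mpr ⟨m, congrArg (fun z : S => (z : K)) hm⟩
      rw [h1]
      exact hSn
  -- `k = q`
  have hkq' : q ≤ k := by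
    obtain ⟨a, y, ha, hy, hay, hn⟩ := hstruct _ inferInstance inferInstance hssK hKcard hKnc
    have hzn : ∀ (g : (cj N).range) (x : MulAut N), x ∈ Subgroup.zpowers (a : MulAut N) →
        (g : MulAut N) * x * (g : MulAut N)⁻¹ ∈ Subgroup.zpowers (a : MulAut N) := by
      intro g x hx
      obtain ⟨n, rfl⟩ := Subgroup.mem_zpowers_iff.mp hx
      obtain ⟨m, hm⟩ := Subgroup.mem_zpowers_iff.mp (hn.conj_mem (a ^ n)
        (Subgroup.zpow_mem _ (Subgroup.mem_zpowers a) n) g)
      refine Subgroup.mem_zpowers_iff.mpr ⟨m, ?_⟩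
      have := congrArg (fun z : (cj N).range => (z : MulAut N)) hm
      simpa using this
    apply @eig_count N (cg N h.comm) _ s k q _ (fun x => Subtype.ext (h.exp x x.2)) h.card hq
      (Subgroup.zpowers (a : MulAut N)) _ _ (y : MulAut N) (hzn y) _ _ _
    · intro α hα β hβ
      obtain ⟨n, rfl⟩ := Subgroup.mem_zpowers_iff.mp hα
      obtain ⟨m, rfl⟩ := Subgroup.mem_zpowers_iff.mp hβ
      exact (((Commute.refl (a : MulAut N)).zpow_left n).zpow_right m).eq
    · intro α hα
      apply hKpow
      have h1 : Subgroup.zpowers (a : MulAut N) ≤ (cj N).range := by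
        rw [Subgroup.zpowers_le]
        exact a.2
      exact h1 hα
    · intro α hα
      have h1 := hzn y⁻¹ α hα
      simpa using h1
    · have h1 : y ^ q = 1 := by rw [← hy, pow_orderOf_eq_one]
      have h2 : (y : MulAut N) ^ q = 1 := congrArg (fun z : (cj N).range => (z : MulAut N)) h1
      rw [h2]
      exact Subgroup.one_mem _
    · exact ⟨a, Subgroup.mem_zpowers _, fun h1 => hay (Subtype.ext h1)⟩
  have hkq'' : k = q := le_antisymm hkq hkq'
  subst hkq''
  -- self-centralizing
  have hsc : ∀ g : X, (∀ x ∈ N, g * x = x * g) → g ∈ N := by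
    intro g hg
    by_contra hgN
    obtain ⟨L, hL1, hL2, hL3, -⟩ := self_cent hno N hp h.exp h.comm hssq ⟨g, hgN, hg⟩
    have h1 : s ^ (k + 1) ∣ Nat.card X := by
      rw [pow_succ', ← h.card, ← hL3]
      exact Subgroup.card_subgroup_dvd_card L
    have := le_of_pow_dvd hp hpn (h1.trans hX)
    omega
  obtain ⟨eq1⟩ := h.quot_equiv hsc
  have hidx : N.index = r * k := by
    rw [← hKcard, ← Nat.card_congr eq1.toEquiv]
    rfl
  have hcop : Nat.Coprime (Nat.card N) N.index := by
    rw [h.card, hidx]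
    apply Nat.Coprime.pow_left
    rw [Nat.coprime_mul_iff_right]
    exact ⟨(Nat.coprime_primes hp hr).mpr hrlt.ne', (Nat.coprime_primes hp hq).mpr (hqlt.trans hrlt).ne'⟩
  obtain ⟨B', hB'c, hNB, e, he⟩ := exists_complement N hcop
  obtain ⟨a, y, ha, hy, hay, hn⟩ := hstruct B' inferInstance inferInstance
    (hssq.congr e.symm) (by rw [hB'c, hidx]) (by
      intro hc
      apply hKnc
      intro x z
      have h1 := hc (e.symm (eq1.symm x)) (e.symm (eq1.symm z))
      apply (e.trans eq1).symm.injective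
      rw [map_mul, map_mul]
      exact h1)
  have haX : orderOf (a : X) = r := by rw [Subgroup.orderOf_coe, ha]
  have hyX : orderOf (y : X) = k := by rw [Subgroup.orderOf_coe, hy]
  have haN : (a : X) ∉ N := by
    intro h1
    have h2 : (a : X) ∈ N ⊓ B' := ⟨h1, a.2⟩
    rw [hNB, Subgroup.mem_bot] at h2
    rw [h2, orderOf_one] at haX
    exact hr.one_lt.ne haX
  obtain ⟨j, hj⟩ : ∃ j : ℕ, (y : X) * a * (y : X)⁻¹ = (a : X) ^ j := by
    classical
    obtain ⟨n, -, hn'⟩ := Finset.mem_image.mp ((isOfFinOrder_of_finite a).mem_zpowers_iff_mem_range_orderOf.mp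
      (hn.conj_mem a (Subgroup.mem_zpowers a) y))
    refine ⟨n, ?_⟩
    have := congrArg (fun z : B' => (z : X)) hn'
    exact this.symm
  -- the fixed points of `a`
  have hfix : ∀ x ∈ N, (a : X) * x = x * a → x = 1 := by
    let L : Subgroup X :=
      { carrier := {x | x ∈ N ∧ Commute (a : X) x}
        mul_mem' := fun ha hb => ⟨N.mul_mem ha.1 hb.1, ha.2.mul_right hb.2⟩
        one_mem' := ⟨N.one_mem, Commute.one_right _⟩
        inv_mem' := fun ha => ⟨N.inv_mem ha.1, ha.2.inv_right⟩ }
    have hLn : L.Normal := by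
      refine ⟨?_⟩
      rintro x ⟨hx, hx'⟩ g
      obtain ⟨b, hb⟩ := e.surjective (QuotientGroup.mk' N g)
      rw [he] at hb
      have hg : g * (b : X)⁻¹ ∈ N := by
        rw [← QuotientGroup.ker_mk' N, MonoidHom.mem_ker, map_mul, map_inv, hb, mul_inv_cancel]
      have hxb : (b : X) * x * (b : X)⁻¹ ∈ N := h.normal.conj_mem x hx _
      have h1 : g * x * g⁻¹ = (b : X) * x * (b : X)⁻¹ := by
        have h2 := h.comm _ hg _ hxb
        calc g * x * g⁻¹ = (g * (b : X)⁻¹) * ((b : X) * x * (b : X)⁻¹) * (g * (b : X)⁻¹)⁻¹ := by group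
          _ = _ := by rw [h2, mul_inv_cancel_right]
      rw [h1]
      refine ⟨hxb, ?_⟩
      obtain ⟨n, hn'⟩ := Subgroup.mem_zpowers_iff.mp (hn.conj_mem a (Subgroup.mem_zpowers a) b⁻¹)
      have h3 : (b : X)⁻¹ * a * b = (a : X) ^ n := by
        have := congrArg (fun z : B' => (z : X)) hn'
        simpa using this.symm
      have h4 : (a : X) = (b : X) * (a : X) ^ n * (b : X)⁻¹ := by
        rw [← h3]
        group
      rw [h4]
      show (b : X) * (a : X) ^ n * (b : X)⁻¹ * ((b : X) * x * (b : X)⁻¹) =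
        (b : X) * x * (b : X)⁻¹ * ((b : X) * (a : X) ^ n * (b : X)⁻¹)
      have h5 := (hx'.zpow_left n).eq
      calc (b : X) * (a : X) ^ n * (b : X)⁻¹ * ((b : X) * x * (b : X)⁻¹)
          = (b : X) * ((a : X) ^ n * x) * (b : X)⁻¹ := by group
        _ = (b : X) * (x * (a : X) ^ n) * (b : X)⁻¹ := by rw [h5]
        _ = _ := by group
    rcases h.irr L hLn (fun x hx => hx.1) with h1 | h1
    · intro x hx hax
      have h2 : x ∈ L := ⟨hx, hax⟩
      rw [h1, Subgroup.mem_bot] at h2
      exact h2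
    · exfalso
      apply haN
      apply hsc
      intro x hx
      rw [← h1] at hx
      exact hx.2
  -- an eigenvector
  have hNnt := h.nontrivial
  have hcja : (cj N (a : X)) ^ (s - 1) = 1 := by
    rw [← map_pow]
    have h1 : (a : X) ^ (s - 1) = 1 := by
      rw [← orderOf_dvd_iff_pow_eq_one, haX]
      exact hrp
    rw [h1, map_one]
  obtain ⟨v0, -, hv01, hv0⟩ := @exists_eigen N (cg N h.comm) _ s _
    (fun x => Subtype.ext (h.exp x x.2)) (Subgroup.zpowers (cj N (a : X))) (by
      intro α hα β hβ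
      obtain ⟨n, rfl⟩ := Subgroup.mem_zpowers_iff.mp hα
      obtain ⟨m, rfl⟩ := Subgroup.mem_zpowers_iff.mp hβ
      exact (((Commute.refl _).zpow_left n).zpow_right m).eq) (by
      intro α hα
      obtain ⟨n, rfl⟩ := Subgroup.mem_zpowers_iff.mp hα
      rw [← zpow_natCast, ← zpow_mul, mul_comm, zpow_mul, zpow_natCast, hcja, one_zpow])
    ⊤ top_ne_bot (fun _ _ _ _ => trivial)
  obtain ⟨i, hi⟩ := hv0 _ (Subgroup.mem_zpowers _)
  have hi' : (a : X) * v0 * (a : X)⁻¹ = (v0 : X) ^ i := by
    rw [← cj_apply, hi]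
    rfl
  apply d_model N (p := s) (r := r) (q := k) hq hqlt.ne h.exp h.comm (a : X) (y : X) haX hyX j hj
    (fun h1 => hay (Subtype.ext h1)) (v0 : X) v0.2 i hi'
    (fun h1 => hv01 (Subtype.ext (hfix v0 v0.2 h1))) B' a.2 y.2 hNB
    (by rw [← hidx, Subgroup.card_mul_index]) (by rw [h.card]) B hB l hl hlo

end Pool.Agent.Lib.MP_4f0ec0_al
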