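import Mathlib

/-! A `p`-group with centre of order `p` and elementary abelian central quotient has even rank. -/

namespace Pool.Agent.Lib.MP_4f0ec0_al

open Function

lemma even_of_alt {p : ℕ} [hp : Fact p.Prime] {E : Type} [AddCommGroup E] [Module (ZMod p) E]
    [Finite E] (B : LinearMap.BilinForm (ZMod p) E) (halt : ∀ u, B u u = 0)
    (hnd : ∀ u, (∀ v, B u v = 0) → u = 0) : Even (Module.finrank (ZMod p) E) := by
  have hfd : FiniteDimensional (ZMod p) E := Module.Finite.of_finite
  have hskew : ∀ u v, B u v = - B v u := by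
    intro u v
    have h1 := halt (u + v)
    simp only [map_add, LinearMap.add_apply, halt, zero_add, add_zero] at h1
    exact eq_neg_of_add_eq_zero_right h1
  obtain ⟨W, hW, hmax⟩ := Set.Finite.exists_maximalFor
    (fun W : Submodule (ZMod p) E => Nat.card W)
    {W : Submodule (ZMod p) E | ∀ u ∈ W, ∀ v ∈ W, B u v = 0} (Set.toFinite _)
    ⟨⊥, by
      intro u hu v hv
      rw [Submodule.mem_bot] at hu
      rw [hu, map_zero, LinearMap.zero_apply]⟩
  have hWo : B.orthogonal W = W := by
    apply le_antisymm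
    · intro v hv
      rw [LinearMap.BilinForm.mem_orthogonal_iff] at hv
      have hv' : ∀ w ∈ W, B w v = 0 := hv
      by_contra hvW
      have hiso : (W ⊔ Submodule.span (ZMod p) {v}) ∈
          {W : Submodule (ZMod p) E | ∀ u ∈ W, ∀ v ∈ W, B u v = 0} := by
        intro a ha b hb
        obtain ⟨w, hw, x, hx, rfl⟩ := Submodule.mem_sup.mp ha
        obtain ⟨w', hw', x', hx', rfl⟩ := Submodule.mem_sup.mp hb
        obtain ⟨s, rfl⟩ := Submodule.mem_span_singleton.mp hx
        obtain ⟨t, rfl⟩ := Submodule.mem_span_singleton.mp hx'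
        simp only [map_add, map_smul, LinearMap.add_apply, LinearMap.smul_apply, smul_eq_mul,
          hW w hw w' hw', hv' w hw, halt, mul_zero, add_zero, zero_add]
        rw [hskew v w', hv' w' hw', neg_zero, mul_zero]
      have h1 := hmax hiso (by
        apply Nat.card_mono (Set.toFinite _)
        exact SetLike.coe_subset_coe.mpr (le_sup_left :
          W ≤ W ⊔ Submodule.span (ZMod p) {v}))
      have h2 : W = W ⊔ Submodule.span (ZMod p) {v} := by
        apply SetLike.coe_injective
        apply Set.eq_of_subset_of_ncard_le (SetLike.coe_subset_coe.mpr (le_sup_left :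
          W ≤ W ⊔ Submodule.span (ZMod p) {v}))
        exact h1
      apply hvW
      rw [h2]
      exact Submodule.mem_sup_right (Submodule.mem_span_singleton_self v)
    · intro v hv
      rw [LinearMap.BilinForm.mem_orthogonal_iff]
      intro w hw
      exact hW w hw v hv
  have hker : LinearMap.ker B = ⊥ := by
    rw [eq_bot_iff]
    intro u hu
    rw [LinearMap.mem_ker] at hu
    rw [Submodule.mem_bot]
    apply hnd
    intro v
    rw [hu, LinearMap.zero_apply]
  have h1 := LinearMap.BilinForm.finrank_add_finrank_orthogonal' (B := B) W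
  rw [hWo, hker, inf_bot_eq, finrank_bot, add_zero] at h1
  exact ⟨_, h1.symm⟩

theorem parity_group {p : ℕ} [hp : Fact p.Prime] {P E : Type} [Group P] [Finite P]
    [AddCommGroup E] [Module (ZMod p) E] [Finite E] (π : P →* Multiplicative E)
    (hπ : Surjective π) (hker : Nat.card π.ker = p) (hcen : ∀ x ∈ π.ker, ∀ z, x * z = z * x)
    (hz : ∀ x, (∀ z, x * z = z * x) → x ∈ π.ker) : Even (Module.finrank (ZMod p) E) := by
  have hcyc : IsCyclic π.ker := isCyclic_of_prime_card hker
  have hcyc' : IsCyclic (Multiplicative (ZMod p)) := inferInstance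
  have ψ : π.ker ≃* Multiplicative (ZMod p) := mulEquivOfCyclicCardEq (by
    rw [hker, Nat.card_congr Multiplicative.toAdd, Nat.card_zmod])
  have hcomm : ∀ x z : P, x * z * x⁻¹ * z⁻¹ ∈ π.ker := by
    intro x z
    rw [MonoidHom.mem_ker, map_mul, map_mul, map_mul, map_inv, map_inv, mul_comm (π x) (π z),
      mul_inv_cancel_right, mul_inv_cancel]
  let c : P → P → π.ker := fun x z => ⟨x * z * x⁻¹ * z⁻¹, hcomm x z⟩
  have hc1 : ∀ x x' z, c (x * x') z = c x z * c x' z := by
    intro x x' z
    apply Subtype.ext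
    show x * x' * z * (x * x')⁻¹ * z⁻¹ = (x * z * x⁻¹ * z⁻¹) * (x' * z * x'⁻¹ * z⁻¹)
    have h1 := hcen _ (hcomm x' z) (x * z * x⁻¹ * z⁻¹)
    have h2 := hcen _ (hcomm x' z) x
    calc x * x' * z * (x * x')⁻¹ * z⁻¹ = x * (x' * z * x'⁻¹ * z⁻¹) * (z * x⁻¹ * z⁻¹) := by group
      _ = (x' * z * x'⁻¹ * z⁻¹) * x * (z * x⁻¹ * z⁻¹) := by rw [h2]
      _ = (x' * z * x'⁻¹ * z⁻¹) * (x * z * x⁻¹ * z⁻¹) := by group
      _ = _ := h1
  have hc2 : ∀ x z, c x z = (c z x)⁻¹ := by
    intro x z
    apply Subtype.ext
    show x * z * x⁻¹ * z⁻¹ = (z * x * z⁻¹ * x⁻¹)⁻¹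
    group
  have hc3 : ∀ x z z', c x (z * z') = c x z * c x z' := by
    intro x z z'
    rw [hc2, hc1, mul_inv_rev, ← hc2, ← hc2]
    exact Subtype.ext (hcen _ (c x z').2 _)
  have hck : ∀ x ∈ π.ker, ∀ z, c x z = 1 := by
    intro x hx z
    apply Subtype.ext
    show x * z * x⁻¹ * z⁻¹ = 1
    rw [hcen x hx z]
    group
  have hcπ : ∀ x x' z, π x = π x' → c x z = c x' z := by
    intro x x' z h
    have h1 : x = x' * (x'⁻¹ * x) := by group
    have h2 : x'⁻¹ * x ∈ π.ker := by rw [MonoidHom.mem_ker, map_mul, map_inv, h, inv_mul_cancel]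
    rw [h1, hc1, hck _ h2, mul_one]
  have hcπ' : ∀ x z z', π z = π z' → c x z = c x z' := by
    intro x z z' h
    rw [hc2, hcπ z z' x h, ← hc2]
  choose s hs using hπ
  let b : E → E → ZMod p := fun u v =>
    Multiplicative.toAdd (ψ (c (s (Multiplicative.ofAdd u)) (s (Multiplicative.ofAdd v))))
  have hb1 : ∀ u u' v, b (u + u') v = b u v + b u' v := by
    intro u u' v
    show Multiplicative.toAdd (ψ (c (s (Multiplicative.ofAdd (u + u'))) _)) = _
    rw [hcπ _ (s (Multiplicative.ofAdd u) * s (Multiplicative.ofAdd u')) _ (by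
      rw [map_mul, hs, hs, hs, ofAdd_add]), hc1, map_mul, toAdd_mul]
  have hb2 : ∀ u v v', b u (v + v') = b u v + b u v' := by
    intro u v v'
    show Multiplicative.toAdd (ψ (c _ (s (Multiplicative.ofAdd (v + v'))))) = _
    rw [hcπ' _ _ (s (Multiplicative.ofAdd v) * s (Multiplicative.ofAdd v')) (by
      rw [map_mul, hs, hs, hs, ofAdd_add]), hc3, map_mul, toAdd_mul]
  let B : LinearMap.BilinForm (ZMod p) E :=
    AddMonoidHom.toZModLinearMap p
      { toFun := fun u => AddMonoidHom.toZModLinearMap p
          { toFun := fun v => b u v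
            map_zero' := by
              have h := hb2 u 0 0
              rw [add_zero] at h
              exact left_eq_add.mp h
            map_add' := hb2 u }
        map_zero' := by
          ext v
          have h := hb1 0 0 v
          rw [add_zero] at h
          exact left_eq_add.mp h
        map_add' := fun u u' => by
          ext v
          exact hb1 u u' v }
  have hB : ∀ u v, B u v = b u v := fun u v => rfl
  apply even_of_alt B
  · intro u
    rw [hB]
    show Multiplicative.toAdd (ψ (c _ _)) = 0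
    have h1 : c (s (Multiplicative.ofAdd u)) (s (Multiplicative.ofAdd u)) = 1 := by
      apply Subtype.ext
      show _ * _ * _⁻¹ * _⁻¹ = (1 : P)
      group
    rw [h1, map_one]
    rfl
  · intro u hu
    have h1 : s (Multiplicative.ofAdd u) ∈ π.ker := by
      apply hz
      intro z
      have h2 := hu (Multiplicative.toAdd (π z))
      rw [hB] at h2
      have h3 : ψ (c (s (Multiplicative.ofAdd u))
          (s (Multiplicative.ofAdd (Multiplicative.toAdd (π z))))) = 1 := h2
      rw [ofAdd_toAdd, hcπ' _ _ z (by rw [hs])] at h3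
      have h4 : c (s (Multiplicative.ofAdd u)) z = 1 := by
        apply ψ.injective
        rw [h3, map_one]
      have h5 := congrArg (fun w : π.ker => (w : P)) h4
      have h6 : s (Multiplicative.ofAdd u) * z * (s (Multiplicative.ofAdd u))⁻¹ * z⁻¹ = 1 := h5
      calc s (Multiplicative.ofAdd u) * z
          = s (Multiplicative.ofAdd u) * z * (s (Multiplicative.ofAdd u))⁻¹ * z⁻¹ * z *
            s (Multiplicative.ofAdd u) := by group
        _ = z * s (Multiplicative.ofAdd u) := by rw [h6, one_mul]
    rw [MonoidHom.mem_ker, hs] at h1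
    exact h1

end Pool.Agent.Lib.MP_4f0ec0_al
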