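import Mathlib
import Pool.Agent.Lib.MP_4f0ec0_al.Parity
import Pool.Agent.Lib.MP_4f0ec0_al.SelfCent
import Pool.Agent.Lib.MP_4f0ec0_al.Forward

/-! Splitting off a central subgroup of prime order. -/

namespace Pool.Agent.Lib.MP_4f0ec0_al

open Function

lemma prod_of_hom {X C : Type} [Group X] [Finite X] [Group C] [Finite C] (R : Subgroup X)
    [R.Normal] (f : X →* C) (hf : ∀ x ∈ R, f x = 1 → x = 1) (hc : Nat.card C = Nat.card R) :
    Nonempty (X ≃* C × (X ⧸ R)) := by
  let g : X →* C × (X ⧸ R) := f.prod (QuotientGroup.mk' R)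
  have hg : Injective g := by
    rw [injective_iff_map_eq_one]
    intro x hx
    have h1 : f x = 1 := congrArg Prod.fst hx
    have h2 : QuotientGroup.mk' R x = 1 := congrArg Prod.snd hx
    rw [← MonoidHom.mem_ker, QuotientGroup.ker_mk'] at h2
    exact hf x h2 h1
  exact ⟨MulEquiv.ofBijective g ((Nat.bijective_iff_injective_and_card _).mpr ⟨hg, by
    rw [Nat.card_prod, hc, mul_comm]
    exact Subgroup.card_eq_card_quotient_mul_card_subgroup R⟩)⟩

lemma transfer_central {X A : Type} [Group X] [Finite X] [CommGroup A] (H : Subgroup X)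
    (ϕ : H →* A) (x : X) (hx : x ∈ H) (hcen : ∀ g, g * x = x * g) :
    MonoidHom.transfer ϕ x = ϕ ⟨x, hx⟩ ^ H.index := by
  rw [MonoidHom.transfer_eq_pow ϕ x (by
    intro k g₀ _
    have h1 : Commute g₀ x := hcen g₀
    have h2 := (h1.pow_right k).eq
    rw [mul_assoc, ← h2, inv_mul_cancel_left]), ← map_pow]
  rfl

lemma exists_hom_coprime {X : Type} [Group X] [Finite X] (R : Subgroup X)
    (hcen : ∀ g, ∀ x ∈ R, g * x = x * g) (hcop : Nat.Coprime (Nat.card R) R.index) :
    ∃ f : X →* R, ∀ x ∈ R, f x = 1 → x = 1 := by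
  let cgR : CommGroup R := { (inferInstance : Group R) with mul_comm := fun x y => Subtype.ext (hcen x y y.2) }
  refine ⟨MonoidHom.transfer (MonoidHom.id R), ?_⟩
  intro x hx h
  rw [transfer_central R (MonoidHom.id R) x hx (fun g => hcen g x hx)] at h
  have h1 : (⟨x, hx⟩ : R) ^ R.index = 1 := h
  have h2 : orderOf (⟨x, hx⟩ : R) ∣ Nat.gcd (Nat.card R) R.index :=
    Nat.dvd_gcd (orderOf_dvd_natCard _) (orderOf_dvd_of_pow_eq_one h1)
  rw [hcop, Nat.dvd_one, orderOf_eq_one_iff] at h2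
  exact congrArg (fun z : R => (z : X)) h2

end Pool.Agent.Lib.MP_4f0ec0_al
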