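import Mathlib
import Pool.Agent.Lib.MP_4f0ec0_al.Split

/-! The induction for the uniqueness of the non-supersolvable group. -/

namespace Pool.Agent.Lib.MP_4f0ec0_al

open Function

theorem unique_of {d m : ℕ} (hd : 0 < d) (hm0 : m ≠ 0) (hm : Nat.Coprime m (Nat.totient m))
    (H : Type) [Group H] [Finite H] (hH : Nat.card H = d)
    (hhom : ∀ s, s.Prime → s ∣ m → ∀ f : H →* (ZMod s)ˣ, ∀ x, f x = 1)
    (hsplit : ∀ s, s.Prime → s ∣ d → ∀ m', m' ≠ 0 → s * m' ∣ m → ∀ (X : Type) (_ : Group X)
      (_ : Finite X) (R : Subgroup X) (_ : R.Normal), Nat.card R = s →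
      (∀ g, ∀ x ∈ R, g * x = x * g) → (X ⧸ R ≃* H × Cyc m') →
      ∃ f : X →* Multiplicative (ZMod s), ∀ x ∈ R, f x = 1 → x = 1)
    (hcore : ∀ (X : Type) (_ : Group X) (_ : Finite X), Nat.card X ∣ d * m → ¬ SS X →
      NoPrime X → (∀ (Y : Type) (_ : Group Y), Nat.card Y ∣ Nat.card X →
        Nat.card Y < Nat.card X → ¬ d ∣ Nat.card Y → SS Y) → Nonempty (H ≃* X)) :
    ∀ e, ∀ (X : Type) (_ : Group X), Nat.card X = e → e ∣ d * m → ¬ SS X →
      ∃ m', m' ∣ m ∧ e = d * m' ∧ Nonempty (X ≃* H × Cyc m') := by
  have hn0 : d * m ≠ 0 := Nat.mul_ne_zero hd.ne' hm0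
  intro e
  induction e using Nat.strong_induction_on with
  | _ e ih =>
    intro X _ hXe hed hnss
    have he0 : 0 < e := Nat.pos_of_dvd_of_pos hed (Nat.pos_of_ne_zero hn0)
    have hfin : Finite X := Nat.finite_of_card_ne_zero (by rw [hXe]; exact he0.ne')
    by_cases hno : NoPrime X
    · obtain ⟨e1⟩ := hcore X inferInstance hfin (by rw [hXe]; exact hed) hnss hno (by
        intro Y _ hY1 hY2 hY3
        by_contra hss
        obtain ⟨m', -, hm', -⟩ := ih (Nat.card Y) (by rw [← hXe]; exact hY2) Y inferInstance rfl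
          ((by rw [hXe] at hY1; exact hY1.trans hed)) hss
        exact hY3 ⟨m', hm'⟩)
      refine ⟨1, one_dvd _, ?_, ?_⟩
      · rw [mul_one, ← hH, ← hXe]
        exact (Nat.card_congr e1.toEquiv).symm
      · have hb : Bijective (MonoidHom.fst H (Cyc 1)) := by
          refine ⟨?_, Prod.fst_surjective⟩
          rintro ⟨a, c⟩ ⟨b, c'⟩ hab
          exact Prod.ext hab (Subsingleton.elim _ _)
        exact ⟨e1.symm.trans (MulEquiv.ofBijective _ hb).symm⟩
    · -- a normal subgroup of prime order
      unfold NoPrime at hno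
      push Not at hno
      obtain ⟨R, hRn, hRp⟩ := hno
      obtain ⟨s, hs⟩ : ∃ s, Nat.card R = s := ⟨_, rfl⟩
      rw [hs] at hRp
      have hfs : Fact s.Prime := ⟨hRp⟩
      have hqc : Nat.card X = Nat.card (X ⧸ R) * s := by
        rw [Subgroup.card_eq_card_quotient_mul_card_subgroup R, hs]
      have hqpos : 0 < Nat.card (X ⧸ R) := Nat.card_pos
      have hqlt : Nat.card (X ⧸ R) < e := by
        rw [← hXe, hqc]
        have := hRp.one_lt
        nlinarith
      have hqd : Nat.card (X ⧸ R) ∣ d * m := by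
        refine (Dvd.intro s ?_).trans hed
        rw [← hXe, hqc]
      obtain ⟨m', hm'd, hm'c, ⟨e1⟩⟩ := ih _ hqlt (X ⧸ R) inferInstance rfl hqd (by
        intro h
        exact hnss (SS.extend R (by rw [hs]; exact hRp) h))
      have hm'0 : m' ≠ 0 := by
        rintro rfl
        rw [mul_zero] at hm'c
        omega
      have : NeZero m' := ⟨hm'0⟩
      have hsm : s * m' ∣ m := by
        rw [← hXe, hqc, hm'c, mul_assoc] at hed
        have := Nat.dvd_of_mul_dvd_mul_left hd hed
        rwa [mul_comm m' s] at this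
      have hsdm : s ∣ m := (dvd_mul_right _ _).trans hsm
      -- `R` is central
      have hRcyc : IsCyclic R := isCyclic_of_prime_card hs
      have hRcomm : ∀ x ∈ R, ∀ y ∈ R, x * y = y * x := by
        intro x hx y hy
        exact congrArg (fun z : R => (z : X)) (IsCyclic.commGroup.mul_comm (⟨x, hx⟩ : R) ⟨y, hy⟩)
      have hone : ∀ z : H × Cyc m', ∀ g : H × Cyc m' →* (ZMod s)ˣ, g z = 1 := by
        rintro ⟨h, c⟩ g
        have h1 : g (h, 1) = 1 := hhom s hRp hsdm (g.comp (MonoidHom.inl H (Cyc m'))) h
        have h2 : g (1, c) = 1 := by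
          rw [← orderOf_eq_one_iff]
          have h3 : orderOf (g (1, c)) ∣ m' := by
            refine (orderOf_map_dvd (g.comp (MonoidHom.inr H (Cyc m'))) c).trans ?_
            have := orderOf_dvd_natCard c
            rwa [card_Cyc] at this
          have h4 : orderOf (g (1, c)) ∣ s - 1 := by
            have := orderOf_dvd_natCard (g (1, c))
            rwa [Nat.card_units, Nat.card_zmod] at this
          have h5 : s - 1 ∣ Nat.totient m := by
            rw [← Nat.totient_prime hRp]
            exact Nat.totient_dvd_of_dvd hsdm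
          have h6 := Nat.dvd_gcd (h3.trans hm'd) (h4.trans h5)
          rw [hm] at h6
          exact Nat.dvd_one.mp h6
        have h3 : ((h, c) : H × Cyc m') = (h, 1) * (1, c) := by simp
        rw [h3, map_mul, h1, h2, one_mul]
      have hcen : ∀ g : X, ∀ x ∈ R, g * x = x * g := by
        have hker : R ≤ (MulAut.conjNormal : X →* MulAut R).ker := by
          intro x hx
          rw [MonoidHom.mem_ker]
          ext z
          rw [MulAut.conjNormal_apply, hRcomm x hx z z.2, mul_inv_cancel_right,
            MulAut.one_apply]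
        subst hs
        intro g x hx
        let G : H × Cyc m' →* (ZMod (Nat.card R))ˣ :=
          (IsCyclic.mulAutMulEquiv R).toMonoidHom.comp
            ((QuotientGroup.lift R MulAut.conjNormal hker).comp e1.symm.toMonoidHom)
        have h1 := hone (e1 (QuotientGroup.mk' R g)) G
        have h2 : (IsCyclic.mulAutMulEquiv R) (MulAut.conjNormal g) = 1 := by
          have h3 : G (e1 (QuotientGroup.mk' R g)) =
              (IsCyclic.mulAutMulEquiv R) (QuotientGroup.lift R MulAut.conjNormal hker
                (e1.symm (e1 (QuotientGroup.mk' R g)))) := rfl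
          rw [e1.symm_apply_apply] at h3
          rw [← h1, h3]
          rfl
        have h3 : (MulAut.conjNormal g : MulAut R) = 1 := by
          apply (IsCyclic.mulAutMulEquiv R).injective
          rw [h2, map_one]
        have h5 := congrArg (fun (a : MulAut R) => ((a ⟨x, hx⟩ : R) : X)) h3
        simp only [MulAut.conjNormal_apply, MulAut.one_apply] at h5
        calc g * x = g * x * g⁻¹ * g := by group
          _ = x * g := by rw [h5]
      -- the splitting
      have hmain : ∀ (C : Type) (_ : Group C) (_ : Finite C), Nat.card C = s →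
          ∀ f : X →* C, (∀ x ∈ R, f x = 1 → x = 1) → Nonempty (X ≃* H × Cyc (s * m')) := by
        intro C _ _ hC f hf
        obtain ⟨e2⟩ := prod_of_hom R f hf (by rw [hC, hs])
        have h1 : Nat.card (C × Cyc m') = s * m' := by rw [Nat.card_prod, hC, card_Cyc]
        have h2 : IsCyclic (C × Cyc m') := isCyclic_of_cyc (Nat.mul_ne_zero hRp.ne_zero hm'0)
          (cyc_of_dvd hm hsm) h1
        have h3 : IsCyclic (Cyc (s * m')) := inferInstance
        have e3 : C × Cyc m' ≃* Cyc (s * m') := mulEquivOfCyclicCardEq (by rw [h1, card_Cyc])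
        have e4 : C × (H × Cyc m') ≃* H × (C × Cyc m') :=
          { toFun := fun z => (z.2.1, (z.1, z.2.2))
            invFun := fun z => (z.2.1, (z.1, z.2.2))
            left_inv := fun z => rfl
            right_inv := fun z => rfl
            map_mul' := fun z w => rfl }
        exact ⟨e2.trans ((MulEquiv.prodCongr (MulEquiv.refl C) e1).trans
          (e4.trans (MulEquiv.prodCongr (MulEquiv.refl H) e3)))⟩
      refine ⟨s * m', hsm, ?_, ?_⟩
      · rw [← hXe, hqc, hm'c]
        ring
      · by_cases hsd : s ∣ d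
        · obtain ⟨f, hf⟩ := hsplit s hRp hsd m' hm'0 hsm X inferInstance hfin R hRn hs hcen e1
          exact hmain _ inferInstance inferInstance
            (by rw [Nat.card_congr Multiplicative.toAdd, Nat.card_zmod]) f hf
        · have hcop : Nat.Coprime (Nat.card R) R.index := by
            have h1 : R.index = d * m' := by rw [← hm'c]; rfl
            rw [hs, h1, Nat.Prime.coprime_iff_not_dvd hRp, hRp.dvd_mul]
            rintro (h2 | h2)
            · exact hsd h2
            · have h3 : s * s ∣ m := (Nat.mul_dvd_mul_left s h2).trans hsm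
              exact Nat.squarefree_iff_prime_squarefree.mp (cyc_squarefree hm) s hRp h3
          obtain ⟨f, hf⟩ := exists_hom_coprime R hcen hcop
          exact hmain R inferInstance inferInstance hs f hf

theorem almost_of {d m : ℕ} (hd : 0 < d) (hm0 : m ≠ 0) (hm : Nat.Coprime m (Nat.totient m))
    (H : Type) [Group H] [Finite H] (hH : Nat.card H = d) (hHss : ¬ SS H)
    (hhom : ∀ s, s.Prime → s ∣ m → ∀ f : H →* (ZMod s)ˣ, ∀ x, f x = 1)
    (hsplit : ∀ s, s.Prime → s ∣ d → ∀ m', m' ≠ 0 → s * m' ∣ m → ∀ (X : Type) (_ : Group X)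
      (_ : Finite X) (R : Subgroup X) (_ : R.Normal), Nat.card R = s →
      (∀ g, ∀ x ∈ R, g * x = x * g) → (X ⧸ R ≃* H × Cyc m') →
      ∃ f : X →* Multiplicative (ZMod s), ∀ x ∈ R, f x = 1 → x = 1)
    (hcore : ∀ (X : Type) (_ : Group X) (_ : Finite X), Nat.card X ∣ d * m → ¬ SS X →
      NoPrime X → (∀ (Y : Type) (_ : Group Y), Nat.card Y ∣ Nat.card X →
        Nat.card Y < Nat.card X → ¬ d ∣ Nat.card Y → SS Y) → Nonempty (H ≃* X)) :
    (∃ (G : Type) (_ : Group G), Nat.card G = d * m ∧ ¬ SS G) ∧
      ∀ (G : Type) (_ : Group G), Nat.card G = d * m → ¬ SS G → Nonempty (G ≃* H × Cyc m) := by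
  constructor
  · refine ⟨H × Cyc m, inferInstance, by rw [Nat.card_prod, hH, card_Cyc], ?_⟩
    intro h
    exact hHss (h.of_injective (MonoidHom.inl H (Cyc m)) (fun a b hab => congrArg Prod.fst hab))
  · intro G _ hG hGs
    obtain ⟨m', -, hm', he⟩ := unique_of hd hm0 hm H hH hhom hsplit hcore (d * m) G inferInstance
      hG dvd_rfl hGs
    have h1 : m = m' := Nat.eq_of_mul_eq_mul_left hd hm'
    rw [h1]
    exact he

end Pool.Agent.Lib.MP_4f0ec0_al
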