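import Mathlib
import Pool.Agent.Lib.MP_4f0ec0_al.Split

/-! Splitting off a central subgroup of order `p` in type A. -/

namespace Pool.Agent.Lib.MP_4f0ec0_al

open Function

theorem splitA {p q a m' : ℕ} [hp : Fact p.Prime] (hq : q.Prime) (hpq : p ≠ q) (ha : 2 ≤ a)
    (hodd : Odd a) (hord2 : ∀ l, 0 < l → l < a → ¬ q ∣ p ^ l - 1) {E : Type} [Field E] [Finite E]
    (hE : Nat.card E = p ^ a) (θ : Eˣ) (hθ : orderOf θ = q) (hm' : ¬ p ∣ m') (hm0 : m' ≠ 0)
    {X : Type} [Group X] [Finite X] (R : Subgroup X) [R.Normal] (hR : Nat.card R = p)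
    (hcen : ∀ g, ∀ x ∈ R, g * x = x * g)
    (e : X ⧸ R ≃* Aff E (Subgroup.zpowers θ) × Cyc m') :
    ∃ f : X →* Multiplicative (ZMod p), ∀ x ∈ R, f x = 1 → x = 1 := by
  classical
  have hm'z : NeZero m' := ⟨hm0⟩
  have : Fintype E := Fintype.ofFinite E
  have hchar : CharP E p := charP_of_card_eq_prime_pow (R := E) (p := p) (f := a) (by
    rw [← Nat.card_eq_fintype_card, hE])
  let : Algebra (ZMod p) E := ZMod.algebra E p
  have hfr : Module.finrank (ZMod p) E = a := by
    have h1 := Module.natCard_eq_pow_finrank (K := ZMod p) (V := E)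
    rw [hE, Nat.card_zmod] at h1
    exact (Nat.pow_right_injective hp.out.two_le h1).symm
  let F : X →* Aff E (Subgroup.zpowers θ) × Cyc m' := e.toMonoidHom.comp (QuotientGroup.mk' R)
  have hFs : Surjective F := e.surjective.comp (QuotientGroup.mk'_surjective R)
  have hF1 : ∀ x, F x = 1 ↔ x ∈ R := by
    intro x
    rw [← QuotientGroup.ker_mk' R, MonoidHom.mem_ker]
    constructor
    · intro h
      apply e.injective
      rw [map_one]
      exact h
    · intro h
      show e (QuotientGroup.mk' R x) = 1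
      rw [h, map_one]
  let κ : X →* (Subgroup.zpowers θ) × Cyc m' :=
    (MonoidHom.prodMap (SemidirectProduct.rightHom) (MonoidHom.id (Cyc m'))).comp F
  have hκ : ∀ x, κ x = ((F x).1.right, (F x).2) := fun x => rfl
  have hκs : Surjective κ := by
    intro ⟨u, c⟩
    obtain ⟨x, hx⟩ := hFs (SemidirectProduct.inr u, c)
    refine ⟨x, ?_⟩
    rw [hκ, hx]
    rfl
  set P := κ.ker with hP
  have hPF : ∀ x, x ∈ P ↔ (F x).1.right = 1 ∧ (F x).2 = 1 := by
    intro x
    rw [hP, MonoidHom.mem_ker, hκ, Prod.mk_eq_one]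
  have hPidx : P.index = q * m' := by
    rw [hP, Subgroup.index_ker, MonoidHom.range_eq_top.mpr hκs, Subgroup.card_top, Nat.card_prod,
      card_Cyc, Nat.card_zpowers, hθ]
  have hPcard : Nat.card P = p * p ^ a := by
    have h1 := Subgroup.card_mul_index P
    have h2 := Subgroup.card_eq_card_quotient_mul_card_subgroup R
    rw [Nat.card_congr e.toEquiv, Nat.card_prod, card_Aff, card_Cyc, Nat.card_zpowers, hθ, hE, hR,
      ← h1, hPidx] at h2
    have h3 : 0 < q * m' := Nat.mul_pos hq.pos (Nat.pos_of_ne_zero hm0)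
    apply Nat.eq_of_mul_eq_mul_right h3
    rw [h2]
    ring
  let π : P →* Multiplicative E :=
    { toFun := fun x => (F x).1.left
      map_one' := by simp
      map_mul' := fun x z => by
        rw [Subgroup.coe_mul, map_mul]
        show ((F x).1 * (F z).1).left = _
        rw [SemidirectProduct.mul_left, ((hPF x).mp x.2).1, map_one, MulAut.one_apply] }
  have hπ : ∀ x : P, π x = (F x).1.left := fun x => rfl
  have hπs : Surjective π := by
    intro u
    obtain ⟨x, hx⟩ := hFs (SemidirectProduct.inl u, 1)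
    refine ⟨⟨x, (hPF x).mpr (by rw [hx]; exact ⟨rfl, rfl⟩)⟩, ?_⟩
    rw [hπ]
    show (F x).1.left = u
    rw [hx]
    rfl
  have hπk : ∀ x : P, π x = 1 ↔ (x : X) ∈ R := by
    intro x
    rw [← hF1, hπ]
    obtain ⟨h1, h2⟩ := (hPF x).mp x.2
    constructor
    · intro h
      exact Prod.ext (SemidirectProduct.ext h h1) h2
    · intro h
      rw [h]
      rfl
  have hRP : R ≤ P := by
    intro x hx
    rw [hPF, (hF1 x).mpr hx]
    exact ⟨rfl, rfl⟩
  have hkerc : Nat.card π.ker = p := by
    rw [← hR]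
    refine Nat.card_congr ⟨fun x => ⟨x.1.1, (hπk x.1).mp x.2⟩,
      fun x => ⟨⟨x.1, hRP x.2⟩, (hπk _).mpr x.2⟩, fun x => rfl, fun x => rfl⟩
  obtain ⟨y, hy⟩ := hFs (SemidirectProduct.inr ⟨θ, Subgroup.mem_zpowers θ⟩, 1)
  have hPn : P.Normal := by rw [hP]; infer_instance
  have hconj : ∀ (x : P), π ⟨y * x * y⁻¹, hPn.conj_mem x x.2 y⟩ = unitAut E θ (π x) := by
    intro x
    rw [hπ, hπ]
    show (F (y * x * y⁻¹)).1.left = _
    rw [map_mul, map_mul, map_inv, hy]
    obtain ⟨h1, h2⟩ := (hPF x).mp x.2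
    show ((SemidirectProduct.inr ⟨θ, Subgroup.mem_zpowers θ⟩ : Aff E (Subgroup.zpowers θ)) *
      (F x).1 * (SemidirectProduct.inr ⟨θ, Subgroup.mem_zpowers θ⟩ :
        Aff E (Subgroup.zpowers θ))⁻¹).left = _
    simp only [SemidirectProduct.mul_left, SemidirectProduct.left_inr,
      SemidirectProduct.right_inr, SemidirectProduct.inv_left, one_mul, inv_one, map_one, mul_one]
    rfl
  -- invariant subgroups
  have key : ∀ Z : Subgroup P, π.ker ≤ Z →
      (∀ x : P, x ∈ Z → (⟨y * x * y⁻¹, hPn.conj_mem x x.2 y⟩ : P) ∈ Z) → Z = π.ker ∨ Z = ⊤ := by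
    intro Z hZ hZy
    have h1 := field_irred (p := p) (k := a) (E := E) hE θ (fun l hl1 hl2 => by
      rw [hθ]
      exact hord2 l (Nat.pos_of_dvd_of_pos hl1 (by omega)) hl2) (Subgroup.toAddSubgroup' (Z.map π)) (by
        rintro x ⟨z, hz, hzx⟩
        refine ⟨_, hZy z hz, ?_⟩
        rw [hconj]
        have h2 : π z = Multiplicative.ofAdd x := hzx
        rw [h2, unitAut_apply, toAdd_ofAdd]
        rfl)
    rcases h1 with h2 | h2
    · left
      apply le_antisymm _ hZ
      intro z hz
      rw [MonoidHom.mem_ker]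
      have h3 : Multiplicative.toAdd (π z) ∈ Subgroup.toAddSubgroup' (Z.map π) := ⟨z, hz, rfl⟩
      rw [h2] at h3
      exact h3
    · right
      rw [eq_top_iff]
      intro x _
      have h3 : Multiplicative.toAdd (π x) ∈ Subgroup.toAddSubgroup' (Z.map π) := by
        rw [h2]
        trivial
      obtain ⟨z, hz, hzx⟩ := h3
      have h4 : π z = π x := hzx
      have h5 : x * z⁻¹ ∈ π.ker := by
        rw [MonoidHom.mem_ker, map_mul, map_inv, h4, mul_inv_cancel]
      have h6 := Z.mul_mem (hZ h5) hz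
      rwa [inv_mul_cancel_right] at h6
  have hkcen : ∀ x ∈ π.ker, ∀ z : P, x * z = z * x := by
    intro x hx z
    apply Subtype.ext
    exact (hcen z x ((hπk x).mp hx)).symm
  -- `P` is abelian
  have hPcomm : ∀ x z : P, x * z = z * x := by
    rcases key (Subgroup.center P) (fun x hx => Subgroup.mem_center_iff.mpr fun g => (hkcen x hx g).symm)
      (by
        intro x hx
        rw [Subgroup.mem_center_iff] at hx ⊢
        intro g
        have h1 := hx ⟨y⁻¹ * g * y, by simpa using hPn.conj_mem g g.2 y⁻¹⟩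
        have h2 : (y⁻¹ * (g : X) * y) * x = x * (y⁻¹ * g * y) := congrArg (fun z : P => (z : X)) h1
        apply Subtype.ext
        show (g : X) * (y * x * y⁻¹) = y * x * y⁻¹ * g
        calc (g : X) * (y * x * y⁻¹) = y * ((y⁻¹ * (g : X) * y) * x) * y⁻¹ := by group
          _ = y * (x * (y⁻¹ * g * y)) * y⁻¹ := by rw [h2]
          _ = _ := by group) with h1 | h1
    · exfalso
      have h2 := parity_group π hπs hkerc hkcen (fun x hx => by
        rw [← h1, Subgroup.mem_center_iff]
        exact fun g => (hx g).symm)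
      rw [hfr] at h2
      exact (Nat.not_even_iff_odd.mpr hodd) h2
    · intro x z
      have h2 : z ∈ Subgroup.center P := by rw [h1]; trivial
      exact Subgroup.mem_center_iff.mp h2 x
  let cgP : CommGroup P := { (inferInstance : Group P) with mul_comm := hPcomm }
  -- exponent `p`
  have hexp : ∀ x : P, x ^ p = 1 := by
    have hkexp : ∀ x ∈ π.ker, x ^ p = 1 := by
      intro x hx
      have h1 := orderOf_dvd_natCard (⟨x, hx⟩ : π.ker)
      rw [hkerc, Subgroup.orderOf_mk] at h1
      exact orderOf_dvd_iff_pow_eq_one.mp h1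
    let Z : Subgroup P :=
      { carrier := {x | x ^ p = 1}
        mul_mem' := fun {a b} ha hb => by
          show (a * b) ^ p = 1
          rw [(show Commute a b from hPcomm a b).mul_pow, show a ^ p = 1 from ha,
            show b ^ p = 1 from hb, one_mul]
        one_mem' := one_pow p
        inv_mem' := fun {a} ha => by
          show a⁻¹ ^ p = 1
          rw [inv_pow, show a ^ p = 1 from ha, inv_one] }
    rcases key Z hkexp (by
      intro x hx
      have h1 : (x : X) ^ p = 1 := congrArg (fun z : P => (z : X)) (show x ^ p = 1 from hx)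
      apply Subtype.ext
      show (y * x * y⁻¹) ^ p = 1
      rw [conj_pow, h1, mul_one, mul_inv_cancel]) with h1 | h1
    · exfalso
      have h2 : (powMonoidHom p : P →* P).ker = π.ker := by
        rw [← h1]
        ext x
        rfl
      have h3 : (powMonoidHom p : P →* P).range ≤ π.ker := by
        rintro _ ⟨x, rfl⟩
        rw [MonoidHom.mem_ker, powMonoidHom_apply, map_pow]
        apply Multiplicative.toAdd.injective
        rw [toAdd_pow, toAdd_one]
        rw [← Nat.cast_smul_eq_nsmul (ZMod p), CharP.cast_eq_zero, zero_smul]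
      have h4 : Nat.card (powMonoidHom p : P →* P).ker * Nat.card (powMonoidHom p : P →* P).range =
          Nat.card P := by
        rw [← Subgroup.card_mul_index (powMonoidHom p : P →* P).ker, Subgroup.index_ker]
      rw [h2, hkerc, hPcard] at h4
      have h5 := Nat.eq_of_mul_eq_mul_left hp.out.pos h4
      have h6 := Subgroup.card_le_of_le h3
      rw [h5, hkerc] at h6
      have h7 : p ^ 1 < p ^ a := Nat.pow_lt_pow_right hp.out.one_lt (by omega)
      rw [pow_one] at h7
      omega
    · intro x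
      have h2 : x ∈ Z := by rw [h1]; trivial
      exact h2
  -- a linear functional
  let Mod : Module (ZMod p) (Additive P) := AddCommGroup.zmodModule (n := p)
    (fun x => congrArg Additive.ofMul (hexp (Additive.toMul x)))
  have hRcyc : IsCyclic R := isCyclic_of_prime_card hR
  obtain ⟨z0, hz0⟩ := hRcyc.exists_generator
  have hz0o : orderOf z0 = p := by rw [orderOf_eq_card_of_forall_mem_zpowers hz0, hR]
  have hz01 : Additive.ofMul (⟨z0, hRP z0.2⟩ : P) ≠ 0 := by
    intro h
    have h1 : (⟨z0, hRP z0.2⟩ : P) = 1 := h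
    have h2 : z0 = 1 := Subtype.ext (congrArg (fun z : P => (z : X)) h1)
    rw [h2, orderOf_one] at hz0o
    exact hp.out.one_lt.ne hz0o
  obtain ⟨ℓ, hℓ⟩ : ∃ ℓ : Module.Dual (ZMod p) (Additive P), ℓ (Additive.ofMul (⟨z0, hRP z0.2⟩ : P)) ≠ 0 := by
    by_contra hcon
    push Not at hcon
    exact hz01 ((Module.forall_dual_apply_eq_zero_iff (ZMod p) _).mp hcon)
  let ϕ : P →* Multiplicative (ZMod p) := AddMonoidHom.toMultiplicativeRight ℓ.toAddMonoidHom
  have hϕ : ∀ x : P, ϕ x = Multiplicative.ofAdd (ℓ (Additive.ofMul x)) := fun x => rfl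
  refine ⟨MonoidHom.transfer ϕ, ?_⟩
  intro x hx h
  rw [transfer_central P ϕ x (hRP hx) (fun g => hcen g x hx), hPidx, hϕ] at h
  obtain ⟨i, hi⟩ := Subgroup.mem_zpowers_iff.mp (hz0 ⟨x, hx⟩)
  have hx' : (⟨x, hRP hx⟩ : P) = (⟨z0, hRP z0.2⟩ : P) ^ i := by
    apply Subtype.ext
    have := congrArg (fun z : R => (z : X)) hi
    show x = ((⟨z0, hRP z0.2⟩ : P) ^ i : P)
    rw [Subgroup.coe_zpow]
    simpa using this.symm
  have h1 : (q * m') • (ℓ (Additive.ofMul (⟨x, hRP hx⟩ : P))) = 0 := h
  rw [hx', ofMul_zpow, map_zsmul] at h1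
  rw [nsmul_eq_mul, zsmul_eq_mul] at h1
  have hqm : ((q * m' : ℕ) : ZMod p) ≠ 0 := by
    rw [Ne, ZMod.natCast_eq_zero_iff, hp.out.dvd_mul]
    rintro (h2 | h2)
    · exact hpq ((Nat.prime_dvd_prime_iff_eq hp.out hq).mp h2)
    · exact hm' h2
  rcases mul_eq_zero.mp h1 with h2 | h2
  · exact absurd h2 hqm
  · rcases mul_eq_zero.mp h2 with h3 | h3
    · rw [ZMod.intCast_zmod_eq_zero_iff_dvd, ← hz0o, orderOf_dvd_iff_zpow_eq_one, hi] at h3
      exact congrArg (fun z : R => (z : X)) h3
    · exact absurd h3 hℓ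

end Pool.Agent.Lib.MP_4f0ec0_al
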