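import Mathlib
import Pool.Agent.Lib.MP_4f0ec0_al.Induct
import Pool.Agent.Lib.MP_4f0ec0_al.SplitA
import Pool.Agent.Lib.MP_4f0ec0_al.CaseD

/-! The sufficient conditions. -/

namespace Pool.Agent.Lib.MP_4f0ec0_al

open Function

lemma hom_one_of_orders {G : Type} [Group G] [Finite G] {s k : ℕ} (hs : s.Prime) (g : G)
    (f : G →* (ZMod s)ˣ) (hg : g ^ k = 1) (hcop : Nat.Coprime k (s - 1)) : f g = 1 := by
  have hfs : Fact s.Prime := ⟨hs⟩
  rw [← orderOf_eq_one_iff]
  have h1 : orderOf (f g) ∣ k := (orderOf_map_dvd f g).trans (orderOf_dvd_of_pow_eq_one hg)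
  have h2 : orderOf (f g) ∣ s - 1 := by
    have := orderOf_dvd_natCard (f g)
    rwa [Nat.card_units, Nat.card_zmod] at this
  have h3 := Nat.dvd_gcd h1 h2
  rw [hcop] at h3
  exact Nat.dvd_one.mp h3

lemma hom_Aff {E C : Type} [Field E] [CommGroup C] (θ : Eˣ) (hθ : θ ≠ 1)
    (f : Aff E (Subgroup.zpowers θ) →* C) (h : ∀ u, f (SemidirectProduct.inr u) = 1) :
    ∀ x, f x = 1 := by
  have h1 : ∀ x : Multiplicative E, f (SemidirectProduct.inl x) = 1 := by
    intro x
    have hne : (θ : E) - 1 ≠ 0 := by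
      intro h0
      exact hθ (Units.ext (sub_eq_zero.mp h0))
    set z : Multiplicative E := Multiplicative.ofAdd (((θ : E) - 1)⁻¹ * Multiplicative.toAdd x) with hz
    have h2 : x = unitAut E θ z * z⁻¹ := by
      apply Multiplicative.toAdd.injective
      rw [toAdd_mul, unitAut_apply, toAdd_inv, hz, toAdd_ofAdd, toAdd_ofAdd]
      have h3 : (θ : E) * (((θ : E) - 1)⁻¹ * Multiplicative.toAdd x) +
          -(((θ : E) - 1)⁻¹ * Multiplicative.toAdd x) =
          (((θ : E) - 1) * ((θ : E) - 1)⁻¹) * Multiplicative.toAdd x := by ring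
      rw [h3, mul_inv_cancel₀ hne, one_mul]
    have h3 : (SemidirectProduct.inl (unitAut E θ z) : Aff E (Subgroup.zpowers θ)) =
        SemidirectProduct.inr ⟨θ, Subgroup.mem_zpowers θ⟩ * SemidirectProduct.inl z *
          SemidirectProduct.inr (⟨θ, Subgroup.mem_zpowers θ⟩⁻¹ : Subgroup.zpowers θ) := by
      rw [← SemidirectProduct.inl_aut]
      rfl
    rw [h2, map_mul, map_mul, h3, map_mul, map_mul, h, h, one_mul, mul_one, ← map_mul, ← map_mul,
      mul_inv_cancel, map_one, map_one]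
  rintro ⟨x, u⟩
  have h2 : (⟨x, u⟩ : Aff E (Subgroup.zpowers θ)) = SemidirectProduct.inl x * SemidirectProduct.inr u := by
    ext <;> simp
  rw [h2, map_mul, h1, h, one_mul]

lemma finite_DM {p R : ℕ} [NeZero R] [Fact p.Prime] (B : Subgroup (ZMod R)ˣ) (l : (ZMod p)ˣ)
    (hl : l ^ R = 1) : Finite (DM B l hl) := by
  have h1 : Finite (Multiplicative (B → ZMod p)) := inferInstanceAs (Finite (B → ZMod p))
  have h2 : Finite (Multiplicative (ZMod R)) := inferInstanceAs (Finite (ZMod R))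
  have h3 : Finite (KD R B) := Finite.of_equiv _ SemidirectProduct.equivProd.symm
  exact Finite.of_equiv _ SemidirectProduct.equivProd.symm

lemma hom_DM {p r : ℕ} {C : Type} [NeZero r] [hr : Fact r.Prime] [hp : Fact p.Prime] [CommGroup C]
    (B : Subgroup (ZMod r)ˣ) (hB : ∃ c ∈ B, c ≠ 1) (l : (ZMod p)ˣ) (hl : l ^ r = 1)
    (hlo : orderOf l = r) (f : DM B l hl →* C)
    (h : ∀ c : B, f (SemidirectProduct.inr (SemidirectProduct.inr c)) = 1) : ∀ x, f x = 1 := by
  obtain ⟨c, hc, hc1⟩ := hB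
  have h1 : ∀ x : Multiplicative (ZMod r),
      f (SemidirectProduct.inr (SemidirectProduct.inl x)) = 1 := by
    intro x
    have hne : ((c : (ZMod r)ˣ) : ZMod r) - 1 ≠ 0 := by
      intro h0
      exact hc1 (Units.ext (sub_eq_zero.mp h0))
    set z : Multiplicative (ZMod r) :=
      Multiplicative.ofAdd ((((c : (ZMod r)ˣ) : ZMod r) - 1)⁻¹ * Multiplicative.toAdd x) with hz
    have h2 : x = zunitAut r c z * z⁻¹ := by
      apply Multiplicative.toAdd.injective
      rw [toAdd_mul, toAdd_inv]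
      show Multiplicative.toAdd x = ((c : (ZMod r)ˣ) : ZMod r) * Multiplicative.toAdd z + _
      rw [hz, toAdd_ofAdd]
      have h3 : ((c : (ZMod r)ˣ) : ZMod r) *
          ((((c : (ZMod r)ˣ) : ZMod r) - 1)⁻¹ * Multiplicative.toAdd x) +
          -((((c : (ZMod r)ˣ) : ZMod r) - 1)⁻¹ * Multiplicative.toAdd x) =
          ((((c : (ZMod r)ˣ) : ZMod r) - 1) * (((c : (ZMod r)ˣ) : ZMod r) - 1)⁻¹) *
            Multiplicative.toAdd x := by ring
      rw [h3, mul_inv_cancel₀ hne, one_mul]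
    have h3 : (SemidirectProduct.inl (zunitAut r c z) : KD r B) =
        SemidirectProduct.inr ⟨c, hc⟩ * SemidirectProduct.inl z *
          SemidirectProduct.inr (⟨c, hc⟩⁻¹ : B) := by
      rw [← SemidirectProduct.inl_aut]
      rfl
    rw [h2, map_mul, map_mul, map_mul, h3, map_mul, map_mul, map_mul, map_mul, h, h, one_mul,
      mul_one, ← map_mul, ← map_mul, ← map_mul, mul_inv_cancel, map_one, map_one, map_one]
  have h2 : ∀ v : Multiplicative (B → ZMod p), f (SemidirectProduct.inl v) = 1 := by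
    intro v
    have hne : ∀ b : B, ((l ^ ((b : (ZMod r)ˣ) : ZMod r).val : (ZMod p)ˣ) : ZMod p) - 1 ≠ 0 := by
      intro b h0
      have h4 : l ^ ((b : (ZMod r)ˣ) : ZMod r).val = l ^ (0 : ZMod r).val := by
        rw [ZMod.val_zero, pow_zero]
        exact Units.ext (sub_eq_zero.mp h0)
      have h5 := pow_val_injective l hlo h4
      exact (Units.ne_zero (b : (ZMod r)ˣ)) h5
    set z : Multiplicative (B → ZMod p) := Multiplicative.ofAdd (fun b =>
      (((l ^ ((b : (ZMod r)ˣ) : ZMod r).val : (ZMod p)ˣ) : ZMod p) - 1)⁻¹ *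
        Multiplicative.toAdd v b) with hz
    have h3 : v = actD B l hl ⟨Multiplicative.ofAdd 1, 1⟩ z * z⁻¹ := by
      apply Multiplicative.toAdd.injective
      rw [toAdd_mul, toAdd_inv]
      funext b
      rw [Pi.add_apply, Pi.neg_apply, actD_apply, mul_one, toAdd_ofAdd, mul_one, hz, toAdd_ofAdd]
      have h3 : ∀ x y : ZMod p, x * ((x - 1)⁻¹ * y) + -((x - 1)⁻¹ * y) = ((x - 1) * (x - 1)⁻¹) * y := by
        intro x y
        ring
      rw [h3, mul_inv_cancel₀ (hne b), one_mul]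
    have h4 : (SemidirectProduct.inl (actD B l hl ⟨Multiplicative.ofAdd 1, 1⟩ z) : DM B l hl) =
        SemidirectProduct.inr ⟨Multiplicative.ofAdd 1, 1⟩ * SemidirectProduct.inl z *
          SemidirectProduct.inr ((⟨Multiplicative.ofAdd 1, 1⟩ : KD r B)⁻¹) := by
      rw [← SemidirectProduct.inl_aut]
    have h5 : f (SemidirectProduct.inr (⟨Multiplicative.ofAdd 1, 1⟩ : KD r B)) = 1 :=
      h1 (Multiplicative.ofAdd 1)
    have h6 : f (SemidirectProduct.inr ((⟨Multiplicative.ofAdd 1, 1⟩ : KD r B)⁻¹)) = 1 := by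
      rw [map_inv, map_inv, h5, inv_one]
    rw [h3, map_mul, map_mul, h4, map_mul, map_mul, h5, h6, one_mul, mul_one, ← map_mul,
      ← map_mul, mul_inv_cancel, map_one, map_one]
  rintro ⟨v, ⟨x, b⟩⟩
  have h3 : (⟨v, ⟨x, b⟩⟩ : DM B l hl) = SemidirectProduct.inl v *
      (SemidirectProduct.inr (SemidirectProduct.inl x) *
        SemidirectProduct.inr (SemidirectProduct.inr b)) := by
    rw [← map_mul]
    ext <;> simp
  rw [h3, map_mul, map_mul, h1, h2, h, one_mul, one_mul]

end Pool.Agent.Lib.MP_4f0ec0_al
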