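import Mathlib
import Pool.Agent.Lib.MP_4f0ec0_al.Back2

/-! The sufficient conditions: the three types. -/

namespace Pool.Agent.Lib.MP_4f0ec0_al

open Function

/-- Exactly one isomorphism class of non-supersolvable groups of order `n` (working version). -/
def Uniq (n : ℕ) : Prop :=
  (∃ (G : Type) (_ : Group G), Nat.card G = n ∧ ¬ SS G) ∧
    ∀ (G H : Type) (_ : Group G) (_ : Group H), Nat.card G = n → Nat.card H = n → ¬ SS G →
      ¬ SS H → Nonempty (G ≃* H)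

lemma uniq_of {n : ℕ} {H : Type} [Group H]
    (h : (∃ (G : Type) (_ : Group G), Nat.card G = n ∧ ¬ SS G) ∧
      ∀ (G : Type) (_ : Group G), Nat.card G = n → ¬ SS G → Nonempty (G ≃* H)) : Uniq n := by
  refine ⟨h.1, fun G G' _ _ hG hG' hs hs' => ?_⟩
  obtain ⟨e1⟩ := h.2 G inferInstance hG hs
  obtain ⟨e2⟩ := h.2 G' inferInstance hG' hs'
  exact ⟨e1.trans e2.symm⟩

lemma not_dvd_prime_sub_one {s k : ℕ} (hk : ∀ t, t.Prime → t ∣ k → ¬ t ∣ s - 1) :
    Nat.Coprime k (s - 1) := by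
  rw [Nat.coprime_iff_gcd_eq_one]
  by_contra hne
  obtain ⟨t, ht1, ht2⟩ := Nat.exists_prime_and_dvd hne
  exact hk t ht1 (ht2.trans (Nat.gcd_dvd_left _ _)) (ht2.trans (Nat.gcd_dvd_right _ _))

theorem backA {p q a m w : ℕ} (hp : p.Prime) (hq : q.Prime) (hpq : p ≠ q) (ha : 2 ≤ a)
    (hord1 : q ∣ p ^ a - 1) (hord2 : ∀ l, 0 < l → l < a → ¬ q ∣ p ^ l - 1) (hm0 : m ≠ 0)
    (hm : Nat.Coprime m (Nat.totient m)) (hqm : ¬ q ∣ m) (hw : a ≤ w) (hwa : w ≤ a + 1)
    (hpw : ¬ p ^ (w + 1) ∣ p ^ a * (q * m)) (hwm : a < w → Odd a ∧ ¬ p ∣ a)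
    (hqt : ∀ t, t.Prime → t ∣ m → t ≠ p → ¬ q ∣ t - 1)
    (ht : ∀ t, t.Prime → t ∣ m → t ≠ p → ∀ l, 0 < l → l ≤ w → ¬ t ∣ p ^ l - 1)
    (hsol : ∀ (Y : Type) (_ : Group Y), Nat.card Y ∣ p ^ a * q * m → Group.IsSolvable Y) :
    Uniq (p ^ a * q * m) := by
  have hfp : Fact p.Prime := ⟨hp⟩
  obtain ⟨E, hE, hEfin, θ, hEc, hθ, hAc, hAs⟩ := exists_aff hp ha hord1 (fun l hl1 hl2 =>
    hord2 l (Nat.pos_of_dvd_of_pos hl1 (by omega)) hl2)
  have hAfin := finite_Aff E (Subgroup.zpowers θ)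
  have hθ1 : θ ≠ 1 := by
    rintro rfl
    rw [orderOf_one] at hθ
    exact hq.one_lt.ne hθ
  have hsq := cyc_squarefree hm
  refine uniq_of (almost_of (Nat.mul_pos (pow_pos hp.pos a) hq.pos) hm0 hm
    (Aff E (Subgroup.zpowers θ)) hAc hAs ?_ ?_ ?_)
  · -- homomorphisms
    intro s hs hsm f
    have hqs : Nat.Coprime q (s - 1) := by
      rw [Nat.Prime.coprime_iff_not_dvd hq]
      by_cases hsp : s = p
      · rw [hsp]
        have := hord2 1 one_pos (by omega)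
        rwa [pow_one] at this
      · exact hqt s hs hsm hsp
    apply hom_Aff θ hθ1
    intro u
    apply hom_one_of_orders hs (k := q) _ _ _ hqs
    rw [← map_pow]
    have h1 : u ^ q = 1 := by
      have h2 := orderOf_dvd_natCard u
      rw [Nat.card_zpowers, hθ] at h2
      exact orderOf_dvd_iff_pow_eq_one.mp h2
    rw [h1, map_one]
  · intro s hs hsd m' hm'0 hsm X _ _ R _ hR hcen e
    have hsdm : s ∣ m := (dvd_mul_right _ _).trans hsm
    have hsp : s = p := by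
      rcases (Nat.Prime.dvd_mul hs).mp hsd with h1 | h1
      · exact (Nat.prime_dvd_prime_iff_eq hs hp).mp (hs.dvd_of_dvd_pow h1)
      · exfalso
        rw [(Nat.prime_dvd_prime_iff_eq hs hq).mp h1] at hsdm
        exact hqm hsdm
    subst hsp
    have haw : a < w := by
      by_contra hcon
      have hwa' : w = a := by omega
      apply hpw
      rw [hwa', pow_succ]
      exact Nat.mul_dvd_mul_left _ (hsdm.mul_left q)
    apply splitA hq hpq ha (hwm haw).1 hord2 hEc θ hθ _ hm'0 R hR hcen e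
    intro h1
    exact Nat.squarefree_iff_prime_squarefree.mp hsq s hs ((Nat.mul_dvd_mul_left s h1).trans hsm)
  · intro X _ _ hX hXs hXn IH
    obtain ⟨E', hE', hEfin', θ', hEc', hθ', ⟨e⟩⟩ := caseA hp hq hpq ha hord1 hord2 hsq hqm hw hwa
      hpw (fun h => (hwm h).2) ht (X := X) (by rw [← mul_assoc]; exact hX)
      (hsol X inferInstance hX) hXs hXn (fun Y _ hY1 hY2 hY3 => IH Y inferInstance hY1 hY2
        (fun h => hY3 ((dvd_mul_right _ _).trans h)))
    obtain ⟨e2⟩ := aff_congr θ θ' (hEc.trans hEc'.symm) (hθ.trans hθ'.symm)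
    exact ⟨e2.trans e⟩

lemma sq_dvd_pow_sub_one {p q : ℕ} (hp : p.Prime) (h1 : q ∣ p - 1) :
    q ^ 2 ∣ p ^ q - 1 := by
  have hg : (p - 1) * ∑ i ∈ Finset.range q, p ^ i = p ^ q - 1 := by
    rw [Nat.geomSum_eq hp.two_le]
    exact Nat.mul_div_cancel' (Nat.sub_one_dvd_pow_sub_one p q)
  rw [← hg, pow_two]
  apply Nat.mul_dvd_mul h1
  have h6 : (∑ i ∈ Finset.range q, p ^ i) ≡ q [MOD q] := by
    obtain ⟨c, hc⟩ := h1
    have h7 : p ≡ 1 [MOD q] := ((Nat.modEq_iff_dvd' hp.one_lt.le).mpr ⟨c, hc⟩).symm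
    have h8 : ∀ s : Finset ℕ, (∑ i ∈ s, p ^ i) ≡ ∑ i ∈ s, 1 [MOD q] := by
      intro s
      classical
      induction s using Finset.induction_on with
      | empty => rfl
      | insert a s ha ih =>
        rw [Finset.sum_insert ha, Finset.sum_insert ha]
        refine Nat.ModEq.add ?_ ih
        have := h7.pow a
        rwa [one_pow] at this
    have := h8 (Finset.range q)
    rwa [Finset.sum_const, Finset.card_range, smul_eq_mul, mul_one] at this
  exact (Nat.ModEq.dvd_iff h6 dvd_rfl).mpr dvd_rfl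

theorem backB {p q m : ℕ} (hp : p.Prime) (hq : q.Prime) (hqp : q ∣ p - 1) (hqp2 : ¬ q ^ 2 ∣ p - 1)
    (h32 : ¬ (p = 3 ∧ q = 2)) (hm0 : m ≠ 0) (hm : Nat.Coprime m (Nat.totient m))
    (hpm : ¬ p ∣ m) (hqm : ¬ q ∣ m) (hqt : ∀ t, t.Prime → t ∣ m → ¬ q ∣ t - 1)
    (ht : ∀ t, t.Prime → t ∣ m → ∀ l, 0 < l → l ≤ q → ¬ t ∣ p ^ l - 1)
    (hsol : ∀ (Y : Type) (_ : Group Y), Nat.card Y ∣ p ^ q * q ^ 2 * m → Group.IsSolvable Y) :
    Uniq (p ^ q * q ^ 2 * m) := by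
  have hfp : Fact p.Prime := ⟨hp⟩
  obtain ⟨E, hE, hEfin, θ, hEc, hθ, hAc, hAs⟩ := exists_aff hp hq.two_le
    (sq_dvd_pow_sub_one hp hqp) (fun l hl1 hl2 => by
      rcases (Nat.dvd_prime hq).mp hl1 with h1 | h1
      · rw [h1, pow_one]
        exact hqp2
      · omega)
  have hAfin := finite_Aff E (Subgroup.zpowers θ)
  have hθ1 : θ ≠ 1 := by
    rintro rfl
    rw [orderOf_one] at hθ
    have := Nat.one_lt_pow two_ne_zero hq.one_lt
    omega
  have hsq := cyc_squarefree hm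
  refine uniq_of (almost_of (Nat.mul_pos (pow_pos hp.pos q) (pow_pos hq.pos 2)) hm0 hm
    (Aff E (Subgroup.zpowers θ)) hAc hAs ?_ ?_ ?_)
  · intro s hs hsm f
    have hqs : Nat.Coprime (q ^ 2) (s - 1) := by
      apply Nat.Coprime.pow_left
      rw [Nat.Prime.coprime_iff_not_dvd hq]
      exact hqt s hs hsm
    apply hom_Aff θ hθ1
    intro u
    apply hom_one_of_orders hs (k := q ^ 2) _ _ _ hqs
    rw [← map_pow]
    have h1 : u ^ q ^ 2 = 1 := by
      have h2 := orderOf_dvd_natCard u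
      rw [Nat.card_zpowers, hθ] at h2
      exact orderOf_dvd_iff_pow_eq_one.mp h2
    rw [h1, map_one]
  · intro s hs hsd m' hm'0 hsm X _ _ R _ hR hcen e
    exfalso
    have hsdm : s ∣ m := (dvd_mul_right _ _).trans hsm
    rcases (Nat.Prime.dvd_mul hs).mp hsd with h1 | h1
    · rw [(Nat.prime_dvd_prime_iff_eq hs hp).mp (hs.dvd_of_dvd_pow h1)] at hsdm
      exact hpm hsdm
    · rw [(Nat.prime_dvd_prime_iff_eq hs hq).mp (hs.dvd_of_dvd_pow h1)] at hsdm
      exact hqm hsdm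
  · intro X _ _ hX hXs hXn IH
    obtain ⟨E', hE', hEfin', θ', hEc', hθ', ⟨e⟩⟩ := caseB hp hq hqp hqp2 h32 hsq hpm hqm ht
      (X := X) (by rw [← mul_assoc]; exact hX)
      (hsol X inferInstance hX) hXs hXn (fun Y _ hY1 hY2 hY3 => IH Y inferInstance hY1 hY2
        (fun h => hY3 ((dvd_mul_right _ _).trans h)))
    obtain ⟨e2⟩ := aff_congr θ θ' (hEc.trans hEc'.symm) (hθ.trans hθ'.symm)
    exact ⟨e2.trans e⟩

theorem backD {p q r m : ℕ} (hp : p.Prime) (hq : q.Prime) (hr : r.Prime) (hqr : q ∣ r - 1)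
    (hrp : r ∣ p - 1) (hqp : q ∣ p - 1) (hm0 : m ≠ 0) (hm : Nat.Coprime m (Nat.totient m))
    (hpm : ¬ p ∣ m) (hqm : ¬ q ∣ m) (hrm : ¬ r ∣ m)
    (hqt : ∀ t, t.Prime → t ∣ m → ¬ q ∣ t - 1)
    (ht : ∀ t, t.Prime → t ∣ m → ∀ l, 0 < l → l ≤ q → ¬ t ∣ p ^ l - 1)
    (hsol : ∀ (Y : Type) (_ : Group Y), Nat.card Y ∣ p ^ q * (r * q) * m → Group.IsSolvable Y) :
    Uniq (p ^ q * (r * q) * m) := by
  have hfp : Fact p.Prime := ⟨hp⟩
  have hfr : Fact r.Prime := ⟨hr⟩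
  have hfq : Fact q.Prime := ⟨hq⟩
  have : NeZero r := ⟨hr.ne_zero⟩
  obtain ⟨u, hu⟩ := exists_unit_order (E := ZMod r) (e := q) (by rw [Nat.card_zmod]; exact hqr)
  obtain ⟨l, hlo⟩ := exists_unit_order (E := ZMod p) (e := r) (by rw [Nat.card_zmod]; exact hrp)
  have hl : l ^ r = 1 := by rw [← hlo, pow_orderOf_eq_one]
  set B : Subgroup (ZMod r)ˣ := Subgroup.zpowers u with hB
  have hBc : Nat.card B = q := by rw [hB, Nat.card_zpowers, hu]
  have hfin := finite_DM (p := p) B l hl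
  have hsq := cyc_squarefree hm
  refine uniq_of (almost_of (Nat.mul_pos (pow_pos hp.pos q) (Nat.mul_pos hr.pos hq.pos)) hm0 hm
    (DM B l hl) (by rw [card_DM, hBc]) (DM_not_SS B l hl hlo (by rw [hBc]; exact hq.two_le)) ?_ ?_ ?_)
  · intro s hs hsm f
    have hqs : Nat.Coprime q (s - 1) := by
      rw [Nat.Prime.coprime_iff_not_dvd hq]
      exact hqt s hs hsm
    apply hom_DM B ⟨u, Subgroup.mem_zpowers u, by
      rintro rfl
      rw [orderOf_one] at hu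
      exact hq.one_lt.ne hu⟩ l hl hlo
    intro c
    apply hom_one_of_orders hs (k := q) _ _ _ hqs
    rw [← map_pow, ← map_pow]
    have h1 : c ^ q = 1 := by
      have h2 := orderOf_dvd_natCard c
      rw [hBc] at h2
      exact orderOf_dvd_iff_pow_eq_one.mp h2
    rw [h1, map_one, map_one]
  · intro s hs hsd m' hm'0 hsm X _ _ R _ hR hcen e
    exfalso
    have hsdm : s ∣ m := (dvd_mul_right _ _).trans hsm
    rcases (Nat.Prime.dvd_mul hs).mp hsd with h1 | h1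
    · rw [(Nat.prime_dvd_prime_iff_eq hs hp).mp (hs.dvd_of_dvd_pow h1)] at hsdm
      exact hpm hsdm
    · rcases (Nat.Prime.dvd_mul hs).mp h1 with h1 | h1
      · rw [(Nat.prime_dvd_prime_iff_eq hs hr).mp h1] at hsdm
        exact hrm hsdm
      · rw [(Nat.prime_dvd_prime_iff_eq hs hq).mp h1] at hsdm
        exact hqm hsdm
  · intro X _ _ hX hXs hXn IH
    exact caseD hp hq hr hqr hrp hqp hsq hpm hqm hrm ht (X := X)
      (by rw [← mul_assoc r, ← mul_assoc]; exact hX)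
      (hsol X inferInstance hX) hXs hXn (fun Y _ hY1 hY2 hY3 => IH Y inferInstance hY1 hY2
        (fun h => hY3 ((dvd_mul_right _ _).trans h))) B hBc l hl hlo

end Pool.Agent.Lib.MP_4f0ec0_al
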