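import Mathlib
import Pool.Agent.Lib.MP_4f0ec0_al.Forward

/-! Sufficient conditions for `n` to be almost solvable. -/

namespace Pool.Agent.Lib.MP_4f0ec0_al

open Nat

lemma perfect_hom_comm {E A : Type} [Group E] [Group.IsPerfect E] [CommGroup A] (f : E →* A)
    (x : E) : f x = 1 := by
  have h1 : f.range = ⊥ := by
    have h2 : Group.IsPerfect f.range := Group.IsPerfect.range _
    by_contra hne
    have : Nontrivial f.range := (Subgroup.nontrivial_iff_ne_bot _).mpr hne
    obtain ⟨a, b, hab⟩ := not_comm_of_perfect f.range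
    exact hab (mul_comm a b)
  have h2 : f x ∈ f.range := ⟨x, rfl⟩
  rw [h1] at h2
  exact Subgroup.mem_bot.mp h2

lemma cyclic_normal_le_center {D : Type} [Group D] [Group.IsPerfect D] (M : Subgroup D) [M.Normal]
    [IsCyclic M] : M ≤ Subgroup.center D := by
  let f : D →* (ZMod (Nat.card M))ˣ :=
    (IsCyclic.mulAutMulEquiv M).toMonoidHom.comp (MulAut.conjNormal : D →* MulAut M)
  intro x hx
  rw [Subgroup.mem_center_iff]
  intro g
  have h1 := perfect_hom_comm f g
  have h2 : (MulAut.conjNormal g : MulAut M) = 1 := by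
    apply (IsCyclic.mulAutMulEquiv M).injective
    rw [map_one]
    exact h1
  have h6 := congrArg (fun (a : MulAut M) => ((a ⟨x, hx⟩ : M) : D)) h2
  simp only [MulAut.conjNormal_apply, MulAut.one_apply] at h6
  calc g * x = g * x * g⁻¹ * g := by group
    _ = x * g := by rw [h6]

lemma NonabSimple.congr {S T : Type} [Group S] [Group T] (hS : NonabSimple S) (e : S ≃* T) :
    NonabSimple T := by
  obtain ⟨h1, h2, a, b, hab⟩ := hS
  refine ⟨Finite.of_equiv S e.toEquiv, ?_, e a, e b, ?_⟩
  · have : Nontrivial T := e.symm.toEquiv.nontrivial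
    exact IsSimpleGroup.isSimpleGroup_of_surjective e.toMonoidHom e.surjective
  · intro h
    apply hab
    apply e.injective
    rw [map_mul, map_mul, h]

lemma finite_mulAut (S : Type) [Group S] [Finite S] : Finite (MulAut S) := by
  have : Finite (S ≃ S) := inferInstance
  exact Finite.of_injective (fun a : MulAut S => a.toEquiv) (fun a b hab => by
    ext x
    exact congrArg (fun e : S ≃ S => e x) hab)

lemma card_mulAut {S : Type} [Group S] (hS : NonabSimple S) :
    Nat.card S * outOrder S = Nat.card (MulAut S) := by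
  have hIcard : Nat.card (MulAut.conj : S →* MulAut S).range = Nat.card S :=
    (Nat.card_congr (MonoidHom.ofInjective (conj_injective (center_eq_bot hS))).toEquiv).symm
  rw [← hIcard]
  exact Subgroup.card_mul_index _

lemma outOrder_congr {S T : Type} [Group S] [Group T] (hS : NonabSimple S) (e : S ≃* T) :
    outOrder S = outOrder T := by
  have hT := hS.congr e
  have h1 := card_mulAut hS
  have h2 := card_mulAut hT
  have h3 : Nat.card (MulAut S) = Nat.card (MulAut T) := Nat.card_congr (MulAut.congr e).toEquiv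
  have h4 : Nat.card S = Nat.card T := Nat.card_congr e.toEquiv
  rw [h3, h4, ← h2] at h1
  have : Finite T := hT.1
  exact Nat.eq_of_mul_eq_mul_left Nat.card_pos h1

theorem equiv_prod {S : Type} [Group S] (hS : NonabSimple S) {m : ℕ} (hm : m ≠ 0)
    (hT : ∀ (T : Type) (_ : Group T), NonabSimple T → Nat.card T ∣ Nat.card S * m →
      Nonempty (T ≃* S))
    (h1 : Nat.Coprime m (φ m)) (h2 : Nat.Coprime m (outOrder S))
    (h3 : ∀ r, r.Prime → r ∣ m → ¬ HasPerfectCover S r)
    {G : Type} [Group G] (hG : Nat.card G = Nat.card S * m) (hns : ¬ Group.IsSolvable G) :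
    Nonempty (G ≃* S × Cyc m) := by
  have hSfin : Finite S := hS.1
  have hSpos : 0 < Nat.card S := Nat.card_pos
  have hGfin : Finite G := Nat.finite_of_card_ne_zero (by rw [hG]; positivity)
  obtain ⟨D, hD1, hD2, hD3⟩ := exists_perfect_core G hns
  have hnt : Nontrivial D := (Subgroup.nontrivial_iff_ne_bot D).mpr hD3
  obtain ⟨M, hM1, hM2⟩ := exists_simple_quotient D
  have hnt' : Nontrivial (D ⧸ M) := hM2.toNontrivial
  have hQ : NonabSimple (D ⧸ M) := ⟨inferInstance, hM2, not_comm_of_perfect _⟩
  obtain ⟨e⟩ := hT (D ⧸ M) inferInstance hQ (by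
    rw [← hG]
    exact (Subgroup.card_quotient_dvd_card M).trans (Subgroup.card_subgroup_dvd_card D))
  have hcardQ : Nat.card (D ⧸ M) = Nat.card S := Nat.card_congr e.toEquiv
  have hcardD : Nat.card D = Nat.card S * Nat.card M := by
    rw [Subgroup.card_eq_card_quotient_mul_card_subgroup M, hcardQ]
  have hMm : Nat.card M * D.index = m := by
    have h4 := Subgroup.card_mul_index D
    rw [hG, hcardD, mul_assoc] at h4
    exact Nat.eq_of_mul_eq_mul_left hSpos h4
  have hMd : Nat.card M ∣ m := ⟨_, hMm.symm⟩
  have hMcyc : IsCyclic M := isCyclic_of_cyc (G := M) (m := Nat.card M) Nat.card_pos.ne'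
    (cyc_of_dvd h1 hMd) rfl
  have hMcen : M ≤ Subgroup.center D := cyclic_normal_le_center M
  -- `M` is trivial
  have hM1' : Nat.card M = 1 := by
    by_contra hne
    obtain ⟨r, hr, hrM⟩ := Nat.exists_prime_and_dvd hne
    apply h3 r hr (hrM.trans hMd)
    obtain ⟨g, hg⟩ := hMcyc.exists_generator
    have hgo : orderOf g = Nat.card M := orderOf_eq_card_of_forall_mem_zpowers hg
    set K : Subgroup D := Subgroup.zpowers ((g : D) ^ r) with hK
    have hKM : K ≤ M := by
      rw [hK, Subgroup.zpowers_le]
      exact M.pow_mem g.2 r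
    have hKn : K.Normal := by
      refine ⟨fun x hx y => ?_⟩
      have := Subgroup.mem_center_iff.mp (hMcen (hKM hx)) y
      rw [this, mul_assoc, mul_inv_cancel, mul_one]
      exact hx
    obtain ⟨c, hc⟩ := hrM
    have hc0 : 0 < c := by
      rcases Nat.eq_zero_or_pos c with h | h
      · rw [h, mul_zero] at hc
        exact absurd hc Nat.card_pos.ne'
      · exact h
    have hKcard : Nat.card K = c := by
      rw [hK, Nat.card_zpowers, orderOf_pow, Subgroup.orderOf_coe, hgo, hc,
        Nat.gcd_eq_right (dvd_mul_right r c)]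
      exact Nat.mul_div_cancel_left c hr.pos
    refine ⟨D ⧸ K, inferInstance, inferInstance, ?_, ?_⟩
    · have h5 := Subgroup.card_eq_card_quotient_mul_card_subgroup K
      rw [hKcard, hcardD, hc] at h5
      have h6 : Nat.card (D ⧸ K) * c = (r * Nat.card S) * c := by
        rw [← h5]
        ring
      exact Nat.eq_of_mul_eq_mul_right hc0 h6
    · refine ⟨e.toMonoidHom.comp (QuotientGroup.map K M (MonoidHom.id D) (by simpa using hKM)), ?_⟩
      refine e.surjective.comp ?_
      intro y
      obtain ⟨x, rfl⟩ := QuotientGroup.mk'_surjective M y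
      exact ⟨QuotientGroup.mk' K x, rfl⟩
  -- hence `D ≃* S`
  have hDS : Nonempty (D ≃* S) := by
    have hsurj : Function.Surjective (e.toMonoidHom.comp (QuotientGroup.mk' M)) :=
      e.surjective.comp (QuotientGroup.mk'_surjective M)
    have hcard : Nat.card D = Nat.card S := by rw [hcardD, hM1', mul_one]
    exact ⟨MulEquiv.ofBijective _ ((Nat.bijective_iff_surjective_and_card _).mpr
      ⟨hsurj, hcard⟩)⟩
  obtain ⟨eD⟩ := hDS
  have hDsimple : NonabSimple D := hS.congr eD.symm
  have hDcard : Nat.card D = Nat.card S := Nat.card_congr eD.toEquiv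
  -- the centralizer
  let f : G →* MulAut D := MulAut.conjNormal
  have hf : ∀ (g : G) (x : D), ((f g x : D) : G) = g * x * g⁻¹ := fun g x =>
    MulAut.conjNormal_apply g x
  have hIle : (MulAut.conj : D →* MulAut D).range ≤ f.range := by
    rintro _ ⟨x, rfl⟩
    refine ⟨x, ?_⟩
    ext y
    rw [hf]
    simp [MulAut.conj_apply]
  have hIcard : Nat.card (MulAut.conj : D →* MulAut D).range = Nat.card D :=
    (Nat.card_congr (MonoidHom.ofInjective (conj_injective (center_eq_bot hDsimple))).toEquiv).symm
  have hAfin : Finite (MulAut D) := finite_mulAut D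
  set k := (MulAut.conj : D →* MulAut D).range.relIndex f.range with hk
  have hk1 : k * f.range.index = outOrder D := Subgroup.relIndex_mul_index hIle
  have hk2 : Nat.card S * k = Nat.card f.range := by
    rw [← hDcard, ← hIcard, hk]
    have h5 := Subgroup.card_mul_index
      ((MulAut.conj : D →* MulAut D).range.subgroupOf f.range)
    rw [← h5]
    congr 1
    exact (Nat.card_congr (Subgroup.subgroupOfEquivOfLe hIle).toEquiv).symm
  have hk3 : Nat.card f.ker * k = m := by
    have h5 : Nat.card f.ker * Nat.card f.range = Nat.card G := by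
      rw [← Subgroup.card_mul_index f.ker, Subgroup.index_ker]
    rw [hG, ← hk2] at h5
    have h6 : Nat.card S * (Nat.card f.ker * k) = Nat.card S * m := by
      rw [← h5]
      ring
    exact Nat.eq_of_mul_eq_mul_left hSpos h6
  have hk4 : k = 1 := by
    have h5 : k ∣ m := ⟨_, by rw [← hk3]; ring⟩
    have h6 : k ∣ outOrder S := by
      rw [outOrder_congr hS eD.symm]
      exact ⟨_, hk1.symm⟩
    have := Nat.dvd_gcd h5 h6
    rw [h2] at this
    exact Nat.dvd_one.mp this
  rw [hk4, mul_one] at hk3
  -- the product decomposition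
  have hcomm : ∀ (x : D) (c : f.ker), Commute (D.subtype x) (f.ker.subtype c) := by
    intro x c
    have h5 := congrArg (fun (a : MulAut D) => ((a x : D) : G)) (MonoidHom.mem_ker.mp c.2)
    simp only [MulAut.one_apply] at h5
    rw [hf] at h5
    show (x : G) * (c : G) = (c : G) * (x : G)
    calc (x : G) * (c : G) = ((c : G) * x * (c : G)⁻¹) * c := by rw [h5]
      _ = (c : G) * x := by group
  let ψ : D × f.ker →* G := MonoidHom.noncommCoprod D.subtype f.ker.subtype hcomm
  have hψ : ∀ z : D × f.ker, ψ z = (z.1 : G) * (z.2 : G) := fun z => rfl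
  have hinj : Function.Injective ψ := by
    rw [injective_iff_map_eq_one]
    rintro ⟨x, c⟩ hxc
    rw [hψ] at hxc
    have h5 : (x : G) = (c : G)⁻¹ := eq_inv_of_mul_eq_one_left hxc
    have h6 : x ∈ Subgroup.center D := by
      rw [Subgroup.mem_center_iff]
      intro y
      apply Subtype.ext
      have h7 := hcomm y c
      have h8 : (y : G) * (c : G) = (c : G) * (y : G) := h7
      show (y : G) * (x : G) = (x : G) * (y : G)
      rw [h5]
      exact (Commute.inv_right (a := (y : G)) (b := (c : G)) h8)
    rw [center_eq_bot hDsimple, Subgroup.mem_bot] at h6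
    have h7 : (c : G) = 1 := by
      have h8 : (x : G) = 1 := by rw [h6]; rfl
      rw [h8] at h5
      exact inv_eq_one.mp h5.symm
    exact Prod.ext h6 (Subtype.ext h7)
  have hbij : Function.Bijective ψ := (Nat.bijective_iff_injective_and_card _).mpr
    ⟨hinj, by rw [Nat.card_prod, hDcard, hk3, hG]⟩
  have hCcyc : IsCyclic f.ker := isCyclic_of_cyc (G := f.ker) hm h1 hk3
  have hcycm : IsCyclic (Cyc m) := inferInstance
  have eC : f.ker ≃* Cyc m := mulEquivOfCyclicCardEq (by rw [hk3, card_Cyc])
  exact ⟨(MulEquiv.ofBijective ψ hbij).symm.trans (MulEquiv.prodCongr eD eC)⟩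

end Pool.Agent.Lib.MP_4f0ec0_al
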