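import Mathlib
import Pool.Agent.Lib.MP_4f0ec0_al.DModel

/-! Groups of order `q ^ 3` acting on the functions on `ZMod q`. -/

namespace Pool.Agent.Lib.MP_4f0ec0_al

open Function

/-- The group of monomial matrices with entries `u * χ (b * i)`, composed with translations. -/
@[ext] structure Hs {p q : ℕ} (χ : Multiplicative (ZMod q) →* (ZMod p)ˣ) where
  /-- scalar -/
  u : (ZMod p)ˣ
  /-- frequency -/
  b : ZMod q
  /-- translation -/
  c : ZMod q

section

variable {p q : ℕ} (χ : Multiplicative (ZMod q) →* (ZMod p)ˣ)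

lemma chi_add (x y : ZMod q) : χ (Multiplicative.ofAdd (x + y)) =
    χ (Multiplicative.ofAdd x) * χ (Multiplicative.ofAdd y) := by
  rw [ofAdd_add, map_mul]

instance : Mul (Hs χ) := ⟨fun g h => ⟨g.u * h.u * χ (Multiplicative.ofAdd (-(h.b * g.c))),
  g.b + h.b, g.c + h.c⟩⟩

instance : One (Hs χ) := ⟨⟨1, 0, 0⟩⟩

instance : Inv (Hs χ) := ⟨fun g => ⟨g.u⁻¹ * χ (Multiplicative.ofAdd (-(g.b * g.c))), -g.b, -g.c⟩⟩

@[simp] lemma Hs.mul_u (g h : Hs χ) : (g * h).u =
  g.u * h.u * χ (Multiplicative.ofAdd (-(h.b * g.c))) := rfl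
@[simp] lemma Hs.mul_b (g h : Hs χ) : (g * h).b = g.b + h.b := rfl
@[simp] lemma Hs.mul_c (g h : Hs χ) : (g * h).c = g.c + h.c := rfl
@[simp] lemma Hs.one_u : (1 : Hs χ).u = 1 := rfl
@[simp] lemma Hs.one_b : (1 : Hs χ).b = 0 := rfl
@[simp] lemma Hs.one_c : (1 : Hs χ).c = 0 := rfl
@[simp] lemma Hs.inv_u (g : Hs χ) : (g⁻¹).u = g.u⁻¹ * χ (Multiplicative.ofAdd (-(g.b * g.c))) := rfl
@[simp] lemma Hs.inv_b (g : Hs χ) : (g⁻¹).b = -g.b := rfl
@[simp] lemma Hs.inv_c (g : Hs χ) : (g⁻¹).c = -g.c := rfl

instance : Group (Hs χ) := Group.ofLeftAxioms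
  (by
    intro g h k
    apply Hs.ext
    · simp only [Hs.mul_u, Hs.mul_b, Hs.mul_c]
      have h1 : χ (Multiplicative.ofAdd (-(h.b * g.c))) *
          χ (Multiplicative.ofAdd (-(k.b * (g.c + h.c)))) =
          χ (Multiplicative.ofAdd (-(k.b * h.c))) *
          χ (Multiplicative.ofAdd (-((h.b + k.b) * g.c))) := by
        rw [← chi_add, ← chi_add]
        congr 2
        ring
      calc g.u * h.u * χ (Multiplicative.ofAdd (-(h.b * g.c))) * k.u *
            χ (Multiplicative.ofAdd (-(k.b * (g.c + h.c))))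
          = g.u * h.u * k.u * (χ (Multiplicative.ofAdd (-(h.b * g.c))) *
            χ (Multiplicative.ofAdd (-(k.b * (g.c + h.c))))) := by
            simp only [mul_assoc, mul_left_comm, mul_comm]
        _ = g.u * h.u * k.u * (χ (Multiplicative.ofAdd (-(k.b * h.c))) *
            χ (Multiplicative.ofAdd (-((h.b + k.b) * g.c)))) := by rw [h1]
        _ = _ := by simp only [mul_assoc, mul_left_comm, mul_comm]
    · simp [add_assoc]
    · simp [add_assoc])
  (by
    intro g
    apply Hs.ext
    · simp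
    · simp
    · simp)
  (by
    intro g
    apply Hs.ext
    · simp only [Hs.mul_u, Hs.inv_u, Hs.inv_c, Hs.one_u]
      have h1 : χ (Multiplicative.ofAdd (-(g.b * g.c))) *
          χ (Multiplicative.ofAdd (-(g.b * -g.c))) = 1 := by
        rw [← chi_add]
        have : -(g.b * g.c) + -(g.b * -g.c) = 0 := by ring
        rw [this, ofAdd_zero, map_one]
      calc g.u⁻¹ * χ (Multiplicative.ofAdd (-(g.b * g.c))) * g.u *
            χ (Multiplicative.ofAdd (-(g.b * -g.c)))
          = (g.u⁻¹ * g.u) * (χ (Multiplicative.ofAdd (-(g.b * g.c))) *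
            χ (Multiplicative.ofAdd (-(g.b * -g.c)))) := by
            simp only [mul_assoc, mul_left_comm, mul_comm]
        _ = 1 := by rw [h1, inv_mul_cancel, one_mul]
    · simp
    · simp)

/-- The action on functions. -/
def actH : Hs χ →* MulAut (Multiplicative (ZMod q → ZMod p)) where
  toFun g :=
    { toFun := fun v => Multiplicative.ofAdd (fun i =>
        ((g.u * χ (Multiplicative.ofAdd (g.b * i)) : (ZMod p)ˣ) : ZMod p) *
          Multiplicative.toAdd v (i - g.c))
      invFun := fun v => Multiplicative.ofAdd (fun i =>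
        ((g.u⁻¹ * χ (Multiplicative.ofAdd (-(g.b * (i + g.c)))) : (ZMod p)ˣ) : ZMod p) *
          Multiplicative.toAdd v (i + g.c))
      left_inv := fun v => by
        apply Multiplicative.toAdd.injective
        funext i
        simp only [toAdd_ofAdd, add_sub_cancel_right]
        rw [← mul_assoc, ← Units.val_mul]
        have h1 : g.u⁻¹ * χ (Multiplicative.ofAdd (-(g.b * (i + g.c)))) *
            (g.u * χ (Multiplicative.ofAdd (g.b * (i + g.c)))) = 1 := by
          calc _ = (g.u⁻¹ * g.u) * (χ (Multiplicative.ofAdd (-(g.b * (i + g.c)))) *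
                χ (Multiplicative.ofAdd (g.b * (i + g.c)))) := by
                simp only [mul_assoc, mul_left_comm, mul_comm]
            _ = 1 := by rw [← chi_add, neg_add_cancel, ofAdd_zero, map_one, inv_mul_cancel, one_mul]
        rw [h1, Units.val_one, one_mul]
      right_inv := fun v => by
        apply Multiplicative.toAdd.injective
        funext i
        simp only [toAdd_ofAdd, sub_add_cancel]
        rw [← mul_assoc, ← Units.val_mul]
        have h1 : g.u * χ (Multiplicative.ofAdd (g.b * i)) *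
            (g.u⁻¹ * χ (Multiplicative.ofAdd (-(g.b * i)))) = 1 := by
          calc _ = (g.u * g.u⁻¹) * (χ (Multiplicative.ofAdd (g.b * i)) *
                χ (Multiplicative.ofAdd (-(g.b * i)))) := by
                simp only [mul_assoc, mul_left_comm, mul_comm]
            _ = 1 := by rw [← chi_add, add_neg_cancel, ofAdd_zero, map_one, mul_inv_cancel, one_mul]
        rw [h1, Units.val_one, one_mul]
      map_mul' := fun v w => by
        apply Multiplicative.toAdd.injective
        funext i
        simp [mul_add] }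
  map_one' := by
    refine MulEquiv.ext fun v => Multiplicative.toAdd.injective (funext fun i => ?_)
    show ((1 * χ (Multiplicative.ofAdd (0 * i)) : (ZMod p)ˣ) : ZMod p) *
          Multiplicative.toAdd v (i - 0) = Multiplicative.toAdd v i
    simp
  map_mul' g h := by
    refine MulEquiv.ext fun v => Multiplicative.toAdd.injective (funext fun i => ?_)
    show ((g.u * h.u * χ (Multiplicative.ofAdd (-(h.b * g.c))) *
        χ (Multiplicative.ofAdd ((g.b + h.b) * i)) : (ZMod p)ˣ) : ZMod p) *
          Multiplicative.toAdd v (i - (g.c + h.c)) =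
      ((g.u * χ (Multiplicative.ofAdd (g.b * i)) : (ZMod p)ˣ) : ZMod p) *
        (((h.u * χ (Multiplicative.ofAdd (h.b * (i - g.c))) : (ZMod p)ˣ) : ZMod p) *
          Multiplicative.toAdd v (i - g.c - h.c))
    rw [← mul_assoc, ← Units.val_mul, sub_sub]
    congr 2
    have h1 : χ (Multiplicative.ofAdd (-(h.b * g.c))) *
        χ (Multiplicative.ofAdd ((g.b + h.b) * i)) =
        χ (Multiplicative.ofAdd (g.b * i)) * χ (Multiplicative.ofAdd (h.b * (i - g.c))) := by
      rw [← chi_add, ← chi_add]
      congr 2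
      ring
    rw [mul_assoc, h1]
    simp only [mul_assoc, mul_left_comm, mul_comm]

lemma actH_apply (g : Hs χ) (v : Multiplicative (ZMod q → ZMod p)) (i : ZMod q) :
    Multiplicative.toAdd (actH χ g v) i =
      ((g.u * χ (Multiplicative.ofAdd (g.b * i)) : (ZMod p)ˣ) : ZMod p) *
          Multiplicative.toAdd v (i - g.c) := rfl

lemma chi_pow (x : ZMod q) : χ (Multiplicative.ofAdd x) ^ q = 1 := by
  rw [← map_pow, ← ofAdd_nsmul, nsmul_eq_mul, ZMod.natCast_self, zero_mul, ofAdd_zero, map_one]

/-- The subgroups `u ^ q = χ (ε * (b + c))`. -/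
def KH (ε : ZMod q) : Subgroup (Hs χ) where
  carrier := {g | g.u ^ q = χ (Multiplicative.ofAdd (ε * (g.b + g.c)))}
  mul_mem' := by
    intro g h hg hh
    show (g.u * h.u * χ (Multiplicative.ofAdd (-(h.b * g.c)))) ^ q =
      χ (Multiplicative.ofAdd (ε * ((g.b + h.b) + (g.c + h.c))))
    rw [mul_pow, mul_pow, chi_pow, mul_one, show g.u ^ q = _ from hg, show h.u ^ q = _ from hh,
      ← chi_add]
    congr 2
    ring
  one_mem' := by
    show (1 : (ZMod p)ˣ) ^ q = χ (Multiplicative.ofAdd (ε * (0 + 0)))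
    simp
  inv_mem' := by
    intro g hg
    show (g.u⁻¹ * χ (Multiplicative.ofAdd (-(g.b * g.c)))) ^ q =
      χ (Multiplicative.ofAdd (ε * (-g.b + -g.c)))
    rw [mul_pow, chi_pow, mul_one, inv_pow, show g.u ^ q = _ from hg, ← map_inv, ← ofAdd_neg]
    congr 2
    ring

lemma Hs.pow_eq (g : Hs χ) (n : ℕ) : (g ^ n).u = g.u ^ n *
      χ (Multiplicative.ofAdd (-(g.b * g.c * (n.choose 2 : ZMod q)))) ∧
    (g ^ n).b = n * g.b ∧ (g ^ n).c = n * g.c := by
  induction n with
  | zero => simp
  | succ n ih =>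
    obtain ⟨h1, h2, h3⟩ := ih
    rw [pow_succ]
    refine ⟨?_, ?_, ?_⟩
    · rw [Hs.mul_u, h1, h3]
      have h4 : χ (Multiplicative.ofAdd (-(g.b * g.c * (n.choose 2 : ZMod q)))) *
          χ (Multiplicative.ofAdd (-(g.b * (n * g.c)))) =
          χ (Multiplicative.ofAdd (-(g.b * g.c * ((n + 1).choose 2 : ZMod q)))) := by
        rw [← chi_add]
        congr 2
        rw [Nat.choose_succ_succ' n 1, Nat.choose_one_right]
        push_cast
        ring
      rw [← h4, pow_succ]
      simp only [mul_assoc, mul_left_comm, mul_comm]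
    · rw [Hs.mul_b, h2]
      push_cast
      ring
    · rw [Hs.mul_c, h3]
      push_cast
      ring

end

end Pool.Agent.Lib.MP_4f0ec0_al
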