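import Mathlib
import Pool.Agent.Lib.MP_4f0ec0_al.Heis

/-! The two groups of order `p ^ q * q ^ 3`. -/

namespace Pool.Agent.Lib.MP_4f0ec0_al

open Function

lemma card_pow_semidirect {A K : Type} [Group A] [Group K] (ρ : K →* MulAut A) {p : ℕ} (k : ℕ)
    (hA : ∀ a : A, a ^ p = 1) (hK : Nat.Coprime p (Nat.card K)) :
    Nat.card {x : A ⋊[ρ] K // x ^ (p * k) = 1} = Nat.card A * Nat.card {y : K // y ^ k = 1} := by
  rw [← Nat.card_prod]
  refine Nat.card_congr ⟨fun x => (x.1.left, ⟨x.1.right, ?_⟩), fun z => ⟨⟨z.1, z.2.1⟩, ?_⟩,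
    fun x => rfl, fun z => rfl⟩
  · have h1 : (x.1.right) ^ (p * k) = 1 := by
      have h2 := congrArg (SemidirectProduct.rightHom : A ⋊[ρ] K →* K) x.2
      rwa [map_pow, map_one] at h2
    have h1' : (x.1.right ^ k) ^ p = 1 := by
      rw [← pow_mul, mul_comm k p]
      exact h1
    have h3 : orderOf (x.1.right ^ k) ∣ Nat.gcd p (Nat.card K) :=
      Nat.dvd_gcd (orderOf_dvd_of_pow_eq_one h1') (orderOf_dvd_natCard _)
    rw [hK, Nat.dvd_one, orderOf_eq_one_iff] at h3
    exact h3
  · set x : A ⋊[ρ] K := ⟨z.1, z.2.1⟩ with hx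
    have h1 : (x ^ k).right = 1 := by
      have h2 : (SemidirectProduct.rightHom : A ⋊[ρ] K →* K) (x ^ k) = z.2.1 ^ k := by
        rw [map_pow]
        rfl
      rw [z.2.2] at h2
      exact h2
    have h2 : x ^ k = SemidirectProduct.inl (x ^ k).left := by
      apply SemidirectProduct.ext
      · rfl
      · rw [h1]
        rfl
    have h3 : x ^ (p * k) = (x ^ k) ^ p := by
      rw [← pow_mul, mul_comm k p]
    rw [h3, h2, ← map_pow, hA, map_one]

lemma two_case : ∀ b c : ZMod 2, b + c + -(b * c * 1) = 0 → b + c = 0 := by decide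

section

variable {p q : ℕ} [hp : Fact p.Prime] [hq : Fact q.Prime]
  (χ : Multiplicative (ZMod q) →* (ZMod p)ˣ)

lemma card_roots (hχ : ∀ x : ZMod q, χ (Multiplicative.ofAdd x) = 1 → x = 0) :
    Nat.card {u : (ZMod p)ˣ // u ^ q = 1} = q := by
  classical
  apply le_antisymm
  · have := IsCyclic.card_pow_eq_one_le (α := (ZMod p)ˣ) hq.out.pos
    rw [Nat.card_eq_fintype_card, Fintype.card_subtype]
    convert this
  · have h1 : Nat.card (ZMod q) = q := Nat.card_zmod q
    conv_lhs => rw [← h1]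
    apply Nat.card_le_card_of_injective (fun x : ZMod q =>
      (⟨χ (Multiplicative.ofAdd x), chi_pow χ x⟩ : {u : (ZMod p)ˣ // u ^ q = 1}))
    intro x y hxy
    have h2 : χ (Multiplicative.ofAdd x) = χ (Multiplicative.ofAdd y) := congrArg Subtype.val hxy
    have h3 : χ (Multiplicative.ofAdd (x - y)) = 1 := by
      rw [ofAdd_sub, map_div, h2, div_self']
    exact sub_eq_zero.mp (hχ _ h3)

variable (hχ : ∀ x : ZMod q, χ (Multiplicative.ofAdd x) = 1 → x = 0) (ε : ZMod q)
  (s : ZMod q → (ZMod p)ˣ) (hs : ∀ x, s x ^ q = χ (Multiplicative.ofAdd (ε * x)))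

include hχ s hs

lemma card_KH : Nat.card (KH χ ε) = q ^ 3 := by
  have h1 : Nat.card (KH χ ε) = Nat.card ({u : (ZMod p)ˣ // u ^ q = 1} × ZMod q × ZMod q) := by
    refine Nat.card_congr ⟨fun g => (⟨g.1.u * (s (g.1.b + g.1.c))⁻¹, ?_⟩, g.1.b, g.1.c),
      fun z => ⟨⟨z.1.1 * s (z.2.1 + z.2.2), z.2.1, z.2.2⟩, ?_⟩, ?_, ?_⟩
    · rw [mul_pow, inv_pow, hs, show g.1.u ^ q = _ from g.2, mul_inv_cancel]
    · show (z.1.1 * s (z.2.1 + z.2.2)) ^ q = χ (Multiplicative.ofAdd (ε * (z.2.1 + z.2.2)))
      rw [mul_pow, z.1.2, one_mul, hs]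
    · intro g
      apply Subtype.ext
      apply Hs.ext
      · show g.1.u * (s (g.1.b + g.1.c))⁻¹ * s (g.1.b + g.1.c) = g.1.u
        rw [inv_mul_cancel_right]
      · rfl
      · rfl
    · rintro ⟨u, b, c⟩
      refine Prod.ext (Subtype.ext ?_) rfl
      show u.1 * s (b + c) * (s (b + c))⁻¹ = u.1
      rw [mul_inv_cancel_right]
  rw [h1, Nat.card_prod, Nat.card_prod, card_roots χ hχ, Nat.card_zmod]
  ring

lemma KH_not_SS : ¬ SS (Multiplicative (ZMod q → ZMod p) ⋊[(actH χ).comp (KH χ ε).subtype]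
    (KH χ ε)) := by
  classical
  apply semidirect_not_SS
  · exact inferInstanceAs (Nontrivial (ZMod q → ZMod p))
  · have h1 : Nat.card (Multiplicative (ZMod q → ZMod p)) = p ^ q := by
      rw [Nat.card_congr Multiplicative.toAdd, Nat.card_fun, Nat.card_zmod, Nat.card_zmod]
    rw [h1]
    exact Nat.Prime.not_prime_pow hq.out.two_le
  · intro L hL _
    have key := mono_irred (p := p) (I := ZMod q) (Subgroup.toAddSubgroup' L)
      (fun i => ((s 1 * χ (Multiplicative.ofAdd i) : (ZMod p)ˣ) : ZMod p)) (by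
        intro i j h
        have h1 := mul_left_cancel (Units.ext h)
        have h3 : χ (Multiplicative.ofAdd (i - j)) = 1 := by
          rw [ofAdd_sub, map_div, h1, div_self']
        exact sub_eq_zero.mp (hχ _ h3)) (by
        intro v hv
        have hg : (⟨s 1, 1, 0⟩ : Hs χ) ∈ KH χ ε := by
          show s 1 ^ q = χ (Multiplicative.ofAdd (ε * (1 + 0)))
          rw [hs, add_zero]
        have h1 := hL ⟨_, hg⟩ (Multiplicative.ofAdd v) hv
        have h2 : Multiplicative.ofAdd (fun i : ZMod q =>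
            ((s 1 * χ (Multiplicative.ofAdd i) : (ZMod p)ˣ) : ZMod p) * v i) =
            actH χ ⟨s 1, 1, 0⟩ (Multiplicative.ofAdd v) := by
          apply Multiplicative.toAdd.injective
          funext i
          rw [actH_apply]
          simp
        have h3 : Multiplicative.ofAdd (fun i : ZMod q =>
            ((s 1 * χ (Multiplicative.ofAdd i) : (ZMod p)ˣ) : ZMod p) * v i) ∈ L := by
          rw [h2]
          exact h1
        exact h3) (by
        intro i j
        refine ⟨(s (j - i) : ZMod p), Units.ne_zero _, fun hi => ?_⟩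
        have hg : (⟨s (j - i), 0, j - i⟩ : Hs χ) ∈ KH χ ε := by
          show s (j - i) ^ q = χ (Multiplicative.ofAdd (ε * (0 + (j - i))))
          rw [hs, zero_add]
        have h1 := hL ⟨_, hg⟩ (Multiplicative.ofAdd (Pi.single i 1)) hi
        have h2 : Multiplicative.ofAdd (Pi.single j (s (j - i) : ZMod p) : ZMod q → ZMod p) =
            actH χ ⟨s (j - i), 0, j - i⟩ (Multiplicative.ofAdd (Pi.single i 1)) := by
          apply Multiplicative.toAdd.injective
          funext k
          rw [actH_apply]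
          by_cases hk : k = j
          · subst hk
            simp
          · have h3 : k - (j - i) ≠ i := by
              intro h
              apply hk
              have : k = i + (j - i) := sub_eq_iff_eq_add.mp h
              rw [this]
              ring
            simp [hk, h3]
        have h3 : Multiplicative.ofAdd (Pi.single j (s (j - i) : ZMod p) : ZMod q → ZMod p) ∈ L := by
          rw [h2]
          exact h1
        exact h3)
    rcases key with h2 | h2
    · left
      ext x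
      have h3 : Multiplicative.toAdd x ∈ Subgroup.toAddSubgroup' L ↔
        Multiplicative.toAdd x ∈ (⊥ : AddSubgroup (ZMod q → ZMod p)) := by rw [h2]
      exact h3
    · right
      ext x
      have h3 : Multiplicative.toAdd x ∈ Subgroup.toAddSubgroup' L ↔
        Multiplicative.toAdd x ∈ (⊤ : AddSubgroup (ZMod q → ZMod p)) := by rw [h2]
      exact h3

omit s hs in
lemma card_pow_KH0 : q * q < Nat.card {x : KH χ 0 // x ^ q = 1} := by
  classical
  have hfin : Finite (Hs χ) := by
    apply Finite.of_injective (fun g : Hs χ => (g.u, g.b, g.c))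
    intro g h hgh
    simp only [Prod.mk.injEq] at hgh
    exact Hs.ext hgh.1 hgh.2.1 hgh.2.2
  have hpow : ∀ g : Hs χ, g.b * g.c = 0 → g.u ^ q = 1 → g ^ q = 1 := by
    intro g h1 h2
    obtain ⟨e1, e2, e3⟩ := Hs.pow_eq χ g q
    apply Hs.ext
    · rw [e1, h1, h2, zero_mul, neg_zero, ofAdd_zero, map_one, one_mul]
      rfl
    · rw [e2, ZMod.natCast_self, zero_mul]
      rfl
    · rw [e3, ZMod.natCast_self, zero_mul]
      rfl
  have hmem : ∀ g : Hs χ, g.u ^ q = 1 → g ∈ KH χ 0 := by
    intro g h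
    show g.u ^ q = χ (Multiplicative.ofAdd (0 * (g.b + g.c)))
    rw [h, zero_mul, ofAdd_zero, map_one]
  let f : Option ({u : (ZMod p)ˣ // u ^ q = 1} × ZMod q) → {x : KH χ 0 // x ^ q = 1} := fun o =>
    match o with
    | none => ⟨⟨⟨1, 1, 0⟩, hmem _ (one_pow q)⟩, Subtype.ext (hpow _ (mul_zero _) (one_pow q))⟩
    | some z => ⟨⟨⟨z.1.1, 0, z.2⟩, hmem _ z.1.2⟩, Subtype.ext (hpow _ (zero_mul _) z.1.2)⟩
  have hf : Injective f := by
    intro a b hab
    rcases a with _ | ⟨u, c⟩ <;> rcases b with _ | ⟨u', c'⟩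
    · rfl
    · exfalso
      have h1 : (1 : ZMod q) = 0 := congrArg (fun x : {x : KH χ 0 // x ^ q = 1} => x.1.1.b) hab
      exact one_ne_zero h1
    · exfalso
      have h1 : (0 : ZMod q) = 1 := congrArg (fun x : {x : KH χ 0 // x ^ q = 1} => x.1.1.b) hab
      exact zero_ne_one h1
    · have h1 : u.1 = u'.1 := congrArg (fun x : {x : KH χ 0 // x ^ q = 1} => x.1.1.u) hab
      have h2 : c = c' := congrArg (fun x : {x : KH χ 0 // x ^ q = 1} => x.1.1.c) hab
      rw [Subtype.ext h1, h2]
  have h1 := Nat.card_le_card_of_injective f hf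
  have h2 : Nat.card (Option ({u : (ZMod p)ˣ // u ^ q = 1} × ZMod q)) = q * q + 1 := by
    rw [Finite.card_option, Nat.card_prod, card_roots χ hχ, Nat.card_zmod]
  omega

omit s hs in
lemma card_pow_KH1 : Nat.card {x : KH χ 1 // x ^ q = 1} ≤ q * q := by
  have hkey : ∀ x : KH χ 1, x ^ q = 1 → x.1.b + x.1.c = 0 := by
    intro x hx
    have h1 : (x : Hs χ) ^ q = 1 := congrArg (fun z : KH χ 1 => (z : Hs χ)) hx
    obtain ⟨e1, -, -⟩ := Hs.pow_eq χ (x : Hs χ) q
    rw [h1] at e1
    have h2 : (x : Hs χ).u ^ q = χ (Multiplicative.ofAdd (1 * ((x : Hs χ).b + (x : Hs χ).c))) := x.2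
    rw [h2, ← chi_add, Hs.one_u] at e1
    have h3 := hχ _ e1.symm
    rw [one_mul] at h3
    rcases hq.out.eq_two_or_odd' with h4 | h4
    · subst h4
      apply two_case
      rw [Nat.choose_self, Nat.cast_one] at h3
      exact h3
    · have h5 : ((Nat.choose q 2 : ℕ) : ZMod q) = 0 := by
        rw [ZMod.natCast_eq_zero_iff]
        exact Nat.Prime.dvd_choose_self hq.out two_ne_zero (by
          have := hq.out.two_le
          rcases h4 with ⟨k, hk⟩
          omega)
      rw [h5, mul_zero, neg_zero, add_zero] at h3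
      exact h3
  have h2 : Nat.card ({u : (ZMod p)ˣ // u ^ q = 1} × ZMod q) = q * q := by
    rw [Nat.card_prod, card_roots χ hχ, Nat.card_zmod]
  rw [← h2]
  apply Nat.card_le_card_of_injective (fun x : {x : KH χ 1 // x ^ q = 1} =>
    ((⟨x.1.1.u, by
      have h3 : (x.1 : Hs χ).u ^ q = χ (Multiplicative.ofAdd (1 * ((x.1 : Hs χ).b + (x.1 : Hs χ).c))) := x.1.2
      rw [h3, hkey x.1 x.2, mul_zero, ofAdd_zero, map_one]⟩ : {u : (ZMod p)ˣ // u ^ q = 1}),
      x.1.1.b))
  intro x y hxy
  have h3 : x.1.1.u = y.1.1.u := congrArg (fun z => z.1.1) hxy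
  have h4 : x.1.1.b = y.1.1.b := congrArg (fun z => z.2) hxy
  have h5 := hkey x.1 x.2
  have h6 := hkey y.1 y.2
  apply Subtype.ext
  apply Subtype.ext
  apply Hs.ext h3 h4
  rw [h4] at h5
  exact add_left_cancel (h5.trans h6.symm)

end

end Pool.Agent.Lib.MP_4f0ec0_al
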