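import Mathlib
import Pool.Agent.Lib.MP_4f0ec0_al.CaseB

/-! An arithmetic version of the normal complement theorem of Frobenius for simple groups. -/

namespace Pool.Agent.Lib.MP_4f0ec0_al

open Function Subgroup
open scoped Pointwise

/-- No automorphisms of prime order `q ≠ p` of `p`-subgroups, for arithmetic reasons. -/
def HypF (p : ℕ) (G : Type) [Group G] : Prop :=
  ∀ q, q.Prime → q ∣ Nat.card G → q ≠ p → ∀ l, 0 < l → p ^ l ∣ Nat.card G → ¬ q ∣ p ^ l - 1

/-- Normalizers of `p`-subgroups induce only `p`-groups of automorphisms. -/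
def HypN (p : ℕ) (G : Type) [Group G] : Prop :=
  ∀ D : Subgroup G, IsPGroup p D → ∃ j, Nat.card (D.normalizerMonoidHom).range = p ^ j

variable {G : Type} [Group G] [Finite G] {p : ℕ} [hp : Fact p.Prime]

lemma range_pgroup (hF : HypF p G) (D : Subgroup G) (hD : IsPGroup p D) :
    ∃ j, Nat.card (D.normalizerMonoidHom).range = p ^ j := by
  have hAfin : Finite (MulAut D) := finite_mulAut' D
  apply isPGroup_of_primes
  intro q hq hqd
  by_contra hne
  have hfq : Fact q.Prime := ⟨hq⟩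
  obtain ⟨j, hj⟩ := IsPGroup.iff_card.mp hD
  obtain ⟨α, hα⟩ := exists_prime_orderOf_dvd_card' q hqd
  obtain ⟨l, hl1, hl2, hl3⟩ := exists_dvd_of_aut hp.out hq (Ne.symm hne) hj (α : MulAut D) (by
    rw [Subgroup.orderOf_coe, hα])
  refine hF q hq ?_ hne l hl1 ?_ hl3
  · exact (hqd.trans (Subgroup.card_range_dvd _)).trans (Subgroup.card_subgroup_dvd_card _)
  · refine (Nat.pow_dvd_pow p hl2).trans ?_
    rw [← hj]
    exact Subgroup.card_subgroup_dvd_card D

lemma hypN_of_hypF (hF : HypF p G) : HypN p G := fun D hD => range_pgroup hF D hD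

lemma factor (hF : HypN p G) (D : Subgroup G) (hD : IsPGroup p D)
    (P1 : Sylow p (normalizer (D : Set G))) (h : (normalizer (D : Set G) : Subgroup G)) :
    ∃ x ∈ P1, ∀ d ∈ D, ((h * x⁻¹ : (normalizer (D : Set G) : Subgroup G)) : G) * d =
      d * ((h * x⁻¹ : (normalizer (D : Set G) : Subgroup G)) : G) := by
  set f := D.normalizerMonoidHom with hf
  have hAfin : Finite (MulAut D) := finite_mulAut' D
  obtain ⟨j, hj⟩ := hF D hD
  have h1 : ((P1 : Subgroup (normalizer (D : Set G))).map f.rangeRestrict).index = 1 := by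
    have h2 : ((P1 : Subgroup (normalizer (D : Set G))).map f.rangeRestrict).index ∣
        (P1 : Subgroup (normalizer (D : Set G))).index :=
      Subgroup.index_map_dvd _ f.rangeRestrict_surjective
    have h3 : ((P1 : Subgroup (normalizer (D : Set G))).map f.rangeRestrict).index ∣ p ^ j := by
      rw [← hj]
      exact Subgroup.index_dvd_card _
    obtain ⟨i, -, hi⟩ := (Nat.dvd_prime_pow hp.out).mp h3
    rcases Nat.eq_zero_or_pos i with h0 | h0
    · rw [hi, h0, pow_zero]
    · exfalso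
      apply P1.not_dvd_index
      rw [hi] at h2
      exact (dvd_pow_self p h0.ne').trans h2
  rw [Subgroup.index_eq_one] at h1
  have h2 : f.rangeRestrict h ∈ (P1 : Subgroup (normalizer (D : Set G))).map f.rangeRestrict := by
    rw [h1]; trivial
  obtain ⟨x, hx, hxh⟩ := h2
  refine ⟨x, hx, ?_⟩
  have h3 : f x = f h := congrArg (fun z : f.range => (z : MulAut D)) hxh
  have h4 : h * x⁻¹ ∈ f.ker := by rw [MonoidHom.mem_ker, map_mul, map_inv, h3, mul_inv_cancel]
  rw [hf, normalizerMonoidHom_ker] at h4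
  have h5 := Subgroup.mem_centralizer_iff.mp h4
  intro d hd
  exact (h5 d hd).symm

lemma exists_normalizing (P : Sylow p G) (D : Subgroup G) (hDP : D ≤ P) (hne : ¬ (P : Subgroup G) ≤ D) :
    ∃ x ∈ P, x ∉ D ∧ x ∈ normalizer (D : Set G) := by
  have hnil : Group.IsNilpotent P := P.2.isNilpotent
  have hnc := Group.normalizerCondition_of_isNilpotent (G := P)
  have hlt : D.subgroupOf P < ⊤ := by
    rw [lt_top_iff_ne_top]
    intro h
    apply hne
    exact Subgroup.subgroupOf_eq_top.mp h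
  have h1 := hnc _ hlt
  obtain ⟨x, hx1, hx2⟩ := SetLike.exists_of_lt h1
  refine ⟨x, x.2, hx2, ?_⟩
  rw [Subgroup.mem_normalizer_iff] at hx1 ⊢
  intro d
  constructor
  · intro hd
    exact (hx1 ⟨d, hDP hd⟩).mp hd
  · intro hd
    have h2 := (hx1 (x⁻¹ * ⟨_, hDP hd⟩ * x)).mpr (by
      have : x * (x⁻¹ * ⟨_, hDP hd⟩ * x) * x⁻¹ = ⟨_, hDP hd⟩ := by group
      rw [this]
      exact hd)
    have h3 : (x : G)⁻¹ * (x * d * (x : G)⁻¹) * x ∈ D := h2
    have h4 : (x : G)⁻¹ * (x * d * (x : G)⁻¹) * x = d := by group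
    rwa [h4] at h3

lemma mem_smul_sylow (g : G) (P : Sylow p G) (x : G) : x ∈ g • P ↔ g⁻¹ * x * g ∈ P := by
  show x ∈ ((g • P : Sylow p G) : Subgroup G) ↔ _
  rw [Sylow.coe_subgroup_smul, Subgroup.mem_pointwise_smul_iff_inv_smul_mem]
  have : (MulAut.conj g)⁻¹ • x = g⁻¹ * x * g := by
    rw [← map_inv, MulAut.smul_def, MulAut.conj_apply, inv_inv]
  rw [this]
  rfl

theorem claimC (hF : HypN p G) : ∀ n, ∀ P Q : Sylow p G,
    Nat.card G - Nat.card ((P : Subgroup G) ⊓ Q : Subgroup G) = n →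
    ∃ c : G, (∀ x ∈ (P : Subgroup G) ⊓ Q, c * x = x * c) ∧ c • P = Q := by
  intro n
  induction n using Nat.strong_induction_on with
  | _ n ih =>
    intro P Q hn
    by_cases hPQ : (P : Subgroup G) ≤ Q
    · refine ⟨1, fun x _ => by simp, ?_⟩
      rw [one_smul]
      apply Sylow.ext
      exact Subgroup.eq_of_le_of_card_ge hPQ (by rw [P.card_eq_multiplicity, Q.card_eq_multiplicity])
    · set D : Subgroup G := (P : Subgroup G) ⊓ Q with hDdef
      have hDP : D ≤ P := inf_le_left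
      have hDQ : D ≤ Q := inf_le_right
      have hD : IsPGroup p D := P.2.to_le hDP
      set H : Subgroup G := normalizer (D : Set G) with hH
      obtain ⟨x, hxP, hxD, hxH⟩ := exists_normalizing P D hDP (fun h => hPQ (h.trans hDQ))
      obtain ⟨y, hyQ, hyD, hyH⟩ := exists_normalizing Q D hDQ (fun h => hPQ (by
        have h1 : (Q : Subgroup G) ≤ P := h.trans hDP
        have h2 := Subgroup.eq_of_le_of_card_ge h1 (by
          rw [P.card_eq_multiplicity, Q.card_eq_multiplicity])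
        exact h2.ge))
      -- Sylow subgroups of `H`
      have hPH : IsPGroup p ((P : Subgroup G).subgroupOf H) :=
        P.2.comap_of_injective H.subtype (Subgroup.subtype_injective _)
      have hQH : IsPGroup p ((Q : Subgroup G).subgroupOf H) :=
        Q.2.comap_of_injective H.subtype (Subgroup.subtype_injective _)
      obtain ⟨P1, hP1⟩ := hPH.exists_le_sylow
      obtain ⟨Q1, hQ1⟩ := hQH.exists_le_sylow
      obtain ⟨h, hh⟩ := MulAction.exists_smul_eq H P1 Q1
      obtain ⟨w, hw, hz⟩ := factor hF D hD P1 h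
      set z : H := h * w⁻¹ with hzdef
      have hzP1 : z • P1 = Q1 := by
        rw [← hh, hzdef, mul_smul]
        congr 1
        rw [Sylow.smul_eq_iff_mem_normalizer]
        exact Subgroup.inv_mem _ (Subgroup.le_normalizer hw)
      have hP1p : IsPGroup p ((P1 : Subgroup H).map H.subtype) := P1.2.map _
      obtain ⟨P2, hP2⟩ := hP1p.exists_le_sylow
      have hPP2 : ∀ v ∈ P, v ∈ H → v ∈ P2 := fun v hv hvH =>
        hP2 ⟨⟨v, hvH⟩, hP1 hv, rfl⟩
      have hlt : ∀ (A : Subgroup G) (v : G), D ≤ A → v ∈ A → v ∉ D →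
          Nat.card G - Nat.card A < n := by
        intro A v h1 h2 h3
        rw [← hn]
        have h4 : Nat.card D < Nat.card A := by
          apply lt_of_le_of_ne (Subgroup.card_le_of_le h1)
          intro h5
          apply h3
          rw [Subgroup.eq_of_le_of_card_ge h1 h5.ge]
          exact h2
        have h5 : Nat.card A ≤ Nat.card G := Subgroup.card_le_card_group A
        omega
      have hDH : D ≤ H := Subgroup.le_normalizer
      obtain ⟨c1, hc1, hc1'⟩ := ih _ (hlt ((P : Subgroup G) ⊓ P2) x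
        (le_inf hDP (fun v hv => hPP2 v (hDP hv) (hDH hv))) ⟨hxP, hPP2 x hxP hxH⟩ hxD) P P2 rfl
      have hQz : ∀ v ∈ Q, v ∈ H → v ∈ (z : G) • P2 := by
        intro v hv hvH
        have h1 : (⟨v, hvH⟩ : H) ∈ Q1 := hQ1 hv
        rw [← hzP1, mem_smul_sylow] at h1
        rw [mem_smul_sylow]
        exact hP2 ⟨_, h1, rfl⟩
      obtain ⟨c2, hc2, hc2'⟩ := ih _ (hlt ((((z : G) • P2 : Sylow p G) : Subgroup G) ⊓ Q) y
        (le_inf (fun v hv => hQz v (hDQ hv) (hDH hv)) hDQ) ⟨hQz y hyQ hyH, hyQ⟩ hyD)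
        ((z : G) • P2) Q rfl
      refine ⟨c2 * z * c1, ?_, ?_⟩
      · intro v hv
        have e1 : Commute c1 v := hc1 v ⟨hDP hv, hPP2 v (hDP hv) (hDH hv)⟩
        have e2 : Commute (z : G) v := hz v hv
        have e3 : Commute c2 v := hc2 v ⟨hQz v (hDQ hv) (hDH hv), hDQ hv⟩
        exact (e3.mul_left e2).mul_left e1
      · rw [mul_smul, mul_smul, hc1', hc2']

theorem fusion (hF : HypN p G) (P : Sylow p G) (x g : G) (hx : x ∈ P) (hgx : g * x * g⁻¹ ∈ P) :
    ∃ h ∈ P, h * x * h⁻¹ = g * x * g⁻¹ := by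
  obtain ⟨c, hc, hcP⟩ := claimC hF _ P (g⁻¹ • P) rfl
  have hxQ : x ∈ g⁻¹ • P := by
    rw [mem_smul_sylow, inv_inv]
    exact hgx
  have hcx := hc x ⟨hx, hxQ⟩
  have hn : g * c ∈ normalizer (P : Set G) := by
    rw [← Sylow.smul_eq_iff_mem_normalizer, mul_smul, hcP, smul_inv_smul]
  obtain ⟨w, hw, hz⟩ := factor hF (P : Subgroup G) P.2
    (P.subtype Subgroup.le_normalizer) ⟨g * c, hn⟩
  have hwP : (w : G) ∈ P := hw
  refine ⟨w, hwP, ?_⟩
  have h1 : (w : G) * x * (w : G)⁻¹ ∈ (P : Subgroup G) := mul_mem (mul_mem hwP hx) (inv_mem hwP)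
  have h2 := hz _ h1
  have h3 : (g * c) * (w : G)⁻¹ * ((w : G) * x * (w : G)⁻¹) = ((w : G) * x * (w : G)⁻¹) *
      ((g * c) * (w : G)⁻¹) := h2
  calc (w : G) * x * (w : G)⁻¹ = ((w : G) * x * (w : G)⁻¹) * ((g * c) * (w : G)⁻¹) *
        ((g * c) * (w : G)⁻¹)⁻¹ := by group
    _ = (g * c) * (w : G)⁻¹ * ((w : G) * x * (w : G)⁻¹) * ((g * c) * (w : G)⁻¹)⁻¹ := by rw [h3]
    _ = g * (c * x) * c⁻¹ * g⁻¹ := by group
    _ = g * (x * c) * c⁻¹ * g⁻¹ := by rw [hcx]
    _ = g * x * g⁻¹ := by group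

theorem transfer_fusion (hF : HypN p G) (P : Sylow p G) {A : Type} [CommGroup A] (ϕ : P →* A)
    (x : P) : MonoidHom.transfer ϕ (x : G) = ϕ x ^ (P : Subgroup G).index := by
  classical
  let := (P : Subgroup G).fintypeQuotientOfFiniteIndex
  have : Fintype (Quotient (MulAction.orbitRel (zpowers (x : G)) (G ⧸ (P : Subgroup G)))) :=
    Fintype.ofFinite _
  rw [MonoidHom.transfer_eq_prod_quotient_orbitRel_zpowers_quot,
    Subgroup.index_eq_sum_minimalPeriod (P : Subgroup G) (x : G), ← Finset.prod_pow_eq_pow_sum]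
  apply Finset.prod_congr rfl
  intro q _
  set k := Function.minimalPeriod (fun z => (x : G) • z) q.out with hk
  have hmem := QuotientGroup.out_conj_pow_minimalPeriod_mem (P : Subgroup G) (x : G) q.out
  have hxk : (x : G) ^ k ∈ P := pow_mem x.2 k
  obtain ⟨h, hh, hhx⟩ := fusion hF P ((x : G) ^ k) (q.out.out)⁻¹ hxk (by
    rw [inv_inv]
    exact hmem)
  have h1 : (⟨(q.out.out)⁻¹ * (x : G) ^ k * q.out.out, hmem⟩ : P) =
      ⟨h, hh⟩ * x ^ k * (⟨h, hh⟩ : P)⁻¹ := by
    apply Subtype.ext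
    show (q.out.out)⁻¹ * (x : G) ^ k * q.out.out = h * (x : G) ^ k * h⁻¹
    rw [hhx, inv_inv]
  rw [h1, map_mul, map_mul, map_inv, mul_comm, inv_mul_cancel_left, map_pow]

theorem no_simple' (hF : HypN p G) (hpd : p ∣ Nat.card G)
    (hhom : ∀ (A : Type) (_ : CommGroup A) (f : G →* A), ∀ x, f x = 1) : False := by
  obtain ⟨P⟩ : Nonempty (Sylow p G) := inferInstance
  have hcop : Nat.Coprime p (P : Subgroup G).index :=
    (Nat.Prime.coprime_iff_not_dvd hp.out).mpr P.not_dvd_index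
  have hab : ∀ x : P, Abelianization.of x = 1 := by
    intro x
    have h1 := transfer_fusion hF P (Abelianization.of (G := P)) x
    rw [hhom _ _ _ _] at h1
    obtain ⟨n, hn⟩ := P.2 x
    have h2 : orderOf (Abelianization.of x) ∣ p ^ n := by
      apply orderOf_dvd_of_pow_eq_one
      rw [← map_pow, hn, map_one]
    have h3 : orderOf (Abelianization.of x) ∣ (P : Subgroup G).index :=
      orderOf_dvd_of_pow_eq_one h1.symm
    have h4 := Nat.dvd_gcd h2 h3
    rw [Nat.Coprime.pow_left n hcop, Nat.dvd_one, orderOf_eq_one_iff] at h4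
    exact h4
  have hcomm : commutator P = ⊤ := by
    rw [← Abelianization.ker_of, eq_top_iff]
    intro x _
    rw [MonoidHom.mem_ker]
    exact hab x
  have hnil : Group.IsNilpotent P := P.2.isNilpotent
  have hsol : Group.IsSolvable P := inferInstance
  have hnt : Nontrivial P := by
    rw [Subgroup.nontrivial_iff_ne_bot]
    intro h
    have h1 := P.card_eq_multiplicity
    rw [h, Subgroup.card_bot] at h1
    have h2 : 0 < (Nat.card G).factorization p :=
      hp.out.factorization_pos_of_dvd Nat.card_pos.ne' hpd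
    have := Nat.one_lt_pow h2.ne' hp.out.one_lt
    omega
  have h1 : commutator P < ⊤ := Group.IsSolvable.commutator_lt_top_of_nontrivial P
  exact h1.ne hcomm

theorem no_simple (hF : HypF p G) (hpd : p ∣ Nat.card G)
    (hhom : ∀ (A : Type) (_ : CommGroup A) (f : G →* A), ∀ x, f x = 1) : False :=
  no_simple' (hypN_of_hypF hF) hpd hhom

end Pool.Agent.Lib.MP_4f0ec0_al
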