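import Mathlib
import Pool.Agent.Lib.MP_4f0ec0_al.Fusion
import Pool.Agent.Lib.MP_4f0ec0_al.Back3

/-! Necessary conditions, part 1: solvability. -/

namespace Pool.Agent.Lib.MP_4f0ec0_al

open Function

lemma SSn_solvable : ∀ (k : ℕ) {G : Type} [Group G], SSn k G → Group.IsSolvable G
  | 0, G, _, h => by
    have : Subsingleton G := h
    infer_instance
  | k + 1, G, _, h => by
    rcases h with h | ⟨N, hN, hp, h⟩
    · infer_instance
    · have h1 := SSn_solvable k h
      have hfp : Fact (Nat.card N).Prime := ⟨hp⟩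
      have hc : IsCyclic N := isCyclic_of_prime_card (p := Nat.card N) rfl
      have h2 : Group.IsSolvable N := Group.isSolvable_of_comm
        (fun a b => IsCyclic.commGroup.mul_comm a b)
      exact (Group.isSolvable_iff_subgroup_quotient N).mpr ⟨h2, h1⟩

lemma SS.solvable {G : Type} [Group G] (h : SS G) : Group.IsSolvable G := by
  obtain ⟨k, hk⟩ := h
  exact SSn_solvable k hk

lemma semidirect_solvable {A K : Type} [Group A] [Group K] (ρ : K →* MulAut A)
    (hA : Group.IsSolvable A) (hK : Group.IsSolvable K) : Group.IsSolvable (A ⋊[ρ] K) :=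
  Group.isSolvable_of_ker_le_range (SemidirectProduct.inl : A →* A ⋊[ρ] K)
    (SemidirectProduct.rightHom : A ⋊[ρ] K →* K)
    (le_of_eq SemidirectProduct.range_inl_eq_ker_rightHom.symm)

lemma solvable_Aff {E : Type} [Field E] (U : Subgroup Eˣ) : Group.IsSolvable (Aff E U) :=
  semidirect_solvable _ inferInstance inferInstance

/-- The isomorphism given by uniqueness. -/
lemma Uniq.iso {n : ℕ} (hn : n ≠ 0) (hU : Uniq n) {A B : Type} [Group A] [Group B]
    (hA : Nat.card A ∣ n) (hB : Nat.card B ∣ n) (hAs : ¬ SS A) (hBs : ¬ SS B) :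
    Nonempty (A × Cyc (n / Nat.card A) ≃* B × Cyc (n / Nat.card B)) := by
  apply hU.2
  · rw [Nat.card_prod, card_Cyc, Nat.mul_div_cancel' hA]
  · rw [Nat.card_prod, card_Cyc, Nat.mul_div_cancel' hB]
  · intro h
    exact hAs (h.of_injective (MonoidHom.inl A _) (fun a b hab => congrArg Prod.fst hab))
  · intro h
    exact hBs (h.of_injective (MonoidHom.inl B _) (fun a b hab => congrArg Prod.fst hab))

lemma div_ne_zero_of_dvd {n k : ℕ} (hn : n ≠ 0) (hk : k ∣ n) : n / k ≠ 0 := by
  obtain ⟨c, rfl⟩ := hk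
  have hk0 : 0 < k := Nat.pos_of_ne_zero (fun h => hn (by rw [h, zero_mul]))
  rw [Nat.mul_div_cancel_left c hk0]
  exact fun h => hn (by rw [h, mul_zero])

theorem solvable_of_uniq {n : ℕ} (hn : n ≠ 0) (hU : Uniq n) (Y : Type) [Group Y]
    (hY : Nat.card Y ∣ n) : Group.IsSolvable Y := by
  by_contra hns
  have hYfin : Finite Y := Nat.finite_of_card_ne_zero (fun h => hn (by
    rw [h] at hY
    exact Nat.eq_zero_of_zero_dvd hY))
  -- every solvable group of order dividing `n` is supersolvable
  have key : ∀ (A : Type) (_ : Group A), Nat.card A ∣ n → Group.IsSolvable A → SS A := by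
    intro A _ hA hAsol
    by_contra hAs
    obtain ⟨e⟩ := hU.iso hn hA hY hAs (fun h => hns h.solvable)
    apply hns
    have h1 : Group.IsSolvable (Y × Cyc (n / Nat.card Y)) :=
      Group.isSolvable_of_surjective (f := e.toMonoidHom) e.surjective
    exact Group.isSolvable_of_isSolvable_injective (f := MonoidHom.inl Y (Cyc (n / Nat.card Y)))
      (fun a b hab => congrArg Prod.fst hab)
  obtain ⟨S, hSg, hS, hSd⟩ := exists_simple_dvd Y hns
  have hSn : Nat.card S ∣ n := hSd.trans hY
  have hSfin : Finite S := hS.1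
  have hSne : Nat.card S ≠ 1 := by
    intro h
    obtain ⟨-, -, a, b, hab⟩ := hS
    have : Subsingleton S := (Nat.card_eq_one_iff_unique.mp h).1
    exact hab (Subsingleton.elim _ _)
  have hp : (Nat.minFac (Nat.card S)).Prime := Nat.minFac_prime hSne
  set p := Nat.minFac (Nat.card S) with hpdef
  have hfp : Fact p.Prime := ⟨hp⟩
  apply no_simple (G := S) (p := p) _ (Nat.minFac_dvd _)
  · intro A _ f x
    exact hS.hom_trivial (fun a b => mul_comm a b) f x
  · intro q hq hqd hqp l hl hpl hql
    classical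
    have hex : ∃ l, 0 < l ∧ q ∣ p ^ l - 1 := ⟨l, hl, hql⟩
    obtain ⟨ha0, haq⟩ := Nat.find_spec hex
    have hmin : ∀ j < Nat.find hex, ¬ (0 < j ∧ q ∣ p ^ j - 1) := fun j hj => Nat.find_min hex hj
    have hal : Nat.find hex ≤ l := Nat.find_min' hex ⟨hl, hql⟩
    set a := Nat.find hex with ha
    have hpq : p < q := by
      have := Nat.minFac_le_of_dvd hq.two_le hqd
      omega
    have ha2 : 2 ≤ a := by
      by_contra hcon
      have h1 : a = 1 := by omega
      rw [h1, pow_one] at haq
      have := Nat.le_of_dvd (by have := hp.two_le; omega) haq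
      omega
    obtain ⟨E, hE, hEfin, θ, hEc, hθ, hAc, hAs⟩ := exists_aff hp ha2 haq (fun i hi1 hi2 h => by
      exact hmin i hi2 ⟨Nat.pos_of_dvd_of_pos hi1 (by omega), h⟩)
    apply hAs
    apply key _ inferInstance _ (solvable_Aff _)
    rw [hAc]
    refine dvd_trans ?_ hSn
    apply Nat.Coprime.mul_dvd_of_dvd_of_dvd
    · exact Nat.Coprime.pow_left _ ((Nat.coprime_primes hp hq).mpr hpq.ne)
    · exact (Nat.pow_dvd_pow p hal).trans hpl
    · exact hqd

end Pool.Agent.Lib.MP_4f0ec0_al
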