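import Mathlib
import Pool.Agent.Lib.MP_4f0ec0_al.Need1
import Pool.Agent.Lib.MP_4f0ec0_al.Heis2

/-! Necessary conditions, part 2: arithmetic lemmas and minimal nonabelian subgroups. -/

namespace Pool.Agent.Lib.MP_4f0ec0_al

open Function

lemma geom_mod {p q : ℕ} (hp : 1 ≤ p) (h : q ∣ p - 1) (l : ℕ) :
    (∑ i ∈ Finset.range l, p ^ i) ≡ l [MOD q] := by
  obtain ⟨c, hc⟩ := h
  have h7 : p ≡ 1 [MOD q] := ((Nat.modEq_iff_dvd' hp).mpr ⟨c, hc⟩).symm
  induction l with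
  | zero => rfl
  | succ l ih =>
    rw [Finset.sum_range_succ]
    refine ih.add ?_
    have := h7.pow l
    rwa [one_pow] at this

lemma geom_eq {p : ℕ} (hp : 2 ≤ p) (l : ℕ) :
    (p - 1) * ∑ i ∈ Finset.range l, p ^ i = p ^ l - 1 := by
  rw [Nat.geomSum_eq hp]
  exact Nat.mul_div_cancel' (Nat.sub_one_dvd_pow_sub_one p l)

lemma dvd_exp_gen {p q l b : ℕ} (hp : p.Prime) (hq : q.Prime) (h1 : q ∣ p - 1)
    (h2 : ¬ q ^ (b + 1) ∣ p - 1) (h3 : q ^ (b + 1) ∣ p ^ l - 1) : q ∣ l := by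
  by_contra hl
  rw [← geom_eq hp.two_le l] at h3
  apply h2
  refine Nat.Coprime.dvd_of_dvd_mul_right ?_ h3
  apply Nat.Coprime.pow_left
  rw [Nat.Prime.coprime_iff_not_dvd hq]
  intro h4
  exact hl ((Nat.ModEq.dvd_iff (geom_mod hp.one_lt.le h1 l) dvd_rfl).mp h4)

lemma pow_succ_dvd {p q b : ℕ} (hp : p.Prime) (h1 : q ∣ p - 1) (h2 : q ^ b ∣ p - 1) :
    q ^ (b + 1) ∣ p ^ q - 1 := by
  rw [← geom_eq hp.two_le q, pow_succ]
  apply Nat.mul_dvd_mul h2
  exact (Nat.ModEq.dvd_iff (geom_mod hp.one_lt.le h1 q) dvd_rfl).mpr dvd_rfl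

/-- Minimal nonabelian subgroups of finite solvable groups. -/
lemma min_nonab {M : Type} [Group M] [Finite M] (K : Subgroup M) (hsol : Group.IsSolvable K)
    (hna : ¬ ∀ a ∈ K, ∀ b ∈ K, a * b = b * a) :
    ∃ (q : ℕ) (A : Subgroup M) (y : M), q.Prime ∧ A ≤ K ∧ y ∈ K ∧
      (∀ a ∈ A, ∀ b ∈ A, a * b = b * a) ∧ (∀ a, a ∈ A → y * a * y⁻¹ ∈ A) ∧
      (∀ a, a ∈ A → y⁻¹ * a * y ∈ A) ∧ y ^ q ∈ A ∧ (∃ a ∈ A, y * a ≠ a * y) ∧
      q * Nat.card A ∣ Nat.card K := by
  obtain ⟨L, ⟨hL1, hL2⟩, hmin⟩ := Set.Finite.exists_minimalFor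
    (fun W : Subgroup M => Nat.card W)
    {W : Subgroup M | W ≤ K ∧ ¬ ∀ a ∈ W, ∀ b ∈ W, a * b = b * a} (Set.toFinite _)
    ⟨K, le_rfl, hna⟩
  have hLsol : Group.IsSolvable L :=
    Group.isSolvable_of_isSolvable_injective (f := Subgroup.inclusion hL1)
      (Subgroup.inclusion_injective hL1)
  have hLnt : Nontrivial L := by
    by_contra hcon
    rw [not_nontrivial_iff_subsingleton] at hcon
    apply hL2
    intro a ha b hb
    have h1 : (⟨a, ha⟩ : L) = ⟨b, hb⟩ := Subsingleton.elim _ _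
    have h2 : a = b := congrArg Subtype.val h1
    rw [h2]
  obtain ⟨Q, hQn, hQs⟩ := exists_simple_quotient L
  have hQsol : Group.IsSolvable (L ⧸ Q) :=
    Group.isSolvable_of_surjective (f := QuotientGroup.mk' Q) (QuotientGroup.mk'_surjective Q)
  have hQc : ∀ a b : L ⧸ Q, a * b = b * a := IsSimpleGroup.comm_iff_isSolvable.mpr hQsol
  let _ : CommGroup (L ⧸ Q) := { (inferInstance : Group (L ⧸ Q)) with mul_comm := hQc }
  have hq : (Nat.card (L ⧸ Q)).Prime := IsSimpleGroup.prime_card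
  set q := Nat.card (L ⧸ Q) with hqdef
  set A : Subgroup M := Q.map L.subtype with hA
  have hAL : A ≤ L := Subgroup.map_subtype_le Q
  have hcA : Nat.card A = Nat.card Q := Subgroup.card_map_of_injective (Subgroup.subtype_injective _)
  have hcL : Nat.card L = q * Nat.card Q := Subgroup.card_eq_card_quotient_mul_card_subgroup Q
  have hQpos : 0 < Nat.card Q := Nat.card_pos
  have hAab : ∀ a ∈ A, ∀ b ∈ A, a * b = b * a := by
    by_contra hcon
    have h1 : Nat.card L ≤ Nat.card A := hmin ⟨hAL.trans hL1, hcon⟩ (by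
      show Nat.card A ≤ Nat.card L
      exact Subgroup.card_le_of_le hAL)
    rw [hcA, hcL] at h1
    have := hq.two_le
    nlinarith
  obtain ⟨y, hyL, hyA⟩ : ∃ y ∈ L, y ∉ A := by
    by_contra hcon
    push Not at hcon
    have h1 : L ≤ A := hcon
    have h2 := Subgroup.card_le_of_le h1
    rw [hcA, hcL] at h2
    have := hq.two_le
    nlinarith
  have hnorm : ∀ g ∈ L, ∀ a ∈ A, g * a * g⁻¹ ∈ A := by
    rintro g hg _ ⟨a, ha, rfl⟩
    exact ⟨_, hQn.conj_mem a ha ⟨g, hg⟩, rfl⟩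
  refine ⟨q, A, y, hq, hAL.trans hL1, hL1 hyL, hAab, hnorm y hyL, ?_, ?_, ?_, ?_⟩
  · intro a ha
    have := hnorm y⁻¹ (L.inv_mem hyL) a ha
    rwa [inv_inv] at this
  · have h1 : (QuotientGroup.mk' Q ⟨y, hyL⟩) ^ q = 1 := pow_card_eq_one'
    rw [← map_pow, ← MonoidHom.mem_ker, QuotientGroup.ker_mk'] at h1
    exact ⟨_, h1, rfl⟩
  · by_contra hcon
    push Not at hcon
    -- the subgroup generated by `A` and `y` is all of `L` and abelian
    apply hL2
    have hcyc : IsCyclic (L ⧸ Q) := by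
      have hfq : Fact q.Prime := ⟨hq⟩
      exact isCyclic_of_prime_card (p := q) hqdef.symm
    have hfq : Fact q.Prime := ⟨hq⟩
    have hdec : ∀ g ∈ L, ∃ i : ℤ, y ^ i * g ∈ A := by
      intro g hg
      have h1 : QuotientGroup.mk' Q (⟨y, hyL⟩ : L) ≠ 1 := by
        intro h
        rw [← MonoidHom.mem_ker, QuotientGroup.ker_mk'] at h
        exact hyA ⟨_, h, rfl⟩
      have h2 : QuotientGroup.mk' Q (⟨g, hg⟩ : L) ∈ Subgroup.zpowers (QuotientGroup.mk' Q (⟨y, hyL⟩ : L)) :=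
        mem_zpowers_of_prime_card (p := q) hqdef.symm h1
      obtain ⟨i, hi⟩ := Subgroup.mem_zpowers_iff.mp h2
      refine ⟨-i, ?_⟩
      have h3 : QuotientGroup.mk' Q ((⟨y, hyL⟩ : L) ^ (-i) * ⟨g, hg⟩) = 1 := by
        rw [map_mul, map_zpow, ← hi, ← zpow_add, neg_add_cancel, zpow_zero]
      rw [← MonoidHom.mem_ker, QuotientGroup.ker_mk'] at h3
      exact ⟨_, h3, rfl⟩
    intro a ha b hb
    obtain ⟨i, hi⟩ := hdec a ha
    obtain ⟨j, hj⟩ := hdec b hb
    have hya : ∀ c ∈ A, Commute y c := fun c hc => hcon c hc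
    have e1 : a = y ^ (-i) * (y ^ i * a) := by
      rw [← mul_assoc, ← zpow_add, neg_add_cancel, zpow_zero, one_mul]
    have e2 : b = y ^ (-j) * (y ^ j * b) := by
      rw [← mul_assoc, ← zpow_add, neg_add_cancel, zpow_zero, one_mul]
    set a' := y ^ i * a
    set b' := y ^ j * b
    have h1 : Commute a' b' := hAab a' hi b' hj
    have h2 : Commute (y ^ (-i)) b' := (hya b' hj).zpow_left _
    have h3 : Commute (y ^ (-j)) a' := (hya a' hi).zpow_left _
    have h4 : Commute (y ^ (-i)) (y ^ (-j)) := (Commute.refl y).zpow_zpow _ _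
    rw [e1, e2]
    exact ((h4.mul_right h2).mul_left (h3.symm.mul_right h1))
  · rw [hcA, ← hcL]
    exact Subgroup.card_dvd_of_le hL1

/-- Some element of prime power order does not commute. -/
lemma exists_pp {M : Type} [Group M] [Finite M] (A : Subgroup M) (y : M)
    (hne : ∃ a ∈ A, y * a ≠ a * y) :
    ∃ (r i : ℕ) (x : M), r.Prime ∧ x ∈ A ∧ x ^ (r ^ i) = 1 ∧ y * x ≠ x * y := by
  obtain ⟨x, ⟨hx1, hx2⟩, hmin⟩ := Set.Finite.exists_minimalFor
    (fun x : M => orderOf x) {x : M | x ∈ A ∧ y * x ≠ x * y} (Set.toFinite _) hne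
  have h1 : orderOf x ≠ 1 := by
    intro h
    rw [orderOf_eq_one_iff] at h
    rw [h] at hx2
    simp at hx2
  set r := Nat.minFac (orderOf x) with hr
  have hrp : r.Prime := Nat.minFac_prime h1
  obtain ⟨i, c, hc1, hc2⟩ := Nat.exists_eq_pow_mul_and_not_dvd (orderOf_pos x).ne' r hrp.ne_one
  have hi0 : 0 < i := by
    rcases Nat.eq_zero_or_pos i with h | h
    · rw [h, pow_zero, one_mul] at hc2
      exact absurd (hc2 ▸ Nat.minFac_dvd (orderOf x)) hc1
    · exact h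
  refine ⟨r, i, x, hrp, hx1, ?_, hx2⟩
  by_contra hne1
  have hcne : c ≠ 1 := by
    rintro rfl
    rw [mul_one] at hc2
    apply hne1
    rw [← hc2, pow_orderOf_eq_one]
  have hcop : Nat.Coprime (r ^ i) c := Nat.Coprime.pow_left _ ((Nat.Prime.coprime_iff_not_dvd hrp).mpr hc1)
  have hcpos : 0 < c := by
    rcases Nat.eq_zero_or_pos c with h | h
    · rw [h] at hc1
      exact absurd (dvd_zero r) hc1
    · exact h
  have hrpos : 0 < r ^ i := pow_pos hrp.pos i
  have hr1 : 1 < r ^ i := Nat.one_lt_pow hi0.ne' hrp.one_lt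
  have hc1' : 1 < c := by omega
  have key : ∀ u v : ℕ, orderOf x = u * v → 0 < u → 1 < u → y * x ^ u = x ^ u * y := by
    intro u v huv hu0 hu1
    by_contra hcon
    have h2 := hmin (j := x ^ u) ⟨A.pow_mem hx1 u, hcon⟩ (by
      show orderOf (x ^ u) ≤ orderOf x
      exact Nat.le_of_dvd (orderOf_pos x) (orderOf_pow_dvd u))
    have h3 : orderOf (x ^ u) = v := by
      rw [orderOf_pow, huv, Nat.gcd_eq_right (dvd_mul_right u v), Nat.mul_div_cancel_left v hu0]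
    have h4 : orderOf x ≤ orderOf (x ^ u) := h2
    rw [h3, huv] at h4
    have hv0 : 0 < v := by
      rcases Nat.eq_zero_or_pos v with h | h
      · have := orderOf_pos x
        rw [huv, h, mul_zero] at this
        omega
      · exact h
    nlinarith
  have k1 : Commute y (x ^ (r ^ i)) := key _ _ hc2 hrpos hr1
  have k2 : Commute y (x ^ c) := key c (r ^ i) (by rw [hc2, mul_comm]) hcpos hc1'
  apply hx2
  have h5 : x = (x ^ (r ^ i)) ^ (Nat.gcdA (r ^ i) c) * (x ^ c) ^ (Nat.gcdB (r ^ i) c) := by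
    have h6 := Nat.gcd_eq_gcd_ab (r ^ i) c
    rw [hcop] at h6
    have h7 : x ^ (1 : ℤ) = x ^ (((r ^ i : ℕ) : ℤ) * Nat.gcdA (r ^ i) c + (c : ℤ) * Nat.gcdB (r ^ i) c) := by
      rw [← h6]
      rfl
    rw [zpow_one, zpow_add, zpow_mul, zpow_mul, zpow_natCast, zpow_natCast] at h7
    exact h7
  rw [h5]
  exact (k1.zpow_right _).mul_right (k2.zpow_right _)

end Pool.Agent.Lib.MP_4f0ec0_al
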