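import Mathlib
import Pool.Agent.Lib.MP_4f0ec0_al.Need2

/-! Necessary conditions, part 3: the nonabelian case, and the order `p ^ q * q ^ 3`. -/

namespace Pool.Agent.Lib.MP_4f0ec0_al

open Function

lemma pp_cases {M : Type} [Group M] [Finite M] {q r i : ℕ} (hq : q.Prime) (hr : r.Prime)
    (A : Subgroup M) (x y : M) (hAab : ∀ a ∈ A, ∀ b ∈ A, a * b = b * a)
    (hyA : ∀ a, a ∈ A → y * a * y⁻¹ ∈ A) (hyA' : ∀ a, a ∈ A → y⁻¹ * a * y ∈ A)
    (hyq : y ^ q ∈ A) (hx : x ∈ A) (hxr : x ^ (r ^ i) = 1) (hne : y * x ≠ x * y) :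
    (r = q → q ^ 2 ∣ Nat.card A) ∧ (r ≠ q → ∃ l, 0 < l ∧ q ∣ r ^ l - 1 ∧ r ^ l ∣ Nat.card A) := by
  classical
  have hfr : Fact r.Prime := ⟨hr⟩
  have hfq : Fact q.Prime := ⟨hq⟩
  let T : Subgroup M :=
    { carrier := {z | z ∈ A ∧ z ^ (r ^ i) = 1}
      mul_mem' := by
        rintro a b ⟨ha, ha'⟩ ⟨hb, hb'⟩
        refine ⟨A.mul_mem ha hb, ?_⟩
        have h : Commute a b := hAab a ha b hb
        rw [h.mul_pow, ha', hb', one_mul]
      one_mem' := ⟨A.one_mem, one_pow _⟩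
      inv_mem' := by
        rintro a ⟨ha, ha'⟩
        exact ⟨A.inv_mem ha, by rw [inv_pow, ha', inv_one]⟩ }
  have hTA : T ≤ A := fun z hz => hz.1
  have hT1 : ∀ z ∈ T, y * z * y⁻¹ ∈ T := by
    rintro z ⟨hz, hz'⟩
    exact ⟨hyA z hz, by rw [conj_pow, hz', mul_one, mul_inv_cancel]⟩
  have hT2 : ∀ z ∈ T, y⁻¹ * z * y ∈ T := by
    rintro z ⟨hz, hz'⟩
    refine ⟨hyA' z hz, ?_⟩
    have h : y⁻¹ * z * y = y⁻¹ * z * (y⁻¹)⁻¹ := by rw [inv_inv]
    rw [h, conj_pow, hz', mul_one, mul_inv_cancel]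
  let β : MulAut T :=
    { toFun := fun z => ⟨y * z * y⁻¹, hT1 z z.2⟩
      invFun := fun z => ⟨y⁻¹ * z * y, hT2 z z.2⟩
      left_inv := fun z => Subtype.ext (by
        show y⁻¹ * (y * z * y⁻¹) * y = z
        group)
      right_inv := fun z => Subtype.ext (by
        show y * (y⁻¹ * z * y) * y⁻¹ = z
        group)
      map_mul' := fun z w => Subtype.ext (by
        show y * (z * w) * y⁻¹ = (y * z * y⁻¹) * (y * w * y⁻¹)
        group) }
  have hpow : ∀ (n : ℕ) (z : T), (((β ^ n) z : T) : M) = y ^ n * z * (y ^ n)⁻¹ := by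
    intro n z
    induction n with
    | zero => simp
    | succ n ih =>
      rw [pow_succ', MulAut.mul_apply]
      show y * (((β ^ n) z : T) : M) * y⁻¹ = _
      rw [ih, pow_succ']
      group
  have hβq : β ^ q = 1 := by
    ext z
    rw [hpow, MulAut.one_apply, hAab _ hyq _ (hTA z.2), mul_inv_cancel_right]
  have hxT : x ∈ T := ⟨hx, hxr⟩
  have hβ1 : β ≠ 1 := by
    intro h
    have h1 : y * x * y⁻¹ = x := congrArg (fun a : MulAut T => ((a ⟨x, hxT⟩ : T) : M)) h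
    apply hne
    calc y * x = y * x * y⁻¹ * y := by group
      _ = x * y := by rw [h1]
  have hβo : orderOf β = q := orderOf_eq_prime hβq hβ1
  have hTp : IsPGroup r T := fun z => ⟨i, Subtype.ext z.2.2⟩
  obtain ⟨j, hj⟩ := IsPGroup.iff_card.mp hTp
  have hTd : Nat.card T ∣ Nat.card A := Subgroup.card_dvd_of_le hTA
  constructor
  · intro hrq
    subst hrq
    have hj2 : 2 ≤ j := by
      by_contra hcon
      have hj1 : j = 0 ∨ j = 1 := by omega
      rcases hj1 with h | h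
      · rw [h, pow_zero] at hj
        have hs := (Nat.card_eq_one_iff_unique.mp hj).1
        have h1 : (⟨x, hxT⟩ : T) = 1 := Subsingleton.elim _ _
        have h2 : x = 1 := congrArg Subtype.val h1
        rw [h2] at hne
        simp at hne
      · rw [h, pow_one] at hj
        have hc : IsCyclic T := isCyclic_of_prime_card hj
        have h1 : orderOf β ∣ Nat.card (MulAut T) := orderOf_dvd_natCard β
        rw [IsCyclic.card_mulAut, hj, Nat.totient_prime hr, hβo] at h1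
        have := Nat.le_of_dvd (by have := hr.two_le; omega) h1
        have := hr.two_le
        omega
    exact (Nat.pow_dvd_pow r hj2).trans (hj ▸ hTd)
  · intro hrq
    obtain ⟨l, hl1, hl2, hl3⟩ := exists_dvd_of_aut hr hq hrq hj β hβo
    exact ⟨l, hl1, hl3, (Nat.pow_dvd_pow r hl2).trans (hj ▸ hTd)⟩

section counts

variable {p q : ℕ} [hp : Fact p.Prime] [hq : Fact q.Prime]

lemma card_fun_mul (p q : ℕ) [Fact p.Prime] [Fact q.Prime] :
    Nat.card (Multiplicative (ZMod q → ZMod p)) = p ^ q := by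
  rw [Nat.card_congr Multiplicative.toAdd, Nat.card_fun, Nat.card_zmod, Nat.card_zmod]

omit hq in
lemma fun_exp (a : Multiplicative (ZMod q → ZMod p)) : a ^ p = 1 := by
  apply Multiplicative.toAdd.injective
  funext i
  rw [toAdd_pow, Pi.smul_apply, nsmul_eq_mul, CharP.cast_eq_zero, zero_mul]
  rfl

/-- Two groups with different numbers of solutions of `x ^ k = 1`. -/
lemma no_two {n : ℕ} (hn : n ≠ 0) (hU : Uniq n) {A B : Type} [Group A] [Group B]
    (hA : Nat.card A ∣ n) (hAB : Nat.card A = Nat.card B) (hAs : ¬ SS A) (hBs : ¬ SS B) (k : ℕ)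
    (h : Nat.card {x : A // x ^ k = 1} < Nat.card {x : B // x ^ k = 1}) : False := by
  obtain ⟨e⟩ := hU.iso hn hA (hAB ▸ hA) hAs hBs
  have h1 := card_pow_congr e k
  rw [card_pow_prod, card_pow_prod, ← hAB] at h1
  have hne : n / Nat.card A ≠ 0 := div_ne_zero_of_dvd hn hA
  have : NeZero (n / Nat.card A) := ⟨hne⟩
  have hfin : Finite (Cyc (n / Nat.card A)) := inferInstanceAs (Finite (ZMod (n / Nat.card A)))
  have h2 : 0 < Nat.card {x : Cyc (n / Nat.card A) // x ^ k = 1} := by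
    have : Nonempty {x : Cyc (n / Nat.card A) // x ^ k = 1} := ⟨1, one_pow k⟩
    exact Nat.card_pos
  have h3 := Nat.eq_of_mul_eq_mul_right h2 h1
  omega

lemma exists_chi (hqp : q ∣ p - 1) : ∃ χ : Multiplicative (ZMod q) →* (ZMod p)ˣ,
    ∀ x : ZMod q, χ (Multiplicative.ofAdd x) = 1 → x = 0 := by
  have : NeZero q := ⟨hq.out.ne_zero⟩
  obtain ⟨l, hlo⟩ := exists_unit_order (E := ZMod p) (e := q) (by rw [Nat.card_zmod]; exact hqp)
  have hl : l ^ q = 1 := by rw [← hlo, pow_orderOf_eq_one]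
  refine ⟨chr l hl, fun x hx => ?_⟩
  apply pow_val_injective l hlo
  rw [ZMod.val_zero, pow_zero]
  exact hx

lemma exists_chi_sq (hqp : q ^ 2 ∣ p - 1) : ∃ (χ : Multiplicative (ZMod q) →* (ZMod p)ˣ)
    (s : ZMod q → (ZMod p)ˣ), (∀ x : ZMod q, χ (Multiplicative.ofAdd x) = 1 → x = 0) ∧
      ∀ x, s x ^ q = χ (Multiplicative.ofAdd (1 * x)) := by
  have : NeZero q := ⟨hq.out.ne_zero⟩
  obtain ⟨θ, hθ⟩ := exists_unit_order (E := ZMod p) (e := q ^ 2) (by rw [Nat.card_zmod]; exact hqp)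
  have hlo : orderOf (θ ^ q) = q := by
    rw [orderOf_pow, hθ, pow_two, Nat.gcd_eq_right (dvd_mul_right q q),
      Nat.mul_div_cancel _ hq.out.pos]
  have hl : (θ ^ q) ^ q = 1 := by
    conv_lhs => rw [← hlo]
    rw [hlo]
    rw [← pow_mul, ← pow_two, ← hθ, pow_orderOf_eq_one]
  refine ⟨chr (θ ^ q) hl, fun x => θ ^ x.val, fun x hx => ?_, fun x => ?_⟩
  · apply pow_val_injective (θ ^ q) hlo
    rw [ZMod.val_zero, pow_zero]
    exact hx
  · rw [one_mul, ← pow_mul, mul_comm, pow_mul]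
    rfl

lemma card_KHs (χ : Multiplicative (ZMod q) →* (ZMod p)ˣ)
    (hχ : ∀ x : ZMod q, χ (Multiplicative.ofAdd x) = 1 → x = 0) (ε : ZMod q)
    (s : ZMod q → (ZMod p)ˣ) (hs : ∀ x, s x ^ q = χ (Multiplicative.ofAdd (ε * x))) :
    Nat.card (Multiplicative (ZMod q → ZMod p) ⋊[(actH χ).comp (KH χ ε).subtype] (KH χ ε)) =
      p ^ q * q ^ 3 := by
  rw [SemidirectProduct.card, card_fun_mul, card_KH χ hχ ε s hs]

lemma cop_KH (hqp : q ∣ p - 1) : Nat.Coprime p (q ^ 3) := by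
  apply Nat.Coprime.pow_right
  rw [Nat.coprime_primes hp.out hq.out]
  rintro rfl
  have := Nat.le_of_dvd (by have := hp.out.two_le; omega) hqp
  have := hp.out.two_le
  omega

/-- If the minimal order is `d` then the group of order `p ^ q * q ^ 3` is not too small. -/
theorem no_q3 {n : ℕ} (hn : n ≠ 0) (hU : Uniq n) (hqp : q ^ 2 ∣ p - 1)
    (hd : p ^ q * q ^ 3 ∣ n) : False := by
  have hqp1 : q ∣ p - 1 := (dvd_pow_self q two_ne_zero).trans hqp
  obtain ⟨χ, s, hχ, hs⟩ := exists_chi_sq hqp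
  have hs0 : ∀ x : ZMod q, (fun _ : ZMod q => (1 : (ZMod p)ˣ)) x ^ q =
      χ (Multiplicative.ofAdd (0 * x)) := by
    intro x
    rw [zero_mul, ofAdd_zero, map_one, one_pow]
  have hc1 := card_KHs χ hχ 1 s hs
  have hc0 := card_KHs χ hχ 0 _ hs0
  refine no_two hn hU (by rw [hc1]; exact hd) (hc1.trans hc0.symm) (KH_not_SS χ hχ 1 s hs)
    (KH_not_SS χ hχ 0 _ hs0) (p * q) ?_
  rw [card_pow_semidirect _ q fun_exp (by rw [card_KH χ hχ 1 s hs]; exact cop_KH hqp1),
    card_pow_semidirect _ q fun_exp (by rw [card_KH χ hχ 0 _ hs0]; exact cop_KH hqp1)]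
  apply Nat.mul_lt_mul_of_pos_left
  · exact (card_pow_KH1 χ hχ).trans_lt (card_pow_KH0 χ hχ)
  · rw [card_fun_mul]
    exact pow_pos hp.out.pos q

end counts

end Pool.Agent.Lib.MP_4f0ec0_al
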