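import Mathlib
import Pool.Agent.Lib.MP_4f0ec0_al.Need3

/-! Necessary conditions, part 4: the order of a minimal non-supersolvable group. -/

namespace Pool.Agent.Lib.MP_4f0ec0_al

open Function

theorem minimal_types {n d : ℕ} (hn : n ≠ 0) (hU : Uniq n) (hd : d ∣ n)
    (hex : ∃ (Y : Type) (_ : Group Y), Nat.card Y = d ∧ ¬ SS Y)
    (hmin : ∀ (Y : Type) (_ : Group Y), Nat.card Y ∣ n → Nat.card Y < d → SS Y) :
    (∃ p q a, p.Prime ∧ q.Prime ∧ p ≠ q ∧ 2 ≤ a ∧ q ∣ p ^ a - 1 ∧
      (∀ l, 0 < l → l < a → ¬ q ∣ p ^ l - 1) ∧ d = p ^ a * q) ∨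
    (∃ p q, p.Prime ∧ q.Prime ∧ q ∣ p - 1 ∧ ¬ q ^ 2 ∣ p - 1 ∧ ¬ (p = 3 ∧ q = 2) ∧
      d = p ^ q * q ^ 2) ∨
    (∃ p q r, p.Prime ∧ q.Prime ∧ r.Prime ∧ q ∣ r - 1 ∧ r ∣ p - 1 ∧ q ∣ p - 1 ∧
      d = p ^ q * (r * q)) := by
  classical
  obtain ⟨Y, _, hYc, hYs⟩ := hex
  have hdpos : 0 < d := Nat.pos_of_ne_zero (fun h => hn (by
    rw [h] at hd
    exact Nat.eq_zero_of_zero_dvd hd))
  have hYfin : Finite Y := Nat.finite_of_card_ne_zero (by omega)
  have hYsol : Group.IsSolvable Y := solvable_of_uniq hn hU Y (by rw [hYc]; exact hd)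
  have hYnt : Nontrivial Y := by
    by_contra hcon
    rw [not_nontrivial_iff_subsingleton] at hcon
    exact hYs SS.of_subsingleton
  have hno : NoPrime Y := by
    intro R hR hRp
    apply hYs
    apply SS.extend R hRp
    have h1 : Nat.card Y = Nat.card (Y ⧸ R) * Nat.card R :=
      Subgroup.card_eq_card_quotient_mul_card_subgroup R
    have h2 : 0 < Nat.card (Y ⧸ R) := Nat.card_pos
    apply hmin
    · exact (Dvd.intro _ h1.symm).trans (by rw [hYc]; exact hd)
    · rw [← hYc, h1]
      have := hRp.two_le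
      nlinarith
  obtain ⟨N, p, k, hMD⟩ := exists_minData (X := Y) hYsol
  have hNn : N.Normal := hMD.normal
  have hp := hMD.prime
  have hfp : Fact p.Prime := ⟨hp⟩
  have hk : 2 ≤ k := hMD.two_le hno
  set K := (cj N).range with hK
  have hAfin : Finite (MulAut N) := finite_mulAut' N
  have hKpos : 0 < Nat.card K := Nat.card_pos
  have hNpk := hMD.card
  -- the minimal group
  have hdeq : d = p ^ k * Nat.card K := by
    have h1 : Nat.card N * Nat.card K ∣ d := by
      rw [← hYc]
      exact hMD.card_range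
    rw [hNpk] at h1
    have h2 : ¬ SS (N ⋊[K.subtype] K) := by
      apply semidirect_not_SS
      · exact hMD.nontrivial
      · rw [hNpk]
        exact Nat.Prime.not_prime_pow hk
      · intro L hL _
        exact hMD.irr_range L (fun α hα x hx => hL ⟨α, hα⟩ x hx)
    have h3 : Nat.card (N ⋊[K.subtype] K) = p ^ k * Nat.card K := by
      rw [SemidirectProduct.card, hNpk]
    by_contra hne
    apply h2
    apply hmin
    · rw [h3]
      exact h1.trans hd
    · rw [h3]
      exact lt_of_le_of_ne (Nat.le_of_dvd hdpos h1) (Ne.symm hne)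
  have hpk1 : 1 < p ^ k := Nat.one_lt_pow (by omega) hp.one_lt
  -- every non-supersolvable group of order dividing `d` has order `d`
  have hall : ∀ c : ℕ, c ∣ d → (∃ (A : Type) (_ : Group A), Nat.card A = c ∧ ¬ SS A) → d = c := by
    rintro c hc ⟨A, _, hAc, hAs⟩
    by_contra hne
    apply hAs
    apply hmin
    · rw [hAc]
      exact hc.trans hd
    · rw [hAc]
      exact lt_of_le_of_ne (Nat.le_of_dvd hdpos hc) (Ne.symm hne)
  have hKss : ∀ (A : Type) (_ : Group A), Nat.card A ∣ Nat.card K → SS A := by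
    intro A _ hA
    by_contra hAs
    have h1 := hall (Nat.card A) (by rw [hdeq]; exact hA.trans (dvd_mul_left _ _)) ⟨A, _, rfl, hAs⟩
    have h2 := Nat.le_of_dvd hKpos hA
    rw [← h1, hdeq] at h2
    nlinarith
  by_cases hcase1 : ∃ s, s.Prime ∧ s ∣ Nat.card K ∧ s ≠ p ∧ ¬ s ∣ p - 1
  · -- Case 1
    obtain ⟨s, hs, hsK, hsp, hs1⟩ := hcase1
    obtain ⟨l, hl1, hl2, hl3⟩ := hMD.dvd_of_prime hs hsp hsK
    have hex : ∃ l, 0 < l ∧ s ∣ p ^ l - 1 := ⟨l, hl1, hl3⟩
    obtain ⟨ha0, haq⟩ := Nat.find_spec hex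
    have hmin' : ∀ j < Nat.find hex, ¬ (0 < j ∧ s ∣ p ^ j - 1) := fun j hj => Nat.find_min hex hj
    have hal : Nat.find hex ≤ l := Nat.find_min' hex ⟨hl1, hl3⟩
    set a := Nat.find hex with ha
    have ha2 : 2 ≤ a := by
      by_contra hcon
      have h1 : a = 1 := by omega
      rw [h1, pow_one] at haq
      exact hs1 haq
    obtain ⟨E, hE, hEfin, θ, hEc, hθ, hAc, hAs⟩ := exists_aff hp ha2 haq (fun i hi1 hi2 h => by
      exact hmin' i hi2 ⟨Nat.pos_of_dvd_of_pos hi1 (by omega), h⟩)
    left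
    refine ⟨p, s, a, hp, hs, hsp.symm, ha2, haq, fun j hj1 hj2 h => hmin' j hj2 ⟨hj1, h⟩, ?_⟩
    apply hall
    · rw [hdeq]
      exact Nat.mul_dvd_mul (Nat.pow_dvd_pow p (hal.trans hl2)) hsK
    · exact ⟨_, _, hAc, hAs⟩
  · -- Case 2
    push Not at hcase1
    have hpK : ¬ p ∣ Nat.card K := by
      apply hMD.coprime_of_ss (hKss K inferInstance dvd_rfl)
      intro t ht htK
      by_cases htp : t = p
      · exact htp.le
      · have := Nat.le_of_dvd (by have := hp.two_le; omega) (hcase1 t ht htK htp)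
        omega
    have hprimes : ∀ s, s.Prime → s ∣ Nat.card K → s ∣ p - 1 := by
      intro s hs hsK
      apply hcase1 s hs hsK
      rintro rfl
      exact hpK hsK
    by_cases hexp : ∀ α ∈ K, α ^ (p - 1) = 1
    · -- nonabelian case
      have hKsol : Group.IsSolvable K := (hKss K inferInstance dvd_rfl).solvable
      have hna : ¬ ∀ a ∈ K, ∀ b ∈ K, a * b = b * a := by
        intro h
        have h1 := hMD.card_of_abelian h hexp
        rw [hNpk] at h1
        have : p ^ k = p ^ 1 := by rw [h1, pow_one]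
        have := Nat.pow_right_injective hp.two_le this
        omega
      obtain ⟨q, A, y, hq, hAK, hyK, hAab, hyA, hyA', hyq, hne, hcard⟩ := min_nonab K hKsol hna
      have hfq : Fact q.Prime := ⟨hq⟩
      have hqk : q ≤ k := @eig_count N (cg N hMD.comm) _ p k q _
        (fun x => Subtype.ext (hMD.exp x x.2)) hNpk hq A hAab (fun α hα => hexp α (hAK hα)) y hyA
        hyA' hyq hne
      obtain ⟨r, i, x, hr, hxA, hxr, hyx⟩ := exists_pp A y hne
      obtain ⟨h1, h2⟩ := pp_cases hq hr A x y hAab hyA hyA' hyq hxA hxr hyx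
      have hqK : q ∣ Nat.card K := (dvd_mul_right _ _).trans hcard
      have hqp := hprimes q hq hqK
      have hpq : p ^ q ∣ p ^ k := Nat.pow_dvd_pow p hqk
      by_cases hrq : r = q
      · exfalso
        have h3 : q ^ 3 ∣ Nat.card K := by
          have h4 : q ^ 3 = q * q ^ 2 := by ring
          rw [h4]
          exact (Nat.mul_dvd_mul_left q (h1 hrq)).trans hcard
        by_cases hq2 : q ^ 2 ∣ p - 1
        · apply no_q3 hn hU hq2
          refine dvd_trans ?_ hd
          rw [hdeq]
          exact Nat.mul_dvd_mul hpq h3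
        · obtain ⟨E, hE, hEfin, θ, hEc, hθ, hAc, hAs⟩ := exists_aff (e := q ^ 2) hp hq.two_le
            (sq_dvd_pow_sub_one hp hqp) (fun l hl1 hl2 => by
              rcases (Nat.dvd_prime hq).mp hl1 with h1 | h1
              · rw [h1, pow_one]
                exact hq2
              · omega)
          have h4 := hall (p ^ q * q ^ 2) (by
            rw [hdeq]
            exact Nat.mul_dvd_mul hpq ((Nat.pow_dvd_pow q (by norm_num)).trans h3)) ⟨_, _, hAc, hAs⟩
          rw [hdeq] at h4
          have h5 : p ^ q * q ^ 3 ≤ p ^ q * q ^ 2 := by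
            rw [← h4]
            exact Nat.mul_le_mul (Nat.le_of_dvd (by omega) hpq) (Nat.le_of_dvd hKpos h3)
          have h6 := Nat.le_of_mul_le_mul_left h5 (pow_pos hp.pos q)
          have h7 : q ^ 2 < q ^ 3 := Nat.pow_lt_pow_right hq.one_lt (by norm_num)
          omega
      · right; right
        obtain ⟨l, hl1, hl2, hl3⟩ := h2 hrq
        have hfr : Fact r.Prime := ⟨hr⟩
        have hrK : r ∣ Nat.card K :=
          (dvd_pow_self r hl1.ne').trans (hl3.trans ((dvd_mul_left _ _).trans hcard))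
        have hrp := hprimes r hr hrK
        have hqr1 : q ∣ r - 1 := by
          by_contra hcon
          have hex : ∃ l, 0 < l ∧ q ∣ r ^ l - 1 := ⟨l, hl1, hl2⟩
          obtain ⟨ha0, haq⟩ := Nat.find_spec hex
          have hmin' : ∀ j < Nat.find hex, ¬ (0 < j ∧ q ∣ r ^ j - 1) := fun j hj =>
            Nat.find_min hex hj
          have hal : Nat.find hex ≤ l := Nat.find_min' hex ⟨hl1, hl2⟩
          set a := Nat.find hex with ha
          have ha2 : 2 ≤ a := by
            by_contra hcon'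
            have h1 : a = 1 := by omega
            rw [h1, pow_one] at haq
            exact hcon haq
          obtain ⟨E, hE, hEfin, θ, hEc, hθ, hAc, hAs⟩ := exists_aff hr ha2 haq
            (fun i hi1 hi2 h => by
              exact hmin' i hi2 ⟨Nat.pos_of_dvd_of_pos hi1 (by omega), h⟩)
          apply hAs
          apply hKss _ inferInstance
          rw [hAc]
          apply Nat.Coprime.mul_dvd_of_dvd_of_dvd
          · exact Nat.Coprime.pow_left _ ((Nat.coprime_primes hr hq).mpr hrq)
          · exact (Nat.pow_dvd_pow r hal).trans (hl3.trans ((dvd_mul_left _ _).trans hcard))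
          · exact hqK
        refine ⟨p, q, r, hp, hq, hr, hqr1, hrp, hqp, ?_⟩
        have : NeZero r := ⟨hr.ne_zero⟩
        obtain ⟨u, hu⟩ := exists_unit_order (E := ZMod r) (e := q)
          (by rw [Nat.card_zmod]; exact hqr1)
        obtain ⟨l, hlo⟩ := exists_unit_order (E := ZMod p) (e := r)
          (by rw [Nat.card_zmod]; exact hrp)
        have hl : l ^ r = 1 := by rw [← hlo, pow_orderOf_eq_one]
        have hBc : Nat.card (Subgroup.zpowers u) = q := by rw [Nat.card_zpowers, hu]
        apply hall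
        · rw [hdeq]
          apply Nat.mul_dvd_mul hpq
          apply Nat.Coprime.mul_dvd_of_dvd_of_dvd ((Nat.coprime_primes hr hq).mpr hrq) hrK hqK
        · exact ⟨DM (Subgroup.zpowers u) l hl, inferInstance, by rw [card_DM, hBc],
            DM_not_SS _ l hl hlo (by rw [hBc]; exact hq.two_le)⟩
    · -- an element of large order
      push Not at hexp
      obtain ⟨α, hαK, hα⟩ := hexp
      have hod : ¬ orderOf α ∣ p - 1 := fun h => hα (orderOf_dvd_iff_pow_eq_one.mp h)
      have hoK : orderOf α ∣ Nat.card K := by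
        have := orderOf_dvd_natCard (⟨α, hαK⟩ : K)
        rwa [Subgroup.orderOf_mk] at this
      obtain ⟨q, i, hq, hqi, hqi'⟩ : ∃ q i : ℕ, q.Prime ∧ q ^ i ∣ orderOf α ∧ ¬ q ^ i ∣ p - 1 := by
        by_contra hcon
        push Not at hcon
        exact hod ((Nat.dvd_iff_prime_pow_dvd_dvd _ _).mpr hcon)
      have hfq : Fact q.Prime := ⟨hq⟩
      have hex : ∃ i, q ^ i ∣ orderOf α ∧ ¬ q ^ i ∣ p - 1 := ⟨i, hqi, hqi'⟩
      obtain ⟨hi1, hi2⟩ := Nat.find_spec hex
      have hmin' : ∀ j < Nat.find hex, ¬ (q ^ j ∣ orderOf α ∧ ¬ q ^ j ∣ p - 1) := fun j hj =>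
        Nat.find_min hex hj
      set i0 := Nat.find hex with hi0
      have hi0' : i0 ≠ 0 := by
        intro h
        rw [h, pow_zero] at hi2
        exact hi2 (one_dvd _)
      have hqo : q ∣ orderOf α := (dvd_pow_self q hi0').trans hi1
      have hqK : q ∣ Nat.card K := hqo.trans hoK
      have hqp := hprimes q hq hqK
      have hi01 : i0 ≠ 1 := by
        intro h
        rw [h, pow_one] at hi2
        exact hi2 hqp
      obtain ⟨b, hb⟩ : ∃ b, i0 = b + 1 := ⟨i0 - 1, by omega⟩
      have hb1 : 1 ≤ b := by omega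
      have hbp : q ^ b ∣ p - 1 := by
        by_contra hcon
        exact hmin' b (by omega) ⟨(Nat.pow_dvd_pow q (by omega)).trans hi1, hcon⟩
      rw [hb] at hi1 hi2
      obtain ⟨c, hc⟩ := hi1
      have hoα : 0 < orderOf α := orderOf_pos α
      have hc0 : 0 < c := by
        rcases Nat.eq_zero_or_pos c with h | h
        · rw [h, mul_zero] at hc
          omega
        · exact h
      have hoβ : orderOf (α ^ c) = q ^ (b + 1) := by
        rw [orderOf_pow, hc, Nat.gcd_eq_right (dvd_mul_left c _), Nat.mul_div_cancel _ hc0]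
      have hpq : p ≠ q := by
        rintro rfl
        exact hpK hqK
      obtain ⟨l, hl1, hl2, hl3, -⟩ := exists_dvd_of_aut_pow hp hq hpq hNpk (α ^ c) hoβ
      have hql := dvd_exp_gen hp hq hqp hi2 hl3
      have hqk : q ≤ k := (Nat.le_of_dvd hl1 hql).trans hl2
      have hqbK : q ^ (b + 1) ∣ Nat.card K := (Dvd.intro _ hc.symm).trans hoK
      obtain ⟨E, hE, hEfin, θ, hEc, hθ, hAc, hAs⟩ := exists_aff (e := q ^ (b + 1)) hp hq.two_le
        (pow_succ_dvd hp hqp hbp) (fun l hl1 hl2 => by
          rcases (Nat.dvd_prime hq).mp hl1 with h1 | h1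
          · rw [h1, pow_one]
            exact hi2
          · omega)
      have hdv : d = p ^ q * q ^ (b + 1) := hall _ (by
        rw [hdeq]
        exact Nat.mul_dvd_mul (Nat.pow_dvd_pow p hqk) hqbK) ⟨_, _, hAc, hAs⟩
      right; left
      have hb1' : b = 1 := by
        by_contra hcon
        apply no_q3 hn hU (q := q) (p := p) ((Nat.pow_dvd_pow q (by omega)).trans hbp)
        refine dvd_trans ?_ hd
        rw [hdv]
        exact Nat.mul_dvd_mul_left _ (Nat.pow_dvd_pow q (by omega))
      subst hb1'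
      refine ⟨p, q, hp, hq, hqp, hi2, ?_, hdv⟩
      rintro ⟨h3, h2⟩
      subst h3 h2
      obtain ⟨E, hE, hEfin, θ, hEc, hθ, hAc, hAs⟩ := exists_aff (p := 2) (k := 2) (e := 3)
        Nat.prime_two le_rfl (by norm_num) (fun l hl1 hl2 h => by
          have hl : l = 1 := by
            have h0 := Nat.pos_of_dvd_of_pos hl1 (by norm_num)
            omega
          rw [hl] at h
          norm_num at h)
      have h4 := hall _ (by
        rw [hdv]
        norm_num) ⟨_, _, hAc, hAs⟩
      rw [hdv] at h4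
      norm_num at h4

end Pool.Agent.Lib.MP_4f0ec0_al
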