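import Mathlib
import Pool.Agent.Lib.MP_4f0ec0_al.Need4

/-! Necessary conditions, part 5: conditions on the cofactor. -/

namespace Pool.Agent.Lib.MP_4f0ec0_al

open Function

lemma card_centerless {n : ℕ} (hn : n ≠ 0) (hU : Uniq n) {A B : Type} [Group A] [Group B]
    (hA : Nat.card A ∣ n) (hB : Nat.card B ∣ n) (hAs : ¬ SS A) (hBs : ¬ SS B)
    (hAc : Subgroup.center A = ⊥) (hBc : Subgroup.center B = ⊥) : Nat.card A = Nat.card B := by
  obtain ⟨e⟩ := hU.iso hn hA hB hAs hBs
  have h1 := card_center_congr e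
  rw [card_center_prod, card_center_prod, hAc, hBc, Subgroup.card_bot, Subgroup.card_bot,
    one_mul, one_mul, card_center_comm, card_center_comm, card_Cyc, card_Cyc] at h1
  have h2 := Nat.mul_div_cancel' hA
  have h3 := Nat.mul_div_cancel' hB
  rw [h1] at h2
  exact Nat.eq_of_mul_eq_mul_right (Nat.pos_of_ne_zero (div_ne_zero_of_dvd hn hB))
    (h2.trans h3.symm)

lemma coprime_totient {n m : ℕ} (hn : n ≠ 0) (hU : Uniq n) {H : Type} [Group H]
    (hHs : ¬ SS H) (h : n = Nat.card H * m) : Nat.Coprime m (Nat.totient m) := by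
  by_contra hcon
  have hm : m ≠ 0 := by
    rintro rfl
    exact hn (by rw [h, mul_zero])
  have hHfin : Finite H := Nat.finite_of_card_ne_zero (by
    intro h0
    exact hn (by rw [h, h0, zero_mul]))
  obtain ⟨G, _, hG, hGc⟩ := exists_not_cyclic hm hcon
  have hGfin : Finite G := Nat.finite_of_card_ne_zero (by rw [hG]; exact hm)
  have : NeZero m := ⟨hm⟩
  have hCfin : Finite (Cyc m) := inferInstanceAs (Finite (ZMod m))
  obtain ⟨e⟩ := hU.2 (H × G) (H × Cyc m) inferInstance inferInstance
    (by rw [Nat.card_prod, hG, h]) (by rw [Nat.card_prod, card_Cyc, h])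
    (fun h => hHs (h.of_injective (MonoidHom.inl H _) (fun a b hab => congrArg Prod.fst hab)))
    (fun h => hHs (h.of_injective (MonoidHom.inl H _) (fun a b hab => congrArg Prod.fst hab)))
  exact hGc (isCyclic_of_prod_equiv e)

lemma center_semidirect {A K : Type} [CommGroup A] [Group K] (ρ : K →* MulAut A)
    (hK : Subgroup.center K = ⊥) (hfix : ∀ a, (∀ g, ρ g a = a) → a = 1) :
    Subgroup.center (A ⋊[ρ] K) = ⊥ := by
  rw [Subgroup.eq_bot_iff_forall]
  rintro ⟨a, b⟩ hz
  rw [Subgroup.mem_center_iff] at hz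
  have hb : b = 1 := by
    have h0 : b ∈ Subgroup.center K := by
      rw [Subgroup.mem_center_iff]
      intro g
      exact congrArg SemidirectProduct.right (hz (SemidirectProduct.inr g))
    rw [hK] at h0
    exact h0
  subst hb
  have ha : a = 1 := by
    apply hfix
    intro g
    have h1 := congrArg SemidirectProduct.left (hz (SemidirectProduct.inr g))
    simp only [SemidirectProduct.mul_left, SemidirectProduct.left_inr,
      SemidirectProduct.right_inr, map_one, one_mul, mul_one] at h1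
    exact h1
  subst ha
  rfl

lemma hom_trivial_of_uniq {n : ℕ} (hn : n ≠ 0) (hU : Uniq n) {H : Type} [Group H]
    (hHs : ¬ SS H) (hHc : Subgroup.center H = ⊥) {t : ℕ} (ht : t.Prime)
    (hd : Nat.card H * t ∣ n) (f : H →* (ZMod t)ˣ) (x : H) : f x = 1 := by
  by_contra hx
  have hft : Fact t.Prime := ⟨ht⟩
  have hHpos : Nat.card H ≠ 0 := by
    intro h0
    rw [h0, zero_mul] at hd
    exact hn (Nat.eq_zero_of_zero_dvd hd)
  have h1 : Subgroup.center (Multiplicative (ZMod t) ⋊[(zunitAut t).comp f] H) = ⊥ := by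
    apply center_semidirect _ hHc
    intro a ha
    have h1 := ha x
    have h2 : ((f x : (ZMod t)ˣ) : ZMod t) * Multiplicative.toAdd a = Multiplicative.toAdd a := h1
    have h3 : (((f x : (ZMod t)ˣ) : ZMod t) - 1) * Multiplicative.toAdd a = 0 := by
      rw [sub_mul, h2, one_mul, sub_self]
    rcases mul_eq_zero.mp h3 with h4 | h4
    · exact absurd (Units.ext (sub_eq_zero.mp h4)) hx
    · exact h4
  have h2 : ¬ SS (Multiplicative (ZMod t) ⋊[(zunitAut t).comp f] H) := fun h =>
    hHs (h.of_injective SemidirectProduct.inr SemidirectProduct.inr_injective)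
  have h3 : Nat.card (Multiplicative (ZMod t) ⋊[(zunitAut t).comp f] H) = t * Nat.card H := by
    rw [SemidirectProduct.card, Nat.card_congr Multiplicative.toAdd, Nat.card_zmod]
  have h4 := card_centerless hn hU (by rw [h3, mul_comm]; exact hd)
    ((dvd_mul_right _ _).trans hd) h2 hHs h1 hHc
  rw [h3] at h4
  have := ht.two_le
  have : 0 < Nat.card H := Nat.pos_of_ne_zero hHpos
  nlinarith

/-- The fibre product construction. -/
lemma no_fibre {n : ℕ} (hn : n ≠ 0) (hU : Uniq n) {H : Type} [Group H] (hHs : ¬ SS H)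
    {C : Type} [CommGroup C] {q Q : ℕ} (hq : q.Prime) (hQ : Q ≠ 0) (g : C) (hg : orderOf g = Q)
    (hgen : ∀ x, x ∈ Subgroup.zpowers g) (hqH : q ∣ Nat.card H) (π : H →* C)
    (hker : ∀ h, π h = 1 → h ^ q = 1 → h = 1)
    (hd : Nat.card H * q ∣ n) : False := by
  classical
  have hfq : Fact q.Prime := ⟨hq⟩
  have hHpos : Nat.card H ≠ 0 := by
    intro h0
    rw [h0, zero_mul] at hd
    exact hn (Nat.eq_zero_of_zero_dvd hd)
  have hHfin : Finite H := Nat.finite_of_card_ne_zero hHpos
  have hqQ : NeZero (q * Q) := ⟨Nat.mul_ne_zero hq.ne_zero hQ⟩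
  have hgq : g ^ (q * Q) = 1 := by rw [mul_comm, pow_mul, ← hg, pow_orderOf_eq_one, one_pow]
  set ρ : Cyc (q * Q) →* C := chrG g hgq with hρ
  have hρa : ∀ x : Cyc (q * Q), ρ x = g ^ (Multiplicative.toAdd x).val := fun x => rfl
  have hCfin : Finite (Cyc (q * Q)) := inferInstanceAs (Finite (ZMod (q * Q)))
  -- surjectivity
  have hρs : Surjective ρ := by
    intro c
    obtain ⟨k, hk⟩ := Subgroup.mem_zpowers_iff.mp (hgen c)
    refine ⟨(Multiplicative.ofAdd (1 : ZMod (q * Q))) ^ k, ?_⟩
    rw [map_zpow, ← hk]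
    congr 1
    rw [hρa, toAdd_ofAdd]
    have h1 : ((1 : ZMod (q * Q)).val : ZMod (q * Q)) = ((1 : ℕ) : ZMod (q * Q)) := by
      rw [ZMod.natCast_zmod_val, Nat.cast_one]
    rw [pow_val_eq g hgq h1, pow_one]
  have hρker : ∀ x : Cyc (q * Q), x ^ q = 1 → ρ x = 1 := by
    intro x hx
    have h1 : q • (Multiplicative.toAdd x) = 0 := hx
    rw [nsmul_eq_mul, ← ZMod.natCast_zmod_val (Multiplicative.toAdd x), ← Nat.cast_mul,
      ZMod.natCast_eq_zero_iff] at h1
    have h2 := Nat.dvd_of_mul_dvd_mul_left hq.pos h1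
    rw [hρa, ← orderOf_dvd_iff_pow_eq_one, hg]
    exact h2
  have hCfin' : Finite C := Finite.of_surjective ρ hρs
  have hCcard : Nat.card C = Q := by
    rw [← hg, orderOf_eq_card_of_forall_mem_zpowers hgen]
  -- the fibre product
  let F : Subgroup (H × Cyc (q * Q)) :=
    { carrier := {x | π x.1 = ρ x.2}
      mul_mem' := fun {a b} ha hb => by
        show π (a.1 * b.1) = ρ (a.2 * b.2)
        rw [map_mul, map_mul, show π a.1 = ρ a.2 from ha, show π b.1 = ρ b.2 from hb]
      one_mem' := by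
        show π 1 = ρ 1
        rw [map_one, map_one]
      inv_mem' := fun {a} ha => by
        show π a.1⁻¹ = ρ a.2⁻¹
        rw [map_inv, map_inv, show π a.1 = ρ a.2 from ha] }
  let φ : F →* H := (MonoidHom.fst H (Cyc (q * Q))).comp F.subtype
  have hφ : Surjective φ := by
    intro h
    obtain ⟨c, hc⟩ := hρs (π h)
    exact ⟨⟨(h, c), hc.symm⟩, rfl⟩
  have hkerφ : Nat.card φ.ker = q := by
    have h1 : Nat.card φ.ker = Nat.card ρ.ker := by
      refine Nat.card_congr ⟨fun x => ⟨x.1.1.2, ?_⟩, fun c => ⟨⟨(1, c.1), ?_⟩, rfl⟩, ?_, ?_⟩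
      · rw [MonoidHom.mem_ker]
        have h2 : x.1.1.1 = 1 := x.2
        have h3 : π x.1.1.1 = ρ x.1.1.2 := x.1.2
        rw [← h3, h2, map_one]
      · show π 1 = ρ c.1
        rw [map_one]
        exact c.2.symm
      · intro x
        have h2 : x.1.1.1 = 1 := x.2
        apply Subtype.ext
        apply Subtype.ext
        exact Prod.ext h2.symm rfl
      · intro c
        rfl
    have h2 : Nat.card ρ.ker * Q = q * Q := by
      have h3 := Subgroup.card_mul_index ρ.ker
      rw [Subgroup.index_ker, MonoidHom.range_eq_top.mpr hρs, Subgroup.card_top, hCcard] at h3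
      rw [h3]
      exact Nat.card_zmod _
    rw [h1]
    exact Nat.eq_of_mul_eq_mul_right (Nat.pos_of_ne_zero hQ) h2
  have hFc : Nat.card F = Nat.card H * q := by
    have h3 := Subgroup.card_mul_index φ.ker
    rw [Subgroup.index_ker, MonoidHom.range_eq_top.mpr hφ, Subgroup.card_top, hkerφ] at h3
    rw [← h3, mul_comm]
  have hFs : ¬ SS F := fun h => hHs (h.of_surjective φ hφ)
  have hBs : ¬ SS (H × Cyc q) := fun h =>
    hHs (h.of_injective (MonoidHom.inl H _) (fun a b hab => congrArg Prod.fst hab))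
  have hBc : Nat.card (H × Cyc q) = Nat.card H * q := by rw [Nat.card_prod, card_Cyc]
  have : NeZero q := ⟨hq.ne_zero⟩
  have hCqfin : Finite (Cyc q) := inferInstanceAs (Finite (ZMod q))
  refine no_two hn hU (by rw [hFc]; exact hd) (hFc.trans hBc.symm) hFs hBs q ?_
  -- counting
  have hle : Nat.card {x : F // x ^ q = 1} ≤ q := by
    have h1 : Nat.card {x : Cyc (q * Q) // x ^ q = 1} ≤ q := by
      have hft : Fintype (Cyc (q * Q)) := Fintype.ofFinite _
      have := IsCyclic.card_pow_eq_one_le (α := Cyc (q * Q)) hq.pos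
      rw [Nat.card_eq_fintype_card, Fintype.card_subtype]
      convert this
    refine le_trans (Nat.card_le_card_of_injective (fun x : {x : F // x ^ q = 1} =>
      (⟨x.1.1.2, ?_⟩ : {x : Cyc (q * Q) // x ^ q = 1})) ?_) h1
    · have h2 : ((x.1 : F) : H × Cyc (q * Q)) ^ q = 1 := congrArg (fun z : F => (z : H × Cyc (q * Q))) x.2
      exact congrArg Prod.snd h2
    · have key : ∀ x : {x : F // x ^ q = 1}, x.1.1.1 = 1 := by
        intro x
        have h2 : ((x.1 : F) : H × Cyc (q * Q)) ^ q = 1 :=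
          congrArg (fun z : F => (z : H × Cyc (q * Q))) x.2
        have h3 : x.1.1.1 ^ q = 1 := congrArg Prod.fst h2
        have h4 : x.1.1.2 ^ q = 1 := congrArg Prod.snd h2
        have h5 : π x.1.1.1 = ρ x.1.1.2 := x.1.2
        rw [hρker _ h4] at h5
        exact hker _ h5 h3
      intro x y hxy
      have h2 : x.1.1.2 = y.1.1.2 := congrArg Subtype.val hxy
      apply Subtype.ext
      apply Subtype.ext
      exact Prod.ext ((key x).trans (key y).symm) h2
  refine hle.trans_lt ?_
  obtain ⟨h0, hh0⟩ := exists_prime_orderOf_dvd_card' (G := H) q hqH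
  have hh1 : h0 ≠ 1 := by
    rintro rfl
    rw [orderOf_one] at hh0
    exact hq.one_lt.ne hh0
  have hh2 : h0 ^ q = 1 := by rw [← hh0, pow_orderOf_eq_one]
  have hcq : ∀ c : Cyc q, c ^ q = 1 := by
    intro c
    have h1 : c ^ Nat.card (Cyc q) = 1 := pow_card_eq_one'
    rwa [card_Cyc] at h1
  let f : Option (Cyc q) → {x : H × Cyc q // x ^ q = 1} := fun o =>
    match o with
    | none => ⟨(h0, 1), Prod.ext hh2 (one_pow q)⟩
    | some c => ⟨(1, c), Prod.ext (one_pow q) (hcq c)⟩
  have hf : Injective f := by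
    intro a b hab
    rcases a with _ | c <;> rcases b with _ | c'
    · rfl
    · exfalso
      exact hh1 (congrArg (fun x : {x : H × Cyc q // x ^ q = 1} => x.1.1) hab)
    · exfalso
      exact hh1 (congrArg (fun x : {x : H × Cyc q // x ^ q = 1} => x.1.1) hab).symm
    · have h2 : c = c' := congrArg (fun x : {x : H × Cyc q // x ^ q = 1} => x.1.2) hab
      rw [h2]
  have h1 := Nat.card_le_card_of_injective f hf
  rw [Finite.card_option, card_Cyc] at h1
  omega

end Pool.Agent.Lib.MP_4f0ec0_al
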