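import Mathlib
import Pool.Agent.Lib.MP_4f0ec0_al.Need5

/-! Necessary conditions, part 6: the conditions on the cofactor for the three types. -/

namespace Pool.Agent.Lib.MP_4f0ec0_al

open Function

lemma ker_of_coprime {H C : Type} [Group H] [Finite H] [Group C] {q M : ℕ} (π : H →* C)
    (hπ : Surjective π) (hC : Nat.card C ≠ 0) (hM : Nat.Coprime q M)
    (hH : Nat.card H = M * Nat.card C) (h : H) (h1 : π h = 1) (h2 : h ^ q = 1) : h = 1 := by
  have h3 := Subgroup.card_mul_index π.ker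
  rw [Subgroup.index_ker, MonoidHom.range_eq_top.mpr hπ, Subgroup.card_top, hH] at h3
  have h4 := Nat.eq_of_mul_eq_mul_right (Nat.pos_of_ne_zero hC) h3
  have h5 : orderOf h ∣ M := by
    have h6 := orderOf_dvd_natCard (⟨h, MonoidHom.mem_ker.mpr h1⟩ : π.ker)
    rwa [Subgroup.orderOf_mk, h4] at h6
  have h6 : orderOf h ∣ q := orderOf_dvd_of_pow_eq_one h2
  have h7 := Nat.dvd_gcd h6 h5
  rw [hM, Nat.dvd_one, orderOf_eq_one_iff] at h7
  exact h7

lemma no_fibre' {n : ℕ} (hn : n ≠ 0) (hU : Uniq n) {H : Type} [Group H] (hHs : ¬ SS H)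
    {C : Type} [CommGroup C] {q Q M : ℕ} (hq : q.Prime) (hQ : Q ≠ 0) (g : C)
    (hg : orderOf g = Q) (hgen : ∀ x, x ∈ Subgroup.zpowers g) (hqQ : q ∣ Q)
    (hH : Nat.card H = M * Q) (hM : Nat.Coprime q M) (π : H →* C) (hπ : Surjective π)
    (hd : Nat.card H * q ∣ n) : False := by
  have hHfin : Finite H := Nat.finite_of_card_ne_zero (by
    intro h0
    rw [h0, zero_mul] at hd
    exact hn (Nat.eq_zero_of_zero_dvd hd))
  have hC : Nat.card C = Q := by
    have := Finite.of_surjective π hπ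
    rw [← hg, orderOf_eq_card_of_forall_mem_zpowers hgen]
  exact no_fibre hn hU hHs hq hQ g hg hgen (by rw [hH]; exact hqQ.mul_left M) π
    (fun h => ker_of_coprime π hπ (by rw [hC]; exact hQ) hM (by rw [hC]; exact hH) h) hd

lemma no_alpha {n : ℕ} (hn : n ≠ 0) (hU : Uniq n) {H : Type} [Group H] (hHs : ¬ SS H)
    (hHc : Subgroup.center H = ⊥) {C : Type} [CommGroup C] {q Q t : ℕ} (hq : q.Prime)
    (ht : t.Prime) (hqt : q ∣ t - 1) (g : C) (hg : orderOf g = Q)
    (hgen : ∀ x, x ∈ Subgroup.zpowers g) (hqQ : q ∣ Q) (π : H →* C) (hπ : Surjective π)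
    (hd : Nat.card H * t ∣ n) : False := by
  have hft : Fact t.Prime := ⟨ht⟩
  obtain ⟨u, hu⟩ := exists_unit_order (E := ZMod t) (e := q) (by rw [Nat.card_zmod]; exact hqt)
  let f : C →* (ZMod t)ˣ := monoidHomOfForallMemZpowers hgen (g' := u) (by rw [hu, hg]; exact hqQ)
  have hf : f g = u := monoidHomOfForallMemZpowers_apply_gen hgen (by rw [hu, hg]; exact hqQ)
  obtain ⟨x, hx⟩ := hπ g
  have h1 := hom_trivial_of_uniq hn hU hHs hHc ht hd (f.comp π) x
  rw [MonoidHom.comp_apply, hx, hf] at h1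
  rw [h1, orderOf_one] at hu
  exact hq.one_lt.ne hu

lemma delta_two {n : ℕ} (hn : n ≠ 0) (hU : Uniq n) {H : Type} [Group H] (hHs : ¬ SS H)
    (hHc : Subgroup.center H = ⊥) (hHn : Nat.card H ∣ n) {p t c : ℕ} (hp : p.Prime)
    (ht : t.Prime) (htp : t ≠ p) (hc : 2 ≤ c) (h1 : t ∣ p ^ c - 1)
    (h2 : ∀ l, 0 < l → l < c → ¬ t ∣ p ^ l - 1) (hpn : p ^ c ∣ n) (htn : t ∣ n) :
    p ^ c * t = Nat.card H := by
  obtain ⟨E, hE, hEfin, θ, hEc, hθ, hAc, hAs⟩ := exists_aff hp hc h1 (fun l hl1 hl2 =>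
    h2 l (Nat.pos_of_dvd_of_pos hl1 (by omega)) hl2)
  rw [← hAc]
  apply card_centerless hn hU _ hHn hAs hHs _ hHc
  · rw [hAc]
    exact Nat.Coprime.mul_dvd_of_dvd_of_dvd
      (Nat.Coprime.pow_left _ ((Nat.coprime_primes hp ht).mpr htp.symm)) hpn htn
  · apply center_Aff
    rintro rfl
    rw [orderOf_one] at hθ
    exact ht.one_lt.ne hθ

/-- The least exponent. -/
lemma exists_least {p t l : ℕ} (hl : 0 < l) (h : t ∣ p ^ l - 1) :
    ∃ c, 0 < c ∧ c ≤ l ∧ t ∣ p ^ c - 1 ∧ ∀ j, 0 < j → j < c → ¬ t ∣ p ^ j - 1 := by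
  classical
  have hex : ∃ l, 0 < l ∧ t ∣ p ^ l - 1 := ⟨l, hl, h⟩
  obtain ⟨ha0, haq⟩ := Nat.find_spec hex
  exact ⟨Nat.find hex, ha0, Nat.find_min' hex ⟨hl, h⟩, haq, fun j hj1 hj2 h =>
    Nat.find_min hex hj2 ⟨hj1, h⟩⟩

lemma gen_zpowers {G : Type} [Group G] (g : G) :
    ∀ x, x ∈ Subgroup.zpowers (⟨g, Subgroup.mem_zpowers g⟩ : Subgroup.zpowers g) := by
  rintro ⟨x, hx⟩
  obtain ⟨k, hk⟩ := Subgroup.mem_zpowers_iff.mp hx
  exact Subgroup.mem_zpowers_iff.mpr ⟨k, Subtype.ext hk⟩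

theorem needA {n p q a m : ℕ} (hn : n ≠ 0) (hU : Uniq n) (hp : p.Prime) (hq : q.Prime)
    (hpq : p ≠ q) (ha : 2 ≤ a) (h1 : q ∣ p ^ a - 1) (h2 : ∀ l, 0 < l → l < a → ¬ q ∣ p ^ l - 1)
    (hnm : n = p ^ a * q * m) :
    Nat.Coprime m (Nat.totient m) ∧ ¬ q ∣ m ∧ (∀ t, t.Prime → t ∣ m → t ≠ p → ¬ q ∣ t - 1) ∧
      (∀ t, t.Prime → t ∣ m → t ≠ p → ∀ l, 0 < l → p ^ l ∣ n → ¬ t ∣ p ^ l - 1) := by
  obtain ⟨E, hE, hEfin, θ, hEc, hθ, hAc, hAs⟩ := exists_aff hp ha h1 (fun l hl1 hl2 =>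
    h2 l (Nat.pos_of_dvd_of_pos hl1 (by omega)) hl2)
  have hcen : Subgroup.center (Aff E (Subgroup.zpowers θ)) = ⊥ := by
    apply center_Aff
    rintro rfl
    rw [orderOf_one] at hθ
    exact hq.one_lt.ne hθ
  have hπ : Surjective (SemidirectProduct.rightHom : Aff E (Subgroup.zpowers θ) →*
      Subgroup.zpowers θ) := SemidirectProduct.rightHom_surjective
  have hqm : ¬ q ∣ m := by
    intro hqm
    refine no_fibre' hn hU hAs (q := q) (Q := q) (M := p ^ a) hq hq.ne_zero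
      (⟨θ, Subgroup.mem_zpowers θ⟩ : Subgroup.zpowers θ) (by rw [Subgroup.orderOf_mk, hθ])
      (gen_zpowers θ) dvd_rfl hAc
      (Nat.Coprime.pow_right _ ((Nat.coprime_primes hq hp).mpr hpq.symm)) _ hπ ?_
    rw [hAc, hnm]
    exact Nat.mul_dvd_mul_left _ hqm
  refine ⟨coprime_totient hn hU hAs (by rw [hAc]; exact hnm), hqm, ?_, ?_⟩
  · intro t ht htm _ hqt
    refine no_alpha hn hU hAs hcen hq ht hqt
      (⟨θ, Subgroup.mem_zpowers θ⟩ : Subgroup.zpowers θ) (by rw [Subgroup.orderOf_mk, hθ])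
      (gen_zpowers θ) dvd_rfl _ hπ ?_
    rw [hAc, hnm]
    exact Nat.mul_dvd_mul_left _ htm
  · intro t ht htm htp l hl hpl htl
    obtain ⟨c, hc0, hcl, hc1, hc2⟩ := exists_least hl htl
    have htq : t ≠ q := by
      rintro rfl
      exact hqm htm
    have htn : t ∣ n := by rw [hnm]; exact htm.mul_left _
    rcases Nat.lt_or_ge c 2 with hc | hc
    · have hc' : c = 1 := by omega
      rw [hc', pow_one] at hc1
      have htq' : Nat.Coprime q t := (Nat.coprime_primes hq ht).mpr htq.symm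
      obtain ⟨E', hE', hEfin', θ', hEc', hθ', hAc', hAs'⟩ := exists_aff (e := q * t) hp ha
        (Nat.Coprime.mul_dvd_of_dvd_of_dvd htq' h1
          (hc1.trans (Nat.sub_one_dvd_pow_sub_one p a))) (fun l hl1 hl2 h =>
          h2 l (Nat.pos_of_dvd_of_pos hl1 (by omega)) hl2 ((dvd_mul_right q t).trans h))
      have h3 := card_centerless hn hU (by
        rw [hAc', hnm, ← mul_assoc]
        exact Nat.mul_dvd_mul_left _ htm) (by
        rw [hAc, hnm]
        exact dvd_mul_right _ _) hAs' hAs (by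
        apply center_Aff
        rintro rfl
        rw [orderOf_one] at hθ'
        have := hq.two_le
        have := ht.two_le
        nlinarith) hcen
      rw [hAc', hAc] at h3
      have h4 := Nat.eq_of_mul_eq_mul_left (pow_pos hp.pos a) h3
      have := ht.two_le
      have := hq.pos
      nlinarith
    · have h3 := delta_two hn hU hAs hcen (by rw [hAc, hnm]; exact dvd_mul_right _ _) hp ht htp hc
        hc1 hc2 ((Nat.pow_dvd_pow p hcl).trans hpl) htn
      rw [hAc] at h3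
      have h4 : t ∣ p ^ a * q := by rw [← h3]; exact dvd_mul_left _ _
      rcases (Nat.Prime.dvd_mul ht).mp h4 with h5 | h5
      · exact htp ((Nat.prime_dvd_prime_iff_eq ht hp).mp (ht.dvd_of_dvd_pow h5))
      · exact htq ((Nat.prime_dvd_prime_iff_eq ht hq).mp h5)

lemma ne_of_dvd_sub {p q : ℕ} (hp : p.Prime) (h : q ∣ p - 1) : p ≠ q := by
  rintro rfl
  have := Nat.le_of_dvd (by have := hp.two_le; omega) h
  have := hp.two_le
  omega

theorem needB {n p q m : ℕ} (hn : n ≠ 0) (hU : Uniq n) (hp : p.Prime) (hq : q.Prime)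
    (hqp : q ∣ p - 1) (hqp2 : ¬ q ^ 2 ∣ p - 1) (hnm : n = p ^ q * q ^ 2 * m) :
    Nat.Coprime m (Nat.totient m) ∧ ¬ p ∣ m ∧ ¬ q ∣ m ∧
      (∀ t, t.Prime → t ∣ m → ¬ q ∣ t - 1) ∧
      (∀ t, t.Prime → t ∣ m → ∀ l, 0 < l → l ≤ q → ¬ t ∣ p ^ l - 1) := by
  have hpq := ne_of_dvd_sub hp hqp
  have hirr : ∀ l, l ∣ q → l < q → ¬ q ^ 2 ∣ p ^ l - 1 := by
    intro l hl1 hl2
    rcases (Nat.dvd_prime hq).mp hl1 with h1 | h1
    · rw [h1, pow_one]
      exact hqp2
    · omega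
  have h1 := sq_dvd_pow_sub_one hp hqp
  obtain ⟨E, hE, hEfin, θ, hEc, hθ, hAc, hAs⟩ := exists_aff hp hq.two_le h1 hirr
  have hq2 : 1 < q ^ 2 := Nat.one_lt_pow two_ne_zero hq.one_lt
  have hcen : Subgroup.center (Aff E (Subgroup.zpowers θ)) = ⊥ := by
    apply center_Aff
    rintro rfl
    rw [orderOf_one] at hθ
    omega
  have hπ : Surjective (SemidirectProduct.rightHom : Aff E (Subgroup.zpowers θ) →*
      Subgroup.zpowers θ) := SemidirectProduct.rightHom_surjective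
  have hqm : ¬ q ∣ m := by
    intro hqm
    refine no_fibre' hn hU hAs (q := q) (Q := q ^ 2) (M := p ^ q) hq (by omega)
      (⟨θ, Subgroup.mem_zpowers θ⟩ : Subgroup.zpowers θ) (by rw [Subgroup.orderOf_mk, hθ])
      (gen_zpowers θ) (dvd_pow_self q two_ne_zero) hAc
      (Nat.Coprime.pow_right _ ((Nat.coprime_primes hq hp).mpr hpq.symm)) _ hπ ?_
    rw [hAc, hnm]
    exact Nat.mul_dvd_mul_left _ hqm
  have hα : ∀ t, t.Prime → t ∣ m → ¬ q ∣ t - 1 := by
    intro t ht htm hqt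
    refine no_alpha hn hU hAs hcen hq ht hqt
      (⟨θ, Subgroup.mem_zpowers θ⟩ : Subgroup.zpowers θ) (by rw [Subgroup.orderOf_mk, hθ])
      (gen_zpowers θ) (dvd_pow_self q two_ne_zero) _ hπ ?_
    rw [hAc, hnm]
    exact Nat.mul_dvd_mul_left _ htm
  have hpm : ¬ p ∣ m := fun h => hα p hp h hqp
  refine ⟨coprime_totient hn hU hAs (by rw [hAc]; exact hnm), hpm, hqm, hα, ?_⟩
  intro t ht htm l hl hlq htl
  have htp : t ≠ p := by
    rintro rfl
    exact hpm htm
  obtain ⟨c, hc0, hcl, hc1, hc2⟩ := exists_least hl htl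
  have htq : t ≠ q := by
    rintro rfl
    exact hqm htm
  have htn : t ∣ n := by rw [hnm]; exact htm.mul_left _
  rcases Nat.lt_or_ge c 2 with hc | hc
  · have hc' : c = 1 := by omega
    rw [hc', pow_one] at hc1
    have htq' : Nat.Coprime (q ^ 2) t :=
      Nat.Coprime.pow_left _ ((Nat.coprime_primes hq ht).mpr htq.symm)
    obtain ⟨E', hE', hEfin', θ', hEc', hθ', hAc', hAs'⟩ := exists_aff (e := q ^ 2 * t) hp hq.two_le
      (Nat.Coprime.mul_dvd_of_dvd_of_dvd htq' h1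
        (hc1.trans (Nat.sub_one_dvd_pow_sub_one p q))) (fun l hl1 hl2 h =>
        hirr l hl1 hl2 ((dvd_mul_right _ t).trans h))
    have h3 := card_centerless hn hU (by
      rw [hAc', hnm, ← mul_assoc]
      exact Nat.mul_dvd_mul_left _ htm) (by
      rw [hAc, hnm]
      exact dvd_mul_right _ _) hAs' hAs (by
      apply center_Aff
      rintro rfl
      rw [orderOf_one] at hθ'
      have := ht.two_le
      nlinarith) hcen
    rw [hAc', hAc] at h3
    have h4 := Nat.eq_of_mul_eq_mul_left (pow_pos hp.pos q) h3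
    have := ht.two_le
    nlinarith
  · have h3 := delta_two hn hU hAs hcen (by rw [hAc, hnm]; exact dvd_mul_right _ _) hp ht htp hc
      hc1 hc2 (by
        rw [hnm, mul_assoc]
        exact (Nat.pow_dvd_pow p (hcl.trans hlq)).trans (dvd_mul_right _ _)) htn
    rw [hAc] at h3
    have h4 : t ∣ p ^ q * q ^ 2 := by rw [← h3]; exact dvd_mul_left _ _
    rcases (Nat.Prime.dvd_mul ht).mp h4 with h5 | h5
    · exact htp ((Nat.prime_dvd_prime_iff_eq ht hp).mp (ht.dvd_of_dvd_pow h5))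
    · exact htq ((Nat.prime_dvd_prime_iff_eq ht hq).mp (ht.dvd_of_dvd_pow h5))

theorem needD {n p q r m : ℕ} (hn : n ≠ 0) (hU : Uniq n) (hp : p.Prime) (hq : q.Prime)
    (hr : r.Prime) (hqr : q ∣ r - 1) (hrp : r ∣ p - 1) (hqp : q ∣ p - 1)
    (hnm : n = p ^ q * (r * q) * m) :
    Nat.Coprime m (Nat.totient m) ∧ ¬ p ∣ m ∧ ¬ q ∣ m ∧ ¬ r ∣ m ∧
      (∀ t, t.Prime → t ∣ m → ¬ q ∣ t - 1) ∧
      (∀ t, t.Prime → t ∣ m → ∀ l, 0 < l → l ≤ q → ¬ t ∣ p ^ l - 1) := by
  have hpq := ne_of_dvd_sub hp hqp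
  have hrq := ne_of_dvd_sub hr hqr
  have hfp : Fact p.Prime := ⟨hp⟩
  have hfr : Fact r.Prime := ⟨hr⟩
  have hfq : Fact q.Prime := ⟨hq⟩
  have : NeZero r := ⟨hr.ne_zero⟩
  obtain ⟨u, hu⟩ := exists_unit_order (E := ZMod r) (e := q) (by rw [Nat.card_zmod]; exact hqr)
  obtain ⟨l, hlo⟩ := exists_unit_order (E := ZMod p) (e := r) (by rw [Nat.card_zmod]; exact hrp)
  have hl : l ^ r = 1 := by rw [← hlo, pow_orderOf_eq_one]
  set B : Subgroup (ZMod r)ˣ := Subgroup.zpowers u with hB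
  have hBc : Nat.card B = q := by rw [hB, Nat.card_zpowers, hu]
  have hfin := finite_DM (p := p) B l hl
  have hAc : Nat.card (DM B l hl) = p ^ q * (r * q) := by rw [card_DM, hBc]
  have hAs : ¬ SS (DM B l hl) := DM_not_SS B l hl hlo (by rw [hBc]; exact hq.two_le)
  have hcen : Subgroup.center (DM B l hl) = ⊥ := center_DM B l hl hlo hr.one_lt
  let π : DM B l hl →* B := (SemidirectProduct.rightHom : KD r B →* B).comp
    (SemidirectProduct.rightHom : DM B l hl →* KD r B)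
  have hπ : Surjective π :=
    SemidirectProduct.rightHom_surjective.comp SemidirectProduct.rightHom_surjective
  have hqm : ¬ q ∣ m := by
    intro hqm
    refine no_fibre' hn hU hAs (q := q) (Q := q) (M := p ^ q * r) hq hq.ne_zero
      (⟨u, Subgroup.mem_zpowers u⟩ : B) (by rw [Subgroup.orderOf_mk, hu])
      (gen_zpowers u) dvd_rfl (by rw [hAc, mul_assoc])
      (Nat.Coprime.mul_right (Nat.Coprime.pow_right _ ((Nat.coprime_primes hq hp).mpr hpq.symm))
        ((Nat.coprime_primes hq hr).mpr hrq.symm)) π hπ ?_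
    rw [hAc, hnm]
    exact Nat.mul_dvd_mul_left _ hqm
  have hα : ∀ t, t.Prime → t ∣ m → ¬ q ∣ t - 1 := by
    intro t ht htm hqt
    refine no_alpha hn hU hAs hcen hq ht hqt
      (⟨u, Subgroup.mem_zpowers u⟩ : B) (by rw [Subgroup.orderOf_mk, hu])
      (gen_zpowers u) dvd_rfl π hπ ?_
    rw [hAc, hnm]
    exact Nat.mul_dvd_mul_left _ htm
  have hpm : ¬ p ∣ m := fun h => hα p hp h hqp
  have hrm : ¬ r ∣ m := fun h => hα r hr h hqr
  refine ⟨coprime_totient hn hU hAs (by rw [hAc]; exact hnm), hpm, hqm, hrm, hα, ?_⟩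
  intro t ht htm l' hl' hlq htl
  have htp : t ≠ p := by
    rintro rfl
    exact hpm htm
  obtain ⟨c, hc0, hcl, hc1, hc2⟩ := exists_least hl' htl
  have htq : t ≠ q := by
    rintro rfl
    exact hqm htm
  have htr : t ≠ r := by
    rintro rfl
    exact hrm htm
  have htn : t ∣ n := by rw [hnm]; exact htm.mul_left _
  rcases Nat.lt_or_ge c 2 with hc | hc
  · have hc' : c = 1 := by omega
    rw [hc', pow_one] at hc1
    have hrt : Nat.Coprime r t := (Nat.coprime_primes hr ht).mpr htr.symm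
    have hrt0 : NeZero (r * t) := ⟨Nat.mul_ne_zero hr.ne_zero ht.ne_zero⟩
    obtain ⟨l2, hlo2⟩ := exists_unit_order (E := ZMod p) (e := r * t) (by
      rw [Nat.card_zmod]
      exact Nat.Coprime.mul_dvd_of_dvd_of_dvd hrt hrp hc1)
    have hl2 : l2 ^ (r * t) = 1 := by rw [← hlo2, pow_orderOf_eq_one]
    have hqu : q ∣ Nat.card (ZMod (r * t))ˣ := by
      rw [Nat.card_eq_fintype_card, ZMod.card_units_eq_totient, Nat.totient_mul hrt,
        Nat.totient_prime hr]
      exact hqr.mul_right _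
    obtain ⟨v, hv⟩ := exists_prime_orderOf_dvd_card' (G := (ZMod (r * t))ˣ) q hqu
    have hBc2 : Nat.card (Subgroup.zpowers v) = q := by rw [Nat.card_zpowers, hv]
    have hfin2 := finite_DM (p := p) (Subgroup.zpowers v) l2 hl2
    have hAc2 : Nat.card (DM (Subgroup.zpowers v) l2 hl2) = p ^ q * (r * t * q) := by
      rw [card_DM, hBc2]
    have h3 := card_centerless hn hU (A := DM (Subgroup.zpowers v) l2 hl2) (B := DM B l hl) (by
      rw [hAc2, hnm]
      have : p ^ q * (r * t * q) = p ^ q * (r * q) * t := by ring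
      rw [this]
      exact Nat.mul_dvd_mul_left _ htm) (by
      rw [hAc, hnm]
      exact dvd_mul_right _ _)
      (DM_not_SS _ l2 hl2 hlo2 (by rw [hBc2]; exact hq.two_le)) hAs
      (center_DM _ l2 hl2 hlo2 (by
        have := hr.two_le
        have := ht.two_le
        nlinarith)) hcen
    rw [hAc2, hAc] at h3
    have h4 := Nat.eq_of_mul_eq_mul_left (pow_pos hp.pos q) h3
    have h5 := Nat.eq_of_mul_eq_mul_right hq.pos h4
    have := ht.two_le
    have := hr.pos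
    nlinarith
  · have h3 := delta_two hn hU hAs hcen (by rw [hAc, hnm]; exact dvd_mul_right _ _) hp ht htp hc
      hc1 hc2 (by
        rw [hnm, mul_assoc]
        exact (Nat.pow_dvd_pow p (hcl.trans hlq)).trans (dvd_mul_right _ _)) htn
    rw [hAc] at h3
    have h4 : t ∣ p ^ q * (r * q) := by rw [← h3]; exact dvd_mul_left _ _
    rcases (Nat.Prime.dvd_mul ht).mp h4 with h5 | h5
    · exact htp ((Nat.prime_dvd_prime_iff_eq ht hp).mp (ht.dvd_of_dvd_pow h5))
    · rcases (Nat.Prime.dvd_mul ht).mp h5 with h6 | h6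
      · exact htr ((Nat.prime_dvd_prime_iff_eq ht hr).mp h6)
      · exact htq ((Nat.prime_dvd_prime_iff_eq ht hq).mp h6)

end Pool.Agent.Lib.MP_4f0ec0_al
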