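import Mathlib
import Pool.Agent.Lib.MP_4f0ec0_al.Need6

/-! Necessary conditions, part 7: field automorphisms. -/

namespace Pool.Agent.Lib.MP_4f0ec0_al

open Function

section

variable {F E : Type} [Field F] [Field E] [Finite E] [Algebra F E] (θ : Eˣ)

lemma units_mem (σ : E ≃ₐ[F] E) (u : Subgroup.zpowers θ) :
    Units.mapEquiv (σ : E ≃* E) (u : Eˣ) ∈ Subgroup.zpowers θ := by
  have h1 : Subgroup.zpowers (Units.mapEquiv (σ : E ≃* E) θ) = Subgroup.zpowers θ := by
    apply zpowers_eq_of_order
    exact orderOf_injective (Units.mapEquiv (σ : E ≃* E)).toMonoidHom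
      (Units.mapEquiv (σ : E ≃* E)).injective θ
  obtain ⟨x, hx⟩ := u
  obtain ⟨k, rfl⟩ := Subgroup.mem_zpowers_iff.mp hx
  rw [map_zpow, ← h1]
  exact Subgroup.zpow_mem _ (Subgroup.mem_zpowers _) k

/-- The action of field automorphisms on the affine group. -/
def autAff : (E ≃ₐ[F] E) →* MulAut (Aff E (Subgroup.zpowers θ)) where
  toFun σ :=
    { toFun := fun x => ⟨Multiplicative.ofAdd (σ (Multiplicative.toAdd x.left)),
        ⟨Units.mapEquiv (σ : E ≃* E) (x.right : Eˣ), units_mem θ σ x.right⟩⟩
      invFun := fun x => ⟨Multiplicative.ofAdd (σ.symm (Multiplicative.toAdd x.left)),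
        ⟨Units.mapEquiv (σ.symm : E ≃* E) (x.right : Eˣ), units_mem θ σ.symm x.right⟩⟩
      left_inv := fun x => by
        apply SemidirectProduct.ext
        · simp
        · apply Subtype.ext
          apply Units.ext
          simp
      right_inv := fun x => by
        apply SemidirectProduct.ext
        · simp
        · apply Subtype.ext
          apply Units.ext
          simp
      map_mul' := fun x y => by
        apply SemidirectProduct.ext
        · apply Multiplicative.toAdd.injective
          show σ (Multiplicative.toAdd x.left + (((x.right : Eˣ) : E) * Multiplicative.toAdd y.left)) =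
            σ (Multiplicative.toAdd x.left) + σ ((x.right : Eˣ) : E) * σ (Multiplicative.toAdd y.left)
          rw [map_add, map_mul]
        · apply Subtype.ext
          exact map_mul _ _ _ }
  map_one' := by
    refine MulEquiv.ext fun x => SemidirectProduct.ext rfl ?_
    apply Subtype.ext
    apply Units.ext
    rfl
  map_mul' σ τ := by
    refine MulEquiv.ext fun x => SemidirectProduct.ext rfl ?_
    apply Subtype.ext
    apply Units.ext
    rfl

lemma autAff_inl (σ : E ≃ₐ[F] E) (x : Multiplicative E) :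
    autAff θ σ (SemidirectProduct.inl x) =
      SemidirectProduct.inl (Multiplicative.ofAdd (σ (Multiplicative.toAdd x))) := by
  apply SemidirectProduct.ext
  · rfl
  · apply Subtype.ext
    apply Units.ext
    show σ (1 : E) = 1
    rw [map_one]

lemma autAff_injective : Injective (autAff (F := F) θ) := by
  rw [injective_iff_map_eq_one]
  intro σ hσ
  ext x
  have h1 := congrArg (fun a : MulAut (Aff E (Subgroup.zpowers θ)) =>
    Multiplicative.toAdd (a (SemidirectProduct.inl (Multiplicative.ofAdd x))).left) hσ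
  simp only [autAff_inl, SemidirectProduct.left_inl, MulAut.one_apply, toAdd_ofAdd] at h1
  exact h1

lemma center_SD_autAff (hθ : θ ≠ 1) (σ : E ≃ₐ[F] E) :
    Subgroup.center (SD (Aff E (Subgroup.zpowers θ)) (autAff θ σ)) = ⊥ := by
  rw [Subgroup.eq_bot_iff_forall]
  rintro ⟨g, s, hs⟩ hz
  rw [Subgroup.mem_center_iff] at hz
  obtain ⟨i, rfl⟩ := Subgroup.mem_zpowers_iff.mp hs
  have h1 : ∀ n : Aff E (Subgroup.zpowers θ), n * g = g * autAff θ (σ ^ i) n := by
    intro n
    have h2 := congrArg SemidirectProduct.left (hz (SemidirectProduct.inl n))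
    simp only [SemidirectProduct.mul_left, SemidirectProduct.left_inl, SemidirectProduct.right_inl,
      map_one, MulAut.one_apply] at h2
    rw [map_zpow]
    exact h2
  obtain ⟨y, u⟩ := g
  have h2 : ∀ x : E, x = ((u : Eˣ) : E) * (σ ^ i : E ≃ₐ[F] E) x := by
    intro x
    have h3 := h1 (SemidirectProduct.inl (Multiplicative.ofAdd x))
    rw [autAff_inl] at h3
    have h4 : x + Multiplicative.toAdd y =
        Multiplicative.toAdd y + ((u : Eˣ) : E) * (σ ^ i : E ≃ₐ[F] E) x := by
      have h5 := congrArg (fun z : Aff E (Subgroup.zpowers θ) => Multiplicative.toAdd z.left) h3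
      have h6 : Multiplicative.toAdd ((SemidirectProduct.inl (Multiplicative.ofAdd x) :
          Aff E (Subgroup.zpowers θ)) * ⟨y, u⟩).left = x + Multiplicative.toAdd y := by
        show x + ((((1 : Subgroup.zpowers θ) : Eˣ) : E) * Multiplicative.toAdd y) = _
        simp
      rw [← h6]
      exact h5
    rw [add_comm] at h4
    exact add_left_cancel h4
  have hu : (u : Eˣ) = 1 := by
    apply Units.ext
    have h3 := h2 1
    rw [map_one, mul_one] at h3
    exact h3.symm
  have hu' : u = 1 := Subtype.ext hu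
  have hσ : σ ^ i = 1 := by
    ext x
    have h3 := h2 x
    rw [hu, Units.val_one, one_mul] at h3
    exact h3.symm
  have hg : (⟨y, u⟩ : Aff E (Subgroup.zpowers θ)) ∈
      Subgroup.center (Aff E (Subgroup.zpowers θ)) := by
    rw [Subgroup.mem_center_iff]
    intro n
    rw [h1 n, hσ, map_one]
    rfl
  rw [center_Aff E θ hθ, Subgroup.mem_bot] at hg
  apply SemidirectProduct.ext
  · exact hg
  · apply Subtype.ext
    show autAff θ σ ^ i = 1
    rw [← map_zpow, hσ, map_one]

end

/-- The affine groups over `GaloisField p a`. -/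
lemma galois_aff {p a e : ℕ} [hp : Fact p.Prime] (ha : 2 ≤ a) (he : e ∣ p ^ a - 1)
    (hl : ∀ l, l ∣ a → l < a → ¬ e ∣ p ^ l - 1) :
    ∃ θ : (GaloisField p a)ˣ, orderOf θ = e ∧
      Nat.card (Aff (GaloisField p a) (Subgroup.zpowers θ)) = p ^ a * e ∧
      ¬ SS (Aff (GaloisField p a) (Subgroup.zpowers θ)) := by
  obtain ⟨E, hE, hEfin, θ, hEc, hθ, hAc, hAs⟩ := exists_aff hp.out ha he hl
  have hcard : Nat.card (GaloisField p a) = p ^ a := GaloisField.card p a (by omega)
  obtain ⟨θ', hθ'⟩ := exists_unit_order (E := GaloisField p a) (e := e) (by rw [hcard]; exact he)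
  obtain ⟨e1⟩ := aff_congr θ θ' (hEc.trans hcard.symm) (hθ.trans hθ'.symm)
  exact ⟨θ', hθ', by rw [card_Aff, hcard, Nat.card_zpowers, hθ'], fun h => hAs (h.congr e1.symm)⟩

theorem gamma_one {n p q a m : ℕ} (hn : n ≠ 0) (hU : Uniq n) (hp : p.Prime) (hq : q.Prime)
    (ha : 2 ≤ a) (h1 : q ∣ p ^ a - 1) (h2 : ∀ l, 0 < l → l < a → ¬ q ∣ p ^ l - 1)
    (hnm : n = p ^ a * q * m) (hpm : p ∣ m) : ¬ p ∣ a := by
  intro hpa
  have hfp : Fact p.Prime := ⟨hp⟩
  obtain ⟨θ, hθ, hAc, hAs⟩ := galois_aff (p := p) ha h1 (fun l hl1 hl2 =>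
    h2 l (Nat.pos_of_dvd_of_pos hl1 (by omega)) hl2)
  have hθ1 : θ ≠ 1 := by
    rintro rfl
    rw [orderOf_one] at hθ
    exact hq.one_lt.ne hθ
  have hcard : Nat.card (GaloisField p a ≃ₐ[ZMod p] GaloisField p a) = a := by
    rw [IsGalois.card_aut_eq_finrank, GaloisField.finrank p (by omega)]
  have hfin : Finite (GaloisField p a ≃ₐ[ZMod p] GaloisField p a) :=
    Nat.finite_of_card_ne_zero (by omega)
  obtain ⟨σ, hσ⟩ := exists_prime_orderOf_dvd_card' (G := GaloisField p a ≃ₐ[ZMod p] GaloisField p a)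
    p (by rw [hcard]; exact hpa)
  have hσ' : orderOf (autAff θ σ) = p := by
    rw [orderOf_injective _ (autAff_injective θ), hσ]
  have hc : Nat.card (SD (Aff (GaloisField p a) (Subgroup.zpowers θ)) (autAff θ σ)) =
      p ^ a * q * p := by
    rw [card_SD, hAc, hσ']
  have h3 := card_centerless hn hU (A := SD (Aff (GaloisField p a) (Subgroup.zpowers θ))
    (autAff θ σ)) (B := Aff (GaloisField p a) (Subgroup.zpowers θ)) (by
      rw [hc, hnm]
      exact Nat.mul_dvd_mul_left _ hpm) (by
      rw [hAc, hnm]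
      exact dvd_mul_right _ _)
    (fun h => hAs (h.of_injective SemidirectProduct.inl SemidirectProduct.inl_injective)) hAs
    (center_SD_autAff θ hθ1 σ) (center_Aff _ θ hθ1)
  rw [hc, hAc] at h3
  have h4 : 0 < p ^ a * q := Nat.mul_pos (pow_pos hp.pos a) hq.pos
  have := hp.two_le
  nlinarith

end Pool.Agent.Lib.MP_4f0ec0_al
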