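import Mathlib
import Pool.Agent.Lib.MP_4f0ec0_al.Need7

/-! Necessary conditions, part 8: extensions of the additive group of a field by `ZMod p`. -/

namespace Pool.Agent.Lib.MP_4f0ec0_al

open Function

/-- A central extension of the additive group of `E`. -/
@[ext] structure Pg {p : ℕ} {E : Type} [Field E] (σ : E →+* E) (T : E →+ ZMod p) where
  /-- the first component -/
  x : E
  /-- the second component -/
  z : ZMod p

section

variable {p : ℕ} {E : Type} [Field E] (σ : E →+* E) (T : E →+ ZMod p)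

instance : Mul (Pg σ T) := ⟨fun g h => ⟨g.x + h.x, g.z + h.z + T (g.x * σ h.x)⟩⟩

instance : One (Pg σ T) := ⟨⟨0, 0⟩⟩

instance : Inv (Pg σ T) := ⟨fun g => ⟨-g.x, -g.z + T (g.x * σ g.x)⟩⟩

@[simp] lemma Pg.mul_x (g h : Pg σ T) : (g * h).x = g.x + h.x := rfl
@[simp] lemma Pg.mul_z (g h : Pg σ T) : (g * h).z = g.z + h.z + T (g.x * σ h.x) := rfl
@[simp] lemma Pg.one_x : (1 : Pg σ T).x = 0 := rfl
@[simp] lemma Pg.one_z : (1 : Pg σ T).z = 0 := rfl
@[simp] lemma Pg.inv_x (g : Pg σ T) : (g⁻¹).x = -g.x := rfl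
@[simp] lemma Pg.inv_z (g : Pg σ T) : (g⁻¹).z = -g.z + T (g.x * σ g.x) := rfl

instance : Group (Pg σ T) := Group.ofLeftAxioms
  (by
    intro g h k
    apply Pg.ext
    · simp [add_assoc]
    · simp only [Pg.mul_z, Pg.mul_x, map_add, mul_add, add_mul]
      abel)
  (by
    intro g
    apply Pg.ext <;> simp)
  (by
    intro g
    apply Pg.ext <;> simp)

/-- The projection. -/
def Pg.proj : Pg σ T →* Multiplicative E where
  toFun g := Multiplicative.ofAdd g.x
  map_one' := rfl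
  map_mul' _ _ := rfl

/-- Automorphisms given by units `u` with `u * σ u = 1`. -/
def pgAut (U : Subgroup Eˣ) (hU : ∀ u ∈ U, (u : E) * σ u = 1) : U →* MulAut (Pg σ T) where
  toFun u :=
    { toFun := fun g => ⟨((u : Eˣ) : E) * g.x, g.z⟩
      invFun := fun g => ⟨(((u : Eˣ)⁻¹ : Eˣ) : E) * g.x, g.z⟩
      left_inv := fun g => by
        apply Pg.ext
        · show (((u : Eˣ)⁻¹ : Eˣ) : E) * (((u : Eˣ) : E) * g.x) = g.x
          rw [← mul_assoc, Units.inv_mul, one_mul]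
        · rfl
      right_inv := fun g => by
        apply Pg.ext
        · show ((u : Eˣ) : E) * ((((u : Eˣ)⁻¹ : Eˣ) : E) * g.x) = g.x
          rw [← mul_assoc, Units.mul_inv, one_mul]
        · rfl
      map_mul' := fun g h => by
        apply Pg.ext
        · show ((u : Eˣ) : E) * (g.x + h.x) = ((u : Eˣ) : E) * g.x + ((u : Eˣ) : E) * h.x
          rw [mul_add]
        · show g.z + h.z + T (g.x * σ h.x) =
            g.z + h.z + T (((u : Eˣ) : E) * g.x * σ (((u : Eˣ) : E) * h.x))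
          congr 2
          rw [map_mul]
          calc g.x * σ h.x = (((u : Eˣ) : E) * σ ((u : Eˣ) : E)) * (g.x * σ h.x) := by
                rw [hU u u.2, one_mul]
            _ = _ := by ring }
  map_one' := by
    refine MulEquiv.ext fun g => Pg.ext ?_ rfl
    show (((1 : U) : Eˣ) : E) * g.x = g.x
    simp
  map_mul' u v := by
    refine MulEquiv.ext fun g => Pg.ext ?_ rfl
    show (((u * v : U) : Eˣ) : E) * g.x = ((u : Eˣ) : E) * (((v : Eˣ) : E) * g.x)
    simp [mul_assoc]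

lemma pgAut_apply (U : Subgroup Eˣ) (hU : ∀ u ∈ U, (u : E) * σ u = 1) (u : U) (g : Pg σ T) :
    pgAut σ T U hU u g = ⟨((u : Eˣ) : E) * g.x, g.z⟩ := rfl

variable [hp : Fact p.Prime]

omit hp in
lemma card_Pg : Nat.card (Pg σ T) = Nat.card E * p := by
  have h1 : Nat.card (Pg σ T) = Nat.card (E × ZMod p) :=
    Nat.card_congr ⟨fun g => (g.x, g.z), fun y => ⟨y.1, y.2⟩, fun _ => rfl, fun _ => rfl⟩
  rw [h1, Nat.card_prod, Nat.card_zmod]

/-- There are no nontrivial homomorphisms to a group of order `p`. -/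
lemma pg_hom (U : Subgroup Eˣ) (hU : ∀ u ∈ U, (u : E) * σ u = 1) (θ : U) (hθ : (θ : Eˣ) ≠ 1)
    (x0 : E) (hx0 : T (x0 - σ x0) ≠ 0) {C : Type} [CommGroup C] (hC : ∀ c : C, c ^ p = 1)
    (hUp : Nat.Coprime p (Nat.card U)) (f : Pg σ T ⋊[pgAut σ T U hU] U →* C) (g) : f g = 1 := by
  have hf1 : ∀ u : U, f (SemidirectProduct.inr u) = 1 := by
    intro u
    have h1 : orderOf (f (SemidirectProduct.inr u)) ∣ p := orderOf_dvd_of_pow_eq_one (hC _)
    have h2 : orderOf (f (SemidirectProduct.inr u)) ∣ Nat.card U := by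
      apply orderOf_dvd_of_pow_eq_one
      rw [← map_pow, ← map_pow, pow_card_eq_one', map_one, map_one]
    have h3 := Nat.dvd_gcd h1 h2
    rw [hUp, Nat.dvd_one, orderOf_eq_one_iff] at h3
    exact h3
  set G : Pg σ T →* C := f.comp SemidirectProduct.inl with hG
  have hG1 : ∀ x z, G ⟨((θ : Eˣ) : E) * x, z⟩ = G ⟨x, z⟩ := by
    intro x z
    have h1 := SemidirectProduct.inl_aut (φ := pgAut σ T U hU) θ ⟨x, z⟩
    rw [pgAut_apply] at h1
    rw [hG, MonoidHom.comp_apply, h1, map_mul, map_mul, hf1, hf1, one_mul, mul_one]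
    rfl
  have hG2 : ∀ z w, G ⟨0, z + w⟩ = G ⟨0, z⟩ * G ⟨0, w⟩ := by
    intro z w
    rw [← map_mul]
    congr 1
    apply Pg.ext <;> simp
  have hG3 : G ⟨0, T (x0 - σ x0)⟩ = 1 := by
    have h1 : (⟨x0, 0⟩ * ⟨1, 0⟩ : Pg σ T) = ⟨0, T (x0 - σ x0)⟩ * (⟨1, 0⟩ * ⟨x0, 0⟩) := by
      apply Pg.ext
      · simp [add_comm]
      · simp
    have h2 := congrArg G h1
    rw [map_mul, map_mul, map_mul, mul_comm (G ⟨1, 0⟩)] at h2
    exact (mul_eq_right.mp h2.symm)
  have hG4 : ∀ n : ℕ, G ⟨0, n * T (x0 - σ x0)⟩ = 1 := by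
    intro n
    induction n with
    | zero =>
      have : (⟨0, ((0 : ℕ) : ZMod p) * T (x0 - σ x0)⟩ : Pg σ T) = 1 := by
        apply Pg.ext <;> simp
      rw [this, map_one]
    | succ n ih =>
      rw [Nat.cast_succ, add_mul, one_mul, hG2, ih, hG3, one_mul]
  have hG5 : ∀ z, G ⟨0, z⟩ = 1 := by
    intro z
    have h1 := hG4 (z * (T (x0 - σ x0))⁻¹).val
    rwa [ZMod.natCast_zmod_val, inv_mul_cancel_right₀ hx0] at h1
  have hG6 : ∀ x z, G ⟨x, z⟩ = G ⟨x, 0⟩ := by
    intro x z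
    have h1 : (⟨x, z⟩ : Pg σ T) = ⟨x, 0⟩ * ⟨0, z⟩ := by
      apply Pg.ext <;> simp
    rw [h1, map_mul, hG5, mul_one]
  have hG7 : ∀ x y, G ⟨x + y, 0⟩ = G ⟨x, 0⟩ * G ⟨y, 0⟩ := by
    intro x y
    rw [← map_mul, ← hG6 (x + y) (T (x * σ y))]
    congr 1
    apply Pg.ext <;> simp
  have hθ' : ((θ : Eˣ) : E) - 1 ≠ 0 := fun h => hθ (Units.ext (sub_eq_zero.mp h))
  have hG8 : ∀ y, G ⟨y, 0⟩ = 1 := by
    intro y
    set x := (((θ : Eˣ) : E) - 1)⁻¹ * y with hx
    have h1 : ((θ : Eˣ) : E) * x = y + x := by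
      have h2 : (((θ : Eˣ) : E) - 1) * x = y := by
        rw [hx, ← mul_assoc, mul_inv_cancel₀ hθ', one_mul]
      rw [sub_mul, one_mul] at h2
      rw [← h2]
      ring
    have h3 := hG1 x 0
    rw [h1, hG7] at h3
    exact (mul_eq_right.mp h3)
  have hg : g = SemidirectProduct.inl g.left * SemidirectProduct.inr g.right :=
    (SemidirectProduct.inl_left_mul_inr_right g).symm
  rw [hg, map_mul, hf1, mul_one]
  have h1 := hG6 g.left.x g.left.z
  rw [hG8] at h1
  exact h1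

end

theorem gamma_two {n p q a m : ℕ} (hn : n ≠ 0) (hUn : Uniq n) (hp : p.Prime) (hq : q.Prime)
    (hpq : p ≠ q) (ha : 2 ≤ a) (h1 : q ∣ p ^ a - 1) (h2 : ∀ l, 0 < l → l < a → ¬ q ∣ p ^ l - 1)
    (hnm : n = p ^ a * q * m) (hpm : p ∣ m) (hpm2 : ¬ p ^ 2 ∣ m) : Odd a := by
  rw [← Nat.not_even_iff_odd]
  rintro ⟨b, hb⟩
  have hfp : Fact p.Prime := ⟨hp⟩
  obtain ⟨θ, hθ, hAc, hAs⟩ := galois_aff (p := p) ha h1 (fun l hl1 hl2 =>
    h2 l (Nat.pos_of_dvd_of_pos hl1 (by omega)) hl2)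
  set E := GaloisField p a with hE
  have hcard : Nat.card E = p ^ a := GaloisField.card p a (by omega)
  have hfin : Finite E := Nat.finite_of_card_ne_zero (by rw [hcard]; exact (pow_pos hp.pos a).ne')
  let _ : Fintype E := Fintype.ofFinite E
  have hθ1 : θ ≠ 1 := by
    rintro rfl
    rw [orderOf_one] at hθ
    exact hq.one_lt.ne hθ
  have : CharP E p := inferInstance
  have : ExpChar E p := expChar_prime E p
  set σ : E →+* E := iterateFrobenius E p b with hσ
  have hσa : ∀ x : E, σ x = x ^ p ^ b := fun x => iterateFrobenius_def p b x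
  have hb0 : 0 < b := by omega
  -- the unit `θ`
  have hqb : q ∣ p ^ b + 1 := by
    have h3 : p ^ a - 1 = (p ^ b - 1) * (p ^ b + 1) := by
      rw [hb, pow_add]
      obtain ⟨c, hc⟩ : ∃ c, p ^ b = c + 1 := ⟨p ^ b - 1, by
        have := pow_pos hp.pos b
        omega⟩
      rw [hc]
      have e1 : (c + 1) * (c + 1) - 1 = c * (c + 1 + 1) := by
        have : (c + 1) * (c + 1) = c * (c + 1 + 1) + 1 := by ring
        omega
      rw [e1, Nat.add_sub_cancel]
    rw [h3] at h1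
    rcases (Nat.Prime.dvd_mul hq).mp h1 with h4 | h4
    · exact absurd h4 (h2 b hb0 (by omega))
    · exact h4
  set U := Subgroup.zpowers θ with hUdef
  have hUσ : ∀ u ∈ U, (u : E) * σ u = 1 := by
    intro u hu
    rw [hσa, ← pow_succ']
    have h3 : u ^ (p ^ b + 1) = 1 := by
      obtain ⟨k, rfl⟩ := Subgroup.mem_zpowers_iff.mp hu
      obtain ⟨c, hc⟩ := hqb
      have h4 : (θ ^ k) ^ q = 1 := by
        rw [← zpow_natCast, ← zpow_mul, mul_comm, zpow_mul, zpow_natCast, ← hθ,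
          pow_orderOf_eq_one, one_zpow]
      rw [hc, pow_mul, h4, one_pow]
    have h4 := congrArg (fun z : Eˣ => (z : E)) h3
    simpa using h4
  -- an element moved by `σ`
  obtain ⟨x0, hx0⟩ : ∃ x : E, x - σ x ≠ 0 := by
    by_contra hcon
    push Not at hcon
    obtain ⟨g, hg⟩ := (inferInstance : IsCyclic Eˣ).exists_generator
    have h3 : orderOf g = p ^ a - 1 := by
      rw [orderOf_eq_card_of_forall_mem_zpowers hg, Nat.card_units, hcard]
    have h4 : g ^ (p ^ b - 1) = 1 := by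
      have h5 := hcon (g : E)
      rw [hσa, sub_eq_zero] at h5
      have h6 : g ^ (p ^ b) = g := by
        apply Units.ext
        rw [Units.val_pow_eq_pow_val]
        exact h5.symm
      have h7 : g ^ (p ^ b - 1) * g = 1 * g := by
        rw [← pow_succ, Nat.sub_add_cancel (Nat.one_le_iff_ne_zero.mpr (pow_pos hp.pos b).ne'),
          h6, one_mul]
      exact mul_right_cancel h7
    have h5 := orderOf_dvd_of_pow_eq_one h4
    rw [h3] at h5
    have h6 : p ^ b < p ^ a := Nat.pow_lt_pow_right hp.one_lt (by omega)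
    have h7 : 1 < p ^ b := Nat.one_lt_pow hb0.ne' hp.one_lt
    have := Nat.le_of_dvd (by omega) h5
    omega
  obtain ⟨φ, hφ⟩ : ∃ φ : Module.Dual (ZMod p) E, φ (x0 - σ x0) ≠ 0 := by
    by_contra hcon
    push Not at hcon
    exact hx0 ((Module.forall_dual_apply_eq_zero_iff (ZMod p) _).mp hcon)
  set T : E →+ ZMod p := φ.toAddMonoidHom with hT
  have hT0 : T (x0 - σ x0) ≠ 0 := hφ
  have hUc : Nat.card U = q := by rw [hUdef, Nat.card_zpowers, hθ]
  -- the group
  have hc : Nat.card (Pg σ T ⋊[pgAut σ T U hUσ] U) = p ^ a * p * q := by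
    rw [SemidirectProduct.card, card_Pg, hcard, hUc]
  have hs : ¬ SS (Pg σ T ⋊[pgAut σ T U hUσ] U) := by
    intro h
    apply hAs
    refine h.of_surjective (SemidirectProduct.map (Pg.proj σ T) (MonoidHom.id U) ?_) ?_
    · intro u
      ext g
      rfl
    · rintro ⟨x, u⟩
      exact ⟨⟨⟨Multiplicative.toAdd x, 0⟩, u⟩, rfl⟩
  obtain ⟨m', hm'⟩ := hpm
  have hpm' : ¬ p ∣ m' := by
    rintro ⟨c, hc⟩
    apply hpm2
    rw [hm', hc, ← mul_assoc, ← pow_two]
    exact dvd_mul_right _ _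
  have hnm' : n = p ^ a * p * q * m' := by
    rw [hnm, hm']
    ring
  have hm'0 : m' ≠ 0 := by
    rintro rfl
    exact hpm' (dvd_zero p)
  have hpos : 0 < p ^ a * p * q := Nat.mul_pos (Nat.mul_pos (pow_pos hp.pos a) hp.pos) hq.pos
  have hpos2 : 0 < p ^ a * q := Nat.mul_pos (pow_pos hp.pos a) hq.pos
  obtain ⟨e⟩ := hUn.iso hn (A := Pg σ T ⋊[pgAut σ T U hUσ] U) (B := Aff E U)
    (by rw [hc, hnm']; exact dvd_mul_right _ _) (by rw [hAc, hnm]; exact dvd_mul_right _ _) hs hAs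
  rw [hc, hAc] at e
  have e1 : n / (p ^ a * p * q) = m' := by
    rw [hnm', Nat.mul_div_cancel_left _ hpos]
  have e2 : n / (p ^ a * q) = m := by
    rw [hnm, Nat.mul_div_cancel_left _ hpos2]
  rw [e1, e2] at e
  -- the homomorphism
  let f : Aff E U × Cyc m →* Cyc p :=
    (AddMonoidHom.toMultiplicative (ZMod.castHom (⟨m', hm'⟩ : p ∣ m) (ZMod p)).toAddMonoidHom).comp
      (MonoidHom.snd _ _)
  have hf : f (1, Multiplicative.ofAdd 1) ≠ 1 := by
    intro h
    have h3 : (ZMod.castHom (⟨m', hm'⟩ : p ∣ m) (ZMod p)) 1 = 0 := h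
    rw [map_one] at h3
    exact one_ne_zero h3
  apply hf
  obtain ⟨y, hy⟩ := e.surjective (1, Multiplicative.ofAdd 1)
  rw [← hy]
  have hCp : ∀ c : Cyc p, c ^ p = 1 := by
    intro c
    have h1 : c ^ Nat.card (Cyc p) = 1 := pow_card_eq_one'
    rwa [card_Cyc] at h1
  have hcop : Nat.Coprime p m' := (Nat.Prime.coprime_iff_not_dvd hp).mpr hpm'
  have hy2 : y = (y.1, 1) * (1, y.2) := Prod.ext (mul_one _).symm (one_mul _).symm
  set F : (Pg σ T ⋊[pgAut σ T U hUσ] U) × Cyc m' →* Cyc p := f.comp e.toMonoidHom with hF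
  show F y = 1
  rw [hy2, map_mul]
  have h3 : F (y.1, 1) = 1 := pg_hom σ T U hUσ ⟨θ, Subgroup.mem_zpowers θ⟩ hθ1 x0 hT0 hCp
    (by rw [hUc]; exact (Nat.coprime_primes hp hq).mpr hpq) (F.comp (MonoidHom.inl _ _)) y.1
  have h4 : F (1, y.2) = 1 := by
    have h5 : orderOf (F (1, y.2)) ∣ p := orderOf_dvd_of_pow_eq_one (hCp _)
    have h6 : orderOf (F (1, y.2)) ∣ m' := by
      apply orderOf_dvd_of_pow_eq_one
      rw [← map_pow]
      have h7 : y.2 ^ Nat.card (Cyc m') = 1 := pow_card_eq_one'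
      rw [card_Cyc] at h7
      have h8 : ((1, y.2) : (Pg σ T ⋊[pgAut σ T U hUσ] U) × Cyc m') ^ m' = 1 :=
        Prod.ext (one_pow _) h7
      rw [h8, map_one]
    have h7 := Nat.dvd_gcd h5 h6
    rw [hcop, Nat.dvd_one, orderOf_eq_one_iff] at h7
    exact h7
  rw [h3, h4, one_mul]

end Pool.Agent.Lib.MP_4f0ec0_al
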