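import Mathlib
import Pool.Agent.Lib.MP_4f0ec0_al.Need8

/-! Almost supersolvable numbers: assembly. -/

namespace Pool.Agent.Lib.MP_4f0ec0_al

open Function

/-- First type. -/
def TypeA (n : ℕ) : Prop :=
  ∃ p q a m : ℕ, p.Prime ∧ q.Prime ∧ p ≠ q ∧ 2 ≤ a ∧ orderOf (p : ZMod q) = a ∧
    n = p ^ a * q * m ∧ Nat.Coprime m (Nat.totient m) ∧ ¬ q ∣ m ∧
    (∀ t, t.Prime → t ∣ m → t ≠ p → ¬ q ∣ t - 1 ∧ n.factorization p < orderOf (p : ZMod t)) ∧
    (p ∣ m → Odd a ∧ ¬ p ∣ a)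

/-- Second type. -/
def TypeB (n : ℕ) : Prop :=
  ∃ p q m : ℕ, p.Prime ∧ q.Prime ∧ q ∣ p - 1 ∧ ¬ q ^ 2 ∣ p - 1 ∧ ¬ (p = 3 ∧ q = 2) ∧
    n = p ^ q * q ^ 2 * m ∧ Nat.Coprime m (Nat.totient m) ∧ ¬ p ∣ m ∧ ¬ q ∣ m ∧
    ∀ t, t.Prime → t ∣ m → ¬ q ∣ t - 1 ∧ q < orderOf (p : ZMod t)

/-- Third type. -/
def TypeC (n : ℕ) : Prop :=
  ∃ p q r m : ℕ, p.Prime ∧ q.Prime ∧ r.Prime ∧ q ∣ r - 1 ∧ q ∣ p - 1 ∧ r ∣ p - 1 ∧
    n = p ^ q * r * q * m ∧ Nat.Coprime m (Nat.totient m) ∧ ¬ p ∣ m ∧ ¬ q ∣ m ∧ ¬ r ∣ m ∧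
    ∀ t, t.Prime → t ∣ m → ¬ q ∣ t - 1 ∧ q < orderOf (p : ZMod t)

lemma dvd_iff_orderOf {p t : ℕ} (hp : p.Prime) (ht : t.Prime) (l : ℕ) :
    t ∣ p ^ l - 1 ↔ orderOf (p : ZMod t) ∣ l := by
  rw [orderOf_dvd_iff_pow_eq_one, ← Nat.cast_pow, ← (Nat.modEq_iff_dvd' (pow_pos hp.pos l)),
    Nat.ModEq.comm, ← Nat.cast_one, ZMod.natCast_eq_natCast_iff]

lemma orderOf_pos' {p t : ℕ} (hp : p.Prime) (ht : t.Prime) (h : t ≠ p) :
    0 < orderOf (p : ZMod t) := by
  have hft : Fact t.Prime := ⟨ht⟩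
  have h1 : (p : ZMod t) ≠ 0 := by
    rw [Ne, ZMod.natCast_eq_zero_iff]
    intro h2
    exact h ((Nat.prime_dvd_prime_iff_eq ht hp).mp h2)
  have h2 : orderOf (Units.mk0 (p : ZMod t) h1) = orderOf (p : ZMod t) := by
    rw [← orderOf_units]
    rfl
  rw [← h2]
  exact orderOf_pos _

lemma lt_orderOf_iff {p t w : ℕ} (hp : p.Prime) (ht : t.Prime) (h : t ≠ p) :
    w < orderOf (p : ZMod t) ↔ ∀ l, 0 < l → l ≤ w → ¬ t ∣ p ^ l - 1 := by
  have h0 := orderOf_pos' hp ht h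
  constructor
  · intro hw l hl hlw hd
    rw [dvd_iff_orderOf hp ht] at hd
    have := Nat.le_of_dvd hl hd
    omega
  · intro hall
    by_contra hcon
    exact hall _ h0 (by omega) ((dvd_iff_orderOf hp ht _).mpr dvd_rfl)

lemma orderOf_eq_iff' {p q a : ℕ} (hp : p.Prime) (hq : q.Prime) (h : p ≠ q) (ha : 2 ≤ a) :
    orderOf (p : ZMod q) = a ↔ q ∣ p ^ a - 1 ∧ ∀ l, 0 < l → l < a → ¬ q ∣ p ^ l - 1 := by
  constructor
  · intro ho
    refine ⟨(dvd_iff_orderOf hp hq a).mpr (by rw [ho]), fun l hl1 hl2 hd => ?_⟩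
    rw [dvd_iff_orderOf hp hq, ho] at hd
    have := Nat.le_of_dvd hl1 hd
    omega
  · rintro ⟨h1, h2⟩
    rw [dvd_iff_orderOf hp hq] at h1
    have h3 := orderOf_pos' hp hq h.symm
    have h4 := Nat.le_of_dvd (by omega) h1
    by_contra hne
    exact h2 _ h3 (by omega) ((dvd_iff_orderOf hp hq _).mpr dvd_rfl)

lemma solvable_of_dvd {n : ℕ} (hn : n ≠ 0)
    (h : ∀ (G : Type) (_ : Group G), Nat.card G = n → Group.IsSolvable G) (Y : Type) (_ : Group Y)
    (hY : Nat.card Y ∣ n) : Group.IsSolvable Y := by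
  have h1 := h (Y × Cyc (n / Nat.card Y)) inferInstance (by
    rw [Nat.card_prod, card_Cyc, Nat.mul_div_cancel' hY])
  exact Group.isSolvable_of_isSolvable_injective (f := MonoidHom.inl Y (Cyc (n / Nat.card Y)))
    (fun a b hab => congrArg Prod.fst hab)

theorem uniq_iff {n : ℕ} (hn : n ≠ 0) : Uniq n ↔
    (∀ (G : Type) (_ : Group G), Nat.card G = n → Group.IsSolvable G) ∧
      (TypeA n ∨ TypeB n ∨ TypeC n) := by
  classical
  constructor
  · intro hU
    refine ⟨fun G _ hG => solvable_of_uniq hn hU G (by rw [hG]), ?_⟩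
    have hex : ∃ d, d ∣ n ∧ ∃ (Y : Type) (_ : Group Y), Nat.card Y = d ∧ ¬ SS Y := ⟨n, dvd_rfl, hU.1⟩
    obtain ⟨hd, hY⟩ := Nat.find_spec hex
    have hmin := fun (j : ℕ) (hj : j < Nat.find hex) => Nat.find_min hex hj
    set d := Nat.find hex with hdd
    obtain ⟨m, hm⟩ := hd
    rcases minimal_types hn hU ⟨m, hm⟩ hY (fun Y _ hYn hYd => by
      by_contra hYs
      exact hmin _ hYd ⟨hYn, Y, _, rfl, hYs⟩) with h | h | h
    · obtain ⟨p, q, a, hp, hq, hpq, ha, h1, h2, hda⟩ := h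
      have hnm : n = p ^ a * q * m := by rw [hm, hda]
      obtain ⟨c1, c2, c3, c4⟩ := needA hn hU hp hq hpq ha h1 h2 hnm
      left
      refine ⟨p, q, a, m, hp, hq, hpq, ha, (orderOf_eq_iff' hp hq hpq ha).mpr ⟨h1, h2⟩, hnm, c1, c2,
        fun t ht htm htp => ⟨c3 t ht htm htp, ?_⟩, fun hpm => ?_⟩
      · rw [lt_orderOf_iff hp ht htp]
        intro l hl hlw
        exact c4 t ht htm htp l hl ((hp.pow_dvd_iff_le_factorization hn).mpr hlw)
      · exact ⟨gamma_two hn hU hp hq hpq ha h1 h2 hnm hpm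
          (sq_not_dvd hp (cyc_squarefree c1)), gamma_one hn hU hp hq ha h1 h2 hnm hpm⟩
    · obtain ⟨p, q, hp, hq, hqp, hqp2, h32, hda⟩ := h
      have hnm : n = p ^ q * q ^ 2 * m := by rw [hm, hda]
      obtain ⟨c1, c2, c3, c4, c5⟩ := needB hn hU hp hq hqp hqp2 hnm
      right; left
      refine ⟨p, q, m, hp, hq, hqp, hqp2, h32, hnm, c1, c2, c3, fun t ht htm => ⟨c4 t ht htm, ?_⟩⟩
      rw [lt_orderOf_iff hp ht (by rintro rfl; exact c2 htm)]
      exact c5 t ht htm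
    · obtain ⟨p, q, r, hp, hq, hr, hqr, hrp, hqp, hda⟩ := h
      have hnm : n = p ^ q * (r * q) * m := by rw [hm, hda]
      obtain ⟨c1, c2, c3, c4, c5, c6⟩ := needD hn hU hp hq hr hqr hrp hqp hnm
      right; right
      refine ⟨p, q, r, m, hp, hq, hr, hqr, hqp, hrp, by rw [hnm]; ring, c1, c2, c3, c4,
        fun t ht htm => ⟨c5 t ht htm, ?_⟩⟩
      rw [lt_orderOf_iff hp ht (by rintro rfl; exact c2 htm)]
      exact c6 t ht htm
  · rintro ⟨hsol, h⟩
    have hsol' := solvable_of_dvd hn hsol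
    rcases h with h | h | h
    · obtain ⟨p, q, a, m, hp, hq, hpq, ha, ho, hnm, c1, c2, c3, c4⟩ := h
      obtain ⟨h1, h2⟩ := (orderOf_eq_iff' hp hq hpq ha).mp ho
      have hm0 : m ≠ 0 := by
        rintro rfl
        exact hn (by rw [hnm, mul_zero])
      have hsq := cyc_squarefree c1
      have hsqp := sq_not_dvd hp hsq
      -- the exponent of `p`
      set w := if p ∣ m then a + 1 else a with hw
      have hw1 : a ≤ w := by rw [hw]; split_ifs <;> omega
      have hw2 : w ≤ a + 1 := by rw [hw]; split_ifs <;> omega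
      have hwm : a < w → p ∣ m := by
        intro h
        by_contra hcon
        rw [hw, if_neg hcon] at h
        omega
      have hwd : p ^ w ∣ n := by
        by_cases hpm : p ∣ m
        · rw [hw, if_pos hpm, hnm, pow_succ, mul_assoc]
          exact Nat.mul_dvd_mul_left _ (hpm.mul_left q)
        · rw [hw, if_neg hpm, hnm, mul_assoc]
          exact dvd_mul_right _ _
      have hwle : w ≤ n.factorization p := (hp.pow_dvd_iff_le_factorization hn).mp hwd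
      have hqc : Nat.Coprime p q := (Nat.coprime_primes hp hq).mpr hpq
      have hpw : ¬ p ^ (w + 1) ∣ p ^ a * (q * m) := by
        intro h
        by_cases hpm : p ∣ m
        · rw [hw, if_pos hpm] at h
          have e1 : p ^ (a + 1 + 1) = p ^ a * p ^ 2 := by ring
          rw [e1] at h
          have h3 := Nat.dvd_of_mul_dvd_mul_left (pow_pos hp.pos a) h
          exact hsqp (Nat.Coprime.dvd_of_dvd_mul_left (Nat.Coprime.pow_left 2 hqc) h3)
        · rw [hw, if_neg hpm, pow_succ] at h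
          have h3 := Nat.dvd_of_mul_dvd_mul_left (pow_pos hp.pos a) h
          exact hpm (Nat.Coprime.dvd_of_dvd_mul_left hqc h3)
      rw [hnm]
      apply backA hp hq hpq ha h1 h2 hm0 c1 c2 hw1 hw2 hpw (fun h => c4 (hwm h))
        (fun t ht htm htp => (c3 t ht htm htp).1) (fun t ht htm htp l hl hlw => ?_)
        (by rw [← hnm]; exact hsol')
      exact (lt_orderOf_iff hp ht htp).mp (c3 t ht htm htp).2 l hl (hlw.trans hwle)
    · obtain ⟨p, q, m, hp, hq, hqp, hqp2, h32, hnm, c1, c2, c3, c4⟩ := h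
      have hm0 : m ≠ 0 := by
        rintro rfl
        exact hn (by rw [hnm, mul_zero])
      rw [hnm]
      apply backB hp hq hqp hqp2 h32 hm0 c1 c2 c3 (fun t ht htm => (c4 t ht htm).1)
        (fun t ht htm => ?_) (by rw [← hnm]; exact hsol')
      exact (lt_orderOf_iff hp ht (by rintro rfl; exact c2 htm)).mp (c4 t ht htm).2
    · obtain ⟨p, q, r, m, hp, hq, hr, hqr, hqp, hrp, hnm, c1, c2, c3, c4, c5⟩ := h
      have hm0 : m ≠ 0 := by
        rintro rfl
        exact hn (by rw [hnm, mul_zero])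
      have hnm' : n = p ^ q * (r * q) * m := by rw [hnm]; ring
      rw [hnm']
      apply backD hp hq hr hqr hrp hqp hm0 c1 c2 c3 c4 (fun t ht htm => (c5 t ht htm).1)
        (fun t ht htm => ?_) (by rw [← hnm']; exact hsol')
      exact (lt_orderOf_iff hp ht (by rintro rfl; exact c2 htm)).mp (c5 t ht htm).2

/-- A positive integer `n` is almost supersolvable if there is exactly one isomorphism class of
non-supersolvable groups of order `n`. -/
def AlmostSupersolvable (n : ℕ) : Prop :=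
  (∃ (G : Type) (_ : Group G), Nat.card G = n ∧ ¬ Supersolvable G) ∧
    ∀ (G H : Type) (_ : Group G) (_ : Group H), Nat.card G = n → Nat.card H = n →
      ¬ Supersolvable G → ¬ Supersolvable H → Nonempty (G ≃* H)

lemma almost_iff_uniq {n : ℕ} (hn : n ≠ 0) : AlmostSupersolvable n ↔ Uniq n := by
  have key : ∀ (G : Type) (_ : Group G), Nat.card G = n → (Supersolvable G ↔ SS G) := by
    intro G _ hG
    have : Finite G := Nat.finite_of_card_ne_zero (by rw [hG]; exact hn)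
    exact supersolvable_iff
  constructor
  · rintro ⟨⟨G, _, hG, hs⟩, h⟩
    refine ⟨⟨G, _, hG, fun h1 => hs ((key G _ hG).mpr h1)⟩, fun A B _ _ hA hB hsA hsB => ?_⟩
    exact h A B _ _ hA hB (fun h1 => hsA ((key A _ hA).mp h1)) (fun h1 => hsB ((key B _ hB).mp h1))
  · rintro ⟨⟨G, _, hG, hs⟩, h⟩
    refine ⟨⟨G, _, hG, fun h1 => hs ((key G _ hG).mp h1)⟩, fun A B _ _ hA hB hsA hsB => ?_⟩
    exact h A B _ _ hA hB (fun h1 => hsA ((key A _ hA).mpr h1))
      (fun h1 => hsB ((key B _ hB).mpr h1))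

theorem almost_iff {n : ℕ} (hn : 0 < n) : AlmostSupersolvable n ↔
    (∀ (G : Type) (_ : Group G), Nat.card G = n → Group.IsSolvable G) ∧
      (TypeA n ∨ TypeB n ∨ TypeC n) := by
  rw [almost_iff_uniq hn.ne', uniq_iff hn.ne']

end Pool.Agent.Lib.MP_4f0ec0_al
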