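import Mathlib
import Pool.Agent.Lib.MP_4f0ec0_al.Final

/-! Almost supersolvable numbers: solvability of all groups of order `n`, assuming Thompson's
theorem on minimal simple groups. -/

namespace Pool.Agent.Lib.MP_4f0ec0_al

open Function

/-- The orders of the minimal simple groups: `PSL(2, 2 ^ f)` for a prime `f`, `PSL(2, 3 ^ f)` for
an odd prime `f`, `PSL(2, l)` for a prime `l > 3` with `5 ∣ l ^ 2 + 1`, `Sz(2 ^ f)` for an odd
prime `f`, and `PSL(3, 3)`. -/
def MinimalSimpleOrder (k : ℕ) : Prop :=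
  (∃ f : ℕ, f.Prime ∧ k = 2 ^ f * (2 ^ (2 * f) - 1)) ∨
  (∃ f : ℕ, f.Prime ∧ f ≠ 2 ∧ k = 3 ^ f * ((3 ^ (2 * f) - 1) / 2)) ∨
  (∃ l : ℕ, l.Prime ∧ 3 < l ∧ 5 ∣ l ^ 2 + 1 ∧ k = l * ((l ^ 2 - 1) / 2)) ∨
  (∃ f : ℕ, f.Prime ∧ f ≠ 2 ∧ k = 2 ^ (2 * f) * (2 ^ (2 * f) + 1) * (2 ^ f - 1)) ∨
  k = 5616

/-- Thompson's theorem, for orders: the order of every finite non-solvable group is divisible by
the order of a minimal simple group. -/
def ThompsonTheorem : Prop :=
  ∀ (G : Type) (_ : Group G), Finite G → ¬ Group.IsSolvable G →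
    ∃ k, MinimalSimpleOrder k ∧ k ∣ Nat.card G

lemma orderOf_dvd_of {p t l : ℕ} (hp : p.Prime) (h : t ∣ p ^ l - 1) :
    orderOf (p : ZMod t) ∣ l := by
  rw [orderOf_dvd_iff_pow_eq_one, ← Nat.cast_pow]
  have h1 := ((Nat.modEq_iff_dvd' (pow_pos hp.pos l)).mpr h).symm
  have h2 := (ZMod.natCast_eq_natCast_iff _ _ t).mpr h1
  rw [h2, Nat.cast_one]

lemma exists_not_solvable_sixty {n : ℕ} (hn : n ≠ 0) (h : 60 ∣ n) :
    ∃ (G : Type) (_ : Group G), Nat.card G = n ∧ ¬ Group.IsSolvable G := by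
  have h60 : Nat.card (alternatingGroup (Fin 5)) = 60 := by
    rw [nat_card_alternatingGroup, Nat.card_eq_fintype_card, Fintype.card_fin]
    rfl
  have hns : ¬ Group.IsSolvable (alternatingGroup (Fin 5)) := by
    intro hs
    apply Equiv.Perm.not_isSolvable_fin_5
    exact Group.isSolvable_of_ker_le_range (alternatingGroup (Fin 5)).subtype
      (Equiv.Perm.sign (α := Fin 5)) (by
        rw [Subgroup.range_subtype]
        exact le_rfl)
  refine ⟨alternatingGroup (Fin 5) × Cyc (n / 60), inferInstance, ?_, fun hs => hns ?_⟩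
  · rw [Nat.card_prod, card_Cyc, h60, Nat.mul_div_cancel' h]
  · exact Group.isSolvable_of_isSolvable_injective
      (f := MonoidHom.inl (alternatingGroup (Fin 5)) (Cyc (n / 60)))
      (fun a b hab => congrArg Prod.fst hab)

/-- Every minimal simple order is divisible by `12` or by `64`. -/
lemma three_dvd_four_pow (f : ℕ) : 3 ∣ 2 ^ (2 * f) - 1 := by
  rw [pow_mul]
  have := Nat.sub_one_dvd_pow_sub_one (2 ^ 2) f
  norm_num at this ⊢
  exact this

lemma twelve_of_prime {l : ℕ} (hl : l.Prime) (h3 : 3 < l) : 12 ∣ (l ^ 2 - 1) / 2 := by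
  have h1 : l % 2 = 1 := by
    rcases hl.eq_two_or_odd with h | h
    · omega
    · exact h
  have h2 : l % 3 ≠ 0 := by
    intro h
    have := (Nat.prime_dvd_prime_iff_eq Nat.prime_three hl).mp (Nat.dvd_of_mod_eq_zero h)
    omega
  have h4 : 24 ∣ l ^ 2 - 1 := by
    have h5 : l ^ 2 % 24 = 1 := by
      have h6 : l % 24 = 1 ∨ l % 24 = 5 ∨ l % 24 = 7 ∨ l % 24 = 11 ∨ l % 24 = 13 ∨ l % 24 = 17 ∨
          l % 24 = 19 ∨ l % 24 = 23 := by omega
      rw [pow_two, Nat.mul_mod]
      rcases h6 with h | h | h | h | h | h | h | h <;> rw [h]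
    omega
  omega

lemma minimal_dvd {k : ℕ} (h : MinimalSimpleOrder k) : 12 ∣ k ∨
    ∃ f : ℕ, f.Prime ∧ f ≠ 2 ∧ 2 ^ (2 * f) * (2 ^ (2 * f) + 1) * (2 ^ f - 1) = k := by
  rcases h with ⟨f, hf, rfl⟩ | ⟨f, hf, hf2, rfl⟩ | ⟨l, hl, hl3, -, rfl⟩ | ⟨f, hf, hf2, rfl⟩ | rfl
  · left
    have h1 : 2 ^ 2 ∣ 2 ^ f := Nat.pow_dvd_pow 2 hf.two_le
    exact Nat.mul_dvd_mul h1 (three_dvd_four_pow f)
  · left
    have h1 : 3 ∣ 3 ^ f := dvd_pow_self 3 hf.ne_zero
    have h2 : 4 ∣ (3 ^ (2 * f) - 1) / 2 := by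
      have h3 : 8 ∣ 3 ^ (2 * f) - 1 := by
        rw [pow_mul]
        have := Nat.sub_one_dvd_pow_sub_one (3 ^ 2) f
        norm_num at this ⊢
        exact this
      omega
    have := Nat.mul_dvd_mul h1 h2
    norm_num at this
    exact this
  · left
    exact (twelve_of_prime hl hl3).mul_left l
  · right
    exact ⟨f, hf, hf2, rfl⟩
  · left
    norm_num

lemma four_dvd_minimal {k : ℕ} (h : MinimalSimpleOrder k) : 4 ∣ k := by
  rcases minimal_dvd h with h1 | ⟨f, hf, hf2, rfl⟩
  · exact (by norm_num : 4 ∣ 12).trans h1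
  · rw [mul_assoc]
    have h1 : 2 ^ 2 ∣ 2 ^ (2 * f) := Nat.pow_dvd_pow 2 (by have := hf.two_le; omega)
    exact h1.trans (dvd_mul_right _ _)

lemma not_two_dvd_cofactor {p q m : ℕ} (hp : p.Prime) (hp2 : p ≠ 2) (h2q : 1 ≤ q)
    (h : ∀ t, t.Prime → t ∣ m → q < orderOf (p : ZMod t)) : ¬ 2 ∣ m := by
  intro h2
  have h3 := h 2 Nat.prime_two h2
  have h4 : orderOf (p : ZMod 2) ∣ 1 := by
    apply orderOf_dvd_of hp
    rcases hp.eq_two_or_odd with h | h
    · exact absurd h hp2
    · rw [pow_one]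
      omega
  have := Nat.le_of_dvd one_pos h4
  omega

theorem typeB_solvable {n k : ℕ} (hB : TypeB n) (hk : MinimalSimpleOrder k) (hkn : k ∣ n) :
    False := by
  obtain ⟨p, q, m, hp, hq, hqp, hqp2, h32, hnm, c1, c2, c3, c4⟩ := hB
  have hpq := ne_of_dvd_sub hp hqp
  have hp2 : p ≠ 2 := by
    rintro rfl
    have := Nat.le_of_dvd one_pos hqp
    have := hq.two_le
    omega
  have h2m : ¬ 2 ∣ m := not_two_dvd_cofactor (q := q) hp hp2 hq.one_lt.le
    (fun t ht htm => (c4 t ht htm).2)
  have h4 : 4 ∣ n := (four_dvd_minimal hk).trans hkn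
  have hpodd : ¬ 2 ∣ p := fun h => hp2 ((Nat.prime_dvd_prime_iff_eq Nat.prime_two hp).mp h).symm
  have hq2 : q = 2 := by
    by_contra hne
    have h2n : 2 ∣ n := (by norm_num : 2 ∣ 4).trans h4
    rw [hnm] at h2n
    rcases (Nat.Prime.dvd_mul Nat.prime_two).mp h2n with h | h
    · rcases (Nat.Prime.dvd_mul Nat.prime_two).mp h with h | h
      · exact hpodd (Nat.prime_two.dvd_of_dvd_pow h)
      · exact hne ((Nat.prime_dvd_prime_iff_eq Nat.prime_two hq).mp
          (Nat.prime_two.dvd_of_dvd_pow h)).symm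
    · exact h2m h
  subst hq2
  have h3n : ¬ 3 ∣ n := by
    intro h
    rw [hnm] at h
    rcases (Nat.Prime.dvd_mul Nat.prime_three).mp h with h | h
    · rcases (Nat.Prime.dvd_mul Nat.prime_three).mp h with h | h
      · have := (Nat.prime_dvd_prime_iff_eq Nat.prime_three hp).mp
          (Nat.prime_three.dvd_of_dvd_pow h)
        exact h32 ⟨this.symm, rfl⟩
      · norm_num at h
    · have h5 := (c4 3 Nat.prime_three h).2
      have h6 : orderOf (p : ZMod 3) ∣ 2 := by
        apply orderOf_dvd_of hp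
        have h7 : p % 3 ≠ 0 := by
          intro h8
          have h9 := (Nat.prime_dvd_prime_iff_eq Nat.prime_three hp).mp
            (Nat.dvd_of_mod_eq_zero h8)
          rw [← h9] at c2
          exact c2 h
        have h8 : p ^ 2 % 3 = 1 := by
          rw [pow_two, Nat.mul_mod]
          have : p % 3 = 1 ∨ p % 3 = 2 := by omega
          rcases this with h | h <;> rw [h]
        have : 0 < p ^ 2 := pow_pos hp.pos 2
        omega
      have := Nat.le_of_dvd two_pos h6
      omega
  rcases minimal_dvd hk with h | ⟨f, hf, hf2, rfl⟩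
  · exact h3n ((by norm_num : 3 ∣ 12).trans (h.trans hkn))
  · have h5 : 8 ∣ n := by
      refine dvd_trans ?_ hkn
      rw [mul_assoc]
      have h1 : 2 ^ 3 ∣ 2 ^ (2 * f) := Nat.pow_dvd_pow 2 (by have := hf.two_le; omega)
      exact h1.trans (dvd_mul_right _ _)
    rw [hnm] at h5
    have h6 : p ^ 2 * 2 ^ 2 * m = 4 * (p ^ 2 * m) := by ring
    rw [h6] at h5
    have h7 : 2 ∣ p ^ 2 * m := by
      have : 4 * 2 ∣ 4 * (p ^ 2 * m) := h5
      exact Nat.dvd_of_mul_dvd_mul_left (by norm_num) this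
    rcases (Nat.Prime.dvd_mul Nat.prime_two).mp h7 with h | h
    · exact hpodd (Nat.prime_two.dvd_of_dvd_pow h)
    · exact h2m h

theorem typeC_solvable {n k : ℕ} (hC : TypeC n) (hk : MinimalSimpleOrder k) (hkn : k ∣ n) :
    False := by
  obtain ⟨p, q, r, m, hp, hq, hr, hqr, hqp, hrp, hnm, c1, c2, c3, c4, c5⟩ := hC
  have hpq := ne_of_dvd_sub hp hqp
  have hp2 : p ≠ 2 := by
    rintro rfl
    have := Nat.le_of_dvd one_pos hqp
    have := hq.two_le
    omega
  have hr2 : r ≠ 2 := by
    rintro rfl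
    have := Nat.le_of_dvd one_pos hqr
    have := hq.two_le
    omega
  have h2m : ¬ 2 ∣ m := not_two_dvd_cofactor (q := q) hp hp2 hq.one_lt.le
    (fun t ht htm => (c5 t ht htm).2)
  have h4 : 4 ∣ n := (four_dvd_minimal hk).trans hkn
  have hpodd : ¬ 2 ∣ p := fun h => hp2 ((Nat.prime_dvd_prime_iff_eq Nat.prime_two hp).mp h).symm
  have hrodd : ¬ 2 ∣ r := fun h => hr2 ((Nat.prime_dvd_prime_iff_eq Nat.prime_two hr).mp h).symm
  have hq2 : q = 2 := by
    by_contra hne
    have h2n : 2 ∣ n := (by norm_num : 2 ∣ 4).trans h4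
    rw [hnm] at h2n
    rcases (Nat.Prime.dvd_mul Nat.prime_two).mp h2n with h | h
    · rcases (Nat.Prime.dvd_mul Nat.prime_two).mp h with h | h
      · rcases (Nat.Prime.dvd_mul Nat.prime_two).mp h with h | h
        · exact hpodd (Nat.prime_two.dvd_of_dvd_pow h)
        · exact hrodd h
      · exact hne ((Nat.prime_dvd_prime_iff_eq Nat.prime_two hq).mp h).symm
    · exact h2m h
  subst hq2
  rw [hnm] at h4
  have h6 : p ^ 2 * r * 2 * m = 2 * (p ^ 2 * r * m) := by ring
  rw [h6] at h4
  have h7 : 2 ∣ p ^ 2 * r * m := by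
    have : 2 * 2 ∣ 2 * (p ^ 2 * r * m) := h4
    exact Nat.dvd_of_mul_dvd_mul_left (by norm_num) this
  rcases (Nat.Prime.dvd_mul Nat.prime_two).mp h7 with h | h
  · rcases (Nat.Prime.dvd_mul Nat.prime_two).mp h with h | h
    · exact hpodd (Nat.prime_two.dvd_of_dvd_pow h)
    · exact hrodd h
  · exact h2m h

theorem typeA_solvable {n k : ℕ} (hn : n ≠ 0) (hA : TypeA n) (hk : MinimalSimpleOrder k)
    (hkn : k ∣ n) : 60 ∣ n := by
  obtain ⟨p, q, a, m, hp, hq, hpq, ha, ho, hnm, c1, c2, c3, c4⟩ := hA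
  have hm0 : m ≠ 0 := by
    rintro rfl
    exact hn (by rw [hnm, mul_zero])
  have h4 : 4 ∣ n := (four_dvd_minimal hk).trans hkn
  have hpan : p ^ a ∣ n := by rw [hnm, mul_assoc]; exact dvd_mul_right _ _
  have hav : a ≤ n.factorization p := (hp.pow_dvd_iff_le_factorization hn).mp hpan
  have hp2 : p = 2 := by
    by_contra hne
    have hpodd : ¬ 2 ∣ p := fun h => hne ((Nat.prime_dvd_prime_iff_eq Nat.prime_two hp).mp h).symm
    have ho2 : orderOf (p : ZMod 2) ∣ 1 := by
      apply orderOf_dvd_of hp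
      rw [pow_one]
      omega
    have ho3 := Nat.le_of_dvd one_pos ho2
    have h2n : 2 ∣ n := (by norm_num : 2 ∣ 4).trans h4
    rw [hnm] at h2n
    rcases (Nat.Prime.dvd_mul Nat.prime_two).mp h2n with h | h
    · rcases (Nat.Prime.dvd_mul Nat.prime_two).mp h with h | h
      · exact hpodd (Nat.prime_two.dvd_of_dvd_pow h)
      · have := (Nat.prime_dvd_prime_iff_eq Nat.prime_two hq).mp h
        subst this
        omega
    · have := (c3 2 Nat.prime_two h (Ne.symm hne)).2
      omega
  subst hp2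
  have hsq := cyc_squarefree c1
  have hqodd : q ≠ 2 := hpq.symm
  by_cases h3n : 3 ∣ n
  · -- `q = 3` and `a = 2`
    have ho3 : orderOf ((2 : ℕ) : ZMod 3) ∣ 2 := orderOf_dvd_of Nat.prime_two (by norm_num)
    have ho3' := Nat.le_of_dvd two_pos ho3
    have hq3 : q = 3 := by
      by_contra hne
      rw [hnm] at h3n
      rcases (Nat.Prime.dvd_mul Nat.prime_three).mp h3n with h | h
      · rcases (Nat.Prime.dvd_mul Nat.prime_three).mp h with h | h
        · have := Nat.prime_three.dvd_of_dvd_pow h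
          norm_num at this
        · exact hne ((Nat.prime_dvd_prime_iff_eq Nat.prime_three hq).mp h).symm
      · have := (c3 3 Nat.prime_three h (by norm_num)).2
        omega
    subst hq3
    have ha2 : a = 2 := by omega
    subst ha2
    have h2m : ¬ 2 ∣ m := by
      intro h
      have := (c4 h).1
      rw [Nat.odd_iff] at this
      omega
    have hn12 : n = 12 * m := by rw [hnm]; ring
    have h8 : ¬ 8 ∣ n := by
      intro h
      rw [hn12] at h
      omega
    have h9 : ¬ 9 ∣ n := by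
      intro h
      rw [hn12] at h
      omega
    rcases hk with ⟨f, hf, rfl⟩ | ⟨f, hf, hf2, rfl⟩ | ⟨l, hl, hl3, hl5, rfl⟩ | ⟨f, hf, hf2, rfl⟩ | rfl
    · have hf2 : f ≤ 2 := by
        by_contra hcon
        apply h8
        have h1 : 2 ^ 3 ∣ 2 ^ f := Nat.pow_dvd_pow 2 (by omega)
        exact (h1.trans (dvd_mul_right _ _)).trans hkn
      have : f = 2 := by
        have := hf.two_le
        omega
      subst this
      norm_num at hkn
      exact hkn
    · exfalso
      apply h9
      have h1 : 3 ^ 2 ∣ 3 ^ f := Nat.pow_dvd_pow 3 hf.two_le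
      exact (h1.trans (dvd_mul_right _ _)).trans hkn
    · -- `PSL(2, l)`
      have hlodd : l % 2 = 1 := by
        rcases hl.eq_two_or_odd with h | h
        · omega
        · exact h
      have hlm : l ∣ m := by
        have h1 : l ∣ 12 * m := by rw [← hn12]; exact (dvd_mul_right _ _).trans hkn
        rcases (Nat.Prime.dvd_mul hl).mp h1 with h | h
        · exfalso
          have h2 : l ∣ 2 * 2 * 3 := h
          rcases (Nat.Prime.dvd_mul hl).mp h2 with h | h
          · rcases (Nat.Prime.dvd_mul hl).mp h with h | h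
            · have := (Nat.prime_dvd_prime_iff_eq hl Nat.prime_two).mp h
              omega
            · have := (Nat.prime_dvd_prime_iff_eq hl Nat.prime_two).mp h
              omega
          · have := (Nat.prime_dvd_prime_iff_eq hl Nat.prime_three).mp h
            omega
        · exact h
      have h3l : ¬ 3 ∣ l - 1 := (c3 l hl hlm (by omega)).1
      have hfac : (l ^ 2 - 1) / 2 = (l - 1) * ((l + 1) / 2) := by
        obtain ⟨c, hc⟩ : ∃ c, l = 2 * c + 1 := ⟨l / 2, by omega⟩
        subst hc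
        have e1 : (2 * c + 1) ^ 2 - 1 = 2 * (2 * c * (c + 1)) := by
          have : (2 * c + 1) ^ 2 = 2 * (2 * c * (c + 1)) + 1 := by ring
          omega
        rw [e1, Nat.mul_div_cancel_left _ two_pos]
        have e2 : (2 * c + 1 + 1) / 2 = c + 1 := by omega
        rw [e2, Nat.add_sub_cancel]
      rw [hfac] at hkn
      have hl1n : l - 1 ∣ n := ((dvd_mul_right _ _).trans (dvd_mul_left _ _)).trans hkn
      -- `l - 1` is a power of two
      obtain ⟨j, -, hj⟩ : ∃ j ≤ l - 1, l - 1 = 2 ^ j := by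
        have h1 : ∀ {s : ℕ}, s.Prime → s ∣ l - 1 → s = 2 := by
          intro s hs hsl
          by_contra hs2
          have hs3 : s ≠ 3 := by
            rintro rfl
            exact h3l hsl
          have hsn : s ∣ 12 * m := by rw [← hn12]; exact hsl.trans hl1n
          have hsm : s ∣ m := by
            rcases (Nat.Prime.dvd_mul hs).mp hsn with h | h
            · exfalso
              have h2 : s ∣ 2 * 2 * 3 := h
              rcases (Nat.Prime.dvd_mul hs).mp h2 with h | h
              · rcases (Nat.Prime.dvd_mul hs).mp h with h | h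
                · exact hs2 ((Nat.prime_dvd_prime_iff_eq hs Nat.prime_two).mp h)
                · exact hs2 ((Nat.prime_dvd_prime_iff_eq hs Nat.prime_two).mp h)
              · exact hs3 ((Nat.prime_dvd_prime_iff_eq hs Nat.prime_three).mp h)
            · exact h
          have h2 : Nat.totient l ∣ Nat.totient m := Nat.totient_dvd_of_dvd hlm
          rw [Nat.totient_prime hl] at h2
          have h3 := Nat.dvd_gcd hsm (hsl.trans h2)
          rw [c1] at h3
          exact hs.one_lt.ne' (Nat.dvd_one.mp h3)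
        have h2 := Nat.eq_prime_pow_of_unique_prime_dvd (n := l - 1) (p := 2) (by omega) h1
        refine ⟨(l - 1).primeFactorsList.length, ?_, h2⟩
        conv_rhs => rw [h2]
        exact (Nat.lt_pow_self (by norm_num)).le
      have hj2 : j ≤ 2 := by
        by_contra hcon
        apply h8
        have h1 : 2 ^ 3 ∣ 2 ^ j := Nat.pow_dvd_pow 2 (by omega)
        rw [← hj] at h1
        exact h1.trans hl1n
      have hl5' : l - 1 ≤ 2 ^ 2 := by rw [hj]; exact Nat.pow_le_pow_right (by norm_num) hj2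
      have hl5'' : l = 5 := by
        have h1 : l = 4 ∨ l = 5 := by omega
        rcases h1 with h | h
        · omega
        · exact h
      subst hl5''
      norm_num at hl5
    · exfalso
      apply h8
      refine dvd_trans ?_ hkn
      rw [mul_assoc]
      have h1 : 2 ^ 3 ∣ 2 ^ (2 * f) := Nat.pow_dvd_pow 2 (by have := hf.two_le; omega)
      exact h1.trans (dvd_mul_right _ _)
    · exfalso
      apply h9
      exact (by norm_num : 9 ∣ 5616).trans hkn
  · rcases minimal_dvd hk with h | ⟨f, hf, hf2, rfl⟩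
    · exact absurd ((by norm_num : 3 ∣ 12).trans (h.trans hkn)) h3n
    · exfalso
      have hf3 : 3 ≤ f := by
        have := hf.two_le
        omega
      have h1 : 2 ^ (2 * f) ∣ n := by
        refine dvd_trans ?_ hkn
        rw [mul_assoc]
        exact dvd_mul_right _ _
      have hfv : 2 * f ≤ n.factorization 2 :=
        (Nat.prime_two.pow_dvd_iff_le_factorization hn).mp h1
      have h2f : 2 ^ f - 1 ≠ 1 := by
        have : 2 ^ 3 ≤ 2 ^ f := Nat.pow_le_pow_right (by norm_num) hf3
        omega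
      obtain ⟨s, hs, hsf⟩ := Nat.exists_prime_and_dvd h2f
      have hs2 : s ≠ 2 := by
        rintro rfl
        have h3 : 2 ∣ 2 ^ f := dvd_pow_self 2 hf.ne_zero
        have h4 : 0 < 2 ^ f := pow_pos (by norm_num) f
        omega
      have hos : orderOf ((2 : ℕ) : ZMod s) ∣ f := orderOf_dvd_of Nat.prime_two hsf
      have hos' := Nat.le_of_dvd hf.pos hos
      have hsn : s ∣ n := (hsf.trans (dvd_mul_left _ _)).trans hkn
      have hsm : ¬ s ∣ m := by
        intro h
        have := (c3 s hs h hs2).2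
        omega
      have hsq' : s = q := by
        rw [hnm] at hsn
        rcases (Nat.Prime.dvd_mul hs).mp hsn with h | h
        · rcases (Nat.Prime.dvd_mul hs).mp h with h | h
          · exact absurd ((Nat.prime_dvd_prime_iff_eq hs Nat.prime_two).mp
              (hs.dvd_of_dvd_pow h)) hs2
          · exact (Nat.prime_dvd_prime_iff_eq hs hq).mp h
        · exact absurd h hsm
      subst hsq'
      have haf : a ≤ f := by omega
      -- the exponent of two is at most `a + 1`
      have h5 : 2 ^ (a + 2) ∣ n := (Nat.prime_two.pow_dvd_iff_le_factorization hn).mpr (by omega)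
      have h6 : n = 2 ^ a * (s * m) := by rw [hnm]; ring
      rw [h6, pow_add] at h5
      have h7 := Nat.dvd_of_mul_dvd_mul_left (pow_pos (by norm_num) a) h5
      have h8 : Nat.Coprime (2 ^ 2) s :=
        Nat.Coprime.pow_left 2 ((Nat.coprime_primes Nat.prime_two hs).mpr hs2.symm)
      exact sq_not_dvd Nat.prime_two hsq (Nat.Coprime.dvd_of_dvd_mul_left h8 h7)

theorem almost_iff_sixty (hT : ThompsonTheorem) {n : ℕ} (hn : 0 < n) : AlmostSupersolvable n ↔
    ¬ 60 ∣ n ∧ (TypeA n ∨ TypeB n ∨ TypeC n) := by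
  rw [almost_iff hn]
  constructor
  · rintro ⟨h1, h2⟩
    refine ⟨fun h60 => ?_, h2⟩
    obtain ⟨G, _, hG, hs⟩ := exists_not_solvable_sixty hn.ne' h60
    exact hs (h1 G _ hG)
  · rintro ⟨h1, h2⟩
    refine ⟨fun G _ hG => ?_, h2⟩
    by_contra hs
    have hfin : Finite G := Nat.finite_of_card_ne_zero (by omega)
    obtain ⟨k, hk, hkn⟩ := hT G _ hfin hs
    rw [hG] at hkn
    rcases h2 with h | h | h
    · exact h1 (typeA_solvable hn.ne' h hk hkn)
    · exact typeB_solvable h hk hkn
    · exact typeC_solvable h hk hkn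

end Pool.Agent.Lib.MP_4f0ec0_al
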