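import Mathlib
import Pool.Agent.Lib.MP_4f0ec0_al.Sixty

/-! Every group of order `n` is solvable when `n` is of the second or third type. -/

namespace Pool.Agent.Lib.MP_4f0ec0_al

open Function

lemma hypF_of_sq {S : Type} [Group S] {s : ℕ} (hs : s = Nat.minFac (Nat.card S))
    (hsp : s.Prime) (h : ¬ s ^ 2 ∣ Nat.card S) : HypF s S := by
  intro q hq hqd hne l hl hld hql
  have h1 : s ≤ q := by rw [hs]; exact Nat.minFac_le_of_dvd hq.two_le hqd
  have hl1 : l = 1 := by
    by_contra hcon
    exact h ((Nat.pow_dvd_pow s (by omega)).trans hld)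
  rw [hl1, pow_one] at hql
  have h2 := hsp.two_le
  have := Nat.le_of_dvd (by omega) hql
  omega

/-- No nonabelian simple group has order dividing `n` if the smallest prime factor always
satisfies the hypothesis. -/
lemma solvable_of_hypF {n : ℕ} (hn : n ≠ 0)
    (h : ∀ (S : Type) (_ : Group S), Nat.card S ∣ n → (Nat.minFac (Nat.card S)).Prime →
      HypF (Nat.minFac (Nat.card S)) S) (G : Type) [Group G] (hG : Nat.card G ∣ n) :
    Group.IsSolvable G := by
  by_contra hns
  have hGfin : Finite G := Nat.finite_of_card_ne_zero (fun h0 => hn (by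
    rw [h0] at hG
    exact Nat.eq_zero_of_zero_dvd hG))
  obtain ⟨S, hSg, hS, hSd⟩ := exists_simple_dvd G hns
  have hSfin : Finite S := hS.1
  have hSne : Nat.card S ≠ 1 := by
    intro h
    obtain ⟨-, -, a, b, hab⟩ := hS
    have : Subsingleton S := (Nat.card_eq_one_iff_unique.mp h).1
    exact hab (Subsingleton.elim _ _)
  have hp : (Nat.minFac (Nat.card S)).Prime := Nat.minFac_prime hSne
  have hfp : Fact (Nat.minFac (Nat.card S)).Prime := ⟨hp⟩
  exact no_simple (h S _ (hSd.trans hG) hp) (Nat.minFac_dvd _)
    (fun A _ f x => hS.hom_trivial (fun a b => mul_comm a b) f x)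

lemma sq_dvd_cases {a b t : ℕ} (ht : t.Prime) (h : Nat.Coprime t a) (hd : t ^ 2 ∣ a * b) :
    t ^ 2 ∣ b := Nat.Coprime.dvd_of_dvd_mul_left (Nat.Coprime.pow_left 2 h) hd

theorem typeB_sol {n : ℕ} (hB : TypeB n) (G : Type) [Group G] (hG : Nat.card G ∣ n)
    (hn : n ≠ 0) : Group.IsSolvable G := by
  obtain ⟨p, q, m, hp, hq, hqp, hqp2, h32, hnm, c1, c2, c3, c4⟩ := hB
  have hpq := ne_of_dvd_sub hp hqp
  have hsq := cyc_squarefree c1
  have hqltp : q < p := by
    have := Nat.le_of_dvd (by have := hp.two_le; omega) hqp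
    have := hp.two_le
    omega
  have hcpq : Nat.Coprime q p := (Nat.coprime_primes hq hp).mpr hpq.symm
  refine solvable_of_hypF hn ?_ G hG
  intro S _ hS hs
  set s := Nat.minFac (Nat.card S) with hsdef
  have hsS : s ∣ Nat.card S := Nat.minFac_dvd _
  have hsn : s ∣ n := hsS.trans hS
  by_cases hsp : s = p
  · intro u hu hud hne l hl hld hul
    have h1 : s ≤ u := Nat.minFac_le_of_dvd hu.two_le hud
    have hun : u ∣ n := hud.trans hS
    have huq : u ≠ q := by
      rintro rfl
      omega
    have hum : u ∣ m := by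
      rw [hnm] at hun
      rcases (Nat.Prime.dvd_mul hu).mp hun with h | h
      · rcases (Nat.Prime.dvd_mul hu).mp h with h | h
        · exact absurd ((Nat.prime_dvd_prime_iff_eq hu hp).mp (hu.dvd_of_dvd_pow h)) (by
            rw [← hsp]; exact hne)
        · exact absurd ((Nat.prime_dvd_prime_iff_eq hu hq).mp (hu.dvd_of_dvd_pow h)) huq
      · exact h
    have hlq : l ≤ q := by
      have h2 : p ^ l ∣ p ^ q * (q ^ 2 * m) := by
        rw [← mul_assoc, ← hnm, ← hsp]
        exact hld.trans hS
      apply le_of_pow_dvd hp _ h2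
      intro h3
      rcases (Nat.Prime.dvd_mul hp).mp h3 with h | h
      · exact hpq ((Nat.prime_dvd_prime_iff_eq hp hq).mp (hp.dvd_of_dvd_pow h))
      · exact c2 h
    have h3 := (lt_orderOf_iff hp hu (by rw [← hsp]; exact hne)).mp (c4 u hu hum).2 l hl hlq
    rw [hsp] at hul
    exact h3 hul
  · by_cases hsq' : s = q
    · intro u hu hud hne l hl hld hul
      have h1 : s ≤ u := Nat.minFac_le_of_dvd hu.two_le hud
      have hl2 : l ≤ 2 := by
        by_contra hcon
        have h2 : q ^ 3 ∣ n := by
          rw [hsq'] at hld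
          exact (Nat.pow_dvd_pow q (by omega)).trans (hld.trans hS)
        rw [hnm] at h2
        have e1 : p ^ q * q ^ 2 * m = q ^ 2 * (p ^ q * m) := by ring
        have e2 : q ^ 3 = q ^ 2 * q := by ring
        rw [e1, e2] at h2
        have h3 := Nat.dvd_of_mul_dvd_mul_left (pow_pos hq.pos 2) h2
        rcases (Nat.Prime.dvd_mul hq).mp h3 with h | h
        · exact hpq ((Nat.prime_dvd_prime_iff_eq hq hp).mp (hq.dvd_of_dvd_pow h)).symm
        · exact c3 h
      rw [hsq'] at hul h1 hne
      have hq2 := hq.two_le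
      have hnl : ¬ u ∣ q - 1 := by
        intro h
        have := Nat.le_of_dvd (by omega) h
        omega
      have hl' : l = 2 := by
        by_contra hcon
        have h2 : l = 1 := by omega
        rw [h2, pow_one] at hul
        exact hnl hul
      subst hl'
      have e1 : q ^ 2 - 1 = (q - 1) * (q + 1) := by
        obtain ⟨c, rfl⟩ : ∃ c, q = c + 1 := ⟨q - 1, by omega⟩
        have : (c + 1) ^ 2 = c * (c + 1 + 1) + 1 := by ring
        rw [this, Nat.add_sub_cancel, Nat.add_sub_cancel]
      rw [e1] at hul
      rcases (Nat.Prime.dvd_mul hu).mp hul with h | h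
      · exact hnl h
      · have h3 := Nat.le_of_dvd (by omega) h
        have h4 : u = q + 1 := by omega
        have hq2' : q = 2 := by
          rcases hq.eq_two_or_odd with h5 | h5
          · exact h5
          · exfalso
            rcases hu.eq_two_or_odd with h6 | h6 <;> omega
        subst hq2'
        subst h4
        have hun : 2 + 1 ∣ n := hud.trans hS
        rw [hnm] at hun
        rcases (Nat.Prime.dvd_mul hu).mp hun with h | h
        · rcases (Nat.Prime.dvd_mul hu).mp h with h | h
          · have := (Nat.prime_dvd_prime_iff_eq hu hp).mp (hu.dvd_of_dvd_pow h)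
            exact h32 ⟨this.symm, rfl⟩
          · norm_num at h
        · have h5 := (c4 _ hu h).2
          have h6 : orderOf (p : ZMod (2 + 1)) ∣ 2 := by
            apply orderOf_dvd_of hp
            have h7 : p % 3 ≠ 0 := by
              intro h8
              have h9 := (Nat.prime_dvd_prime_iff_eq Nat.prime_three hp).mp
                (Nat.dvd_of_mod_eq_zero h8)
              exact h32 ⟨h9.symm, rfl⟩
            have h8 : p ^ 2 % 3 = 1 := by
              rw [pow_two, Nat.mul_mod]
              have : p % 3 = 1 ∨ p % 3 = 2 := by omega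
              rcases this with h | h <;> rw [h]
            have : 0 < p ^ 2 := pow_pos hp.pos 2
            omega
          have := Nat.le_of_dvd two_pos h6
          omega
    · apply hypF_of_sq hsdef hs
      intro h2
      have h3 : s ^ 2 ∣ p ^ q * q ^ 2 * m := by
        rw [← hnm]
        exact h2.trans hS
      have h4 := sq_dvd_cases hs (Nat.Coprime.mul_right
        (Nat.Coprime.pow_right _ ((Nat.coprime_primes hs hp).mpr hsp))
        (Nat.Coprime.pow_right _ ((Nat.coprime_primes hs hq).mpr hsq'))) h3
      exact sq_not_dvd hs hsq h4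

theorem typeC_sol {n : ℕ} (hC : TypeC n) (G : Type) [Group G] (hG : Nat.card G ∣ n)
    (hn : n ≠ 0) : Group.IsSolvable G := by
  obtain ⟨p, q, r, m, hp, hq, hr, hqr, hqp, hrp, hnm, c1, c2, c3, c4, c5⟩ := hC
  have hpq := ne_of_dvd_sub hp hqp
  have hpr := ne_of_dvd_sub hp hrp
  have hrq := ne_of_dvd_sub hr hqr
  have hsq := cyc_squarefree c1
  have hp2 := hp.two_le
  have hqltp : q < p := by
    have := Nat.le_of_dvd (by omega) hqp
    omega
  have hrltp : r < p := by
    have := Nat.le_of_dvd (by omega) hrp
    omega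
  refine solvable_of_hypF hn ?_ G hG
  intro S _ hS hs
  set s := Nat.minFac (Nat.card S) with hsdef
  by_cases hsp : s = p
  · intro u hu hud hne l hl hld hul
    have h1 : s ≤ u := Nat.minFac_le_of_dvd hu.two_le hud
    have hun : u ∣ n := hud.trans hS
    have hum : u ∣ m := by
      rw [hnm] at hun
      rcases (Nat.Prime.dvd_mul hu).mp hun with h | h
      · rcases (Nat.Prime.dvd_mul hu).mp h with h | h
        · rcases (Nat.Prime.dvd_mul hu).mp h with h | h
          · exact absurd ((Nat.prime_dvd_prime_iff_eq hu hp).mp (hu.dvd_of_dvd_pow h)) (by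
              rw [← hsp]; exact hne)
          · have := (Nat.prime_dvd_prime_iff_eq hu hr).mp h
            omega
        · have := (Nat.prime_dvd_prime_iff_eq hu hq).mp h
          omega
      · exact h
    have hlq : l ≤ q := by
      have h2 : p ^ l ∣ p ^ q * (r * q * m) := by
        have e1 : p ^ q * (r * q * m) = n := by rw [hnm]; ring
        rw [e1, ← hsp]
        exact hld.trans hS
      apply le_of_pow_dvd hp _ h2
      intro h3
      rcases (Nat.Prime.dvd_mul hp).mp h3 with h | h
      · rcases (Nat.Prime.dvd_mul hp).mp h with h | h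
        · exact hpr ((Nat.prime_dvd_prime_iff_eq hp hr).mp h)
        · exact hpq ((Nat.prime_dvd_prime_iff_eq hp hq).mp h)
      · exact c2 h
    have h3 := (lt_orderOf_iff hp hu (by rw [← hsp]; exact hne)).mp (c5 u hu hum).2 l hl hlq
    rw [hsp] at hul
    exact h3 hul
  · apply hypF_of_sq hsdef hs
    intro h2
    have h3 : s ^ 2 ∣ p ^ q * (r * q * m) := by
      have e1 : p ^ q * (r * q * m) = n := by rw [hnm]; ring
      rw [e1]
      exact h2.trans hS
    have h4 := sq_dvd_cases hs (Nat.Coprime.pow_right _ ((Nat.coprime_primes hs hp).mpr hsp)) h3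
    -- the squarefree part
    have hsqf : Squarefree (r * q * m) := by
      rw [Nat.squarefree_mul_iff, Nat.squarefree_mul_iff]
      refine ⟨?_, ⟨(Nat.coprime_primes hr hq).mpr hrq, hr.prime.squarefree,
        hq.prime.squarefree⟩, hsq⟩
      exact Nat.Coprime.mul_left ((Nat.Prime.coprime_iff_not_dvd hr).mpr c4)
        ((Nat.Prime.coprime_iff_not_dvd hq).mpr c3)
    exact sq_not_dvd hs hsqf h4

end Pool.Agent.Lib.MP_4f0ec0_al
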