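import Mathlib
import Pool.Agent.Lib.MP_4f0ec0_al.SolBC

/-! Local analysis, part 1: general lemmas. -/

namespace Pool.Agent.Lib.MP_4f0ec0_al

open Function Subgroup

/-- `R` is invariant under conjugation by the elements of `N`. -/
def Inv {G : Type} [Group G] (N R : Subgroup G) : Prop := ∀ g ∈ N, ∀ x ∈ R, g * x * g⁻¹ ∈ R

section

variable {G : Type} [Group G] [Finite G]

lemma exists_prime_inv (N : Subgroup G) (hsol : Group.IsSolvable N) (B : Subgroup G) (hBN : B ≤ N)
    (hB : B ≠ ⊥) (hinv : Inv N B) : ∃ R : Subgroup G, R ≤ B ∧ R ≠ ⊥ ∧ Inv N R ∧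
      ∃ r k, r.Prime ∧ 0 < k ∧ Nat.card R = r ^ k := by
  have hBn : (B.subgroupOf N).Normal := by
    refine ⟨fun x hx g => ?_⟩
    exact hinv g g.2 x hx
  have hBne : B.subgroupOf N ≠ ⊥ := by
    intro h
    apply hB
    rw [eq_bot_iff]
    intro x hx
    have h1 : (⟨x, hBN hx⟩ : N) ∈ B.subgroupOf N := hx
    rw [h, Subgroup.mem_bot] at h1
    exact congrArg Subtype.val h1
  obtain ⟨R', hR', hle⟩ := exists_minNormal_le (B.subgroupOf N) hBn hBne
  obtain ⟨r, hr, -, k, hk, hc⟩ := hR'.exponent hsol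
  refine ⟨R'.map N.subtype, ?_, ?_, ?_, r, k, hr, hk, ?_⟩
  · rintro _ ⟨x, hx, rfl⟩
    exact hle hx
  · intro h
    rw [Subgroup.map_eq_bot_iff, Subgroup.ker_subtype] at h
    exact hR'.2.1 (le_bot_iff.mp h)
  · rintro g hg _ ⟨x, hx, rfl⟩
    exact ⟨_, hR'.1.conj_mem x hx ⟨g, hg⟩, rfl⟩
  · rw [← hc]
    exact Subgroup.card_map_of_injective (Subgroup.subtype_injective _)

/-- With a squarefree order the invariant subgroup has prime order. -/
lemma exists_prime_inv' (N : Subgroup G) (hsol : Group.IsSolvable N) (B : Subgroup G) (hBN : B ≤ N)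
    (hB : B ≠ ⊥) (hinv : Inv N B) (hsq : Squarefree (Nat.card B)) :
    ∃ R : Subgroup G, R ≤ B ∧ Inv N R ∧ (Nat.card R).Prime := by
  obtain ⟨R, h1, h2, h3, r, k, hr, hk, hc⟩ := exists_prime_inv N hsol B hBN hB hinv
  refine ⟨R, h1, h3, ?_⟩
  have h4 : k = 1 := by
    by_contra hcon
    have h5 : r ^ 2 ∣ Nat.card B := by
      refine (Nat.pow_dvd_pow r (by omega)).trans (?_ : r ^ k ∣ _)
      rw [← hc]
      exact Subgroup.card_dvd_of_le h1
    exact sq_not_dvd hr hsq h5
  rw [hc, h4, pow_one]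
  exact hr

lemma burnside_simple (hS : NonabSimple G) {u : ℕ} [hu : Fact u.Prime] (hud : u ∣ Nat.card G)
    (P : Sylow u G) : ¬ normalizer (P : Set G) ≤ centralizer (P : Set G) := by
  intro h
  have h1 := MonoidHom.ker_transferSylow_isComplement' P h
  have h2 : ∀ a b : P, a * b = b * a := fun a b => Subtype.ext (h (le_normalizer b.2) a a.2)
  have h3 : (MonoidHom.transferSylow P h).ker = ⊤ := by
    rw [eq_top_iff]
    intro x _
    exact hS.hom_trivial h2 _ x
  have h4 := h1.card_mul_card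
  rw [h3, Subgroup.card_top] at h4
  have h5 : Nat.card (P : Subgroup G) = 1 := by
    have : 0 < Nat.card G := Nat.card_pos
    nlinarith [Nat.card_pos (α := (P : Subgroup G))]
  have h6 := P.card_eq_multiplicity
  rw [h5] at h6
  have h7 : 0 < (Nat.card G).factorization u :=
    hu.out.factorization_pos_of_dvd Nat.card_pos.ne' hud
  have := Nat.one_lt_pow h7.ne' hu.out.one_lt
  omega

/-- Powers of an element leaving a subgroup invariant. -/
lemma conj_pow_mem {H : Subgroup G} {y : G} (h : ∀ x ∈ H, y * x * y⁻¹ ∈ H) (n : ℕ) :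
    ∀ x ∈ H, y ^ n * x * (y ^ n)⁻¹ ∈ H := by
  induction n with
  | zero => simp
  | succ n ih =>
    intro x hx
    have h1 := h _ (ih x hx)
    have : y ^ (n + 1) * x * (y ^ (n + 1))⁻¹ = y * (y ^ n * x * (y ^ n)⁻¹) * y⁻¹ := by
      rw [pow_succ']
      group
    rwa [this]

lemma conj_inv_mem {H : Subgroup G} {y : G} (h : ∀ x ∈ H, y * x * y⁻¹ ∈ H) :
    ∀ x ∈ H, y⁻¹ * x * y ∈ H := by
  intro x hx
  have h1 := conj_pow_mem h (orderOf y - 1) x hx
  have h2 : y ^ (orderOf y - 1) = y⁻¹ := by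
    apply eq_inv_of_mul_eq_one_left
    rw [← pow_succ, Nat.sub_add_cancel (orderOf_pos y), pow_orderOf_eq_one]
  rwa [h2, inv_inv] at h1

/-- Conjugation as an automorphism of an invariant subgroup. -/
noncomputable def cjA (H : Subgroup G) (y : G) (h : ∀ x ∈ H, y * x * y⁻¹ ∈ H) : MulAut H where
  toFun z := ⟨y * z * y⁻¹, h z z.2⟩
  invFun z := ⟨y⁻¹ * z * y, conj_inv_mem h z z.2⟩
  left_inv z := Subtype.ext (by
    show y⁻¹ * (y * z * y⁻¹) * y = z
    group)
  right_inv z := Subtype.ext (by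
    show y * (y⁻¹ * z * y) * y⁻¹ = z
    group)
  map_mul' z w := Subtype.ext (by
    show y * (z * w) * y⁻¹ = (y * z * y⁻¹) * (y * w * y⁻¹)
    group)

lemma cjA_apply (H : Subgroup G) (y : G) (h : ∀ x ∈ H, y * x * y⁻¹ ∈ H) (z : H) :
    ((cjA H y h z : H) : G) = y * z * y⁻¹ := rfl

lemma cjA_pow (H : Subgroup G) (y : G) (h : ∀ x ∈ H, y * x * y⁻¹ ∈ H) (n : ℕ) (z : H) :
    (((cjA H y h ^ n) z : H) : G) = y ^ n * z * (y ^ n)⁻¹ := by
  induction n with
  | zero => simp
  | succ n ih =>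
    rw [pow_succ', MulAut.mul_apply, cjA_apply, ih, pow_succ']
    group

/-- The centralizer of an element in a subgroup. -/
def cent (H : Subgroup G) (y : G) : Subgroup G := H ⊓ centralizer {y}

omit [Finite G] in
lemma mem_cent {H : Subgroup G} {y x : G} : x ∈ cent H y ↔ x ∈ H ∧ y * x = x * y := by
  rw [cent, Subgroup.mem_inf, Subgroup.mem_centralizer_iff]
  simp

lemma card_mod_fix (H : Subgroup G) (y : G) (h : ∀ x ∈ H, y * x * y⁻¹ ∈ H) {q : ℕ}
    [hq : Fact q.Prime] (hy : ∃ k, y ^ q ^ k = 1) :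
    Nat.card H ≡ Nat.card (cent H y) [MOD q] := by
  set α := cjA H y h with hα
  obtain ⟨k, hk⟩ := hy
  have hαk : α ^ q ^ k = 1 := by
    ext z
    rw [hα, cjA_pow, hk]
    simp
  have hpg : IsPGroup q (Subgroup.zpowers α) := by
    rintro ⟨β, hβ⟩
    obtain ⟨i, rfl⟩ := Subgroup.mem_zpowers_iff.mp hβ
    refine ⟨k, Subtype.ext ?_⟩
    show (α ^ i) ^ q ^ k = 1
    rw [← zpow_natCast, ← zpow_mul, mul_comm, zpow_mul, zpow_natCast, hαk, one_zpow]
  have h1 := hpg.card_modEq_card_fixedPoints H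
  have h2 : Nat.card (MulAction.fixedPoints (Subgroup.zpowers α) H) = Nat.card (cent H y) := by
    refine Nat.card_congr ⟨fun x => ⟨x.1, ?_⟩, fun x => ⟨⟨x.1, (mem_cent.mp x.2).1⟩, ?_⟩,
      fun x => rfl, fun x => rfl⟩
    · rw [mem_cent]
      refine ⟨x.1.2, ?_⟩
      have h3 := x.2 ⟨α, Subgroup.mem_zpowers α⟩
      have h4 : y * (x.1 : G) * y⁻¹ = x.1 := congrArg (fun z : H => (z : G)) h3
      calc y * (x.1 : G) = y * (x.1 : G) * y⁻¹ * y := by group
        _ = x.1 * y := by rw [h4]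
    · rintro ⟨β, hβ⟩
      obtain ⟨i, rfl⟩ := Subgroup.mem_zpowers_iff.mp hβ
      have h3 : α ∈ MulAction.stabilizer (MulAut H) (⟨x.1, (mem_cent.mp x.2).1⟩ : H) := by
        rw [MulAction.mem_stabilizer_iff]
        apply Subtype.ext
        show y * (x.1 : G) * y⁻¹ = x.1
        rw [(mem_cent.mp x.2).2, mul_inv_cancel_right]
      have h4 := Subgroup.zpow_mem _ h3 i
      exact h4
  rw [h2] at h1
  exact h1

/-- The order of the group induced on a subgroup of prime order. -/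
lemma range_dvd_sub_one (R : Subgroup G) {r : ℕ} (hr : r.Prime) (hR : Nat.card R = r) :
    Nat.card (R.normalizerMonoidHom).range ∣ r - 1 := by
  have hc : IsCyclic R := by
    have : Fact r.Prime := ⟨hr⟩
    exact isCyclic_of_prime_card hR
  have h1 := Subgroup.card_subgroup_dvd_card (R.normalizerMonoidHom).range
  rwa [IsCyclic.card_mulAut, hR, Nat.totient_prime hr] at h1

omit [Finite G] in
lemma index_ker_normalizer (R : Subgroup G) :
    Nat.card (R.normalizerMonoidHom).range = (centralizer (R : Set G)).relIndex (normalizer (R : Set G)) := by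
  rw [← Subgroup.index_ker, normalizerMonoidHom_ker]
  rfl

end

/-- A minimal nonsolvable section. -/
lemma exists_min_simple {n : ℕ} (hn : n ≠ 0) (h : ∃ (G : Type) (_ : Group G), Nat.card G ∣ n ∧
    ¬ Group.IsSolvable G) : ∃ (G : Type) (_ : Group G), NonabSimple G ∧ Nat.card G ∣ n ∧
      ∀ H : Subgroup G, H ≠ ⊤ → Group.IsSolvable H := by
  classical
  have hex : ∃ d, d ∣ n ∧ ∃ (G : Type) (_ : Group G), Nat.card G = d ∧ ¬ Group.IsSolvable G := by
    obtain ⟨G, _, h1, h2⟩ := h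
    exact ⟨_, h1, G, _, rfl, h2⟩
  obtain ⟨hd, G, _, hG, hGs⟩ := Nat.find_spec hex
  have hmin := fun (j : ℕ) (hj : j < Nat.find hex) => Nat.find_min hex hj
  set d := Nat.find hex with hdd
  have hd0 : d ≠ 0 := fun h0 => hn (by
    rw [h0] at hd
    exact Nat.eq_zero_of_zero_dvd hd)
  have hGfin : Finite G := Nat.finite_of_card_ne_zero (by rw [hG]; exact hd0)
  obtain ⟨S, _, hS, hSd⟩ := exists_simple_dvd G hGs
  rw [hG] at hSd
  have hSfin : Finite S := hS.1
  have hSc : Nat.card S = d := by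
    by_contra hne
    have h1 := Nat.le_of_dvd (Nat.pos_of_ne_zero hd0) hSd
    exact hmin _ (lt_of_le_of_ne h1 hne) ⟨hSd.trans hd, S, _, rfl, hS.not_solvable⟩
  refine ⟨S, _, hS, hSd.trans hd, fun H hH => ?_⟩
  by_contra hHs
  have h1 : Nat.card H < d := by
    rw [← hSc]
    apply lt_of_le_of_ne (Subgroup.card_le_card_group H)
    intro h2
    exact hH (Subgroup.eq_top_of_card_eq H h2)
  exact hmin _ h1 ⟨((Subgroup.card_subgroup_dvd_card H).trans hSd |>.trans hd), H, _, rfl, hHs⟩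

end Pool.Agent.Lib.MP_4f0ec0_al
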