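import Mathlib
import Pool.Agent.Lib.MP_4f0ec0_al.Loc1

/-! Local analysis, part 2: the configuration. -/

namespace Pool.Agent.Lib.MP_4f0ec0_al

open Function Subgroup

/-- The configuration: a minimal simple group of order `p ^ a * (q * M)`. -/
structure Cfg (G : Type) [Group G] (p q a M : ℕ) : Prop where
  simple : NonabSimple G
  sol : ∀ H : Subgroup G, H ≠ ⊤ → Group.IsSolvable H
  hp : p.Prime
  hq : q.Prime
  hpq : p < q
  ha : 2 ≤ a
  card : Nat.card G = p ^ a * (q * M)
  sqf : Squarefree (q * M)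
  pM : ¬ p ∣ M
  cop : Nat.Coprime M (Nat.totient M)
  ord1 : q ∣ p ^ a - 1
  ord2 : ∀ l, 0 < l → l < a → ¬ q ∣ p ^ l - 1
  ht : ∀ t, t.Prime → t ∣ M → ∀ l, 0 < l → l ≤ a → ¬ t ∣ p ^ l - 1
  hqt : ∀ t, t.Prime → t ∣ M → ¬ q ∣ t - 1

lemma not_cop_totient {m s t : ℕ} (hm : Nat.Coprime m (Nat.totient m)) (hs : s.Prime)
    (ht : t.Prime) (hsm : s ∣ m) (htm : t ∣ m) : ¬ s ∣ t - 1 := by
  intro h
  have h1 : Nat.totient t ∣ Nat.totient m := Nat.totient_dvd_of_dvd htm
  rw [Nat.totient_prime ht] at h1
  have h2 := Nat.dvd_gcd hsm (h.trans h1)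
  rw [hm] at h2
  exact hs.one_lt.ne' (Nat.dvd_one.mp h2)

/-- If no prime divisor of `|G|` divides `t - 1` then a Sylow subgroup of order `t` is not
possible in a simple group. -/
lemma no_prime_sylow {G : Type} [Group G] [Finite G] (hS : NonabSimple G) {t : ℕ} (ht : t.Prime)
    (htG : t ∣ Nat.card G) (ht2 : ¬ t ^ 2 ∣ Nat.card G)
    (h : ∀ w, w.Prime → w ∣ Nat.card G → ¬ w ∣ t - 1) : False := by
  have hft : Fact t.Prime := ⟨ht⟩
  obtain ⟨T⟩ : Nonempty (Sylow t G) := inferInstance
  have hTc : Nat.card (T : Subgroup G) = t := by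
    rw [T.card_eq_multiplicity]
    have h1 : (Nat.card G).factorization t = 1 := by
      have h2 : 1 ≤ (Nat.card G).factorization t :=
        (ht.pow_dvd_iff_le_factorization Nat.card_pos.ne').mp (by rwa [pow_one])
      have h3 : ¬ 2 ≤ (Nat.card G).factorization t := fun h =>
        ht2 ((ht.pow_dvd_iff_le_factorization Nat.card_pos.ne').mpr h)
      omega
    rw [h1, pow_one]
  apply burnside_simple hS htG T
  have h1 := range_dvd_sub_one (T : Subgroup G) ht hTc
  have h2 : Nat.card ((T : Subgroup G).normalizerMonoidHom).range = 1 := by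
    by_contra hne
    obtain ⟨w, hw, hwd⟩ := Nat.exists_prime_and_dvd hne
    refine h w hw ?_ (hwd.trans h1)
    exact (hwd.trans (Subgroup.card_range_dvd _)).trans (Subgroup.card_subgroup_dvd_card _)
  rw [index_ker_normalizer, Subgroup.relIndex_eq_one] at h2
  exact h2

theorem exists_cfg {n : ℕ} (hn : n ≠ 0) (hA : TypeA n) {G : Type} [Group G]
    (hS : NonabSimple G) (hGn : Nat.card G ∣ n)
    (hsol : ∀ H : Subgroup G, H ≠ ⊤ → Group.IsSolvable H) :
    ∃ p q a M, Cfg G p q a M ∧ q * M ∣ n := by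
  classical
  obtain ⟨p, q, a, m, hp, hq, hpq, ha, ho, hnm, c1, c2, c3, c4⟩ := hA
  obtain ⟨ho1, ho2⟩ := (orderOf_eq_iff' hp hq hpq ha).mp ho
  have hGfin : Finite G := hS.1
  have hGne : Nat.card G ≠ 1 := by
    intro h
    obtain ⟨-, -, x, y, hxy⟩ := hS
    have : Subsingleton G := (Nat.card_eq_one_iff_unique.mp h).1
    exact hxy (Subsingleton.elim _ _)
  have hgpos : 0 < Nat.card G := Nat.card_pos
  have hhom : ∀ (A : Type) (_ : CommGroup A) (f : G →* A), ∀ x, f x = 1 := fun A _ f x =>
    hS.hom_trivial (fun a b => mul_comm a b) f x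
  have hfp : Fact p.Prime := ⟨hp⟩
  have hsqm := cyc_squarefree c1
  have hqm : Nat.Coprime q m := (Nat.Prime.coprime_iff_not_dvd hq).mpr c2
  have hsqqm : Squarefree (q * m) := by
    rw [Nat.squarefree_mul_iff]
    exact ⟨hqm, hq.prime.squarefree, hsqm⟩
  have hgdvd : Nat.card G ∣ p ^ a * (q * m) := by rw [← mul_assoc, ← hnm]; exact hGn
  have hsq_of : ∀ s, s.Prime → s ≠ p → ¬ s ^ 2 ∣ Nat.card G := by
    intro s hs hsp h
    exact sq_not_dvd hs hsqqm (sq_dvd_cases hs
      (Nat.Coprime.pow_right _ ((Nat.coprime_primes hs hp).mpr hsp)) (h.trans hgdvd))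
  -- the smallest prime factor is `p`
  have hs : (Nat.minFac (Nat.card G)).Prime := Nat.minFac_prime hGne
  have hsp : Nat.minFac (Nat.card G) = p := by
    by_contra hne
    have hfs : Fact (Nat.minFac (Nat.card G)).Prime := ⟨hs⟩
    exact no_simple (hypF_of_sq rfl hs (hsq_of _ hs hne)) (Nat.minFac_dvd _) hhom
  have hpG : p ∣ Nat.card G := hsp ▸ Nat.minFac_dvd _
  -- a `p`-subgroup with an automorphism of order `q`
  obtain ⟨D, hDp, hD⟩ : ∃ D : Subgroup G, IsPGroup p D ∧
      ¬ ∃ j, Nat.card (D.normalizerMonoidHom).range = p ^ j := by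
    by_contra hcon
    push Not at hcon
    exact no_simple' (fun D hD => by
      obtain ⟨j, hj⟩ := hcon D hD
      exact ⟨j, hj⟩) hpG hhom
  obtain ⟨u, hu, hud, hup⟩ : ∃ u, u.Prime ∧ u ∣ Nat.card (D.normalizerMonoidHom).range ∧ u ≠ p := by
    by_contra hcon
    push Not at hcon
    apply hD
    have hAfin : Finite (MulAut D) := finite_mulAut' D
    exact isPGroup_of_primes hcon
  have hfu : Fact u.Prime := ⟨hu⟩
  have huND : u ∣ Nat.card (normalizer (D : Set G)) := hud.trans (Subgroup.card_range_dvd _)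
  have huG : u ∣ Nat.card G := huND.trans (Subgroup.card_subgroup_dvd_card _)
  obtain ⟨j, hj⟩ := IsPGroup.iff_card.mp hDp
  have hjG : p ^ j ∣ Nat.card G := hj ▸ Subgroup.card_subgroup_dvd_card D
  have hAfin : Finite (MulAut D) := finite_mulAut' D
  obtain ⟨α, hα⟩ := exists_prime_orderOf_dvd_card' u hud
  obtain ⟨l, hl1, hl2, hl3⟩ := exists_dvd_of_aut hp hu (Ne.symm hup) hj (α : MulAut D) (by
    rw [Subgroup.orderOf_coe, hα])
  have hum : ¬ u ∣ m := by
    intro h
    have h1 := (lt_orderOf_iff hp hu hup).mp (c3 u hu h hup).2 l hl1 (by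
      apply (hl2).trans
      exact (hp.pow_dvd_iff_le_factorization hn).mp (hjG.trans hGn))
    exact h1 hl3
  have huq : u = q := by
    have h1 := huG.trans hgdvd
    rcases (Nat.Prime.dvd_mul hu).mp h1 with h | h
    · exact absurd ((Nat.prime_dvd_prime_iff_eq hu hp).mp (hu.dvd_of_dvd_pow h)) hup
    · rcases (Nat.Prime.dvd_mul hu).mp h with h | h
      · exact (Nat.prime_dvd_prime_iff_eq hu hq).mp h
      · exact absurd h hum
  subst huq
  have hal : a ≤ l := by
    by_contra hcon
    exact ho2 l hl1 (by omega) hl3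
  have haj : a ≤ j := hal.trans hl2
  have hpltq : p < u := by
    have := Nat.minFac_le_of_dvd hu.two_le huG
    omega
  -- the exponent of `p`
  have hpa1 : ¬ p ^ (a + 1) ∣ Nat.card G := by
    intro hcon
    have hpm : p ∣ m := by
      have h1 := hcon.trans hgdvd
      rw [pow_succ] at h1
      have h2 := Nat.dvd_of_mul_dvd_mul_left (pow_pos hp.pos a) h1
      rcases (Nat.Prime.dvd_mul hp).mp h2 with h | h
      · exact absurd ((Nat.prime_dvd_prime_iff_eq hp hu).mp h) hpq
      · exact h
    -- all primes are `p` or `q`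
    have hprimes : ∀ t, t.Prime → t ∣ Nat.card G → t = p ∨ t = u := by
      intro t ht htG
      by_contra hcon2
      push Not at hcon2
      obtain ⟨htp, htu⟩ := hcon2
      have htm : t ∣ m := by
        have h1 := htG.trans hgdvd
        rcases (Nat.Prime.dvd_mul ht).mp h1 with h | h
        · exact absurd ((Nat.prime_dvd_prime_iff_eq ht hp).mp (ht.dvd_of_dvd_pow h)) htp
        · rcases (Nat.Prime.dvd_mul ht).mp h with h | h
          · exact absurd ((Nat.prime_dvd_prime_iff_eq ht hu).mp h) htu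
          · exact h
      apply no_prime_sylow hS ht htG (hsq_of t ht htp)
      intro w hw hwG hwt
      have h1 := hwG.trans hgdvd
      rcases (Nat.Prime.dvd_mul hw).mp h1 with h | h
      · have := (Nat.prime_dvd_prime_iff_eq hw hp).mp (hw.dvd_of_dvd_pow h)
        subst this
        exact not_cop_totient c1 hw ht hpm htm hwt
      · rcases (Nat.Prime.dvd_mul hw).mp h with h | h
        · have := (Nat.prime_dvd_prime_iff_eq hw hu).mp h
          subst this
          exact (c3 t ht htm htp).1 hwt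
        · exact not_cop_totient c1 hw ht h htm hwt
    -- the order is `p ^ (a + 1) * q`
    have hcard : Nat.card G = p ^ (a + 1) * u := by
      apply Nat.dvd_antisymm
      · rw [Nat.dvd_iff_prime_pow_dvd_dvd]
        intro t k ht htk
        rcases Nat.eq_zero_or_pos k with h0 | h0
        · rw [h0, pow_zero]; exact one_dvd _
        · have htG : t ∣ Nat.card G := (dvd_pow_self t h0.ne').trans htk
          rcases hprimes t ht htG with h | h
          · subst h
            have hk : k ≤ a + 1 := by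
              by_contra hcon3
              have h1 : t ^ (a + 2) ∣ t ^ a * (u * m) :=
                (Nat.pow_dvd_pow t (by omega)).trans (htk.trans hgdvd)
              rw [pow_add] at h1
              have h2 := Nat.dvd_of_mul_dvd_mul_left (pow_pos ht.pos a) h1
              exact sq_not_dvd ht hsqqm h2
            exact (Nat.pow_dvd_pow t hk).trans (dvd_mul_right _ _)
          · subst h
            have hk : k ≤ 1 := by
              by_contra hcon3
              exact hsq_of t ht hup ((Nat.pow_dvd_pow t (by omega)).trans htk)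
            have : k = 1 := by omega
            rw [this, pow_one]
            exact dvd_mul_left _ _
      · exact Nat.Coprime.mul_dvd_of_dvd_of_dvd
          (Nat.Coprime.pow_left _ ((Nat.coprime_primes hp hu).mpr hpq)) hcon huG
    -- `D` is normal in a Sylow subgroup
    obtain ⟨P, hP⟩ := hDp.exists_le_sylow
    have hPc : Nat.card (P : Subgroup G) = p ^ (a + 1) := by
      rw [P.card_eq_multiplicity, hcard, Nat.factorization_mul (pow_pos hp.pos _).ne' hu.ne_zero,
        Finsupp.add_apply, hp.factorization_pow, hu.factorization]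
      simp [hpq.symm]
    have hPN : (P : Subgroup G) ≤ normalizer (D : Set G) := by
      by_cases hPD : (P : Subgroup G) ≤ D
      · exact hPD.trans le_normalizer
      · obtain ⟨x, hxP, hxD, hxN⟩ := exists_normalizing P D hP hPD
        set I : Subgroup G := (P : Subgroup G) ⊓ normalizer (D : Set G) with hI
        have hDI : D ≤ I := le_inf hP le_normalizer
        have h1 : Nat.card D < Nat.card I := by
          apply lt_of_le_of_ne (Subgroup.card_le_of_le hDI)
          intro h5
          apply hxD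
          rw [Subgroup.eq_of_le_of_card_ge hDI h5.ge]
          exact ⟨hxP, hxN⟩
        have h2 : Nat.card I ∣ p ^ (a + 1) := hPc ▸ Subgroup.card_dvd_of_le inf_le_left
        obtain ⟨i, hi1, hi2⟩ := (Nat.dvd_prime_pow hp).mp h2
        rw [hj, hi2] at h1
        have h3 := (Nat.pow_lt_pow_iff_right hp.one_lt).mp h1
        have h4 : i = a + 1 := by omega
        have h5 : I = (P : Subgroup G) := by
          apply Subgroup.eq_of_le_of_card_ge inf_le_left
          rw [hPc, hi2, h4]
        exact inf_eq_left.mp h5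
    have hND : normalizer (D : Set G) = ⊤ := by
      apply Subgroup.eq_top_of_card_eq
      apply Nat.dvd_antisymm (Subgroup.card_subgroup_dvd_card _)
      rw [hcard]
      apply Nat.Coprime.mul_dvd_of_dvd_of_dvd
        (Nat.Coprime.pow_left _ ((Nat.coprime_primes hp hu).mpr hpq)) _ huND
      rw [← hPc]
      exact Subgroup.card_dvd_of_le hPN
    have hDn : D.Normal := Subgroup.normalizer_eq_top_iff.mp hND
    rcases hS.2.1.eq_bot_or_eq_top_of_normal D hDn with h | h
    · rw [h, Subgroup.card_bot] at hj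
      have := Nat.one_lt_pow (by omega : j ≠ 0) hp.one_lt
      omega
    · have h1 : Nat.card D = Nat.card G := by rw [h, Subgroup.card_top]
      rw [hj] at h1
      have h2 : u ∣ p ^ j := by rw [h1]; exact huG
      exact hup ((Nat.prime_dvd_prime_iff_eq hu hp).mp (hu.dvd_of_dvd_pow h2))
  -- conclusion
  have hpaG : p ^ a ∣ Nat.card G := (Nat.pow_dvd_pow p haj).trans hjG
  obtain ⟨g1, hg1⟩ := hpaG
  have hpg1 : ¬ p ∣ g1 := by
    rintro ⟨c, rfl⟩
    apply hpa1
    rw [hg1, pow_succ]
    exact Nat.mul_dvd_mul_left _ (dvd_mul_right _ _)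
  have hug1 : u ∣ g1 := by
    rw [hg1] at huG
    rcases (Nat.Prime.dvd_mul hu).mp huG with h | h
    · exact absurd ((Nat.prime_dvd_prime_iff_eq hu hp).mp (hu.dvd_of_dvd_pow h)) hup
    · exact h
  obtain ⟨M, rfl⟩ := hug1
  have h1 : u * M ∣ u * m := by
    rw [hg1] at hgdvd
    exact Nat.dvd_of_mul_dvd_mul_left (pow_pos hp.pos a) hgdvd
  have hMm : M ∣ m := Nat.dvd_of_mul_dvd_mul_left hu.pos h1
  have hpM : ¬ p ∣ M := fun h => hpg1 (h.mul_left u)
  have htp : ∀ t, t ∣ M → t ≠ p := by
    rintro t h rfl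
    exact hpM h
  refine ⟨p, u, a, M, ⟨hS, hsol, hp, hu, hpltq, ha, hg1, hsqqm.squarefree_of_dvd h1, hpM,
    cyc_of_dvd c1 hMm, ho1, ho2, ?_, ?_⟩, ?_⟩
  · intro t ht htM l' hl' hl'a
    have h2 := (lt_orderOf_iff hp ht (htp t htM)).mp (c3 t ht (htM.trans hMm) (htp t htM)).2 l' hl'
    apply h2
    apply hl'a.trans
    apply (hp.pow_dvd_iff_le_factorization hn).mp
    rw [hnm, mul_assoc]
    exact dvd_mul_right _ _
  · intro t ht htM
    exact (c3 t ht (htM.trans hMm) (htp t htM)).1
  · exact (by rw [hg1]; exact dvd_mul_left _ _ : u * M ∣ Nat.card G).trans hGn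

end Pool.Agent.Lib.MP_4f0ec0_al
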