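import Mathlib
import Pool.Agent.Lib.MP_4f0ec0_al.Loc2

/-! Local analysis, part 3: the normalizer of a Sylow `p`-subgroup. -/

set_option linter.unusedSectionVars false

namespace Pool.Agent.Lib.MP_4f0ec0_al

open Function Subgroup

/-- Automorphisms of a group of prime order form a cyclic group. -/
lemma isCyclic_mulAut_prime {R : Type} [Group R] [Finite R] (hR : (Nat.card R).Prime) :
    IsCyclic (MulAut R) := by
  have : Fact (Nat.card R).Prime := ⟨hR⟩
  have hc : IsCyclic R := isCyclic_of_prime_card (p := Nat.card R) rfl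
  have e := IsCyclic.mulAutMulEquiv R
  exact isCyclic_of_surjective e.symm e.symm.surjective

section

variable {G : Type} [Group G] [Finite G]

/-- The homomorphism from `H` to the automorphism group of an invariant subgroup. -/
noncomputable def actHom (H R : Subgroup G) (h : Inv H R) : H →* MulAut R where
  toFun y := cjA R y (h y y.2)
  map_one' := by
    ext z
    rw [cjA_apply]
    simp
  map_mul' y z := by
    ext w
    rw [cjA_apply, MulAut.mul_apply, cjA_apply, cjA_apply]
    simp only [Subgroup.coe_mul]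
    group

lemma actHom_eq_one {H R : Subgroup G} (h : Inv H R) (y : H) :
    actHom H R h y = 1 ↔ ∀ x ∈ R, (y : G) * x = x * y := by
  constructor
  · intro h1 x hx
    have h2 : (y : G) * x * (y : G)⁻¹ = x :=
      congrArg (fun a : MulAut R => ((a ⟨x, hx⟩ : R) : G)) h1
    calc (y : G) * x = y * x * (y : G)⁻¹ * y := by group
      _ = x * y := by rw [h2]
  · intro h1
    ext z
    show (y : G) * z * (y : G)⁻¹ = z
    rw [h1 z z.2, mul_inv_cancel_right]

lemma sup_zpowers_pgroup {q : ℕ} (R : Subgroup G) (hR : IsPGroup q R) (y : G)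
    (hy : ∃ k, y ^ q ^ k = 1) (h : ∀ x ∈ R, y * x * y⁻¹ ∈ R) :
    IsPGroup q (R ⊔ Subgroup.zpowers y : Subgroup G) := by
  apply IsPGroup.to_sup_of_normal_left' hR
  · rintro ⟨z, hz⟩
    obtain ⟨i, rfl⟩ := Subgroup.mem_zpowers_iff.mp hz
    obtain ⟨k, hk⟩ := hy
    refine ⟨k, Subtype.ext ?_⟩
    show (y ^ i) ^ q ^ k = 1
    rw [← zpow_natCast, ← zpow_mul, mul_comm, zpow_mul, zpow_natCast, hk, one_zpow]
  · rw [Subgroup.zpowers_le, Subgroup.mem_normalizer_iff]
    intro x
    refine ⟨fun hx => h x hx, fun hx => ?_⟩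
    have h1 := conj_inv_mem h _ hx
    have h2 : y⁻¹ * (y * x * y⁻¹) * y = x := by group
    rwa [h2] at h1

lemma mem_normalizer_of {R : Subgroup G} {y : G} (h : ∀ x ∈ R, y * x * y⁻¹ ∈ R) :
    y ∈ normalizer (R : Set G) := by
  rw [Subgroup.mem_normalizer_iff]
  intro x
  refine ⟨fun hx => h x hx, fun hx => ?_⟩
  have h1 := conj_inv_mem h _ hx
  have h2 : y⁻¹ * (y * x * y⁻¹) * y = x := by group
  rwa [h2] at h1

end

namespace Cfg

variable {G : Type} [Group G] [Finite G] {p q a M : ℕ}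

omit [Finite G] in
lemma M_ne (h : Cfg G p q a M) : M ≠ 0 := by
  rintro rfl
  have := h.sqf
  rw [mul_zero] at this
  exact not_squarefree_zero this

omit [Finite G] in
lemma p_ne_q (h : Cfg G p q a M) : p ≠ q := h.hpq.ne

omit [Finite G] in
lemma cop_p (h : Cfg G p q a M) : Nat.Coprime p (q * M) :=
  Nat.Coprime.mul_right ((Nat.coprime_primes h.hp h.hq).mpr h.p_ne_q)
    ((Nat.Prime.coprime_iff_not_dvd h.hp).mpr h.pM)

lemma not_p_succ (h : Cfg G p q a M) : ¬ p ^ (a + 1) ∣ Nat.card G := by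
  rw [h.card, pow_succ]
  intro hd
  have h1 := Nat.dvd_of_mul_dvd_mul_left (pow_pos h.hp.pos a) hd
  have h2 := Nat.dvd_gcd dvd_rfl h1
  rw [h.cop_p] at h2
  exact h.hp.one_lt.ne' (Nat.dvd_one.mp h2)

lemma dvd_qM (h : Cfg G p q a M) {u : ℕ} (hu : u.Prime) (hup : u ≠ p) (hd : u ∣ Nat.card G) :
    u = q ∨ u ∣ M := by
  rw [h.card] at hd
  rcases (Nat.Prime.dvd_mul hu).mp hd with h1 | h1
  · exact absurd ((Nat.prime_dvd_prime_iff_eq hu h.hp).mp (hu.dvd_of_dvd_pow h1)) hup
  · rcases (Nat.Prime.dvd_mul hu).mp h1 with h2 | h2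
    · exact Or.inl ((Nat.prime_dvd_prime_iff_eq hu h.hq).mp h2)
    · exact Or.inr h2

lemma not_sq (h : Cfg G p q a M) {u : ℕ} (hu : u.Prime) (hup : u ≠ p) :
    ¬ u ^ 2 ∣ Nat.card G := by
  intro hd
  rw [h.card] at hd
  exact sq_not_dvd hu h.sqf (sq_dvd_cases hu
    (Nat.Coprime.pow_right _ ((Nat.coprime_primes hu h.hp).mpr hup)) hd)

lemma q_dvd (h : Cfg G p q a M) : q ∣ Nat.card G := by
  rw [h.card]
  exact (dvd_mul_right _ _).mul_left _

lemma sqf_of_cop (h : Cfg G p q a M) {B : Subgroup G} (hB : ¬ p ∣ Nat.card B) :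
    Nat.card B ∣ q * M := by
  have h1 := Subgroup.card_subgroup_dvd_card B
  rw [h.card] at h1
  exact Nat.Coprime.dvd_of_dvd_mul_left
    (Nat.Coprime.pow_right _ ((Nat.Prime.coprime_iff_not_dvd h.hp).mpr hB).symm) h1

lemma card_sylow (h : Cfg G p q a M) [Fact p.Prime] (P : Sylow p G) :
    Nat.card (P : Subgroup G) = p ^ a := by
  rw [P.card_eq_multiplicity]
  congr 1
  have h1 : a ≤ (Nat.card G).factorization p :=
    (h.hp.pow_dvd_iff_le_factorization Nat.card_pos.ne').mp (by rw [h.card]; exact dvd_mul_right _ _)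
  have h2 : ¬ a + 1 ≤ (Nat.card G).factorization p := fun h3 =>
    h.not_p_succ ((h.hp.pow_dvd_iff_le_factorization Nat.card_pos.ne').mpr h3)
  omega

/-- A Sylow `p`-subgroup with an automorphism of order `q` induced by its normalizer. -/
lemma exists_sylow (h : Cfg G p q a M) [Fact p.Prime] : ∃ P : Sylow p G,
    q ∣ Nat.card ((P : Subgroup G).normalizerMonoidHom).range := by
  have hhom : ∀ (A : Type) (_ : CommGroup A) (f : G →* A), ∀ x, f x = 1 := fun A _ f x =>
    h.simple.hom_trivial (fun a b => mul_comm a b) f x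
  have hpG : p ∣ Nat.card G := by
    rw [h.card]
    exact (dvd_pow_self p (by have := h.ha; omega)).mul_right _
  obtain ⟨D, hDp, hD⟩ : ∃ D : Subgroup G, IsPGroup p D ∧
      ¬ ∃ j, Nat.card (D.normalizerMonoidHom).range = p ^ j := by
    by_contra hcon
    push Not at hcon
    exact no_simple' (fun D hD => by
      obtain ⟨j, hj⟩ := hcon D hD
      exact ⟨j, hj⟩) hpG hhom
  have hAfin : Finite (MulAut D) := finite_mulAut' D
  obtain ⟨u, hu, hud, hup⟩ : ∃ u, u.Prime ∧ u ∣ Nat.card (D.normalizerMonoidHom).range ∧ u ≠ p := by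
    by_contra hcon
    push Not at hcon
    exact hD (isPGroup_of_primes hcon)
  have hfu : Fact u.Prime := ⟨hu⟩
  have huG : u ∣ Nat.card G :=
    (hud.trans (Subgroup.card_range_dvd _)).trans (Subgroup.card_subgroup_dvd_card _)
  obtain ⟨j, hj⟩ := IsPGroup.iff_card.mp hDp
  have hja : j ≤ a := by
    by_contra hcon
    exact h.not_p_succ ((Nat.pow_dvd_pow p (by omega)).trans
      (hj ▸ Subgroup.card_subgroup_dvd_card D))
  obtain ⟨α, hα⟩ := exists_prime_orderOf_dvd_card' u hud
  obtain ⟨l, hl1, hl2, hl3⟩ := exists_dvd_of_aut h.hp hu (Ne.symm hup) hj (α : MulAut D) (by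
    rw [Subgroup.orderOf_coe, hα])
  rcases h.dvd_qM hu hup huG with h1 | h1
  · subst h1
    have hal : a ≤ l := by
      by_contra hcon
      exact h.ord2 l hl1 (by omega) hl3
    have hja' : j = a := by omega
    obtain ⟨P, hP⟩ := hDp.exists_le_sylow
    have hDP : (P : Subgroup G) = D := by
      symm
      apply Subgroup.eq_of_le_of_card_ge hP
      rw [h.card_sylow P, hj, hja']
    refine ⟨P, ?_⟩
    rw [hDP]
    exact hud
  · exact absurd hl3 (h.ht u hu h1 l hl1 (hl2.trans hja))

lemma pow_sub_one (h : Cfg G p q a M) {i : ℕ} (hi : i ≤ a) (hd : p ^ i ≡ 1 [MOD q]) :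
    i = 0 ∨ i = a := by
  rcases Nat.eq_zero_or_pos i with h0 | h0
  · exact Or.inl h0
  · right
    by_contra hne
    apply h.ord2 i h0 (by omega)
    exact (Nat.modEq_iff_dvd' (pow_pos h.hp.pos i)).mp hd.symm

lemma pow_a_mod (h : Cfg G p q a M) : p ^ a ≡ 1 [MOD q] :=
  ((Nat.modEq_iff_dvd' (pow_pos h.hp.pos a)).mpr h.ord1).symm

section sylow

variable (h : Cfg G p q a M) [hfp : Fact p.Prime] (P : Sylow p G)
  (hPq : q ∣ Nat.card ((P : Subgroup G).normalizerMonoidHom).range)

include h hPq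

/-- Elements of order `q` in the normalizer act without fixed points. -/
lemma fpf {y : G} (hy : ∀ x ∈ (P : Subgroup G), y * x * y⁻¹ ∈ (P : Subgroup G))
    (hyo : orderOf y = q) {x : G} (hx : x ∈ P) (hyx : y * x = x * y) : x = 1 := by
  have hfq : Fact q.Prime := ⟨h.hq⟩
  have h1 := card_mod_fix (P : Subgroup G) y hy (q := q) ⟨1, by rw [pow_one, ← hyo, pow_orderOf_eq_one]⟩
  rw [h.card_sylow P] at h1
  have hle : cent (P : Subgroup G) y ≤ P := inf_le_left
  have h2 : Nat.card (cent (P : Subgroup G) y) ∣ p ^ a := by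
    rw [← h.card_sylow P]
    exact Subgroup.card_dvd_of_le hle
  obtain ⟨i, hi1, hi2⟩ := (Nat.dvd_prime_pow h.hp).mp h2
  rw [hi2] at h1
  rcases h.pow_sub_one hi1 (h1.symm.trans h.pow_a_mod) with h3 | h3
  · rw [h3, pow_zero] at hi2
    have h4 : x ∈ cent (P : Subgroup G) y := mem_cent.mpr ⟨hx, hyx⟩
    rw [Subgroup.card_eq_one.mp hi2, Subgroup.mem_bot] at h4
    exact h4
  · exfalso
    -- `y` centralizes `P`
    have h4 : cent (P : Subgroup G) y = P := by
      apply Subgroup.eq_of_le_of_card_ge hle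
      rw [hi2, h3, h.card_sylow P]
    have h5 : (⟨y, mem_normalizer_of hy⟩ : normalizer ((P : Subgroup G) : Set G)) ∈
        ((P : Subgroup G).normalizerMonoidHom).ker := by
      rw [normalizerMonoidHom_ker, Subgroup.mem_subgroupOf, Subgroup.mem_centralizer_iff]
      intro z hz
      have h6 : z ∈ cent (P : Subgroup G) y := by rw [h4]; exact hz
      exact (mem_cent.mp h6).2.symm
    have h6 : q ∣ Nat.card ((P : Subgroup G).normalizerMonoidHom).ker := by
      have h7 := orderOf_dvd_natCard (⟨_, h5⟩ : ((P : Subgroup G).normalizerMonoidHom).ker)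
      rwa [Subgroup.orderOf_mk, Subgroup.orderOf_mk, hyo] at h7
    have h7 : q ^ 2 ∣ Nat.card (normalizer ((P : Subgroup G) : Set G)) := by
      rw [← Subgroup.card_mul_index ((P : Subgroup G).normalizerMonoidHom).ker, Subgroup.index_ker,
        pow_two]
      exact Nat.mul_dvd_mul h6 hPq
    exact h.not_sq h.hq h.p_ne_q.symm (h7.trans (Subgroup.card_subgroup_dvd_card _))

lemma exists_y : ∃ y : G, (∀ x ∈ (P : Subgroup G), y * x * y⁻¹ ∈ (P : Subgroup G)) ∧
    orderOf y = q := by
  have hfq : Fact q.Prime := ⟨h.hq⟩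
  obtain ⟨y, hy⟩ := exists_prime_orderOf_dvd_card'
    (G := normalizer ((P : Subgroup G) : Set G)) q (hPq.trans (Subgroup.card_range_dvd _))
  refine ⟨y, fun x hx => (Subgroup.mem_normalizer_iff.mp y.2 x).mp hx, ?_⟩
  rw [Subgroup.orderOf_coe, hy]

lemma inv_sub {y : G} (hy : ∀ x ∈ (P : Subgroup G), y * x * y⁻¹ ∈ (P : Subgroup G))
    (hyo : orderOf y = q) {H : Subgroup G} (hH : H ≤ P) (hyH : ∀ x ∈ H, y * x * y⁻¹ ∈ H) :
    H = ⊥ ∨ H = P := by
  have hfq : Fact q.Prime := ⟨h.hq⟩
  have h1 := card_mod_fix H y hyH (q := q) ⟨1, by rw [pow_one, ← hyo, pow_orderOf_eq_one]⟩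
  have h2 : cent H y = ⊥ := by
    rw [Subgroup.eq_bot_iff_forall]
    intro x hx
    obtain ⟨hx1, hx2⟩ := mem_cent.mp hx
    exact h.fpf P hPq hy hyo (hH hx1) hx2
  rw [h2, Subgroup.card_bot] at h1
  have h3 : Nat.card H ∣ p ^ a := by
    rw [← h.card_sylow P]
    exact Subgroup.card_dvd_of_le hH
  obtain ⟨i, hi1, hi2⟩ := (Nat.dvd_prime_pow h.hp).mp h3
  rw [hi2] at h1
  rcases h.pow_sub_one hi1 h1 with h4 | h4
  · left
    rw [h4, pow_zero] at hi2
    exact Subgroup.card_eq_one.mp hi2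
  · right
    apply Subgroup.eq_of_le_of_card_ge hH
    rw [hi2, h4, h.card_sylow P]

lemma P_ne_bot : (P : Subgroup G) ≠ ⊥ := by
  intro h0
  have h1 := h.card_sylow P
  rw [h0, Subgroup.card_bot] at h1
  have := Nat.one_lt_pow (by have := h.ha; omega : a ≠ 0) h.hp.one_lt
  omega

lemma P_comm : ∀ x ∈ (P : Subgroup G), ∀ z ∈ (P : Subgroup G), x * z = z * x := by
  obtain ⟨y, hy, hyo⟩ := h.exists_y P hPq
  set Z : Subgroup G := (Subgroup.center (P : Subgroup G)).map (P : Subgroup G).subtype with hZ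
  have hZP : Z ≤ P := Subgroup.map_subtype_le _
  have hZy : ∀ x ∈ Z, y * x * y⁻¹ ∈ Z := by
    rintro _ ⟨x, hx, rfl⟩
    refine ⟨cjA (P : Subgroup G) y hy x, ?_, rfl⟩
    have hx' := Subgroup.mem_center_iff.mp hx
    show cjA (P : Subgroup G) y hy x ∈ Subgroup.center (P : Subgroup G)
    rw [Subgroup.mem_center_iff]
    intro g
    have h1 := congrArg (cjA (P : Subgroup G) y hy) (hx' ((cjA (P : Subgroup G) y hy).symm g))
    rw [map_mul, map_mul, MulEquiv.apply_symm_apply] at h1
    exact h1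
  rcases h.inv_sub P hPq hy hyo hZP hZy with h1 | h1
  · exfalso
    have hnt : Nontrivial (P : Subgroup G) := by
      rw [Subgroup.nontrivial_iff_ne_bot]
      exact h.P_ne_bot P hPq
    have h2 : Nontrivial (Subgroup.center (P : Subgroup G)) := P.2.center_nontrivial
    rw [Subgroup.nontrivial_iff_ne_bot] at h2
    rw [hZ, Subgroup.map_eq_bot_iff, Subgroup.ker_subtype] at h1
    exact h2 (le_bot_iff.mp h1)
  · intro x hx z hz
    have hx' : x ∈ Z := by rw [h1]; exact hx
    obtain ⟨x', hx', rfl⟩ := hx'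
    have h3 := Subgroup.mem_center_iff.mp hx' ⟨z, hz⟩
    exact congrArg Subtype.val h3.symm

lemma P_exp : ∀ x ∈ (P : Subgroup G), x ^ p = 1 := by
  obtain ⟨y, hy, hyo⟩ := h.exists_y P hPq
  have hc := h.P_comm P hPq
  let H : Subgroup G :=
    { carrier := {x | x ∈ P ∧ x ^ p = 1}
      mul_mem' := by
        rintro u v ⟨hu, hu'⟩ ⟨hv, hv'⟩
        refine ⟨mul_mem hu hv, ?_⟩
        have h1 : Commute u v := hc u hu v hv
        rw [h1.mul_pow, hu', hv', one_mul]
      one_mem' := ⟨one_mem _, one_pow _⟩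
      inv_mem' := by
        rintro u ⟨hu, hu'⟩
        exact ⟨inv_mem hu, by rw [inv_pow, hu', inv_one]⟩ }
  have hHP : H ≤ P := fun x hx => hx.1
  rcases h.inv_sub P hPq hy hyo hHP (by
    rintro x ⟨hx, hx'⟩
    exact ⟨hy x hx, by rw [conj_pow, hx', mul_one, mul_inv_cancel]⟩) with h1 | h1
  · exfalso
    have h2 : p ∣ Nat.card (P : Subgroup G) := by
      rw [h.card_sylow P]
      exact dvd_pow_self p (by have := h.ha; omega)
    obtain ⟨x, hx⟩ := exists_prime_orderOf_dvd_card' (G := (P : Subgroup G)) p h2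
    have h3 : (x : G) ∈ H := ⟨x.2, by
      have h4 : x ^ p = 1 := orderOf_dvd_iff_pow_eq_one.mp (dvd_of_eq hx)
      exact congrArg Subtype.val h4⟩
    rw [h1, Subgroup.mem_bot] at h3
    have h4 : x = 1 := Subtype.ext h3
    rw [h4, orderOf_one] at hx
    exact h.hp.one_lt.ne hx
  · intro x hx
    have : x ∈ H := by rw [h1]; exact hx
    exact this.2

/-- The centralizer in `P` of an invariant subgroup of prime order is not trivial. -/
lemma index_cent_le (R : Subgroup G) (hR : (Nat.card R).Prime) (hPR : Inv (P : Subgroup G) R) :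
    ((centralizer (R : Set G)).subgroupOf (P : Subgroup G)).index ∣ p := by
  have hcyc := isCyclic_mulAut_prime hR
  have h1 : (centralizer (R : Set G)).subgroupOf (P : Subgroup G) = (actHom _ R hPR).ker := by
    ext x
    rw [MonoidHom.mem_ker, actHom_eq_one, Subgroup.mem_subgroupOf, Subgroup.mem_centralizer_iff]
    constructor
    · intro h1 z hz
      exact (h1 z hz).symm
    · intro h1 z hz
      exact (h1 z hz).symm
  have hAfin : Finite (MulAut R) := finite_mulAut' R
  rw [h1, Subgroup.index_ker]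
  have hcr : IsCyclic (actHom _ R hPR).range := inferInstance
  obtain ⟨g, hg⟩ := hcr.exists_generator
  rw [← orderOf_eq_card_of_forall_mem_zpowers hg]
  apply orderOf_dvd_of_pow_eq_one
  obtain ⟨_, ⟨x, rfl⟩⟩ := g
  apply Subtype.ext
  show (actHom _ R hPR x) ^ p = 1
  rw [← map_pow]
  have h2 : x ^ p = 1 := Subtype.ext (h.P_exp P hPq x x.2)
  rw [h2, map_one]

lemma cent_ne_bot (R : Subgroup G) (hR : (Nat.card R).Prime) (hPR : Inv (P : Subgroup G) R) :
    (P : Subgroup G) ⊓ centralizer (R : Set G) ≠ ⊥ := by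
  intro h0
  have h1 := h.index_cent_le P hPq R hR hPR
  have h2 : (centralizer (R : Set G)).subgroupOf (P : Subgroup G) = ⊥ := by
    rw [Subgroup.subgroupOf_eq_bot, disjoint_comm, disjoint_iff]
    exact h0
  rw [h2, Subgroup.index_bot, h.card_sylow P] at h1
  have h3 := Nat.le_of_dvd h.hp.pos h1
  have h4 : p ^ 2 ≤ p ^ a := Nat.pow_le_pow_right h.hp.pos h.ha
  have h5 := h.hp.two_le
  nlinarith

/-- No subgroup of prime order different from `p` is normalized by `P` and an element of
order `q` of the normalizer of `P`. -/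
lemma noR {y : G} (hy : ∀ x ∈ (P : Subgroup G), y * x * y⁻¹ ∈ (P : Subgroup G))
    (hyo : orderOf y = q) (R : Subgroup G) (hR : (Nat.card R).Prime) (hRp : Nat.card R ≠ p)
    (hPR : Inv (P : Subgroup G) R) (hyR : ∀ x ∈ R, y * x * y⁻¹ ∈ R) : False := by
  set u := Nat.card R with hu
  have hfu : Fact u.Prime := ⟨hR⟩
  have hRC : (P : Subgroup G) ≤ centralizer (R : Set G) := by
    rcases h.inv_sub P hPq hy hyo (H := (P : Subgroup G) ⊓ centralizer (R : Set G)) inf_le_left (by
      rintro x ⟨hx, hx'⟩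
      refine ⟨hy x hx, ?_⟩
      have h1 := Subgroup.mem_centralizer_iff.mp hx'
      show y * x * y⁻¹ ∈ centralizer (R : Set G)
      rw [Subgroup.mem_centralizer_iff]
      intro r hr
      have h2 := h1 _ (conj_inv_mem hyR r hr)
      calc r * (y * x * y⁻¹) = y * ((y⁻¹ * r * y) * x) * y⁻¹ := by group
        _ = y * (x * (y⁻¹ * r * y)) * y⁻¹ := by rw [h2]
        _ = y * x * y⁻¹ * r := by group) with h1 | h1
    · exact absurd h1 (h.cent_ne_bot P hPq R hR hPR)
    · exact inf_eq_left.mp h1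
  have huG : u ∣ Nat.card G := Subgroup.card_subgroup_dvd_card R
  have hRsyl : ∀ w, w.Prime → w ∣ Nat.card (R.normalizerMonoidHom).range → w ∣ u - 1 := fun w _ hw =>
    hw.trans (range_dvd_sub_one R hR rfl)
  rcases h.dvd_qM hR hRp huG with h1 | h1
  · -- `R` has order `q`
    have hfq : Fact q.Prime := ⟨h.hq⟩
    have hyq : ∃ k, y ^ q ^ k = 1 := ⟨1, by rw [pow_one, ← hyo, pow_orderOf_eq_one]⟩
    have hyR' : y ∉ R := by
      intro hyR'
      apply h.P_ne_bot P hPq
      rw [Subgroup.eq_bot_iff_forall]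
      intro x hx
      apply h.fpf P hPq hy hyo hx
      exact Subgroup.mem_centralizer_iff.mp (hRC hx) y hyR'
    have hRq : IsPGroup q R := IsPGroup.of_card (n := 1) (by rw [pow_one, ← h1])
    have h2 := sup_zpowers_pgroup R hRq y hyq hyR
    obtain ⟨k, hk⟩ := IsPGroup.iff_card.mp h2
    have h3 : Nat.card R < Nat.card (R ⊔ Subgroup.zpowers y : Subgroup G) := by
      apply lt_of_le_of_ne (Subgroup.card_le_of_le le_sup_left)
      intro h4
      apply hyR'
      rw [Subgroup.eq_of_le_of_card_ge (le_sup_left : R ≤ R ⊔ Subgroup.zpowers y) h4.ge]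
      exact Subgroup.mem_sup_right (Subgroup.mem_zpowers y)
    rw [hk, ← hu, h1] at h3
    have h4 : q ^ 1 < q ^ k := by rwa [pow_one]
    have h5 := (Nat.pow_lt_pow_iff_right h.hq.one_lt).mp h4
    apply h.not_sq h.hq h.p_ne_q.symm
    refine (Nat.pow_dvd_pow q h5).trans ?_
    rw [← hk]
    exact Subgroup.card_subgroup_dvd_card _
  · -- `R` has order dividing `M`
    have h2 : Nat.card (R.normalizerMonoidHom).range ≠ 1 := by
      intro h3
      rw [index_ker_normalizer, Subgroup.relIndex_eq_one] at h3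
      let T : Sylow u G := Sylow.ofCard R (by
        have h4 : (Nat.card G).factorization u = 1 := by
          have h5 : 1 ≤ (Nat.card G).factorization u :=
            (hR.pow_dvd_iff_le_factorization Nat.card_pos.ne').mp (by rwa [pow_one])
          have h6 : ¬ 2 ≤ (Nat.card G).factorization u := fun h7 =>
            h.not_sq hR hRp ((hR.pow_dvd_iff_le_factorization Nat.card_pos.ne').mpr h7)
          omega
        rw [h4, pow_one])
      exact burnside_simple h.simple huG T h3
    obtain ⟨w, hw, hwd⟩ := Nat.exists_prime_and_dvd h2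
    have hwG : w ∣ Nat.card G :=
      (hwd.trans (Subgroup.card_range_dvd _)).trans (Subgroup.card_subgroup_dvd_card _)
    have hwu := hRsyl w hw hwd
    have hwp : w = p := by
      by_contra hne
      rcases h.dvd_qM hw hne hwG with h3 | h3
      · rw [h3] at hwu
        exact h.hqt u hR h1 hwu
      · exact not_cop_totient h.cop hw hR h3 h1 hwu
    subst hwp
    apply h.not_p_succ
    refine dvd_trans ?_ (Subgroup.card_subgroup_dvd_card (normalizer (R : Set G)))
    rw [← Subgroup.card_mul_index (R.normalizerMonoidHom).ker, Subgroup.index_ker, pow_succ]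
    apply Nat.mul_dvd_mul _ hwd
    rw [← h.card_sylow P, normalizerMonoidHom_ker]
    have hPN : (P : Subgroup G) ≤ normalizer (R : Set G) := fun x hx =>
      mem_normalizer_of (hPR x hx)
    have h3 : Nat.card ((P : Subgroup G).subgroupOf (normalizer (R : Set G))) =
        Nat.card (P : Subgroup G) := Nat.card_congr (Subgroup.subgroupOfEquivOfLe hPN).toEquiv
    rw [← h3]
    apply Subgroup.card_dvd_of_le
    intro x hx
    exact hRC hx

end sylow

end Cfg

end Pool.Agent.Lib.MP_4f0ec0_al
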