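import Mathlib
import Pool.Agent.Lib.MP_4f0ec0_al.Loc3

/-! Local analysis, part 4: centralizers of `p`-elements. -/

set_option linter.unusedSectionVars false

namespace Pool.Agent.Lib.MP_4f0ec0_al

open Function Subgroup
open scoped Pointwise

section

variable {G : Type} [Group G] [Finite G]

lemma sylow_conj_in {p : ℕ} [Fact p.Prime] (L : Subgroup G) (P Q : Sylow p G)
    (hP : (P : Subgroup G) ≤ L) (hQ : (Q : Subgroup G) ≤ L) : ∃ h ∈ L, h • P = Q := by
  obtain ⟨k, hk⟩ := MulAction.exists_smul_eq L (P.subtype hP) (Q.subtype hQ)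
  refine ⟨k, k.2, ?_⟩
  have key : ∀ x ∈ (Q : Subgroup G), (k : G)⁻¹ * x * k ∈ (P : Subgroup G) := by
    intro x hx
    have h1 : (⟨x, hQ hx⟩ : L) ∈ Q.subtype hQ := hx
    rw [← hk, mem_smul_sylow] at h1
    exact h1
  symm
  apply Sylow.ext
  apply Subgroup.eq_of_le_of_card_ge
  · intro x hx
    exact (mem_smul_sylow (k : G) P x).mpr (key x hx)
  · have h1 := ((k : G) • P).card_eq_multiplicity
    have h2 := Q.card_eq_multiplicity
    exact (h1.trans h2.symm).le

/-- A subgroup of prime order is a Sylow subgroup if the square of its order does not divide the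
order of the group. -/
noncomputable def sylowOfPrime (R : Subgroup G) [hf : Fact (Nat.card R).Prime]
    (h : ¬ (Nat.card R) ^ 2 ∣ Nat.card G) : Sylow (Nat.card R) G :=
  Sylow.ofCard R (by
    have huG : Nat.card R ∣ Nat.card G := Subgroup.card_subgroup_dvd_card R
    have h4 : (Nat.card G).factorization (Nat.card R) = 1 := by
      have h5 : 1 ≤ (Nat.card G).factorization (Nat.card R) :=
        (hf.out.pow_dvd_iff_le_factorization Nat.card_pos.ne').mp (by rwa [pow_one])
      have h6 : ¬ 2 ≤ (Nat.card G).factorization (Nat.card R) := fun h7 =>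
        h ((hf.out.pow_dvd_iff_le_factorization Nat.card_pos.ne').mpr h7)
      omega
    rw [h4, pow_one])

lemma coe_sylowOfPrime (R : Subgroup G) [hf : Fact (Nat.card R).Prime]
    (h : ¬ (Nat.card R) ^ 2 ∣ Nat.card G) : ((sylowOfPrime R h : Sylow _ G) : Subgroup G) = R := rfl

/-- Conjugacy of subgroups of prime order whose square does not divide `|G|`. -/
lemma prime_conj_in (L R R' : Subgroup G) {u : ℕ} (hu : u.Prime) (hR : Nat.card R = u)
    (hR' : Nat.card R' = u) (h : ¬ u ^ 2 ∣ Nat.card G) (hRL : R ≤ L) (hR'L : R' ≤ L) :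
    ∃ k ∈ L, ∀ x, x ∈ R' ↔ k⁻¹ * x * k ∈ R := by
  have hfu : Fact u.Prime := ⟨hu⟩
  have huG : u ∣ Nat.card G := hR ▸ Subgroup.card_subgroup_dvd_card R
  have h4 : (Nat.card G).factorization u = 1 := by
    have h5 : 1 ≤ (Nat.card G).factorization u :=
      (hu.pow_dvd_iff_le_factorization Nat.card_pos.ne').mp (by rwa [pow_one])
    have h6 : ¬ 2 ≤ (Nat.card G).factorization u := fun h7 =>
      h ((hu.pow_dvd_iff_le_factorization Nat.card_pos.ne').mpr h7)
    omega
  let S : Sylow u G := Sylow.ofCard R (by rw [h4, pow_one, hR])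
  let S' : Sylow u G := Sylow.ofCard R' (by rw [h4, pow_one, hR'])
  obtain ⟨k, hk, hkS⟩ := sylow_conj_in L S S' hRL hR'L
  refine ⟨k, hk, fun x => ?_⟩
  have h1 : x ∈ S' ↔ k⁻¹ * x * k ∈ S := by rw [← hkS, mem_smul_sylow]
  exact h1

lemma one_of_coprime {H K : Type} [Group H] [Group K] [Finite K] (f : H →* K) (z : H) {p k : ℕ}
    (hz : Nat.Coprime (orderOf z) p) (hK : Nat.card K = p ^ k) : f z = 1 := by
  have h1 : orderOf (f z) ∣ orderOf z := orderOf_map_dvd f z
  have h2 : orderOf (f z) ∣ p ^ k := hK ▸ orderOf_dvd_natCard _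
  have h3 := Nat.dvd_gcd h1 h2
  rw [Nat.Coprime.pow_right k hz, Nat.dvd_one, orderOf_eq_one_iff] at h3
  exact h3

/-- Burnside's transfer theorem in a subgroup `C` containing the Sylow subgroup `P`. -/
lemma exists_compl_hom {p : ℕ} [Fact p.Prime] (C : Subgroup G) (P : Sylow p G)
    (hPC : (P : Subgroup G) ≤ C)
    (hN : ∀ n ∈ C, n ∈ normalizer ((P : Subgroup G) : Set G) → ∀ z ∈ (P : Subgroup G),
      z * n = n * z) : ∃ f : C →* (P : Subgroup G).subgroupOf C, ¬ p ∣ Nat.card f.ker ∧
      Nat.card f.ker * Nat.card ((P : Subgroup G).subgroupOf C) = Nat.card C := by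
  have hNC : normalizer ((P.subtype hPC : Subgroup C) : Set C) ≤
      centralizer ((P.subtype hPC : Subgroup C) : Set C) := by
    intro n hn
    have h1 : (n : G) ∈ normalizer ((P : Subgroup G) : Set G) := by
      apply mem_normalizer_of
      intro z hz
      have h2 : (⟨z, hPC hz⟩ : C) ∈ (P.subtype hPC : Subgroup C) := hz
      exact (Subgroup.mem_normalizer_iff.mp hn _).mp h2
    rw [Subgroup.mem_centralizer_iff]
    intro z hz
    apply Subtype.ext
    exact hN n n.2 h1 z hz
  exact ⟨MonoidHom.transferSylow (P.subtype hPC) hNC,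
    MonoidHom.not_dvd_card_ker_transferSylow (P.subtype hPC) hNC,
    (MonoidHom.ker_transferSylow_isComplement' (P.subtype hPC) hNC).card_mul_card⟩

end

namespace Cfg

variable {G : Type} [Group G] [Finite G] {p q a M : ℕ}
variable (h : Cfg G p q a M) [hfp : Fact p.Prime] (P : Sylow p G)
  (hPq : q ∣ Nat.card ((P : Subgroup G).normalizerMonoidHom).range)

include h hPq

lemma normalizer_ne_top : normalizer ((P : Subgroup G) : Set G) ≠ ⊤ := by
  intro h1
  have hn : (P : Subgroup G).Normal := Subgroup.normalizer_eq_top_iff.mp h1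
  rcases h.simple.2.1.eq_bot_or_eq_top_of_normal _ hn with h2 | h2
  · exact h.P_ne_bot P hPq h2
  · have h3 := h.card_sylow P
    rw [h2, Subgroup.card_top] at h3
    have h4 := h.q_dvd
    rw [h3] at h4
    exact h.p_ne_q ((Nat.prime_dvd_prime_iff_eq h.hq h.hp).mp (h.hq.dvd_of_dvd_pow h4)).symm

lemma cent_P : centralizer ((P : Subgroup G) : Set G) = P := by
  set C := centralizer ((P : Subgroup G) : Set G) with hC
  set N := normalizer ((P : Subgroup G) : Set G) with hN
  have hPC : (P : Subgroup G) ≤ C := by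
    intro x hx
    rw [hC, Subgroup.mem_centralizer_iff]
    exact fun z hz => h.P_comm P hPq z hz x hx
  have hmC : ∀ x, x ∈ C ↔ ∀ z ∈ (P : Subgroup G), z * x = x * z := fun x =>
    Subgroup.mem_centralizer_iff
  set R := (P : Subgroup G).subgroupOf C with hR
  have hRc : Nat.card R = p ^ a := by
    rw [← h.card_sylow P]
    exact Nat.card_congr (Subgroup.subgroupOfEquivOfLe hPC).toEquiv
  have hRi : ¬ p ∣ R.index := by
    intro hd
    apply h.not_p_succ
    refine dvd_trans ?_ (Subgroup.card_subgroup_dvd_card C)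
    rw [← Subgroup.card_mul_index R, hRc, pow_succ]
    exact Nat.mul_dvd_mul_left _ hd
  obtain ⟨f, hf⟩ := exists_hom_coprime R (by
    intro g x hx
    apply Subtype.ext
    exact ((hmC g).mp g.2 x hx).symm) (by
    rw [hRc]
    exact Nat.Coprime.pow_left _ ((Nat.Prime.coprime_iff_not_dvd h.hp).mpr hRi))
  -- the kernel
  have hfr : Nat.card f.range = p ^ a := by
    apply Nat.dvd_antisymm
    · rw [← hRc]
      exact Subgroup.card_subgroup_dvd_card f.range
    · rw [← hRc]
      let g : R →* f.range := f.rangeRestrict.comp R.subtype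
      apply Subgroup.card_dvd_of_injective g
      rw [injective_iff_map_eq_one]
      intro x hx
      apply Subtype.ext
      apply hf _ x.2
      exact congrArg Subtype.val hx
  have hker : ¬ p ∣ Nat.card f.ker := by
    intro hd
    apply h.not_p_succ
    refine dvd_trans ?_ (Subgroup.card_subgroup_dvd_card C)
    rw [← Subgroup.card_mul_index f.ker, Subgroup.index_ker, hfr, pow_succ, mul_comm]
    exact Nat.mul_dvd_mul hd dvd_rfl
  set B := f.ker.map C.subtype with hB
  have hBc : Nat.card B = Nat.card f.ker :=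
    Subgroup.card_map_of_injective (Subgroup.subtype_injective _)
  have hBC : B ≤ C := Subgroup.map_subtype_le _
  have hCN : C ≤ N := by
    intro x hx
    apply mem_normalizer_of
    intro z hz
    rw [← (hmC x).mp hx z hz, mul_inv_cancel_right]
    exact hz
  have hBinv : Inv N B := by
    rintro n hn _ ⟨x, hx, rfl⟩
    have hnx : n * (x : G) * n⁻¹ ∈ C := by
      rw [hmC]
      intro z hz
      have hn' : n⁻¹ ∈ N := inv_mem hn
      have h1 : n⁻¹ * z * n ∈ (P : Subgroup G) := by
        have := (Subgroup.mem_normalizer_iff.mp hn' z).mp hz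
        rwa [inv_inv] at this
      have h2 := (hmC x).mp x.2 _ h1
      calc z * (n * (x : G) * n⁻¹) = n * ((n⁻¹ * z * n) * x) * n⁻¹ := by group
        _ = n * (x * (n⁻¹ * z * n)) * n⁻¹ := by rw [h2]
        _ = n * (x : G) * n⁻¹ * z := by group
    refine ⟨⟨_, hnx⟩, ?_, rfl⟩
    show (⟨_, hnx⟩ : C) ∈ f.ker
    rw [MonoidHom.mem_ker]
    apply one_of_coprime f _ (p := p) (k := a) _ hRc
    have h1 : orderOf (⟨n * (x : G) * n⁻¹, hnx⟩ : C) = orderOf x := by
      rw [Subgroup.orderOf_mk, ← Subgroup.orderOf_coe x]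
      exact orderOf_injective (MulAut.conj n).toMonoidHom (MulAut.conj n).injective _
    rw [h1]
    have h2 : orderOf x ∣ Nat.card f.ker := by
      have := orderOf_dvd_natCard (⟨x, hx⟩ : f.ker)
      rwa [Subgroup.orderOf_mk] at this
    exact (Nat.Coprime.coprime_dvd_left h2
      ((Nat.Prime.coprime_iff_not_dvd h.hp).mpr hker).symm)
  obtain ⟨y, hy, hyo⟩ := h.exists_y P hPq
  have hBbot : B = ⊥ := by
    by_contra hne
    have hsq : Squarefree (Nat.card B) := h.sqf.squarefree_of_dvd
      (h.sqf_of_cop (B := B) (by rw [hBc]; exact hker))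
    obtain ⟨R', hR'1, hR'2, hR'3⟩ := exists_prime_inv' N
      (h.sol N (h.normalizer_ne_top P hPq)) B (hBC.trans hCN) hne hBinv hsq
    refine h.noR P hPq hy hyo R' hR'3 ?_ (fun g hg => hR'2 g (le_normalizer hg))
      (hR'2 y (mem_normalizer_of hy))
    intro h1
    apply hker
    rw [← hBc, ← h1]
    exact Subgroup.card_dvd_of_le hR'1
  have hkb : f.ker = ⊥ := by
    rw [hB, Subgroup.map_eq_bot_iff, Subgroup.ker_subtype] at hBbot
    exact le_bot_iff.mp hBbot
  have hinj := (MonoidHom.ker_eq_bot_iff f).mp hkb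
  symm
  apply Subgroup.eq_of_le_of_card_ge hPC
  rw [h.card_sylow P, ← hRc]
  exact Nat.card_le_card_of_injective f hinj

lemma card_normalizer : Nat.card (normalizer ((P : Subgroup G) : Set G)) = p ^ a * q := by
  rw [← Subgroup.card_mul_index ((P : Subgroup G).normalizerMonoidHom).ker, Subgroup.index_ker,
    normalizerMonoidHom_ker, h.cent_P P hPq]
  have h1 : Nat.card ((P : Subgroup G).subgroupOf (normalizer ((P : Subgroup G) : Set G))) =
      p ^ a := by
    rw [← h.card_sylow P]
    exact Nat.card_congr (Subgroup.subgroupOfEquivOfLe le_normalizer).toEquiv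
  rw [h1]
  congr 1
  apply Nat.dvd_antisymm _ hPq
  have hAfin : Finite (MulAut (P : Subgroup G)) := finite_mulAut' _
  have hrG : Nat.card ((P : Subgroup G).normalizerMonoidHom).range ∣ Nat.card G :=
    (Subgroup.card_range_dvd _).trans (Subgroup.card_subgroup_dvd_card _)
  rw [Nat.dvd_iff_prime_pow_dvd_dvd]
  intro t k ht htk
  rcases Nat.eq_zero_or_pos k with h0 | h0
  · rw [h0, pow_zero]; exact one_dvd _
  have htd := (dvd_pow_self t h0.ne').trans htk
  have htp : t ≠ p := by
    rintro rfl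
    apply h.not_p_succ
    refine dvd_trans ?_ (Subgroup.card_subgroup_dvd_card (normalizer ((P : Subgroup G) : Set G)))
    rw [← Subgroup.card_mul_index ((P : Subgroup G).normalizerMonoidHom).ker, Subgroup.index_ker,
      normalizerMonoidHom_ker, h.cent_P P hPq, h1, pow_succ]
    exact Nat.mul_dvd_mul_left _ htd
  have hk1 : k = 1 := by
    by_contra hne
    exact h.not_sq ht htp ((Nat.pow_dvd_pow t (by omega)).trans (htk.trans hrG))
  rcases h.dvd_qM ht htp (htd.trans hrG) with h2 | h2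
  · rw [hk1, pow_one, h2]
  · exfalso
    have hft : Fact t.Prime := ⟨ht⟩
    obtain ⟨α, hα⟩ := exists_prime_orderOf_dvd_card' t htd
    obtain ⟨l, hl1, hl2, hl3⟩ := exists_dvd_of_aut h.hp ht (Ne.symm htp) (h.card_sylow P)
      (α : MulAut (P : Subgroup G)) (by rw [Subgroup.orderOf_coe, hα])
    exact h.ht t ht h2 l hl1 hl2 hl3

/-- Elements of the normalizer of `P` outside `P` have powers of order `q`. -/
lemma exists_pow_order {n : G} (hn : n ∈ normalizer ((P : Subgroup G) : Set G)) (hnP : n ∉ P) :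
    ∃ k : ℕ, orderOf (n ^ k) = q := by
  have h1 : orderOf n ∣ p ^ a * q := by
    rw [← h.card_normalizer P hPq]
    have := orderOf_dvd_natCard (⟨n, hn⟩ : normalizer ((P : Subgroup G) : Set G))
    rwa [Subgroup.orderOf_mk] at this
  have h2 : q ∣ orderOf n := by
    by_contra hcon
    have h3 : orderOf n ∣ p ^ a := Nat.Coprime.dvd_of_dvd_mul_right
      ((Nat.Prime.coprime_iff_not_dvd h.hq).mpr hcon).symm h1
    obtain ⟨i, -, hi⟩ := (Nat.dvd_prime_pow h.hp).mp h3
    have hnx : ∀ x ∈ (P : Subgroup G), n * x * n⁻¹ ∈ (P : Subgroup G) := fun x hx =>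
      (Subgroup.mem_normalizer_iff.mp hn x).mp hx
    have h4 := sup_zpowers_pgroup (P : Subgroup G) P.2 n ⟨i, by rw [← hi, pow_orderOf_eq_one]⟩ hnx
    have h5 := P.3 h4 le_sup_left
    apply hnP
    show n ∈ (P : Subgroup G)
    rw [← h5]
    exact Subgroup.mem_sup_right (Subgroup.mem_zpowers n)
  obtain ⟨c, hc⟩ := h2
  refine ⟨c, ?_⟩
  have hpos := orderOf_pos n
  have hc0 : 0 < c := by
    rcases Nat.eq_zero_or_pos c with h3 | h3
    · rw [h3, mul_zero] at hc
      omega
    · exact h3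
  rw [orderOf_pow, hc, Nat.gcd_eq_right (dvd_mul_left c _), Nat.mul_div_cancel _ hc0]

lemma mem_of_comm {n x : G} (hn : n ∈ normalizer ((P : Subgroup G) : Set G)) (hx : x ∈ P)
    (hx1 : x ≠ 1) (hnx : n * x = x * n) : n ∈ P := by
  by_contra hnP
  obtain ⟨k, hk⟩ := h.exists_pow_order P hPq hn hnP
  apply hx1
  apply h.fpf P hPq (y := n ^ k) _ hk hx
  · have h1 : Commute n x := hnx
    exact h1.pow_left k
  · intro z hz
    exact (Subgroup.mem_normalizer_iff.mp (pow_mem hn k) z).mp hz

lemma exists_K {x : G} (hx : x ∈ P) (hx1 : x ≠ 1) : ∃ K : Subgroup G, K ≤ centralizer {x} ∧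
    ¬ p ∣ Nat.card K ∧ Inv (centralizer {x}) K ∧
    (∀ z, z * x = x * z → Nat.Coprime (orderOf z) p → z ∈ K) ∧
    Nat.card (centralizer ({x} : Set G)) = p ^ a * Nat.card K := by
  have hmC : ∀ z, z ∈ centralizer ({x} : Set G) ↔ x * z = z * x := fun z => by
    rw [Subgroup.mem_centralizer_iff]
    simp
  have hPC : (P : Subgroup G) ≤ centralizer ({x} : Set G) :=
    fun z hz => (hmC z).mpr (h.P_comm P hPq x hx z hz)
  obtain ⟨f, hf1, hf2⟩ := exists_compl_hom (centralizer ({x} : Set G)) P hPC (by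
    intro n hnC hn z hz
    have h2 : n ∈ (P : Subgroup G) :=
      h.mem_of_comm P hPq hn hx hx1 ((hmC _).mp hnC).symm
    exact h.P_comm P hPq z hz n h2)
  have hcard : Nat.card ((P : Subgroup G).subgroupOf (centralizer ({x} : Set G))) = p ^ a := by
    rw [← h.card_sylow P]
    exact Nat.card_congr (Subgroup.subgroupOfEquivOfLe hPC).toEquiv
  refine ⟨f.ker.map (Subgroup.subtype _), Subgroup.map_subtype_le _, ?_, ?_, ?_, ?_⟩
  · rw [Subgroup.card_map_of_injective (Subgroup.subtype_injective _)]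
    exact hf1
  · rintro g hg _ ⟨z, hz, rfl⟩
    exact ⟨⟨g, hg⟩ * z * ⟨g, hg⟩⁻¹, f.normal_ker.conj_mem z hz ⟨g, hg⟩, rfl⟩
  · intro z hz hzo
    refine ⟨⟨z, (hmC z).mpr hz.symm⟩, ?_, rfl⟩
    have h3 : f ⟨z, (hmC z).mpr hz.symm⟩ = 1 := by
      apply one_of_coprime f _ (p := p) (k := a) _ hcard
      rw [Subgroup.orderOf_mk]
      exact hzo
    exact h3
  · rw [Subgroup.card_map_of_injective (Subgroup.subtype_injective _), ← hf2, hcard, mul_comm]

/-- For `a ≥ 3` no subgroup of prime order different from `p` is normalized by `P`. -/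
lemma noPR (ha3 : 3 ≤ a) (R : Subgroup G) (hR : (Nat.card R).Prime) (hRp : Nat.card R ≠ p)
    (hPR : Inv (P : Subgroup G) R) : False := by
  obtain ⟨y, hy, hyo⟩ := h.exists_y P hPq
  set R' := R.map (MulAut.conj y).toMonoidHom with hR'
  have hmR' : ∀ x, x ∈ R' ↔ y⁻¹ * x * y ∈ R := by
    intro x
    constructor
    · rintro ⟨z, hz, rfl⟩
      have : y⁻¹ * (y * z * y⁻¹) * y = z := by group
      show y⁻¹ * (y * z * y⁻¹) * y ∈ R
      rw [this]
      exact hz
    · intro hx
      refine ⟨_, hx, ?_⟩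
      show y * (y⁻¹ * x * y) * y⁻¹ = x
      group
  have hR'c : Nat.card R' = Nat.card R :=
    Subgroup.card_map_of_injective (MulAut.conj y).injective
  have hPR' : Inv (P : Subgroup G) R' := by
    intro g hg x hx
    rw [hmR'] at hx ⊢
    have h1 := hPR _ (conj_inv_mem hy g hg) _ hx
    have h2 : y⁻¹ * g * y * (y⁻¹ * x * y) * (y⁻¹ * g * y)⁻¹ = y⁻¹ * (g * x * g⁻¹) * y := by group
    rwa [h2] at h1
  -- a common centralizing element
  obtain ⟨x, hxP, hx1, hxR, hxR'⟩ : ∃ x ∈ (P : Subgroup G), x ≠ 1 ∧ (∀ r ∈ R, r * x = x * r) ∧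
      ∀ r ∈ R', r * x = x * r := by
    by_contra hcon
    push Not at hcon
    have h1 := h.index_cent_le P hPq R hR hPR
    have h2 := h.index_cent_le P hPq R' (by rw [hR'c]; exact hR) hPR'
    have h3 := Subgroup.index_inf_le
      (H := (centralizer (R : Set G)).subgroupOf (P : Subgroup G))
      (K := (centralizer (R' : Set G)).subgroupOf (P : Subgroup G))
    have h4 : (centralizer (R : Set G)).subgroupOf (P : Subgroup G) ⊓
        (centralizer (R' : Set G)).subgroupOf (P : Subgroup G) = ⊥ := by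
      rw [Subgroup.eq_bot_iff_forall]
      rintro x ⟨hx, hx'⟩
      by_contra hx1
      obtain ⟨r, hr, hrx⟩ := hcon x x.2 (fun h0 => hx1 (Subtype.ext h0)) (fun r hr =>
        Subgroup.mem_centralizer_iff.mp hx r hr)
      exact hrx (Subgroup.mem_centralizer_iff.mp hx' r hr)
    rw [h4, Subgroup.index_bot, h.card_sylow P] at h3
    have h5 := Nat.le_of_dvd h.hp.pos h1
    have h6 := Nat.le_of_dvd h.hp.pos h2
    have h7 : p ^ 3 ≤ p ^ a := Nat.pow_le_pow_right h.hp.pos ha3
    have h8 := h3.trans (Nat.mul_le_mul h5 h6)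
    have h9 := h.hp.two_le
    have h10 : p * p < p ^ 3 := by nlinarith
    omega
  set C := centralizer ({x} : Set G) with hC
  have hmC : ∀ z, z ∈ C ↔ x * z = z * x := fun z => by
    rw [hC, Subgroup.mem_centralizer_iff]
    simp
  have hPC : (P : Subgroup G) ≤ C := fun z hz => (hmC z).mpr (h.P_comm P hPq x hxP z hz)
  have hRC : R ≤ C := fun r hr => (hmC r).mpr (hxR r hr).symm
  have hR'C : R' ≤ C := fun r hr => (hmC r).mpr (hxR' r hr).symm
  obtain ⟨k, hkC, hk⟩ := prime_conj_in C R R' hR rfl hR'c (h.not_sq hR hRp) hRC hR'C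
  -- two Sylow subgroups in the normalizer of `R`
  set L : Subgroup G := normalizer (R : Set G) ⊓ C with hL
  have hPL : (P : Subgroup G) ≤ L := le_inf (fun g hg => mem_normalizer_of (hPR g hg)) hPC
  have hPkL : ((k⁻¹ • P : Sylow p G) : Subgroup G) ≤ L := by
    intro z hz
    have hz' : k * z * k⁻¹ ∈ (P : Subgroup G) := by
      have := (mem_smul_sylow k⁻¹ P z).mp hz
      rwa [inv_inv] at this
    refine ⟨mem_normalizer_of (fun r hr => ?_), ?_⟩
    · have h1 : k * r * k⁻¹ ∈ R' := by
        rw [hk]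
        have : k⁻¹ * (k * r * k⁻¹) * k = r := by group
        rwa [this]
      have h2 := hPR' _ hz' _ h1
      rw [hk] at h2
      have h3 : k⁻¹ * (k * z * k⁻¹ * (k * r * k⁻¹) * (k * z * k⁻¹)⁻¹) * k = z * r * z⁻¹ := by group
      rwa [h3] at h2
    · have h1 := mul_mem (mul_mem (inv_mem hkC) (hPC hz')) hkC
      have h2 : k⁻¹ * (k * z * k⁻¹) * k = z := by group
      rwa [h2] at h1
  obtain ⟨l, hl, hlP⟩ := sylow_conj_in L P (k⁻¹ • P) hPL hPkL
  have hklP : (k * l) • P = P := by
    rw [mul_smul, hlP, smul_inv_smul]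
  have hklN : k * l ∈ normalizer ((P : Subgroup G) : Set G) := by
    have := Sylow.smul_eq_iff_mem_normalizer.mp hklP
    exact this
  have hklC : k * l ∈ C := mul_mem hkC hl.2
  have hkl : k * l ∈ (P : Subgroup G) := h.mem_of_comm P hPq hklN hxP hx1 ((hmC _).mp hklC).symm
  -- `R = R'`
  have hRR' : ∀ r ∈ R, r ∈ R' := by
    intro r hr
    have h1 : (k * l)⁻¹ * r * (k * l) ∈ R := by
      have := hPR _ (inv_mem hkl) r hr
      rwa [inv_inv] at this
    have h2 : l * ((k * l)⁻¹ * r * (k * l)) * l⁻¹ ∈ R :=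
      (Subgroup.mem_normalizer_iff.mp hl.1 _).mp h1
    rw [hk]
    have h3 : l * ((k * l)⁻¹ * r * (k * l)) * l⁻¹ = k⁻¹ * r * k := by group
    rwa [h3] at h2
  have hyR : ∀ r ∈ R, y⁻¹ * r * (y⁻¹)⁻¹ ∈ R := by
    intro r hr
    rw [inv_inv]
    exact (hmR' r).mp (hRR' r hr)
  have hyR2 : ∀ r ∈ R, y * r * y⁻¹ ∈ R := by
    intro r hr
    have := conj_inv_mem hyR r hr
    rwa [inv_inv] at this
  exact h.noR P hPq hy hyo R hR hRp hPR hyR2

lemma centralizer_ne_top {x : G} (hx : x ≠ 1) : centralizer ({x} : Set G) ≠ ⊤ := by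
  intro h1
  apply hx
  have h2 : x ∈ Subgroup.center G := by
    rw [Subgroup.mem_center_iff]
    intro g
    have : g ∈ centralizer ({x} : Set G) := by rw [h1]; trivial
    rw [Subgroup.mem_centralizer_iff] at this
    exact (this x rfl).symm
  rw [center_eq_bot h.simple, Subgroup.mem_bot] at h2
  exact h2

/-- For `a ≥ 3` the centralizers of the nontrivial elements of `P` are equal to `P`. -/
lemma centralizer_eq (ha3 : 3 ≤ a) {x : G} (hx : x ∈ P) (hx1 : x ≠ 1) :
    centralizer ({x} : Set G) = P := by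
  obtain ⟨K, hKC, hpK, hKinv, hKz, hKc⟩ := h.exists_K P hPq hx hx1
  have hPC : (P : Subgroup G) ≤ centralizer {x} := fun z hz => by
    rw [Subgroup.mem_centralizer_iff]
    rintro _ rfl
    exact h.P_comm P hPq _ hx z hz
  have hKb : K = ⊥ := by
    by_contra hne
    obtain ⟨R, hR1, hR2, hR3⟩ := exists_prime_inv' (centralizer {x})
      (h.sol _ (h.centralizer_ne_top P hPq hx1)) K hKC hne hKinv
      (h.sqf.squarefree_of_dvd (h.sqf_of_cop hpK))
    refine h.noPR P hPq ha3 R hR3 ?_ (fun g hg => hR2 g (hPC hg))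
    intro h1
    apply hpK
    rw [← h1]
    exact Subgroup.card_dvd_of_le hR1
  rw [hKb, Subgroup.card_bot, mul_one] at hKc
  symm
  apply Subgroup.eq_of_le_of_card_ge hPC
  rw [hKc, h.card_sylow P]

end Cfg

end Pool.Agent.Lib.MP_4f0ec0_al
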