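import Mathlib
import Pool.Agent.Lib.MP_4f0ec0_al.Loc4

/-! Conjugation invariant partitions of a finite group. -/

set_option linter.unusedSectionVars false

namespace Pool.Agent.Lib.MP_4f0ec0_al

open Function Subgroup

section

variable {G : Type} [Group G]

/-- The conjugate subgroup. -/
def cnj (g : G) (A : Subgroup G) : Subgroup G := A.map (MulAut.conj g).toMonoidHom

lemma mem_cnj {g : G} {A : Subgroup G} {x : G} : x ∈ cnj g A ↔ g⁻¹ * x * g ∈ A := by
  constructor
  · rintro ⟨z, hz, rfl⟩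
    show g⁻¹ * (g * z * g⁻¹) * g ∈ A
    have : g⁻¹ * (g * z * g⁻¹) * g = z := by group
    rwa [this]
  · intro hx
    refine ⟨_, hx, ?_⟩
    show g * (g⁻¹ * x * g) * g⁻¹ = x
    group

lemma cnj_mul (g k : G) (A : Subgroup G) : cnj (g * k) A = cnj g (cnj k A) := by
  ext x
  rw [mem_cnj, mem_cnj, mem_cnj]
  have : (g * k)⁻¹ * x * (g * k) = k⁻¹ * (g⁻¹ * x * g) * k := by group
  rw [this]

lemma cnj_one (A : Subgroup G) : cnj 1 A = A := by
  ext x
  rw [mem_cnj]
  simp

lemma cnj_inv_cnj (g : G) (A : Subgroup G) : cnj g⁻¹ (cnj g A) = A := by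
  rw [← cnj_mul, inv_mul_cancel, cnj_one]

lemma cnj_cnj_inv (g : G) (A : Subgroup G) : cnj g (cnj g⁻¹ A) = A := by
  rw [← cnj_mul, mul_inv_cancel, cnj_one]

lemma cnj_mem {g : G} {A : Subgroup G} {x : G} (hx : x ∈ A) : g * x * g⁻¹ ∈ cnj g A := by
  rw [mem_cnj]
  have : g⁻¹ * (g * x * g⁻¹) * g = x := by group
  rwa [this]

lemma card_cnj (g : G) (A : Subgroup G) : Nat.card (cnj g A) = Nat.card A :=
  Subgroup.card_map_of_injective (MulAut.conj g).injective

lemma cnj_inj {g : G} {A B : Subgroup G} (h : cnj g A = cnj g B) : A = B := by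
  rw [← cnj_inv_cnj g A, h, cnj_inv_cnj]

lemma cnj_centralizer (g z : G) : cnj g (centralizer {z}) = centralizer {g * z * g⁻¹} := by
  ext x
  rw [mem_cnj, Subgroup.mem_centralizer_iff, Subgroup.mem_centralizer_iff]
  simp only [Set.mem_singleton_iff, forall_eq]
  constructor
  · intro h1
    calc g * z * g⁻¹ * x = g * (z * (g⁻¹ * x * g)) * g⁻¹ := by group
      _ = g * ((g⁻¹ * x * g) * z) * g⁻¹ := by rw [h1]
      _ = x * (g * z * g⁻¹) := by group
  · intro h1
    calc z * (g⁻¹ * x * g) = g⁻¹ * (g * z * g⁻¹ * x) * g := by group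
      _ = g⁻¹ * (x * (g * z * g⁻¹)) * g := by rw [h1]
      _ = g⁻¹ * x * g * z := by group

variable [Finite G]

lemma mem_normalizer_cnj {g : G} {A : Subgroup G} : g ∈ normalizer (A : Set G) ↔ cnj g A = A := by
  constructor
  · intro h
    apply Subgroup.eq_of_le_of_card_ge
    · intro x hx
      rw [mem_cnj] at hx
      have h1 := (Subgroup.mem_normalizer_iff.mp h _).mp hx
      have h2 : g * (g⁻¹ * x * g) * g⁻¹ = x := by group
      rwa [h2] at h1
    · rw [card_cnj]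
  · intro h
    apply mem_normalizer_of
    intro x hx
    rw [← h]
    exact cnj_mem hx

/-- An equivariant partition of the set of nontrivial elements. -/
structure GPart (S : G → Subgroup G) : Prop where
  mem : ∀ z, z ≠ 1 → z ∈ S z
  eq : ∀ z, z ≠ 1 → ∀ w ∈ S z, w ≠ 1 → S w = S z
  conj : ∀ g z, z ≠ 1 → S (g * z * g⁻¹) = cnj g (S z)

lemma conj_ne_one {g z : G} (hz : z ≠ 1) : g * z * g⁻¹ ≠ 1 := by
  intro h
  apply hz
  have : z = g⁻¹ * (g * z * g⁻¹) * g := by group
  rw [this, h]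
  group

open Classical in
/-- The sum over the conjugates of a part. -/
lemma GPart.sum_conj {S : G → Subgroup G} (hS : GPart S) [Fintype G] {R : Type} [CommSemiring R]
    (F : G → R) (hF : ∀ g z, F (g * z * g⁻¹) = F z) {A : Subgroup G} (hA : ∃ z, z ≠ 1 ∧ S z = A) :
    (Nat.card (normalizer (A : Set G)) : R) *
      ∑ w ∈ Finset.univ.filter (fun w => w ≠ 1 ∧ ∃ k, S w = cnj k A), F w =
    (Nat.card G : R) * ∑ z ∈ Finset.univ.filter (fun z => z ≠ 1 ∧ z ∈ A), F z := by
  obtain ⟨z₀, hz₀, rfl⟩ := hA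
  have hSA : ∀ z ∈ S z₀, z ≠ 1 → S z = S z₀ := fun z hz hz1 => hS.eq z₀ hz₀ z hz hz1
  -- the number of `g` with `g⁻¹ w g ∈ A`
  have hcount : ∀ w, w ≠ 1 → (∃ k, S w = cnj k (S z₀)) →
      ((Finset.univ.filter (fun g : G => g⁻¹ * w * g ∈ S z₀)).card : R) =
        (Nat.card (normalizer ((S z₀ : Subgroup G) : Set G)) : R) := by
    rintro w hw ⟨k, hk⟩
    congr 1
    rw [← Nat.card_eq_finsetCard]
    refine Nat.card_congr ⟨fun g => ⟨k⁻¹ * g.1, ?_⟩, fun n => ⟨k * n.1, ?_⟩, fun g => ?_,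
      fun n => ?_⟩
    · have hg : (g.1)⁻¹ * w * g.1 ∈ S z₀ := (Finset.mem_filter.mp g.2).2
      have h1 : S ((g.1)⁻¹ * w * g.1) = S z₀ := hSA _ hg (by
        have := conj_ne_one (g := (g.1)⁻¹) hw
        rwa [inv_inv] at this)
      have h2 : S ((g.1)⁻¹ * w * g.1) = cnj (g.1)⁻¹ (S w) := by
        have := hS.conj (g.1)⁻¹ w hw
        rwa [inv_inv] at this
      have h3 : cnj g.1 (S z₀) = S w := by
        rw [← cnj_cnj_inv g.1 (S w), ← h2, h1]
      rw [mem_normalizer_cnj, cnj_mul, h3, hk, cnj_inv_cnj]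
    · rw [Finset.mem_filter]
      refine ⟨Finset.mem_univ _, ?_⟩
      have h1 := mem_normalizer_cnj.mp n.2
      rw [← mem_cnj, cnj_mul, h1, ← hk]
      exact hS.mem w hw
    · apply Subtype.ext
      show k * (k⁻¹ * g.1) = g.1
      group
    · apply Subtype.ext
      show k⁻¹ * (k * n.1) = n.1
      group
  calc (Nat.card (normalizer ((S z₀ : Subgroup G) : Set G)) : R) *
      ∑ w ∈ Finset.univ.filter (fun w => w ≠ 1 ∧ ∃ k, S w = cnj k (S z₀)), F w
      = ∑ w ∈ Finset.univ.filter (fun w => w ≠ 1 ∧ ∃ k, S w = cnj k (S z₀)),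
          ∑ g ∈ Finset.univ.filter (fun g : G => g⁻¹ * w * g ∈ S z₀), F w := by
        rw [Finset.mul_sum]
        apply Finset.sum_congr rfl
        intro w hw
        rw [Finset.mem_filter] at hw
        rw [Finset.sum_const, nsmul_eq_mul, hcount w hw.2.1 hw.2.2]
    _ = ∑ g : G, ∑ w ∈ Finset.univ.filter (fun w => (w ≠ 1 ∧ ∃ k, S w = cnj k (S z₀)) ∧
          g⁻¹ * w * g ∈ S z₀), F w := by
        rw [Finset.sum_comm']
        intro x y
        simp only [Finset.mem_filter, Finset.mem_univ, true_and]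
        tauto
    _ = ∑ g : G, ∑ z ∈ Finset.univ.filter (fun z => z ≠ 1 ∧ z ∈ S z₀), F z := by
        apply Finset.sum_congr rfl
        intro g _
        refine Finset.sum_bij' (fun w _ => g⁻¹ * w * g) (fun z _ => g * z * g⁻¹) ?_ ?_ ?_ ?_ ?_
        · intro w hw
          simp only [Finset.mem_filter, Finset.mem_univ, true_and] at hw ⊢
          refine ⟨?_, hw.2⟩
          have := conj_ne_one (g := g⁻¹) hw.1.1
          rwa [inv_inv] at this
        · intro z hz
          simp only [Finset.mem_filter, Finset.mem_univ, true_and] at hz ⊢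
          refine ⟨⟨conj_ne_one hz.1, g, ?_⟩, ?_⟩
          · rw [hS.conj g z hz.1, hSA z hz.2 hz.1]
          · have : g⁻¹ * (g * z * g⁻¹) * g = z := by group
            rw [this]
            exact hz.2
        · intro w _
          group
        · intro z _
          group
        · intro w _
          have := hF g (g⁻¹ * w * g)
          have h2 : g * (g⁻¹ * w * g) * g⁻¹ = w := by group
          rw [h2] at this
          exact this
    _ = _ := by
        rw [Finset.sum_const, Finset.card_univ, nsmul_eq_mul, Nat.card_eq_fintype_card]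

/-- Representatives of the classes of parts. -/
lemma GPart.exists_reps {S : G → Subgroup G} (hS : GPart S) : ∃ I : Finset (Subgroup G),
    (∀ A ∈ I, ∃ z, z ≠ 1 ∧ S z = A) ∧ (∀ A ∈ I, ∀ B ∈ I, (∃ k, B = cnj k A) → A = B) ∧
    (∀ z, z ≠ 1 → ∃ A ∈ I, ∃ k, S z = cnj k A) := by
  classical
  have : Fintype G := Fintype.ofFinite G
  let s : Setoid (Subgroup G) :=
    { r := fun A B => ∃ k, B = cnj k A
      iseqv := ⟨fun A => ⟨1, (cnj_one A).symm⟩, fun {A B} ⟨k, hk⟩ => ⟨k⁻¹, by rw [hk, cnj_inv_cnj]⟩,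
        fun {A B C} ⟨k, hk⟩ ⟨l, hl⟩ => ⟨l * k, by rw [hl, hk, cnj_mul]⟩⟩ }
  let rep : Subgroup G → Subgroup G := fun A => (Quotient.mk s A).out
  have hrep : ∀ A, ∃ k, A = cnj k (rep A) := fun A => Quotient.exact (Quotient.out_eq (Quotient.mk s A))
  have hrep2 : ∀ A B, (∃ k, B = cnj k A) → rep A = rep B := fun A B h =>
    congrArg Quotient.out (Quotient.sound (s := s) h)
  refine ⟨(Finset.univ.filter (fun z : G => z ≠ 1)).image (fun z => rep (S z)), ?_, ?_, ?_⟩
  · intro A hA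
    obtain ⟨z, hz, rfl⟩ := Finset.mem_image.mp hA
    have hz1 : z ≠ 1 := (Finset.mem_filter.mp hz).2
    obtain ⟨k, hk⟩ := hrep (S z)
    refine ⟨k⁻¹ * z * (k⁻¹)⁻¹, conj_ne_one hz1, ?_⟩
    rw [hS.conj k⁻¹ z hz1]
    nth_rewrite 1 [hk]
    rw [cnj_inv_cnj]
  · intro A hA B hB hAB
    obtain ⟨z, hz, rfl⟩ := Finset.mem_image.mp hA
    obtain ⟨w, hw, rfl⟩ := Finset.mem_image.mp hB
    have h1 := hrep2 _ _ hAB
    have h2 : ∀ C, rep (rep C) = rep C := fun C => hrep2 _ _ (hrep C)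
    rw [h2, h2] at h1
    exact h1
  · intro z hz
    exact ⟨rep (S z), Finset.mem_image.mpr ⟨z, Finset.mem_filter.mpr ⟨Finset.mem_univ _, hz⟩, rfl⟩,
      hrep (S z)⟩

open Classical in
/-- The class formula of a partition. -/
lemma GPart.sum_eq {S : G → Subgroup G} (hS : GPart S) [Fintype G] {I : Finset (Subgroup G)}
    (h1 : ∀ A ∈ I, ∃ z, z ≠ 1 ∧ S z = A) (h2 : ∀ A ∈ I, ∀ B ∈ I, (∃ k, B = cnj k A) → A = B)
    (h3 : ∀ z, z ≠ 1 → ∃ A ∈ I, ∃ k, S z = cnj k A) {K : Type} [Field K] [CharZero K]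
    (F : G → K) (hF : ∀ g z, F (g * z * g⁻¹) = F z) :
    ∑ z : G, F z = F 1 + ∑ A ∈ I, ((Nat.card G : K) / (Nat.card (normalizer (A : Set G)) : K)) *
      ∑ z ∈ Finset.univ.filter (fun z => z ≠ 1 ∧ z ∈ A), F z := by
  have hsplit : (Finset.univ : Finset G) = insert 1 (I.biUnion (fun A =>
      Finset.univ.filter (fun w => w ≠ 1 ∧ ∃ k, S w = cnj k A))) := by
    ext z
    simp only [Finset.mem_univ, Finset.mem_insert, Finset.mem_biUnion, Finset.mem_filter, true_and,
      true_iff]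
    by_cases hz : z = 1
    · exact Or.inl hz
    · obtain ⟨A, hA, k, hk⟩ := h3 z hz
      exact Or.inr ⟨A, hA, hz, k, hk⟩
  rw [hsplit, Finset.sum_insert (by simp)]
  congr 1
  rw [Finset.sum_biUnion]
  · apply Finset.sum_congr rfl
    intro A hA
    have h4 := hS.sum_conj F hF (h1 A hA)
    have h5 : (Nat.card (normalizer (A : Set G)) : K) ≠ 0 := by
      rw [Nat.cast_ne_zero]
      exact Nat.card_pos.ne'
    rw [div_mul_eq_mul_div, eq_div_iff h5, mul_comm, h4]
    congr 2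
    rw [← hsplit]
  · intro A hA B hB hAB
    rw [Function.onFun, Finset.disjoint_left]
    intro z hz hz'
    simp only [Finset.mem_filter, Finset.mem_univ, true_and] at hz hz'
    obtain ⟨-, k, hk⟩ := hz
    obtain ⟨-, l, hl⟩ := hz'
    apply hAB
    apply h2 A hA B hB
    refine ⟨l⁻¹ * k, ?_⟩
    rw [cnj_mul, ← hk, hl, cnj_inv_cnj]

end

end Pool.Agent.Lib.MP_4f0ec0_al
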