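import Mathlib
import Pool.Agent.Lib.MP_4f0ec0_al.Part1

/-! Irreducible characters of finite groups: orthogonality and completeness. -/

set_option linter.unusedSectionVars false

namespace Pool.Agent.Lib.MP_4f0ec0_al

open Function Representation Module

/-- Irreducible complex characters. -/
def IsIrr {G : Type} [Group G] (χ : G → ℂ) : Prop :=
  ∃ (V : Type) (_ : AddCommGroup V) (_ : Module ℂ V) (_ : FiniteDimensional ℂ V)
    (ρ : Representation ℂ G V), ρ.IsIrreducible ∧ ρ.character = χ

section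

variable {G : Type} [Group G] [Fintype G]

/-- The bilinear pairing of functions. -/
noncomputable def bil (f h : G → ℂ) : ℂ := (Nat.card G : ℂ)⁻¹ * ∑ g : G, f g * h g⁻¹

/-- Class functions. -/
def IsClass (f : G → ℂ) : Prop := ∀ g x, f (g * x * g⁻¹) = f x

omit [Fintype G] in
lemma IsIrr.isClass {χ : G → ℂ} (h : IsIrr χ) : IsClass χ := by
  obtain ⟨V, _, _, _, ρ, -, rfl⟩ := h
  intro g x
  exact ρ.char_conj x g

omit [Fintype G] in
lemma finrank_pos_of_irr {V : Type} [AddCommGroup V] [Module ℂ V] [FiniteDimensional ℂ V]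
    (ρ : Representation ℂ G V) [hρ : ρ.IsIrreducible] : 0 < finrank ℂ V := by
  rw [Module.finrank_pos_iff]
  by_contra hcon
  rw [not_nontrivial_iff_subsingleton] at hcon
  apply bot_ne_top (α := Subrepresentation ρ)
  apply Subrepresentation.toSubmodule_injective
  exact Subsingleton.elim _ _

omit [Fintype G] in
lemma IsIrr.degree {χ : G → ℂ} (h : IsIrr χ) : ∃ n : ℕ, 0 < n ∧ χ 1 = n := by
  obtain ⟨V, _, _, _, ρ, hρ, rfl⟩ := h
  exact ⟨finrank ℂ V, finrank_pos_of_irr ρ, ρ.char_one⟩

lemma card_ne_zero' : (Nat.card G : ℂ) ≠ 0 := Nat.cast_ne_zero.mpr Nat.card_pos.ne'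

open Classical in
lemma bil_irr {χ ψ : G → ℂ} (hχ : IsIrr χ) (hψ : IsIrr ψ) :
    bil χ ψ = if χ = ψ then 1 else 0 := by
  obtain ⟨V, _, _, _, ρ, hρ, rfl⟩ := hχ
  obtain ⟨W, _, _, _, σ, hσ, rfl⟩ := hψ
  have : Invertible (Nat.card G : ℂ) := invertibleOfNonzero card_ne_zero'
  have h1 := char_orthonormal ρ σ
  have h2 := char_orthonormal ρ ρ
  rw [if_pos ⟨Representation.Equiv.refl ρ⟩] at h2
  unfold bil
  rw [h1]
  by_cases hiso : Nonempty (Equiv σ ρ)
  · rw [if_pos hiso, if_pos (char_iso hiso.some).symm]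
  · rw [if_neg hiso, if_neg]
    intro h3
    rw [if_neg hiso, ← h3, h2] at h1
    exact one_ne_zero h1

/-- The operator attached to a function on the group. -/
noncomputable def opT {V : Type} [AddCommGroup V] [Module ℂ V] (f : G → ℂ)
    (ρ : Representation ℂ G V) : V →ₗ[ℂ] V := ∑ g : G, f g • ρ g⁻¹

lemma opT_apply {V : Type} [AddCommGroup V] [Module ℂ V] (f : G → ℂ)
    (ρ : Representation ℂ G V) (v : V) : opT f ρ v = ∑ g : G, f g • ρ g⁻¹ v := by
  unfold opT
  rw [LinearMap.sum_apply]
  rfl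

lemma opT_comm {V : Type} [AddCommGroup V] [Module ℂ V] {f : G → ℂ} (hf : IsClass f)
    (ρ : Representation ℂ G V) (h : G) (v : V) : opT f ρ (ρ h v) = ρ h (opT f ρ v) := by
  rw [opT_apply, opT_apply, map_sum]
  rw [← Fintype.sum_equiv (MulAut.conj h).toEquiv (fun g => f (h * g * h⁻¹) • ρ (h * g * h⁻¹)⁻¹ (ρ h v))
    (fun g => f g • ρ g⁻¹ (ρ h v)) (fun g => rfl)]
  apply Finset.sum_congr rfl
  intro g _
  rw [hf, map_smul]
  congr 1
  rw [← Module.End.mul_apply, ← map_mul, ← Module.End.mul_apply, ← map_mul]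
  congr 2
  group

lemma opT_irr {V : Type} [AddCommGroup V] [Module ℂ V] [FiniteDimensional ℂ V] {f : G → ℂ}
    (hf : IsClass f) (ρ : Representation ℂ G V) [hρ : ρ.IsIrreducible]
    (h0 : ∑ g : G, f g * ρ.character g⁻¹ = 0) : opT f ρ = 0 := by
  let T : IntertwiningMap ρ ρ := ⟨opT f ρ, by
    intro g
    ext v
    exact opT_comm hf ρ g v⟩
  obtain ⟨c, hc⟩ := (IsIrreducible.algebraMap_intertwiningMap_bijective_of_isAlgClosed
    (ρ := ρ)).2 T
  have h1 : opT f ρ = c • LinearMap.id := by
    have h2 : T.toLinearMap = (algebraMap ℂ (IntertwiningMap ρ ρ) c).toLinearMap := by rw [hc]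
    rw [IntertwiningMap.algebraMap_apply] at h2
    exact h2
  have h2 : LinearMap.trace ℂ V (opT f ρ) = 0 := by
    unfold opT
    rw [map_sum]
    rw [← h0]
    apply Finset.sum_congr rfl
    intro g _
    rw [map_smul, smul_eq_mul]
    rfl
  rw [h1, map_smul, LinearMap.trace_id, smul_eq_mul] at h2
  have h3 : (finrank ℂ V : ℂ) ≠ 0 := Nat.cast_ne_zero.mpr (finrank_pos_of_irr ρ).ne'
  have h4 : c = 0 := by
    rcases mul_eq_zero.mp h2 with h | h
    · exact h
    · exact absurd h h3
  rw [h1, h4, zero_smul]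

theorem opT_zero {f : G → ℂ} (hf : IsClass f)
    (h0 : ∀ χ : G → ℂ, IsIrr χ → ∑ g : G, f g * χ g⁻¹ = 0) :
    ∀ (n : ℕ) (V : Type) [AddCommGroup V] [Module ℂ V] [FiniteDimensional ℂ V]
      (ρ : Representation ℂ G V), finrank ℂ V = n → opT f ρ = 0 := by
  intro n
  induction n using Nat.strong_induction_on with
  | _ n ih =>
    intro V _ _ _ ρ hn
    by_cases hV : Subsingleton V
    · apply LinearMap.ext
      intro v
      exact Subsingleton.elim _ _
    rw [not_subsingleton_iff_nontrivial] at hV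
    by_cases hirr : ρ.IsIrreducible
    · exact opT_irr hf ρ (h0 _ ⟨V, _, _, inferInstance, ρ, hirr, rfl⟩)
    · -- a proper subrepresentation
      have hnt : Nontrivial (Subrepresentation ρ) := by
        refine ⟨⟨⊥, ⊤, fun h => ?_⟩⟩
        have h1 : (⊥ : Submodule ℂ V) = ⊤ := congrArg Subrepresentation.toSubmodule h
        exact bot_ne_top h1
      obtain ⟨W, hW1, hW2⟩ : ∃ W : Subrepresentation ρ, W ≠ ⊥ ∧ W ≠ ⊤ := by
        by_contra hcon
        push Not at hcon
        apply hirr
        exact ⟨fun W => by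
          by_cases h : W = ⊥
          · exact Or.inl h
          · exact Or.inr (hcon W h)⟩
      have : NeZero (Nat.card G : ℂ) := ⟨card_ne_zero'⟩
      obtain ⟨W', hWW'⟩ := exists_isCompl W
      have hW'2 : W' ≠ ⊤ := by
        rintro rfl
        exact hW1 (disjoint_top.mp hWW'.disjoint)
      -- each part is annihilated
      have key : ∀ U : Subrepresentation ρ, U ≠ ⊤ → ∀ u ∈ U.toSubmodule, opT f ρ u = 0 := by
        intro U hU u hu
        have hlt : finrank ℂ U.toSubmodule < n := by
          rw [← hn]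
          apply Submodule.finrank_lt
          intro h
          apply hU
          apply Subrepresentation.toSubmodule_injective
          exact h
        have h1 := ih _ hlt U.toSubmodule U.toRepresentation rfl
        have h2 := congrArg (fun L => ((L ⟨u, hu⟩ : U.toSubmodule) : V)) h1
        simp only [LinearMap.zero_apply, ZeroMemClass.coe_zero] at h2
        rw [← h2, opT_apply, opT_apply, AddSubmonoidClass.coe_finsetSum]
        rfl
      apply LinearMap.ext
      intro v
      have htop : W ⊔ W' = ⊤ := hWW'.sup_eq_top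
      have hv : v ∈ W.toSubmodule ⊔ W'.toSubmodule := by
        rw [← Subrepresentation.toSubmodule_sup, htop]
        trivial
      obtain ⟨w, hw, w', hw', rfl⟩ := Submodule.mem_sup.mp hv
      rw [map_add, key W hW2 w hw, key W' hW'2 w' hw']
      simp

/-- The regular representation. -/
noncomputable def regRep (G : Type) [Group G] : Representation ℂ G (G → ℂ) where
  toFun g := LinearMap.funLeft ℂ ℂ (fun x => g⁻¹ * x)
  map_one' := by
    ext φ x
    simp [LinearMap.funLeft_apply]
  map_mul' g h := by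
    ext φ x
    simp [LinearMap.funLeft_apply, mul_assoc]

theorem completeness {f : G → ℂ} (hf : IsClass f)
    (h0 : ∀ χ : G → ℂ, IsIrr χ → bil f χ = 0) : f = 0 := by
  classical
  have h1 := opT_zero hf (fun χ hχ => by
    have h2 := h0 χ hχ
    unfold bil at h2
    rcases mul_eq_zero.mp h2 with h | h
    · exact absurd h (inv_ne_zero card_ne_zero')
    · exact h) _ (G → ℂ) (regRep G) rfl
  funext x
  have h2 := congrFun (congrArg (fun L => L (Pi.single 1 1)) h1) x⁻¹
  simp only [LinearMap.zero_apply, Pi.zero_apply] at h2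
  rw [opT_apply, Finset.sum_apply] at h2
  rw [Pi.zero_apply, ← h2]
  have h3 : ∀ g : G, (f g • (regRep G g⁻¹ (Pi.single 1 1))) x⁻¹ = if g = x then f g else 0 := by
    intro g
    show f g * (Pi.single (1 : G) (1 : ℂ) : G → ℂ) ((g⁻¹)⁻¹ * x⁻¹) = _
    rw [inv_inv, Pi.single_apply]
    by_cases h : g = x
    · rw [if_pos h, if_pos (by rw [h, mul_inv_cancel]), mul_one]
    · rw [if_neg h, if_neg (fun h4 => h (mul_inv_eq_one.mp h4)), mul_zero]
  simp only [h3]
  simp

/-- The type of irreducible characters. -/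
abbrev IrrC (G : Type) [Group G] : Type := {χ : G → ℂ // IsIrr χ}

lemma bil_sum_left {ι : Type*} (s : Finset ι) (F : ι → G → ℂ) (h : G → ℂ) :
    bil (fun g => ∑ i ∈ s, F i g) h = ∑ i ∈ s, bil (F i) h := by
  unfold bil
  rw [← Finset.mul_sum, Finset.sum_comm]
  congr 1
  apply Finset.sum_congr rfl
  intro g _
  rw [Finset.sum_mul]

lemma bil_smul_left (c : ℂ) (f h : G → ℂ) : bil (fun g => c * f g) h = c * bil f h := by
  unfold bil
  have : ∀ g : G, c * f g * h g⁻¹ = c * (f g * h g⁻¹) := fun g => mul_assoc _ _ _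
  simp only [this]
  rw [← Finset.mul_sum]
  ring

lemma bil_comm (f h : G → ℂ) : bil f h = bil h f := by
  unfold bil
  congr 1
  rw [← Fintype.sum_equiv (Equiv.inv G) (fun g => f g⁻¹ * h g) (fun g => f g * h g⁻¹) (fun g => by
    simp)]
  apply Finset.sum_congr rfl
  intro g _
  ring

lemma bil_sub_left (f f' h : G → ℂ) : bil (fun g => f g - f' g) h = bil f h - bil f' h := by
  unfold bil
  rw [← mul_sub, ← Finset.sum_sub_distrib]
  congr 1
  apply Finset.sum_congr rfl
  intro g _
  ring

lemma bil_sub_right (f f' h : G → ℂ) : bil h (fun g => f g - f' g) = bil h f - bil h f' := by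
  rw [bil_comm, bil_sub_left, bil_comm f, bil_comm f']

lemma bil_sum_right {ι : Type*} (s : Finset ι) (F : ι → G → ℂ) (h : G → ℂ) :
    bil h (fun g => ∑ i ∈ s, F i g) = ∑ i ∈ s, bil h (F i) := by
  rw [bil_comm, bil_sum_left]
  apply Finset.sum_congr rfl
  intro i _
  exact bil_comm _ _

lemma bil_smul_right (c : ℂ) (f h : G → ℂ) : bil h (fun g => c * f g) = c * bil h f := by
  rw [bil_comm, bil_smul_left, bil_comm]

instance finite_irr : Finite (IrrC G) := by
  classical
  have hli : LinearIndependent ℂ (fun χ : IrrC G => χ.1) := by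
    rw [linearIndependent_iff']
    intro s c hc χ hχ
    have h1 : bil (fun g => ∑ ψ ∈ s, c ψ * ψ.1 g) χ.1 = 0 := by
      have h2 : (fun g => ∑ ψ ∈ s, c ψ * ψ.1 g) = fun _ => (0 : ℂ) := by
        funext g
        have h3 := congrFun hc g
        rw [Finset.sum_apply] at h3
        exact h3
      rw [h2]
      unfold bil
      simp
    rw [bil_sum_left s (fun ψ g => c ψ * ψ.1 g)] at h1
    simp only [bil_smul_left] at h1
    rw [Finset.sum_eq_single χ] at h1
    · rw [bil_irr χ.2 χ.2, if_pos rfl, mul_one] at h1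
      exact h1
    · intro ψ _ hne
      rw [bil_irr ψ.2 χ.2, if_neg (fun h => hne (Subtype.ext h)), mul_zero]
    · intro h
      exact absurd hχ h
  exact hli.finite

noncomputable instance : Fintype (IrrC G) := Fintype.ofFinite _

/-- Expansion of class functions. -/
theorem expand {f : G → ℂ} (hf : IsClass f) (x : G) : f x = ∑ χ : IrrC G, bil f χ.1 * χ.1 x := by
  classical
  have h1 : (fun x => f x - ∑ χ : IrrC G, bil f χ.1 * χ.1 x) = 0 := by
    apply completeness
    · intro g y
      show f (g * y * g⁻¹) - ∑ χ : IrrC G, bil f χ.1 * χ.1 (g * y * g⁻¹) =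
        f y - ∑ χ : IrrC G, bil f χ.1 * χ.1 y
      rw [hf]
      congr 1
      apply Finset.sum_congr rfl
      intro χ _
      rw [χ.2.isClass]
    · intro ψ hψ
      rw [bil_sub_left, bil_sum_left Finset.univ (fun (χ : IrrC G) g => bil f χ.1 * χ.1 g)]
      simp only [bil_smul_left]
      rw [Finset.sum_eq_single (⟨ψ, hψ⟩ : IrrC G)]
      · rw [bil_irr hψ hψ, if_pos rfl]
        ring
      · intro χ _ hne
        rw [bil_irr χ.2 hψ, if_neg (fun h => hne (Subtype.ext h)), mul_zero]
      · intro h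
        exact absurd (Finset.mem_univ _) h
  have h2 := congrFun h1 x
  exact sub_eq_zero.mp h2

theorem parseval {f h : G → ℂ} (hf : IsClass f) :
    bil f h = ∑ χ : IrrC G, bil f χ.1 * bil h χ.1 := by
  have h1 : f = fun x => ∑ χ : IrrC G, bil f χ.1 * χ.1 x := funext (expand hf)
  conv_lhs => rw [h1]
  rw [bil_sum_left Finset.univ (fun (χ : IrrC G) g => bil f χ.1 * χ.1 g)]
  apply Finset.sum_congr rfl
  intro χ _
  rw [bil_smul_left, bil_comm h]

end

end Pool.Agent.Lib.MP_4f0ec0_al
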