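import Mathlib
import Pool.Agent.Lib.MP_4f0ec0_al.Chr1

/-! Linear characters of abelian subgroups and induced class functions. -/

set_option linter.unusedSectionVars false

namespace Pool.Agent.Lib.MP_4f0ec0_al

open Function Representation Module Subgroup

/-- Linear characters. -/
abbrev Hat {G : Type} [Group G] (A : Subgroup G) : Type := A →* ℂˣ

noncomputable instance (priority := 2000) subgroupFintype {G : Type} [Group G] [Finite G]
    (A : Subgroup G) : Fintype A := Fintype.ofFinite A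

section hats

variable {G : Type} [Group G] [Fintype G] {A : Subgroup G}

lemma hat_card (hA : ∀ x ∈ A, ∀ y ∈ A, x * y = y * x) : Nat.card (Hat A) = Nat.card A := by
  let cg : CommGroup A := { (inferInstance : Group A) with
    mul_comm := fun x y => Subtype.ext (hA x x.2 y y.2) }
  exact CommGroup.card_monoidHom_of_hasEnoughRootsOfUnity A ℂ

lemma hat_finite (hA : ∀ x ∈ A, ∀ y ∈ A, x * y = y * x) : Finite (Hat A) :=
  Nat.finite_of_card_ne_zero (by rw [hat_card hA]; exact Nat.card_pos.ne')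

lemma hat_sep (hA : ∀ x ∈ A, ∀ y ∈ A, x * y = y * x) {x : A} (hx : x ≠ 1) :
    ∃ l : Hat A, l x ≠ 1 := by
  let cg : CommGroup A := { (inferInstance : Group A) with
    mul_comm := fun x y => Subtype.ext (hA x x.2 y y.2) }
  exact CommGroup.exists_apply_ne_one_of_hasEnoughRootsOfUnity A ℂ hx

open Classical in
lemma hat_sum (l : Hat A) : ∑ x : A, ((l x : ℂˣ) : ℂ) = if l = 1 then (Nat.card A : ℂ) else 0 := by
  split_ifs with h
  · subst h
    simp [Nat.card_eq_fintype_card]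
  · obtain ⟨y, hy⟩ : ∃ y, l y ≠ 1 := by
      by_contra hcon
      push Not at hcon
      exact h (MonoidHom.ext hcon)
    have h1 : ((l y : ℂˣ) : ℂ) * ∑ x : A, ((l x : ℂˣ) : ℂ) = ∑ x : A, ((l x : ℂˣ) : ℂ) := by
      rw [Finset.mul_sum]
      refine Fintype.sum_equiv (Equiv.mulLeft y) _ _ (fun x => ?_)
      show ((l y : ℂˣ) : ℂ) * ((l x : ℂˣ) : ℂ) = ((l (y * x) : ℂˣ) : ℂ)
      rw [map_mul]
      rfl
    have h2 : ((l y : ℂˣ) : ℂ) ≠ 1 := fun h3 => hy (Units.ext h3)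
    have h3 : (((l y : ℂˣ) : ℂ) - 1) * ∑ x : A, ((l x : ℂˣ) : ℂ) = 0 := by
      rw [sub_mul, h1, one_mul, sub_self]
    rcases mul_eq_zero.mp h3 with h4 | h4
    · exact absurd (sub_eq_zero.mp h4) h2
    · exact h4

open Classical in
/-- Orthogonality of linear characters. -/
lemma hat_orth (l m : Hat A) : ∑ x : A, ((l x : ℂˣ) : ℂ) * ((m x⁻¹ : ℂˣ) : ℂ) =
    if l = m then (Nat.card A : ℂ) else 0 := by
  have h1 := hat_sum (l * m⁻¹)
  have h2 : ∀ x : A, (((l * m⁻¹) x : ℂˣ) : ℂ) = ((l x : ℂˣ) : ℂ) * ((m x⁻¹ : ℂˣ) : ℂ) := by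
    intro x
    rw [MonoidHom.mul_apply, MonoidHom.inv_apply, map_inv]
    rfl
  simp only [h2] at h1
  rw [h1]
  have h3 : l * m⁻¹ = 1 ↔ l = m := by
    constructor
    · intro h4
      apply MonoidHom.ext
      intro x
      have h5 : l x * (m x)⁻¹ = 1 := DFunLike.congr_fun h4 x
      exact mul_inv_eq_one.mp h5
    · rintro rfl
      apply MonoidHom.ext
      intro x
      exact mul_inv_cancel (l x)
  by_cases h4 : l = m
  · rw [if_pos h4, if_pos (h3.mpr h4)]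
  · rw [if_neg h4, if_neg (fun h5 => h4 (h3.mp h5))]

open Classical in
/-- Dual orthogonality. -/
lemma hat_dual [Fintype (Hat A)] (hA : ∀ x ∈ A, ∀ y ∈ A, x * y = y * x) (x : A) :
    ∑ l : Hat A, ((l x : ℂˣ) : ℂ) = if x = 1 then (Nat.card A : ℂ) else 0 := by
  split_ifs with h
  · subst h
    simp only [map_one, Units.val_one, Finset.sum_const, Finset.card_univ, nsmul_eq_mul, mul_one]
    rw [← Nat.card_eq_fintype_card, hat_card hA]
  · obtain ⟨m, hm⟩ := hat_sep hA h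
    have h1 : ((m x : ℂˣ) : ℂ) * ∑ l : Hat A, ((l x : ℂˣ) : ℂ) = ∑ l : Hat A, ((l x : ℂˣ) : ℂ) := by
      rw [Finset.mul_sum]
      refine Fintype.sum_equiv (Equiv.mulLeft m) _ _ (fun l => ?_)
      show ((m x : ℂˣ) : ℂ) * ((l x : ℂˣ) : ℂ) = (((m * l) x : ℂˣ) : ℂ)
      rw [MonoidHom.mul_apply]
      rfl
    have h2 : ((m x : ℂˣ) : ℂ) ≠ 1 := fun h3 => hm (Units.ext h3)
    have h3 : (((m x : ℂˣ) : ℂ) - 1) * ∑ l : Hat A, ((l x : ℂˣ) : ℂ) = 0 := by
      rw [sub_mul, h1, one_mul, sub_self]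
    rcases mul_eq_zero.mp h3 with h4 | h4
    · exact absurd (sub_eq_zero.mp h4) h2
    · exact h4

/-- Fourier inversion. -/
lemma hat_inv [Fintype (Hat A)] (hA : ∀ x ∈ A, ∀ y ∈ A, x * y = y * x) (F : A → ℂ) (x : A) :
    F x = ∑ l : Hat A, ((Nat.card A : ℂ)⁻¹ * ∑ y : A, F y * ((l y⁻¹ : ℂˣ) : ℂ)) * ((l x : ℂˣ) : ℂ) := by
  classical
  have h0 : (Nat.card A : ℂ) ≠ 0 := Nat.cast_ne_zero.mpr Nat.card_pos.ne'
  have h1 : ∀ l : Hat A, ((Nat.card A : ℂ)⁻¹ * ∑ y : A, F y * ((l y⁻¹ : ℂˣ) : ℂ)) * ((l x : ℂˣ) : ℂ) =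
      ∑ y : A, (Nat.card A : ℂ)⁻¹ * F y * ((l (y⁻¹ * x) : ℂˣ) : ℂ) := by
    intro l
    rw [Finset.mul_sum, Finset.sum_mul]
    apply Finset.sum_congr rfl
    intro y _
    rw [map_mul, Units.val_mul]
    ring
  simp only [h1]
  rw [Finset.sum_comm]
  have h2 : ∀ y : A, ∑ l : Hat A, (Nat.card A : ℂ)⁻¹ * F y * ((l (y⁻¹ * x) : ℂˣ) : ℂ) =
      if y = x then F x else 0 := by
    intro y
    rw [← Finset.mul_sum, hat_dual hA]
    by_cases h : y = x
    · rw [if_pos h, if_pos (by rw [h, inv_mul_cancel]), h]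
      field_simp
    · rw [if_neg h, if_neg (fun h3 => h (inv_mul_eq_one.mp h3)), mul_zero]
  simp only [h2]
  simp

/-- Extension by zero. -/
noncomputable def lext (l : Hat A) (x : G) : ℂ := by
  classical
  exact if h : x ∈ A then ((l ⟨x, h⟩ : ℂˣ) : ℂ) else 0

omit [Fintype G] in
lemma lext_mem (l : Hat A) {x : G} (h : x ∈ A) : lext l x = ((l ⟨x, h⟩ : ℂˣ) : ℂ) := by
  unfold lext
  exact dif_pos h

omit [Fintype G] in
lemma lext_not_mem (l : Hat A) {x : G} (h : x ∉ A) : lext l x = 0 := by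
  unfold lext
  exact dif_neg h

/-- The induced class function. -/
noncomputable def indc (A : Subgroup G) (φ : G → ℂ) (x : G) : ℂ :=
  (Nat.card A : ℂ)⁻¹ * ∑ g : G, φ (g⁻¹ * x * g)

lemma indc_isClass (φ : G → ℂ) : IsClass (indc A φ) := by
  intro k x
  unfold indc
  congr 1
  refine Fintype.sum_equiv (Equiv.mulLeft k⁻¹) _ _ (fun g => ?_)
  show φ (g⁻¹ * (k * x * k⁻¹) * g) = φ ((k⁻¹ * g)⁻¹ * x * (k⁻¹ * g))
  congr 1
  group

/-- Frobenius reciprocity. -/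
lemma frob {χ : G → ℂ} (hχ : IsClass χ) (φ : G → ℂ) :
    bil χ (indc A φ) = (Nat.card A : ℂ)⁻¹ * ∑ x : G, χ x * φ x⁻¹ := by
  unfold bil indc
  have h0 : (Nat.card G : ℂ) ≠ 0 := card_ne_zero'
  have h1 : ∀ x : G, χ x * ((Nat.card A : ℂ)⁻¹ * ∑ g : G, φ (g⁻¹ * x⁻¹ * g)) =
      (Nat.card A : ℂ)⁻¹ * ∑ g : G, χ x * φ (g⁻¹ * x⁻¹ * g) := by
    intro x
    rw [← Finset.mul_sum]
    ring
  simp only [h1]
  rw [← Finset.mul_sum, Finset.sum_comm]
  have h2 : ∀ g : G, ∑ x : G, χ x * φ (g⁻¹ * x⁻¹ * g) = ∑ x : G, χ x * φ x⁻¹ := by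
    intro g
    symm
    refine Fintype.sum_equiv (MulAut.conj g).toEquiv _ _ (fun x => ?_)
    show χ x * φ x⁻¹ = χ (g * x * g⁻¹) * φ (g⁻¹ * (g * x * g⁻¹)⁻¹ * g)
    rw [hχ]
    congr 2
    group
  simp only [h2]
  rw [Finset.sum_const, Finset.card_univ, nsmul_eq_mul, Nat.card_eq_fintype_card]
  rw [Nat.card_eq_fintype_card] at h0
  field_simp

lemma sum_lext (F : G → ℂ) (l : Hat A) : ∑ x : G, F x * lext l x⁻¹ =
    ∑ x : A, F x * ((l x⁻¹ : ℂˣ) : ℂ) := by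
  classical
  have h1 : ∑ x : A, F x * ((l x⁻¹ : ℂˣ) : ℂ) =
      ∑ x ∈ Finset.univ.filter (fun x : G => x ∈ A), F x * lext l x⁻¹ := by
    refine Finset.sum_bij' (fun x _ => (x : G))
      (fun x hx => (⟨x, (Finset.mem_filter.mp hx).2⟩ : A)) ?_ ?_ ?_ ?_ ?_
    · intro x _
      rw [Finset.mem_filter]
      exact ⟨Finset.mem_univ _, x.2⟩
    · intro x _
      exact Finset.mem_univ _
    · intro x _
      rfl
    · intro x _
      rfl
    · intro x _
      rw [lext_mem l (inv_mem x.2)]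
      rfl
  rw [h1, Finset.sum_filter_of_ne]
  intro x _ hx
  by_contra hxA
  apply hx
  rw [lext_not_mem l (fun h => hxA (by have := inv_mem h; rwa [inv_inv] at this)), mul_zero]

/-- Multiplicities. -/
lemma bil_ind {χ : G → ℂ} (hχ : IsClass χ) (l : Hat A) :
    bil χ (indc A (lext l)) = (Nat.card A : ℂ)⁻¹ * ∑ x : A, χ x * ((l x⁻¹ : ℂˣ) : ℂ) := by
  rw [frob hχ, sum_lext]

omit [Fintype G] in
/-- The one-dimensional representation. -/
noncomputable def rep1 (l : Hat A) : Representation ℂ A ℂ where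
  toFun x := ((l x : ℂˣ) : ℂ) • LinearMap.id
  map_one' := by
    rw [map_one, Units.val_one, one_smul]
    rfl
  map_mul' x y := by
    ext
    rw [map_mul, Units.val_mul]
    simp [mul_comm]

omit [Fintype G] in
lemma rep1_char (l : Hat A) (x : A) : (rep1 l).character x = ((l x : ℂˣ) : ℂ) := by
  show LinearMap.trace ℂ ℂ (((l x : ℂˣ) : ℂ) • LinearMap.id) = _
  rw [map_smul, LinearMap.trace_id, Module.finrank_self, Nat.cast_one, smul_eq_mul, mul_one]

lemma mult_nat {χ : G → ℂ} (hχ : IsIrr χ) (l : Hat A) :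
    ∃ n : ℕ, bil χ (indc A (lext l)) = n := by
  rw [bil_ind hχ.isClass]
  obtain ⟨V, _, _, _, ρ, -, rfl⟩ := hχ
  have h0 : (Nat.card A : ℂ) ≠ 0 := Nat.cast_ne_zero.mpr Nat.card_pos.ne'
  have : Invertible (Nat.card A : ℂ) := invertibleOfNonzero h0
  refine ⟨finrank ℂ (IntertwiningMap (rep1 l) (ρ.comp A.subtype)), ?_⟩
  rw [← card_inv_mul_sum_char_mul_char_eq_finrank]
  congr 1
  apply Finset.sum_congr rfl
  intro x _
  rw [rep1_char]
  rfl

/-- The multiplicity of `l` in the restriction of an irreducible character. -/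
noncomputable def mlt (χ : IrrC G) (l : Hat A) : ℤ := ((mult_nat χ.2 l).choose : ℤ)

lemma mlt_spec (χ : IrrC G) (l : Hat A) : bil χ.1 (indc A (lext l)) = (mlt χ l : ℂ) := by
  have h1 := (mult_nat χ.2 l).choose_spec
  rw [h1]
  unfold mlt
  push_cast
  rfl

/-- Expansion of the restriction to `A`. -/
lemma res_expand [Fintype (Hat A)] (hA : ∀ x ∈ A, ∀ y ∈ A, x * y = y * x) (χ : IrrC G) (x : A) :
    χ.1 x = ∑ l : Hat A, (mlt χ l : ℂ) * ((l x : ℂˣ) : ℂ) := by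
  rw [hat_inv hA (fun y => χ.1 y) x]
  apply Finset.sum_congr rfl
  intro l _
  rw [← mlt_spec, bil_ind χ.2.isClass]

end hats

end Pool.Agent.Lib.MP_4f0ec0_al
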