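import Mathlib

/-! Integer vectors at pairwise squared distance two. -/

namespace Pool.Agent.Lib.MP_4f0ec0_al

open Function

section

variable {I : Type} [Fintype I] [DecidableEq I]

/-- The indicator function. -/
def dlt (a i : I) : ℤ := if i = a then 1 else 0

omit [Fintype I] in
lemma dlt_self (a : I) : dlt a a = 1 := if_pos rfl

omit [Fintype I] in
lemma dlt_ne {a i : I} (h : i ≠ a) : dlt a i = 0 := if_neg h

lemma sum_mul_dlt (v : I → ℤ) (a : I) : ∑ i, v i * dlt a i = v a := by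
  unfold dlt
  simp

lemma two_squares {v deg : I → ℤ} (hdeg : ∀ i, 0 < deg i) (h2 : ∑ i, v i ^ 2 = 2)
    (hd : ∑ i, v i * deg i = 0) : ∃ a b, a ≠ b ∧ ∀ i, v i = dlt a i - dlt b i := by
  have hsq : ∀ i, 0 ≤ v i ^ 2 := fun i => sq_nonneg _
  have hle : ∀ i, v i ^ 2 ≤ 2 := fun i => by
    rw [← h2]
    exact Finset.single_le_sum (fun j _ => hsq j) (Finset.mem_univ i)
  have habs : ∀ i, -1 ≤ v i ∧ v i ≤ 1 := fun i => by
    have := hle i
    constructor <;> nlinarith
  have hex : ∃ i, v i ≠ 0 := by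
    by_contra hcon
    push Not at hcon
    simp [hcon] at h2
  obtain ⟨a, ha⟩ : ∃ a, 0 < v a := by
    by_contra hcon
    push Not at hcon
    obtain ⟨i, hi⟩ := hex
    have h3 : ∑ i, v i * deg i < 0 := by
      apply Finset.sum_neg' (fun j _ => mul_nonpos_of_nonpos_of_nonneg (hcon j) (hdeg j).le)
      exact ⟨i, Finset.mem_univ _, mul_neg_of_neg_of_pos (lt_of_le_of_ne (hcon i) hi) (hdeg i)⟩
    omega
  obtain ⟨b, hb⟩ : ∃ b, v b < 0 := by
    by_contra hcon
    push Not at hcon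
    obtain ⟨i, hi⟩ := hex
    have h3 : 0 < ∑ i, v i * deg i := by
      apply Finset.sum_pos' (fun j _ => mul_nonneg (hcon j) (hdeg j).le)
      exact ⟨i, Finset.mem_univ _, mul_pos (lt_of_le_of_ne (hcon i) hi.symm) (hdeg i)⟩
    omega
  have hab : a ≠ b := by
    rintro rfl
    omega
  have ha1 : v a = 1 := by have := habs a; omega
  have hb1 : v b = -1 := by have := habs b; omega
  have hrest : ∀ i, i ≠ a → i ≠ b → v i = 0 := by
    intro i hia hib
    have h3 : ∑ j ∈ ({a, b, i} : Finset I), v j ^ 2 ≤ ∑ j, v j ^ 2 :=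
      Finset.sum_le_sum_of_subset_of_nonneg (Finset.subset_univ _) (fun j _ _ => hsq j)
    rw [Finset.sum_insert (by
      simp only [Finset.mem_insert, Finset.mem_singleton, not_or]
      exact ⟨hab, hia.symm⟩), Finset.sum_insert (by
      simp only [Finset.mem_singleton]
      exact hib.symm), Finset.sum_singleton, ha1, hb1, h2] at h3
    have h4 := hsq i
    have h5 : v i ^ 2 = 0 := by omega
    exact pow_eq_zero_iff (two_ne_zero) |>.mp h5
  refine ⟨a, b, hab, fun i => ?_⟩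
  by_cases hia : i = a
  · subst hia
    rw [dlt_self, dlt_ne hab, ha1]
    norm_num
  · by_cases hib : i = b
    · subst hib
      rw [dlt_self, dlt_ne hia, hb1]
      norm_num
    · rw [dlt_ne hia, dlt_ne hib, hrest i hia hib]
      norm_num

variable {J : Type} [Nontrivial J]

theorem lattice (n : J → I → ℤ) (deg : I → ℤ) (hdeg : ∀ i, 0 < deg i)
    (h2 : ∀ j k, j ≠ k → ∑ i, (n j i - n k i) ^ 2 = 2)
    (hd : ∀ j k, ∑ i, (n j i - n k i) * deg i = 0) :
    ∃ (ε : ℤ) (m : I → ℤ) (γ : J → I), (ε = 1 ∨ ε = -1) ∧ Injective γ ∧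
      ∀ j i, n j i = m i + ε * dlt (γ j) i := by
  classical
  have hpair : ∀ j k, j ≠ k → ∃ a b, a ≠ b ∧ ∀ i, n j i - n k i = dlt a i - dlt b i :=
    fun j k hjk => two_squares hdeg (h2 j k hjk) (hd j k)
  obtain ⟨j₀, j₁, h01⟩ := exists_pair_ne J
  obtain ⟨α, β, hαβ, hu⟩ := hpair j₀ j₁ h01
  -- the type of an index
  have htype : ∀ k, k ≠ j₀ → k ≠ j₁ →
      (∃ b, b ≠ α ∧ b ≠ β ∧ ∀ i, n k i = n j₀ i - dlt α i + dlt b i) ∨
      (∃ a, a ≠ α ∧ a ≠ β ∧ ∀ i, n k i = n j₀ i + dlt β i - dlt a i) := by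
    intro k hk0 hk1
    obtain ⟨a, b, hab, hv⟩ := hpair j₀ k hk0.symm
    have h3 := h2 j₁ k hk1.symm
    have h4 := h2 j₀ j₁ h01
    have h5 := h2 j₀ k hk0.symm
    -- the inner product
    have h6 : ∑ i, (n j₀ i - n j₁ i) * (n j₀ i - n k i) = 1 := by
      have h7 : ∑ i, (n j₁ i - n k i) ^ 2 = ∑ i, (n j₀ i - n j₁ i) ^ 2 + ∑ i, (n j₀ i - n k i) ^ 2 -
          2 * ∑ i, (n j₀ i - n j₁ i) * (n j₀ i - n k i) := by
        rw [Finset.mul_sum, ← Finset.sum_add_distrib, ← Finset.sum_sub_distrib]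
        apply Finset.sum_congr rfl
        intro i _
        ring
      rw [h3, h4, h5] at h7
      omega
    have h7 : ∑ i, (n j₀ i - n j₁ i) * (n j₀ i - n k i) =
        (dlt α a - dlt β a) - (dlt α b - dlt β b) := by
      have h8 : ∀ i, (n j₀ i - n j₁ i) * (n j₀ i - n k i) =
          (dlt α i - dlt β i) * dlt a i - (dlt α i - dlt β i) * dlt b i := by
        intro i
        rw [hu i, hv i]
        ring
      simp only [h8]
      rw [Finset.sum_sub_distrib, sum_mul_dlt (fun i => dlt α i - dlt β i),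
        sum_mul_dlt (fun i => dlt α i - dlt β i)]
    rw [h7] at h6
    by_cases h8 : a = α
    · left
      subst h8
      refine ⟨b, hab.symm, ?_, fun i => ?_⟩
      · rintro rfl
        rw [dlt_self, dlt_self, dlt_ne hab, dlt_ne hab.symm] at h6
        omega
      · have := hv i
        omega
    · right
      by_cases h9 : b = β
      · subst h9
        refine ⟨a, h8, hab, fun i => ?_⟩
        have := hv i
        omega
      · exfalso
        have e1 : dlt α a = 0 := dlt_ne h8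
        have e2 : dlt β b = 0 := dlt_ne h9
        have e3 : 0 ≤ dlt β a := by unfold dlt; split_ifs <;> norm_num
        have e4 : 0 ≤ dlt α b := by unfold dlt; split_ifs <;> norm_num
        omega
  -- distinctness
  have hinj : ∀ (ε : ℤ) (m : I → ℤ) (γ : J → I), (∀ j i, n j i = m i + ε * dlt (γ j) i) →
      Injective γ := by
    intro ε m γ hγ j k hjk
    by_contra hne
    have h3 := h2 j k hne
    have h4 : ∀ i, n j i - n k i = 0 := by
      intro i
      rw [hγ j i, hγ k i, hjk]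
      ring
    simp [h4] at h3
  by_cases hplus : ∀ j, ∃ g, ∀ i, n j i = n j₀ i - dlt α i + dlt g i
  · choose γ hγ using hplus
    have hγ' : ∀ j i, n j i = (n j₀ i - dlt α i) + 1 * dlt (γ j) i := fun j i => by
      rw [hγ j i]
      ring
    exact ⟨1, fun i => n j₀ i - dlt α i, γ, Or.inl rfl, hinj _ _ _ hγ', hγ'⟩
  by_cases hminus : ∀ j, ∃ g, ∀ i, n j i = n j₀ i + dlt β i - dlt g i
  · choose γ hγ using hminus
    have hγ' : ∀ j i, n j i = (n j₀ i + dlt β i) + (-1) * dlt (γ j) i := fun j i => by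
      rw [hγ j i]
      ring
    exact ⟨-1, fun i => n j₀ i + dlt β i, γ, Or.inr rfl, hinj _ _ _ hγ', hγ'⟩
  exfalso
  push Not at hplus hminus
  obtain ⟨k, hk⟩ := hplus
  obtain ⟨l, hl⟩ := hminus
  have hk0 : k ≠ j₀ := by
    rintro rfl
    obtain ⟨i, hi⟩ := hk α
    apply hi
    ring
  have hk1 : k ≠ j₁ := by
    rintro rfl
    obtain ⟨i, hi⟩ := hk β
    apply hi
    have := hu i
    omega
  have hl0 : l ≠ j₀ := by
    rintro rfl
    obtain ⟨i, hi⟩ := hl β
    apply hi
    ring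
  have hl1 : l ≠ j₁ := by
    rintro rfl
    obtain ⟨i, hi⟩ := hl α
    apply hi
    have := hu i
    omega
  obtain ⟨a, haα, haβ, ha⟩ : ∃ a, a ≠ α ∧ a ≠ β ∧ ∀ i, n k i = n j₀ i + dlt β i - dlt a i := by
    rcases htype k hk0 hk1 with ⟨b, -, -, hb⟩ | h
    · obtain ⟨i, hi⟩ := hk b
      exact absurd (hb i) hi
    · exact h
  obtain ⟨b, hbα, hbβ, hb⟩ : ∃ b, b ≠ α ∧ b ≠ β ∧ ∀ i, n l i = n j₀ i - dlt α i + dlt b i := by
    rcases htype l hl0 hl1 with h | ⟨b, -, -, hb⟩
    · exact h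
    · obtain ⟨i, hi⟩ := hl b
      exact absurd (hb i) hi
  have hkl : k ≠ l := by
    rintro rfl
    obtain ⟨i, hi⟩ := hk b
    exact hi (hb i)
  have h3 := h2 k l hkl
  have h4 : ∑ j ∈ ({α, β, a} : Finset I), (n k j - n l j) ^ 2 ≤ ∑ j, (n k j - n l j) ^ 2 :=
    Finset.sum_le_sum_of_subset_of_nonneg (Finset.subset_univ _) (fun j _ _ => sq_nonneg _)
  rw [Finset.sum_insert (by
    simp only [Finset.mem_insert, Finset.mem_singleton, not_or]
    exact ⟨hαβ, haα.symm⟩), Finset.sum_insert (by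
    simp only [Finset.mem_singleton]
    exact haβ.symm), Finset.sum_singleton, h3] at h4
  have e1 : n k α - n l α = 1 := by
    rw [ha, hb, dlt_ne hαβ, dlt_ne haα.symm, dlt_self, dlt_ne hbα.symm]
    ring
  have e2 : n k β - n l β = 1 := by
    rw [ha, hb, dlt_self, dlt_ne haβ.symm, dlt_ne hαβ.symm, dlt_ne hbβ.symm]
    ring
  have e3 : n k a - n l a ≤ -1 := by
    have e4 : 0 ≤ dlt b a := by unfold dlt; split_ifs <;> norm_num
    rw [ha, hb, dlt_self, dlt_ne haβ, dlt_ne haα]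
    omega
  rw [e1, e2] at h4
  nlinarith

end

end Pool.Agent.Lib.MP_4f0ec0_al
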