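import Mathlib
import Pool.Agent.Lib.MP_4f0ec0_al.Chr2
import Pool.Agent.Lib.MP_4f0ec0_al.Lattice

/-! Exceptional characters attached to a trivial intersection subgroup. -/

set_option linter.unusedSectionVars false

namespace Pool.Agent.Lib.MP_4f0ec0_al

open Function Representation Module Subgroup

/-- Abelian trivial intersection subgroups whose normalizer acts freely. -/
structure TI {G : Type} [Group G] (A : Subgroup G) : Prop where
  comm : ∀ x ∈ A, ∀ y ∈ A, x * y = y * x
  ti : ∀ x ∈ A, x ≠ 1 → ∀ g, g⁻¹ * x * g ∈ A → g ∈ normalizer (A : Set G)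
  free : ∀ n ∈ normalizer (A : Set G), ∀ x ∈ A, x ≠ 1 → n * x = x * n → n ∈ A

section

variable {G : Type} [Group G] [Fintype G] {A : Subgroup G}

lemma tw_mem (n : normalizer (A : Set G)) : ∀ x ∈ A, (n : G)⁻¹ * x * ((n : G)⁻¹)⁻¹ ∈ A :=
  fun x hx => (Subgroup.mem_normalizer_iff.mp (inv_mem n.2) x).mp hx

/-- Conjugation by the inverse of an element of the normalizer. -/
noncomputable def tw (n : normalizer (A : Set G)) : A →* A :=
  (cjA A (n : G)⁻¹ (tw_mem n)).toMonoidHom

lemma tw_coe (n : normalizer (A : Set G)) (x : A) : ((tw n x : A) : G) = (n : G)⁻¹ * x * n := by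
  show (n : G)⁻¹ * x * ((n : G)⁻¹)⁻¹ = _
  rw [inv_inv]

lemma tw_tw (n k : normalizer (A : Set G)) (x : A) : tw n (tw k x) = tw (k * n) x := by
  apply Subtype.ext
  rw [tw_coe, tw_coe, tw_coe, Subgroup.coe_mul]
  group

lemma tw_one (x : A) : tw (1 : normalizer (A : Set G)) x = x := by
  apply Subtype.ext
  rw [tw_coe]
  simp

variable (hT : TI A)

include hT

/-- Free action on the linear characters. -/
lemma hat_free {l : Hat A} (hl : l ≠ 1) (k : normalizer (A : Set G))
    (hk : ∀ y, l (tw k y) = l y) : (k : G) ∈ A := by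
  by_contra hkA
  apply hl
  let c : A → A := fun y => y⁻¹ * tw k y
  have hc : Injective c := by
    intro y z h
    have h1 : y⁻¹ * tw k y = z⁻¹ * tw k z := h
    have hcomm : ∀ u v : A, u * v = v * u := fun u v => Subtype.ext (hT.comm u u.2 v v.2)
    have h2 : tw k (z * y⁻¹) = z * y⁻¹ := by
      rw [map_mul, map_inv]
      calc tw k z * (tw k y)⁻¹ = z * (z⁻¹ * tw k z) * (tw k y)⁻¹ := by group
        _ = z * (y⁻¹ * tw k y) * (tw k y)⁻¹ := by rw [h1]
        _ = z * y⁻¹ := by group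
    have h3 : (k : G)⁻¹ * ((z * y⁻¹ : A) : G) * k = ((z * y⁻¹ : A) : G) := by
      rw [← tw_coe, h2]
    have h4 : (k : G) * ((z * y⁻¹ : A) : G) = ((z * y⁻¹ : A) : G) * k := by
      calc (k : G) * ((z * y⁻¹ : A) : G) = k * ((k : G)⁻¹ * ((z * y⁻¹ : A) : G) * k) := by rw [h3]
        _ = ((z * y⁻¹ : A) : G) * k := by group
    by_contra hne
    apply hkA
    apply hT.free k k.2 _ (z * y⁻¹ : A).2 _ h4
    intro h5
    apply hne
    have h6 : z * y⁻¹ = 1 := Subtype.ext h5
    exact (mul_inv_eq_one.mp h6).symm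
  have hc' : Surjective c := Finite.injective_iff_surjective.mp hc
  apply MonoidHom.ext
  intro a
  obtain ⟨y, rfl⟩ := hc' a
  show l (y⁻¹ * tw k y) = 1
  rw [map_mul, map_inv, hk, inv_mul_cancel]

/-- The number of elements of the normalizer moving a linear character to another one. -/
lemma card_move {l : Hat A} (hl : l ≠ 1) (n₀ : normalizer (A : Set G)) :
    Nat.card {n : normalizer (A : Set G) // l.comp (tw n) = l.comp (tw n₀)} = Nat.card A := by
  refine Nat.card_congr ⟨fun n => ⟨(n₀ : G)⁻¹ * n.1, ?_⟩, fun a => ⟨n₀ * ⟨a, le_normalizer a.2⟩, ?_⟩,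
    fun n => ?_, fun a => ?_⟩
  · have h1 := hat_free hT hl (n₀⁻¹ * n.1) (fun y => by
      have h2 : ∀ x, l (tw n.1 x) = l (tw n₀ x) := fun x => DFunLike.congr_fun n.2 x
      have h3 : tw (n₀⁻¹ * n.1) y = tw n.1 (tw n₀⁻¹ y) := (tw_tw _ _ _).symm
      rw [h3, h2, tw_tw, inv_mul_cancel, tw_one])
    exact h1
  · apply MonoidHom.ext
    intro x
    show l (tw (n₀ * ⟨a, le_normalizer a.2⟩) x) = l (tw n₀ x)
    rw [← tw_tw]
    congr 1
    apply Subtype.ext
    rw [tw_coe]
    show (a : G)⁻¹ * _ * a = _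
    rw [mul_assoc, hT.comm _ (tw n₀ x).2 a a.2]
    group
  · apply Subtype.ext
    apply Subtype.ext
    show (n₀ : G) * ((n₀ : G)⁻¹ * n.1) = n.1
    group
  · apply Subtype.ext
    show (n₀ : G)⁻¹ * ((n₀ : G) * a) = a
    group

omit hT in
lemma sum_normalizer (F : G → ℂ) (hF : ∀ g, g ∉ normalizer (A : Set G) → F g = 0) :
    ∑ g : G, F g = ∑ n : normalizer (A : Set G), F n := by
  classical
  have h1 : ∑ n : normalizer (A : Set G), F n =
      ∑ g ∈ Finset.univ.filter (fun g : G => g ∈ normalizer (A : Set G)), F g := by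
    refine Finset.sum_bij' (fun x _ => (x : G))
      (fun x hx => (⟨x, (Finset.mem_filter.mp hx).2⟩ : normalizer (A : Set G))) ?_ ?_ ?_ ?_ ?_
    · intro x _
      rw [Finset.mem_filter]
      exact ⟨Finset.mem_univ _, x.2⟩
    · intro x _
      exact Finset.mem_univ _
    · intro x _
      rfl
    · intro x _
      rfl
    · intro x _
      rfl
  rw [h1, Finset.sum_filter_of_ne]
  intro x _ hx
  by_contra hxA
  exact hx (hF x hxA)

/-- The values of an induced class function. -/
lemma indc_val (l : Hat A) {x : A} (hx : x ≠ 1) : indc A (lext l) x =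
    (Nat.card A : ℂ)⁻¹ * ∑ n : normalizer (A : Set G), ((l (tw n x) : ℂˣ) : ℂ) := by
  unfold indc
  congr 1
  rw [sum_normalizer (A := A)]
  · apply Finset.sum_congr rfl
    intro n _
    have h1 : (n : G)⁻¹ * x * n ∈ A := by rw [← tw_coe]; exact (tw n x).2
    rw [lext_mem l h1]
    congr 2
    apply Subtype.ext
    exact (tw_coe n x).symm
  · intro g hg
    apply lext_not_mem
    intro h1
    exact hg (hT.ti x x.2 (fun h => hx (Subtype.ext h)) g h1)

omit hT in
lemma indc_one (l : Hat A) : indc A (lext l) 1 = (Nat.card A : ℂ)⁻¹ * (Nat.card G : ℂ) := by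
  unfold indc
  congr 1
  have h1 : ∀ g : G, lext l (g⁻¹ * 1 * g) = 1 := by
    intro g
    have h2 : g⁻¹ * 1 * g = 1 := by group
    rw [h2, lext_mem l (one_mem A)]
    have h3 : (⟨1, one_mem A⟩ : A) = 1 := rfl
    rw [h3, map_one]
    rfl
  simp only [h1]
  simp [Nat.card_eq_fintype_card]

lemma indc_sub (l m : Hat A) (x : A) : indc A (lext l) x - indc A (lext m) x =
    (Nat.card A : ℂ)⁻¹ * ∑ n : normalizer (A : Set G),
      (((l (tw n x) : ℂˣ) : ℂ) - ((m (tw n x) : ℂˣ) : ℂ)) := by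
  by_cases hx : x = 1
  · subst hx
    rw [Subgroup.coe_one, indc_one, indc_one, sub_self]
    simp
  · rw [indc_val hT l hx, indc_val hT m hx, ← mul_sub, ← Finset.sum_sub_distrib]

/-- The relation of conjugacy under the normalizer. -/
def rel (l m : Hat A) : Prop := ∃ n : normalizer (A : Set G), m = l.comp (tw n)

omit hT in
lemma comp_tw_ne {l : Hat A} (hl : l ≠ 1) (n : normalizer (A : Set G)) : l.comp (tw n) ≠ 1 := by
  intro h
  apply hl
  apply MonoidHom.ext
  intro x
  have h1 := DFunLike.congr_fun h (tw n⁻¹ x)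
  have h2 : tw n (tw n⁻¹ x) = x := by rw [tw_tw, inv_mul_cancel, tw_one]
  rw [MonoidHom.comp_apply, h2] at h1
  exact h1

open Classical in
lemma sum_move {l : Hat A} (hl : l ≠ 1) (v : Hat A) :
    ∑ n : normalizer (A : Set G), (if l.comp (tw n) = v then (1 : ℂ) else 0) =
      if rel l v then (Nat.card A : ℂ) else 0 := by
  split_ifs with h
  · obtain ⟨n₀, rfl⟩ := h
    rw [← Finset.sum_filter, Finset.sum_const, nsmul_eq_mul, mul_one, ← card_move hT hl n₀]
    congr 1
    rw [Nat.card_eq_fintype_card, Fintype.card_subtype]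
  · apply Finset.sum_eq_zero
    intro n _
    rw [if_neg]
    intro h1
    exact h ⟨n, h1.symm⟩

open Classical in
lemma bil_theta {l m : Hat A} (hl : l ≠ 1) (hm : m ≠ 1) (v : Hat A) :
    bil (fun x => indc A (lext l) x - indc A (lext m) x) (indc A (lext v)) =
      (if rel l v then (1 : ℂ) else 0) - (if rel m v then (1 : ℂ) else 0) := by
  have h0 : (Nat.card A : ℂ) ≠ 0 := Nat.cast_ne_zero.mpr Nat.card_pos.ne'
  have hcl : IsClass (fun x => indc A (lext l) x - indc A (lext m) x) := by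
    intro g x
    show indc A (lext l) (g * x * g⁻¹) - indc A (lext m) (g * x * g⁻¹) = _
    rw [indc_isClass, indc_isClass]
  rw [bil_ind hcl]
  have h1 : ∑ x : A, (indc A (lext l) x - indc A (lext m) x) * ((v x⁻¹ : ℂˣ) : ℂ) =
      (Nat.card A : ℂ)⁻¹ * ∑ n : normalizer (A : Set G),
        ((if l.comp (tw n) = v then (Nat.card A : ℂ) else 0) -
          (if m.comp (tw n) = v then (Nat.card A : ℂ) else 0)) := by
    have h2 : ∀ x : A, (indc A (lext l) x - indc A (lext m) x) * ((v x⁻¹ : ℂˣ) : ℂ) =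
        ∑ n : normalizer (A : Set G), (Nat.card A : ℂ)⁻¹ *
          ((((l.comp (tw n)) x : ℂˣ) : ℂ) * ((v x⁻¹ : ℂˣ) : ℂ) -
            (((m.comp (tw n)) x : ℂˣ) : ℂ) * ((v x⁻¹ : ℂˣ) : ℂ)) := by
      intro x
      rw [indc_sub hT, mul_assoc, Finset.sum_mul, Finset.mul_sum]
      apply Finset.sum_congr rfl
      intro n _
      rw [MonoidHom.comp_apply, MonoidHom.comp_apply]
      ring
    simp only [h2]
    rw [Finset.sum_comm, Finset.mul_sum]
    apply Finset.sum_congr rfl
    intro n _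
    rw [← Finset.mul_sum, Finset.sum_sub_distrib, hat_orth, hat_orth]
  rw [h1]
  have h3 : ∀ n : normalizer (A : Set G),
      ((if l.comp (tw n) = v then (Nat.card A : ℂ) else 0) -
          (if m.comp (tw n) = v then (Nat.card A : ℂ) else 0)) =
      (Nat.card A : ℂ) * ((if l.comp (tw n) = v then (1 : ℂ) else 0) -
          (if m.comp (tw n) = v then (1 : ℂ) else 0)) := by
    intro n
    split_ifs <;> ring
  simp only [h3]
  rw [← Finset.mul_sum, Finset.sum_sub_distrib, sum_move hT hl, sum_move hT hm]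
  split_ifs <;> field_simp <;> ring

omit hT in
lemma rel_refl (l : Hat A) : rel l l := by
  refine ⟨1, ?_⟩
  apply MonoidHom.ext
  intro x
  rw [MonoidHom.comp_apply, tw_one]

omit hT in
lemma rel_symm {l m : Hat A} (h : rel l m) : rel m l := by
  obtain ⟨n, rfl⟩ := h
  refine ⟨n⁻¹, ?_⟩
  apply MonoidHom.ext
  intro x
  rw [MonoidHom.comp_apply, MonoidHom.comp_apply, tw_tw, inv_mul_cancel, tw_one]

omit hT in
lemma rel_trans {l m v : Hat A} (h : rel l m) (h' : rel m v) : rel l v := by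
  obtain ⟨n, rfl⟩ := h
  obtain ⟨k, rfl⟩ := h'
  refine ⟨k * n, ?_⟩
  apply MonoidHom.ext
  intro x
  rw [MonoidHom.comp_apply, MonoidHom.comp_apply, MonoidHom.comp_apply, tw_tw]

/-- The squared norm of a difference. -/
lemma norm_two {l m : Hat A} (hl : l ≠ 1) (hm : m ≠ 1) (hlm : ¬ rel l m) :
    ∑ χ : IrrC G, (mlt χ l - mlt χ m) ^ 2 = 2 := by
  classical
  have hcl : IsClass (fun x => indc A (lext l) x - indc A (lext m) x) := by
    intro g x
    show indc A (lext l) (g * x * g⁻¹) - indc A (lext m) (g * x * g⁻¹) = _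
    rw [indc_isClass, indc_isClass]
  have h1 := parseval (h := fun x => indc A (lext l) x - indc A (lext m) x) hcl
  rw [bil_sub_right, bil_theta hT hl hm, bil_theta hT hl hm, if_pos (rel_refl l),
    if_neg (fun h => hlm (rel_symm h)), if_neg hlm, if_pos (rel_refl m)] at h1
  have h2 : ∀ χ : IrrC G, bil (fun x => indc A (lext l) x - indc A (lext m) x) χ.1 =
      ((mlt χ l - mlt χ m : ℤ) : ℂ) := by
    intro χ
    rw [bil_comm, bil_sub_right, mlt_spec, mlt_spec]
    push_cast
    ring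
  simp only [h2] at h1
  have h3 : ((∑ χ : IrrC G, (mlt χ l - mlt χ m) ^ 2 : ℤ) : ℂ) = ((2 : ℤ) : ℂ) := by
    push_cast at h1 ⊢
    rw [show ((2 : ℂ)) = 1 - 0 - (0 - 1) by norm_num, h1]
    apply Finset.sum_congr rfl
    intro χ _
    ring
  exact_mod_cast h3

omit hT in
/-- The difference as a combination of irreducible characters. -/
lemma theta_expand (l m : Hat A) (x : G) : indc A (lext l) x - indc A (lext m) x =
    ∑ χ : IrrC G, ((mlt χ l - mlt χ m : ℤ) : ℂ) * χ.1 x := by
  have hcl : IsClass (fun x => indc A (lext l) x - indc A (lext m) x) := by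
    intro g x
    show indc A (lext l) (g * x * g⁻¹) - indc A (lext m) (g * x * g⁻¹) = _
    rw [indc_isClass, indc_isClass]
  rw [expand hcl x]
  apply Finset.sum_congr rfl
  intro χ _
  rw [bil_comm, bil_sub_right, mlt_spec, mlt_spec]
  push_cast
  ring

omit hT in
/-- Conjugate linear characters have the same multiplicities. -/
lemma mlt_rel {l m : Hat A} (h : rel l m) (χ : IrrC G) : mlt χ l = mlt χ m := by
  obtain ⟨n, rfl⟩ := h
  have h1 : bil χ.1 (indc A (lext l)) = bil χ.1 (indc A (lext (l.comp (tw n)))) := by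
    rw [bil_ind χ.2.isClass, bil_ind χ.2.isClass]
    congr 1
    symm
    refine Fintype.sum_equiv (cjA A (n : G)⁻¹ (tw_mem n)).toEquiv _ _ (fun x => ?_)
    have h2 : ((cjA A (n : G)⁻¹ (tw_mem n) x : A) : G) = (n : G)⁻¹ * x * ((n : G)⁻¹)⁻¹ := rfl
    show χ.1 x * (((l.comp (tw n)) x⁻¹ : ℂˣ) : ℂ) =
      χ.1 ((cjA A (n : G)⁻¹ (tw_mem n) x : A) : G) * ((l (cjA A (n : G)⁻¹ (tw_mem n) x)⁻¹ : ℂˣ) : ℂ)
    rw [h2, χ.2.isClass, MonoidHom.comp_apply, map_inv (tw n)]
    rfl
  rw [mlt_spec, mlt_spec] at h1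
  exact_mod_cast h1

end

end Pool.Agent.Lib.MP_4f0ec0_al
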