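import Mathlib
import Pool.Agent.Lib.MP_4f0ec0_al.Chr3

/-! Exceptional characters. -/

set_option linter.unusedSectionVars false

namespace Pool.Agent.Lib.MP_4f0ec0_al

open Function Representation Module Subgroup

section

variable {G : Type} [Group G] [Fintype G]

/-- Conjugacy of nontrivial linear characters. -/
def hatSetoid (A : Subgroup G) : Setoid {l : Hat A // l ≠ 1} where
  r l m := rel l.1 m.1
  iseqv := ⟨fun l => rel_refl l.1, fun h => rel_symm h, fun h h' => rel_trans h h'⟩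

/-- Classes of nontrivial linear characters. -/
abbrev JQ (A : Subgroup G) : Type := Quotient (hatSetoid A)

/-- A representative. -/
noncomputable def rp {A : Subgroup G} (j : JQ A) : Hat A := (Quotient.out j).1

lemma rp_ne {A : Subgroup G} (j : JQ A) : rp j ≠ 1 := (Quotient.out j).2

lemma rp_rel {A : Subgroup G} (l : {l : Hat A // l ≠ 1}) :
    rel (rp (Quotient.mk (hatSetoid A) l)) l.1 := by
  have h := Quotient.exact (Quotient.out_eq (Quotient.mk (hatSetoid A) l))
  exact h

lemma rp_not_rel {A : Subgroup G} {j k : JQ A} (h : j ≠ k) : ¬ rel (rp j) (rp k) := by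
  intro h1
  apply h
  rw [← Quotient.out_eq j, ← Quotient.out_eq k]
  exact Quotient.sound h1

variable {A : Subgroup G} (hT : TI A)

include hT

lemma jq_finite : Finite (JQ A) := by
  have := hat_finite hT.comm
  infer_instance

/-- The number of classes of linear characters. -/
lemma card_jq : Nat.card (JQ A) * Nat.card (normalizer (A : Set G)) =
    (Nat.card A - 1) * Nat.card A := by
  classical
  have hfin := hat_finite hT.comm
  have hJ := jq_finite hT
  have : Fintype (Hat A) := Fintype.ofFinite _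
  have : Fintype (JQ A) := Fintype.ofFinite _
  let f : normalizer (A : Set G) × JQ A → {l : Hat A // l ≠ 1} := fun p =>
    ⟨(rp p.2).comp (tw p.1), comp_tw_ne (rp_ne p.2) p.1⟩
  have h1 : Nat.card (normalizer (A : Set G) × JQ A) =
      ∑ l : {l : Hat A // l ≠ 1}, Nat.card {p // f p = l} := by
    rw [← Nat.card_congr (Equiv.sigmaFiberEquiv f), Nat.card_sigma]
  have h2 : ∀ l : {l : Hat A // l ≠ 1}, Nat.card {p // f p = l} = Nat.card A := by
    intro l
    obtain ⟨n₀, hn₀⟩ := rp_rel l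
    rw [← card_move hT (rp_ne (Quotient.mk (hatSetoid A) l)) n₀]
    have hcls : ∀ p : normalizer (A : Set G) × JQ A, f p = l → p.2 = Quotient.mk (hatSetoid A) l := by
      intro p hp
      rw [← Quotient.out_eq p.2]
      apply Quotient.sound
      refine ⟨p.1, ?_⟩
      exact (congrArg Subtype.val hp).symm
    refine Nat.card_congr ⟨fun p => ⟨p.1.1, ?_⟩, fun n => ⟨(n.1, Quotient.mk (hatSetoid A) l), ?_⟩,
      fun p => ?_, fun n => ?_⟩
    · have h3 := congrArg Subtype.val p.2
      have h4 := hcls p.1 p.2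
      rw [← hn₀, ← h4]
      exact h3
    · apply Subtype.ext
      show (rp (Quotient.mk (hatSetoid A) l)).comp (tw n.1) = l.1
      rw [n.2, ← hn₀]
    · apply Subtype.ext
      apply Prod.ext
      · rfl
      · exact (hcls p.1 p.2).symm
    · rfl
  simp only [h2] at h1
  rw [Finset.sum_const, smul_eq_mul, Nat.card_prod, Finset.card_univ] at h1
  have h3 : Fintype.card {l : Hat A // l ≠ 1} = Nat.card A - 1 := by
    rw [← hat_card hT.comm, Nat.card_eq_fintype_card]
    rw [Fintype.card_subtype_compl]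
    simp
  rw [h3] at h1
  rw [mul_comm, h1]

open Classical in
/-- The exceptional characters. -/
theorem exists_exc [Fintype (JQ A)] (hw : 1 < Nat.card (JQ A)) :
    ∃ (ε : ℤ) (γ : JQ A → IrrC G) (c : IrrC G → ℤ), (ε = 1 ∨ ε = -1) ∧ Injective γ ∧
      (∀ χ, (∀ j, γ j ≠ χ) → ∀ x ∈ A, x ≠ 1 → χ.1 x = (c χ : ℂ)) ∧
      (∀ j k, c (γ j) = c (γ k)) ∧
      (∀ x ∈ A, x ≠ 1 → ∑ j, (γ j).1 x = ((∑ j, c (γ j) - ε : ℤ) : ℂ)) ∧
      (∀ j k x, (∀ g, g⁻¹ * x * g ∈ A → x = 1) → (γ j).1 x = (γ k).1 x) ∧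
      (∀ j, (γ j).1 ≠ fun _ => 1) := by
  have hfin := hat_finite hT.comm
  have : Fintype (Hat A) := Fintype.ofFinite _
  have hnt : Nontrivial (JQ A) := Finite.one_lt_card_iff_nontrivial.mp hw
  choose d hd0 hd using fun χ : IrrC G => χ.2.degree
  have hone : ∀ l m : Hat A, indc A (lext l) (1 : G) - indc A (lext m) 1 = 0 := by
    intro l m
    rw [indc_one, indc_one, sub_self]
  obtain ⟨ε, m, γ, hε, hγ, hn⟩ := lattice (fun (j : JQ A) (χ : IrrC G) => mlt χ (rp j))
    (fun χ => (d χ : ℤ)) (fun χ => by exact_mod_cast hd0 χ)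
    (fun j k hjk => norm_two hT (rp_ne j) (rp_ne k) (rp_not_rel hjk))
    (fun j k => by
      have h1 := theta_expand (rp j) (rp k) (1 : G)
      rw [hone] at h1
      have h2 : ((∑ χ : IrrC G, (mlt χ (rp j) - mlt χ (rp k)) * (d χ : ℤ) : ℤ) : ℂ) = ((0 : ℤ) : ℂ) := by
        push_cast
        rw [h1]
        apply Finset.sum_congr rfl
        intro χ _
        rw [hd χ]
        push_cast
        ring
      exact_mod_cast h2)
  have hε0 : ε ≠ 0 := by rcases hε with h | h <;> rw [h] <;> norm_num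
  -- multiplicities of arbitrary nontrivial linear characters
  have hml : ∀ (l : {l : Hat A // l ≠ 1}) (χ : IrrC G),
      mlt χ l.1 = m χ + ε * dlt (γ (Quotient.mk (hatSetoid A) l)) χ := by
    intro l χ
    rw [← mlt_rel (rp_rel l) χ]
    exact hn _ χ
  -- differences
  have hdiff : ∀ j k x, indc A (lext (rp j)) x - indc A (lext (rp k)) x =
      (ε : ℂ) * ((γ j).1 x - (γ k).1 x) := by
    intro j k x
    rw [theta_expand]
    have h1 : ∀ χ : IrrC G, ((mlt χ (rp j) - mlt χ (rp k) : ℤ) : ℂ) * χ.1 x =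
        (ε : ℂ) * ((if χ = γ j then χ.1 x else 0) - (if χ = γ k then χ.1 x else 0)) := by
      intro χ
      rw [hn j χ, hn k χ]
      unfold dlt
      split_ifs <;> push_cast <;> ring
    simp only [h1]
    rw [← Finset.mul_sum, Finset.sum_sub_distrib]
    simp
  have hsq : (ε : ℂ) * (ε : ℂ) = 1 := by
    rcases hε with h | h <;> rw [h] <;> norm_num
  have hbil : ∀ j k v, (mlt (γ j) v : ℂ) - (mlt (γ k) v : ℂ) =
      (ε : ℂ) * ((if rel (rp j) v then (1 : ℂ) else 0) - (if rel (rp k) v then (1 : ℂ) else 0)) := by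
    intro j k v
    have h1 := bil_theta hT (rp_ne j) (rp_ne k) v
    have h2 : (fun x => indc A (lext (rp j)) x - indc A (lext (rp k)) x) =
        fun x => (ε : ℂ) * ((γ j).1 x - (γ k).1 x) := funext (hdiff j k)
    rw [h2, bil_smul_left, bil_sub_left, mlt_spec, mlt_spec] at h1
    rw [← h1, ← mul_assoc, hsq, one_mul]
  -- the values
  have hval : ∀ (χ : IrrC G) (x : A), x ≠ 1 → χ.1 x = ((mlt χ (1 : Hat A) - m χ : ℤ) : ℂ) +
      (ε : ℂ) * ∑ l : {l : Hat A // l ≠ 1},
        (if χ = γ (Quotient.mk (hatSetoid A) l) then ((l.1 x : ℂˣ) : ℂ) else 0) := by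
    intro χ x hx
    rw [res_expand hT.comm χ x, Fintype.sum_eq_add_sum_subtype_ne _ (1 : Hat A)]
    have h1 := hat_dual hT.comm x
    rw [if_neg hx, Fintype.sum_eq_add_sum_subtype_ne _ (1 : Hat A)] at h1
    simp only [MonoidHom.one_apply, Units.val_one, mul_one] at h1 ⊢
    have h2 : ∑ l : {l : Hat A // l ≠ 1}, (mlt χ l.1 : ℂ) * ((l.1 x : ℂˣ) : ℂ) =
        (m χ : ℂ) * ∑ l : {l : Hat A // l ≠ 1}, ((l.1 x : ℂˣ) : ℂ) +
        (ε : ℂ) * ∑ l : {l : Hat A // l ≠ 1},
          (if χ = γ (Quotient.mk (hatSetoid A) l) then ((l.1 x : ℂˣ) : ℂ) else 0) := by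
      rw [Finset.mul_sum, Finset.mul_sum, ← Finset.sum_add_distrib]
      apply Finset.sum_congr rfl
      intro l _
      rw [hml l χ]
      unfold dlt
      split_ifs <;> push_cast <;> ring
    rw [h2]
    have h3 : ∑ l : {l : Hat A // l ≠ 1}, ((l.1 x : ℂˣ) : ℂ) = -1 := by
      linear_combination h1
    rw [h3]
    push_cast
    ring
  refine ⟨ε, γ, fun χ => mlt χ (1 : Hat A) - m χ, hε, hγ, ?_, ?_, ?_, ?_, ?_⟩
  · intro χ hχ x hxA hx
    rw [hval χ ⟨x, hxA⟩ (fun h => hx (congrArg Subtype.val h))]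
    have h1 : ∀ l : {l : Hat A // l ≠ 1}, (if χ = γ (Quotient.mk (hatSetoid A) l) then
        ((l.1 ⟨x, hxA⟩ : ℂˣ) : ℂ) else 0) = 0 := fun l => if_neg (fun h => hχ _ h.symm)
    simp only [h1]
    simp
  · intro j k
    by_cases hjk : j = k
    · rw [hjk]
    · have h1 := hbil j k (rp j)
      rw [if_pos (rel_refl _), if_neg (fun h => rp_not_rel hjk (rel_symm h))] at h1
      have h2 := hbil j k 1
      have h3 : ∀ j : JQ A, ¬ rel (rp j) 1 := by
        rintro j ⟨n, hn'⟩
        exact comp_tw_ne (rp_ne j) n hn'.symm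
      rw [if_neg (h3 j), if_neg (h3 k)] at h2
      have h4 := hn j (γ j)
      have h5 := hn j (γ k)
      rw [dlt_self] at h4
      rw [dlt_ne (fun h => hjk (hγ h).symm)] at h5
      have h4' : mlt (γ j) (rp j) = m (γ j) + ε * 1 := h4
      have h5' : mlt (γ k) (rp j) = m (γ k) + ε * 0 := h5
      rw [h4', h5'] at h1
      have h6 : ((mlt (γ j) (1 : Hat A) - m (γ j) : ℤ) : ℂ) = ((mlt (γ k) (1 : Hat A) - m (γ k) : ℤ) : ℂ) := by
        push_cast at h1 ⊢
        linear_combination h2 - h1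
      exact_mod_cast h6
  · intro x hxA hx
    have hx' : (⟨x, hxA⟩ : A) ≠ 1 := fun h => hx (congrArg Subtype.val h)
    have h1 : ∀ j, (γ j).1 x = ((mlt (γ j) (1 : Hat A) - m (γ j) : ℤ) : ℂ) +
      (ε : ℂ) * ∑ l : {l : Hat A // l ≠ 1},
        (if γ j = γ (Quotient.mk (hatSetoid A) l) then ((l.1 ⟨x, hxA⟩ : ℂˣ) : ℂ) else 0) :=
      fun j => hval (γ j) ⟨x, hxA⟩ hx'
    simp only [h1]
    rw [Finset.sum_add_distrib, ← Finset.mul_sum, Finset.sum_comm]
    have h2 : ∀ l : {l : Hat A // l ≠ 1}, ∑ j : JQ A,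
        (if γ j = γ (Quotient.mk (hatSetoid A) l) then ((l.1 ⟨x, hxA⟩ : ℂˣ) : ℂ) else 0) =
        ((l.1 ⟨x, hxA⟩ : ℂˣ) : ℂ) := by
      intro l
      simp only [hγ.eq_iff]
      simp
    simp only [h2]
    have h3 := hat_dual hT.comm ⟨x, hxA⟩
    rw [if_neg hx', Fintype.sum_eq_add_sum_subtype_ne _ (1 : Hat A)] at h3
    simp only [MonoidHom.one_apply, Units.val_one] at h3
    have h4 : ∑ l : {l : Hat A // l ≠ 1}, ((l.1 ⟨x, hxA⟩ : ℂˣ) : ℂ) = -1 := by
      linear_combination h3
    rw [h4]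
    push_cast
    ring
  · intro j k x hx
    have h1 := hdiff j k x
    have h2 : indc A (lext (rp j)) x - indc A (lext (rp k)) x = 0 := by
      by_cases hx1 : x = 1
      · rw [hx1]
        exact hone _ _
      · have h3 : ∀ l : Hat A, indc A (lext l) x = 0 := by
          intro l
          unfold indc
          have h4 : ∀ g : G, lext l (g⁻¹ * x * g) = 0 := fun g =>
            lext_not_mem l (fun h => hx1 (hx g h))
          simp only [h4]
          simp
        rw [h3, h3, sub_self]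
    rw [h2] at h1
    have h3 : (ε : ℂ) ≠ 0 := by exact_mod_cast hε0
    rcases mul_eq_zero.mp h1.symm with h | h
    · exact absurd h h3
    · exact sub_eq_zero.mp h
  · intro j hj
    obtain ⟨k, hk⟩ := exists_ne j
    have h1 : ∀ l : Hat A, l ≠ 1 → mlt (γ j) l = 0 := by
      intro l hl
      have h2 := mlt_spec (γ j) l
      rw [bil_ind (γ j).2.isClass] at h2
      have h3 : ∑ x : A, (γ j).1 x * ((l x⁻¹ : ℂˣ) : ℂ) = 0 := by
        have h4 := hat_orth (1 : Hat A) l
        rw [if_neg (fun h => hl h.symm)] at h4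
        rw [← h4]
        apply Finset.sum_congr rfl
        intro x _
        rw [hj]
        rfl
      rw [h3, mul_zero] at h2
      exact_mod_cast h2.symm
    have h2 := hn j (γ j)
    have h3 := hn k (γ j)
    rw [dlt_self] at h2
    rw [dlt_ne (fun h => hk (hγ h).symm)] at h3
    have h2' : mlt (γ j) (rp j) = m (γ j) + ε * 1 := h2
    have h3' : mlt (γ j) (rp k) = m (γ j) + ε * 0 := h3
    rw [h1 _ (rp_ne j)] at h2'
    rw [h1 _ (rp_ne k)] at h3'
    omega

end

end Pool.Agent.Lib.MP_4f0ec0_al
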