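import Mathlib
import Pool.Agent.Lib.MP_4f0ec0_al.Part1

/-! Local analysis, part 5: general lemmas for the structure of centralizers. -/

set_option linter.unusedSectionVars false

namespace Pool.Agent.Lib.MP_4f0ec0_al

open Function Subgroup

section

variable {G : Type} [Group G] [Finite G]

lemma cyc_mem {V A : Subgroup G} (hV : IsCyclic V) (hA : A ≤ V) {v : G} (hv : v ∈ V)
    (h : v ^ Nat.card A = 1) : v ∈ A := by
  classical
  have : Fintype V := Fintype.ofFinite V
  have h1 := IsCyclic.card_pow_eq_one_le (α := V) (n := Nat.card A) Nat.card_pos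
  set F : Finset V := Finset.univ.filter (fun a : V => a ^ Nat.card A = 1) with hF
  set E : Finset V := Finset.univ.filter (fun a : V => (a : G) ∈ A) with hE
  have h2 : E ⊆ F := by
    intro a ha
    rw [hE, Finset.mem_filter] at ha
    rw [hF, Finset.mem_filter]
    refine ⟨Finset.mem_univ _, ?_⟩
    have h3 : (⟨(a : G), ha.2⟩ : A) ^ Nat.card A = 1 := pow_card_eq_one'
    have h4 : (a : G) ^ Nat.card A = 1 := congrArg Subtype.val h3
    apply Subtype.ext
    rw [Subgroup.coe_pow, h4]
    rfl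
  have h3 : E.card = Nat.card A := by
    rw [← Nat.card_eq_finsetCard]
    refine Nat.card_congr ⟨fun a => ⟨a.1, (Finset.mem_filter.mp a.2).2⟩, fun a => ⟨⟨a, hA a.2⟩,
      Finset.mem_filter.mpr ⟨Finset.mem_univ _, a.2⟩⟩, fun a => rfl, fun a => rfl⟩
  have h4 : E = F := Finset.eq_of_subset_of_card_le h2 (by rw [h3]; exact h1)
  have h5 : (⟨v, hv⟩ : V) ∈ F := by
    rw [hF, Finset.mem_filter]
    exact ⟨Finset.mem_univ _, Subtype.ext h⟩
  rw [← h4, hE, Finset.mem_filter] at h5
  exact h5.2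

lemma cyc_inv {N V A : Subgroup G} (hV : IsCyclic V) (hA : A ≤ V) (hN : Inv N V) : Inv N A := by
  intro g hg x hx
  apply cyc_mem hV hA (hN g hg x (hA hx))
  rw [conj_pow]
  have h3 : (⟨x, hx⟩ : A) ^ Nat.card A = 1 := pow_card_eq_one'
  have h4 : x ^ Nat.card A = 1 := congrArg Subtype.val h3
  rw [h4]
  group

lemma cyc_comm {V : Subgroup G} (hV : IsCyclic V) {v w : G} (hv : v ∈ V) (hw : w ∈ V) :
    v * w = w * v := by
  obtain ⟨g, hg⟩ := hV.exists_generator
  obtain ⟨i, hi⟩ := Subgroup.mem_zpowers_iff.mp (hg ⟨v, hv⟩)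
  obtain ⟨j, hj⟩ := Subgroup.mem_zpowers_iff.mp (hg ⟨w, hw⟩)
  have h1 : (⟨v, hv⟩ : V) * ⟨w, hw⟩ = ⟨w, hw⟩ * ⟨v, hv⟩ := by
    rw [← hi, ← hj, ← zpow_add, ← zpow_add, add_comm]
  exact congrArg Subtype.val h1

lemma cyc_eq {V A B : Subgroup G} (hV : IsCyclic V) (hA : A ≤ V) (hB : B ≤ V)
    (h : Nat.card A = Nat.card B) : A = B := by
  symm
  apply Subgroup.eq_of_le_of_card_ge _ h.le
  intro x hx
  apply cyc_mem hV hA (hB hx)
  rw [h]
  have h3 : (⟨x, hx⟩ : B) ^ Nat.card B = 1 := pow_card_eq_one'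
  exact congrArg Subtype.val h3

/-- An element of `C = K P`. -/
lemma exists_mul_of_card {C K P : Subgroup G} (hK : K ≤ C) (hP : P ≤ C) (hd : K ⊓ P = ⊥)
    (hc : Nat.card C = Nat.card P * Nat.card K) {w : G} (hw : w ∈ C) :
    ∃ k ∈ K, ∃ x ∈ P, w = k * x := by
  classical
  let f : K × P → C := fun z => ⟨z.1 * z.2, mul_mem (hK z.1.2) (hP z.2.2)⟩
  have hf : Injective f := by
    rintro ⟨k, x⟩ ⟨k', x'⟩ h
    have h1 : (k : G) * x = k' * x' := congrArg Subtype.val h
    have h2 : (k' : G)⁻¹ * k = x' * (x : G)⁻¹ := by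
      calc (k' : G)⁻¹ * k = (k' : G)⁻¹ * (k * x) * (x : G)⁻¹ := by group
        _ = (k' : G)⁻¹ * (k' * x') * (x : G)⁻¹ := by rw [h1]
        _ = x' * (x : G)⁻¹ := by group
    have h3 : (k' : G)⁻¹ * k ∈ K ⊓ P := by
      rw [Subgroup.mem_inf]
      exact ⟨mul_mem (inv_mem k'.2) k.2, by rw [h2]; exact mul_mem x'.2 (inv_mem x.2)⟩
    rw [hd, Subgroup.mem_bot] at h3
    have h4 : (k : G) = k' := (inv_mul_eq_one.mp h3).symm
    have h5 : (x : G) = x' := by
      rw [h4] at h1
      exact mul_left_cancel h1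
    exact Prod.ext (Subtype.ext h4) (Subtype.ext h5)
  have hb : Bijective f := by
    rw [Nat.bijective_iff_injective_and_card]
    exact ⟨hf, by rw [Nat.card_prod, hc, mul_comm]⟩
  obtain ⟨⟨k, x⟩, hkx⟩ := hb.2 ⟨w, hw⟩
  exact ⟨k, k.2, x, x.2, (congrArg Subtype.val hkx).symm⟩

lemma exists_pow_prime {z : G} {t : ℕ} (ht : t ∣ orderOf z) : ∃ k : ℕ, orderOf (z ^ k) = t := by
  obtain ⟨c, hc⟩ := ht
  have hpos := orderOf_pos z
  have hc0 : 0 < c := by
    rcases Nat.eq_zero_or_pos c with h3 | h3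
    · rw [h3, mul_zero] at hc
      omega
    · exact h3
  refine ⟨c, ?_⟩
  rw [orderOf_pow, hc, Nat.gcd_eq_right (dvd_mul_left c _), Nat.mul_div_cancel _ hc0]

lemma mem_centralizer_singleton' {x z : G} : z ∈ centralizer ({x} : Set G) ↔ z * x = x * z := by
  rw [Subgroup.mem_centralizer_iff]
  simp only [Set.mem_singleton_iff, forall_eq]
  exact eq_comm

lemma centralizer_pow_le (z : G) (k : ℕ) : centralizer ({z} : Set G) ≤ centralizer {z ^ k} := by
  intro w hw
  rw [mem_centralizer_singleton'] at hw ⊢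
  have h1 : Commute w z := hw
  exact h1.pow_right k

lemma self_mem_centralizer (z : G) : z ∈ centralizer ({z} : Set G) :=
  mem_centralizer_singleton'.mpr rfl

lemma centralizer_zpowers (z : G) : centralizer ((Subgroup.zpowers z : Subgroup G) : Set G) =
    centralizer {z} := by
  apply le_antisymm
  · intro w hw
    rw [mem_centralizer_singleton']
    exact (Subgroup.mem_centralizer_iff.mp hw z (Subgroup.mem_zpowers z)).symm
  · intro w hw
    rw [Subgroup.mem_centralizer_iff]
    intro y hy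
    obtain ⟨i, rfl⟩ := Subgroup.mem_zpowers_iff.mp hy
    have h1 : Commute w z := mem_centralizer_singleton'.mp hw
    exact (h1.zpow_right i).symm.eq

lemma mem_normalizer_zpowers {g z : G} (h : g * z * g⁻¹ ∈ Subgroup.zpowers z) :
    g ∈ normalizer ((Subgroup.zpowers z : Subgroup G) : Set G) := by
  apply mem_normalizer_of
  intro x hx
  obtain ⟨i, rfl⟩ := Subgroup.mem_zpowers_iff.mp hx
  have h1 : g * z ^ i * g⁻¹ = (g * z * g⁻¹) ^ i := by
    have := map_zpow (MulAut.conj g) z i
    exact this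
  rw [h1]
  exact Subgroup.zpow_mem _ h i

lemma centralizer_le_normalizer_zpowers (z : G) : centralizer ({z} : Set G) ≤
    normalizer ((Subgroup.zpowers z : Subgroup G) : Set G) := by
  intro g hg
  apply mem_normalizer_zpowers
  have h1 := mem_centralizer_singleton'.mp hg
  have h2 : g * z * g⁻¹ = z := by rw [h1, mul_inv_cancel_right]
  rw [h2]
  exact Subgroup.mem_zpowers z

/-- If `z`, `w` have abelian centralizers and commute then these are equal. -/
lemma centralizer_eq_of_comm {z w : G}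
    (hz : ∀ x ∈ centralizer ({z} : Set G), ∀ y ∈ centralizer ({z} : Set G), x * y = y * x)
    (hw : ∀ x ∈ centralizer ({w} : Set G), ∀ y ∈ centralizer ({w} : Set G), x * y = y * x)
    (h : z * w = w * z) : centralizer ({z} : Set G) = centralizer {w} := by
  apply le_antisymm
  · intro x hx
    rw [mem_centralizer_singleton']
    exact hz x hx w (mem_centralizer_singleton'.mpr h.symm)
  · intro x hx
    rw [mem_centralizer_singleton']
    exact hw x hx z (mem_centralizer_singleton'.mpr h)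

end

namespace Cfg

variable {G : Type} [Group G] [Finite G] {p q a M : ℕ}

lemma all_sylow (h : Cfg G p q a M) [Fact p.Prime] (P : Sylow p G) :
    q ∣ Nat.card ((P : Subgroup G).normalizerMonoidHom).range := by
  obtain ⟨P₀, h₀⟩ := h.exists_sylow
  obtain ⟨g, hg⟩ := MulAction.exists_smul_eq G P₀ P
  have hP : (P : Subgroup G) = cnj g P₀ := by
    ext x
    rw [← hg, mem_cnj]
    exact mem_smul_sylow g P₀ x
  rw [index_ker_normalizer] at h₀ ⊢
  have hC : centralizer ((P : Subgroup G) : Set G) = cnj g (centralizer ((P₀ : Subgroup G) : Set G)) := by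
    ext x
    rw [mem_cnj, Subgroup.mem_centralizer_iff, Subgroup.mem_centralizer_iff, hP]
    constructor
    · intro h1 z hz
      have h2 := h1 _ (cnj_mem (g := g) hz)
      calc z * (g⁻¹ * x * g) = g⁻¹ * ((g * z * g⁻¹) * x) * g := by group
        _ = g⁻¹ * (x * (g * z * g⁻¹)) * g := by rw [h2]
        _ = g⁻¹ * x * g * z := by group
    · intro h1 z hz
      have h2 := h1 _ (mem_cnj.mp hz)
      calc z * x = g * ((g⁻¹ * z * g) * (g⁻¹ * x * g)) * g⁻¹ := by group
        _ = g * ((g⁻¹ * x * g) * (g⁻¹ * z * g)) * g⁻¹ := by rw [h2]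
        _ = x * z := by group
  have hN : normalizer ((P : Subgroup G) : Set G) = cnj g (normalizer ((P₀ : Subgroup G) : Set G)) := by
    ext x
    rw [mem_cnj, mem_normalizer_cnj, mem_normalizer_cnj, hP, cnj_mul (g⁻¹ * x) g, cnj_mul g⁻¹ x]
    constructor
    · intro h1
      rw [h1, cnj_inv_cnj]
    · intro h1
      have h2 := congrArg (cnj g) h1
      rwa [cnj_cnj_inv] at h2
  rw [hC, hN]
  unfold cnj
  rw [Subgroup.relIndex_map_map_of_injective _ _ (MulAut.conj g).injective]
  exact h₀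

/-- Every element of order `p` lies in a Sylow subgroup. -/
lemma exists_sylow_mem [Fact p.Prime] {x : G} (hx : orderOf x = p) :
    ∃ P : Sylow p G, x ∈ P := by
  have h1 : IsPGroup p (Subgroup.zpowers x) := by
    apply IsPGroup.of_card (n := 1)
    rw [Nat.card_zpowers, hx, pow_one]
  obtain ⟨P, hP⟩ := h1.exists_le_sylow
  exact ⟨P, hP (Subgroup.mem_zpowers x)⟩

/-- The order of the group induced on a subgroup of prime order. -/
lemma range_primes (h : Cfg G p q a M) {T : Subgroup G} (hT : (Nat.card T).Prime)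
    (hTM : Nat.card T ∣ M) : ∀ w, w.Prime → w ∣ Nat.card (T.normalizerMonoidHom).range → w = p := by
  intro w hw hwd
  have hwG : w ∣ Nat.card G :=
    (hwd.trans (Subgroup.card_range_dvd _)).trans (Subgroup.card_subgroup_dvd_card _)
  have hwu := hwd.trans (range_dvd_sub_one T hT rfl)
  by_contra hne
  rcases h.dvd_qM hw hne hwG with h3 | h3
  · rw [h3] at hwu
    exact h.hqt _ hT hTM hwu
  · exact not_cop_totient h.cop hw hT h3 hTM hwu

lemma range_ne_one (h : Cfg G p q a M) {T : Subgroup G} (hT : (Nat.card T).Prime)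
    (hTp : Nat.card T ≠ p) : Nat.card (T.normalizerMonoidHom).range ≠ 1 := by
  intro h3
  have hfT : Fact (Nat.card T).Prime := ⟨hT⟩
  rw [index_ker_normalizer, Subgroup.relIndex_eq_one] at h3
  have huG : Nat.card T ∣ Nat.card G := Subgroup.card_subgroup_dvd_card T
  let T' : Sylow (Nat.card T) G := Sylow.ofCard T (by
    have h4 : (Nat.card G).factorization (Nat.card T) = 1 := by
      have h5 : 1 ≤ (Nat.card G).factorization (Nat.card T) :=
        (hT.pow_dvd_iff_le_factorization Nat.card_pos.ne').mp (by rwa [pow_one])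
      have h6 : ¬ 2 ≤ (Nat.card G).factorization (Nat.card T) := fun h7 =>
        h.not_sq hT hTp ((hT.pow_dvd_iff_le_factorization Nat.card_pos.ne').mpr h7)
      omega
    rw [h4, pow_one])
  exact burnside_simple h.simple huG T' h3

end Cfg

end Pool.Agent.Lib.MP_4f0ec0_al
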