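import Mathlib
import Pool.Agent.Lib.MP_4f0ec0_al.Loc5

/-! Local analysis, part 6: Sylow 2-subgroups of order 4. -/

set_option linter.unusedSectionVars false

namespace Pool.Agent.Lib.MP_4f0ec0_al

open Function Subgroup

lemma exists_of_dvd_totient {w m : ℕ} (hm : m ≠ 0) (hw : w.Prime) (h : w ∣ Nat.totient m)
    (hsq : Squarefree m) : ∃ r, r.Prime ∧ r ∣ m ∧ w ∣ r - 1 := by
  rw [Nat.totient_eq_prod_factorization hm, Finsupp.prod, Prime.dvd_finsetProd_iff hw.prime] at h
  obtain ⟨r, hr, hqr⟩ := h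
  have hrp : r.Prime := Nat.prime_of_mem_primeFactors (by simpa using hr)
  have hrm : r ∣ m := Nat.dvd_of_mem_primeFactors (by simpa using hr)
  rcases (Nat.Prime.dvd_mul hw).mp hqr with h1 | h1
  · exfalso
    have h3 : m.factorization r - 1 ≠ 0 := by
      intro h0
      rw [h0, pow_zero] at h1
      exact hw.one_lt.ne' (Nat.dvd_one.mp h1)
    have h4 : r ^ 2 ∣ m := (hrp.pow_dvd_iff_le_factorization hm).mpr (by omega)
    exact sq_not_dvd hrp hsq h4
  · exact ⟨r, hrp, hrm, h1⟩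

lemma Cfg.two_three {G : Type} [Group G] {p q M : ℕ} (h : Cfg G p q 2 M) : p = 2 ∧ q = 3 := by
  have h1 := h.ord1
  have h2 := h.ord2 1 one_pos (by norm_num)
  have hp2 := h.hp.two_le
  have hpq := h.hpq
  have h3 : p ^ 2 - 1 = (p + 1) * (p - 1) := by
    obtain ⟨k, rfl⟩ : ∃ k, p = k + 1 := ⟨p - 1, by omega⟩
    have : (k + 1) ^ 2 = (k + 1 + 1) * k + 1 := by ring
    rw [this]
    simp
  rw [h3] at h1
  rw [pow_one] at h2
  rcases (Nat.Prime.dvd_mul h.hq).mp h1 with h4 | h4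
  · have h5 := Nat.le_of_dvd (by omega) h4
    have h6 : q = p + 1 := by omega
    subst h6
    rcases h.hp.eq_two_or_odd with h7 | h7
    · subst h7
      exact ⟨rfl, rfl⟩
    · rcases h.hq.eq_two_or_odd with h8 | h8
      · omega
      · omega
  · exact absurd h4 h2

/-- The subgroup generated by the elements of odd order commuting with `x`. -/
def Kx {G : Type} [Group G] (x : G) : Subgroup G :=
  Subgroup.closure {z | z * x = x * z ∧ Nat.Coprime (orderOf z) 2}

namespace Cfg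

variable {G : Type} [Group G] [Finite G] {M : ℕ}

section

variable (h : Cfg G 2 3 2 M) [Fact (Nat.Prime 2)]

include h

lemma odd_cyc {B : Subgroup G} (hB : ¬ 2 ∣ Nat.card B) : IsCyclic B := by
  refine isCyclic_of_cyc (m := Nat.card B) Nat.card_pos.ne' (cyc_of_dvd (m := 3 * M) ?_
    (h.sqf_of_cop hB)) rfl
  have h3M : Nat.Coprime 3 M := ((Nat.squarefree_mul_iff).mp h.sqf).1
  rw [Nat.totient_mul h3M]
  have h2 : Nat.totient 3 = 2 := by decide
  rw [h2]
  have hM0 := h.M_ne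
  have h23 : Nat.Coprime (3 * M) 2 := h.cop_p.symm
  refine Nat.Coprime.mul_right h23 (Nat.Coprime.mul_left ?_ h.cop)
  rw [Nat.Prime.coprime_iff_not_dvd Nat.prime_three]
  intro hd
  obtain ⟨r, hr, hrM, h3r⟩ := exists_of_dvd_totient hM0 Nat.prime_three hd (cyc_squarefree h.cop)
  exact h.hqt r hr hrM h3r

lemma sq_of_pgroup {z : G} {i : ℕ} (hz : orderOf z = 2 ^ i) : z ^ 2 = 1 := by
  have h1 : IsPGroup 2 (Subgroup.zpowers z) := by
    apply IsPGroup.of_card (n := i)
    rw [Nat.card_zpowers, hz]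
  obtain ⟨P, hP⟩ := h1.exists_le_sylow
  exact h.P_exp P (h.all_sylow P) z (hP (Subgroup.mem_zpowers z))

lemma exists_odd_prime_pow {z : G} (hz : z ^ 2 ≠ 1) :
    ∃ (k : ℕ) (r : ℕ), r.Prime ∧ r ≠ 2 ∧ orderOf (z ^ k) = r := by
  rcases Nat.eq_two_pow_or_exists_odd_prime_and_dvd (orderOf z) with ⟨k, hk⟩ | ⟨r, hr, hrd, hro⟩
  · exact absurd (h.sq_of_pgroup hk) hz
  · obtain ⟨k, hk⟩ := exists_pow_prime hrd
    refine ⟨k, r, hr, ?_, hk⟩
    rintro rfl
    exact absurd hro (by decide)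

omit h in
lemma orderOf_inv {x : G} (hx : x ≠ 1) (hx2 : x ^ 2 = 1) : orderOf x = 2 :=
  orderOf_eq_prime hx2 hx

lemma Kx_spec {x : G} (hx : x ≠ 1) (hx2 : x ^ 2 = 1) : Kx x ≤ centralizer {x} ∧
    ¬ 2 ∣ Nat.card (Kx x) ∧ Inv (centralizer {x}) (Kx x) ∧
    (∀ z, z ∈ Kx x ↔ z * x = x * z ∧ Nat.Coprime (orderOf z) 2) ∧
    Nat.card (centralizer ({x} : Set G)) = 4 * Nat.card (Kx x) := by
  obtain ⟨P, hP⟩ := exists_sylow_mem (orderOf_inv hx hx2)
  obtain ⟨K, hKC, hpK, hKinv, hKz, hKc⟩ := h.exists_K P (h.all_sylow P) hP hx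
  have hmem : ∀ z, z ∈ K ↔ z * x = x * z ∧ Nat.Coprime (orderOf z) 2 := by
    intro z
    constructor
    · intro hz
      refine ⟨mem_centralizer_singleton'.mp (hKC hz), ?_⟩
      have h1 : orderOf z ∣ Nat.card K := by
        have := orderOf_dvd_natCard (⟨z, hz⟩ : K)
        rwa [Subgroup.orderOf_mk] at this
      exact (Nat.Coprime.coprime_dvd_left h1
        ((Nat.Prime.coprime_iff_not_dvd Nat.prime_two).mpr hpK).symm)
    · rintro ⟨h1, h2⟩
      exact hKz z h1 h2
  have hK : Kx x = K := by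
    unfold Kx
    apply le_antisymm
    · rw [Subgroup.closure_le]
      intro z hz
      exact (hmem z).mpr hz
    · intro z hz
      exact Subgroup.subset_closure ((hmem z).mp hz)
  rw [hK]
  exact ⟨hKC, hpK, hKinv, hmem, hKc⟩

lemma mem_Kx {x : G} (hx : x ≠ 1) (hx2 : x ^ 2 = 1) {z : G} :
    z ∈ Kx x ↔ z * x = x * z ∧ Nat.Coprime (orderOf z) 2 := (h.Kx_spec hx hx2).2.2.2.1 z

lemma Kx_cyc {x : G} (hx : x ≠ 1) (hx2 : x ^ 2 = 1) : IsCyclic (Kx x) :=
  h.odd_cyc (h.Kx_spec hx hx2).2.1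

lemma not_mem_Kx {x : G} (hx : x ≠ 1) (hx2 : x ^ 2 = 1) {z : G} (hz : z ≠ 1) (hz2 : z ^ 2 = 1) :
    z ∉ Kx x := by
  intro h1
  have h2 := ((h.mem_Kx hx hx2).mp h1).2
  rw [orderOf_inv hz hz2] at h2
  exact absurd h2 (by decide)

/-- The only elements of `P` commuting with a nontrivial element of `Kx x` are `1` and `x`. -/
lemma only_x (P : Sylow 2 G) {x : G} (hxP : x ∈ P) (hx : x ≠ 1) {w : G} (hw : w ∈ Kx x)
    (hw1 : w ≠ 1) {x' : G} (hx' : x' ∈ P) (hc : x' * w = w * x') : x' = 1 ∨ x' = x := by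
  have hPq := h.all_sylow P
  have hx2 := h.P_exp P hPq x hxP
  by_contra hcon
  push Not at hcon
  have hwx := ((h.mem_Kx hx hx2).mp hw)
  set E : Subgroup G := (P : Subgroup G) ⊓ centralizer {w} with hE
  have hEd : Nat.card E ∣ 4 := by
    have := Subgroup.card_dvd_of_le (inf_le_left : E ≤ P)
    rwa [h.card_sylow P] at this
  have hE3 : 2 < Nat.card E := by
    classical
    have : Fintype E := Fintype.ofFinite E
    rw [Nat.card_eq_fintype_card, Fintype.two_lt_card_iff]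
    refine ⟨1, ⟨x, hxP, mem_centralizer_singleton'.mpr hwx.1.symm⟩,
      ⟨x', hx', mem_centralizer_singleton'.mpr hc⟩, ?_, ?_, ?_⟩
    · intro h1
      exact hx (congrArg Subtype.val h1).symm
    · intro h1
      exact hcon.1 (congrArg Subtype.val h1).symm
    · intro h1
      exact hcon.2 (congrArg Subtype.val h1).symm
  have hE4 : Nat.card E = 4 := by
    have := Nat.le_of_dvd (by norm_num) hEd
    interval_cases hn : Nat.card E
    · exact absurd hEd (by decide)
    · rfl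
  have hEP : E = P := by
    apply Subgroup.eq_of_le_of_card_ge inf_le_left
    rw [h.card_sylow P, hE4]
    norm_num
  have hPw : (P : Subgroup G) ≤ centralizer {w} := by
    rw [← hEP]
    exact inf_le_right
  have hwP : w ∈ centralizer ((P : Subgroup G) : Set G) := by
    rw [Subgroup.mem_centralizer_iff]
    intro z hz
    exact mem_centralizer_singleton'.mp (hPw hz)
  rw [h.cent_P P hPq] at hwP
  exact h.not_mem_Kx hx hx2 hw1 (h.P_exp P hPq w hwP) hw

/-- The normalizer of a subgroup of prime order of `Kx x`. -/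
lemma exists_V (P : Sylow 2 G) {x : G} (hxP : x ∈ P) (hx : x ≠ 1) {w : G} (hw : w ∈ Kx x)
    (hwo : (orderOf w).Prime) : ∃ V : Subgroup G,
      V ≤ normalizer ((Subgroup.zpowers w : Subgroup G) : Set G) ∧ IsCyclic V ∧
      Inv (normalizer ((Subgroup.zpowers w : Subgroup G) : Set G)) V ∧
      (∀ z ∈ normalizer ((Subgroup.zpowers w : Subgroup G) : Set G),
        (z ∈ V ↔ Nat.Coprime (orderOf z) 2)) ∧
      Nat.card (normalizer ((Subgroup.zpowers w : Subgroup G) : Set G)) = 4 * Nat.card V ∧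
      centralizer ({x} : Set G) ≤ normalizer ((Subgroup.zpowers w : Subgroup G) : Set G) := by
  have hPq := h.all_sylow P
  have hx2 := h.P_exp P hPq x hxP
  set T := Subgroup.zpowers w with hT
  have hTK : T ≤ Kx x := by rw [hT, Subgroup.zpowers_le]; exact hw
  have hTc : Nat.card T = orderOf w := Nat.card_zpowers w
  have hTinv : Inv (centralizer {x}) T :=
    cyc_inv (h.Kx_cyc hx hx2) hTK (h.Kx_spec hx hx2).2.2.1
  have hCN : centralizer ({x} : Set G) ≤ normalizer (T : Set G) := fun g hg =>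
    mem_normalizer_of (fun z hz => hTinv g hg z hz)
  have hPC : (P : Subgroup G) ≤ centralizer {x} := fun z hz =>
    mem_centralizer_singleton'.mpr (h.P_comm P hPq z hz x hxP)
  have hw2 : orderOf w ≠ 2 := by
    intro h1
    have h2 := ((h.mem_Kx hx hx2).mp hw).2
    rw [h1] at h2
    exact absurd h2 (by decide)
  have hNNP : ∀ n ∈ normalizer (T : Set G), n ∈ normalizer ((P : Subgroup G) : Set G) → n ∈ P := by
    intro n hnT hnP
    by_contra hn
    obtain ⟨k, hk⟩ := h.exists_pow_order P hPq hnP hn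
    refine h.noR P hPq (y := n ^ k) ?_ hk T (by rw [hTc]; exact hwo) (by rw [hTc]; exact hw2)
      (fun g hg => hTinv g (hPC hg)) ?_
    · intro z hz
      exact (Subgroup.mem_normalizer_iff.mp (pow_mem hnP k) z).mp hz
    · intro z hz
      exact (Subgroup.mem_normalizer_iff.mp (pow_mem hnT k) z).mp hz
  obtain ⟨f, hf1, hf2⟩ := exists_compl_hom (normalizer (T : Set G)) P (hPC.trans hCN)
    (fun n hnT hnP z hz => h.P_comm P hPq z hz n (hNNP n hnT hnP))
  have hcard : Nat.card ((P : Subgroup G).subgroupOf (normalizer (T : Set G))) = 2 ^ 2 := by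
    rw [← h.card_sylow P]
    exact Nat.card_congr (Subgroup.subgroupOfEquivOfLe (hPC.trans hCN)).toEquiv
  have hVc : Nat.card (f.ker.map (Subgroup.subtype _)) = Nat.card f.ker :=
    Subgroup.card_map_of_injective (Subgroup.subtype_injective _)
  refine ⟨f.ker.map (Subgroup.subtype _), Subgroup.map_subtype_le _, ?_, ?_, ?_, ?_, hCN⟩
  · apply h.odd_cyc
    rw [hVc]
    exact hf1
  · rintro g hg _ ⟨z, hz, rfl⟩
    exact ⟨⟨g, hg⟩ * z * ⟨g, hg⟩⁻¹, f.normal_ker.conj_mem z hz ⟨g, hg⟩, rfl⟩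
  · intro z hzN
    constructor
    · intro hz
      have h1 : orderOf z ∣ Nat.card f.ker := by
        have := orderOf_dvd_natCard (⟨z, hz⟩ : f.ker.map (Subgroup.subtype _))
        rwa [Subgroup.orderOf_mk, hVc] at this
      exact (Nat.Coprime.coprime_dvd_left h1
        ((Nat.Prime.coprime_iff_not_dvd Nat.prime_two).mpr hf1).symm)
    · intro hzo
      refine ⟨⟨z, hzN⟩, ?_, rfl⟩
      have h3 : f ⟨z, hzN⟩ = 1 := by
        apply one_of_coprime f _ (p := 2) (k := 2) _ hcard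
        rw [Subgroup.orderOf_mk]
        exact hzo
      exact h3
  · rw [hVc, ← hf2, hcard, mul_comm]
    norm_num

end

end Cfg

end Pool.Agent.Lib.MP_4f0ec0_al
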