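import Mathlib
import Pool.Agent.Lib.MP_4f0ec0_al.Loc6

/-! Local analysis, part 7: centralizers for Sylow 2-subgroups of order 4. -/

set_option linter.unusedSectionVars false

namespace Pool.Agent.Lib.MP_4f0ec0_al

open Function Subgroup

/-- The subgroup generated by `Kx x` and `x`. -/
def Dx {G : Type} [Group G] (x : G) : Subgroup G := Kx x ⊔ Subgroup.zpowers x

namespace Cfg

variable {G : Type} [Group G] [Finite G] {M : ℕ}

section

variable (h : Cfg G 2 3 2 M) [Fact (Nat.Prime 2)]

include h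

/-- Involutions are conjugate. -/
lemma conj_inv_P (P : Sylow 2 G) {x x' : G} (hxP : x ∈ P) (hx : x ≠ 1) (hx'P : x' ∈ P)
    (hx' : x' ≠ 1) : ∃ n, x' = n * x * n⁻¹ := by
  have hPq := h.all_sylow P
  obtain ⟨y, hy, hyo⟩ := h.exists_y P hPq
  have hy3 : y ^ 3 = 1 := by rw [← hyo, pow_orderOf_eq_one]
  have hfp : ∀ z ∈ (P : Subgroup G), z ≠ 1 → y * z * y⁻¹ ≠ z := by
    intro z hz hz1 h1
    apply hz1
    apply h.fpf P hPq hy hyo hz
    calc y * z = y * z * y⁻¹ * y := by group
      _ = z * y := by rw [h1]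
  set x1 := y * x * y⁻¹ with hx1
  set x2 := y * x1 * y⁻¹ with hx2
  have hx1P : x1 ∈ (P : Subgroup G) := hy x hxP
  have hx2P : x2 ∈ (P : Subgroup G) := hy x1 hx1P
  have hx11 : x1 ≠ 1 := conj_ne_one hx
  have hx21 : x2 ≠ 1 := conj_ne_one hx11
  have h01 : x1 ≠ x := hfp x hxP hx
  have h12 : x2 ≠ x1 := hfp x1 hx1P hx11
  have h02 : x2 ≠ x := by
    intro h1
    apply h12
    have h2 : y * x2 * y⁻¹ = x := by
      rw [hx2, hx1]
      have h4 : y ^ 3 = y * y * y := by rw [pow_succ, pow_two]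
      have h3 : y * (y * (y * x * y⁻¹) * y⁻¹) * y⁻¹ = y ^ 3 * x * (y ^ 3)⁻¹ := by
        rw [h4]
        group
      rw [h3, hy3]
      group
    rw [h1] at h2 ⊢
    exact h2.symm
  by_contra hcon
  push Not at hcon
  have hc0 : x' ≠ x := by
    intro h1
    exact hcon 1 (by rw [h1]; group)
  have hc1 : x' ≠ x1 := hcon y
  have hc2 : x' ≠ x2 := by
    intro h1
    apply hcon (y * y)
    rw [h1, hx2, hx1]
    group
  classical
  have : Fintype G := Fintype.ofFinite G
  have hS : ({1, x, x1, x2, x'} : Finset G).card = 5 := by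
    rw [Finset.card_insert_of_notMem, Finset.card_insert_of_notMem, Finset.card_insert_of_notMem,
      Finset.card_insert_of_notMem, Finset.card_singleton]
    · simp only [Finset.mem_singleton]
      exact hc2.symm
    · simp only [Finset.mem_insert, Finset.mem_singleton, not_or]
      exact ⟨h12.symm, hc1.symm⟩
    · simp only [Finset.mem_insert, Finset.mem_singleton, not_or]
      exact ⟨h01.symm, h02.symm, hc0.symm⟩
    · simp only [Finset.mem_insert, Finset.mem_singleton, not_or]
      exact ⟨hx.symm, hx11.symm, hx21.symm, hx'.symm⟩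
  have hsub : ({1, x, x1, x2, x'} : Finset G) ⊆ Finset.univ.filter (fun z => z ∈ (P : Subgroup G)) := by
    intro z hz
    rw [Finset.mem_filter]
    refine ⟨Finset.mem_univ _, ?_⟩
    simp only [Finset.mem_insert, Finset.mem_singleton] at hz
    rcases hz with rfl | rfl | rfl | rfl | rfl
    · exact one_mem _
    · exact hxP
    · exact hx1P
    · exact hx2P
    · exact hx'P
  have hle := Finset.card_le_card hsub
  have hc4 : (Finset.univ.filter (fun z => z ∈ (P : Subgroup G))).card = 4 := by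
    have h1 : Nat.card (P : Subgroup G) = (Finset.univ.filter (fun z => z ∈ (P : Subgroup G))).card := by
      rw [Nat.card_eq_fintype_card, Fintype.card_subtype]
    rw [← h1, h.card_sylow P]
    norm_num
  rw [hS, hc4] at hle
  omega

lemma conj_inv {x x' : G} (hx : x ≠ 1) (hx2 : x ^ 2 = 1) (hx' : x' ≠ 1) (hx'2 : x' ^ 2 = 1) :
    ∃ n, x' = n * x * n⁻¹ := by
  obtain ⟨P, hP⟩ := exists_sylow_mem (orderOf_inv hx hx2)
  obtain ⟨P', hP'⟩ := exists_sylow_mem (orderOf_inv hx' hx'2)
  obtain ⟨g, hg⟩ := MulAction.exists_smul_eq G P P'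
  have h1 : g * x * g⁻¹ ∈ (P' : Subgroup G) := by
    have : g * x * g⁻¹ ∈ g • P := by
      rw [mem_smul_sylow]
      have : g⁻¹ * (g * x * g⁻¹) * g = x := by group
      rw [this]
      exact hP
    rw [hg] at this
    exact this
  obtain ⟨n, hn⟩ := h.conj_inv_P P' h1 (conj_ne_one hx) hP' hx'
  exact ⟨n * g, by rw [hn]; group⟩

lemma cnj_Kx (g : G) {x : G} (hx : x ≠ 1) (hx2 : x ^ 2 = 1) : cnj g (Kx x) = Kx (g * x * g⁻¹) := by
  ext w
  rw [mem_cnj, h.mem_Kx hx hx2, h.mem_Kx (conj_ne_one hx) (by rw [conj_pow, hx2]; group)]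
  have h1 : orderOf (g⁻¹ * w * g) = orderOf w := by
    have := orderOf_injective (MulAut.conj g⁻¹).toMonoidHom (MulAut.conj g⁻¹).injective w
    rw [← this]
    congr 1
    show g⁻¹ * w * g = g⁻¹ * w * g⁻¹⁻¹
    rw [inv_inv]
  rw [h1]
  constructor
  · rintro ⟨h2, h3⟩
    refine ⟨?_, h3⟩
    calc w * (g * x * g⁻¹) = g * ((g⁻¹ * w * g) * x) * g⁻¹ := by group
      _ = g * (x * (g⁻¹ * w * g)) * g⁻¹ := by rw [h2]
      _ = g * x * g⁻¹ * w := by group
  · rintro ⟨h2, h3⟩
    refine ⟨?_, h3⟩
    calc g⁻¹ * w * g * x = g⁻¹ * (w * (g * x * g⁻¹)) * g := by group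
      _ = g⁻¹ * (g * x * g⁻¹ * w) * g := by rw [h2]
      _ = x * (g⁻¹ * w * g) := by group

lemma cnj_Dx (g : G) {x : G} (hx : x ≠ 1) (hx2 : x ^ 2 = 1) : cnj g (Dx x) = Dx (g * x * g⁻¹) := by
  unfold Dx
  rw [← h.cnj_Kx g hx hx2]
  unfold cnj
  rw [Subgroup.map_sup, MonoidHom.map_zpowers]
  rfl

lemma card_Kx_eq {x x' : G} (hx : x ≠ 1) (hx2 : x ^ 2 = 1) (hx' : x' ≠ 1) (hx'2 : x' ^ 2 = 1) :
    Nat.card (Kx x) = Nat.card (Kx x') := by
  obtain ⟨n, rfl⟩ := h.conj_inv hx hx2 hx' hx'2
  rw [← h.cnj_Kx n hx hx2, card_cnj]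

lemma mem_Dx {x : G} (hx : x ≠ 1) (hx2 : x ^ 2 = 1) {w : G} :
    w ∈ Dx x ↔ w ∈ Kx x ∨ x * w ∈ Kx x := by
  have hxx : x * x = 1 := by rw [← pow_two]; exact hx2
  have hc : ∀ w ∈ Kx x, w * x = x * w := fun w hw => ((h.mem_Kx hx hx2).mp hw).1
  constructor
  · intro hw
    let E : Subgroup G :=
      { carrier := {w | w ∈ Kx x ∨ x * w ∈ Kx x}
        mul_mem' := by
          rintro u v (hu | hu) (hv | hv)
          · exact Or.inl (mul_mem hu hv)
          · right
            have h1 : x * (u * v) = u * (x * v) := by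
              rw [← mul_assoc, ← hc u hu, mul_assoc]
            rw [h1]
            exact mul_mem hu hv
          · right
            rw [← mul_assoc]
            exact mul_mem hu hv
          · left
            have h1 : u * v = (x * u) * (x * v) := by
              calc u * v = (x * x) * (u * v) := by rw [hxx, one_mul]
                _ = x * ((x * u) * v) := by group
                _ = (x * u * x) * v := by rw [hc _ hu]; group
                _ = (x * u) * (x * v) := by group
            rw [h1]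
            exact mul_mem hu hv
        one_mem' := Or.inl (one_mem _)
        inv_mem' := by
          rintro u (hu | hu)
          · exact Or.inl (inv_mem hu)
          · right
            have h1 : x * u⁻¹ = (x * u)⁻¹ := by
              have h2 := hc _ hu
              have h3 : u * x = x * u := by
                calc u * x = (x * x) * u * x := by rw [hxx, one_mul]
                  _ = x * ((x * u) * x) := by group
                  _ = x * (x * (x * u)) := by rw [h2]
                  _ = (x * x) * (x * u) := by group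
                  _ = x * u := by rw [hxx, one_mul]
              have h4 : x⁻¹ = x := inv_eq_of_mul_eq_one_left hxx
              rw [← h3, mul_inv_rev, h4]
            rw [h1]
            exact inv_mem hu }
    have h1 : Dx x ≤ E := by
      unfold Dx
      apply sup_le
      · exact fun z hz => Or.inl hz
      · rw [Subgroup.zpowers_le]
        right
        show x * x ∈ Kx x
        rw [hxx]
        exact one_mem _
    exact h1 hw
  · rintro (hw | hw)
    · exact Subgroup.mem_sup_left hw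
    · have h1 : w = x * (x * w) := by rw [← mul_assoc, hxx, one_mul]
      rw [h1]
      exact mul_mem (Subgroup.mem_sup_right (Subgroup.mem_zpowers x)) (Subgroup.mem_sup_left hw)

lemma Dx_comm {x : G} (hx : x ≠ 1) (hx2 : x ^ 2 = 1) : ∀ u ∈ Dx x, ∀ v ∈ Dx x, u * v = v * u := by
  have hxx : x * x = 1 := by rw [← pow_two]; exact hx2
  have hc : ∀ w ∈ Kx x, w * x = x * w := fun w hw => ((h.mem_Kx hx hx2).mp hw).1
  have hK := h.Kx_cyc hx hx2
  -- `x` commutes with everything, reduce to `Kx x`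
  have hdec : ∀ u ∈ Dx x, ∃ w ∈ Kx x, u = w ∨ u = x * w := by
    intro u hu
    rcases (h.mem_Dx hx hx2).mp hu with h1 | h1
    · exact ⟨u, h1, Or.inl rfl⟩
    · exact ⟨x * u, h1, Or.inr (by rw [← mul_assoc, hxx, one_mul])⟩
  intro u hu v hv
  obtain ⟨a, ha, ha'⟩ := hdec u hu
  obtain ⟨b, hb, hb'⟩ := hdec v hv
  have h1 : Commute a b := cyc_comm hK ha hb
  have h2 : Commute a x := hc a ha
  have h3 : Commute b x := hc b hb
  have h4 : Commute u v := by
    rcases ha' with rfl | rfl <;> rcases hb' with rfl | rfl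
    · exact h1
    · exact h2.mul_right h1
    · exact (h3.mul_right h1.symm).symm
    · exact ((Commute.refl x).mul_right h3.symm).mul_left (h2.mul_right h1)
  exact h4

/-- The involutions of `Dx x`. -/
lemma Dx_inv {x : G} (hx : x ≠ 1) (hx2 : x ^ 2 = 1) {w : G} (hw : w ∈ Dx x) (hw1 : w ≠ 1)
    (hw2 : w ^ 2 = 1) : w = x := by
  have hxx : x * x = 1 := by rw [← pow_two]; exact hx2
  rcases (h.mem_Dx hx hx2).mp hw with h1 | h1
  · exact absurd h1 (h.not_mem_Kx hx hx2 hw1 hw2)
  · by_contra hne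
    have h3 : x * w ≠ 1 := by
      intro h4
      apply hne
      calc w = x * (x * w) := by rw [← mul_assoc, hxx, one_mul]
        _ = x := by rw [h4, mul_one]
    have h5 : Commute x w := h.Dx_comm hx hx2 x
      (Subgroup.mem_sup_right (Subgroup.mem_zpowers x)) w hw
    have h4 : (x * w) ^ 2 = 1 := by rw [h5.mul_pow, hx2, hw2, one_mul]
    exact h.not_mem_Kx hx hx2 h3 h4 h1

lemma self_mem_Dx (x : G) : x ∈ Dx x := Subgroup.mem_sup_right (Subgroup.mem_zpowers x)

lemma card_Dx {x : G} (hx : x ≠ 1) (hx2 : x ^ 2 = 1) : Nat.card (Dx x) = 2 * Nat.card (Kx x) := by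
  have hxx : x * x = 1 := by rw [← pow_two]; exact hx2
  have hKD : Kx x ≤ Dx x := le_sup_left
  have hi : ((Kx x).subgroupOf (Dx x)).index = 2 := by
    rw [Subgroup.index_eq_two_iff]
    refine ⟨⟨x, h.self_mem_Dx x⟩, fun b => ?_⟩
    have hb := b.2
    have hcb : (b : G) * x = x * b := h.Dx_comm hx hx2 b b.2 x (h.self_mem_Dx x)
    have h1 : b * ⟨x, h.self_mem_Dx x⟩ ∈ (Kx x).subgroupOf (Dx x) ↔ x * (b : G) ∈ Kx x := by
      rw [Subgroup.mem_subgroupOf, ← hcb]
      rfl
    have h2 : b ∈ (Kx x).subgroupOf (Dx x) ↔ (b : G) ∈ Kx x := Subgroup.mem_subgroupOf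
    rw [h1, h2]
    have hnot : ¬ ((b : G) ∈ Kx x ∧ x * (b : G) ∈ Kx x) := by
      rintro ⟨h3, h4⟩
      have h5 := mul_mem h4 (inv_mem h3)
      rw [mul_inv_cancel_right] at h5
      exact h.not_mem_Kx hx hx2 hx hx2 h5
    rcases (h.mem_Dx hx hx2).mp hb with h3 | h3
    · exact Or.inr ⟨h3, fun h4 => hnot ⟨h3, h4⟩⟩
    · exact Or.inl ⟨h3, fun h4 => hnot ⟨h4, h3⟩⟩
  have h1 := Subgroup.card_mul_index ((Kx x).subgroupOf (Dx x))
  rw [hi] at h1
  have h2 : Nat.card ((Kx x).subgroupOf (Dx x)) = Nat.card (Kx x) :=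
    Nat.card_congr (Subgroup.subgroupOfEquivOfLe hKD).toEquiv
  rw [h2] at h1
  rw [← h1, mul_comm]

/-- The normalizer of a subgroup of prime order of `Kx x` centralizes `x`. -/
lemma V_le (P : Sylow 2 G) {x : G} (hxP : x ∈ P) (hx : x ≠ 1) {w : G} (hw : w ∈ Kx x)
    (hwo : (orderOf w).Prime) :
    normalizer ((Subgroup.zpowers w : Subgroup G) : Set G) = centralizer {x} := by
  have hPq := h.all_sylow P
  have hx2 := h.P_exp P hPq x hxP
  have hw1 : w ≠ 1 := by
    rintro rfl
    rw [orderOf_one] at hwo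
    exact Nat.not_prime_one hwo
  obtain ⟨V, hV1, hV2, hV3, hV4, hV5, hV6⟩ := h.exists_V P hxP hx hw hwo
  set N := normalizer ((Subgroup.zpowers w : Subgroup G) : Set G) with hN
  have hKc := h.Kx_cyc hx hx2
  have hPC : (P : Subgroup G) ≤ centralizer {x} := fun z hz =>
    mem_centralizer_singleton'.mpr (h.P_comm P hPq z hz x hxP)
  have hKV : Kx x ≤ V := by
    intro z hz
    have h1 := (h.mem_Kx hx hx2).mp hz
    exact (hV4 z (hV6 ((h.Kx_spec hx hx2).1 hz))).mpr h1.2
  have hwV : w ∈ V := hKV hw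
  have hVx : V ≤ centralizer {x} := by
    by_contra hcon
    -- an element of prime order of `V` not commuting with `x`
    set C := V ⊓ centralizer {x} with hC
    have hCV : C ≤ V := inf_le_left
    have hCne : Nat.card C ≠ Nat.card V := by
      intro h1
      apply hcon
      have h2 : C = V := Subgroup.eq_of_le_of_card_ge hCV h1.ge
      rw [← h2]
      exact inf_le_right
    have hV2' : ¬ 2 ∣ Nat.card V := by
      intro h2
      have h3 := (hV4 w (hV1 hwV)).mp hwV
      obtain ⟨z, hz⟩ := exists_prime_orderOf_dvd_card' (G := V) 2 h2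
      have h4 := (hV4 z (hV1 z.2)).mp z.2
      rw [Subgroup.orderOf_coe, hz] at h4
      exact absurd h4 (by decide)
    have hVsq : Squarefree (Nat.card V) := h.sqf.squarefree_of_dvd (h.sqf_of_cop hV2')
    obtain ⟨c, hc⟩ := Subgroup.card_dvd_of_le hCV
    have hc1 : c ≠ 1 := by
      rintro rfl
      rw [mul_one] at hc
      exact hCne hc.symm
    obtain ⟨u, hu, huc⟩ := Nat.exists_prime_and_dvd hc1
    have hfu : Fact u.Prime := ⟨hu⟩
    have huV : u ∣ Nat.card V := by rw [hc]; exact huc.mul_left _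
    obtain ⟨z, hz⟩ := exists_prime_orderOf_dvd_card' (G := V) u huV
    have hzo : orderOf (z : G) = u := by rw [Subgroup.orderOf_coe, hz]
    have hzC : (z : G) ∉ C := by
      intro hzC
      have h1 : u ∣ Nat.card C := by
        have := orderOf_dvd_natCard (⟨z, hzC⟩ : C)
        rwa [Subgroup.orderOf_mk, hzo] at this
      apply sq_not_dvd hu hVsq
      rw [pow_two, hc]
      exact Nat.mul_dvd_mul h1 huc
    have hz1 : (z : G) ≠ 1 := by
      intro h1
      rw [h1, orderOf_one] at hzo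
      exact hu.one_lt.ne hzo
    -- `P` acts on the subgroup `U` generated by `z`
    set U := Subgroup.zpowers (z : G) with hU
    have hUV : U ≤ V := by rw [hU, Subgroup.zpowers_le]; exact z.2
    have hUN : Inv N U := cyc_inv hV2 hUV hV3
    have hUc : Nat.card U = u := by rw [hU, Nat.card_zpowers, hzo]
    have hPU : Inv (P : Subgroup G) U := fun g hg => hUN g (hV6 (hPC hg))
    have h1 := h.cent_ne_bot P hPq U (by rw [hUc]; exact hu) hPU
    obtain ⟨x', hx'1⟩ := (Subgroup.ne_bot_iff_exists_ne_one).mp h1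
    have hx'P : (x' : G) ∈ P := x'.2.1
    have hx'1 : (x' : G) ≠ 1 := fun h2 => hx'1 (Subtype.ext h2)
    have hx'2 := h.P_exp P hPq x' hx'P
    have hx'z : z * (x' : G) = x' * z :=
      Subgroup.mem_centralizer_iff.mp x'.2.2 z (Subgroup.mem_zpowers (z : G))
    have hzodd : Nat.Coprime (orderOf (z : G)) 2 := (hV4 z (hV1 z.2)).mp z.2
    have hzK : (z : G) ∈ Kx (x' : G) := (h.mem_Kx hx'1 hx'2).mpr ⟨hx'z, hzodd⟩
    obtain ⟨V', hV'1, hV'2, hV'3, hV'4, hV'5, hV'6⟩ := h.exists_V P hx'P hx'1 hzK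
      (by rw [hzo]; exact hu)
    have hVV' : V ≤ V' := by
      intro v hv
      have h2 : v ∈ centralizer ({(z : G)} : Set G) :=
        mem_centralizer_singleton'.mpr (cyc_comm hV2 hv z.2)
      exact (hV'4 v (centralizer_le_normalizer_zpowers _ h2)).mpr ((hV4 v (hV1 hv)).mp hv)
    have hV'V : V' ≤ V := by
      intro v hv
      have h2 : v ∈ centralizer ({w} : Set G) :=
        mem_centralizer_singleton'.mpr (cyc_comm hV'2 hv (hVV' hwV))
      exact (hV4 v (centralizer_le_normalizer_zpowers _ h2)).mpr ((hV'4 v (hV'1 hv)).mp hv)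
    have hK'V : Kx (x' : G) ≤ V := by
      refine le_trans ?_ hV'V
      intro v hv
      have h1 := (h.mem_Kx hx'1 hx'2).mp hv
      exact (hV'4 v (hV'6 ((h.Kx_spec hx'1 hx'2).1 hv))).mpr h1.2
    have hKK : Kx x = Kx (x' : G) := cyc_eq hV2 hKV hK'V (h.card_Kx_eq hx hx2 hx'1 hx'2)
    have hwx' : w * (x' : G) = x' * w := ((h.mem_Kx hx'1 hx'2).mp (hKK ▸ hw)).1
    rcases h.only_x P hxP hx hw hw1 hx'P hwx'.symm with h2 | h2
    · exact hx'1 h2
    · apply hzC
      refine ⟨z.2, ?_⟩
      rw [← h2]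
      exact mem_centralizer_singleton'.mpr hx'z
  have hVK : V ≤ Kx x := fun v hv => (h.mem_Kx hx hx2).mpr
    ⟨mem_centralizer_singleton'.mp (hVx hv), (hV4 v (hV1 hv)).mp hv⟩
  symm
  apply Subgroup.eq_of_le_of_card_ge hV6
  rw [hV5, (h.Kx_spec hx hx2).2.2.2.2]
  exact Nat.mul_le_mul_left _ (Subgroup.card_le_of_le hVK)

/-- The centralizer of an element of prime order commuting with an involution. -/
lemma centralizer_tau {x : G} (hx : x ≠ 1) (hx2 : x ^ 2 = 1) {w : G} (hw : w ∈ Kx x)
    (hwo : (orderOf w).Prime) : centralizer ({w} : Set G) = Dx x := by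
  obtain ⟨P, hxP⟩ := exists_sylow_mem (orderOf_inv hx hx2)
  have hPq := h.all_sylow P
  have hw1 : w ≠ 1 := by
    rintro rfl
    rw [orderOf_one] at hwo
    exact Nat.not_prime_one hwo
  have hN := h.V_le P hxP hx hw hwo
  have hPC : (P : Subgroup G) ≤ centralizer {x} := fun z hz =>
    mem_centralizer_singleton'.mpr (h.P_comm P hPq z hz x hxP)
  have hKc := h.Kx_cyc hx hx2
  apply le_antisymm
  · intro z hz
    have hzC : z ∈ centralizer ({x} : Set G) := hN ▸ centralizer_le_normalizer_zpowers w hz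
    obtain ⟨k, hk, y, hy, rfl⟩ := exists_mul_of_card (h.Kx_spec hx hx2).1 hPC (by
      rw [Subgroup.eq_bot_iff_forall]
      rintro v ⟨hv, hv'⟩
      by_contra hv1
      exact h.not_mem_Kx hx hx2 hv1 (h.P_exp P hPq v hv') hv) (by
      rw [h.card_sylow P, (h.Kx_spec hx hx2).2.2.2.2]
      norm_num) hzC
    have h1 : Commute k w := cyc_comm hKc hk hw
    have h2 : Commute (k * y) w := mem_centralizer_singleton'.mp hz
    have h3 : Commute y w := by
      have h4 := h1.inv_left.mul_left h2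
      rwa [inv_mul_cancel_left] at h4
    rcases h.only_x P hxP hx hw hw1 hy h3 with h4 | h4
    · rw [h4, mul_one]
      exact Subgroup.mem_sup_left hk
    · rw [h4]
      exact mul_mem (Subgroup.mem_sup_left hk) (h.self_mem_Dx x)
  · intro z hz
    exact mem_centralizer_singleton'.mpr (h.Dx_comm hx hx2 z hz w (Subgroup.mem_sup_left hw))

/-- The centralizer of an element which is not an involution and commutes with one. -/
lemma centralizer_of_comm {x : G} (hx : x ≠ 1) (hx2 : x ^ 2 = 1) {w : G} (hw : w ^ 2 ≠ 1)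
    (hc : w * x = x * w) : centralizer ({w} : Set G) = Dx x := by
  obtain ⟨k, r, hr, hr2, hk⟩ := h.exists_odd_prime_pow hw
  have h1 : Commute w x := hc
  have hwK : w ^ k ∈ Kx x := (h.mem_Kx hx hx2).mpr ⟨(h1.pow_left k), by
    rw [hk]
    exact (Nat.coprime_primes hr Nat.prime_two).mpr hr2⟩
  have h2 := h.centralizer_tau hx hx2 hwK (by rw [hk]; exact hr)
  apply le_antisymm
  · rw [← h2]
    exact centralizer_pow_le w k
  · intro z hz
    apply mem_centralizer_singleton'.mpr
    apply h.Dx_comm hx hx2 z hz w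
    rw [← h2]
    exact centralizer_pow_le w k (self_mem_centralizer w)

lemma exists_inv_of_even {B : Subgroup G} (hB : 2 ∣ Nat.card B) :
    ∃ x ∈ B, x ≠ 1 ∧ x ^ 2 = 1 := by
  obtain ⟨x, hx⟩ := exists_prime_orderOf_dvd_card' (G := B) 2 hB
  refine ⟨x, x.2, ?_, ?_⟩
  · intro h1
    have h2 : x = 1 := Subtype.ext h1
    rw [h2, orderOf_one] at hx
    exact absurd hx (by norm_num)
  · have h1 : x ^ 2 = 1 := by rw [← hx, pow_orderOf_eq_one]
    exact congrArg Subtype.val h1

/-- Elements which are not involutions have abelian centralizers. -/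
lemma centralizer_comm {w : G} (hw : w ^ 2 ≠ 1) : ∀ u ∈ centralizer ({w} : Set G),
    ∀ v ∈ centralizer ({w} : Set G), u * v = v * u := by
  by_cases hB : 2 ∣ Nat.card (centralizer ({w} : Set G))
  · obtain ⟨x, hxC, hx, hx2⟩ := h.exists_inv_of_even hB
    rw [h.centralizer_of_comm hx hx2 hw (mem_centralizer_singleton'.mp hxC).symm]
    exact h.Dx_comm hx hx2
  · intro u hu v hv
    exact cyc_comm (h.odd_cyc hB) hu hv

open Classical in
/-- The parts. -/
lemma isPart : GPart (fun z : G => if z ^ 2 = 1 then Dx z else centralizer {z}) := by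
  refine ⟨?_, ?_, ?_⟩
  · intro z hz
    show z ∈ if z ^ 2 = 1 then Dx z else centralizer {z}
    split_ifs
    · exact h.self_mem_Dx z
    · exact self_mem_centralizer z
  · intro z hz w hw hw1
    show (if w ^ 2 = 1 then Dx w else centralizer {w}) = if z ^ 2 = 1 then Dx z else centralizer {z}
    have hw' : w ∈ if z ^ 2 = 1 then Dx z else centralizer {z} := hw
    by_cases hz2 : z ^ 2 = 1
    · rw [if_pos hz2] at hw' ⊢
      by_cases hw2 : w ^ 2 = 1
      · rw [if_pos hw2, h.Dx_inv hz hz2 hw' hw1 hw2]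
      · rw [if_neg hw2]
        exact h.centralizer_of_comm hz hz2 hw2 (h.Dx_comm hz hz2 w hw' z (h.self_mem_Dx z))
    · rw [if_neg hz2] at hw' ⊢
      have hc := mem_centralizer_singleton'.mp hw'
      by_cases hw2 : w ^ 2 = 1
      · rw [if_pos hw2]
        exact (h.centralizer_of_comm hw1 hw2 hz2 hc.symm).symm
      · rw [if_neg hw2]
        exact centralizer_eq_of_comm (h.centralizer_comm hw2) (h.centralizer_comm hz2) hc
  · intro g z hz
    show (if (g * z * g⁻¹) ^ 2 = 1 then Dx (g * z * g⁻¹) else centralizer {g * z * g⁻¹}) =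
      cnj g (if z ^ 2 = 1 then Dx z else centralizer {z})
    have hiff : (g * z * g⁻¹) ^ 2 = 1 ↔ z ^ 2 = 1 := by
      rw [conj_pow]
      constructor
      · intro h1
        calc z ^ 2 = g⁻¹ * (g * z ^ 2 * g⁻¹) * g := by group
          _ = 1 := by rw [h1]; group
      · intro h1
        rw [h1]
        group
    by_cases hz2 : z ^ 2 = 1
    · rw [if_pos hz2, if_pos (hiff.mpr hz2), h.cnj_Dx g hz hz2]
    · rw [if_neg hz2, if_neg (fun h1 => hz2 (hiff.mp h1)), cnj_centralizer]

end

end Cfg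

end Pool.Agent.Lib.MP_4f0ec0_al
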