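import Mathlib
import Pool.Agent.Lib.MP_4f0ec0_al.Loc7

/-! Local analysis, part 8: the class formula for Sylow 2-subgroups of order 4. -/

set_option linter.unusedSectionVars false

namespace Pool.Agent.Lib.MP_4f0ec0_al

open Function Subgroup

lemma num_two {k a b : ℕ} (hk : 1 ≤ k) (hk2 : ¬ 2 ∣ k) (ha : 3 ≤ a) (hab : a < b) (ha2 : ¬ 2 ∣ a)
    (hb2 : ¬ 2 ∣ b) (h : (1 : ℚ) / 2 < 1 / (4 * k) + 1 / (2 * a) + 1 / (2 * b)) : b = 5 := by
  have hb5 : 5 ≤ b := by omega
  have hk0 : (0 : ℚ) < k := by exact_mod_cast hk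
  have ha0 : (0 : ℚ) < a := by exact_mod_cast (by omega : 0 < a)
  have hb0 : (0 : ℚ) < b := by exact_mod_cast (by omega : 0 < b)
  have h1 : (2 : ℚ) * k * a * b < a * b + 2 * k * b + 2 * k * a := by
    have h2 : (1 : ℚ) / (4 * k) + 1 / (2 * a) + 1 / (2 * b) =
        (a * b + 2 * k * b + 2 * k * a) / (4 * k * a * b) := by
      field_simp
      ring
    rw [h2, lt_div_iff₀ (by positivity)] at h
    linarith
  have h3 : 2 * k * a * b < a * b + 2 * k * b + 2 * k * a := by exact_mod_cast h1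
  have hk1 : k = 1 := by
    by_contra hne
    have hk3 : 3 ≤ k := by omega
    have h4 : 3 * (a * b) ≤ k * (a * b) := Nat.mul_le_mul_right _ hk3
    have h5 : 3 * (k * b) ≤ a * (k * b) := Nat.mul_le_mul_right _ ha
    have h6 : 5 * (k * a) ≤ b * (k * a) := Nat.mul_le_mul_right _ hb5
    nlinarith
  subst hk1
  have ha3 : a = 3 := by
    by_contra hne
    have ha5 : 5 ≤ a := by omega
    have h4 : 5 * b ≤ a * b := Nat.mul_le_mul_right _ ha5
    have h5 : 5 * a ≤ b * a := Nat.mul_le_mul_right _ hb5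
    nlinarith
  subst ha3
  omega

section

variable {G : Type} [Group G] [Finite G]

lemma GPart.card_one_lt {S : G → Subgroup G} (hS : GPart S) {z : G} (hz : z ≠ 1) :
    1 < Nat.card (S z) := by
  rw [Subgroup.one_lt_card_iff_ne_bot]
  intro h
  have := hS.mem z hz
  rw [h, Subgroup.mem_bot] at this
  exact hz this

/-- Parts with a common prime divisor of their orders are conjugate. -/
lemma GPart.conj_of_dvd {S : G → Subgroup G} (hS : GPart S) {z w : G} (hz : z ≠ 1) (hw : w ≠ 1)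
    {r : ℕ} (hr : r.Prime) (hr2 : ¬ r ^ 2 ∣ Nat.card G) (h1 : r ∣ Nat.card (S z))
    (h2 : r ∣ Nat.card (S w)) : ∃ k, S w = cnj k (S z) := by
  have hfr : Fact r.Prime := ⟨hr⟩
  obtain ⟨u, hu⟩ := exists_prime_orderOf_dvd_card' (G := S z) r h1
  obtain ⟨v, hv⟩ := exists_prime_orderOf_dvd_card' (G := S w) r h2
  rw [← Subgroup.orderOf_coe] at hu hv
  have hu1 : (u : G) ≠ 1 := by
    intro h3
    rw [h3, orderOf_one] at hu
    exact hr.one_lt.ne hu
  have hv1 : (v : G) ≠ 1 := by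
    intro h3
    rw [h3, orderOf_one] at hv
    exact hr.one_lt.ne hv
  obtain ⟨k, -, hk⟩ := prime_conj_in (⊤ : Subgroup G) (Subgroup.zpowers (u : G))
    (Subgroup.zpowers (v : G)) hr (by rw [Nat.card_zpowers, hu]) (by rw [Nat.card_zpowers, hv]) hr2
    le_top le_top
  have h3 : k⁻¹ * v * k ∈ Subgroup.zpowers (u : G) := (hk v).mp (Subgroup.mem_zpowers _)
  have h4 : k⁻¹ * v * k ∈ S z := by
    have h5 : Subgroup.zpowers (u : G) ≤ S z := by
      rw [Subgroup.zpowers_le]
      exact u.2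
    exact h5 h3
  have h5 : k⁻¹ * (v : G) * k ≠ 1 := by
    have := conj_ne_one (g := k⁻¹) hv1
    rwa [inv_inv] at this
  have h6 := hS.eq z hz _ h4 h5
  have h7 := hS.eq w hw v v.2 hv1
  have h8 := hS.conj k⁻¹ v hv1
  rw [inv_inv, h6, h7] at h8
  exact ⟨k, by rw [h8, cnj_cnj_inv]⟩

lemma sum_part_one {K : Type} [Field K] [Fintype G] [DecidableEq G] (A : Subgroup G)
    [DecidablePred (fun z => z ≠ 1 ∧ z ∈ A)] :
    ∑ _z ∈ Finset.univ.filter (fun z => z ≠ 1 ∧ z ∈ A), (1 : K) = (Nat.card A : K) - 1 := by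
  classical
  rw [Finset.sum_const, nsmul_eq_mul, mul_one]
  have h1 : insert 1 (Finset.univ.filter (fun z => z ≠ 1 ∧ z ∈ A)) =
      Finset.univ.filter (fun z => z ∈ A) := by
    ext z
    simp only [Finset.mem_insert, Finset.mem_filter, Finset.mem_univ, true_and]
    constructor
    · rintro (rfl | h)
      · exact one_mem _
      · exact h.2
    · intro h
      by_cases hz : z = 1
      · exact Or.inl hz
      · exact Or.inr ⟨hz, h⟩
  have h2 : (Finset.univ.filter (fun z => z ∈ A)).card = Nat.card A := by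
    rw [Nat.card_eq_fintype_card, Fintype.card_subtype]
  have h3 : (Finset.univ.filter (fun z => z ≠ 1 ∧ z ∈ A)).card + 1 = Nat.card A := by
    rw [← h2, ← h1, Finset.card_insert_of_notMem]
    simp
  rw [← h3]
  push_cast
  ring

end

namespace Cfg

variable {G : Type} [Group G] [Finite G] {M : ℕ}

section

variable (h : Cfg G 2 3 2 M) [Fact (Nat.Prime 2)]

include h

lemma card_N_odd {z : G} (hz : z ^ 2 ≠ 1) (hA : ¬ 2 ∣ Nat.card (centralizer ({z} : Set G))) :
    Nat.card (normalizer ((centralizer ({z} : Set G) : Subgroup G) : Set G)) =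
      2 * Nat.card (centralizer ({z} : Set G)) := by
  obtain ⟨k, r, hr, hr2, hk⟩ := h.exists_odd_prime_pow hz
  set w := z ^ k with hw
  have hcop : Nat.Coprime r 2 := (Nat.coprime_primes hr Nat.prime_two).mpr hr2
  have hw2 : w ^ 2 ≠ 1 := by
    intro h1
    have h2 := orderOf_dvd_of_pow_eq_one h1
    rw [hk] at h2
    exact hr2 ((Nat.prime_dvd_prime_iff_eq hr Nat.prime_two).mp h2)
  have hzw : z * w = w * z := by
    rw [hw, ← pow_succ, ← pow_succ']
  have hC : centralizer ({z} : Set G) = centralizer {w} :=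
    centralizer_eq_of_comm (h.centralizer_comm hz) (h.centralizer_comm hw2) hzw
  have hAc : IsCyclic (centralizer ({z} : Set G)) := h.odd_cyc hA
  set A := centralizer ({z} : Set G) with hAdef
  set T := Subgroup.zpowers w with hT
  have hTc : Nat.card T = r := by rw [hT, Nat.card_zpowers, hk]
  have hCT : centralizer (T : Set G) = A := by rw [hT, centralizer_zpowers, hC]
  have hTA : T ≤ A := by
    rw [hT, Subgroup.zpowers_le]
    exact mem_centralizer_singleton'.mpr hzw.symm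
  have hN : normalizer (A : Set G) = normalizer (T : Set G) := by
    apply le_antisymm
    · intro n hn
      have h1 : Inv (normalizer (A : Set G)) A := fun g hg x hx =>
        (Subgroup.mem_normalizer_iff.mp hg x).mp hx
      exact mem_normalizer_of (fun x hx => cyc_inv hAc hTA h1 n hn x hx)
    · intro n hn
      apply mem_normalizer_of
      intro x hx
      rw [← hCT] at hx ⊢
      rw [Subgroup.mem_centralizer_iff] at hx ⊢
      intro s hs
      have h1 : n⁻¹ * s * n ∈ T := by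
        have := (Subgroup.mem_normalizer_iff.mp (inv_mem hn) s).mp hs
        rwa [inv_inv] at this
      have h2 := hx _ h1
      calc s * (n * x * n⁻¹) = n * ((n⁻¹ * s * n) * x) * n⁻¹ := by group
        _ = n * (x * (n⁻¹ * s * n)) * n⁻¹ := by rw [h2]
        _ = n * x * n⁻¹ * s := by group
  have hcard : Nat.card (normalizer (T : Set G)) =
      Nat.card A * Nat.card (T.normalizerMonoidHom).range := by
    rw [← Subgroup.card_mul_index (T.normalizerMonoidHom).ker, Subgroup.index_ker,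
      normalizerMonoidHom_ker, hCT]
    congr 1
    have hAN : A ≤ normalizer (T : Set G) := by rw [← hN]; exact le_normalizer
    exact Nat.card_congr (Subgroup.subgroupOfEquivOfLe hAN).toEquiv
  have hTp : (Nat.card T).Prime := by rw [hTc]; exact hr
  have hT2 : Nat.card T ≠ 2 := by rw [hTc]; exact hr2
  have hne := h.range_ne_one hTp hT2
  -- only the prime 2
  have hprimes : ∀ u, u.Prime → u ∣ Nat.card (T.normalizerMonoidHom).range → u = 2 := by
    intro u hu hud
    have hTG : Nat.card T ∣ Nat.card G := Subgroup.card_subgroup_dvd_card T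
    rcases h.dvd_qM hTp hT2 hTG with h1 | h1
    · have h2 := hud.trans (range_dvd_sub_one T hTp rfl)
      rw [h1] at h2
      exact (Nat.prime_dvd_prime_iff_eq hu Nat.prime_two).mp h2
    · exact h.range_primes hTp h1 u hu hud
  obtain ⟨u, hu, hud⟩ := Nat.exists_prime_and_dvd hne
  have hu2 := hprimes u hu hud
  subst hu2
  obtain ⟨c, hc⟩ := hud
  have hc1 : c = 1 := by
    by_contra hc1
    obtain ⟨v, hv, hvc⟩ := Nat.exists_prime_and_dvd hc1
    have hv2 := hprimes v hv (by rw [hc]; exact hvc.mul_left _)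
    subst hv2
    have h4 : 2 ^ 2 ∣ Nat.card (normalizer (T : Set G)) := by
      rw [hcard, hc]
      exact (Nat.mul_dvd_mul_left 2 hvc |>.trans (dvd_refl _)).mul_left _
    obtain ⟨K, hK⟩ := Sylow.exists_subgroup_card_pow_prime 2 h4
    obtain ⟨P₀⟩ : Nonempty (Sylow 2 G) := inferInstance
    have hfac : (Nat.card G).factorization 2 = 2 := by
      have h5 := h.card_sylow P₀
      rw [P₀.card_eq_multiplicity] at h5
      exact Nat.pow_right_injective (le_refl 2) h5
    have hK' : Nat.card (K.map (normalizer (T : Set G)).subtype) = 2 ^ (Nat.card G).factorization 2 := by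
      rw [hfac, ← hK]
      exact Subgroup.card_map_of_injective (Subgroup.subtype_injective _)
    let P' : Sylow 2 G := Sylow.ofCard _ hK'
    have hP'N : (P' : Subgroup G) ≤ normalizer (T : Set G) := Subgroup.map_subtype_le _
    have h6 := h.cent_ne_bot P' (h.all_sylow P') T hTp
      (fun g hg x hx => (Subgroup.mem_normalizer_iff.mp (hP'N hg) x).mp hx)
    obtain ⟨x, hx1⟩ := (Subgroup.ne_bot_iff_exists_ne_one).mp h6
    apply hA
    have hxP : (x : G) ∈ (P' : Subgroup G) := x.2.1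
    have hxA : (x : G) ∈ A := by rw [← hCT]; exact x.2.2
    have hx2 := h.P_exp P' (h.all_sylow P') x hxP
    have h7 := orderOf_dvd_natCard (⟨x, hxA⟩ : A)
    rw [Subgroup.orderOf_mk, orderOf_inv (fun h8 => hx1 (Subtype.ext h8)) hx2] at h7
    exact h7
  rw [hN, hcard, hc, hc1]
  ring

lemma normalizer_Dx {x : G} (hx : x ≠ 1) (hx2 : x ^ 2 = 1) :
    normalizer ((Dx x : Subgroup G) : Set G) = centralizer {x} := by
  ext n
  rw [mem_normalizer_cnj, h.cnj_Dx n hx hx2, mem_centralizer_singleton']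
  constructor
  · intro h1
    have h2 : n * x * n⁻¹ ∈ Dx x := by
      rw [← h1]
      exact h.self_mem_Dx _
    have h3 := h.Dx_inv hx hx2 h2 (conj_ne_one hx) (by rw [conj_pow, hx2]; group)
    calc n * x = n * x * n⁻¹ * n := by group
      _ = x * n := by rw [h3]
  · intro h1
    rw [h1, mul_inv_cancel_right]

open Classical in
theorem five_dvd : 5 ∣ Nat.card G := by
  have : Fintype G := Fintype.ofFinite G
  have hpart := h.isPart
  set S : G → Subgroup G := fun z : G => if z ^ 2 = 1 then Dx z else centralizer {z} with hS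
  have hSpos : ∀ z : G, z ^ 2 = 1 → S z = Dx z := fun z hz => if_pos hz
  have hSneg : ∀ z : G, z ^ 2 ≠ 1 → S z = centralizer {z} := fun z hz => if_neg hz
  obtain ⟨I, h1, h2, h3⟩ := hpart.exists_reps
  have hsum := hpart.sum_eq h1 h2 h3 (K := ℚ) (fun _ => 1) (fun _ _ => rfl)
  simp only [sum_part_one] at hsum
  rw [Finset.sum_const, Finset.card_univ, nsmul_eq_mul, mul_one, ← Nat.card_eq_fintype_card] at hsum
  -- an involution
  have h2G : 2 ∣ Nat.card (⊤ : Subgroup G) := by
    rw [Subgroup.card_top, h.card]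
    exact (by norm_num : 2 ∣ 2 ^ 2).mul_right _
  obtain ⟨x₀, -, hx₀, hx₀2⟩ := h.exists_inv_of_even h2G
  obtain ⟨A₀, hA₀, κ, hκ⟩ := h3 x₀ hx₀
  rw [hSpos x₀ hx₀2] at hκ
  have hA₀x : A₀ = Dx (κ⁻¹ * x₀ * κ) := by
    have := h.cnj_Dx κ⁻¹ hx₀ hx₀2
    rw [inv_inv, hκ, cnj_inv_cnj] at this
    exact this
  set x₁ := κ⁻¹ * x₀ * κ with hx₁def
  have hx₁ : x₁ ≠ 1 := by
    have := conj_ne_one (g := κ⁻¹) hx₀
    rwa [inv_inv] at this
  have hx₁2 : x₁ ^ 2 = 1 := by
    have h4 : x₁ = κ⁻¹ * x₀ * κ⁻¹⁻¹ := by rw [inv_inv]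
    rw [h4, conj_pow, hx₀2]
    group
  set k := Nat.card (Kx x₁) with hk
  have hkpos : 1 ≤ k := Nat.card_pos
  have hk2 : ¬ 2 ∣ k := (h.Kx_spec hx₁ hx₁2).2.1
  have hA₀c : Nat.card A₀ = 2 * k := by rw [hA₀x, h.card_Dx hx₁ hx₁2]
  have hA₀N : Nat.card (normalizer (A₀ : Set G)) = 4 * k := by
    rw [hA₀x, h.normalizer_Dx hx₁ hx₁2, (h.Kx_spec hx₁ hx₁2).2.2.2.2]
  have h4kG : 4 * k ∣ Nat.card G := hA₀N ▸ Subgroup.card_subgroup_dvd_card _
  have hgpos : 0 < Nat.card G := Nat.card_pos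
  -- the other representatives
  have hodd : ∀ A ∈ I.erase A₀, ¬ 2 ∣ Nat.card A ∧ Nat.card (normalizer (A : Set G)) = 2 * Nat.card A ∧
      3 ≤ Nat.card A := by
    intro A hA
    obtain ⟨hne, hAI⟩ := Finset.mem_erase.mp hA
    obtain ⟨z, hz, hzA⟩ := h1 A hAI
    have hnoinv : ¬ ∃ x, x ≠ 1 ∧ x ^ 2 = 1 ∧ A = Dx x := by
      rintro ⟨x, hx, hx2, hAx⟩
      apply hne
      symm
      apply h2 A₀ hA₀ A hAI
      obtain ⟨n, hn⟩ := h.conj_inv hx₁ hx₁2 hx hx2
      exact ⟨n, by rw [hAx, hn, ← h.cnj_Dx n hx₁ hx₁2, hA₀x]⟩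
    have hz2 : z ^ 2 ≠ 1 := by
      intro hz2
      exact hnoinv ⟨z, hz, hz2, by rw [← hzA, hSpos z hz2]⟩
    rw [hSneg z hz2] at hzA
    have hA2 : ¬ 2 ∣ Nat.card A := by
      intro hA2
      obtain ⟨x, hxA, hx, hx2⟩ := h.exists_inv_of_even hA2
      apply hnoinv
      refine ⟨x, hx, hx2, ?_⟩
      rw [← hzA] at hxA ⊢
      exact h.centralizer_of_comm hx hx2 hz2 (mem_centralizer_singleton'.mp hxA).symm
    refine ⟨hA2, ?_, ?_⟩
    · rw [← hzA] at hA2 ⊢
      exact h.card_N_odd hz2 hA2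
    · have h5 : 1 < Nat.card A := by
        rw [← hzA, ← hSneg z hz2]
        exact hpart.card_one_lt hz
      omega
  have hdist : ∀ A ∈ I.erase A₀, ∀ B ∈ I.erase A₀, A ≠ B → Nat.card A ≠ Nat.card B := by
    intro A hA B hB hAB hcard
    obtain ⟨hA2, -, hA3⟩ := hodd A hA
    obtain ⟨r, hr, hrA⟩ := Nat.exists_prime_and_dvd (by omega : Nat.card A ≠ 1)
    have hr2 : r ≠ 2 := by
      rintro rfl
      exact hA2 hrA
    obtain ⟨z, hz, hzA⟩ := h1 A (Finset.mem_of_mem_erase hA)
    obtain ⟨w, hw, hwB⟩ := h1 B (Finset.mem_of_mem_erase hB)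
    obtain ⟨n, hn⟩ := hpart.conj_of_dvd hz hw hr (h.not_sq hr hr2) (by rw [hzA]; exact hrA)
      (by rw [hwB, ← hcard]; exact hrA)
    apply hAB
    apply h2 A (Finset.mem_of_mem_erase hA) B (Finset.mem_of_mem_erase hB)
    exact ⟨n, by rw [← hwB, hn, hzA]⟩
  -- the equation
  have hg0 : (0 : ℚ) < Nat.card G := by exact_mod_cast hgpos
  have hk0 : (0 : ℚ) < k := by exact_mod_cast hkpos
  have hsum2 : ∑ A ∈ I.erase A₀, ((1 : ℚ) / 2 - 1 / (2 * Nat.card A)) =
      1 / 2 + 1 / (4 * k) - 1 / Nat.card G := by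
    rw [← Finset.add_sum_erase I _ hA₀, hA₀N, hA₀c] at hsum
    have h5 : ∑ A ∈ I.erase A₀, ((Nat.card G : ℚ) / (Nat.card (normalizer (A : Set G)) : ℚ)) *
        ((Nat.card A : ℚ) - 1) = (Nat.card G : ℚ) *
        ∑ A ∈ I.erase A₀, ((1 : ℚ) / 2 - 1 / (2 * Nat.card A)) := by
      rw [Finset.mul_sum]
      apply Finset.sum_congr rfl
      intro A hA
      obtain ⟨-, hAN, hA3⟩ := hodd A hA
      have hA0 : (0 : ℚ) < Nat.card A := by exact_mod_cast (by omega : 0 < Nat.card A)
      rw [hAN]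
      push_cast
      field_simp
    rw [h5] at hsum
    push_cast at hsum
    set X := ∑ A ∈ I.erase A₀, ((1 : ℚ) / 2 - 1 / (2 * Nat.card A)) with hX
    have h6 : (Nat.card G : ℚ) * X = (Nat.card G : ℚ) * (1 / 2 + 1 / (4 * k) - 1 / Nat.card G) := by
      have h7 : (Nat.card G : ℚ) * (1 / 2 + 1 / (4 * k) - 1 / Nat.card G) =
          Nat.card G - 1 - (Nat.card G : ℚ) / (4 * k) * (2 * k - 1) := by
        field_simp
        ring
      rw [h7]
      linarith
    exact mul_left_cancel₀ hg0.ne' h6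
  have hkg : (1 : ℚ) / Nat.card G ≤ 1 / (4 * k) := by
    apply one_div_le_one_div_of_le (by positivity)
    exact_mod_cast Nat.le_of_dvd hgpos h4kG
  have hterm : ∀ A ∈ I.erase A₀, (1 : ℚ) / 3 ≤ 1 / 2 - 1 / (2 * Nat.card A) := by
    intro A hA
    obtain ⟨-, -, hA3⟩ := hodd A hA
    have hA0 : (3 : ℚ) ≤ Nat.card A := by exact_mod_cast hA3
    have h5 : (1 : ℚ) / (2 * Nat.card A) ≤ 1 / 6 := by
      apply one_div_le_one_div_of_le (by norm_num)
      linarith
    linarith
  have hle2 : (I.erase A₀).card ≤ 2 := by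
    by_contra hcon
    have h5 := Finset.card_nsmul_le_sum _ _ _ hterm
    rw [hsum2, nsmul_eq_mul] at h5
    have h6 : (3 : ℚ) ≤ ((I.erase A₀).card : ℚ) := by exact_mod_cast (by omega : 3 ≤ (I.erase A₀).card)
    have h7 : (1 : ℚ) / (4 * k) ≤ 1 / 4 := by
      apply one_div_le_one_div_of_le (by norm_num)
      have : (1 : ℚ) ≤ k := by exact_mod_cast hkpos
      linarith
    have h8 : (0 : ℚ) < 1 / Nat.card G := by positivity
    linarith
  have hk4 : (0 : ℚ) < 1 / (4 * k) := by positivity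
  interval_cases hc : (I.erase A₀).card
  · rw [Finset.card_eq_zero.mp hc, Finset.sum_empty] at hsum2
    linarith
  · obtain ⟨A, hA⟩ := Finset.card_eq_one.mp hc
    obtain ⟨-, -, hA3⟩ := hodd A (by rw [hA]; exact Finset.mem_singleton_self A)
    have hA0 : (0 : ℚ) < Nat.card A := by exact_mod_cast (by omega : 0 < Nat.card A)
    rw [hA, Finset.sum_singleton] at hsum2
    have h5 : (0 : ℚ) < 1 / (2 * Nat.card A) := by positivity
    linarith
  · obtain ⟨A, B, hAB, hJ⟩ := Finset.card_eq_two.mp hc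
    have hAJ : A ∈ I.erase A₀ := by rw [hJ]; simp
    have hBJ : B ∈ I.erase A₀ := by rw [hJ]; simp
    obtain ⟨hA2, -, hA3⟩ := hodd A hAJ
    obtain ⟨hB2, -, hB3⟩ := hodd B hBJ
    have hne := hdist A hAJ B hBJ hAB
    rw [hJ, Finset.sum_pair hAB] at hsum2
    have hgp : (0 : ℚ) < 1 / Nat.card G := by positivity
    rcases lt_or_gt_of_ne hne with hlt | hlt
    · have h5 := num_two hkpos hk2 hA3 hlt hA2 hB2 (by linarith)
      rw [← h5]
      exact Subgroup.card_subgroup_dvd_card B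
    · have h5 := num_two hkpos hk2 hB3 hlt hB2 hA2 (by linarith)
      rw [← h5]
      exact Subgroup.card_subgroup_dvd_card A

end

end Cfg

end Pool.Agent.Lib.MP_4f0ec0_al
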