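import Mathlib
import Pool.Agent.Lib.MP_4f0ec0_al.Loc8

/-! Local analysis, part 9: centralizers are abelian when the Sylow `p`-subgroups have order at
least `p ^ 3`. -/

set_option linter.unusedSectionVars false

namespace Pool.Agent.Lib.MP_4f0ec0_al

open Function Subgroup

/-- The centralizers of nontrivial elements are abelian. -/
def CA (G : Type) [Group G] : Prop := ∀ z : G, z ≠ 1 → ∀ u ∈ centralizer ({z} : Set G),
  ∀ v ∈ centralizer ({z} : Set G), u * v = v * u

section

variable {G : Type} [Group G] [Finite G]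

/-- A subgroup of squarefree order with a fixed-point-free automorphism induced by an element of a
solvable group is abelian. -/
lemma comm_of_fpf (N Y : Subgroup G) (hsol : Group.IsSolvable N) (hYN : Y ≤ N) (hinv : Inv N Y)
    (hsq : Squarefree (Nat.card Y)) {d : G} (hd : d ∈ N) (hfpf : ∀ y ∈ Y, d * y = y * d → y = 1) :
    ∀ u ∈ Y, ∀ v ∈ Y, u * v = v * u := by
  by_contra hcon
  push Not at hcon
  obtain ⟨u, hu, v, hv, huv⟩ := hcon
  set B := (commutator Y).map Y.subtype with hB
  have hBY : B ≤ Y := Subgroup.map_subtype_le _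
  have hBne : B ≠ ⊥ := by
    intro h0
    apply huv
    have h1 : u * v * u⁻¹ * v⁻¹ ∈ B := by
      refine ⟨(⟨u, hu⟩ : Y) * ⟨v, hv⟩ * (⟨u, hu⟩ : Y)⁻¹ * (⟨v, hv⟩ : Y)⁻¹, ?_, rfl⟩
      exact Subgroup.commutator_mem_commutator (H₁ := (⊤ : Subgroup Y)) (H₂ := (⊤ : Subgroup Y))
        (Subgroup.mem_top (⟨u, hu⟩ : Y)) (Subgroup.mem_top (⟨v, hv⟩ : Y))
    rw [h0, Subgroup.mem_bot] at h1
    calc u * v = (u * v * u⁻¹ * v⁻¹) * (v * u) := by group
      _ = v * u := by rw [h1, one_mul]
  have hBinv : Inv N B := by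
    rintro g hg _ ⟨x, hx, rfl⟩
    refine ⟨cjA Y g (fun y hy => hinv g hg y hy) x, ?_, rfl⟩
    have h1 : (commutator Y).map (cjA Y g (fun y hy => hinv g hg y hy)).toMonoidHom ≤ commutator Y := by
      have : (commutator Y).Characteristic := inferInstance
      exact Subgroup.characteristic_iff_map_le.mp this _
    exact h1 ⟨x, hx, rfl⟩
  obtain ⟨R, hRB, hRinv, hRp⟩ := exists_prime_inv' N hsol B (hBY.trans hYN) hBne hBinv
    (hsq.squarefree_of_dvd (Subgroup.card_dvd_of_le hBY))
  have hRY : R ≤ Y := hRB.trans hBY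
  -- `Y` centralizes `R`
  have hcyc := isCyclic_mulAut_prime hRp
  have hcen : ∀ y ∈ Y, ∀ r ∈ R, y * r = r * y := by
    let c : Y → Y := fun y => ⟨(y : G)⁻¹ * (d * y * d⁻¹), mul_mem (inv_mem y.2) (hinv d hd y y.2)⟩
    have hc : Injective c := by
      intro y y' h1
      have h2 : (y : G)⁻¹ * (d * y * d⁻¹) = (y' : G)⁻¹ * (d * y' * d⁻¹) := congrArg Subtype.val h1
      have h3 : d * ((y' : G) * (y : G)⁻¹) = ((y' : G) * (y : G)⁻¹) * d := by
        calc d * ((y' : G) * (y : G)⁻¹) = y' * ((y' : G)⁻¹ * (d * y' * d⁻¹)) * d * (y : G)⁻¹ := by group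
          _ = y' * ((y : G)⁻¹ * (d * y * d⁻¹)) * d * (y : G)⁻¹ := by rw [h2]
          _ = ((y' : G) * (y : G)⁻¹) * d := by group
      have h4 := hfpf _ (mul_mem y'.2 (inv_mem y.2)) h3
      exact Subtype.ext (mul_inv_eq_one.mp h4).symm
    have hc' : Surjective c := Finite.injective_iff_surjective.mp hc
    intro y hy r hr
    obtain ⟨x, hx⟩ := hc' ⟨y, hy⟩
    have hx' : (x : G)⁻¹ * (d * x * d⁻¹) = y := congrArg Subtype.val hx
    have h1 : actHom N R hRinv ⟨y, hYN hy⟩ = 1 := by
      have h2 : (⟨y, hYN hy⟩ : N) = (⟨x, hYN x.2⟩ : N)⁻¹ * (⟨d, hd⟩ * ⟨x, hYN x.2⟩ * (⟨d, hd⟩ : N)⁻¹) :=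
        Subtype.ext hx'.symm
      rw [h2, map_mul, map_mul, map_mul, map_inv, map_inv]
      have h3 : ∀ a b : MulAut R, a * b = b * a := fun a b => hcyc.commGroup.mul_comm a b
      rw [h3 (actHom N R hRinv ⟨d, hd⟩), mul_inv_cancel_right, inv_mul_cancel]
    exact (actHom_eq_one hRinv ⟨y, hYN hy⟩).mp h1 r hr
  -- a retraction onto `R`
  set R' := R.subgroupOf Y with hR'
  have hR'c : Nat.card R' = Nat.card R := Nat.card_congr (Subgroup.subgroupOfEquivOfLe hRY).toEquiv
  obtain ⟨f, hf⟩ := exists_hom_coprime R' (by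
    intro g x hx
    apply Subtype.ext
    exact hcen g g.2 x hx) (by
    rw [hR'c, Nat.Prime.coprime_iff_not_dvd hRp]
    intro h1
    apply sq_not_dvd hRp hsq
    rw [← Subgroup.card_mul_index R', hR'c, pow_two]
    exact Nat.mul_dvd_mul_left _ h1)
  obtain ⟨r, hr1⟩ := (Subgroup.ne_bot_iff_exists_ne_one (H := R)).mp (by
    intro h0
    rw [h0, Subgroup.card_bot] at hRp
    exact Nat.not_prime_one hRp)
  obtain ⟨x, hx, hxr⟩ := hRB r.2
  have hfx : f x = 1 := by
    have hcomm : ∀ a b : R', a * b = b * a := fun a b => by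
      apply Subtype.ext
      apply Subtype.ext
      exact hcen a.1 a.1.2 b.1 b.2
    let cg : CommGroup R' := { (inferInstance : Group R') with mul_comm := hcomm }
    exact Abelianization.commutator_subset_ker f hx
  have hxR : x ∈ R' := by
    show (x : G) ∈ R
    have : (x : G) = r := hxr
    rw [this]
    exact r.2
  have h1 := hf x hxR hfx
  apply hr1
  apply Subtype.ext
  rw [← hxr, h1]
  rfl

end

namespace Cfg

variable {G : Type} [Group G] [Finite G] {p q a M : ℕ}

section

variable (h : Cfg G p q a M) [Fact p.Prime] (ha3 : 3 ≤ a)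

include h ha3

lemma centralizer_p {x : G} (hx : orderOf x = p) : ∃ P : Sylow p G, x ∈ P ∧
    centralizer ({x} : Set G) = P := by
  obtain ⟨P, hP⟩ := exists_sylow_mem hx
  refine ⟨P, hP, h.centralizer_eq P (h.all_sylow P) ha3 hP ?_⟩
  intro h1
  rw [h1, orderOf_one] at hx
  exact h.hp.one_lt.ne hx

/-- The centralizer of an element of prime order different from `p` has order prime to `p`. -/
lemma centralizer_not_p {w : G} (hw : (orderOf w).Prime) (hwp : orderOf w ≠ p) :
    ¬ p ∣ Nat.card (centralizer ({w} : Set G)) := by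
  intro hd
  obtain ⟨x, hx⟩ := exists_prime_orderOf_dvd_card' (G := centralizer ({w} : Set G)) p hd
  rw [← Subgroup.orderOf_coe] at hx
  obtain ⟨P, -, hP⟩ := h.centralizer_p ha3 hx
  have h1 : w ∈ centralizer ({(x : G)} : Set G) :=
    mem_centralizer_singleton'.mpr (mem_centralizer_singleton'.mp x.2).symm
  rw [hP] at h1
  have h2 := h.P_exp P (h.all_sylow P) w h1
  have h3 := orderOf_dvd_of_pow_eq_one h2
  exact hwp ((Nat.prime_dvd_prime_iff_eq hw h.hp).mp h3)

lemma centralizer_sqf {w : G} (hw : (orderOf w).Prime) (hwp : orderOf w ≠ p) :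
    Nat.card (centralizer ({w} : Set G)) ∣ q * M :=
  h.sqf_of_cop (h.centralizer_not_p ha3 hw hwp)

lemma normalizer_zpowers_ne_top {w : G} (hw : w ≠ 1) (hwn : Subgroup.zpowers w ≠ ⊤) :
    normalizer ((Subgroup.zpowers w : Subgroup G) : Set G) ≠ ⊤ := by
  intro h1
  have hn : (Subgroup.zpowers w).Normal := Subgroup.normalizer_eq_top_iff.mp h1
  rcases h.simple.2.1.eq_bot_or_eq_top_of_normal _ hn with h2 | h2
  · rw [Subgroup.zpowers_eq_bot] at h2
    exact hw h2
  · exact hwn h2

lemma zpowers_ne_top (w : G) : Subgroup.zpowers w ≠ ⊤ := by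
  intro h1
  obtain ⟨x, y, hxy⟩ := h.simple.2.2
  apply hxy
  have hx : x ∈ Subgroup.zpowers w := by rw [h1]; trivial
  have hy : y ∈ Subgroup.zpowers w := by rw [h1]; trivial
  obtain ⟨i, rfl⟩ := Subgroup.mem_zpowers_iff.mp hx
  obtain ⟨j, rfl⟩ := Subgroup.mem_zpowers_iff.mp hy
  rw [← zpow_add, ← zpow_add, add_comm]

lemma centralizer_comm_prime {w : G} (hw : (orderOf w).Prime) : ∀ u ∈ centralizer ({w} : Set G),
    ∀ v ∈ centralizer ({w} : Set G), u * v = v * u := by
  have hw1 : w ≠ 1 := by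
    rintro rfl
    rw [orderOf_one] at hw
    exact Nat.not_prime_one hw
  by_cases hwp : orderOf w = p
  · obtain ⟨P, hxP, hP⟩ := h.centralizer_p ha3 hwp
    rw [hP]
    exact h.P_comm P (h.all_sylow P)
  · have hdvd := h.centralizer_sqf ha3 hw hwp
    have hnp := h.centralizer_not_p ha3 hw hwp
    set Y := centralizer ({w} : Set G) with hY
    have hsq : Squarefree (Nat.card Y) := h.sqf.squarefree_of_dvd hdvd
    have hwY : w ∈ Y := self_mem_centralizer w
    have hwG : orderOf w ∣ Nat.card G := orderOf_dvd_natCard w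
    rcases h.dvd_qM hw hwp hwG with hq | hM
    · -- `w` of order `q`
      have hcomm : ∀ x y : Y, x * y = y * x := by
        set Q := Subgroup.zpowers (⟨w, hwY⟩ : Y) with hQ
        have hQcen : ∀ x ∈ Q, ∀ y, x * y = y * x := by
          intro x hx y
          obtain ⟨i, rfl⟩ := Subgroup.mem_zpowers_iff.mp hx
          have h1 : Commute (⟨w, hwY⟩ : Y) y :=
            Subtype.ext (mem_centralizer_singleton'.mp y.2).symm
          exact (h1.zpow_left i).eq
        have hQn : Q.Normal := ⟨fun x hx g => by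
          rw [← hQcen x hx g, mul_inv_cancel_right]
          exact hx⟩
        apply comm_of_quot Q hQcen
        have hQc : Nat.card Q = q := by rw [hQ, Nat.card_zpowers, Subgroup.orderOf_mk, hq]
        have h2 := Subgroup.card_eq_card_quotient_mul_card_subgroup Q
        rw [hQc] at h2
        have h3 : Nat.card (Y ⧸ Q) ∣ M := by
          rw [h2, mul_comm] at hdvd
          exact Nat.dvd_of_mul_dvd_mul_left h.hq.pos hdvd
        exact isCyclic_of_cyc (m := Nat.card (Y ⧸ Q)) Nat.card_pos.ne' (cyc_of_dvd h.cop h3) rfl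
      intro u hu v hv
      exact congrArg Subtype.val (hcomm ⟨u, hu⟩ ⟨v, hv⟩)
    · -- `w` of order dividing `M`
      set T := Subgroup.zpowers w with hT
      have hTc : Nat.card T = orderOf w := Nat.card_zpowers w
      have hTp : (Nat.card T).Prime := by rw [hTc]; exact hw
      have hCT : centralizer (T : Set G) = Y := centralizer_zpowers w
      obtain ⟨u, hu, hud⟩ := Nat.exists_prime_and_dvd (h.range_ne_one hTp (by rw [hTc]; exact hwp))
      have hup := h.range_primes hTp (by rw [hTc]; exact hM) u hu hud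
      subst hup
      obtain ⟨d, hd⟩ := exists_prime_orderOf_dvd_card' (G := normalizer (T : Set G)) u
        (hud.trans (Subgroup.card_range_dvd _))
      rw [← Subgroup.orderOf_coe] at hd
      obtain ⟨P, -, hP⟩ := h.centralizer_p ha3 hd
      have hYN : Y ≤ normalizer (T : Set G) := centralizer_le_normalizer_zpowers w
      have hYinv : Inv (normalizer (T : Set G)) Y := by
        intro n hn x hx
        rw [← hCT] at hx ⊢
        rw [Subgroup.mem_centralizer_iff] at hx ⊢
        intro s hs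
        have h1 : n⁻¹ * s * n ∈ T := by
          have := (Subgroup.mem_normalizer_iff.mp (inv_mem hn) s).mp hs
          rwa [inv_inv] at this
        have h2 := hx _ h1
        calc s * (n * x * n⁻¹) = n * ((n⁻¹ * s * n) * x) * n⁻¹ := by group
          _ = n * (x * (n⁻¹ * s * n)) * n⁻¹ := by rw [h2]
          _ = n * x * n⁻¹ * s := by group
      refine comm_of_fpf (normalizer (T : Set G)) Y (h.sol _ (h.normalizer_zpowers_ne_top ha3 hw1
        (h.zpowers_ne_top ha3 w))) hYN hYinv hsq d.2 ?_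
      intro y hy hdy
      have h1 : y ∈ centralizer ({(d : G)} : Set G) := mem_centralizer_singleton'.mpr hdy.symm
      rw [hP] at h1
      have h2 := h.P_exp P (h.all_sylow P) y h1
      have h3 := orderOf_dvd_of_pow_eq_one h2
      rcases (Nat.dvd_prime hu).mp h3 with h4 | h4
      · exact orderOf_eq_one_iff.mp h4
      · exfalso
        apply hnp
        have h5 := orderOf_dvd_natCard (⟨y, hy⟩ : Y)
        rwa [Subgroup.orderOf_mk, h4] at h5

theorem ca : CA G := by
  intro z hz u hu v hv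
  obtain ⟨r, hr, hrd⟩ := Nat.exists_prime_and_dvd (n := orderOf z) (by
    intro h1
    exact hz (orderOf_eq_one_iff.mp h1))
  obtain ⟨k, hk⟩ := exists_pow_prime hrd
  exact h.centralizer_comm_prime ha3 (w := z ^ k) (by rw [hk]; exact hr) u
    (centralizer_pow_le z k hu) v (centralizer_pow_le z k hv)

end

end Cfg

section CAlemmas

variable {G : Type} [Group G] [Finite G]

lemma CA.eq (hCA : CA G) {z w : G} (hz : z ≠ 1) (hw : w ≠ 1)
    (h : w ∈ centralizer ({z} : Set G)) : centralizer ({w} : Set G) = centralizer {z} :=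
  centralizer_eq_of_comm (hCA w hw) (hCA z hz) (mem_centralizer_singleton'.mp h)

lemma CA.part (hCA : CA G) : GPart (fun z : G => centralizer ({z} : Set G)) :=
  ⟨fun z _ => self_mem_centralizer z, fun _ hz _ hw hw1 => hCA.eq hz hw1 hw,
    fun g z _ => (cnj_centralizer g z).symm⟩

/-- The normalizer of a centralizer acts freely. -/
lemma CA.free (hCA : CA G) {z : G} (hz : z ≠ 1) {n x : G} (hx : x ∈ centralizer ({z} : Set G))
    (hx1 : x ≠ 1) (h : n * x = x * n) : n ∈ centralizer ({z} : Set G) := by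
  rw [← hCA.eq hz hx1 hx]
  exact mem_centralizer_singleton'.mpr h

/-- Sylow subgroups of a CA-group lie in centralizers. -/
lemma CA.sylow (hCA : CA G) {r : ℕ} [hr : Fact r.Prime] (U : Sylow r G) {u : G} (hu : u ∈ U)
    (hu1 : u ≠ 1) : (U : Subgroup G) ≤ centralizer {u} := by
  have hnt : Nontrivial (U : Subgroup G) :=
    ⟨⟨⟨u, hu⟩, 1, fun h => hu1 (congrArg Subtype.val h)⟩⟩
  have h1 : Nontrivial (Subgroup.center (U : Subgroup G)) := U.2.center_nontrivial
  obtain ⟨c, hc⟩ := exists_ne (1 : Subgroup.center (U : Subgroup G))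
  have hc1 : ((c : (U : Subgroup G)) : G) ≠ 1 := fun h => hc (Subtype.ext (Subtype.ext h))
  have hcc : ∀ x ∈ (U : Subgroup G), x * ((c : (U : Subgroup G)) : G) = ((c : (U : Subgroup G)) : G) * x := by
    intro x hx
    exact congrArg Subtype.val (Subgroup.mem_center_iff.mp c.2 ⟨x, hx⟩)
  have h2 := hCA.eq (z := ((c : (U : Subgroup G)) : G)) hc1 hu1 (mem_centralizer_singleton'.mpr (hcc u hu))
  rw [h2]
  intro x hx
  exact mem_centralizer_singleton'.mpr (hcc x hx)

/-- In a simple group the normalizer of a centralizer is larger. -/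
lemma CA.normalizer_ne (hCA : CA G) (hS : NonabSimple G) {z : G} (hz : z ≠ 1) :
    normalizer ((centralizer ({z} : Set G) : Subgroup G) : Set G) ≠ centralizer {z} := by
  intro hN
  obtain ⟨r, hr, hrd⟩ := Nat.exists_prime_and_dvd (n := orderOf z) (by
    intro h1
    exact hz (orderOf_eq_one_iff.mp h1))
  have hfr : Fact r.Prime := ⟨hr⟩
  obtain ⟨k, hk⟩ := exists_pow_prime hrd
  set u := z ^ k with hu
  have hu1 : u ≠ 1 := by
    intro h1
    rw [h1, orderOf_one] at hk
    exact hr.one_lt.ne hk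
  obtain ⟨U, hU⟩ := Cfg.exists_sylow_mem hk
  have hUu := hCA.sylow U hU hu1
  have huz : centralizer ({u} : Set G) = centralizer {z} := hCA.eq hz hu1
    (mem_centralizer_singleton'.mpr (by rw [hu, ← pow_succ, ← pow_succ']))
  apply burnside_simple hS (hrd.trans (orderOf_dvd_natCard z)) U
  intro n hn
  have h1 : n ∈ normalizer ((centralizer ({z} : Set G) : Subgroup G) : Set G) := by
    rw [mem_normalizer_cnj, ← huz, cnj_centralizer]
    have h2 : n * u * n⁻¹ ∈ (U : Subgroup G) := (Subgroup.mem_normalizer_iff.mp hn u).mp hU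
    exact hCA.eq hu1 (conj_ne_one hu1) (hUu h2)
  rw [hN, ← huz] at h1
  rw [Subgroup.mem_centralizer_iff]
  intro x hx
  exact hCA u hu1 x (hUu hx) n h1

/-- Parts with a common prime divisor of their orders are conjugate. -/
lemma CA.conj_of_dvd (hCA : CA G) {z w : G} (hz : z ≠ 1) (hw : w ≠ 1) {r : ℕ} (hr : r.Prime)
    (h1 : r ∣ Nat.card (centralizer ({z} : Set G))) (h2 : r ∣ Nat.card (centralizer ({w} : Set G))) :
    ∃ k, centralizer ({w} : Set G) = cnj k (centralizer {z}) := by
  have hfr : Fact r.Prime := ⟨hr⟩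
  obtain ⟨u, hu⟩ := exists_prime_orderOf_dvd_card' (G := centralizer ({z} : Set G)) r h1
  obtain ⟨v, hv⟩ := exists_prime_orderOf_dvd_card' (G := centralizer ({w} : Set G)) r h2
  rw [← Subgroup.orderOf_coe] at hu hv
  have hu1 : (u : G) ≠ 1 := by
    intro h3
    rw [h3, orderOf_one] at hu
    exact hr.one_lt.ne hu
  have hv1 : (v : G) ≠ 1 := by
    intro h3
    rw [h3, orderOf_one] at hv
    exact hr.one_lt.ne hv
  obtain ⟨U, hU⟩ := Cfg.exists_sylow_mem hu
  obtain ⟨V, hV⟩ := Cfg.exists_sylow_mem hv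
  obtain ⟨g, hg⟩ := MulAction.exists_smul_eq G U V
  have h3 : g * (u : G) * g⁻¹ ∈ V := by
    rw [← hg, mem_smul_sylow]
    have : g⁻¹ * (g * (u : G) * g⁻¹) * g = u := by group
    rw [this]
    exact hU
  have h4 := hCA.sylow V hV hv1 h3
  refine ⟨g, ?_⟩
  rw [← hCA.eq hw hv1 v.2, ← hCA.eq hz hu1 u.2, cnj_centralizer]
  exact (hCA.eq hv1 (conj_ne_one hu1) h4).symm

end CAlemmas

end Pool.Agent.Lib.MP_4f0ec0_al
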