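import Mathlib
import Pool.Agent.Lib.MP_4f0ec0_al.Loc9

/-! The case `p = 2`, `a ≥ 3`. -/

set_option linter.unusedSectionVars false

namespace Pool.Agent.Lib.MP_4f0ec0_al

open Function Subgroup

lemma num_even {h A B q : ℕ} (hh : 8 ≤ h) (hq : q + 1 = h) (hh2 : 2 ∣ h) (hA : q ∣ A) (hApos : 0 < A)
    (hB : 2 < B) (hB2 : ¬ 2 ∣ B) (h1 : h * (A + B) = 2 * (A * B) + 2) : A = q ∧ B = h + 1 := by
  obtain ⟨c, rfl⟩ := hh2
  obtain ⟨k, rfl⟩ := hA
  have hq' : q = 2 * c - 1 := by omega
  -- modulo q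
  have hqpos : 0 < q := by omega
  have hBq : q ∣ B - 2 := by
    -- `2 c ≡ 1`, so `2 c (A + B) ≡ A + B ≡ B` and `2 A B + 2 ≡ 2`
    have h2 : (q : ℤ) ∣ (B : ℤ) - 2 := by
      have h3 : (2 * c : ℤ) = q + 1 := by exact_mod_cast hq.symm
      have h4 : (2 * c : ℤ) * (q * k + B) = 2 * (q * k * B) + 2 := by exact_mod_cast h1
      rw [h3] at h4
      refine ⟨2 * (k * B) - (q * k + B) - k, ?_⟩
      linarith
    have h5 : ((B - 2 : ℕ) : ℤ) = (B : ℤ) - 2 := by
      rw [Nat.cast_sub (by omega)]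
      norm_num
    rw [← h5] at h2
    exact_mod_cast h2
  have hBle := Nat.le_of_dvd (by omega) hBq
  have hk : k = 1 := by
    by_contra hne
    have hk0 : 0 < k := by
      rcases Nat.eq_zero_or_pos k with h0 | h0
      · rw [h0, mul_zero] at hApos
        omega
      · exact h0
    have hk2 : 2 ≤ k := by omega
    obtain ⟨j, hj⟩ : ∃ j, B = q + 2 + j := ⟨B - (q + 2), by omega⟩
    have hc : 2 * c = q + 1 := hq.symm
    rw [hc, hj] at h1
    obtain ⟨l, rfl⟩ : ∃ l, k = 2 + l := ⟨k - 2, by omega⟩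
    have hq7 : 7 ≤ q := by omega
    nlinarith [Nat.zero_le (q * q * l), Nat.zero_le (q * l * j), Nat.zero_le (q * j),
      Nat.zero_le (q * l), Nat.zero_le (q * q)]
  subst hk
  refine ⟨by ring, ?_⟩
  rw [mul_one] at h1
  have hc : 2 * c = q + 1 := hq.symm
  rw [hc] at h1 ⊢
  nlinarith

namespace Cfg

variable {G : Type} [Group G] [Finite G] {q a M : ℕ}

section

variable (h : Cfg G 2 q a M) [Fact (Nat.Prime 2)] (ha3 : 3 ≤ a)

include h ha3

lemma inv_centralizer {x : G} (hx : x ≠ 1) (hx2 : x ^ 2 = 1) :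
    Nat.card (centralizer ({x} : Set G)) = 2 ^ a ∧ (∀ z ∈ centralizer ({x} : Set G), z ^ 2 = 1) ∧
    Nat.card (normalizer ((centralizer ({x} : Set G) : Subgroup G) : Set G)) = 2 ^ a * q := by
  obtain ⟨P, hP, hC⟩ := h.centralizer_p ha3 (orderOf_eq_prime hx2 hx)
  rw [hC]
  exact ⟨h.card_sylow P, h.P_exp P (h.all_sylow P), h.card_normalizer P (h.all_sylow P)⟩

omit h ha3 in
lemma inv_mul_conj {u v : G} (hu2 : u ^ 2 = 1) (hv2 : v ^ 2 = 1) (k : ℕ) :
    u * (u * v) ^ k * u = ((u * v) ^ k)⁻¹ := by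
  have huu : u⁻¹ = u := inv_eq_of_mul_eq_one_left (by rw [← pow_two]; exact hu2)
  have hvv : v⁻¹ = v := inv_eq_of_mul_eq_one_left (by rw [← pow_two]; exact hv2)
  have h1 : u * (u * v) ^ k * u = (u * (u * v) * u⁻¹) ^ k := by
    rw [conj_pow, huu]
  rw [h1, ← inv_pow]
  congr 1
  rw [mul_inv_rev, huu, hvv]
  calc u * (u * v) * u = (u ^ 2) * (v * u) := by rw [pow_two]; group
    _ = v * u := by rw [hu2, one_mul]

/-- Involutions whose product has even order commute. -/
lemma comm_of_even {u v : G} (hu2 : u ^ 2 = 1) (hv2 : v ^ 2 = 1)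
    (ho : 2 ∣ orderOf (u * v)) : u * v = v * u := by
  have hCA := h.ca ha3
  obtain ⟨k, hk⟩ := exists_pow_prime ho
  set t := (u * v) ^ k with ht
  have ht1 : t ≠ 1 := by
    intro h1
    rw [h1, orderOf_one] at hk
    exact absurd hk (by norm_num)
  have ht2 : t ^ 2 = 1 := by rw [← hk, pow_orderOf_eq_one]
  have htt : t⁻¹ = t := inv_eq_of_mul_eq_one_left (by rw [← pow_two]; exact ht2)
  have huu : u * u = 1 := by rw [← pow_two]; exact hu2
  have h1 : u * t * u = t := by rw [ht, inv_mul_conj hu2 hv2, ← ht, htt]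
  have hut : u * t = t * u := by
    calc u * t = u * t * (u * u) := by rw [huu, mul_one]
      _ = u * t * u * u := by group
      _ = t * u := by rw [h1]
  -- `u * v` commutes with `t`, hence so does `v`
  have h2 : Commute (u * v) t := by
    rw [ht]
    exact (Commute.refl _).pow_right k
  have h3 : Commute v t := by
    have h4 : Commute u t := hut
    have h5 := h4.inv_left.mul_left h2
    rwa [inv_mul_cancel_left] at h5
  exact hCA t ht1 u (mem_centralizer_singleton'.mpr hut) v (mem_centralizer_singleton'.mpr h3)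

omit h ha3 in
lemma conj_of_odd {u v : G} (hu2 : u ^ 2 = 1) (hv2 : v ^ 2 = 1) (ho : ¬ 2 ∣ orderOf (u * v)) :
    ∃ g, v = g * u * g⁻¹ := by
  obtain ⟨m, hm⟩ : ∃ m, orderOf (u * v) = 2 * m + 1 := ⟨orderOf (u * v) / 2, by omega⟩
  have huu : u * u = 1 := by rw [← pow_two]; exact hu2
  have h1 := inv_mul_conj hu2 hv2 (m + 1)
  refine ⟨((u * v) ^ (m + 1))⁻¹, ?_⟩
  rw [inv_inv]
  have h2 : ((u * v) ^ (m + 1))⁻¹ * u = u * (u * v) ^ (m + 1) := by
    rw [← h1]
    calc u * (u * v) ^ (m + 1) * u * u = u * (u * v) ^ (m + 1) * (u * u) := by group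
      _ = u * (u * v) ^ (m + 1) := by rw [huu, mul_one]
  rw [h2, mul_assoc, ← pow_add]
  have h3 : (u * v) ^ (m + 1 + (m + 1)) = u * v := by
    have : m + 1 + (m + 1) = (2 * m + 1) + 1 := by ring
    rw [this, pow_succ, ← hm, pow_orderOf_eq_one, one_mul]
  rw [h3, ← mul_assoc, huu, one_mul]

/-- All involutions are conjugate. -/
lemma all_conj {u v : G} (hu : u ≠ 1) (hu2 : u ^ 2 = 1) (hv : v ≠ 1) (hv2 : v ^ 2 = 1) :
    ∃ g, v = g * u * g⁻¹ := by
  have hCA := h.ca ha3
  by_contra hcon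
  push Not at hcon
  have hcomm : ∀ g, g * v * g⁻¹ ∈ centralizer ({u} : Set G) := by
    intro g
    have hg1 : g * v * g⁻¹ ≠ 1 := conj_ne_one hv
    have hg2 : (g * v * g⁻¹) ^ 2 = 1 := by rw [conj_pow, hv2]; group
    rw [mem_centralizer_singleton']
    by_contra hne
    have h1 : ¬ 2 ∣ orderOf (u * (g * v * g⁻¹)) := fun h2 =>
      hne (h.comm_of_even ha3 hu2 hg2 h2).symm
    obtain ⟨k, hk⟩ := conj_of_odd hu2 hg2 h1
    apply hcon (g⁻¹ * k)
    calc v = g⁻¹ * (g * v * g⁻¹) * g := by group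
      _ = g⁻¹ * (k * u * k⁻¹) * g := by rw [hk]
      _ = g⁻¹ * k * u * (g⁻¹ * k)⁻¹ := by group
  have hCv : centralizer ({v} : Set G) = centralizer {u} := by
    have := hcomm 1
    rw [one_mul, inv_one, mul_one] at this
    exact hCA.eq hu hv this
  have hn : (centralizer ({v} : Set G) : Subgroup G).Normal := by
    rw [← Subgroup.normalizer_eq_top_iff, eq_top_iff]
    intro g _
    rw [mem_normalizer_cnj, cnj_centralizer, hCA.eq hu (conj_ne_one hv) (hcomm g), hCv]
  rcases h.simple.2.1.eq_bot_or_eq_top_of_normal _ hn with h1 | h1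
  · have h2 := self_mem_centralizer v
    rw [h1, Subgroup.mem_bot] at h2
    exact hv h2
  · have h2 : v ∈ Subgroup.center G := by
      rw [Subgroup.mem_center_iff]
      intro g
      have : g ∈ centralizer ({v} : Set G) := by rw [h1]; trivial
      exact mem_centralizer_singleton'.mp this
    rw [center_eq_bot h.simple, Subgroup.mem_bot] at h2
    exact hv h2

omit h ha3 in
/-- The size of a conjugacy class. -/
lemma card_class [Fintype G] [DecidableEq G] (x : G) [DecidablePred (fun w : G => ∃ g, w = g * x * g⁻¹)] :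
    (Finset.univ.filter (fun w : G => ∃ g, w = g * x * g⁻¹)).card *
      Nat.card (centralizer ({x} : Set G)) = Nat.card G := by
  classical
  rw [Nat.card_eq_fintype_card (α := G), ← Finset.card_univ]
  rw [Finset.card_eq_sum_card_fiberwise (s := (Finset.univ : Finset G))
    (t := Finset.univ.filter (fun w : G => ∃ g, w = g * x * g⁻¹)) (f := fun g => g * x * g⁻¹)
    (fun g _ => by
      rw [Finset.mem_coe, Finset.mem_filter]
      exact ⟨Finset.mem_univ _, g, rfl⟩)]
  rw [Finset.sum_const_nat (m := Nat.card (centralizer ({x} : Set G)))]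
  intro w hw
  obtain ⟨k, rfl⟩ := (Finset.mem_filter.mp hw).2
  rw [← Nat.card_eq_finsetCard]
  refine Nat.card_congr ⟨fun g => ⟨k⁻¹ * g.1, ?_⟩, fun c => ⟨k * c.1, ?_⟩, fun g => ?_, fun c => ?_⟩
  · have h1 : g.1 * x * (g.1)⁻¹ = k * x * k⁻¹ := (Finset.mem_filter.mp g.2).2
    rw [mem_centralizer_singleton']
    calc k⁻¹ * g.1 * x = k⁻¹ * (g.1 * x * (g.1)⁻¹) * g.1 := by group
      _ = k⁻¹ * (k * x * k⁻¹) * g.1 := by rw [h1]
      _ = x * (k⁻¹ * g.1) := by group
  · rw [Finset.mem_filter]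
    refine ⟨Finset.mem_univ _, ?_⟩
    have h1 := mem_centralizer_singleton'.mp c.2
    calc k * c.1 * x * (k * c.1)⁻¹ = k * (c.1 * x) * (c.1)⁻¹ * k⁻¹ := by group
      _ = k * (x * c.1) * (c.1)⁻¹ * k⁻¹ := by rw [h1]
      _ = k * x * k⁻¹ := by group
  · apply Subtype.ext
    show k * (k⁻¹ * g.1) = g.1
    group
  · apply Subtype.ext
    show k⁻¹ * (k * c.1) = c.1
    group

lemma exists_inv : ∃ x : G, x ≠ 1 ∧ x ^ 2 = 1 := by
  have h2G : 2 ∣ Nat.card G := by
    rw [h.card]
    exact (dvd_pow_self 2 (by omega)).mul_right _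
  obtain ⟨x, hx⟩ := exists_prime_orderOf_dvd_card' (G := G) 2 h2G
  refine ⟨x, ?_, by rw [← hx, pow_orderOf_eq_one]⟩
  rintro rfl
  rw [orderOf_one] at hx
  exact absurd hx (by norm_num)

theorem q_eq : q + 1 = 2 ^ a := by
  classical
  have : Fintype G := Fintype.ofFinite G
  have hCA := h.ca ha3
  obtain ⟨x, hx, hx2⟩ := h.exists_inv ha3
  obtain ⟨hc1, hc2, hc3⟩ := h.inv_centralizer ha3 hx hx2
  have h1 := card_class x
  have h2 := hCA.part.sum_conj (R := ℕ) (fun _ => 1) (fun _ _ => rfl) ⟨x, hx, rfl⟩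
  rw [Finset.sum_const, Finset.sum_const, smul_eq_mul, mul_one, smul_eq_mul, mul_one] at h2
  have h3 : Finset.univ.filter (fun w : G => w ≠ 1 ∧ ∃ k, centralizer ({w} : Set G) =
      cnj k (centralizer {x})) = Finset.univ.filter (fun w : G => ∃ g, w = g * x * g⁻¹) := by
    ext w
    simp only [Finset.mem_filter, Finset.mem_univ, true_and]
    constructor
    · rintro ⟨hw, k, hk⟩
      apply h.all_conj ha3 hx hx2 hw
      rw [cnj_centralizer] at hk
      have h4 := self_mem_centralizer w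
      rw [hk] at h4
      exact (h.inv_centralizer ha3 (conj_ne_one hx) (by rw [conj_pow, hx2]; group)).2.1 w h4
    · rintro ⟨g, rfl⟩
      exact ⟨conj_ne_one hx, g, (cnj_centralizer g x).symm⟩
  rw [h3] at h2
  set n := (Finset.univ.filter (fun w : G => ∃ g, w = g * x * g⁻¹)).card with hn
  have h4 : (Finset.univ.filter (fun z : G => z ≠ 1 ∧ z ∈ centralizer ({x} : Set G))).card + 1 =
      Nat.card (centralizer ({x} : Set G)) := by
    have h5 : insert 1 (Finset.univ.filter (fun z : G => z ≠ 1 ∧ z ∈ centralizer ({x} : Set G))) =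
        Finset.univ.filter (fun z => z ∈ centralizer ({x} : Set G)) := by
      ext z
      simp only [Finset.mem_insert, Finset.mem_filter, Finset.mem_univ, true_and]
      constructor
      · rintro (rfl | h)
        · exact one_mem _
        · exact h.2
      · intro h
        by_cases hz : z = 1
        · exact Or.inl hz
        · exact Or.inr ⟨hz, h⟩
    have h6 : (Finset.univ.filter (fun z => z ∈ centralizer ({x} : Set G))).card =
        Nat.card (centralizer ({x} : Set G)) := by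
      rw [Nat.card_eq_fintype_card, Fintype.card_subtype]
    rw [← h6, ← h5, Finset.card_insert_of_notMem]
    simp
  rw [hc1] at h1 h4
  simp only [Nat.cast_id] at h2
  rw [hc3] at h2
  have hgpos : 0 < Nat.card G := Nat.card_pos
  have h5 : (Nat.card G) * q = Nat.card G *
      (Finset.univ.filter (fun z : G => z ≠ 1 ∧ z ∈ centralizer ({x} : Set G))).card := by
    rw [← h2]
    nth_rewrite 1 [← h1]
    ring
  have h6 := Nat.eq_of_mul_eq_mul_left hgpos h5
  omega

/-- The normalizers of the odd parts. -/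
lemma card_N_odd' {z : G} (hz : z ≠ 1) (hA : ¬ 2 ∣ Nat.card (centralizer ({z} : Set G))) :
    Nat.card (normalizer ((centralizer ({z} : Set G) : Subgroup G) : Set G)) =
      2 * Nat.card (centralizer ({z} : Set G)) := by
  have hCA := h.ca ha3
  have hq1 := h.q_eq ha3
  obtain ⟨r, hr, hrd⟩ := Nat.exists_prime_and_dvd (n := orderOf z) (by
    intro h1
    exact hz (orderOf_eq_one_iff.mp h1))
  obtain ⟨k, hk⟩ := exists_pow_prime hrd
  set w := z ^ k with hw
  have hzw : z * w = w * z := by rw [hw, ← pow_succ, ← pow_succ']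
  have hr2 : r ≠ 2 := by
    rintro rfl
    apply hA
    have h1 := orderOf_dvd_natCard (⟨z, self_mem_centralizer z⟩ : centralizer ({z} : Set G))
    rw [Subgroup.orderOf_mk] at h1
    exact hrd.trans h1
  have hw1 : w ≠ 1 := by
    intro h1
    rw [h1, orderOf_one] at hk
    exact hr.one_lt.ne hk
  have hC : centralizer ({z} : Set G) = centralizer {w} :=
    (hCA.eq hz hw1 (mem_centralizer_singleton'.mpr hzw.symm)).symm
  set A := centralizer ({z} : Set G) with hAdef
  set T := Subgroup.zpowers w with hT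
  have hTc : Nat.card T = r := by rw [hT, Nat.card_zpowers, hk]
  have hCT : centralizer (T : Set G) = A := by rw [hT, centralizer_zpowers, hC]
  have hTA : T ≤ A := by
    rw [hT, Subgroup.zpowers_le]
    exact mem_centralizer_singleton'.mpr hzw.symm
  have hTp : (Nat.card T).Prime := by rw [hTc]; exact hr
  have hT2 : Nat.card T ≠ 2 := by rw [hTc]; exact hr2
  -- `T` is a Sylow subgroup of `G`, so `N(A) = N(T)`
  have hAN : A ≤ normalizer (T : Set G) := by
    rw [hC]
    exact centralizer_le_normalizer_zpowers w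
  have hN : normalizer (A : Set G) = normalizer (T : Set G) := by
    apply le_antisymm
    · intro n hn
      -- conjugates of `T` under `N(A)` lie in `A`
      have h1 : n * w * n⁻¹ ∈ A := (Subgroup.mem_normalizer_iff.mp hn w).mp
        (mem_centralizer_singleton'.mpr hzw.symm)
      obtain ⟨g, hg, hgT⟩ := prime_conj_in A (cnj n T) T hr (by rw [card_cnj, hTc]) hTc
        (h.not_sq hr hr2) (by
          rw [← mem_normalizer_cnj.mp hn]
          exact Subgroup.map_mono hTA) hTA
      apply mem_normalizer_zpowers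
      have h2 : n * w * n⁻¹ ∈ cnj n T := cnj_mem (Subgroup.mem_zpowers w)
      have h3 : g * (n * w * n⁻¹) * g⁻¹ ∈ T := by
        rw [hgT]
        have : g⁻¹ * (g * (n * w * n⁻¹) * g⁻¹) * g = n * w * n⁻¹ := by group
        rw [this]
        exact h2
      have h4 : g * (n * w * n⁻¹) = n * w * n⁻¹ * g := hCA z hz g hg _ h1
      rw [h4, mul_inv_cancel_right] at h3
      exact h3
    · intro n hn
      rw [mem_normalizer_cnj, hC, cnj_centralizer]
      have h1 : n * w * n⁻¹ ∈ A := hTA ((Subgroup.mem_normalizer_iff.mp hn w).mp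
        (Subgroup.mem_zpowers w))
      rw [hCA.eq hz (conj_ne_one hw1) h1]
      exact hC
  have hcard : Nat.card (normalizer (T : Set G)) =
      Nat.card A * Nat.card (T.normalizerMonoidHom).range := by
    rw [← Subgroup.card_mul_index (T.normalizerMonoidHom).ker, Subgroup.index_ker,
      normalizerMonoidHom_ker, hCT]
    congr 1
    exact Nat.card_congr (Subgroup.subgroupOfEquivOfLe hAN).toEquiv
  have hne := h.range_ne_one hTp hT2
  -- only the prime 2
  have hprimes : ∀ u, u.Prime → u ∣ Nat.card (T.normalizerMonoidHom).range → u = 2 := by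
    intro u hu hud
    have hTG : Nat.card T ∣ Nat.card G := Subgroup.card_subgroup_dvd_card T
    rcases h.dvd_qM hTp hT2 hTG with h1 | h1
    · have h2 := hud.trans (range_dvd_sub_one T hTp rfl)
      rw [h1] at h2
      by_contra hu2
      have huG : u ∣ Nat.card G :=
        (hud.trans (Subgroup.card_range_dvd _)).trans (Subgroup.card_subgroup_dvd_card _)
      have hqq := h.hq.two_le
      have h5 : q - 1 = 2 * (2 ^ (a - 1) - 1) := by
        obtain ⟨b, rfl⟩ : ∃ b, a = b + 1 := ⟨a - 1, by omega⟩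
        rw [Nat.add_sub_cancel]
        rw [pow_succ] at hq1
        have := Nat.one_le_two_pow (n := b)
        omega
      rcases h.dvd_qM hu hu2 huG with h3 | h3
      · rw [h3] at h2
        have := Nat.le_of_dvd (by omega) h2
        omega
      · rw [h5] at h2
        rcases (Nat.Prime.dvd_mul hu).mp h2 with h4 | h4
        · exact hu2 ((Nat.prime_dvd_prime_iff_eq hu Nat.prime_two).mp h4)
        · exact h.ht u hu h3 (a - 1) (by omega) (by omega) h4
    · exact h.range_primes hTp h1 u hu hud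
  -- involutions of the normalizer invert `w`
  have hinv : ∀ x ∈ normalizer (T : Set G), x ≠ 1 → x ^ 2 = 1 → x * w * x⁻¹ = w⁻¹ := by
    intro x hxN hx hx2
    have hxx : x⁻¹ = x := inv_eq_of_mul_eq_one_left (by rw [← pow_two]; exact hx2)
    have h1 : x * w * x⁻¹ ∈ T := (Subgroup.mem_normalizer_iff.mp hxN w).mp (Subgroup.mem_zpowers w)
    have h2 : w * (x * w * x⁻¹) = (x * w * x⁻¹) * w := hCA z hz w (hTA (Subgroup.mem_zpowers w)) _ (hTA h1)
    -- `w * (x w x⁻¹)` commutes with `x`
    have h3 : x * (w * (x * w * x⁻¹)) = (w * (x * w * x⁻¹)) * x := by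
      have h4 : x * (x * w * x⁻¹) * x⁻¹ = w := by
        have : x * (x * w * x⁻¹) * x⁻¹ = (x ^ 2) * w * (x ^ 2)⁻¹ := by
          rw [pow_two]
          group
        rw [this, hx2]
        group
      calc x * (w * (x * w * x⁻¹)) = (x * w * x⁻¹) * (x * (x * w * x⁻¹) * x⁻¹) * x := by group
        _ = (x * w * x⁻¹) * w * x := by rw [h4]
        _ = (w * (x * w * x⁻¹)) * x := by rw [h2]
    by_contra hcon
    have h5 : w * (x * w * x⁻¹) ≠ 1 := by
      intro h6
      exact hcon (eq_inv_of_mul_eq_one_right h6)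
    have h6 : w * (x * w * x⁻¹) ∈ A := mul_mem (hTA (Subgroup.mem_zpowers w)) (hTA h1)
    have h7 := hCA.free hz h6 h5 h3
    apply hA
    have h8 := orderOf_dvd_natCard (⟨x, h7⟩ : A)
    rwa [Subgroup.orderOf_mk, orderOf_eq_prime hx2 hx] at h8
  obtain ⟨u, hu, hud⟩ := Nat.exists_prime_and_dvd hne
  have hu2 := hprimes u hu hud
  subst hu2
  obtain ⟨c, hc⟩ := hud
  have hc1 : c = 1 := by
    by_contra hc1
    obtain ⟨v, hv, hvc⟩ := Nat.exists_prime_and_dvd hc1
    have hv2 := hprimes v hv (by rw [hc]; exact hvc.mul_left _)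
    subst hv2
    have h4 : 2 ^ 2 ∣ Nat.card (normalizer (T : Set G)) := by
      rw [hcard, hc]
      exact (Nat.mul_dvd_mul_left 2 hvc |>.trans (dvd_refl _)).mul_left _
    obtain ⟨K, hK⟩ := Sylow.exists_subgroup_card_pow_prime 2 h4
    -- `K` is a 2-group of order 4 in the normalizer
    have hK2 : ∀ x ∈ K, (x : G) ^ 2 = 1 := by
      intro x hx
      have h5 : IsPGroup 2 (K.map (normalizer (T : Set G)).subtype) := by
        apply IsPGroup.of_card (n := 2)
        rw [← hK]
        exact Subgroup.card_map_of_injective (Subgroup.subtype_injective _)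
      obtain ⟨P', hP'⟩ := h5.exists_le_sylow
      exact h.P_exp P' (h.all_sylow P') x (hP' ⟨x, hx, rfl⟩)
    have hK3 : 2 < Nat.card K := by rw [hK]; norm_num
    have : Fintype K := Fintype.ofFinite K
    rw [Nat.card_eq_fintype_card, Fintype.two_lt_card_iff] at hK3
    -- two distinct involutions
    obtain ⟨x, y, hx1, hy1, hxy⟩ : ∃ x y : K, x ≠ 1 ∧ y ≠ 1 ∧ x ≠ y := by
      obtain ⟨x, y, t, h1, h2, h3⟩ := hK3
      by_cases hx : x = 1
      · exact ⟨y, t, fun h4 => h1 (hx.trans h4.symm), fun h4 => h2 (hx.trans h4.symm), h3⟩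
      · by_cases hy : y = 1
        · exact ⟨x, t, hx, fun h4 => h3 (hy.trans h4.symm), h2⟩
        · exact ⟨x, y, hx, hy, h1⟩
    have hx1' : ((x : normalizer (T : Set G)) : G) ≠ 1 := fun h5 => hx1 (Subtype.ext (Subtype.ext h5))
    have hy1' : ((y : normalizer (T : Set G)) : G) ≠ 1 := fun h5 => hy1 (Subtype.ext (Subtype.ext h5))
    have hx5 := hinv _ x.1.2 hx1' (hK2 x x.2)
    have hy5 := hinv _ y.1.2 hy1' (hK2 y y.2)
    have hxy1 : ((x * y⁻¹ : K) : normalizer (T : Set G)) ≠ 1 := by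
      intro h5
      have h6 : x * y⁻¹ = 1 := Subtype.ext h5
      exact hxy (mul_inv_eq_one.mp h6)
    have hxy1' : (((x * y⁻¹ : K) : normalizer (T : Set G)) : G) ≠ 1 := fun h5 =>
      hxy1 (Subtype.ext h5)
    have hxy5 := hinv _ ((x * y⁻¹ : K) : normalizer (T : Set G)).2 hxy1' (hK2 _ (x * y⁻¹ : K).2)
    -- but it centralizes `w`
    set X : G := ((x : normalizer (T : Set G)) : G) with hX
    set Y : G := ((y : normalizer (T : Set G)) : G) with hY
    have hXY : (((x * y⁻¹ : K) : normalizer (T : Set G)) : G) = X * Y⁻¹ := rfl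
    rw [hXY] at hxy5
    have h7 : Y⁻¹ * w * Y = w⁻¹ := by
      have h8 : w = Y * w⁻¹ * Y⁻¹ := by
        have := congrArg (fun t => t⁻¹) hy5
        simp only [mul_inv_rev, inv_inv] at this
        rw [← mul_assoc] at this
        exact this.symm
      calc Y⁻¹ * w * Y = Y⁻¹ * (Y * w⁻¹ * Y⁻¹) * Y := by rw [← h8]
        _ = w⁻¹ := by group
    have h8 : X * Y⁻¹ * w * (X * Y⁻¹)⁻¹ = w := by
      calc X * Y⁻¹ * w * (X * Y⁻¹)⁻¹ = X * (Y⁻¹ * w * Y) * X⁻¹ := by group
        _ = (X * w * X⁻¹)⁻¹ := by rw [h7]; group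
        _ = w := by rw [hx5, inv_inv]
    rw [h8] at hxy5
    -- `w = w⁻¹`
    have h9 : w ^ 2 = 1 := by rw [pow_two, mul_eq_one_iff_eq_inv]; exact hxy5
    have h10 := orderOf_dvd_of_pow_eq_one h9
    rw [hk] at h10
    exact hr2 ((Nat.prime_dvd_prime_iff_eq hr Nat.prime_two).mp h10)
  rw [hN, hcard, hc, hc1]
  ring

end

end Cfg

end Pool.Agent.Lib.MP_4f0ec0_al
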