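import Mathlib
import Pool.Agent.Lib.MP_4f0ec0_al.Even1

/-! The case `p = 2`, `a ≥ 3`: the class formula. -/

set_option linter.unusedSectionVars false

namespace Pool.Agent.Lib.MP_4f0ec0_al

open Function Subgroup

lemma sylow_in_part {G : Type} [Group G] [Finite G] {S : G → Subgroup G} (hS : GPart S)
    {I : Finset (Subgroup G)} (h3 : ∀ z, z ≠ 1 → ∃ A ∈ I, ∃ k, S z = cnj k A) {r : ℕ}
    (hr : r.Prime) (hrG : r ∣ Nat.card G) : ∃ A ∈ I, r ∣ Nat.card A := by
  have hfr : Fact r.Prime := ⟨hr⟩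
  obtain ⟨x, hx⟩ := exists_prime_orderOf_dvd_card' (G := G) r hrG
  have hx1 : x ≠ 1 := by
    rintro rfl
    rw [orderOf_one] at hx
    exact hr.one_lt.ne hx
  obtain ⟨A, hA, k, hk⟩ := h3 x hx1
  refine ⟨A, hA, ?_⟩
  rw [← card_cnj k A, ← hk]
  have h1 := orderOf_dvd_natCard (⟨x, hS.mem x hx1⟩ : S x)
  rwa [Subgroup.orderOf_mk, hx] at h1

namespace Cfg

variable {G : Type} [Group G] [Finite G] {q a M : ℕ}

open Classical in
theorem even_false (h : Cfg G 2 q a M) [Fact (Nat.Prime 2)] (ha3 : 3 ≤ a) : False := by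
  have : Fintype G := Fintype.ofFinite G
  have hCA := h.ca ha3
  have hq1 := h.q_eq ha3
  have hpart := hCA.part
  obtain ⟨I, h1, h2, h3⟩ := hpart.exists_reps
  have hsum := hpart.sum_eq h1 h2 h3 (K := ℚ) (fun _ => 1) (fun _ _ => rfl)
  simp only [sum_part_one] at hsum
  rw [Finset.sum_const, Finset.card_univ, nsmul_eq_mul, mul_one, ← Nat.card_eq_fintype_card] at hsum
  obtain ⟨x₀, hx₀, hx₀2⟩ := h.exists_inv ha3
  obtain ⟨A₀, hA₀, κ, hκ⟩ := h3 x₀ hx₀
  have hA₀x : A₀ = centralizer ({κ⁻¹ * x₀ * κ} : Set G) := by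
    have := cnj_centralizer κ⁻¹ x₀
    rw [inv_inv, hκ, cnj_inv_cnj] at this
    exact this
  set x₁ := κ⁻¹ * x₀ * κ with hx₁def
  have hx₁ : x₁ ≠ 1 := by
    have := conj_ne_one (g := κ⁻¹) hx₀
    rwa [inv_inv] at this
  have hx₁2 : x₁ ^ 2 = 1 := by
    have h4 : x₁ = κ⁻¹ * x₀ * κ⁻¹⁻¹ := by rw [inv_inv]
    rw [h4, conj_pow, hx₀2]
    group
  obtain ⟨hc1, hc2, hc3⟩ := h.inv_centralizer ha3 hx₁ hx₁2
  have hA₀c : Nat.card A₀ = 2 ^ a := by rw [hA₀x, hc1]
  have hA₀N : Nat.card (normalizer (A₀ : Set G)) = 2 ^ a * q := by rw [hA₀x, hc3]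
  set H := 2 ^ a with hH
  have hH8 : 8 ≤ H := by
    have : 2 ^ 3 ≤ 2 ^ a := Nat.pow_le_pow_right (by norm_num) ha3
    omega
  have hH2 : 2 ∣ H := dvd_pow_self 2 (by omega)
  have hgpos : 0 < Nat.card G := Nat.card_pos
  -- the other representatives
  have hodd : ∀ A ∈ I.erase A₀, ¬ 2 ∣ Nat.card A ∧ Nat.card (normalizer (A : Set G)) = 2 * Nat.card A ∧
      3 ≤ Nat.card A := by
    intro A hA
    obtain ⟨hne, hAI⟩ := Finset.mem_erase.mp hA
    obtain ⟨z, hz, hzA⟩ := h1 A hAI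
    have hzA' : centralizer ({z} : Set G) = A := hzA
    have hA2 : ¬ 2 ∣ Nat.card A := by
      intro hA2
      obtain ⟨x, hx⟩ := exists_prime_orderOf_dvd_card' (G := A) 2 hA2
      rw [← Subgroup.orderOf_coe] at hx
      have hx1 : (x : G) ≠ 1 := by
        intro h4
        rw [h4, orderOf_one] at hx
        exact absurd hx (by norm_num)
      have hx2 : (x : G) ^ 2 = 1 := by rw [← hx, pow_orderOf_eq_one]
      have hxz : (x : G) ∈ centralizer ({z} : Set G) := by rw [hzA']; exact x.2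
      have h4 := hCA.eq hz hx1 hxz
      apply hne
      symm
      apply h2 A₀ hA₀ A hAI
      obtain ⟨n, hn⟩ := h.all_conj ha3 hx₁ hx₁2 hx1 hx2
      refine ⟨n, ?_⟩
      rw [hA₀x, cnj_centralizer, ← hn, h4, hzA']
    refine ⟨hA2, ?_, ?_⟩
    · rw [← hzA'] at hA2 ⊢
      exact h.card_N_odd' ha3 hz hA2
    · have h5 : 1 < Nat.card A := by
        rw [← hzA]
        exact hpart.card_one_lt hz
      omega
  -- orders are coprime
  have hcop : ∀ A ∈ I.erase A₀, ∀ B ∈ I.erase A₀, A ≠ B → Nat.Coprime (Nat.card A) (Nat.card B) := by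
    intro A hA B hB hAB
    by_contra hcon
    obtain ⟨r, hr, hrA, hrB⟩ := Nat.Prime.not_coprime_iff_dvd.mp hcon
    obtain ⟨z, hz, hzA⟩ := h1 A (Finset.mem_of_mem_erase hA)
    obtain ⟨w, hw, hwB⟩ := h1 B (Finset.mem_of_mem_erase hB)
    obtain ⟨n, hn⟩ := hCA.conj_of_dvd hz hw hr (by rw [hzA]; exact hrA) (by rw [hwB]; exact hrB)
    apply hAB
    apply h2 A (Finset.mem_of_mem_erase hA) B (Finset.mem_of_mem_erase hB)
    exact ⟨n, by rw [← hwB, hn, hzA]⟩
  -- the equation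
  have hg0 : (0 : ℚ) < Nat.card G := by exact_mod_cast hgpos
  have hq0 : (0 : ℚ) < q := by exact_mod_cast h.hq.pos
  have hH0 : (0 : ℚ) < H := by exact_mod_cast (by omega : 0 < H)
  have hHq : (H : ℚ) - 1 = q := by
    have : (H : ℚ) = q + 1 := by exact_mod_cast hq1.symm
    rw [this]
    ring
  have hsum2 : ∑ A ∈ I.erase A₀, ((1 : ℚ) / 2 - 1 / (2 * Nat.card A)) =
      1 - 1 / H - 1 / Nat.card G := by
    rw [← Finset.add_sum_erase I _ hA₀, hA₀N, hA₀c] at hsum
    have h5 : ∑ A ∈ I.erase A₀, ((Nat.card G : ℚ) / (Nat.card (normalizer (A : Set G)) : ℚ)) *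
        ((Nat.card A : ℚ) - 1) = (Nat.card G : ℚ) *
        ∑ A ∈ I.erase A₀, ((1 : ℚ) / 2 - 1 / (2 * Nat.card A)) := by
      rw [Finset.mul_sum]
      apply Finset.sum_congr rfl
      intro A hA
      obtain ⟨-, hAN, hA3⟩ := hodd A hA
      have hA0 : (0 : ℚ) < Nat.card A := by exact_mod_cast (by omega : 0 < Nat.card A)
      rw [hAN]
      push_cast
      field_simp
    rw [h5, hHq] at hsum
    push_cast at hsum
    set X := ∑ A ∈ I.erase A₀, ((1 : ℚ) / 2 - 1 / (2 * Nat.card A)) with hX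
    have h6 : (Nat.card G : ℚ) * X = (Nat.card G : ℚ) * (1 - 1 / H - 1 / Nat.card G) := by
      have h7 : (Nat.card G : ℚ) * (1 - 1 / H - 1 / Nat.card G) =
          Nat.card G - 1 - (Nat.card G : ℚ) / (H * q) * q := by
        field_simp
        ring
      rw [h7]
      linarith
    exact mul_left_cancel₀ hg0.ne' h6
  have hterm : ∀ A ∈ I.erase A₀, (1 : ℚ) / 3 ≤ 1 / 2 - 1 / (2 * Nat.card A) := by
    intro A hA
    obtain ⟨-, -, hA3⟩ := hodd A hA
    have hA0 : (3 : ℚ) ≤ Nat.card A := by exact_mod_cast hA3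
    have h5 : (1 : ℚ) / (2 * Nat.card A) ≤ 1 / 6 := by
      apply one_div_le_one_div_of_le (by norm_num)
      linarith
    linarith
  have hHg : (1 : ℚ) / H > 0 := by positivity
  have hgg : (1 : ℚ) / Nat.card G > 0 := by positivity
  have hH8' : (1 : ℚ) / H ≤ 1 / 8 := by
    apply one_div_le_one_div_of_le (by norm_num)
    exact_mod_cast hH8
  have hgH : (Nat.card G : ℚ) ≥ 8 := by
    have h4 : H ∣ Nat.card G := by
      rw [h.card]
      exact dvd_mul_right _ _
    have h5 := Nat.le_of_dvd hgpos h4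
    exact_mod_cast (by omega : 8 ≤ Nat.card G)
  have hg8 : (1 : ℚ) / Nat.card G ≤ 1 / 8 := one_div_le_one_div_of_le (by norm_num) hgH
  have hle2 : (I.erase A₀).card ≤ 2 := by
    by_contra hcon
    have h5 := Finset.card_nsmul_le_sum _ _ _ hterm
    rw [hsum2, nsmul_eq_mul] at h5
    have h6 : (3 : ℚ) ≤ ((I.erase A₀).card : ℚ) := by exact_mod_cast (by omega : 3 ≤ (I.erase A₀).card)
    linarith
  interval_cases hc : (I.erase A₀).card
  · rw [Finset.card_eq_zero.mp hc, Finset.sum_empty] at hsum2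
    linarith
  · obtain ⟨A, hA⟩ := Finset.card_eq_one.mp hc
    obtain ⟨-, -, hA3⟩ := hodd A (by rw [hA]; exact Finset.mem_singleton_self A)
    have hA0 : (0 : ℚ) < Nat.card A := by exact_mod_cast (by omega : 0 < Nat.card A)
    rw [hA, Finset.sum_singleton] at hsum2
    have h5 : (0 : ℚ) < 1 / (2 * Nat.card A) := by positivity
    linarith
  · -- the order of a part containing a Sylow `q`-subgroup
    have hqG : q ∣ Nat.card G := h.q_dvd
    have h2q : 2 ≠ q := h.p_ne_q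
    obtain ⟨A, hA, hqA⟩ := sylow_in_part hpart h3 h.hq hqG
    have hAA₀ : A ≠ A₀ := by
      rintro rfl
      rw [hA₀c] at hqA
      exact h2q ((Nat.prime_dvd_prime_iff_eq h.hq Nat.prime_two).mp (h.hq.dvd_of_dvd_pow hqA)).symm
    have hAJ : A ∈ I.erase A₀ := Finset.mem_erase.mpr ⟨hAA₀, hA⟩
    obtain ⟨B, hB⟩ : ∃ B, (I.erase A₀).erase A = {B} := by
      rw [← Finset.card_eq_one, Finset.card_erase_of_mem hAJ, hc]
    have hBJ' : B ∈ (I.erase A₀).erase A := by rw [hB]; exact Finset.mem_singleton_self B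
    obtain ⟨hBA, hBJ⟩ := Finset.mem_erase.mp hBJ'
    obtain ⟨hA2, -, hA3⟩ := hodd A hAJ
    obtain ⟨hB2, -, hB3⟩ := hodd B hBJ
    rw [← Finset.add_sum_erase _ _ hAJ, hB, Finset.sum_singleton] at hsum2
    -- `|A| |B|` divides `q M`
    have hABd : Nat.card A * Nat.card B ∣ q * M :=
      Nat.Coprime.mul_dvd_of_dvd_of_dvd (hcop A hAJ B hBJ hBA.symm) (h.sqf_of_cop hA2)
        (h.sqf_of_cop hB2)
    have hqM0 : 0 < q * M := Nat.pos_of_ne_zero (fun h0 => not_squarefree_zero (h0 ▸ h.sqf))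
    have hABle := Nat.le_of_dvd hqM0 hABd
    have hA0 : (0 : ℚ) < Nat.card A := by exact_mod_cast (by omega : 0 < Nat.card A)
    have hB0 : (0 : ℚ) < Nat.card B := by exact_mod_cast (by omega : 0 < Nat.card B)
    have hqM : (0 : ℚ) < (q * M : ℕ) := by exact_mod_cast hqM0
    have hgc : (Nat.card G : ℚ) = H * (q * M : ℕ) := by
      rw [h.card, Nat.cast_mul]
    have heq : (1 : ℚ) / (2 * Nat.card A) + 1 / (2 * Nat.card B) = 1 / H + 1 / Nat.card G := by
      linarith
    have hE1 : (H : ℚ) * (Nat.card A + Nat.card B) * (q * M : ℕ) =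
        2 * (Nat.card A * Nat.card B) * (q * M : ℕ) + 2 * (Nat.card A * Nat.card B) := by
      rw [hgc] at heq
      field_simp at heq
      linarith
    have hE2 : H * (Nat.card A + Nat.card B) * (q * M) =
        2 * (Nat.card A * Nat.card B) * (q * M) + 2 * (Nat.card A * Nat.card B) := by
      exact_mod_cast hE1
    -- equality
    have hE3 : H * (Nat.card A + Nat.card B) = 2 * (Nat.card A * Nat.card B) + 2 ∧
        Nat.card A * Nat.card B = q * M := by
      set X := H * (Nat.card A + Nat.card B) with hX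
      set Y := Nat.card A * Nat.card B with hY
      have hX2 : 2 ∣ X := hH2.mul_right _
      have hYpos : 0 < Y := Nat.mul_pos (by omega) (by omega)
      have h5 : 2 * Y < X := by
        by_contra hcon
        have h6 : X * (q * M) ≤ 2 * Y * (q * M) := Nat.mul_le_mul_right _ (by omega)
        omega
      have h6 : X ≤ 2 * Y + 2 := by
        by_contra hcon
        have h7 : (2 * Y + 3) * (q * M) ≤ X * (q * M) := Nat.mul_le_mul_right _ (by omega)
        have h8 : (2 * Y + 3) * (q * M) = 2 * Y * (q * M) + 3 * (q * M) := by ring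
        omega
      have h7 : X = 2 * Y + 2 := by
        obtain ⟨c, hc⟩ := hX2
        omega
      refine ⟨h7, ?_⟩
      rw [h7] at hE2
      have h8 : (2 * Y + 2) * (q * M) = 2 * Y * (q * M) + 2 * (q * M) := by ring
      omega
    obtain ⟨hE4, hE5⟩ := hE3
    obtain ⟨hAq, hBH⟩ := num_even hH8 hq1 hH2 hqA (by omega) (by omega) hB2 hE4
    rw [hAq, hBH] at hE5
    have hM : H + 1 = M := Nat.eq_of_mul_eq_mul_left h.hq.pos hE5
    -- the prime 3
    have h3H : ¬ 3 ∣ H := by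
      rw [hH]
      intro h3
      exact absurd ((Nat.prime_dvd_prime_iff_eq Nat.prime_three Nat.prime_two).mp
        (Nat.prime_three.dvd_of_dvd_pow h3)) (by norm_num)
    by_cases h3M : 3 ∣ M
    · exact h.ht 3 Nat.prime_three h3M 2 (by norm_num) (by omega) (by norm_num)
    · have h3q : 3 ∣ q := by
        clear hsum hsum2 hE2 hE4 hE5 hABle hBH hAq hA2 hB2 hA3 hB3 hle2 hc2 hc3
        have e1 : H % 3 = 0 ∨ H % 3 = 1 ∨ H % 3 = 2 := by omega
        rw [← hM] at h3M
        rcases e1 with e1 | e1 | e1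
        · exact absurd (Nat.dvd_of_mod_eq_zero e1) h3H
        · have e2 : q % 3 = 0 := by omega
          exact Nat.dvd_of_mod_eq_zero e2
        · exact absurd (Nat.dvd_of_mod_eq_zero (by omega : (H + 1) % 3 = 0)) h3M
      have := (Nat.prime_dvd_prime_iff_eq Nat.prime_three h.hq).mp h3q
      omega

end Cfg

end Pool.Agent.Lib.MP_4f0ec0_al
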