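import Mathlib

/-! The numerical part of the theorem on CA-groups of odd order. -/

namespace Pool.Agent.Lib.MP_4f0ec0_al

open Function Matrix

section

variable {ι : Type} [Fintype ι] [DecidableEq ι]

/-- The table of values. -/
def tab (w : ι → ℕ) (d ε : ι → ℤ) (c : ι → ι → ℤ) : Option ι → Option ι → ℤ
  | none, _ => 1
  | some i, none => (w i : ℤ) * d i
  | some i, some l => if i = l then (w i : ℤ) * c i i - ε i else (w i : ℤ) * c i l

/-- The measures of the classes. -/
noncomputable def msr (g : ℕ) (a w : ι → ℕ) : Option ι → ℚ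
  | none => 1 / g
  | some l => (w l : ℚ) / a l

/-- The norms. -/
def nrm (w : ι → ℕ) : Option ι → ℚ
  | none => 1
  | some i => w i

lemma columns {M : Option ι → Option ι → ℤ} {D W : Option ι → ℚ} (hW : ∀ s, W s ≠ 0)
    (h : ∀ s t, ∑ u, (M s u : ℚ) * (M t u : ℚ) * D u = if s = t then W s else 0) (u v : Option ι) :
    D u * ∑ s, (M s u : ℚ) * (M s v : ℚ) / W s = if u = v then 1 else 0 := by
  let X : Matrix (Option ι) (Option ι) ℚ := Matrix.of (fun s u => (M s u : ℚ))
  let Y : Matrix (Option ι) (Option ι) ℚ := Matrix.of (fun u t => D u * (M t u : ℚ) / W t)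
  have h1 : X * Y = 1 := by
    ext s t
    rw [Matrix.mul_apply, Matrix.one_apply]
    have h2 : ∀ u, X s u * Y u t = ((M s u : ℚ) * (M t u : ℚ) * D u) / W t := by
      intro u
      show (M s u : ℚ) * (D u * (M t u : ℚ) / W t) = _
      ring
    simp only [h2]
    rw [← Finset.sum_div, h s t]
    split_ifs with h3
    · subst h3
      exact div_self (hW s)
    · rw [zero_div]
  have h2 : Y * X = 1 := mul_eq_one_comm.mp h1
  have h3 := congrFun (congrFun h2 u) v
  rw [Matrix.mul_apply, Matrix.one_apply] at h3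
  rw [← h3, Finset.mul_sum]
  apply Finset.sum_congr rfl
  intro s _
  show D u * ((M s u : ℚ) * (M s v : ℚ) / W s) = (D u * (M s u : ℚ) / W s) * (M s v : ℚ)
  ring

lemma final_ineq {g e w : ℚ} (he : 3 ≤ e) (hw : w = 2 ∨ 4 ≤ w) (hg : 2 * ((1 + w * e) * e) ≤ g)
    (h : 1 - 1 / g ≤ (w + e) / (1 + w * e) + (e - 1) / (2 + w * e)) : False := by
  have hw0 : 0 < w := by rcases hw with h | h <;> linarith
  have hwe : 0 < w * e := by positivity
  have hg0 : 0 < g := by nlinarith
  rcases hw with rfl | hw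
  · have h1 : (2 + e) / (1 + 2 * e) + (e - 1) / (2 + 2 * e) =
        1 - (e - 1) / ((1 + 2 * e) * (2 + 2 * e)) := by
      have h2 : (1 + 2 * e) ≠ 0 := by linarith
      have h3 : (2 + 2 * e) ≠ 0 := by linarith
      field_simp
      ring
    rw [h1] at h
    have h2 : (e - 1) / ((1 + 2 * e) * (2 + 2 * e)) ≤ 1 / g := by linarith
    rw [div_le_div_iff₀ (by positivity) hg0] at h2
    have h3 : (e - 1) * (2 * ((1 + 2 * e) * e)) ≤ (e - 1) * g :=
      mul_le_mul_of_nonneg_left hg (by linarith)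
    nlinarith [mul_pos (by linarith : (0 : ℚ) < 1 + 2 * e) (by linarith : (0 : ℚ) < e - 1)]
  · have h1 : (w + e) / (1 + w * e) ≤ 7 / 13 := by
      rw [div_le_div_iff₀ (by positivity) (by norm_num)]
      nlinarith [mul_nonneg (by linarith : (0 : ℚ) ≤ w - 4) (by linarith : (0 : ℚ) ≤ e - 3)]
    have h2 : (e - 1) / (2 + w * e) ≤ 1 / 4 := by
      rw [div_le_div_iff₀ (by positivity) (by norm_num)]
      nlinarith [mul_nonneg (by linarith : (0 : ℚ) ≤ w - 4) (by linarith : (0 : ℚ) ≤ e - 3)]
    have h3 : (13 : ℚ) ≤ g := by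
      nlinarith [mul_nonneg (by linarith : (0 : ℚ) ≤ w - 4) (by linarith : (0 : ℚ) ≤ e - 3)]
    have h4 : 1 / g ≤ 1 / 13 := one_div_le_one_div_of_le (by norm_num) h3
    linarith

theorem numeric [Nonempty ι] (g : ℕ) (a e w : ι → ℕ) (d ε : ι → ℤ) (c : ι → ι → ℤ)
    (hae : ∀ i, a i = 1 + w i * e i) (he : ∀ i, 3 ≤ e i) (hw : ∀ i, 2 ∣ w i)
    (hw0 : ∀ i, 0 < w i) (hε : ∀ i, ε i = 1 ∨ ε i = -1) (hinj : Injective a)
    (hg : ∀ i, 2 * (a i * e i) ≤ g)
    (h : ∀ s t, ∑ u, (tab w d ε c s u : ℚ) * (tab w d ε c t u : ℚ) * msr g a w u =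
      if s = t then nrm w s else 0) : False := by
  have hW : ∀ s, nrm w s ≠ 0 := by
    intro s
    cases s with
    | none => exact one_ne_zero
    | some i =>
      show (w i : ℚ) ≠ 0
      exact_mod_cast (hw0 i).ne'
  have hcol := columns hW h
  have hwq : ∀ i, (0 : ℚ) < w i := fun i => by exact_mod_cast hw0 i
  have haq : ∀ i, (0 : ℚ) < a i := fun i => by
    have : 0 < a i := by rw [hae]; omega
    exact_mod_cast this
  have haeq : ∀ i, (a i : ℚ) = 1 + w i * e i := fun i => by rw [hae]; push_cast; ring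
  have hε2 : ∀ i, (ε i : ℚ) ^ 2 = 1 := fun i => by
    rcases hε i with h | h <;> rw [h] <;> norm_num
  -- measure
  have hmeas : (1 : ℚ) = 1 / g + ∑ l, (w l : ℚ) / a l := by
    have h1 := h none none
    rw [if_pos rfl, Fintype.sum_option] at h1
    simp only [tab, msr, nrm, Int.cast_one, one_mul] at h1
    exact h1.symm
  -- columns for two indices
  have hcol2 : ∀ l m, 1 + ∑ i, (tab w d ε c (some i) (some l) : ℚ) *
      (tab w d ε c (some i) (some m) : ℚ) / w i = if l = m then (a l : ℚ) / w l else 0 := by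
    intro l m
    have h1 := hcol (some l) (some m)
    rw [Fintype.sum_option] at h1
    have h2 : msr g a w (some l) = (w l : ℚ) / a l := rfl
    rw [h2] at h1
    simp only [nrm] at h1
    have h3 : (tab w d ε c none (some l) : ℚ) * (tab w d ε c none (some m) : ℚ) / 1 = 1 := by
      simp [tab]
    rw [h3] at h1
    set S := 1 + ∑ i, (tab w d ε c (some i) (some l) : ℚ) *
      (tab w d ε c (some i) (some m) : ℚ) / w i with hS
    have hwl := hwq l
    have hal := haq l
    simp only [Option.some.injEq] at h1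
    split_ifs at h1 ⊢ with h4
    · field_simp at h1 ⊢
      linarith
    · rcases mul_eq_zero.mp h1 with h5 | h5
      · exact absurd h5 (by positivity)
      · exact h5
  -- parity
  have hpar : ∀ l m, l ≠ m → c l m ≠ 0 ∨ c m l ≠ 0 := by
    intro l m hlm
    by_contra hcon
    push Not at hcon
    obtain ⟨h1, h2⟩ := hcon
    have h3 := hcol2 l m
    rw [if_neg hlm] at h3
    have h4 : ∀ i, (tab w d ε c (some i) (some l) : ℚ) * (tab w d ε c (some i) (some m) : ℚ) / w i =
        (((w i : ℤ) * (if i = l then 0 else if i = m then 0 else c i l * c i m) : ℤ) : ℚ) := by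
      intro i
      have hwi := (hwq i).ne'
      by_cases hil : i = l
      · subst hil
        rw [if_pos rfl]
        have h5 : tab w d ε c (some i) (some m) = 0 := by
          show (if i = m then (w i : ℤ) * c i i - ε i else (w i : ℤ) * c i m) = 0
          rw [if_neg hlm, h1, mul_zero]
        rw [h5]
        simp
      · by_cases him : i = m
        · subst him
          rw [if_neg hil, if_pos rfl]
          have h5 : tab w d ε c (some i) (some l) = 0 := by
            show (if i = l then (w i : ℤ) * c i i - ε i else (w i : ℤ) * c i l) = 0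
            rw [if_neg hil, h2, mul_zero]
          rw [h5]
          simp
        · rw [if_neg hil, if_neg him]
          have h5 : tab w d ε c (some i) (some l) = (w i : ℤ) * c i l := if_neg hil
          have h6 : tab w d ε c (some i) (some m) = (w i : ℤ) * c i m := if_neg him
          rw [h5, h6]
          push_cast
          field_simp
    simp only [h4] at h3
    have h5 : (1 : ℤ) + ∑ i, (w i : ℤ) * (if i = l then 0 else if i = m then 0 else c i l * c i m) = 0 := by
      exact_mod_cast h3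
    have h6 : (2 : ℤ) ∣ ∑ i, (w i : ℤ) * (if i = l then 0 else if i = m then 0 else c i l * c i m) := by
      apply Finset.dvd_sum
      intro i _
      exact (Int.natCast_dvd_natCast.mpr (hw i)).mul_right _
    omega
  -- the diagonal column relation
  have hstar : ∀ l, (e l : ℚ) = 1 + ∑ i ∈ Finset.univ.erase l, (w i : ℚ) * (c i l : ℚ) ^ 2 +
      (w l : ℚ) * (c l l : ℚ) ^ 2 - 2 * (ε l : ℚ) * (c l l : ℚ) := by
    intro l
    have h1 := hcol2 l l
    rw [if_pos rfl, ← Finset.add_sum_erase _ _ (Finset.mem_univ l)] at h1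
    have h2 : tab w d ε c (some l) (some l) = (w l : ℤ) * c l l - ε l := if_pos rfl
    have h3 : ∑ i ∈ Finset.univ.erase l, (tab w d ε c (some i) (some l) : ℚ) *
        (tab w d ε c (some i) (some l) : ℚ) / w i =
        ∑ i ∈ Finset.univ.erase l, (w i : ℚ) * (c i l : ℚ) ^ 2 := by
      apply Finset.sum_congr rfl
      intro i hi
      have h4 : tab w d ε c (some i) (some l) = (w i : ℤ) * c i l := if_neg (Finset.ne_of_mem_erase hi)
      rw [h4]
      have hwi := (hwq i).ne'
      push_cast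
      field_simp
    rw [h3, h2] at h1
    set S := ∑ i ∈ Finset.univ.erase l, (w i : ℚ) * (c i l : ℚ) ^ 2 with hS
    have hwl := (hwq l).ne'
    push_cast at h1
    rw [haeq l] at h1
    field_simp at h1
    have h5 := hε2 l
    have h6 : (w l : ℚ) * (e l : ℚ) = (w l : ℚ) * (1 + S + (w l : ℚ) * (c l l : ℚ) ^ 2 -
        2 * (ε l : ℚ) * (c l l : ℚ)) := by
      nlinarith [h1, h5]
    exact mul_left_cancel₀ hwl h6
  -- the row relation
  have hrow : ∀ i, ∑ l ∈ Finset.univ.erase i, (w l : ℚ) / a l * (c i l : ℚ) ^ 2 ≤ (e i : ℚ) / a i := by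
    intro i
    have h1 := h (some i) (some i)
    rw [if_pos rfl, Fintype.sum_option, ← Finset.add_sum_erase _ _ (Finset.mem_univ i)] at h1
    have h2 : tab w d ε c (some i) (some i) = (w i : ℤ) * c i i - ε i := if_pos rfl
    have h3 : ∑ l ∈ Finset.univ.erase i, (tab w d ε c (some i) (some l) : ℚ) *
        (tab w d ε c (some i) (some l) : ℚ) * msr g a w (some l) =
        (w i : ℚ) ^ 2 * ∑ l ∈ Finset.univ.erase i, (w l : ℚ) / a l * (c i l : ℚ) ^ 2 := by
      rw [Finset.mul_sum]
      apply Finset.sum_congr rfl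
      intro l hl
      have h4 : tab w d ε c (some i) (some l) = (w i : ℤ) * c i l :=
        if_neg (Finset.ne_of_mem_erase hl).symm
      rw [h4]
      show _ * ((w l : ℚ) / a l) = _
      push_cast
      ring
    rw [h3, h2] at h1
    set S := ∑ l ∈ Finset.univ.erase i, (w l : ℚ) / a l * (c i l : ℚ) ^ 2 with hS
    have h4 : (1 : ℚ) ≤ (((w i : ℤ) * c i i - ε i : ℤ) : ℚ) * (((w i : ℤ) * c i i - ε i : ℤ) : ℚ) := by
      have h5 : (w i : ℤ) * c i i - ε i ≠ 0 := by
        obtain ⟨k, hk⟩ := hw i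
        rcases hε i with h6 | h6
        · rw [h6, hk]
          push_cast
          intro h7
          have : (2 : ℤ) * ((k : ℤ) * c i i) = 1 := by linarith
          omega
        · rw [h6, hk]
          push_cast
          intro h7
          have : (2 : ℤ) * ((k : ℤ) * c i i) = -1 := by linarith
          omega
      have h6 : (1 : ℤ) ≤ ((w i : ℤ) * c i i - ε i) * ((w i : ℤ) * c i i - ε i) := by
        have : 0 < ((w i : ℤ) * c i i - ε i) * ((w i : ℤ) * c i i - ε i) := mul_self_pos.mpr h5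
        omega
      exact_mod_cast h6
    set Q := (((w i : ℤ) * c i i - ε i : ℤ) : ℚ) * (((w i : ℤ) * c i i - ε i : ℤ) : ℚ) with hQ
    have h5 : (0 : ℚ) ≤ (tab w d ε c (some i) none : ℚ) * (tab w d ε c (some i) none : ℚ) *
        msr g a w none := by
      have h6 : (0 : ℚ) ≤ msr g a w none := by
        show (0 : ℚ) ≤ 1 / g
        positivity
      exact mul_nonneg (mul_self_nonneg _) h6
    have h6 : msr g a w (some i) = (w i : ℚ) / a i := rfl
    have h7 : nrm w (some i) = (w i : ℚ) := rfl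
    rw [h6, h7] at h1
    have hwi := hwq i
    have hai := haq i
    have h8 : (w i : ℚ) ^ 2 * S ≤ w i - Q * ((w i : ℚ) / a i) := by linarith
    have h9 : (w i : ℚ) / a i ≤ Q * ((w i : ℚ) / a i) := by
      have : (0 : ℚ) ≤ (w i : ℚ) / a i := by positivity
      nlinarith
    have h10 : (w i : ℚ) ^ 2 * S ≤ (w i : ℚ) ^ 2 * ((e i : ℚ) / a i) := by
      have h11 : (w i : ℚ) ^ 2 * ((e i : ℚ) / a i) = w i - (w i : ℚ) / a i := by
        have h12 : (w i : ℚ) * e i = a i - 1 := by rw [haeq i]; ring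
        have h13 : (w i : ℚ) ^ 2 * ((e i : ℚ) / a i) = (w i : ℚ) * (w i * e i) / a i := by ring
        rw [h13, h12]
        field_simp
      rw [h11]
      linarith
    exact le_of_mul_le_mul_left h10 (by positivity)
  -- choose the smallest
  obtain ⟨i₀, -, hmin⟩ := Finset.exists_min_image (Finset.univ : Finset ι) a ⟨Classical.arbitrary ι, Finset.mem_univ _⟩
  have hmin' : ∀ l, l ≠ i₀ → a i₀ + 1 ≤ a l := by
    intro l hl
    have h1 := hmin l (Finset.mem_univ l)
    have h2 : a l ≠ a i₀ := fun h3 => hl (hinj h3)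
    omega
  have hA : ∑ l ∈ Finset.univ.erase i₀, (w l : ℚ) / a l ≤
      (e i₀ : ℚ) / a i₀ + (e i₀ - 1) / (a i₀ + 1) := by
    have h1 : ∑ l ∈ Finset.univ.erase i₀, (w l : ℚ) / a l ≤
        ∑ l ∈ Finset.univ.erase i₀, (w l : ℚ) / a l * (c i₀ l : ℚ) ^ 2 +
        ∑ l ∈ Finset.univ.erase i₀, (w l : ℚ) / a l * (c l i₀ : ℚ) ^ 2 := by
      rw [← Finset.sum_add_distrib]
      apply Finset.sum_le_sum
      intro l hl
      have h2 := hpar i₀ l (Finset.ne_of_mem_erase hl).symm
      have h3 : (0 : ℚ) ≤ (w l : ℚ) / a l := by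
        have := hwq l
        have := haq l
        positivity
      have h4 : (1 : ℚ) ≤ (c i₀ l : ℚ) ^ 2 + (c l i₀ : ℚ) ^ 2 := by
        have h5 : (1 : ℤ) ≤ (c i₀ l) ^ 2 + (c l i₀) ^ 2 := by
          have h7 := sq_nonneg (c i₀ l)
          have h8 := sq_nonneg (c l i₀)
          rcases h2 with h6 | h6
          · have := sq_pos_of_ne_zero h6
            omega
          · have := sq_pos_of_ne_zero h6
            omega
        exact_mod_cast h5
      nlinarith
    have h2 : ∑ l ∈ Finset.univ.erase i₀, (w l : ℚ) / a l * (c l i₀ : ℚ) ^ 2 ≤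
        (1 / (a i₀ + 1)) * ∑ l ∈ Finset.univ.erase i₀, (w l : ℚ) * (c l i₀ : ℚ) ^ 2 := by
      rw [Finset.mul_sum]
      apply Finset.sum_le_sum
      intro l hl
      have h3 := hmin' l (Finset.ne_of_mem_erase hl)
      have h4 : (a i₀ : ℚ) + 1 ≤ a l := by exact_mod_cast h3
      have h5 := haq i₀
      have h6 : (1 : ℚ) / a l ≤ 1 / (a i₀ + 1) := one_div_le_one_div_of_le (by linarith) h4
      have h7 : (0 : ℚ) ≤ (w l : ℚ) * (c l i₀ : ℚ) ^ 2 := by
        have := hwq l
        positivity
      have h8 : (w l : ℚ) / a l * (c l i₀ : ℚ) ^ 2 = 1 / a l * ((w l : ℚ) * (c l i₀ : ℚ) ^ 2) := by ring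
      rw [h8]
      exact mul_le_mul_of_nonneg_right h6 h7
    have h3 : ∑ l ∈ Finset.univ.erase i₀, (w l : ℚ) * (c l i₀ : ℚ) ^ 2 ≤ e i₀ - 1 := by
      have h4 := hstar i₀
      have h5 : (0 : ℚ) ≤ (w i₀ : ℚ) * (c i₀ i₀ : ℚ) ^ 2 - 2 * (ε i₀ : ℚ) * (c i₀ i₀ : ℚ) := by
        have h6 : (0 : ℤ) ≤ (w i₀ : ℤ) * (c i₀ i₀) ^ 2 - 2 * ε i₀ * c i₀ i₀ := by
          have h7 : (2 : ℤ) ≤ w i₀ := by
            have := hw0 i₀
            have := hw i₀
            omega
          have h8 : 0 ≤ (c i₀ i₀) ^ 2 - ε i₀ * c i₀ i₀ := by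
            have h9 : ∀ z : ℤ, 0 ≤ z ^ 2 - z := fun z => by
              have : 0 ≤ z * (z - 1) := by
                rcases le_or_gt z 0 with h | h
                · exact mul_nonneg_of_nonpos_of_nonpos h (by omega)
                · exact mul_nonneg h.le (by omega)
              nlinarith
            rcases hε i₀ with h10 | h10
            · have := h9 (c i₀ i₀)
              rw [h10]
              linarith
            · have := h9 (-c i₀ i₀)
              rw [h10]
              nlinarith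
          nlinarith [sq_nonneg (c i₀ i₀)]
        exact_mod_cast h6
      linarith
    have h4 := hrow i₀
    have h5 : (0 : ℚ) < 1 / (a i₀ + 1) := by
      have := haq i₀
      positivity
    have h6 : (1 / ((a i₀ : ℚ) + 1)) * ∑ l ∈ Finset.univ.erase i₀, (w l : ℚ) * (c l i₀ : ℚ) ^ 2 ≤
        (1 / ((a i₀ : ℚ) + 1)) * (e i₀ - 1) := mul_le_mul_of_nonneg_left h3 h5.le
    have h7 : (1 / ((a i₀ : ℚ) + 1)) * ((e i₀ : ℚ) - 1) = (e i₀ - 1) / (a i₀ + 1) := by ring
    rw [h7] at h6
    linarith
  rw [← Finset.add_sum_erase _ _ (Finset.mem_univ i₀)] at hmeas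
  have he3 : (3 : ℚ) ≤ e i₀ := by exact_mod_cast he i₀
  apply final_ineq (g := g) (e := e i₀) (w := w i₀) he3
  · have h1 := hw i₀
    have h2 := hw0 i₀
    rcases Nat.lt_or_ge (w i₀) 4 with h3 | h3
    · left
      have : w i₀ = 2 := by omega
      rw [this]
      norm_num
    · right
      exact_mod_cast h3
  · have h1 := hg i₀
    rw [← haeq]
    exact_mod_cast h1
  · have h1 := haeq i₀
    have h2 : (2 : ℚ) + w i₀ * e i₀ = a i₀ + 1 := by rw [h1]; ring
    rw [← h1, h2]
    have h3 : ((w i₀ : ℚ) + e i₀) / a i₀ = (w i₀ : ℚ) / a i₀ + (e i₀ : ℚ) / a i₀ := by ring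
    rw [h3]
    linarith

end

end Pool.Agent.Lib.MP_4f0ec0_al
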