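import Mathlib
import Pool.Agent.Lib.MP_4f0ec0_al.Chr4
import Pool.Agent.Lib.MP_4f0ec0_al.Suz1
import Pool.Agent.Lib.MP_4f0ec0_al.Loc9

/-! Nonabelian simple CA-groups have even order (Suzuki). -/

set_option linter.unusedSectionVars false

namespace Pool.Agent.Lib.MP_4f0ec0_al

open Function Subgroup

lemma bil_one_one {G : Type} [Group G] [Fintype G] : bil (fun _ : G => (1 : ℂ)) (fun _ => 1) = 1 := by
  unfold bil
  have h0 : (Nat.card G : ℂ) ≠ 0 := card_ne_zero'
  rw [Finset.sum_const, Finset.card_univ, nsmul_eq_mul, mul_one, mul_one, ← Nat.card_eq_fintype_card]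
  exact inv_mul_cancel₀ h0

/-- The trivial character is irreducible. -/
lemma isIrr_one {G : Type} [Group G] : IsIrr (fun _ : G => (1 : ℂ)) := by
  refine ⟨ℂ, _, _, inferInstance, Representation.trivial ℂ G ℂ, ?_, ?_⟩
  · have hnt : Nontrivial (Subrepresentation (Representation.trivial ℂ G ℂ)) := by
      refine ⟨⟨⊥, ⊤, fun h => ?_⟩⟩
      have h1 : (⊥ : Submodule ℂ ℂ) = ⊤ := congrArg Subrepresentation.toSubmodule h
      exact bot_ne_top h1
    refine ⟨fun W => ?_⟩
    rcases eq_bot_or_eq_top W.toSubmodule with h | h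
    · left
      exact Subrepresentation.toSubmodule_injective h
    · right
      exact Subrepresentation.toSubmodule_injective h
  · funext g
    show LinearMap.trace ℂ ℂ (LinearMap.id) = 1
    rw [LinearMap.trace_id, Module.finrank_self, Nat.cast_one]

section

variable {G : Type} [Group G] [Finite G]

lemma CA.isTI (hCA : CA G) {z : G} (hz : z ≠ 1) : TI (centralizer ({z} : Set G)) where
  comm := hCA z hz
  ti := by
    intro x hx hx1 g hg
    have h1 : g⁻¹ * x * g ≠ 1 := by
      have := conj_ne_one (g := g⁻¹) hx1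
      rwa [inv_inv] at this
    have h2 := hCA.eq hz hx1 hx
    have h3 := hCA.eq hz h1 hg
    rw [mem_normalizer_cnj]
    nth_rewrite 1 [← h3]
    rw [cnj_centralizer, ← h2]
    congr 2
    group
  free := fun n _ x hx hx1 h => hCA.free hz hx hx1 h

end

open Classical in
theorem suzuki {G : Type} [Group G] [Finite G] (hodd : ¬ 2 ∣ Nat.card G) (hCA : CA G)
    (hS : NonabSimple G) : False := by
  have : Fintype G := Fintype.ofFinite G
  have hpart := hCA.part
  obtain ⟨I, h1, h2, h3⟩ := hpart.exists_reps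
  choose z hz1 hz using h1
  have hgpos : 0 < Nat.card G := Nat.card_pos
  have hg0 : (Nat.card G : ℂ) ≠ 0 := card_ne_zero'
  -- the index type
  have hzA : ∀ i : {A // A ∈ I}, centralizer ({z i.1 i.2} : Set G) = i.1 := fun i => hz i.1 i.2
  have hTI : ∀ i : {A // A ∈ I}, TI i.1 := fun i => by
    rw [← hzA i]
    exact hCA.isTI (hz1 i.1 i.2)
  have hC : ∀ (i : {A // A ∈ I}) (x : G), x ∈ i.1 → x ≠ 1 → centralizer ({x} : Set G) = i.1 := by
    intro i x hx hx1
    rw [← hzA i] at hx ⊢
    exact hCA.eq (hz1 i.1 i.2) hx1 hx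
  have hJfin : ∀ i : {A // A ∈ I}, Fintype (JQ i.1) := fun i => @Fintype.ofFinite _ (jq_finite (hTI i))
  -- orders
  have hcard1 : ∀ i : {A // A ∈ I}, 1 < Nat.card i.1 := fun i => by
    have := hpart.card_one_lt (hz1 i.1 i.2)
    rw [hz] at this
    exact this
  have hoddd : ∀ n : ℕ, n ∣ Nat.card G → ¬ 2 ∣ n := fun n hn h => hodd (h.trans hn)
  have hNe : ∀ i : {A // A ∈ I}, ∃ e, Nat.card (normalizer (i.1 : Set G)) = Nat.card i.1 * e :=
    fun i => Subgroup.card_dvd_of_le le_normalizer
  choose e he using hNe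
  have hNG : ∀ i : {A // A ∈ I}, Nat.card (normalizer (i.1 : Set G)) ∣ Nat.card G := fun i =>
    Subgroup.card_subgroup_dvd_card _
  have he2 : ∀ i, ¬ 2 ∣ e i := fun i => hoddd _ ((Dvd.intro_left _ (he i).symm).trans (hNG i))
  have he1 : ∀ i, e i ≠ 1 := by
    intro i hi
    have h4 := hCA.normalizer_ne hS (hz1 i.1 i.2)
    rw [hzA i] at h4
    apply h4
    symm
    apply Subgroup.eq_of_le_of_card_ge le_normalizer
    rw [he i, hi, mul_one]
  have he0 : ∀ i, e i ≠ 0 := by
    intro i hi
    have h4 := he i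
    rw [hi, mul_zero] at h4
    have : 0 < Nat.card (normalizer (i.1 : Set G)) := Nat.card_pos
    omega
  have he3 : ∀ i, 3 ≤ e i := fun i => by
    have := he0 i
    have := he1 i
    have := he2 i
    omega
  have hwe : ∀ i : {A // A ∈ I}, Nat.card i.1 = 1 + Nat.card (JQ i.1) * e i := by
    intro i
    have h4 := card_jq (hTI i)
    rw [he i] at h4
    have h5 : 0 < Nat.card i.1 := Nat.card_pos
    have h6 : Nat.card (JQ i.1) * e i = Nat.card i.1 - 1 := by
      apply Nat.eq_of_mul_eq_mul_right h5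
      rw [← h4]
      ring
    omega
  have hw2 : ∀ i : {A // A ∈ I}, 2 ∣ Nat.card (JQ i.1) := by
    intro i
    have h4 := hwe i
    have h5 := hoddd _ (Subgroup.card_subgroup_dvd_card i.1)
    have h6 : 2 ∣ Nat.card (JQ i.1) * e i := by omega
    rcases (Nat.Prime.dvd_mul Nat.prime_two).mp h6 with h7 | h7
    · exact h7
    · exact absurd h7 (he2 i)
  have hw0 : ∀ i : {A // A ∈ I}, 0 < Nat.card (JQ i.1) := by
    intro i
    have h4 := hwe i
    have h5 := hcard1 i
    rcases Nat.eq_zero_or_pos (Nat.card (JQ i.1)) with h6 | h6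
    · rw [h6] at h4
      omega
    · exact h6
  have hw1 : ∀ i : {A // A ∈ I}, 1 < Nat.card (JQ i.1) := fun i => by
    have := hw0 i
    have := hw2 i
    omega
  -- exceptional characters
  have hexc := fun i : {A // A ∈ I} => exists_exc (hTI i) (hw1 i)
  choose ε γ c hε hγ hconst hceq hsum hvan hne1 using hexc
  have hJne : ∀ i : {A // A ∈ I}, Nonempty (JQ i.1) := fun i => (Nat.card_pos_iff.mp (hw0 i)).1
  have hJnt : ∀ i : {A // A ∈ I}, Nontrivial (JQ i.1) := fun i =>
    Finite.one_lt_card_iff_nontrivial.mp (hw1 i)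
  -- uniqueness of the class
  have huniq : ∀ (i l : {A // A ∈ I}) (x g k : G), x ≠ 1 → g⁻¹ * x * g ∈ i.1 → k⁻¹ * x * k ∈ l.1 →
      i = l := by
    intro i l x g k hx hg hk
    have hcn : ∀ y : G, y⁻¹ * x * y ≠ 1 := fun y => by
      have := conj_ne_one (g := y⁻¹) hx
      rwa [inv_inv] at this
    have h4 : ∀ (i : {A // A ∈ I}) (g : G), g⁻¹ * x * g ∈ i.1 → centralizer ({x} : Set G) = cnj g i.1 := by
      intro i g hg
      rw [← hC i _ hg (hcn g), cnj_centralizer]
      congr 2
      group
    have h5 := h4 i g hg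
    have h6 := h4 l k hk
    apply Subtype.ext
    apply h2 i.1 i.2 l.1 l.2
    refine ⟨k⁻¹ * g, ?_⟩
    rw [cnj_mul, ← h5, h6, cnj_inv_cnj]
  -- disjointness of the families
  have hdisj : ∀ (i l : {A // A ∈ I}) (j : JQ i.1) (k : JQ l.1), i ≠ l → γ i j ≠ γ l k := by
    intro i l j k hil heq
    obtain ⟨j', hj'⟩ := exists_ne j
    obtain ⟨k', hk'⟩ := exists_ne k
    have h4 : bil (fun x => (γ i j).1 x - (γ i j').1 x) (fun x => (γ l k).1 x - (γ l k').1 x) = 0 := by
      unfold bil
      rw [Finset.sum_eq_zero, mul_zero]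
      intro x _
      show ((γ i j).1 x - (γ i j').1 x) * ((γ l k).1 x⁻¹ - (γ l k').1 x⁻¹) = 0
      by_cases hx : ∀ g, g⁻¹ * x * g ∈ i.1 → x = 1
      · rw [hvan i j j' x hx, sub_self, zero_mul]
      · push Not at hx
        obtain ⟨g, hg, hx1⟩ := hx
        rw [hvan l k k' x⁻¹, sub_self, mul_zero]
        intro g' hg'
        exfalso
        apply hil
        apply huniq i l x g g' hx1 hg
        have h5 := inv_mem hg'
        have h6 : (g'⁻¹ * x⁻¹ * g')⁻¹ = g'⁻¹ * x * g' := by group
        rwa [h6] at h5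
    rw [bil_sub_left, bil_sub_right, bil_sub_right, bil_irr (γ i j).2 (γ l k).2,
      bil_irr (γ i j).2 (γ l k').2, bil_irr (γ i j').2 (γ l k).2, bil_irr (γ i j').2 (γ l k').2,
      if_pos (congrArg Subtype.val heq)] at h4
    rw [if_neg (fun h => hk' (hγ l (Subtype.ext (heq ▸ h.symm : (γ l k').1 = (γ l k).1)))),
      if_neg (fun h => hj' (hγ i (Subtype.ext (heq ▸ h : (γ i j').1 = (γ i j).1))))] at h4
    split_ifs at h4
    · norm_num at h4
    · norm_num at h4
  -- values
  have hvalne : ∀ (i l : {A // A ∈ I}) (j j' : JQ i.1) (x : G), i ≠ l → x ∈ l.1 →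
      (γ i j).1 x = (γ i j').1 x := by
    intro i l j j' x hil hx
    apply hvan i j j' x
    intro g hg
    by_contra hx1
    exact hil (huniq i l x g 1 hx1 hg (by simpa using hx))
  choose dg hdg0 hdg using fun χ : IrrC G => χ.2.degree
  let j0 : ∀ i : {A // A ∈ I}, JQ i.1 := fun i => Classical.arbitrary _
  let w : {A // A ∈ I} → ℕ := fun i => Nat.card (JQ i.1)
  let a : {A // A ∈ I} → ℕ := fun i => Nat.card i.1
  let C : {A // A ∈ I} → {A // A ∈ I} → ℤ := fun i l => c l (γ i (j0 i))
  let d : {A // A ∈ I} → ℤ := fun i => dg (γ i (j0 i))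
  let X : Option {A // A ∈ I} → G → ℂ := fun s => match s with
    | none => fun _ => 1
    | some i => fun x => ∑ j, (γ i j).1 x
  have hX1 : ∀ s, X s 1 = (tab w d ε C s none : ℂ) := by
    intro s
    cases s with
    | none =>
      show (1 : ℂ) = ((1 : ℤ) : ℂ)
      norm_num
    | some i =>
      show ∑ j, (γ i j).1 1 = (((w i : ℤ) * d i : ℤ) : ℂ)
      have h4 : ∀ j, (γ i j).1 1 = (dg (γ i (j0 i)) : ℂ) := by
        intro j
        rw [← hdg]
        apply hvan i j (j0 i) 1
        intro _ _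
        rfl
      simp only [h4]
      rw [Finset.sum_const, Finset.card_univ, nsmul_eq_mul]
      show _ = (((Nat.card (JQ i.1) : ℤ) * (dg (γ i (j0 i)) : ℤ) : ℤ) : ℂ)
      rw [Nat.card_eq_fintype_card]
      push_cast
      rfl
  have hXl : ∀ s (l : {A // A ∈ I}) (x : G), x ∈ l.1 → x ≠ 1 → X s x = (tab w d ε C s (some l) : ℂ) := by
    intro s l x hx hx1
    cases s with
    | none =>
      show (1 : ℂ) = ((1 : ℤ) : ℂ)
      norm_num
    | some i =>
      show ∑ j, (γ i j).1 x = ((if i = l then (w i : ℤ) * C i i - ε i else (w i : ℤ) * C i l : ℤ) : ℂ)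
      by_cases hil : i = l
      · subst hil
        rw [if_pos rfl, hsum i x hx hx1]
        have h4 : ∀ j, c i (γ i j) = C i i := fun j => hceq i j (j0 i)
        simp only [h4]
        rw [Finset.sum_const, Finset.card_univ, nsmul_eq_mul]
        show _ = (((Nat.card (JQ i.1) : ℤ) * C i i - ε i : ℤ) : ℂ)
        rw [Nat.card_eq_fintype_card]
      · rw [if_neg hil]
        have h4 : ∀ j, (γ i j).1 x = (C i l : ℂ) := by
          intro j
          rw [hvalne i l j (j0 i) x hil hx]
          apply hconst l (γ i (j0 i)) (fun k h => hdisj i l (j0 i) k hil h.symm) x hx hx1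
        simp only [h4]
        rw [Finset.sum_const, Finset.card_univ, nsmul_eq_mul]
        show _ = (((Nat.card (JQ i.1) : ℤ) * C i l : ℤ) : ℂ)
        rw [Nat.card_eq_fintype_card]
        push_cast
        rfl
  have hXcl : ∀ s, IsClass (X s) := by
    intro s g x
    cases s with
    | none => rfl
    | some i =>
      show ∑ j, (γ i j).1 (g * x * g⁻¹) = ∑ j, (γ i j).1 x
      apply Finset.sum_congr rfl
      intro j _
      exact (γ i j).2.isClass g x
  -- orthogonality
  have horth : ∀ s t, bil (X s) (X t) = if s = t then ((nrm w s : ℚ) : ℂ) else 0 := by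
    have hγ1 : ∀ (i : {A // A ∈ I}) (j : JQ i.1), bil (γ i j).1 (fun _ => 1) = 0 := by
      intro i j
      rw [bil_irr (γ i j).2 isIrr_one, if_neg (hne1 i j)]
    intro s t
    cases s with
    | none =>
      cases t with
      | none =>
        rw [if_pos rfl]
        show bil (fun _ => (1 : ℂ)) (fun _ => 1) = ((1 : ℚ) : ℂ)
        rw [bil_one_one]
        norm_num
      | some l =>
        rw [if_neg (by simp)]
        show bil (fun _ => (1 : ℂ)) (fun x => ∑ j, (γ l j).1 x) = 0
        rw [bil_comm, bil_sum_left Finset.univ (fun j => (γ l j).1)]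
        exact Finset.sum_eq_zero (fun j _ => hγ1 l j)
    | some i =>
      cases t with
      | none =>
        rw [if_neg (by simp)]
        show bil (fun x => ∑ j, (γ i j).1 x) (fun _ => (1 : ℂ)) = 0
        rw [bil_sum_left Finset.univ (fun j => (γ i j).1)]
        exact Finset.sum_eq_zero (fun j _ => hγ1 i j)
      | some l =>
        show bil (fun x => ∑ j, (γ i j).1 x) (fun x => ∑ k, (γ l k).1 x) = _
        rw [bil_sum_left Finset.univ (fun j => (γ i j).1)]
        simp only [bil_sum_right Finset.univ (fun k => (γ l k).1)]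
        by_cases hil : i = l
        · subst hil
          rw [if_pos rfl]
          have h4 : ∀ j k : JQ i.1, bil (γ i j).1 (γ i k).1 = if j = k then (1 : ℂ) else 0 := by
            intro j k
            rw [bil_irr (γ i j).2 (γ i k).2]
            by_cases hjk : j = k
            · rw [if_pos hjk, if_pos (by rw [hjk])]
            · rw [if_neg hjk, if_neg (fun h => hjk (hγ i (Subtype.ext h)))]
          simp only [h4]
          simp only [Finset.sum_ite_eq, Finset.mem_univ, if_true]
          rw [Finset.sum_const, Finset.card_univ, nsmul_eq_mul, mul_one]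
          show _ = (((Nat.card (JQ i.1) : ℕ) : ℚ) : ℂ)
          rw [Nat.card_eq_fintype_card]
          push_cast
          rfl
        · rw [if_neg (by simpa using hil)]
          apply Finset.sum_eq_zero
          intro j _
          apply Finset.sum_eq_zero
          intro k _
          rw [bil_irr (γ i j).2 (γ l k).2, if_neg (fun h => hdisj i l j k hil (Subtype.ext h))]
  -- the table relation
  have htab : ∀ s t, ∑ u, (tab w d ε C s u : ℚ) * (tab w d ε C t u : ℚ) * msr (Nat.card G) a w u =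
      if s = t then nrm w s else 0 := by
    intro s t
    have h4 := horth s t
    unfold bil at h4
    have hF : ∀ g y : G, X s (g * y * g⁻¹) * X t (g * y * g⁻¹)⁻¹ = X s y * X t y⁻¹ := by
      intro g y
      have h5 : (g * y * g⁻¹)⁻¹ = g * y⁻¹ * g⁻¹ := by group
      rw [h5, hXcl s, hXcl t]
    rw [hpart.sum_eq (fun A hA => ⟨z A hA, hz1 A hA, hz A hA⟩) h2 h3 (fun x => X s x * X t x⁻¹) hF,
      ← Finset.sum_coe_sort I] at h4
    have h5 : ∀ l : {A // A ∈ I}, ((Nat.card G : ℂ) / (Nat.card (normalizer (l.1 : Set G)) : ℂ)) *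
        ∑ y ∈ Finset.univ.filter (fun y => y ≠ 1 ∧ y ∈ l.1), X s y * X t y⁻¹ =
        (Nat.card G : ℂ) * (((tab w d ε C s (some l) : ℚ) * (tab w d ε C t (some l) : ℚ) *
          msr (Nat.card G) a w (some l) : ℚ) : ℂ) := by
      intro l
      have h6 : ∑ y ∈ Finset.univ.filter (fun y => y ≠ 1 ∧ y ∈ l.1), X s y * X t y⁻¹ =
          (tab w d ε C s (some l) : ℂ) * (tab w d ε C t (some l) : ℂ) * ((Nat.card l.1 : ℂ) - 1) := by
        rw [← sum_part_one, Finset.mul_sum]
        apply Finset.sum_congr rfl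
        intro y hy
        obtain ⟨-, hy1, hyl⟩ := Finset.mem_filter.mp hy
        rw [hXl s l y hyl hy1, hXl t l y⁻¹ (inv_mem hyl) (inv_ne_one.mpr hy1), mul_one]
      rw [h6, he l]
      have h7 : (Nat.card l.1 : ℂ) ≠ 0 := Nat.cast_ne_zero.mpr Nat.card_pos.ne'
      have h8 : (e l : ℂ) ≠ 0 := Nat.cast_ne_zero.mpr (he0 l)
      have h9 : (Nat.card l.1 : ℂ) - 1 = (w l : ℂ) * (e l : ℂ) := by
        have h10 : (Nat.card l.1 : ℂ) = 1 + (Nat.card (JQ l.1) : ℂ) * (e l : ℂ) := by
          have h11 := hwe l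
          exact_mod_cast h11
        rw [h10]
        show 1 + (Nat.card (JQ l.1) : ℂ) * (e l : ℂ) - 1 = (Nat.card (JQ l.1) : ℂ) * (e l : ℂ)
        ring
      have h10 : msr (Nat.card G) a w (some l) = (w l : ℚ) / (Nat.card l.1 : ℚ) := rfl
      rw [h9, h10]
      push_cast
      field_simp
    have h6 : ∀ l : {A // A ∈ I}, ((Nat.card G : ℂ) / (Nat.card (normalizer ((l : Subgroup G) : Set G)) : ℂ)) *
        ∑ y ∈ Finset.univ.filter (fun y => y ≠ 1 ∧ y ∈ (l : Subgroup G)), X s y * X t y⁻¹ =
        (Nat.card G : ℂ) * (((tab w d ε C s (some l) : ℚ) * (tab w d ε C t (some l) : ℚ) *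
          msr (Nat.card G) a w (some l) : ℚ) : ℂ) := h5
    rw [Finset.sum_congr rfl (fun l _ => h6 l)] at h4
    rw [Fintype.sum_option]
    have h7 : (((tab w d ε C s none : ℚ) * (tab w d ε C t none : ℚ) * msr (Nat.card G) a w none +
        ∑ l, (tab w d ε C s (some l) : ℚ) * (tab w d ε C t (some l) : ℚ) *
          msr (Nat.card G) a w (some l) : ℚ) : ℂ) = ((if s = t then nrm w s else 0 : ℚ) : ℂ) := by
      have h8 : msr (Nat.card G) a w none = 1 / (Nat.card G : ℚ) := rfl
      rw [h8]
      have h9 : ((if s = t then nrm w s else 0 : ℚ) : ℂ) = if s = t then ((nrm w s : ℚ) : ℂ) else 0 := by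
        split_ifs <;> simp
      rw [h9, ← h4, inv_one, hX1 s, hX1 t, ← Finset.mul_sum]
      push_cast
      field_simp
    exact_mod_cast h7
  -- the conclusion
  have hne : Nonempty {A // A ∈ I} := by
    obtain ⟨x, y, hxy⟩ := hS.2.2
    have hx : x ≠ 1 := by
      rintro rfl
      exact hxy (by rw [one_mul, mul_one])
    obtain ⟨A, hA, -⟩ := h3 x hx
    exact ⟨⟨A, hA⟩⟩
  apply numeric (Nat.card G) a e w d ε C hwe he3 hw2 hw0 hε
  · -- distinct orders
    intro i l hil
    have hil' : Nat.card i.1 = Nat.card l.1 := hil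
    obtain ⟨r, hr, hrd⟩ := Nat.exists_prime_and_dvd (hcard1 i).ne'
    obtain ⟨k, hk⟩ := hCA.conj_of_dvd (hz1 i.1 i.2) (hz1 l.1 l.2) hr (by rw [hzA]; exact hrd)
      (by rw [hzA, ← hil']; exact hrd)
    rw [hzA, hzA] at hk
    exact Subtype.ext (h2 i.1 i.2 l.1 l.2 ⟨k, hk⟩)
  · -- the order of the group
    intro i
    have h4 : Nat.card (normalizer (i.1 : Set G)) ≠ Nat.card G := by
      intro h5
      have h6 : normalizer (i.1 : Set G) = ⊤ := Subgroup.eq_top_of_card_eq _ h5
      have h7 : (i.1 : Subgroup G).Normal := Subgroup.normalizer_eq_top_iff.mp h6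
      rcases hS.2.1.eq_bot_or_eq_top_of_normal _ h7 with h8 | h8
      · have h9 := hcard1 i
        rw [h8, Subgroup.card_bot] at h9
        omega
      · obtain ⟨x, y, hxy⟩ := hS.2.2
        apply hxy
        exact (hTI i).comm x (by rw [h8]; trivial) y (by rw [h8]; trivial)
    obtain ⟨k, hk⟩ := hNG i
    have hk2 : 2 ≤ k := by
      rcases Nat.lt_or_ge k 2 with h5 | h5
      · interval_cases k
        · omega
        · rw [mul_one] at hk
          exact absurd hk.symm h4
      · exact h5
    show 2 * (Nat.card i.1 * e i) ≤ Nat.card G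
    rw [← he i, hk]
    nlinarith [Nat.zero_le (Nat.card (normalizer (i.1 : Set G)))]
  · exact htab

end Pool.Agent.Lib.MP_4f0ec0_al
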