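import Mathlib
import Pool.Agent.Lib.MP_4f0ec0_al.Suz2
import Pool.Agent.Lib.MP_4f0ec0_al.Even2

/-! The almost supersolvable numbers: the unconditional characterisation. -/

namespace Pool.Agent.Lib.MP_4f0ec0_al

open Function Subgroup

theorem cfg_sixty {G : Type} [Group G] [Finite G] {p q a M : ℕ} (h : Cfg G p q a M) :
    60 ∣ Nat.card G := by
  have hfp : Fact p.Prime := ⟨h.hp⟩
  rcases Nat.lt_or_ge a 3 with ha | ha
  · have ha2 : a = 2 := by have := h.ha; omega
    subst ha2
    obtain ⟨rfl, rfl⟩ := h.two_three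
    have h5 := h.five_dvd
    have h12 : 12 ∣ Nat.card G := by
      rw [h.card]
      exact ⟨M, by ring⟩
    exact Nat.Coprime.mul_dvd_of_dvd_of_dvd (by norm_num : Nat.Coprime 12 5) h12 h5
  · exfalso
    rcases h.hp.eq_two_or_odd with hp2 | hp2
    · subst hp2
      exact h.even_false ha
    · have hpodd : ¬ 2 ∣ p := by omega
      have hp1 : 2 ∣ p - 1 := by
        have := h.hp.two_le
        omega
      have hodd : ¬ 2 ∣ Nat.card G := by
        intro h2
        have h2p : 2 ≠ p := by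
          intro h3
          omega
        rcases h.dvd_qM Nat.prime_two h2p h2 with h3 | h3
        · have h4 := h.hpq
          have := h.hp.two_le
          omega
        · exact h.ht 2 Nat.prime_two h3 1 one_pos (by omega) (by rwa [pow_one])
      exact suzuki hodd (h.ca ha) h.simple

theorem typeA_sol {n : ℕ} (hn : n ≠ 0) (hA : TypeA n) (h60 : ¬ 60 ∣ n) (G : Type) [Group G]
    (hG : Nat.card G ∣ n) : Group.IsSolvable G := by
  by_contra hs
  obtain ⟨S, _, hS, hSn, hsol⟩ := exists_min_simple hn ⟨G, _, hG, hs⟩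
  have hfin : Finite S := hS.1
  obtain ⟨p, q, a, M, hcfg, -⟩ := exists_cfg hn hA hS hSn hsol
  exact h60 ((cfg_sixty hcfg).trans hSn)

theorem almost_iff_unconditional {n : ℕ} (hn : 0 < n) : AlmostSupersolvable n ↔
    ¬ 60 ∣ n ∧ (TypeA n ∨ TypeB n ∨ TypeC n) := by
  rw [almost_iff hn]
  constructor
  · rintro ⟨h1, h2⟩
    refine ⟨fun h60 => ?_, h2⟩
    obtain ⟨G, _, hG, hs⟩ := exists_not_solvable_sixty hn.ne' h60
    exact hs (h1 G _ hG)
  · rintro ⟨h1, h2⟩
    refine ⟨fun G _ hG => ?_, h2⟩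
    rcases h2 with h | h | h
    · exact typeA_sol hn.ne' h h1 G (by rw [hG])
    · exact typeB_sol h G (by rw [hG]) hn.ne'
    · exact typeC_sol h G (by rw [hG]) hn.ne'

end Pool.Agent.Lib.MP_4f0ec0_al
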